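import Pool.Agent.RHT.ThP

/-!
RHT-ThF. `ThetaForm` of RHK/Ifc.lean. Plan. Step 1: `a + b` prime to `D`: `m (a+b) ≡ 1 mod D`,
`a' = a m % D`, `b' = b m % D`; `a' + b' ≡ 1`, `0 < a', b' < D`, so `a' + b' = D + 1` (`a' + b' = 1` is
impossible): `P = ⟨D, a', b'⟩`. `t' i = t i (a+b) % D`, `a' t' ≡ a t`, `b' t' ≡ b t mod D`, so
`t' i ∈ P.Phi`, `al (t' i) = (t i a % D)/D` etc.; `t'` is injective, prime to `D`, and takes all
values of `P.Phi` prime to `D` (both sets have `φ(D)/2` elements: for `t` prime to `D` exactly one of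
`t`, `D - t` is in `Phi`, `mem_Phi_neg`). `emb D c (t i) = emb D c'' (t' i)` with
`c''` the permuted coefficients (`j ↦ j m % D`).
Step 2: `a` or `b` prime to `D`: the type of `(a, b)` is the type of `(b, c)` and of `(a, c)`,
`c = (D - (a+b) % D)`: `{ta/D} + {tb/D} + {tc/D}` is `1` or `2`. The Beta values:
`Γ(1-α) Γ(1-β) / Γ(2-α-β)`, `γ = 2-α-β`, `= Γ(1-α) Γ(1-β) Γ(1-γ) sin(πγ)/π`, symmetric up to
algebraic factors `sin (π α) / sin (π γ)`.
-/

set_option autoImplicit false

namespace Pool.Agent.RHT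

open Complex ComplexConjugate Finset RHK

noncomputable section

/-- the conclusion of `ThetaForm` -/
private def ThF_C (D a b g : ℕ) (t : Fin g → ℕ) : Prop :=
  ∃ (s : (Fin g → ℂ) → ℂ) (κ v α : Fin g → ℝ) (N : ℕ), 0 < N ∧ (∀ i, 0 < κ i) ∧ (∀ i, 0 < v i) ∧
    (∀ i, IsAlgebraic ℚ (κ i / Real.pi)) ∧ (∀ i, IsAlgebraic ℚ (α i)) ∧ (∀ i, α i ≠ 0) ∧
    (∀ i, v i = α i * (Real.Gamma (1 - ((t i * a) % D : ℕ) / (D : ℝ)) *
      Real.Gamma (1 - ((t i * b) % D : ℕ) / (D : ℝ)) /
      Real.Gamma (2 - ((t i * a) % D : ℕ) / (D : ℝ) - ((t i * b) % D : ℕ) / (D : ℝ)))) ∧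
    Differentiable ℂ s ∧ (∃ z, s z ≠ 0) ∧ AlgTay s ∧
    ∀ c : ℕ → ℤ, QPn (fun z => s (fun i => v i * z i)) κ (fun i => (N : ℂ) * emb D c (t i))

private theorem ThF_swap {D a b g : ℕ} {t : Fin g → ℕ} (h : ThF_C D a b g t) :
    ThF_C D b a g t := by
  obtain ⟨s, κ, v, α, N, h1, h2, h3, h4, h5, h6, h7, h8⟩ := h
  refine ⟨s, κ, v, α, N, h1, h2, h3, h4, h5, h6, fun i => ?_, h8⟩
  rw [h7 i, mul_comm (Real.Gamma (1 - ((t i * a) % D : ℕ) / (D : ℝ)))]
  congr 3
  ring

private theorem ThF_sin_alg (m n : ℕ) : IsAlgebraic ℚ (Real.sin (Real.pi * ((m : ℝ) / n))) := by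
  have h := Real.isAlgebraic_sin_rat_mul_pi ((m : ℚ) / n)
  have h2 : IsAlgebraic ℚ (Real.sin ((((m : ℚ) / n : ℚ) : ℝ) * Real.pi)) :=
    h.extendScalars (by intro a b hab; exact_mod_cast hab)
  have e : Real.pi * ((m : ℝ) / n) = (((m : ℚ) / n : ℚ) : ℝ) * Real.pi := by
    push_cast
    ring
  rw [e]
  exact h2

private theorem ThF_sin_pos {x : ℝ} (h0 : 0 < x) (h1 : x < 1) : 0 < Real.sin (Real.pi * x) := by
  apply Real.sin_pos_of_pos_of_lt_pi
  · exact mul_pos Real.pi_pos h0
  · nlinarith [Real.pi_pos]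

/-- `c = D - (a+b) % D`: the residues add up to `D` or `2D` -/
private theorem ThF_abc {D a b t : ℕ} (hD : 2 < D) (ha : ¬ D ∣ a) (hb : ¬ D ∣ b)
    (hab : ¬ D ∣ a + b) (ht : Nat.Coprime t D) :
    0 < t * a % D ∧ t * a % D < D ∧ 0 < t * b % D ∧ t * b % D < D ∧
    0 < t * (D - (a + b) % D) % D ∧ t * (D - (a + b) % D) % D < D ∧
    (t * a % D + t * b % D + t * (D - (a + b) % D) % D = D ∨
      t * a % D + t * b % D + t * (D - (a + b) % D) % D = 2 * D) := by
  have hD0 : 0 < D := by omega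
  have h1 : ∀ x, ¬ D ∣ x → 0 < t * x % D := by
    intro x hx
    rcases Nat.eq_zero_or_pos (t * x % D) with h | h
    · exact absurd ((Nat.Coprime.dvd_mul_left ht.symm).1 (Nat.dvd_of_mod_eq_zero h)) hx
    · exact h
  have hlt : (a + b) % D < D := Nat.mod_lt _ hD0
  have hpos : 0 < (a + b) % D := by
    rcases Nat.eq_zero_or_pos ((a + b) % D) with h | h
    · exact absurd (Nat.dvd_of_mod_eq_zero h) hab
    · exact h
  have hc : ¬ D ∣ D - (a + b) % D := by
    intro h
    have := Nat.le_of_dvd (by omega) h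
    omega
  have hsum : (t * a % D + t * b % D + t * (D - (a + b) % D) % D) % D = 0 := by
    have e : t * a + t * b + t * (D - (a + b) % D) = t * (D * ((a + b) / D + 1)) := by
      have h2 := Nat.div_add_mod (a + b) D
      rw [← mul_add, ← mul_add]
      congr 1
      rw [mul_add, mul_one]
      omega
    rw [Nat.add_mod, Nat.add_mod (t * a % D), Nat.mod_mod, Nat.mod_mod, ← Nat.add_mod (t * a),
      Nat.mod_mod, ← Nat.add_mod, e, ← mul_assoc, mul_comm t D, mul_assoc, Nat.mul_mod_right]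
  have h3 := h1 a ha
  have h4 := h1 b hb
  have h5 := h1 _ hc
  have h6 := Nat.mod_lt (t * a) hD0
  have h7 := Nat.mod_lt (t * b) hD0
  have h8 := Nat.mod_lt (t * (D - (a + b) % D)) hD0
  refine ⟨h3, h6, h4, h7, h5, h8, ?_⟩
  obtain ⟨k, hk⟩ := Nat.dvd_of_mod_eq_zero hsum
  have hk1 : 0 < k := by
    rcases Nat.eq_zero_or_pos k with h | h
    · subst h
      omega
    · exact h
  have hk2 : k < 3 := by
    by_contra hcon
    have : D * 3 ≤ D * k := Nat.mul_le_mul_left D (by omega)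
    omega
  interval_cases k
  · left
    omega
  · right
    omega

/-- step 2: rotation of the three exponents -/
private theorem ThF_rot {D a b g : ℕ} {t : Fin g → ℕ} (hD : 2 < D) (ha : ¬ D ∣ a) (hb : ¬ D ∣ b)
    (hab : ¬ D ∣ a + b) (ht : ∀ i, InType D a b (t i))
    (h : ThF_C D b (D - (a + b) % D) g t) : ThF_C D a b g t := by
  obtain ⟨s, κ, v, α, N, h1, h2, h3, h4, h5, h6, h7, h8⟩ := h
  have hDR : (0 : ℝ) < D := by exact_mod_cast (by omega : 0 < D)
  have key : ∀ i, (0 < ((t i * a % D : ℕ) : ℝ) / D ∧ ((t i * a % D : ℕ) : ℝ) / D < 1) ∧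
      (0 < ((t i * b % D : ℕ) : ℝ) / D ∧ ((t i * b % D : ℕ) : ℝ) / D < 1) ∧
      (0 < ((t i * (D - (a + b) % D) % D : ℕ) : ℝ) / D ∧
        ((t i * (D - (a + b) % D) % D : ℕ) : ℝ) / D < 1) ∧
      ((t i * a % D : ℕ) : ℝ) / D + ((t i * b % D : ℕ) : ℝ) / D +
        ((t i * (D - (a + b) % D) % D : ℕ) : ℝ) / D = 2 := by
    intro i
    obtain ⟨q1, q2, q3, q4, q5, q6, q7⟩ := ThF_abc hD ha hb hab (ht i).1
    have q8 := (ht i).2
    have q9 : t i * a % D + t i * b % D + t i * (D - (a + b) % D) % D = 2 * D := by omega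
    refine ⟨⟨div_pos (by exact_mod_cast q1) hDR, (div_lt_one hDR).2 (by exact_mod_cast q2)⟩,
      ⟨div_pos (by exact_mod_cast q3) hDR, (div_lt_one hDR).2 (by exact_mod_cast q4)⟩,
      ⟨div_pos (by exact_mod_cast q5) hDR, (div_lt_one hDR).2 (by exact_mod_cast q6)⟩, ?_⟩
    have q10 : ((t i * a % D : ℕ) : ℝ) + ((t i * b % D : ℕ) : ℝ) +
        ((t i * (D - (a + b) % D) % D : ℕ) : ℝ) = 2 * D := by
      exact_mod_cast q9
    field_simp
    linarith
  refine ⟨s, κ, v, fun i => α i * (Real.sin (Real.pi * (((t i * a % D : ℕ) : ℝ) / D)) /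
    Real.sin (Real.pi * (((t i * (D - (a + b) % D) % D : ℕ) : ℝ) / D))), N, h1, h2, h3, h4,
    fun i => ?_, fun i => ?_, fun i => ?_, h8⟩
  · exact (h5 i).mul ((ThF_sin_alg _ _).mul (ThF_sin_alg _ _).inv)
  · obtain ⟨⟨a0, a1⟩, -, ⟨c0, c1⟩, -⟩ := key i
    exact mul_ne_zero (h6 i) (div_ne_zero (ThF_sin_pos a0 a1).ne' (ThF_sin_pos c0 c1).ne')
  · obtain ⟨⟨a0, a1⟩, ⟨b0, b1⟩, ⟨c0, c1⟩, e⟩ := key i
    rw [h7 i]
    dsimp only
    set A := ((t i * a % D : ℕ) : ℝ) / D
    set B := ((t i * b % D : ℕ) : ℝ) / D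
    set C := ((t i * (D - (a + b) % D) % D : ℕ) : ℝ) / D
    have eA : 2 - B - C = A := by linarith
    have eC : 2 - A - B = C := by linarith
    rw [eA, eC]
    have gA := Real.Gamma_mul_Gamma_one_sub A
    have gC := Real.Gamma_mul_Gamma_one_sub C
    have sA := ThF_sin_pos a0 a1
    have sC := ThF_sin_pos c0 c1
    have pA := Real.Gamma_pos_of_pos a0
    have pC := Real.Gamma_pos_of_pos c0
    have pi0 := Real.pi_pos
    have e1 : Real.Gamma (1 - C) = Real.pi / Real.sin (Real.pi * C) / Real.Gamma C := by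
      rw [← gC]
      field_simp
    have e2 : Real.Gamma (1 - A) = Real.pi / Real.sin (Real.pi * A) / Real.Gamma A := by
      rw [← gA]
      field_simp
    rw [e1, e2]
    field_simp

/-- `emb` after multiplication of the index by a unit -/
private theorem ThF_emb {D m u : ℕ} (hD : 0 < D) (hmu : m * u % D = 1 % D) (c : ℕ → ℤ) (t : ℕ) :
    emb D c t = emb D (fun j => c (u * j % D)) (t * u % D) := by
  have hDC : (D : ℂ) ≠ 0 := by exact_mod_cast hD.ne'
  -- exponentials depend only on the residue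
  have hexp : ∀ x y : ℕ, x % D = y % D →
      cexp (2 * Real.pi * I * (x : ℕ) / D) = cexp (2 * Real.pi * I * (y : ℕ) / D) := by
    intro x y hxy
    have hx := Nat.div_add_mod x D
    have hy := Nat.div_add_mod y D
    have h1 : ∀ z : ℕ, cexp (2 * Real.pi * I * (z : ℕ) / D) =
        cexp (2 * Real.pi * I * ((z % D : ℕ) : ℂ) / D) := by
      intro z
      have hz := Nat.div_add_mod z D
      have e : (z : ℂ) = D * ((z / D : ℕ) : ℂ) + ((z % D : ℕ) : ℂ) := by exact_mod_cast hz.symm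
      have e2 : 2 * (Real.pi : ℂ) * I * (z : ℂ) / D =
          2 * Real.pi * I * ((z % D : ℕ) : ℂ) / D + ((z / D : ℕ) : ℂ) * (2 * Real.pi * I) := by
        rw [e]
        field_simp
        ring
      rw [e2, Complex.exp_add, Complex.exp_nat_mul_two_pi_mul_I, mul_one]
    rw [h1 x, h1 y, hxy]
  unfold emb
  symm
  have hmj : ∀ j, j < D → u * (m * j % D) % D = j := by
    intro j hj
    have h1 : u * (m * j % D) % D = (m * u * j) % D := by
      rw [Nat.mul_mod, Nat.mod_mod, ← Nat.mul_mod]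
      congr 1
      ring
    rw [h1, Nat.mul_mod, hmu, ← Nat.mul_mod, one_mul, Nat.mod_eq_of_lt hj]
  have hum : ∀ j, j < D → m * (u * j % D) % D = j := by
    intro j hj
    have h1 : m * (u * j % D) % D = (m * u * j) % D := by
      rw [Nat.mul_mod, Nat.mod_mod, ← Nat.mul_mod]
      congr 1
      ring
    rw [h1, Nat.mul_mod, hmu, ← Nat.mul_mod, one_mul, Nat.mod_eq_of_lt hj]
  refine Finset.sum_nbij' (fun j => u * j % D) (fun j => m * j % D) ?_ ?_ ?_ ?_ ?_
  · intro j hj
    exact mem_range.2 (Nat.mod_lt _ hD)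
  · intro j hj
    exact mem_range.2 (Nat.mod_lt _ hD)
  · intro j hj
    exact hum j (mem_range.1 hj)
  · intro j hj
    exact hmj j (mem_range.1 hj)
  · intro j hj
    have e : (t * u % D * j) % D = (t * (u * j % D)) % D := by
      rw [Nat.mul_mod, Nat.mod_mod, ← Nat.mul_mod, Nat.mul_mod t (u * j % D), Nat.mod_mod,
        ← Nat.mul_mod]
      congr 1
      ring
    have := hexp _ _ e
    dsimp only
    rw [this]

private theorem ThF_cop_mod (x D : ℕ) : Nat.Coprime (x % D) D ↔ Nat.Coprime x D := by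
  rw [Nat.coprime_comm, Nat.coprime_comm (n := x), Nat.Coprime, Nat.Coprime,
    Nat.gcd_rec D x, Nat.gcd_comm]

/-- step 1: `a + b` prime to `D` -/
private theorem ThF_one {D a b g : ℕ} (t : Fin g → ℕ) (hD : 2 < D) (ha : ¬ D ∣ a) (hb : ¬ D ∣ b)
    (hab : Nat.Coprime (a + b) D) (hinj : Function.Injective (fun i => t i % D))
    (ht : ∀ i, InType D a b (t i)) (hg : 2 * g = Nat.totient D) : ThF_C D a b g t := by
  have hD0 : 0 < D := by omega
  obtain ⟨m, hm⟩ : ∃ m : ℕ, m * (a + b) % D = 1 % D := by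
    obtain ⟨m, -, hm⟩ := Nat.exists_mul_mod_eq_one_of_coprime hab (by omega)
    exact ⟨m, by rw [mul_comm, hm, Nat.mod_eq_of_lt (by omega)]⟩
  have h1D : 1 % D = 1 := Nat.mod_eq_of_lt (by omega)
  have hmc : Nat.Coprime m D := by
    rw [h1D] at hm
    have h3 : Nat.Coprime (m * (a + b)) D := by
      rw [← ThF_cop_mod, hm]
      exact Nat.coprime_one_left D
    exact Nat.Coprime.coprime_mul_right h3
  have hpos : ∀ x, ¬ D ∣ x → 0 < x * m % D := by
    intro x hx
    rcases Nat.eq_zero_or_pos (x * m % D) with h | h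
    · exact absurd ((Nat.Coprime.dvd_mul_right hmc.symm).1 (Nat.dvd_of_mod_eq_zero h)) hx
    · exact h
  have ha0 := hpos a ha
  have hb0 := hpos b hb
  have ha1 : a * m % D < D := Nat.mod_lt _ hD0
  have hb1 : b * m % D < D := Nat.mod_lt _ hD0
  have hsum : a * m % D + b * m % D = D + 1 := by
    have h2 : (a * m % D + b * m % D) % D = 1 := by
      rw [← Nat.add_mod, ← add_mul, mul_comm, hm, h1D]
    rcases lt_or_ge (a * m % D + b * m % D) D with h3 | h3
    · rw [Nat.mod_eq_of_lt h3] at h2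
      omega
    · rw [Nat.mod_eq_sub_mod h3, Nat.mod_eq_of_lt (by omega)] at h2
      omega
  let P : Par := ⟨D, a * m % D, b * m % D, by omega, ha1, hb1, hsum⟩
  have hPD : P.D = D := rfl
  have hPa : P.a = a * m % D := rfl
  have hPb : P.b = b * m % D := rfl
  have hred : ∀ x i, (x * m % D) * (t i * (a + b) % D) % D = t i * x % D := by
    intro x i
    have e1 : (x * m % D) * (t i * (a + b) % D) % D = (m * (a + b)) * (t i * x) % D := by
      rw [Nat.mul_mod, Nat.mod_mod, Nat.mod_mod, ← Nat.mul_mod]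
      congr 1
      ring
    rw [e1, Nat.mul_mod, hm, ← Nat.mul_mod, one_mul]
  have hcopt : ∀ i, Nat.Coprime (t i * (a + b) % D) D := by
    intro i
    have h3 : Nat.Coprime (t i * (a + b)) D := Nat.Coprime.mul_left (ht i).1 hab
    exact (ThF_cop_mod _ _).2 h3
  have hmem : ∀ i, t i * (a + b) % D ∈ P.Phi := by
    intro i
    unfold Par.Phi
    rw [mem_filter, mem_range]
    refine ⟨Nat.mod_lt _ hD0, ?_⟩
    rw [hPD, hPa, hPb, hred, hred]
    exact (ht i).2
  let τ : Fin g → P.Ix := fun i => ⟨t i * (a + b) % D, hmem i⟩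
  have hτ : Function.Injective τ := by
    intro i j hij
    have h3 : t i * (a + b) % D = t j * (a + b) % D := congrArg Subtype.val hij
    apply hinj
    have h4 : t i * (a + b) ≡ t j * (a + b) [MOD D] := h3
    exact Nat.ModEq.cancel_right_of_coprime (by rwa [Nat.coprime_comm] at hab) h4
  have hall : ∀ s : P.Ix, Nat.Coprime (s : ℕ) P.D → ∃ i, τ i = s := by
    classical
    -- counting
    let S : Finset P.Ix := univ.filter fun s => Nat.Coprime (s : ℕ) P.D
    have hS : 2 * S.card ≤ Nat.totient D := by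
      let S1 : Finset ℕ := S.image fun s : P.Ix => (s : ℕ)
      let S2 : Finset ℕ := S.image fun s : P.Ix => D - (s : ℕ)
      have c1 : S1.card = S.card := card_image_of_injective _ Subtype.val_injective
      have c2 : S2.card = S.card := by
        apply card_image_of_injOn
        intro x _ y _ hxy
        have hx := (P.Phi_pos x.2).2
        have hy := (P.Phi_pos y.2).2
        have hxy' : D - (x : ℕ) = D - (y : ℕ) := hxy
        rw [hPD] at hx hy
        exact Subtype.ext (by omega)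
      have hdis : Disjoint S1 S2 := by
        rw [Finset.disjoint_left]
        intro x hx1 hx2
        obtain ⟨s1, -, rfl⟩ := mem_image.1 hx1
        obtain ⟨s2, -, h4⟩ := mem_image.1 hx2
        have h5 := P.Phi_pos s2.2
        apply P.not_both h5.1 h5.2 s2.2
        rw [hPD, h4]
        exact s1.2
      have hsub : S1 ∪ S2 ⊆ (range D).filter fun x => D.Coprime x := by
        intro x hx
        rw [mem_filter, mem_range]
        rcases mem_union.1 hx with hx | hx
        · obtain ⟨s1, h4, rfl⟩ := mem_image.1 hx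
          exact ⟨(P.Phi_pos s1.2).2, Nat.Coprime.symm (mem_filter.1 h4).2⟩
        · obtain ⟨s1, h4, rfl⟩ := mem_image.1 hx
          have h5 := P.Phi_pos s1.2
          rw [hPD] at h5
          refine ⟨by omega, ?_⟩
          have h6 : Nat.Coprime (s1 : ℕ) D := (mem_filter.1 h4).2
          exact (Nat.coprime_self_sub_right h5.2.le).2 h6.symm
      have h7 := card_le_card hsub
      rw [card_union_of_disjoint hdis, c1, c2] at h7
      rw [Nat.totient_eq_card_coprime]
      omega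
    have himg : univ.image τ ⊆ S := by
      intro x hx
      obtain ⟨i, -, rfl⟩ := mem_image.1 hx
      exact mem_filter.2 ⟨mem_univ _, hcopt i⟩
    have hcard : (univ.image τ).card = g := by
      rw [card_image_of_injective _ hτ, card_univ, Fintype.card_fin]
    have heq : univ.image τ = S := eq_of_subset_of_card_le himg (by rw [hcard]; omega)
    intro s hs
    have : s ∈ univ.image τ := by
      rw [heq]
      exact mem_filter.2 ⟨mem_univ _, hs⟩
    obtain ⟨i, -, h8⟩ := mem_image.1 this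
    exact ⟨i, h8⟩
  obtain ⟨s, κ, v, α, N, h1, h2, h3, h4, h5, h6, h7, h8, h9, h10, h11⟩ :=
    thetaPar P g τ hτ hcopt hall
  refine ⟨s, κ, v, α, N, h1, h2, h3, h4, h5, h6, fun i => ?_, h8, h9, h10, fun c => ?_⟩
  · rw [h7 i]
    have e1 : P.al (τ i) = ((t i * a % D : ℕ) : ℝ) / D := by
      unfold Par.al
      rw [hPD, hPa, hred]
    have e2 : P.be (τ i) = ((t i * b % D : ℕ) : ℝ) / D := by
      unfold Par.be
      rw [hPD, hPb, hred]
    rw [e1, e2]
  · have e : (fun i => (N : ℂ) * emb D c (t i)) =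
        fun i => (N : ℂ) * emb P.D (fun j => c ((a + b) * j % D)) (τ i : ℕ) := by
      funext i
      rw [ThF_emb hD0 hm c (t i)]
    rw [e]
    exact h11 _

/-- step 2: `a` prime to `D` -/
private theorem ThF_two {D a b g : ℕ} (t : Fin g → ℕ) (hD : 2 < D) (ha : ¬ D ∣ a) (hb : ¬ D ∣ b)
    (hab : ¬ D ∣ a + b) (h : Nat.Coprime a D) (hinj : Function.Injective (fun i => t i % D))
    (ht : ∀ i, InType D a b (t i)) (hg : 2 * g = Nat.totient D) : ThF_C D a b g t := by
  have hD0 : 0 < D := by omega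
  have hmod : (a + b) % D < D := Nat.mod_lt _ hD0
  have hpos : 0 < (a + b) % D := by
    rcases Nat.eq_zero_or_pos ((a + b) % D) with h | h
    · exact absurd (Nat.dvd_of_mod_eq_zero h) hab
    · exact h
  apply ThF_rot hD ha hb hab ht
  have hc : ¬ D ∣ D - (a + b) % D := by
    intro h
    have := Nat.le_of_dvd (by omega) h
    omega
  have hsum : a + (b + (D - (a + b) % D)) = D * ((a + b) / D + 1) := by
    have h2 := Nat.div_add_mod (a + b) D
    rw [mul_add, mul_one]
    omega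
  have hcop2 : Nat.Coprime (b + (D - (a + b) % D)) D := by
    rw [Nat.coprime_iff_gcd_eq_one] at h ⊢
    have h4 := Nat.gcd_dvd_left (b + (D - (a + b) % D)) D
    have h5 := Nat.gcd_dvd_right (b + (D - (a + b) % D)) D
    have h6 : Nat.gcd (b + (D - (a + b) % D)) D ∣ a + (b + (D - (a + b) % D)) := by
      rw [hsum]
      exact h5.mul_right _
    have h7 : Nat.gcd (b + (D - (a + b) % D)) D ∣ a := (Nat.dvd_add_left h4).1 h6
    exact Nat.eq_one_of_dvd_one (h ▸ Nat.dvd_gcd h7 h5)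
  apply ThF_one t hD hb hc hcop2 hinj _ hg
  intro i
  obtain ⟨q1, q2, q3, q4, q5, q6, q7⟩ := ThF_abc hD ha hb hab (ht i).1
  exact ⟨(ht i).1, by have := (ht i).2; omega⟩

theorem thetaForm : ThetaForm := by
  intro D a b g t hD hg ha hb hab hcop hinj ht h2g
  change ThF_C D a b g t
  rcases hcop with h | h | h
  · exact ThF_two t hD ha hb hab h hinj ht h2g
  · exact ThF_swap (ThF_two t hD hb ha (by rwa [add_comm]) h hinj
      (fun i => ⟨(ht i).1, by have := (ht i).2; omega⟩) h2g)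
  · exact ThF_one t hD ha hb h hinj ht h2g

end

end Pool.Agent.RHT
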