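import Pool.Agent.RHT.IvT

/-!
RHT-IvL. Behaviour at `0` and `1`. Plan.
`Iv_at1`: for `x ∈ Hc c`, `‖pw c p q (x - sg c I s)‖ ≤ C s^(-q) (1+s)^(-p)` (the imaginary parts of
`x` and `- sg c s` have the same sign, so `‖1 - x + sg c I s‖ ≥ s`); dominated convergence: the
limit at `1` exists. Its value: real `x → 1` from both sides, `Iv_right`, `Iv_mid`:
`(ee (-q) - 1) I_dn(1) = per`, `I_up(1) = ee (-q) I_dn(1)`. (`ee (-q) ≠ 1`.)
`Iv_at0`: the same with `Iv_left`.
`Iv_pole`: `1 < p < 2`: `pw c p q y = y^(-p) (1-y)^(-q)`, `|(1-y)^(-q) - 1| ≤ C |y|` for small `y`;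
integrate `pw c p q - pw c p 0` from a fixed point of the half plane near `0` along a path in `Hc c`
(or: the function `Iv c p q - pw c (p-1) 0 /(1-p)` has derivative `O(|x|^(1-p))` on the convex set
`Hc c ∩ ball`, interior; `1 - p > -1`, so it is bounded). Note `pw c (p-1) 0 x = x^(1-p)`.
-/

set_option autoImplicit false

namespace Pool.Agent.RHT

open Complex ComplexConjugate Finset Filter Topology

noncomputable section

private theorem ivl_ee_ne {x : ℝ} (h : ∀ n : ℤ, x ≠ n) : ee x ≠ 1 := by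
  intro h1
  unfold ee at h1
  obtain ⟨n, hn⟩ := Complex.exp_eq_one_iff.1 h1
  have h2 : (2 * Real.pi * I : ℂ) ≠ 0 := Complex.two_pi_I_ne_zero
  have h3 : (x : ℂ) = n := by
    have h4 : (2 * Real.pi * I : ℂ) * x = (2 * Real.pi * I) * n := by
      rw [hn]
      ring
    exact mul_left_cancel₀ h2 h4
  exact h n (by exact_mod_cast h3)

private theorem ivl_ee_ne1 {p : ℝ} (hp : 0 < p) (hp1 : p < 1) : ee p ≠ 1 :=
  ivl_ee_ne fun n hn => by
    rw [hn] at hp hp1
    have h1 : (0 : ℤ) < n := by exact_mod_cast hp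
    have h2 : n < (1 : ℤ) := by exact_mod_cast hp1
    omega

private theorem ivl_ee_ne2 {q : ℝ} (hq : 0 < q) (hq1 : q < 1) : ee (-q) ≠ 1 :=
  ivl_ee_ne fun n hn => by
    have h0 : q = ((-n : ℤ) : ℝ) := by
      push_cast
      linarith
    rw [h0] at hq hq1
    have h1 : (0 : ℤ) < -n := by exact_mod_cast hq
    have h2 : -n < (1 : ℤ) := by exact_mod_cast hq1
    omega

private theorem ivl_sg (c : Bool) : sg c = 1 ∨ sg c = -1 := by
  cases c <;> simp [sg]

private theorem ivl_im (c : Bool) (x : ℂ) (s : ℝ) : (x - sg c * I * s).im = x.im - sg c * s := by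
  simp

private theorem ivl_re (c : Bool) (x : ℂ) (s : ℝ) : (x - sg c * I * s).re = x.re := by
  simp

private theorem ivl_mem {c : Bool} {x : ℂ} (hx : x ∈ Hc c) {s : ℝ} (hs : 0 < s) :
    s ≤ |(x - sg c * I * s).im| := by
  rw [ivl_im]
  have h1 : sg c * x.im ≤ 0 := hx
  rcases ivl_sg c with h | h <;> rw [h] at h1 ⊢
  · rw [le_abs]
    right
    linarith
  · rw [le_abs]
    left
    linarith

private theorem ivl_norm {c : Bool} {x : ℂ} (hx : x ∈ Hc c) {s : ℝ} (hs : 0 < s) :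
    s ≤ ‖x - sg c * I * s‖ :=
  (ivl_mem hx hs).trans (Complex.abs_im_le_norm _)

private theorem ivl_norm1 {c : Bool} {x : ℂ} (hx : x ∈ Hc c) {s : ℝ} (hs : 0 < s) :
    s ≤ ‖1 - (x - sg c * I * s)‖ := by
  have h : |(1 - (x - sg c * I * s)).im| = |(x - sg c * I * s).im| := by
    rw [Complex.sub_im, Complex.one_im, zero_sub, abs_neg]
  exact ((ivl_mem hx hs).trans_eq h.symm).trans (Complex.abs_im_le_norm _)

private theorem ivl_Om {c : Bool} {x : ℂ} (hx : x ∈ Hc c) {s : ℝ} (hs : 0 < s) :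
    x - sg c * I * s ∈ Om c := by
  have h1 := ivl_norm hx hs
  have h2 := ivl_norm1 hx hs
  refine Om_of_Hc ?_ (fun h => ?_) (fun h => ?_)
  · show sg c * (x - sg c * I * s).im ≤ 0
    rw [ivl_im]
    have h3 : sg c * x.im ≤ 0 := hx
    rcases ivl_sg c with h | h <;> rw [h] at h3 ⊢ <;> linarith
  · rw [h, norm_zero] at h1
    linarith
  · rw [h, sub_self, norm_zero] at h2
    linarith

private theorem ivl_int {a b : ℝ} (hb : b < 1) (hab : 1 < a + b) :
    MeasureTheory.IntegrableOn (fun s : ℝ => s ^ (-b) * (max (1 / 2) s) ^ (-a)) (Set.Ioi 0) := by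
  have h1 : Set.Ioi (0 : ℝ) = Set.Ioc 0 (1 / 2) ∪ Set.Ioi (1 / 2) :=
    (Set.Ioc_union_Ioi_eq_Ioi (by norm_num)).symm
  rw [h1, MeasureTheory.integrableOn_union]
  constructor
  · have h2 : MeasureTheory.IntegrableOn (fun s : ℝ => s ^ (-b) * (1 / 2 : ℝ) ^ (-a))
        (Set.Ioc 0 (1 / 2)) := by
      have h3 : IntervalIntegrable (fun s : ℝ => s ^ (-b)) MeasureTheory.volume 0 (1 / 2) :=
        intervalIntegral.intervalIntegrable_rpow' (by linarith)
      exact ((intervalIntegrable_iff_integrableOn_Ioc_of_le (by norm_num)).1 h3).mul_const _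
    refine h2.congr_fun (fun s hs => ?_) measurableSet_Ioc
    simp only
    rw [max_eq_left hs.2]
  · have h2 : MeasureTheory.IntegrableOn (fun s : ℝ => s ^ (-b - a)) (Set.Ioi (1 / 2)) :=
      integrableOn_Ioi_rpow_of_lt (by linarith) (by norm_num)
    refine h2.congr_fun (fun s hs => ?_) measurableSet_Ioi
    have hs' : (1 / 2 : ℝ) < s := hs
    simp only
    rw [max_eq_right hs'.le, ← Real.rpow_add (by linarith), sub_eq_add_neg]

private theorem ivl_tendsto {c : Bool} {p q : ℝ} {x0 : ℂ} (hx0 : x0 ∈ Hc c) (g : ℝ → ℝ)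
    (hg : MeasureTheory.IntegrableOn g (Set.Ioi 0))
    (hb : ∀ᶠ x in 𝓝[Hc c] x0, ∀ s : ℝ, 0 < s → ‖pw c p q (x - sg c * I * s)‖ ≤ g s) :
    Tendsto (Iv c p q) (𝓝[Hc c] x0) (𝓝 (Iv c p q x0)) := by
  unfold Iv
  refine Tendsto.const_mul _ ?_
  refine MeasureTheory.tendsto_integral_filter_of_dominated_convergence g ?_ ?_ hg ?_
  · filter_upwards [self_mem_nhdsWithin] with x hx
    refine ContinuousOn.aestronglyMeasurable (fun s hs => ?_) measurableSet_Ioi
    have h1 := (pw_hasDerivAt p q (ivl_Om hx hs)).continuousAt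
    exact (ContinuousAt.comp (f := fun s : ℝ => x - sg c * I * s) h1
      (by fun_prop)).continuousWithinAt
  · filter_upwards [hb] with x hx
    exact (MeasureTheory.ae_restrict_iff' measurableSet_Ioi).2
      (Eventually.of_forall fun s hs => hx s hs)
  · refine (MeasureTheory.ae_restrict_iff' measurableSet_Ioi).2
      (Eventually.of_forall fun s hs => ?_)
    have h1 := (pw_hasDerivAt p q (ivl_Om hx0 hs)).continuousAt
    exact (ContinuousAt.comp (f := fun x : ℂ => x - sg c * I * s) h1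
      (by fun_prop)).tendsto.mono_left nhdsWithin_le_nhds

private theorem ivl_real (c : Bool) (x : ℝ) : (x : ℂ) ∈ Hc c := by
  show sg c * (x : ℂ).im ≤ 0
  rw [Complex.ofReal_im, mul_zero]

private theorem ivl_at1 {c : Bool} {p q : ℝ} (h : 1 < p + q) (hq : 0 < q) (hq1 : q < 1) :
    Tendsto (Iv c p q) (𝓝[Hc c] 1) (𝓝 (Iv c p q 1)) := by
  have hp : 0 < p := by linarith
  refine ivl_tendsto (by simpa using ivl_real c 1) _ (ivl_int hq1 h) ?_
  have h1 : ∀ᶠ x in 𝓝 (1 : ℂ), ‖x - 1‖ < 1 / 2 := by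
    filter_upwards [Metric.ball_mem_nhds (1 : ℂ) (show (0 : ℝ) < 1 / 2 by norm_num)] with x hx
    rwa [Metric.mem_ball, dist_eq_norm] at hx
  filter_upwards [self_mem_nhdsWithin, mem_nhdsWithin_of_mem_nhds h1] with x hx hx1 s hs
  have h2 := ivl_norm hx hs
  have h3 := ivl_norm1 hx hs
  have h4 : 1 / 2 ≤ ‖x - sg c * I * s‖ := by
    have h5 : |x.re - 1| ≤ ‖x - 1‖ := by
      have := Complex.abs_re_le_norm (x - 1)
      rwa [Complex.sub_re, Complex.one_re] at this
    have h6 := (abs_le.1 (h5.trans (le_of_lt hx1))).1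
    have h7 := (le_abs_self _).trans (Complex.abs_re_le_norm (x - sg c * I * s))
    rw [ivl_re] at h7
    linarith
  have hO := Om_ne (ivl_Om hx hs)
  rw [norm_pw c p q hO.1 hO.2, mul_comm]
  refine mul_le_mul ?_ ?_ (Real.rpow_nonneg (norm_nonneg _) _) (Real.rpow_nonneg hs.le _)
  · exact Real.rpow_le_rpow_of_nonpos hs h3 (by linarith)
  · exact Real.rpow_le_rpow_of_nonpos (lt_max_of_lt_right hs) (max_le h4 h2) (by linarith)

private theorem ivl_at0 {c : Bool} {p q : ℝ} (h : 1 < p + q) (hp : 0 < p) (hp1 : p < 1) :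
    Tendsto (Iv c p q) (𝓝[Hc c] 0) (𝓝 (Iv c p q 0)) := by
  have hq : 0 < q := by linarith
  refine ivl_tendsto (by simpa using ivl_real c 0) _ (ivl_int hp1 (by linarith : 1 < q + p)) ?_
  have h1 : ∀ᶠ x in 𝓝 (0 : ℂ), ‖x‖ < 1 / 2 := by
    filter_upwards [Metric.ball_mem_nhds (0 : ℂ) (show (0 : ℝ) < 1 / 2 by norm_num)] with x hx
    rwa [Metric.mem_ball, dist_eq_norm, sub_zero] at hx
  filter_upwards [self_mem_nhdsWithin, mem_nhdsWithin_of_mem_nhds h1] with x hx hx1 s hs
  have h2 := ivl_norm hx hs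
  have h3 := ivl_norm1 hx hs
  have h4 : 1 / 2 ≤ ‖1 - (x - sg c * I * s)‖ := by
    have h5 : x.re ≤ ‖x‖ := Complex.re_le_norm x
    have h7 := (le_abs_self _).trans (Complex.abs_re_le_norm (1 - (x - sg c * I * s)))
    rw [Complex.sub_re, Complex.one_re, ivl_re] at h7
    have h8 : ‖x‖ < 1 / 2 := hx1
    linarith
  have hO := Om_ne (ivl_Om hx hs)
  rw [norm_pw c p q hO.1 hO.2]
  refine mul_le_mul ?_ ?_ (Real.rpow_nonneg (norm_nonneg _) _) (Real.rpow_nonneg hs.le _)
  · exact Real.rpow_le_rpow_of_nonpos hs h2 (by linarith)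
  · exact Real.rpow_le_rpow_of_nonpos (lt_max_of_lt_right hs) (max_le h4 h3) (by linarith)

private theorem ivl_comp {c : Bool} {p q x0 : ℝ} {l : ℂ}
    (h : Tendsto (Iv c p q) (𝓝[Hc c] (x0 : ℂ)) (𝓝 l)) :
    Tendsto (fun x : ℝ => Iv c p q x) (𝓝 x0) (𝓝 l) := by
  refine h.comp ?_
  refine tendsto_nhdsWithin_iff.2 ⟨Complex.continuous_ofReal.tendsto x0,
    Eventually.of_forall fun x => ivl_real c x⟩

private theorem ivl_v1 {p q : ℝ} (h : 1 < p + q) (hq : 0 < q) (hq1 : q < 1) (c : Bool) :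
    Iv c p q 1 = v1 c p q := by
  have hR : ∀ c, Tendsto (fun x : ℝ => Iv c p q x) (𝓝 1) (𝓝 (Iv c p q 1)) := fun c =>
    ivl_comp (by simpa using ivl_at1 (c := c) h hq hq1)
  have h1 : Iv true p q 1 = ee (-q) * Iv false p q 1 := by
    have e1 : Tendsto (fun x : ℝ => Iv true p q x) (𝓝[>] 1) (𝓝 (Iv true p q 1)) :=
      (hR true).mono_left nhdsWithin_le_nhds
    have e2 : Tendsto (fun x : ℝ => ee (-q) * Iv false p q x) (𝓝[>] 1)
        (𝓝 (ee (-q) * Iv false p q 1)) := ((hR false).mono_left nhdsWithin_le_nhds).const_mul _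
    refine tendsto_nhds_unique (e1.congr' ?_) e2
    filter_upwards [self_mem_nhdsWithin] with x hx
    exact Iv_right h (by simpa using hx)
  have h2 : Iv true p q 1 = Iv false p q 1 + per p q := by
    have e1 : Tendsto (fun x : ℝ => Iv true p q x) (𝓝[<] 1) (𝓝 (Iv true p q 1)) :=
      (hR true).mono_left nhdsWithin_le_nhds
    have e2 : Tendsto (fun x : ℝ => Iv false p q x + per p q) (𝓝[<] 1)
        (𝓝 (Iv false p q 1 + per p q)) := ((hR false).mono_left nhdsWithin_le_nhds).add_const _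
    refine tendsto_nhds_unique (e1.congr' ?_) e2
    filter_upwards [Ioo_mem_nhdsLT (show (0 : ℝ) < 1 by norm_num)] with x hx
    exact Iv_mid h hq hq1 (by simpa using hx.1) (by simpa using hx.2)
  have h3 := sub_ne_zero.2 (ivl_ee_ne2 hq hq1)
  cases c
  · unfold v1
    rw [eq_div_iff h3]
    simp only [Bool.false_eq_true, if_false]
    linear_combination h2 - h1
  · unfold v1
    rw [eq_div_iff h3]
    simp only [if_true]
    linear_combination ee (-q) * h2 - h1

private theorem ivl_v0 {p q : ℝ} (h : 1 < p + q) (hp : 0 < p) (hp1 : p < 1) (hq : 0 < q)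
    (hq1 : q < 1) (c : Bool) : Iv c p q 0 = v0 c p q := by
  have hR : ∀ c, Tendsto (fun x : ℝ => Iv c p q x) (𝓝 0) (𝓝 (Iv c p q 0)) := fun c =>
    ivl_comp (by simpa using ivl_at0 (c := c) h hp hp1)
  have h1 : Iv true p q 0 = ee p * Iv false p q 0 := by
    have e1 : Tendsto (fun x : ℝ => Iv true p q x) (𝓝[<] 0) (𝓝 (Iv true p q 0)) :=
      (hR true).mono_left nhdsWithin_le_nhds
    have e2 : Tendsto (fun x : ℝ => ee p * Iv false p q x) (𝓝[<] 0)
        (𝓝 (ee p * Iv false p q 0)) := ((hR false).mono_left nhdsWithin_le_nhds).const_mul _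
    refine tendsto_nhds_unique (e1.congr' ?_) e2
    filter_upwards [self_mem_nhdsWithin] with x hx
    exact Iv_left h (by simpa using hx)
  have h2 : Iv true p q 0 = Iv false p q 0 + per p q := by
    have e1 : Tendsto (fun x : ℝ => Iv true p q x) (𝓝[>] 0) (𝓝 (Iv true p q 0)) :=
      (hR true).mono_left nhdsWithin_le_nhds
    have e2 : Tendsto (fun x : ℝ => Iv false p q x + per p q) (𝓝[>] 0)
        (𝓝 (Iv false p q 0 + per p q)) := ((hR false).mono_left nhdsWithin_le_nhds).add_const _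
    refine tendsto_nhds_unique (e1.congr' ?_) e2
    filter_upwards [Ioo_mem_nhdsGT (show (0 : ℝ) < 1 by norm_num)] with x hx
    exact Iv_mid h hq hq1 (by simpa using hx.1) (by simpa using hx.2)
  have h3 := sub_ne_zero.2 (ivl_ee_ne1 hp hp1)
  cases c
  · unfold v0
    rw [eq_div_iff h3]
    simp only [Bool.false_eq_true, if_false]
    linear_combination h2 - h1
  · unfold v0
    rw [eq_div_iff h3]
    simp only [if_true]
    linear_combination ee p * h2 - h1

private theorem ivl_l1 (c : Bool) {y : ℂ} (hy : ‖y‖ < 1) : l1 c y = Complex.log (1 - y) := by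
  have h0 : 0 < (1 - y).re := by
    have := Complex.re_le_norm y
    rw [Complex.sub_re, Complex.one_re]
    linarith
  have h1 : y ≠ 1 := by
    intro h
    rw [h, norm_one] at hy
    exact lt_irrefl _ hy
  have h2 := l1_exp c h1
  have hpi := Real.pi_pos
  rw [← h2, Complex.log_exp]
  · cases c
    · have h3 : (l1 false y).im = Complex.arg (I * (1 - y)) - Real.pi / 2 := by
        simp [l1, sg, Complex.log_im]
        ring
      have h4 : 0 ≤ Complex.arg (I * (1 - y)) := by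
        rw [Complex.arg_nonneg_iff]
        simpa using h0.le
      rw [h3]
      linarith
    · have h3 : (l1 true y).im = Complex.arg (-(I * (1 - y))) + Real.pi / 2 := by
        simp [l1, sg, Complex.log_im]
      have h4 := Complex.neg_pi_lt_arg (-(I * (1 - y)))
      rw [h3]
      linarith
  · cases c
    · have h3 : (l1 false y).im = Complex.arg (I * (1 - y)) - Real.pi / 2 := by
        simp [l1, sg, Complex.log_im]
        ring
      have h4 := Complex.arg_le_pi (I * (1 - y))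
      rw [h3]
      linarith
    · have h3 : (l1 true y).im = Complex.arg (-(I * (1 - y))) + Real.pi / 2 := by
        simp [l1, sg, Complex.log_im]
      have h4 : Complex.arg (-(I * (1 - y))) < 0 := by
        rw [Complex.arg_neg_iff]
        simpa using h0
      rw [h3]
      linarith

private theorem ivl_near (c : Bool) {q : ℝ} (hq : 0 < q) (hq1 : q < 1) {y : ℂ}
    (hy : ‖y‖ ≤ 1 / 2) : ‖pw c 0 q y - 1‖ ≤ 3 * ‖y‖ := by
  have h1 : pw c 0 q y = cexp (-(q * Complex.log (1 - y))) := by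
    unfold pw
    rw [ivl_l1 c (by linarith), Complex.ofReal_zero, zero_mul, neg_zero, zero_sub]
  have h2 : ‖Complex.log (1 - y)‖ ≤ 3 / 2 * ‖y‖ := by
    have := Complex.norm_log_one_add_half_le_self (z := -y) (by rw [norm_neg]; exact hy)
    rwa [norm_neg, ← sub_eq_add_neg] at this
  have h3 : ‖-(q * Complex.log (1 - y))‖ ≤ 3 / 2 * ‖y‖ := by
    rw [norm_neg, norm_mul, Complex.norm_real, Real.norm_of_nonneg hq.le]
    have := norm_nonneg (Complex.log (1 - y))
    nlinarith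
  rw [h1]
  refine (Complex.norm_exp_sub_one_le (by linarith)).trans ?_
  linarith

private theorem ivl_Iv0 {c : Bool} {p : ℝ} (hp : 1 < p) {x : ℂ} (hx : x ∈ Hc c) (hx0 : x ≠ 0)
    (hx1 : x ≠ 1) : pw c (p - 1) 0 x / (1 - p) = Iv c p 0 x := by
  have hOm := Om_of_Hc hx hx0 hx1
  have hp1 : (1 - p : ℂ) ≠ 0 := by
    intro h
    have h1 : ((1 - p : ℝ) : ℂ) = 0 := by
      push_cast
      exact h
    have h2 : 1 - p = 0 := by exact_mod_cast h1
    linarith
  have hder : ∀ s : ℝ, 0 ≤ s → HasDerivAt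
      (fun s : ℝ => pw c (p - 1) 0 (x - sg c * I * s) / (1 - p))
      (-(sg c * I) * pw c p 0 (x - sg c * I * s)) s := by
    intro s hs
    have hy := Om_ray hOm hs
    have hne := Om_ne hy
    have h1 := pw_hasDerivAt (p - 1) 0 hy
    have h2 : HasDerivAt (fun s : ℝ => x - sg c * I * (s : ℂ)) (-(sg c * I)) s := by
      have := ((Complex.ofRealCLM.hasDerivAt (x := s)).const_mul (sg c * I : ℂ)).const_sub x
      simpa using this
    have h3 := (HasDerivAt.comp s h1 h2).div_const (1 - p : ℂ)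
    have h4 : pw c p 0 (x - sg c * I * s) = pw c (p - 1) 0 (x - sg c * I * s) *
        (x - sg c * I * s)⁻¹ := by
      have e1 := pw_add c (p - 1) 0 1 0 (x - sg c * I * s)
      have e2 := pw_int c 1 0 hne.1 hne.2
      rw [Int.cast_one, Int.cast_zero, neg_zero, zpow_zero, mul_one, zpow_neg_one] at e2
      rw [sub_add_cancel, add_zero, e2] at e1
      exact e1
    have h5 : (-((p - 1 : ℝ) : ℂ) / (x - sg c * I * s) + ((0 : ℝ) : ℂ) / (1 - (x - sg c * I * s))) *
        pw c (p - 1) 0 (x - sg c * I * s) * -(sg c * I) / (1 - p) =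
        -(sg c * I) * pw c p 0 (x - sg c * I * s) := by
      rw [h4, Complex.ofReal_zero, zero_div, add_zero]
      have h6 := hne.1
      push_cast
      field_simp
      ring
    rw [h5] at h3
    exact h3
  have hlim : Tendsto (fun s : ℝ => pw c (p - 1) 0 (x - sg c * I * s) / (1 - p)) atTop (𝓝 0) := by
    have h1 : Tendsto (fun s : ℝ => s ^ (-(p - 1)) / ‖(1 - p : ℂ)‖) atTop (𝓝 0) := by
      have := (tendsto_rpow_neg_atTop (show 0 < p - 1 by linarith)).div_const ‖(1 - p : ℂ)‖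
      rwa [zero_div] at this
    refine squeeze_zero_norm' ?_ h1
    filter_upwards [eventually_gt_atTop (0 : ℝ)] with s hs
    have hne := Om_ne (ivl_Om hx hs)
    rw [norm_div, norm_pw c _ _ hne.1 hne.2, neg_zero, Real.rpow_zero, mul_one]
    refine div_le_div_of_nonneg_right ?_ (norm_nonneg _)
    exact Real.rpow_le_rpow_of_nonpos hs (ivl_norm hx hs) (by linarith)
  have hint : MeasureTheory.IntegrableOn
      (fun s : ℝ => -(sg c * I) * pw c p 0 (x - sg c * I * s)) (Set.Ioi 0) :=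
    (Iv_integrable (by linarith : 1 < p + 0) hOm).const_mul _
  have h1 := MeasureTheory.integral_Ioi_of_hasDerivAt_of_tendsto
    (hder 0 le_rfl).continuousAt.continuousWithinAt (fun s hs => hder s (le_of_lt hs)) hint hlim
  rw [MeasureTheory.integral_const_mul, Complex.ofReal_zero, mul_zero, sub_zero] at h1
  unfold Iv
  linear_combination h1

theorem Iv_at1 {c : Bool} {p q : ℝ} (h : 1 < p + q) (hq : 0 < q) (hq1 : q < 1) :
    Tendsto (Iv c p q) (𝓝[Hc c \ {1}] 1) (𝓝 (v1 c p q)) := by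
  rw [← ivl_v1 h hq hq1 c]
  exact (ivl_at1 h hq hq1).mono_left (nhdsWithin_mono _ Set.sdiff_subset)

theorem Iv_at0 {c : Bool} {p q : ℝ} (h : 1 < p + q) (hp : 0 < p) (hp1 : p < 1) (hq : 0 < q)
    (hq1 : q < 1) : Tendsto (Iv c p q) (𝓝[Hc c \ {0}] 0) (𝓝 (v0 c p q)) := by
  rw [← ivl_v0 h hp hp1 hq hq1 c]
  exact (ivl_at0 h hp hp1).mono_left (nhdsWithin_mono _ Set.sdiff_subset)

theorem Iv_pole {p q : ℝ} (h : 1 < p + q) (hp : 1 < p) (hp2 : p < 2) (hq : 0 < q) (hq1 : q < 1) :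
    ∃ C r : ℝ, 0 < r ∧ ∀ (c : Bool) (x : ℂ), x ∈ Hc c → x ≠ 0 → ‖x‖ < r →
      ‖Iv c p q x - pw c (p - 1) 0 x / (1 - p)‖ ≤ C := by
  refine ⟨∫ s in Set.Ioi (0 : ℝ), 20 * (s ^ (-(p - 1)) * (max (1 / 2) s) ^ (-(1 : ℝ))), 1 / 4,
    by norm_num, fun c x hx hx0 hxr => ?_⟩
  have hx1 : x ≠ 1 := by
    intro h1
    rw [h1, norm_one] at hxr
    norm_num at hxr
  have hOm := Om_of_Hc hx hx0 hx1
  have hp0 : 1 < p + 0 := by linarith
  rw [ivl_Iv0 hp hx hx0 hx1]
  unfold Iv
  rw [← mul_sub, ← MeasureTheory.integral_sub (Iv_integrable h hOm) (Iv_integrable hp0 hOm),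
    norm_mul]
  have e2 : ‖(sg c : ℂ) * I‖ = 1 := by
    rw [norm_mul, Complex.norm_I, mul_one, Complex.norm_real]
    rcases ivl_sg c with h | h <;> rw [h] <;> simp
  rw [e2, one_mul]
  refine MeasureTheory.norm_integral_le_of_norm_le
    ((ivl_int (show p - 1 < 1 by linarith) (show 1 < 1 + (p - 1) by linarith)).const_mul 20) ?_
  refine (MeasureTheory.ae_restrict_iff' measurableSet_Ioi).2 (Eventually.of_forall fun s hs => ?_)
  have hs' : 0 < s := hs
  have h1 := ivl_norm hx hs'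
  have h2 := ivl_norm1 hx hs'
  have hne := Om_ne (ivl_Om hx hs')
  have h0 : ‖x - sg c * I * s‖ ≤ ‖x‖ + s := by
    refine (norm_sub_le _ _).trans ?_
    rw [norm_mul, e2, one_mul, Complex.norm_real, Real.norm_of_nonneg hs'.le]
  generalize x - sg c * I * s = y at h1 h2 hne h0 ⊢
  have h3 : pw c p q y - pw c p 0 y = pw c p 0 y * (pw c 0 q y - 1) := by
    have := pw_add c p 0 0 q y
    rw [add_zero, zero_add] at this
    rw [this]
    ring
  have h4 : ‖pw c p 0 y‖ = ‖y‖ ^ (-p) := by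
    rw [norm_pw c _ _ hne.1 hne.2, neg_zero, Real.rpow_zero, mul_one]
  have hy : 0 < ‖y‖ := hs'.trans_le h1
  rw [h3, norm_mul, h4]
  have hA : 0 < s ^ (-(p - 1)) := Real.rpow_pos_of_pos hs' _
  rw [Real.rpow_neg_one]
  have hmax : 0 < max (1 / 2) s := lt_max_of_lt_right hs'
  rcases le_or_gt s (1 / 4) with hs4 | hs4
  · have h5 : ‖pw c 0 q y - 1‖ ≤ 3 * ‖y‖ := ivl_near c hq hq1 (by linarith)
    have h6 : ‖y‖ ^ (-p) * ‖y‖ = ‖y‖ ^ (-(p - 1)) := by
      have := Real.rpow_add hy (-p) 1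
      rw [Real.rpow_one] at this
      rw [← this]
      congr 1
      ring
    have h7 : ‖y‖ ^ (-(p - 1)) ≤ s ^ (-(p - 1)) :=
      Real.rpow_le_rpow_of_nonpos hs' h1 (by linarith)
    have h8 : (max (1 / 2) s)⁻¹ = 2 := by
      rw [max_eq_left (by linarith)]
      norm_num
    rw [h8]
    calc ‖y‖ ^ (-p) * ‖pw c 0 q y - 1‖ ≤ ‖y‖ ^ (-p) * (3 * ‖y‖) :=
          mul_le_mul_of_nonneg_left h5 (Real.rpow_nonneg hy.le _)
      _ = 3 * (‖y‖ ^ (-p) * ‖y‖) := by ring
      _ = 3 * ‖y‖ ^ (-(p - 1)) := by rw [h6]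
      _ ≤ 20 * (s ^ (-(p - 1)) * 2) := by linarith
  · have h5 : ‖pw c 0 q y - 1‖ ≤ 5 := by
      refine (norm_sub_le _ _).trans ?_
      rw [norm_pw c _ _ hne.1 hne.2, neg_zero, Real.rpow_zero, one_mul, norm_one]
      have e3 : ‖1 - y‖ ^ (-q) ≤ (1 / 4 : ℝ) ^ (-q) :=
        Real.rpow_le_rpow_of_nonpos (by norm_num) (hs4.le.trans h2) (by linarith)
      have e4 : (1 / 4 : ℝ) ^ (-q) ≤ (1 / 4 : ℝ) ^ (-(1 : ℝ)) :=
        Real.rpow_le_rpow_of_exponent_ge (by norm_num) (by norm_num) (by linarith)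
      rw [Real.rpow_neg_one] at e4
      have e5 : ((1 / 4 : ℝ))⁻¹ = 4 := by norm_num
      rw [e5] at e4
      linarith
    have h6 : ‖y‖ ^ (-p) ≤ s ^ (-(p - 1)) * s⁻¹ := by
      have e3 : ‖y‖ ^ (-p) ≤ s ^ (-p) :=
        Real.rpow_le_rpow_of_nonpos hs' h1 (by linarith)
      have e4 := Real.rpow_add hs' (-(p - 1)) (-1)
      rw [Real.rpow_neg_one] at e4
      rw [← e4]
      have e5 : -(p - 1) + -1 = -p := by ring
      rw [e5]
      exact e3
    have h7 : s⁻¹ * 5 ≤ 20 * (max (1 / 2) s)⁻¹ := by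
      rw [inv_mul_eq_div, ← div_eq_mul_inv, div_le_div_iff₀ hs' hmax]
      have : max (1 / 2) s ≤ 4 * s := max_le (by linarith) (by linarith)
      linarith
    calc ‖y‖ ^ (-p) * ‖pw c 0 q y - 1‖ ≤ (s ^ (-(p - 1)) * s⁻¹) * 5 :=
          mul_le_mul h6 h5 (norm_nonneg _) (by positivity)
      _ = s ^ (-(p - 1)) * (s⁻¹ * 5) := by ring
      _ ≤ s ^ (-(p - 1)) * (20 * (max (1 / 2) s)⁻¹) := mul_le_mul_of_nonneg_left h7 hA.le
      _ = 20 * (s ^ (-(p - 1)) * (max (1 / 2) s)⁻¹) := by ring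

/-- at `0` the values in the two charts differ by the period -/
theorem v0_true {p q : ℝ} (hp : 0 < p) (hp1 : p < 1) : v0 true p q = v0 false p q + per p q := by
  have h := sub_ne_zero.2 (ivl_ee_ne1 hp hp1)
  unfold v0
  simp only [if_true, Bool.false_eq_true, if_false]
  field_simp
  ring

theorem v1_true {p q : ℝ} (hq : 0 < q) (hq1 : q < 1) : v1 true p q = v1 false p q + per p q := by
  have h := sub_ne_zero.2 (ivl_ee_ne2 hq hq1)
  unfold v1
  simp only [if_true, Bool.false_eq_true, if_false]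
  field_simp
  ring

end

end Pool.Agent.RHT
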