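import Pool.Agent.RHT.ThL
import Pool.Agent.RHT.IvL

/-!
RHT-AdmD. Admissible translations. Plan: only finitely many conditions (`k` mod `D`, two charts),
each the nonvanishing of a translate of `T`: open; dense because the zero set of a nonzero entire
function has empty interior (identity theorem). `end_bound`: `Cv c k x → C0 c k`, `C1 c k`, `0` as
`x → 0`, `1`, `∞` in `Hc c` (`Iv_at0`, `Iv_at1`, `Iv_tendsto`), `T ≠ 0` and `L_t` continuous at the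
limit points `C0 c k + u1`, `C1 c k + u1`, `u1`. `Z_finite`: the zeros lie in the compact sets
`{x ∈ Hc c, r ≤ ‖x‖ ≤ r⁻¹, r ≤ ‖x-1‖}` of finitely many sheets and are isolated (`T_order`).
-/

set_option autoImplicit false

namespace Pool.Agent.RHT.Par

open Complex ComplexConjugate Finset Filter Topology

noncomputable section

variable {P : Par} (θ : P.Th)

private theorem AdmD_zeD : P.ze ^ (P.D : ℤ) = 1 := by
  rw [zpow_natCast]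
  exact P.ze_prim.pow_eq_one

private theorem AdmD_per (k m : ℤ) (t : ℕ) :
    P.ze ^ (-((k + m * P.D) * (t : ℤ))) = P.ze ^ (-(k * (t : ℤ))) := by
  rw [show -((k + m * P.D) * (t : ℤ)) = -(k * (t : ℤ)) + (P.D : ℤ) * (-(m * t)) by ring,
    zpow_add₀ P.ze_ne, zpow_mul, AdmD_zeD, one_zpow, mul_one]

private theorem AdmD_C0 (c : Bool) (k m : ℤ) : P.C0 c (k + m * P.D) = P.C0 c k := by
  funext t
  show P.ze ^ (-((k + m * P.D) * ((t : ℕ) : ℤ))) * _ = _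
  rw [AdmD_per]
  rfl

private theorem AdmD_C1 (c : Bool) (k m : ℤ) : P.C1 c (k + m * P.D) = P.C1 c k := by
  funext t
  show P.ze ^ (-((k + m * P.D) * ((t : ℕ) : ℤ))) * _ = _
  rw [AdmD_per]
  rfl

private theorem AdmD_mod (k : ℤ) : ∃ (j : Fin P.D) (m : ℤ), k = ((j : ℕ) : ℤ) + m * P.D := by
  have hD : (0 : ℤ) < P.D := by
    have := P.hD
    exact_mod_cast (by omega : 0 < P.D)
  have h0 := Int.emod_nonneg k hD.ne'
  have h1 := Int.emod_lt_of_pos k hD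
  refine ⟨⟨(k % P.D).toNat, by omega⟩, k / P.D, ?_⟩
  show k = (((k % P.D).toNat : ℕ) : ℤ) + k / P.D * P.D
  rw [Int.toNat_of_nonneg h0]
  have := Int.emod_add_mul_ediv k P.D
  linarith [mul_comm (P.D : ℤ) (k / P.D)]

private theorem AdmD_adm_iff (u : P.V) : θ.Adm u ↔ θ.T u ≠ 0 ∧ ∀ (c : Bool) (k : Fin P.D),
    θ.T (P.C0 c ((k : ℕ) : ℤ) + u) ≠ 0 ∧ θ.T (P.C1 c ((k : ℕ) : ℤ) + u) ≠ 0 := by
  constructor
  · rintro ⟨h0, h1⟩
    exact ⟨h0, fun c k => h1 c _⟩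
  · rintro ⟨h0, h1⟩
    refine ⟨h0, fun c k => ?_⟩
    obtain ⟨j, m, rfl⟩ := AdmD_mod (P := P) k
    rw [AdmD_C0, AdmD_C1]
    exact h1 c j

private theorem AdmD_open1 (w : P.V) : IsOpen {u | θ.T (w + u) ≠ 0} :=
  isOpen_ne_fun (θ.dT.continuous.comp (continuous_const.add continuous_id)) continuous_const

private theorem AdmD_dense1 (w : P.V) : Dense {u | θ.T (w + u) ≠ 0} := by
  intro x
  rw [mem_closure_iff_frequently]
  by_contra hcon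
  rw [Filter.not_frequently] at hcon
  obtain ⟨u0, hu0⟩ := θ.nT
  set g : ℂ → ℂ := fun s => θ.T (w + (x + s • (u0 - w - x))) with hg
  have hgd : Differentiable ℂ g := by
    refine θ.dT.comp ?_
    exact (differentiable_const _).add ((differentiable_const _).add
      (differentiable_id.smul_const _))
  have hgan : AnalyticOnNhd ℂ g Set.univ := fun z _ =>
    hgd.analyticAt z
  have hev : g =ᶠ[𝓝 0] (0 : ℂ → ℂ) := by
    have hc : Tendsto (fun s : ℂ => x + s • (u0 - w - x)) (𝓝 0) (𝓝 x) := by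
      have h1 : Continuous fun s : ℂ => x + s • (u0 - w - x) :=
        continuous_const.add (continuous_id.smul continuous_const)
      have h2 := h1.tendsto 0
      simpa using h2
    filter_upwards [hc.eventually hcon] with s hs
    have h3 : ¬ (θ.T (w + (x + s • (u0 - w - x))) ≠ 0) := hs
    exact not_not.1 h3
  have hz := hgan.eqOn_zero_of_preconnected_of_eventuallyEq_zero isPreconnected_univ
    (Set.mem_univ 0) hev
  have h1 : g 1 = 0 := hz (Set.mem_univ 1)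
  apply hu0
  have h2 : w + (x + (1 : ℂ) • (u0 - w - x)) = u0 := by
    rw [one_smul]
    abel
  rw [← h1, hg]
  show _ = θ.T (w + (x + (1 : ℂ) • (u0 - w - x)))
  rw [h2]

theorem adm_open : IsOpen {u | θ.Adm u} := by
  have h1 : {u | θ.Adm u} = {u | θ.T (0 + u) ≠ 0} ∩ ⋂ (i : Bool × Fin P.D),
      ({u | θ.T (P.C0 i.1 ((i.2 : ℕ) : ℤ) + u) ≠ 0} ∩
        {u | θ.T (P.C1 i.1 ((i.2 : ℕ) : ℤ) + u) ≠ 0}) := by
    ext u
    simp only [Set.mem_ofPred_eq, Set.mem_inter_iff, Set.mem_iInter, zero_add]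
    rw [AdmD_adm_iff]
    exact ⟨fun h => ⟨h.1, fun i => h.2 i.1 i.2⟩, fun h => ⟨h.1, fun c k => h.2 (c, k)⟩⟩
  rw [h1]
  exact (AdmD_open1 θ 0).inter (isOpen_iInter_of_finite fun i =>
    (AdmD_open1 θ _).inter (AdmD_open1 θ _))

theorem adm_ex : ∃ u, θ.Adm u := by
  have h1 : {u | θ.T (0 + u) ≠ 0} ∩ ((⋂ (i : Bool × Fin P.D),
      {u | θ.T (P.C0 i.1 ((i.2 : ℕ) : ℤ) + u) ≠ 0}) ∩ ⋂ (i : Bool × Fin P.D),
        {u | θ.T (P.C1 i.1 ((i.2 : ℕ) : ℤ) + u) ≠ 0}) ⊆ {u | θ.Adm u} := by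
    rintro u ⟨ha, hb, hc⟩
    rw [Set.mem_ofPred_eq, AdmD_adm_iff]
    simp only [Set.mem_ofPred_eq, Set.mem_iInter, zero_add] at ha hb hc
    exact ⟨ha, fun c k => ⟨hb (c, k), hc (c, k)⟩⟩
  have h2 : Dense (⋂ (i : Bool × Fin P.D), {u | θ.T (P.C0 i.1 ((i.2 : ℕ) : ℤ) + u) ≠ 0}) :=
    dense_iInter_of_isOpen (fun i => AdmD_open1 θ _) (fun i => AdmD_dense1 θ _)
  have h3 : Dense (⋂ (i : Bool × Fin P.D), {u | θ.T (P.C1 i.1 ((i.2 : ℕ) : ℤ) + u) ≠ 0}) :=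
    dense_iInter_of_isOpen (fun i => AdmD_open1 θ _) (fun i => AdmD_dense1 θ _)
  have h4 := (h2.inter_of_isOpen_right h3 (isOpen_iInter_of_finite fun i => AdmD_open1 θ _))
  have h5 := (AdmD_dense1 θ 0).inter_of_isOpen_left h4 (AdmD_open1 θ 0)
  obtain ⟨u, hu⟩ := h5.nonempty
  exact ⟨u, h1 hu⟩

private theorem AdmD_t0 (c : Bool) (k : ℤ) :
    Tendsto (P.Cv c k) (𝓝[Hc c \ {0}] 0) (𝓝 (P.C0 c k)) := by
  rw [tendsto_pi_nhds]
  intro t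
  have ht := t.2
  have hs : 1 < P.al t + P.be t := by
    rw [P.al_add_be_Phi ht]
    have h1 : (0 : ℝ) < ((t : ℕ) : ℝ) := by exact_mod_cast (P.Phi_pos ht).1
    have h2 : (0 : ℝ) < P.D := by exact_mod_cast (lt_trans (P.Phi_pos ht).1 (P.Phi_pos ht).2)
    have h3 : 0 < ((t : ℕ) : ℝ) / P.D := by positivity
    linarith
  exact (Iv_at0 hs (P.al_pos ht) (P.al_lt_one t) (P.be_pos ht) (P.be_lt_one t)).const_mul _

private theorem AdmD_t1 (c : Bool) (k : ℤ) :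
    Tendsto (P.Cv c k) (𝓝[Hc c \ {1}] 1) (𝓝 (P.C1 c k)) := by
  rw [tendsto_pi_nhds]
  intro t
  have ht := t.2
  have hs : 1 < P.al t + P.be t := by
    rw [P.al_add_be_Phi ht]
    have h1 : (0 : ℝ) < ((t : ℕ) : ℝ) := by exact_mod_cast (P.Phi_pos ht).1
    have h2 : (0 : ℝ) < P.D := by exact_mod_cast (lt_trans (P.Phi_pos ht).1 (P.Phi_pos ht).2)
    have h3 : 0 < ((t : ℕ) : ℝ) / P.D := by positivity
    linarith
  exact (Iv_at1 hs (P.be_pos ht) (P.be_lt_one t)).const_mul _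

private theorem AdmD_ti (c : Bool) (k : ℤ) :
    Tendsto (P.Cv c k) (Bornology.cobounded ℂ ⊓ 𝓟 (Hc c)) (𝓝 0) := by
  rw [tendsto_pi_nhds]
  intro t
  have ht := t.2
  have hs : 1 < P.al t + P.be t := by
    rw [P.al_add_be_Phi ht]
    have h1 : (0 : ℝ) < ((t : ℕ) : ℝ) := by exact_mod_cast (P.Phi_pos ht).1
    have h2 : (0 : ℝ) < P.D := by exact_mod_cast (lt_trans (P.Phi_pos ht).1 (P.Phi_pos ht).2)
    have h3 : 0 < ((t : ℕ) : ℝ) / P.D := by positivity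
    linarith
  have h4 := (Iv_tendsto (c := c) hs).const_mul (P.ze ^ (-(k * ((t : ℕ) : ℤ))))
  rw [mul_zero] at h4
  exact h4

private theorem AdmD_one {u1 w : P.V} (hw : θ.T (w + u1) ≠ 0) {l : Filter ℂ} {f : ℂ → P.V}
    (hf : Tendsto f l (𝓝 w)) : ∀ᶠ M in (atTop : Filter ℝ), ∃ q : ℂ → Prop, (∀ᶠ x in l, q x) ∧
      ∀ᶠ u in 𝓝 u1, ∀ x, q x → θ.T (f x + u) ≠ 0 ∧ ∀ t, ‖θ.L t (f x + u)‖ ≤ M := by
  have h1 : ∀ᶠ M in (atTop : Filter ℝ), ∀ t : P.Ix, ‖θ.L t (w + u1)‖ < M :=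
    eventually_all.2 fun t => eventually_gt_atTop _
  filter_upwards [h1] with M hM
  have h2 : ∀ᶠ v in 𝓝 (w + u1), θ.T v ≠ 0 ∧ ∀ t, ‖θ.L t v‖ ≤ M := by
    refine (θ.dT.continuous.continuousAt.eventually_ne hw).and (eventually_all.2 fun t => ?_)
    have h3 := (θ.L_diff t hw).continuousAt.norm
    exact (h3.eventually_lt continuousAt_const (hM t)).mono fun v hv => hv.le
  have h4 : Tendsto (fun p : ℂ × P.V => f p.1 + p.2) (l ×ˢ 𝓝 u1) (𝓝 (w + u1)) :=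
    (hf.comp tendsto_fst).add tendsto_snd
  obtain ⟨pa, hpa, pb, hpb, hab⟩ := eventually_prod_iff.1 (h4.eventually h2)
  refine ⟨pa, hpa, ?_⟩
  filter_upwards [hpb] with u hu x hx
  exact hab hx hu

private theorem AdmD_r0 (c : Bool) {q : ℂ → Prop} (h : ∀ᶠ x in 𝓝[Hc c \ {0}] 0, q x) :
    ∀ᶠ r in 𝓝[>] (0 : ℝ), ∀ x ∈ Hc c, x ≠ 0 → ‖x‖ < r → q x := by
  rw [eventually_nhdsWithin_iff] at h
  obtain ⟨e, he, h1⟩ := Metric.eventually_nhds_iff.1 h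
  filter_upwards [Ioo_mem_nhdsGT he] with r hr x hx hx0 hxr
  refine h1 ?_ ⟨hx, hx0⟩
  rw [dist_zero_right]
  exact hxr.trans hr.2

private theorem AdmD_r1 (c : Bool) {q : ℂ → Prop} (h : ∀ᶠ x in 𝓝[Hc c \ {1}] 1, q x) :
    ∀ᶠ r in 𝓝[>] (0 : ℝ), ∀ x ∈ Hc c, x ≠ 1 → ‖x - 1‖ < r → q x := by
  rw [eventually_nhdsWithin_iff] at h
  obtain ⟨e, he, h1⟩ := Metric.eventually_nhds_iff.1 h
  filter_upwards [Ioo_mem_nhdsGT he] with r hr x hx hx0 hxr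
  refine h1 ?_ ⟨hx, hx0⟩
  rw [dist_eq_norm]
  exact hxr.trans hr.2

private theorem AdmD_ri (c : Bool) {q : ℂ → Prop}
    (h : ∀ᶠ x in Bornology.cobounded ℂ ⊓ 𝓟 (Hc c), q x) :
    ∀ᶠ r in 𝓝[>] (0 : ℝ), ∀ x ∈ Hc c, r⁻¹ < ‖x‖ → q x := by
  rw [eventually_inf_principal] at h
  rw [(hasBasis_cobounded_norm (E := ℂ)).eventually_iff] at h
  obtain ⟨R, -, hR⟩ := h
  have h2 : (0 : ℝ) < (max R 1)⁻¹ := by positivity
  filter_upwards [Ioo_mem_nhdsGT h2] with r hr x hx hxr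
  refine hR ?_ hx
  have h3 : max R 1 < r⁻¹ := by
    rw [lt_inv_comm₀ (by positivity) hr.1]
    exact hr.2
  exact (le_max_left R 1).trans (h3.le.trans hxr.le)

private theorem AdmD_ck {u1 : P.V} (h : θ.Adm u1) (c : Bool) (k : ℤ) :
    ∀ᶠ M in (atTop : Filter ℝ), ∀ᶠ r in 𝓝[>] (0 : ℝ), ∀ᶠ u in 𝓝 u1, ∀ x ∈ Hc c, x ≠ 0 → x ≠ 1 →
      (‖x‖ < r ∨ ‖x - 1‖ < r ∨ r⁻¹ < ‖x‖) →
      θ.T (P.Cv c k x + u) ≠ 0 ∧ ∀ t, ‖θ.L t (P.Cv c k x + u)‖ ≤ M := by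
  have hi : θ.T (0 + u1) ≠ 0 := by
    rw [zero_add]
    exact h.1
  filter_upwards [AdmD_one θ (h.2 c k).1 (AdmD_t0 c k), AdmD_one θ (h.2 c k).2 (AdmD_t1 c k),
    AdmD_one θ hi (AdmD_ti c k)] with M hM0 hM1 hMi
  obtain ⟨q0, hq0, hu0⟩ := hM0
  obtain ⟨q1, hq1, hu1⟩ := hM1
  obtain ⟨qi, hqi, hui⟩ := hMi
  filter_upwards [AdmD_r0 c hq0, AdmD_r1 c hq1, AdmD_ri c hqi] with r hr0 hr1 hri
  filter_upwards [hu0, hu1, hui] with u hv0 hv1 hvi x hx hx0 hx1 hx2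
  rcases hx2 with h3 | h3 | h3
  · exact hv0 x (hr0 x hx hx0 h3)
  · exact hv1 x (hr1 x hx hx1 h3)
  · exact hvi x (hri x hx h3)

theorem end_bound {u1 : P.V} (h : θ.Adm u1) : ∃ (M r : ℝ) (N : Set P.V), N ∈ 𝓝 u1 ∧ 0 < r ∧
    ∀ u ∈ N, ∀ (c : Bool) (k : ℤ) (x : ℂ), x ∈ Hc c → x ≠ 0 → x ≠ 1 →
      (‖x‖ < r ∨ ‖x - 1‖ < r ∨ r⁻¹ < ‖x‖) →
      θ.T (P.Cv c k x + u) ≠ 0 ∧ ∀ t, ‖θ.L t (P.Cv c k x + u)‖ ≤ M := by
  have h1 : ∀ᶠ M in (atTop : Filter ℝ), ∀ᶠ r in 𝓝[>] (0 : ℝ), ∀ᶠ u in 𝓝 u1,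
      ∀ (i : Bool × Fin P.D), ∀ x ∈ Hc i.1, x ≠ 0 → x ≠ 1 →
      (‖x‖ < r ∨ ‖x - 1‖ < r ∨ r⁻¹ < ‖x‖) →
      θ.T (P.Cv i.1 ((i.2 : ℕ) : ℤ) x + u) ≠ 0 ∧
        ∀ t, ‖θ.L t (P.Cv i.1 ((i.2 : ℕ) : ℤ) x + u)‖ ≤ M := by
    have h2 := eventually_all.2 fun i : Bool × Fin P.D => AdmD_ck θ h i.1 ((i.2 : ℕ) : ℤ)
    filter_upwards [h2] with M hM
    filter_upwards [eventually_all.2 hM] with r hr
    exact eventually_all.2 hr
  obtain ⟨M, hM⟩ := h1.exists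
  obtain ⟨r, hr, hr0⟩ := (hM.and self_mem_nhdsWithin).exists
  refine ⟨M, r, _, hr, hr0, ?_⟩
  intro u hu c k x hx hx0 hx1 hx2
  obtain ⟨j, m, rfl⟩ := AdmD_mod (P := P) k
  rw [Cv_add_D]
  exact hu (c, j) x hx hx0 hx1 hx2

private theorem AdmD_K {c : Bool} (k : ℤ) {u : P.V} (hu : θ.T u ≠ 0) {K : Set ℂ}
    (hK : IsCompact K) (hKO : K ⊆ Om c) : (K ∩ {x | θ.T (P.Cv c k x + u) = 0}).Finite := by
  refine hK.induction_on (p := fun s => (s ∩ {x | θ.T (P.Cv c k x + u) = 0}).Finite) ?_ ?_ ?_ ?_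
  · rw [Set.empty_inter]
    exact Set.finite_empty
  · intro s t hst ht
    exact ht.subset (Set.inter_subset_inter_left _ hst)
  · intro s t hs ht
    rw [Set.union_inter_distrib_right]
    exact hs.union ht
  · intro x hx
    obtain ⟨h1, h2⟩ := T_order θ u hu k (hKO hx)
    rw [ne_eq, analyticOrderAt_eq_top] at h2
    have h3 := h1.eventually_eq_zero_or_eventually_ne_zero.resolve_left h2
    rw [eventually_nhdsWithin_iff] at h3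
    refine ⟨{y | y ∈ ({x}ᶜ : Set ℂ) → θ.T (P.Cv c k y + u) ≠ 0}, mem_nhdsWithin_of_mem_nhds h3, ?_⟩
    refine (Set.finite_singleton x).subset ?_
    rintro y ⟨hy1, hy2⟩
    by_contra hy
    exact hy1 hy hy2

theorem Z_finite {u : P.V} (h : θ.Adm u) : (θ.Z u).Finite := by
  obtain ⟨M, r, N, hN, hr, hb⟩ := end_bound θ h
  have huN : u ∈ N := mem_of_mem_nhds hN
  set K : Bool → Set ℂ := fun c => {x | x ∈ Hc c ∧ r ≤ ‖x‖ ∧ r ≤ ‖x - 1‖} ∩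
    Metric.closedBall 0 r⁻¹ with hKdef
  have hKc : ∀ c, IsCompact (K c) := by
    intro c
    refine IsCompact.inter_left (isCompact_closedBall 0 r⁻¹) ?_
    have e1 : IsClosed (Hc c) :=
      isClosed_le (continuous_const.mul Complex.continuous_im) continuous_const
    have e2 : IsClosed {x : ℂ | r ≤ ‖x‖} := isClosed_le continuous_const continuous_norm
    have e3 : IsClosed {x : ℂ | r ≤ ‖x - 1‖} :=
      isClosed_le continuous_const (continuous_norm.comp (continuous_id.sub continuous_const))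
    exact e1.inter (e2.inter e3)
  have hKO : ∀ c, K c ⊆ Om c := by
    rintro c x ⟨⟨hx1, hx2, hx3⟩, -⟩
    refine Om_of_Hc hx1 ?_ ?_
    · rintro rfl
      rw [norm_zero] at hx2
      linarith
    · rintro rfl
      rw [sub_self, norm_zero] at hx3
      linarith
  have hfin : (⋃ i : Bool × Fin P.D, P.pt i.1 ((i.2 : ℕ) : ℤ) ''
      (K i.1 ∩ {x | θ.T (P.Cv i.1 ((i.2 : ℕ) : ℤ) x + u) = 0})).Finite :=
    Set.finite_iUnion fun i => (AdmD_K θ _ h.1 (hKc i.1) (hKO i.1)).image _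
  refine hfin.subset ?_
  rintro z ⟨hz, hz0⟩
  obtain ⟨g1, g2, g3⟩ := ks_spec hz
  have hz0' : θ.T (P.Cv (cs z) (P.ks z) z.1 + u) = 0 := hz0
  obtain ⟨hx0, hx1⟩ := Om_ne g1
  have hnot : ¬ (‖z.1‖ < r ∨ ‖z.1 - 1‖ < r ∨ r⁻¹ < ‖z.1‖) := fun hc =>
    (hb u huN (cs z) (P.ks z) z.1 g2 hx0 hx1 hc).1 hz0'
  push Not at hnot
  obtain ⟨n1, n2, n3⟩ := hnot
  obtain ⟨j, m, hj⟩ := AdmD_mod (P := P) (P.ks z)
  have hCv : P.Cv (cs z) (P.ks z) z.1 = P.Cv (cs z) ((j : ℕ) : ℤ) z.1 := by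
    rw [hj, Cv_add_D]
  refine Set.mem_iUnion.2 ⟨(cs z, j), z.1, ⟨⟨⟨g2, n1, n2⟩, ?_⟩, ?_⟩, ?_⟩
  · rw [mem_closedBall_zero_iff]
    exact n3
  · rw [Set.mem_ofPred_eq, ← hCv]
    exact hz0'
  · show P.pt (cs z) ((j : ℕ) : ℤ) z.1 = z
    rw [← g3]
    show P.pt (cs z) ((j : ℕ) : ℤ) z.1 = P.pt (cs z) (P.ks z) z.1
    rw [P.pt_eq_iff]
    exact ⟨-m, by rw [hj]; ring⟩

end

end Pool.Agent.RHT.Par
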