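import Pool.Agent.RHT.Defs

/-!
RHT-Ari. Arithmetic of the exponents: `a + b = D + 1`. All residues are computed in `ℕ` with
`Nat.div_add_mod`; `(a s % D) + (b s % D) ≡ s (mod D)` and it lies in `[0, 2D)`.
-/

set_option autoImplicit false

namespace Pool.Agent.RHT.Par

open Complex ComplexConjugate Finset

noncomputable section

variable (P : Par)

private theorem Ari_Dpos : 0 < P.D := by
  have := P.hD
  omega

private theorem Ari_DR : (0 : ℝ) < P.D := by exact_mod_cast Ari_Dpos P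

private theorem Ari_A (s : ℕ) : P.a * s % P.D < P.D := Nat.mod_lt _ (Ari_Dpos P)

private theorem Ari_B (s : ℕ) : P.b * s % P.D < P.D := Nat.mod_lt _ (Ari_Dpos P)

private theorem Ari_mod (s : ℕ) : (P.a * s % P.D + P.b * s % P.D) % P.D = s % P.D := by
  rw [← Nat.add_mod, ← add_mul, P.hab, add_mul, one_mul, mul_comm P.D s, Nat.mul_add_mod_self_right]

private theorem Ari_mem (s : ℕ) : s ∈ P.Phi ↔ s < P.D ∧ P.D < P.a * s % P.D + P.b * s % P.D := by
  unfold Phi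
  rw [mem_filter, mem_range]

private theorem Ari_two (s : ℕ) (h : s < P.D) : P.a * s % P.D + P.b * s % P.D = s ∨
    P.a * s % P.D + P.b * s % P.D = s + P.D := by
  have h1 := Ari_mod P s
  rw [Nat.mod_eq_of_lt h] at h1
  have h2 := Ari_A P s
  have h3 := Ari_B P s
  rcases lt_or_ge (P.a * s % P.D + P.b * s % P.D) P.D with h4 | h4
  · left
    rw [Nat.mod_eq_of_lt h4] at h1
    exact h1
  · right
    rw [Nat.mod_eq_sub_mod h4, Nat.mod_eq_of_lt (by omega)] at h1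
    omega

private theorem Ari_sum (s : ℕ) (h : s < P.D) : P.a * s % P.D + P.b * s % P.D =
    s + if s ∈ P.Phi then P.D else 0 := by
  have h0 := Ari_two P s h
  have h2 := Ari_mem P s
  by_cases h3 : s ∈ P.Phi
  · rw [if_pos h3]
    have h4 := (h2.1 h3).2
    omega
  · rw [if_neg h3]
    rcases h0 with h0 | h0
    · exact h0
    · rcases Nat.eq_zero_or_pos s with h5 | h5
      · subst h5
        simp
      · exact absurd (h2.2 ⟨h, by omega⟩) h3

private theorem Ari_neg (c s : ℕ) (h : s ≤ P.D) (h0 : c * s % P.D ≠ 0) :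
    c * (P.D - s) % P.D = P.D - c * s % P.D := by
  have h1 : c * (P.D - s) + c * s = c * P.D := by
    rw [← mul_add, Nat.sub_add_cancel h]
  have h2 : (c * (P.D - s) % P.D + c * s % P.D) % P.D = 0 := by
    rw [← Nat.add_mod, h1, Nat.mul_mod_left]
  have h3 : c * (P.D - s) % P.D < P.D := Nat.mod_lt _ (Ari_Dpos P)
  have h4 : c * s % P.D < P.D := Nat.mod_lt _ (Ari_Dpos P)
  rcases lt_or_ge (c * (P.D - s) % P.D + c * s % P.D) P.D with h5 | h5
  · rw [Nat.mod_eq_of_lt h5] at h2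
    omega
  · rw [Nat.mod_eq_sub_mod h5, Nat.mod_eq_of_lt (by omega)] at h2
    omega

private theorem Ari_al0 (s : ℕ) : P.al s ≠ 0 ↔ P.a * s % P.D ≠ 0 := by
  unfold al
  rw [ne_eq, div_eq_zero_iff, not_or, Nat.cast_eq_zero]
  exact ⟨fun h => h.1, fun h => ⟨h, (Ari_DR P).ne'⟩⟩

private theorem Ari_be0 (s : ℕ) : P.be s ≠ 0 ↔ P.b * s % P.D ≠ 0 := by
  unfold be
  rw [ne_eq, div_eq_zero_iff, not_or, Nat.cast_eq_zero]
  exact ⟨fun h => h.1, fun h => ⟨h, (Ari_DR P).ne'⟩⟩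

theorem two_le_a : 2 ≤ P.a := by
  have := P.hb
  have := P.hab
  omega

theorem two_le_b : 2 ≤ P.b := by
  have := P.ha
  have := P.hab
  omega

theorem al_nonneg (s : ℕ) : 0 ≤ P.al s := by
  unfold al
  positivity

theorem al_lt_one (s : ℕ) : P.al s < 1 := by
  unfold al
  rw [div_lt_one (Ari_DR P)]
  exact_mod_cast Ari_A P s

theorem be_nonneg (s : ℕ) : 0 ≤ P.be s := by
  unfold be
  positivity

theorem be_lt_one (s : ℕ) : P.be s < 1 := by
  unfold be
  rw [div_lt_one (Ari_DR P)]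
  exact_mod_cast Ari_B P s

theorem Phi_pos {t : ℕ} (h : t ∈ P.Phi) : 0 < t ∧ t < P.D := by
  obtain ⟨h1, h2⟩ := (Ari_mem P t).1 h
  refine ⟨?_, h1⟩
  rcases Nat.eq_zero_or_pos t with h3 | h3
  · subst h3
    simp at h2
  · exact h3

theorem al_pos {t : ℕ} (h : t ∈ P.Phi) : 0 < P.al t := by
  obtain ⟨h1, h2⟩ := (Ari_mem P t).1 h
  have h3 := Ari_B P t
  have h4 : 0 < P.a * t % P.D := by omega
  unfold al
  exact div_pos (by exact_mod_cast h4) (Ari_DR P)

theorem be_pos {t : ℕ} (h : t ∈ P.Phi) : 0 < P.be t := by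
  obtain ⟨h1, h2⟩ := (Ari_mem P t).1 h
  have h3 := Ari_A P t
  have h4 : 0 < P.b * t % P.D := by omega
  unfold be
  exact div_pos (by exact_mod_cast h4) (Ari_DR P)

theorem one_mem_Phi : 1 ∈ P.Phi := by
  rw [Ari_mem, mul_one, mul_one, Nat.mod_eq_of_lt P.ha, Nat.mod_eq_of_lt P.hb]
  have := P.hD
  have := P.hab
  omega

/-- `α_s + β_s = s/D` or `1 + s/D` -/
theorem al_add_be {s : ℕ} (h : s < P.D) :
    P.al s + P.be s = (s : ℝ) / P.D + if s ∈ P.Phi then 1 else 0 := by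
  have h1 := Ari_sum P s h
  have h2 : ((P.a * s % P.D : ℕ) : ℝ) + ((P.b * s % P.D : ℕ) : ℝ) = (s : ℝ) + if s ∈ P.Phi then (P.D : ℝ) else 0 := by
    rw [← Nat.cast_add, h1]
    split_ifs
    · push_cast
      rfl
    · push_cast
      rfl
  unfold al be
  rw [← add_div, h2, add_div]
  congr 1
  split_ifs
  · exact div_self (Ari_DR P).ne'
  · exact zero_div _

theorem al_add_be_Phi {t : ℕ} (h : t ∈ P.Phi) : P.al t + P.be t = 1 + (t : ℝ) / P.D := by
  rw [P.al_add_be (P.Phi_pos h).2, if_pos h, add_comm]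

theorem al_neg {s : ℕ} (h : s ≤ P.D) (h0 : P.al s ≠ 0) : P.al (P.D - s) = 1 - P.al s := by
  have h1 := Ari_neg P P.a s h ((Ari_al0 P s).1 h0)
  unfold al
  rw [h1, Nat.cast_sub (Ari_A P s).le, sub_div, div_self (Ari_DR P).ne']

theorem be_neg {s : ℕ} (h : s ≤ P.D) (h0 : P.be s ≠ 0) : P.be (P.D - s) = 1 - P.be s := by
  have h1 := Ari_neg P P.b s h ((Ari_be0 P s).1 h0)
  unfold be
  rw [h1, Nat.cast_sub (Ari_B P s).le, sub_div, div_self (Ari_DR P).ne']

/-- both exponents of `s` are nonzero: exactly one of `s`, `D - s` is in `Phi` -/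
theorem mem_Phi_neg {s : ℕ} (h0 : 0 < s) (h : s < P.D) (ha : P.al s ≠ 0) (hb : P.be s ≠ 0) :
    s ∉ P.Phi ↔ P.D - s ∈ P.Phi := by
  have h1 := Ari_neg P P.a s h.le ((Ari_al0 P s).1 ha)
  have h2 := Ari_neg P P.b s h.le ((Ari_be0 P s).1 hb)
  have h3 := Ari_two P s h
  have h4 := Ari_A P s
  have h5 := Ari_B P s
  rw [Ari_mem, Ari_mem, h1, h2]
  omega

theorem not_both {s : ℕ} (h0 : 0 < s) (h : s < P.D) (hs : s ∈ P.Phi) : P.D - s ∉ P.Phi := by
  intro h1
  exact (P.mem_Phi_neg h0 h (P.al_pos hs).ne' (P.be_pos hs).ne').2 h1 hs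

/-- not both exponents vanish -/
theorem al_or_be {s : ℕ} (h0 : 0 < s) (h : s < P.D) : P.al s ≠ 0 ∨ P.be s ≠ 0 := by
  rw [Ari_al0, Ari_be0]
  have h3 := Ari_two P s h
  omega

/-- `a s / D` and its integral and fractional parts -/
theorem al_floor (s : ℕ) :
    (P.a : ℝ) * s / P.D = ((P.a * s / P.D : ℕ) : ℝ) + P.al s := by
  have h1 := Nat.div_add_mod (P.a * s) P.D
  have h2 : (P.a : ℝ) * s = P.D * ((P.a * s / P.D : ℕ) : ℝ) + ((P.a * s % P.D : ℕ) : ℝ) := by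
    exact_mod_cast h1.symm
  unfold al
  rw [h2, add_div, mul_div_cancel_left₀ _ (Ari_DR P).ne']

theorem be_floor (s : ℕ) :
    (P.b : ℝ) * s / P.D = ((P.b * s / P.D : ℕ) : ℝ) + P.be s := by
  have h1 := Nat.div_add_mod (P.b * s) P.D
  have h2 : (P.b : ℝ) * s = P.D * ((P.b * s / P.D : ℕ) : ℝ) + ((P.b * s % P.D : ℕ) : ℝ) := by
    exact_mod_cast h1.symm
  unfold be
  rw [h2, add_div, mul_div_cancel_left₀ _ (Ari_DR P).ne']

end

end Pool.Agent.RHT.Par
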