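import Pool.Agent.RHT.IvB

/-!
RHT-IvT. Transitions between the two charts. Plan.
left (`re x < 0`): `Iv true` and `ee p * Iv false` have the same derivative (`Iv_hasDerivAt`,
`pw_left`) on the convex set `re x < 0`, both tend to `0` along the negative real axis
(`Iv_tendsto`, real points are in both `Hc`). right: the same.
mid (`0 < re x < 1`): the difference is a constant `d`. `x → 1`: `Iv c p q` is continuous at `1` on
`Hc c ∪ {1}`... simplest: for real `x > 1`, `Iv false p q x = - ∫_x^∞ pw false` along the real axis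
(same derivative, both `→ 0`), so by `pw_real'`
`Iv false p q x = - exp (π I q) ∫_x^∞ y^(-p) (y-1)^(-q) dy`, and by the right transition
`Iv true p q x - Iv false p q x = (ee (-q) - 1) Iv false p q x`. The function
`x ↦ Iv true p q x - Iv false p q x` of real `x` near `1` is continuous at `1` (`q < 1`: dominated
convergence, `‖pw (x - sg c I s)‖ ≤ C s^(-q) (1+s)^(-p)`), so
`d = (1 - ee (-q)) exp (π I q) ∫_1^∞ y^(-p) (y-1)^(-q) dy = 2 I sin (π q) B(p+q-1, 1-q) = per p q`
(substitution `y = 1/u`, `Complex.Gamma_mul_Gamma_eq_betaIntegral`, `Real.Gamma_mul_Gamma_one_sub`).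
-/

set_option autoImplicit false

namespace Pool.Agent.RHT

open Complex ComplexConjugate Finset Filter Topology

noncomputable section

private theorem IvT_const {S : Set ℂ} (hO : IsOpen S) (hS : IsPreconnected S) {f g f' : ℂ → ℂ}
    (hf : ∀ x ∈ S, HasDerivAt f (f' x) x) (hg : ∀ x ∈ S, HasDerivAt g (f' x) x) {x y : ℂ}
    (hx : x ∈ S) (hy : y ∈ S) : f x - g x = f y - g y := by
  have h1 : ∀ z ∈ S, HasDerivAt (fun z => f z - g z) 0 z := fun z hz => by
    have h2 := (hf z hz).sub (hg z hz)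
    rw [sub_self] at h2
    exact h2
  exact hO.is_const_of_deriv_eq_zero hS (f := fun z => f z - g z)
    (fun z hz => (h1 z hz).differentiableAt.differentiableWithinAt)
    (fun z hz => (h1 z hz).deriv) hx hy

private theorem IvT_lim {α : Type} {l : Filter α} {r : α → ℝ} (hr : Tendsto (fun a => |r a|) l atTop)
    (c : Bool) {p q : ℝ} (h : 1 < p + q) : Tendsto (fun a => Iv c p q (r a)) l (𝓝 0) := by
  refine (Iv_tendsto (c := c) h).comp (tendsto_inf.2 ⟨?_, tendsto_principal.2 ?_⟩)
  · rw [← tendsto_norm_atTop_iff_cobounded]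
    simpa using hr
  · refine Eventually.of_forall fun a => ?_
    show sg c * ((r a : ℂ)).im ≤ 0
    simp

private theorem IvT_der_left {p q : ℝ} (h : 1 < p + q) (x : ℂ) (hx : x.re ≠ 0) (hx1 : x.re ≠ 1)
    (c : Bool) : HasDerivAt (Iv c p q) (pw c p q x) x :=
  Iv_hasDerivAt h (Om_of_strip hx hx1 c)

theorem Iv_left {p q : ℝ} (h : 1 < p + q) {x : ℂ} (hx : x.re < 0) :
    Iv true p q x = ee p * Iv false p q x := by
  have key : ∀ n : ℕ, Iv true p q x - ee p * Iv false p q x =
      Iv true p q ((-(n + 1) : ℝ) : ℂ) - ee p * Iv false p q ((-(n + 1) : ℝ) : ℂ) := by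
    intro n
    refine IvT_const (S := {c : ℂ | c.re < 0}) (isOpen_lt Complex.continuous_re continuous_const)
      (convex_halfSpace_re_lt 0).isPreconnected (f' := pw true p q) (f := Iv true p q)
      (g := fun x => ee p * Iv false p q x) (y := ((-(n + 1) : ℝ) : ℂ)) ?_ ?_ hx ?_
    · intro z hz
      have hz' : z.re < 0 := hz
      exact IvT_der_left h z (by linarith) (by linarith) true
    · intro z hz
      have hz' : z.re < 0 := hz
      rw [pw_left p q hz']
      exact (IvT_der_left h z (by linarith) (by linarith) false).const_mul _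
    · show ((-(n + 1) : ℝ) : ℂ).re < 0
      rw [Complex.ofReal_re]
      have : (0 : ℝ) ≤ n := Nat.cast_nonneg n
      linarith
  have hr : Tendsto (fun n : ℕ => |(-(n + 1) : ℝ)|) atTop atTop := by
    have : (fun n : ℕ => |(-(n + 1) : ℝ)|) = fun n : ℕ => (n : ℝ) + 1 := by
      funext n
      rw [abs_neg, abs_of_nonneg (by positivity)]
    rw [this]
    exact tendsto_atTop_add_const_right _ _ tendsto_natCast_atTop_atTop
  have h1 := (IvT_lim hr true h).sub ((IvT_lim hr false h).const_mul (ee p))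
  rw [mul_zero, sub_zero] at h1
  have h2 : Tendsto (fun _ : ℕ => Iv true p q x - ee p * Iv false p q x) atTop (𝓝 0) :=
    h1.congr fun n => (key n).symm
  exact sub_eq_zero.1 (tendsto_nhds_unique tendsto_const_nhds h2)

theorem Iv_right {p q : ℝ} (h : 1 < p + q) {x : ℂ} (hx : 1 < x.re) :
    Iv true p q x = ee (-q) * Iv false p q x := by
  have key : ∀ n : ℕ, Iv true p q x - ee (-q) * Iv false p q x =
      Iv true p q ((n + 2 : ℝ) : ℂ) - ee (-q) * Iv false p q ((n + 2 : ℝ) : ℂ) := by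
    intro n
    refine IvT_const (S := {c : ℂ | 1 < c.re}) (isOpen_lt continuous_const Complex.continuous_re)
      (convex_halfSpace_re_gt 1).isPreconnected (f' := pw true p q) (f := Iv true p q)
      (g := fun x => ee (-q) * Iv false p q x) (y := ((n + 2 : ℝ) : ℂ)) ?_ ?_ hx ?_
    · intro z hz
      have hz' : 1 < z.re := hz
      exact IvT_der_left h z (by linarith) (by linarith) true
    · intro z hz
      have hz' : 1 < z.re := hz
      rw [pw_right p q hz']
      exact (IvT_der_left h z (by linarith) (by linarith) false).const_mul _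
    · show 1 < ((n + 2 : ℝ) : ℂ).re
      rw [Complex.ofReal_re]
      have : (0 : ℝ) ≤ n := Nat.cast_nonneg n
      linarith
  have hr : Tendsto (fun n : ℕ => |(n + 2 : ℝ)|) atTop atTop := by
    have : (fun n : ℕ => |(n + 2 : ℝ)|) = fun n : ℕ => (n : ℝ) + 2 := by
      funext n
      rw [abs_of_nonneg (by positivity)]
    rw [this]
    exact tendsto_atTop_add_const_right _ _ tendsto_natCast_atTop_atTop
  have h1 := (IvT_lim hr true h).sub ((IvT_lim hr false h).const_mul (ee (-q)))
  rw [mul_zero, sub_zero] at h1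
  have h2 : Tendsto (fun _ : ℕ => Iv true p q x - ee (-q) * Iv false p q x) atTop (𝓝 0) :=
    h1.congr fun n => (key n).symm
  exact sub_eq_zero.1 (tendsto_nhds_unique tendsto_const_nhds h2)

private theorem IvT_mem (c : Bool) (x : ℝ) {s : ℝ} (hs : 0 < s) : (x : ℂ) - sg c * I * s ∈ Om c := by
  have h1 : sg c * ((x : ℂ) - sg c * I * s).im < 0 := by
    cases c <;> simp [sg, hs]
  exact ⟨fun h => absurd h.2 (not_le.2 h1), fun h => absurd h.2 (not_le.2 h1)⟩

private theorem IvT_rpow (p : ℝ) {y : ℝ} (h1 : 1 / 4 ≤ y) (h2 : y ≤ 4) : y ^ (-p) ≤ 4 ^ |p| := by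
  have hy : 0 < y := by linarith
  rcases le_total 0 p with hp | hp
  · rw [abs_of_nonneg hp]
    calc y ^ (-p) ≤ (1 / 4 : ℝ) ^ (-p) :=
          Real.rpow_le_rpow_of_nonpos (by norm_num) h1 (by linarith)
      _ = 4 ^ p := by
          rw [one_div, Real.inv_rpow (by norm_num), ← Real.rpow_neg (by norm_num), neg_neg]
  · rw [abs_of_nonpos hp]
    exact Real.rpow_le_rpow hy.le h2 (by linarith)

private def IvT_bd (p q s : ℝ) : ℝ := if s ≤ 1 then s ^ (-q) else s ^ (-(p + q))

private theorem IvT_bd_int {p q : ℝ} (h : 1 < p + q) (hq1 : q < 1) :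
    MeasureTheory.IntegrableOn (IvT_bd p q) (Set.Ioi 0) := by
  have h1 : MeasureTheory.IntegrableOn (IvT_bd p q) (Set.Ioc 0 1) := by
    have h2 : MeasureTheory.IntegrableOn (fun s : ℝ => s ^ (-q)) (Set.Ioc 0 1) :=
      (intervalIntegrable_iff_integrableOn_Ioc_of_le zero_le_one).1
        (intervalIntegral.intervalIntegrable_rpow' (by linarith))
    refine h2.congr_fun (fun s hs => ?_) measurableSet_Ioc
    show s ^ (-q) = IvT_bd p q s
    rw [IvT_bd, if_pos hs.2]
  have h3 : MeasureTheory.IntegrableOn (IvT_bd p q) (Set.Ioi 1) := by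
    have h2 : MeasureTheory.IntegrableOn (fun s : ℝ => s ^ (-(p + q))) (Set.Ioi 1) :=
      integrableOn_Ioi_rpow_of_lt (by linarith) one_pos
    refine h2.congr_fun (fun s hs => ?_) measurableSet_Ioi
    show s ^ (-(p + q)) = IvT_bd p q s
    rw [IvT_bd, if_neg (not_le.2 hs)]
  have h4 := h1.union h3
  rwa [Set.Ioc_union_Ioi_eq_Ioi zero_le_one] at h4

private theorem IvT_le (c : Bool) {p q : ℝ} (hq : 0 < q) {x s : ℝ} (hx : 1 / 2 ≤ x) (hx1 : x ≤ 3 / 2)
    (hs : 0 < s) : ‖pw c p q ((x : ℂ) - sg c * I * s)‖ ≤ 4 ^ |p| * IvT_bd p q s := by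
  obtain ⟨h0, h1⟩ := Om_ne (IvT_mem c x hs)
  rw [norm_pw c p q h0 h1]
  have hsg : sg c ^ 2 = 1 := by cases c <;> simp [sg]
  have habs : |sg c| = 1 := by cases c <;> simp [sg]
  have hre : ((x : ℂ) - sg c * I * s).re = x := by simp
  have him : ((x : ℂ) - sg c * I * s).im = -(sg c * s) := by simp
  have hA1 : x ≤ ‖(x : ℂ) - sg c * I * s‖ := by
    have := Complex.abs_re_le_norm ((x : ℂ) - sg c * I * s)
    rw [hre] at this
    exact (le_abs_self x).trans this
  have hA2 : s ≤ ‖(x : ℂ) - sg c * I * s‖ := by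
    have := Complex.abs_im_le_norm ((x : ℂ) - sg c * I * s)
    rw [him, abs_neg, abs_mul, habs, one_mul, abs_of_pos hs] at this
    exact this
  have hA3 : ‖(x : ℂ) - sg c * I * s‖ ≤ x + s := by
    refine (norm_sub_le _ _).trans (le_of_eq ?_)
    rw [norm_mul, norm_mul, Complex.norm_real, Complex.norm_real, Complex.norm_real, Complex.norm_I,
      Real.norm_eq_abs, Real.norm_eq_abs, Real.norm_eq_abs, habs, abs_of_pos hs,
      abs_of_nonneg (by linarith)]
    ring
  have hB : s ≤ ‖1 - ((x : ℂ) - sg c * I * s)‖ := by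
    have := Complex.abs_im_le_norm (1 - ((x : ℂ) - sg c * I * s))
    rw [Complex.sub_im, him, Complex.one_im, zero_sub, neg_neg, abs_mul, habs, one_mul,
      abs_of_pos hs] at this
    exact this
  have hB2 : ‖1 - ((x : ℂ) - sg c * I * s)‖ ^ (-q) ≤ s ^ (-q) :=
    Real.rpow_le_rpow_of_nonpos hs hB (by linarith)
  set A := ‖(x : ℂ) - sg c * I * s‖ with hA
  have hAp : 0 < A := by linarith
  unfold IvT_bd
  split_ifs with hs1
  · have h2 := IvT_rpow p (show 1 / 4 ≤ A by linarith) (show A ≤ 4 by linarith)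
    gcongr
  · have hs1' : 1 < s := not_le.1 hs1
    have h2 := IvT_rpow p (y := A / s) (by rw [le_div_iff₀ hs]; linarith)
      (by rw [div_le_iff₀ hs]; linarith)
    have h3 : A ^ (-p) ≤ 4 ^ |p| * s ^ (-p) := by
      calc A ^ (-p) = (A / s) ^ (-p) * s ^ (-p) := by
            rw [← Real.mul_rpow (by positivity) hs.le, div_mul_cancel₀ _ hs.ne']
        _ ≤ _ := by gcongr
    calc A ^ (-p) * ‖1 - ((x : ℂ) - sg c * I * s)‖ ^ (-q)
        ≤ (4 ^ |p| * s ^ (-p)) * s ^ (-q) := by gcongr
      _ = 4 ^ |p| * s ^ (-(p + q)) := by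
          rw [mul_assoc, ← Real.rpow_add hs]
          congr 2
          ring

private theorem IvT_cont (c : Bool) {p q : ℝ} (h : 1 < p + q) (hq : 0 < q) (hq1 : q < 1) :
    ContinuousAt (fun x : ℝ => Iv c p q (x : ℂ)) 1 := by
  unfold Iv
  refine ContinuousAt.mul continuousAt_const ?_
  have hnb : ∀ᶠ x : ℝ in 𝓝 1, x ∈ Set.Ioo (1 / 2 : ℝ) (3 / 2) :=
    isOpen_Ioo.mem_nhds ⟨by norm_num, by norm_num⟩
  refine MeasureTheory.continuousAt_of_dominated (bound := fun s => 4 ^ |p| * IvT_bd p q s) ?_ ?_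
    ((IvT_bd_int h hq1).const_mul _) ?_
  · refine Eventually.of_forall fun x => ?_
    refine ContinuousOn.aestronglyMeasurable (fun s hs => ?_) measurableSet_Ioi
    have h1 : ContinuousAt (pw c p q) ((x : ℂ) - sg c * I * s) :=
      (pw_hasDerivAt p q (IvT_mem c x hs)).continuousAt
    have h2 : ContinuousAt (fun s : ℝ => (x : ℂ) - sg c * I * s) s := by fun_prop
    exact (ContinuousAt.comp (f := fun s : ℝ => (x : ℂ) - sg c * I * s) (g := pw c p q) h1
      h2).continuousWithinAt
  · filter_upwards [hnb] with x hx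
    filter_upwards [MeasureTheory.ae_restrict_mem measurableSet_Ioi] with s hs
    exact IvT_le c hq hx.1.le hx.2.le hs
  · filter_upwards [MeasureTheory.ae_restrict_mem measurableSet_Ioi] with s hs
    have h1 : ContinuousAt (pw c p q) (((1 : ℝ) : ℂ) - sg c * I * s) :=
      (pw_hasDerivAt p q (IvT_mem c 1 hs)).continuousAt
    have h2 : ContinuousAt (fun x : ℝ => (x : ℂ) - sg c * I * s) 1 := by fun_prop
    exact ContinuousAt.comp (f := fun x : ℝ => (x : ℂ) - sg c * I * s) (g := pw c p q) h1 h2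

private theorem IvT_image : (fun u : ℝ => u⁻¹) '' Set.Ioo 0 1 = Set.Ioi 1 := by
  ext y
  constructor
  · rintro ⟨u, hu, rfl⟩
    exact (one_lt_inv₀ hu.1).2 hu.2
  · intro hy
    have hy' : (1 : ℝ) < y := hy
    have hy0 : 0 < y := by linarith
    exact ⟨y⁻¹, ⟨inv_pos.2 hy0, inv_lt_one_of_one_lt₀ hy'⟩, inv_inv y⟩

private theorem IvT_subst {p q u : ℝ} (hu : u ∈ Set.Ioo (0 : ℝ) 1) :
    |(-(u ^ 2)⁻¹)| • (u⁻¹ ^ (-p) * (u⁻¹ - 1) ^ (-q)) = u ^ (p + q - 2) * (1 - u) ^ (-q) := by
  have h0 := hu.1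
  have h1 : 0 < 1 - u := by linarith [hu.2]
  have e1 : u⁻¹ - 1 = (1 - u) * u⁻¹ := by field_simp
  rw [abs_neg, abs_of_pos (by positivity), smul_eq_mul, e1, Real.mul_rpow h1.le (by positivity),
    Real.inv_rpow h0.le, Real.inv_rpow h0.le, ← Real.rpow_neg h0.le, ← Real.rpow_neg h0.le, neg_neg,
    neg_neg]
  have e2 : (u ^ 2)⁻¹ = u ^ (-2 : ℝ) := by
    rw [Real.rpow_neg h0.le]
    norm_num
  rw [e2]
  calc u ^ (-2 : ℝ) * (u ^ p * ((1 - u) ^ (-q) * u ^ q))
      = (u ^ (-2 : ℝ) * u ^ p * u ^ q) * (1 - u) ^ (-q) := by ring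
    _ = _ := by
        rw [← Real.rpow_add h0, ← Real.rpow_add h0]
        congr 2
        ring

private theorem IvT_ofReal {p q u : ℝ} (hu : u ∈ Set.Ioo (0 : ℝ) 1) :
    (u : ℂ) ^ (((p + q - 1 : ℝ) : ℂ) - 1) * (1 - (u : ℂ)) ^ (((1 - q : ℝ) : ℂ) - 1) =
      ((u ^ (p + q - 2) * (1 - u) ^ (-q) : ℝ) : ℂ) := by
  have h1 : 0 < 1 - u := by linarith [hu.2]
  rw [Complex.ofReal_mul, Complex.ofReal_cpow hu.1.le, Complex.ofReal_cpow h1.le]
  push_cast
  congr 2
  · ring
  · ring

private theorem IvT_beta {p q : ℝ} (h : 1 < p + q) (hq1 : q < 1) :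
    MeasureTheory.IntegrableOn (fun y : ℝ => y ^ (-p) * (y - 1) ^ (-q)) (Set.Ioi 1) ∧
      Real.Gamma p * ∫ y in Set.Ioi (1 : ℝ), y ^ (-p) * (y - 1) ^ (-q) =
        Real.Gamma (p + q - 1) * Real.Gamma (1 - q) := by
  have hd : ∀ u ∈ Set.Ioo (0 : ℝ) 1,
      HasDerivWithinAt (fun u : ℝ => u⁻¹) (-(u ^ 2)⁻¹) (Set.Ioo 0 1) u :=
    fun u hu => (hasDerivAt_inv hu.1.ne').hasDerivWithinAt
  have hinj : Set.InjOn (fun u : ℝ => u⁻¹) (Set.Ioo 0 1) := fun a _ b _ hab => inv_injective hab
  have hB1 : 0 < ((p + q - 1 : ℝ) : ℂ).re := by rw [Complex.ofReal_re]; linarith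
  have hB2 : 0 < ((1 - q : ℝ) : ℂ).re := by rw [Complex.ofReal_re]; linarith
  have hc := Complex.betaIntegral_convergent hB1 hB2
  have hc2 : MeasureTheory.IntegrableOn
      (fun u : ℝ => ((u ^ (p + q - 2) * (1 - u) ^ (-q) : ℝ) : ℂ)) (Set.Ioo 0 1) := by
    rw [intervalIntegrable_iff_integrableOn_Ioo_of_le zero_le_one] at hc
    exact hc.congr_fun (fun u hu => IvT_ofReal hu) measurableSet_Ioo
  have hc3 : MeasureTheory.IntegrableOn
      (fun u : ℝ => u ^ (p + q - 2) * (1 - u) ^ (-q)) (Set.Ioo 0 1) := by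
    have h1 := MeasureTheory.Integrable.re hc2
    simp only [RCLike.re_eq_complex_re, Complex.ofReal_re] at h1
    exact h1
  constructor
  · rw [← IvT_image, MeasureTheory.integrableOn_image_iff_integrableOn_abs_deriv_smul
      measurableSet_Ioo hd hinj]
    exact hc3.congr_fun (fun u hu => (IvT_subst hu).symm) measurableSet_Ioo
  · rw [← IvT_image, MeasureTheory.integral_image_eq_integral_abs_deriv_smul
      measurableSet_Ioo hd hinj, MeasureTheory.setIntegral_congr_fun measurableSet_Ioo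
      (fun u hu => IvT_subst hu)]
    have h2 := Complex.Gamma_mul_Gamma_eq_betaIntegral hB1 hB2
    rw [Complex.betaIntegral, intervalIntegral.integral_of_le zero_le_one,
      MeasureTheory.integral_Ioc_eq_integral_Ioo,
      MeasureTheory.setIntegral_congr_fun measurableSet_Ioo (fun u hu => IvT_ofReal hu),
      integral_complex_ofReal, ← Complex.ofReal_add, Complex.Gamma_ofReal, Complex.Gamma_ofReal,
      Complex.Gamma_ofReal] at h2
    have h3 : p + q - 1 + (1 - q) = p := by ring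
    rw [h3] at h2
    exact_mod_cast h2.symm

/-- the value at `1` -/
private theorem IvT_val {p q : ℝ} (h : 1 < p + q) (hq : 0 < q) (hq1 : q < 1) :
    Iv false p q ((1 : ℝ) : ℂ) =
      -(cexp (Real.pi * I * q) * ((∫ y in Set.Ioi (1 : ℝ), y ^ (-p) * (y - 1) ^ (-q) : ℝ) : ℂ)) := by
  obtain ⟨hint, -⟩ := IvT_beta h hq1
  have hcr : ∀ y ∈ Set.Ioi (1 : ℝ), cexp (Real.pi * I * q) *
      ((y ^ (-p) * (y - 1) ^ (-q) : ℝ) : ℂ) = pw false p q (y : ℂ) :=
    fun y hy => (pw_real' p q hy).symm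
  have h1 : MeasureTheory.IntegrableOn (fun y : ℝ => pw false p q (y : ℂ)) (Set.Ioi 1) := by
    have h2 : MeasureTheory.IntegrableOn (fun y : ℝ => cexp (Real.pi * I * q) *
        ((y ^ (-p) * (y - 1) ^ (-q) : ℝ) : ℂ)) (Set.Ioi 1) :=
      (MeasureTheory.Integrable.ofReal hint).const_mul _
    exact h2.congr_fun hcr measurableSet_Ioi
  have h3 := MeasureTheory.integral_Ioi_of_hasDerivAt_of_tendsto
    (f := fun y : ℝ => Iv false p q (y : ℂ)) (f' := fun y : ℝ => pw false p q (y : ℂ)) (a := 1)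
    (m := 0) (IvT_cont false h hq hq1).continuousWithinAt
    (fun y hy => by
      have hy' : (1 : ℝ) < y := hy
      exact (IvT_der_left h (y : ℂ) (by rw [Complex.ofReal_re]; linarith)
        (by rw [Complex.ofReal_re]; linarith) false).comp_ofReal) h1
    (IvT_lim (r := fun y : ℝ => y) tendsto_abs_atTop_atTop false h)
  rw [← MeasureTheory.setIntegral_congr_fun measurableSet_Ioi hcr,
    MeasureTheory.integral_const_mul, integral_complex_ofReal, zero_sub] at h3
  rw [h3, neg_neg]

theorem Iv_mid {p q : ℝ} (h : 1 < p + q) (hq : 0 < q) (hq1 : q < 1) {x : ℂ}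
    (hx : 0 < x.re) (hx1 : x.re < 1) : Iv true p q x = Iv false p q x + per p q := by
  have key : ∀ y : ℝ, 0 < y → y < 1 → Iv true p q x - Iv false p q x =
      Iv true p q (y : ℂ) - Iv false p q (y : ℂ) := by
    intro y hy hy1
    refine IvT_const (S := {c : ℂ | 0 < c.re} ∩ {c : ℂ | c.re < 1})
      ((isOpen_lt continuous_const Complex.continuous_re).inter
        (isOpen_lt Complex.continuous_re continuous_const))
      ((convex_halfSpace_re_gt 0).inter (convex_halfSpace_re_lt 1)).isPreconnected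
      (f' := pw true p q) (f := Iv true p q) (g := Iv false p q) ?_ ?_ ⟨hx, hx1⟩ ⟨?_, ?_⟩
    · rintro z ⟨hz, hz1⟩
      have hz' : 0 < z.re := hz
      have hz1' : z.re < 1 := hz1
      exact IvT_der_left h z (by linarith) (by linarith) true
    · rintro z ⟨hz, hz1⟩
      have hz' : 0 < z.re := hz
      have hz1' : z.re < 1 := hz1
      rw [pw_mid p q hz' hz1']
      exact IvT_der_left h z (by linarith) (by linarith) false
    · show 0 < (y : ℂ).re
      rw [Complex.ofReal_re]; exact hy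
    · show (y : ℂ).re < 1
      rw [Complex.ofReal_re]; exact hy1
  obtain ⟨g, hg⟩ : ∃ g : ℝ → ℂ, g = fun y : ℝ => Iv true p q (y : ℂ) - Iv false p q (y : ℂ) := ⟨_, rfl⟩
  have hgc : ContinuousAt g 1 := by
    rw [hg]
    exact (IvT_cont true h hq hq1).sub (IvT_cont false h hq hq1)
  have hleft : g 1 = Iv true p q x - Iv false p q x := by
    have h1 : Tendsto g (𝓝[<] 1) (𝓝 (g 1)) := hgc.tendsto.mono_left nhdsWithin_le_nhds
    have h2 : ∀ᶠ y in 𝓝[<] (1 : ℝ), g y = Iv true p q x - Iv false p q x := by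
      have h3 : Set.Ioo (0 : ℝ) 1 ∈ 𝓝[<] (1 : ℝ) := Ioo_mem_nhdsLT one_pos
      filter_upwards [h3] with y hy
      rw [hg]
      exact (key y hy.1 hy.2).symm
    exact tendsto_nhds_unique h1 (tendsto_const_nhds.congr' (h2.mono fun y hy => hy.symm))
  have hright : g 1 = (ee (-q) - 1) * Iv false p q ((1 : ℝ) : ℂ) := by
    have h1 : Tendsto g (𝓝[>] 1) (𝓝 (g 1)) := hgc.tendsto.mono_left nhdsWithin_le_nhds
    have h2 : ∀ᶠ y in 𝓝[>] (1 : ℝ), g y = (ee (-q) - 1) * Iv false p q (y : ℂ) := by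
      filter_upwards [self_mem_nhdsWithin] with y hy
      have hy' : (1 : ℝ) < y := hy
      rw [hg]
      show Iv true p q (y : ℂ) - Iv false p q (y : ℂ) = _
      rw [Iv_right h (x := (y : ℂ)) (by rw [Complex.ofReal_re]; exact hy')]
      ring
    have h3 : Tendsto (fun y : ℝ => (ee (-q) - 1) * Iv false p q (y : ℂ)) (𝓝[>] 1)
        (𝓝 ((ee (-q) - 1) * Iv false p q ((1 : ℝ) : ℂ))) :=
      ((IvT_cont false h hq hq1).tendsto.mono_left nhdsWithin_le_nhds).const_mul _
    exact tendsto_nhds_unique h1 (h3.congr' (h2.mono fun y hy => hy.symm))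
  have hd : Iv true p q x - Iv false p q x = per p q := by
    rw [← hleft, hright, IvT_val h hq hq1]
    obtain ⟨-, hB⟩ := IvT_beta h hq1
    set B := ∫ y in Set.Ioi (1 : ℝ), y ^ (-p) * (y - 1) ^ (-q) with hBdef
    have hp : 0 < p := by linarith
    have hGp := (Real.Gamma_pos_of_pos hp).ne'
    have hGq := (Real.Gamma_pos_of_pos hq).ne'
    have hsin : 0 < Real.sin (Real.pi * q) :=
      Real.sin_pos_of_pos_of_lt_pi (by positivity) (by nlinarith [Real.pi_pos])
    have hrefl := Real.Gamma_mul_Gamma_one_sub q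
    have hBval : Real.sin (Real.pi * q) * B =
        Real.pi * (Real.Gamma (p + q - 1) / (Real.Gamma p * Real.Gamma q)) := by
      have h1 : B = Real.Gamma (p + q - 1) * Real.Gamma (1 - q) / Real.Gamma p := by
        rw [← hB]
        field_simp
      have h2 : Real.Gamma (1 - q) = Real.pi / Real.sin (Real.pi * q) / Real.Gamma q := by
        rw [← hrefl]
        field_simp
      rw [h1, h2]
      field_simp
    have hee : (ee (-q) - 1) * -cexp (Real.pi * I * q) = 2 * I * ((Real.sin (Real.pi * q) : ℝ) : ℂ) := by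
      have h3 : ee (-q) * cexp (Real.pi * I * q) = cexp (-(Real.pi * q * I)) := by
        unfold ee
        rw [← Complex.exp_add]
        congr 1
        push_cast
        ring
      have h4 : cexp (Real.pi * I * q) = cexp (Real.pi * q * I) := by
        congr 1
        ring
      have h5 : (ee (-q) - 1) * -cexp (Real.pi * I * q) =
          cexp (Real.pi * I * q) - ee (-q) * cexp (Real.pi * I * q) := by ring
      rw [h5, h3, h4, Complex.ofReal_sin, Complex.sin]
      push_cast
      have h6 : (-(Real.pi * q : ℂ) * I) = -(Real.pi * q * I) := by ring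
      rw [h6]
      have hI : I * I = -1 := Complex.I_mul_I
      linear_combination (-(cexp (-(Real.pi * q * I)) - cexp (Real.pi * q * I))) * hI
    calc (ee (-q) - 1) * -(cexp (Real.pi * I * q) * ((B : ℝ) : ℂ))
        = ((ee (-q) - 1) * -cexp (Real.pi * I * q)) * (B : ℂ) := by ring
      _ = 2 * I * ((Real.sin (Real.pi * q) * B : ℝ) : ℂ) := by rw [hee]; push_cast; ring
      _ = per p q := by
          rw [hBval, per]
          push_cast
          ring
  rw [← hd]
  ring

end

end Pool.Agent.RHT
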