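import Pool.Agent.RHT.Defs2
import Pool.Agent.RHT.IvT

/-!
RHT-Glue. The Abel map and the second kind integrals in different charts: on the left and on the
right the sheets are renumbered, in the middle strip the values differ by a period, and the
Legendre relation compares the two kinds.
-/

set_option autoImplicit false

namespace Pool.Agent.RHT.Par

open Complex ComplexConjugate Finset

noncomputable section

variable {P : Par}

private theorem Glue_D0 (P : Par) : (0 : ℝ) < P.D := by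
  have := P.hD
  exact_mod_cast (by omega : 0 < P.D)

private theorem Glue_sum (t : P.Ix) : 1 < P.al t + P.be t := by
  rw [P.al_add_be_Phi t.2]
  have h1 : (0 : ℝ) < ((t : ℕ) : ℝ) := by exact_mod_cast (P.Phi_pos t.2).1
  have h2 := div_pos h1 (Glue_D0 P)
  linarith

private theorem Glue_sum' (t : P.Ix) : 1 < 2 - P.al t + (1 - P.be t) := by
  have h0 := P.al_add_be_Phi t.2
  have h1 : ((t : ℕ) : ℝ) < P.D := by exact_mod_cast (P.Phi_pos t.2).2
  have h2 : ((t : ℕ) : ℝ) / P.D < 1 := (div_lt_one (Glue_D0 P)).2 h1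
  linarith

private theorem Glue_ze (i j : ℤ) : P.ze ^ (i + P.D * j) = P.ze ^ i := by
  rw [zpow_add₀ P.ze_ne, zpow_mul, zpow_natCast, P.ze_prim.pow_eq_one, one_zpow, mul_one]

theorem ks_spec {z : ℂ × ℂ} (hz : z ∈ P.Cs) :
    z.1 ∈ Om (cs z) ∧ z.1 ∈ Hc (cs z) ∧ P.pt (cs z) (P.ks z) z.1 = z := by
  have hH : z.1 ∈ Hc (cs z) := by
    unfold cs
    split_ifs with h
    · show sg false * z.1.im ≤ 0
      simp only [sg, Bool.false_eq_true, if_false]
      linarith
    · show sg true * z.1.im ≤ 0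
      simp only [sg, if_true]
      linarith
  have hO := Om_of_Hc hH hz.1 hz.2.1
  refine ⟨hO, hH, ?_⟩
  obtain ⟨k, -, hk⟩ := P.pt_surj hz hO
  have h1 : P.ks z ∈ {k : ℕ | z = P.pt (cs z) k z.1} := Nat.sInf_mem ⟨k, hk⟩
  exact h1.symm

theorem Cv_deriv {c : Bool} (k : ℤ) {x : ℂ} (hx : x ∈ Om c) :
    HasDerivAt (P.Cv c k) (fun t : P.Ix => P.F t (P.pt c k x)) x := by
  rw [hasDerivAt_pi]
  intro t
  rw [P.F_pt t k hx]
  exact (Iv_hasDerivAt (Glue_sum t) hx).const_mul _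

theorem Jv_deriv {c : Bool} (k : ℤ) {x : ℂ} (hx : x ∈ Om c) (t : P.Ix) :
    HasDerivAt (fun x => P.Jv c k x t)
      (P.ze ^ (k * ((t : ℕ) : ℤ)) * pw c (2 - P.al t) (1 - P.be t) x) x :=
  (Iv_hasDerivAt (Glue_sum' t) hx).const_mul _

/-- sheets are periodic mod `D` -/
theorem Cv_add_D (c : Bool) (k m : ℤ) (x : ℂ) : P.Cv c (k + m * P.D) x = P.Cv c k x := by
  funext t
  unfold Cv
  have h1 : -((k + m * P.D) * ((t : ℕ) : ℤ)) = -(k * ((t : ℕ) : ℤ)) + P.D * (-(m * ((t : ℕ) : ℤ))) := by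
    ring
  rw [h1, Glue_ze]

theorem Jv_add_D (c : Bool) (k m : ℤ) (x : ℂ) (t : ℕ) :
    P.Jv c (k + m * P.D) x t = P.Jv c k x t := by
  unfold Jv
  have h1 : (k + m * P.D) * (t : ℤ) = k * (t : ℤ) + P.D * (m * (t : ℤ)) := by
    ring
  rw [h1, Glue_ze]

private theorem Glue_same {c : Bool} {k l : ℤ} {x : ℂ} (h : P.pt c k x = P.pt c l x) :
    P.Cv c k x = P.Cv c l x ∧ ∀ t : ℕ, P.Jv c k x t = P.Jv c l x t := by
  obtain ⟨m, hm⟩ := P.pt_eq_iff.1 h
  have hk : k = l + m * P.D := by linear_combination hm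
  rw [hk]
  exact ⟨Cv_add_D c l m x, fun t => Jv_add_D c l m x t⟩

private theorem Glue_ee_al (t : ℕ) : ee (2 - P.al t) = P.ze ^ (-((P.a : ℤ) * t)) := by
  rw [zpow_neg, ← P.ee_al]
  unfold ee
  rw [← Complex.exp_neg]
  have h1 : 2 * Real.pi * I * ((2 - P.al t : ℝ) : ℂ) =
      (2 : ℤ) * (2 * Real.pi * I) + -(2 * Real.pi * I * (P.al t : ℂ)) := by
    push_cast; ring
  rw [h1, Complex.exp_add, Complex.exp_int_mul_two_pi_mul_I, one_mul]

private theorem Glue_ee_be (t : ℕ) : ee (-(1 - P.be t)) = P.ze ^ ((P.b : ℤ) * t) := by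
  rw [← P.ee_be]
  unfold ee
  have h1 : 2 * Real.pi * I * ((-(1 - P.be t) : ℝ) : ℂ) =
      (-1 : ℤ) * (2 * Real.pi * I) + 2 * Real.pi * I * (P.be t : ℂ) := by
    push_cast; ring
  rw [h1, Complex.exp_add, Complex.exp_int_mul_two_pi_mul_I, one_mul]

private theorem Glue_ee_be' (t : ℕ) : ee (-(P.be t)) = P.ze ^ (-((P.b : ℤ) * t)) := by
  rw [zpow_neg, ← P.ee_be]
  unfold ee
  rw [← Complex.exp_neg]
  congr 1
  push_cast
  ring

/-- the two sheets agree, with the vector `l` -/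
private def Glue_R (P : Par) (c : Bool) (k : ℤ) (c' : Bool) (k' : ℤ) (l : P.Ix → ℂ) (x : ℂ) :
    Prop :=
  P.pt c k x = P.pt c' k' x ∧ P.Cv c k x = P.Cv c' k' x + l ∧ ∀ t : P.Ix,
    (P.ka t : ℂ) * P.Jv c k x t = P.ka t * P.Jv c' k' x t + Real.pi * P.cf t * conj (l t)

private theorem Glue_tL (k : ℤ) {x : ℂ} (hneg : x.re < 0) :
    Glue_R P true k false (k - P.a) 0 x := by
  refine ⟨P.pt_left k hneg, ?_, ?_⟩
  · rw [add_zero]
    funext t
    unfold Cv
    rw [Iv_left (Glue_sum t) hneg, P.ee_al, ← mul_assoc, ← zpow_add₀ P.ze_ne]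
    congr 2
    ring
  · intro t
    rw [Pi.zero_apply, map_zero, mul_zero, add_zero]
    unfold Jv
    rw [Iv_left (Glue_sum' t) hneg, Glue_ee_al, ← mul_assoc (P.ze ^ _), ← zpow_add₀ P.ze_ne]
    congr 3
    ring

private theorem Glue_tM (k : ℤ) {x : ℂ} (hpos : 0 < x.re) (hlt : x.re < 1) :
    Glue_R P true k false k (P.mu k) x := by
  refine ⟨P.pt_mid k hpos hlt, ?_, ?_⟩
  · funext t
    rw [Pi.add_apply]
    unfold Cv mu Pe
    rw [Iv_mid (Glue_sum t) (P.be_pos t.2) (P.be_lt_one t) hpos hlt]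
    ring
  · intro t
    have hl := P.legendre t.2
    have hc : conj (P.mu k t) = P.ze ^ (k * ((t : ℕ) : ℤ)) * conj (P.Pe t) := by
      unfold mu
      rw [map_mul, map_zpow₀, P.ze_conj, inv_zpow', neg_neg]
    have hb1 := P.be_pos t.2
    have hb2 := P.be_lt_one t
    have hmid := Iv_mid (Glue_sum' t) (by linarith) (by linarith) hpos hlt
    rw [hc]
    unfold Jv
    rw [hmid]
    unfold Pih at hl
    linear_combination -(P.ze ^ (k * ((t : ℕ) : ℤ))) * hl

private theorem Glue_tR (k : ℤ) {x : ℂ} (hgt : 1 < x.re) :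
    Glue_R P true k false (k + P.b) 0 x := by
  refine ⟨P.pt_right k hgt, ?_, ?_⟩
  · rw [add_zero]
    funext t
    unfold Cv
    rw [Iv_right (Glue_sum t) hgt, Glue_ee_be', ← mul_assoc, ← zpow_add₀ P.ze_ne]
    congr 2
    ring
  · intro t
    rw [Pi.zero_apply, map_zero, mul_zero, add_zero]
    unfold Jv
    rw [Iv_right (Glue_sum' t) hgt, Glue_ee_be, ← mul_assoc (P.ze ^ _), ← zpow_add₀ P.ze_ne]
    congr 3
    ring

/-- the values in the upper chart in terms of the values in the lower chart -/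
private theorem Glue_trans (k : ℤ) {x : ℂ} (h0 : x.re ≠ 0) (h1 : x.re ≠ 1) :
    ∃ k0 : ℤ, ∃ l ∈ P.Lam, ∀ᶠ x' in nhds x, Glue_R P true k false k0 l x' := by
  have hc : Continuous fun y : ℂ => y.re := Complex.continuous_re
  rcases lt_or_gt_of_ne h0 with hneg | hpos
  · refine ⟨k - P.a, 0, P.Lam.zero_mem, ?_⟩
    filter_upwards [(isOpen_lt hc continuous_const).mem_nhds hneg] with x' h
    exact Glue_tL k h
  · rcases lt_or_gt_of_ne h1 with hlt | hgt
    · refine ⟨k, P.mu k, AddSubgroup.subset_closure ⟨k, rfl⟩, ?_⟩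
      filter_upwards [(isOpen_lt hc continuous_const).mem_nhds hlt,
        (isOpen_lt continuous_const hc).mem_nhds hpos] with x' h h'
      exact Glue_tM k h' h
    · refine ⟨k + P.b, 0, P.Lam.zero_mem, ?_⟩
      filter_upwards [(isOpen_lt continuous_const hc).mem_nhds hgt] with x' h
      exact Glue_tR k h

private theorem Glue_near_re {x : ℂ} (h0 : x.re ≠ 0) (h1 : x.re ≠ 1) :
    ∀ᶠ x' in nhds x, ∀ c : Bool, x' ∈ Om c := by
  filter_upwards [Complex.continuous_re.continuousAt.eventually_ne h0,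
    Complex.continuous_re.continuousAt.eventually_ne h1] with x' h h' c
  exact Om_of_strip h h' c

private theorem Glue_re {x : ℂ} (ht : x ∈ Om true) (hf : x ∈ Om false) : x.re ≠ 0 ∧ x.re ≠ 1 := by
  have e1 : sg true = 1 := by simp [sg]
  have e2 : sg false = -1 := by simp [sg]
  obtain ⟨a1, a2⟩ := ht
  obtain ⟨b1, b2⟩ := hf
  rw [e1] at a1 a2
  rw [e2] at b1 b2
  constructor
  · intro h
    rcases le_total 0 x.im with h2 | h2
    · exact a1 ⟨h, by linarith⟩
    · exact b1 ⟨h, by linarith⟩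
  · intro h
    rcases le_total 0 x.im with h2 | h2
    · exact a2 ⟨h, by linarith⟩
    · exact b2 ⟨h, by linarith⟩

/-- two charts at the same point: locally the values differ by a fixed lattice vector -/
private theorem Glue_two {c c' : Bool} {k k' : ℤ} {x : ℂ} (hx : x ∈ Om c) (hx' : x ∈ Om c')
    (hpt : P.pt c' k' x = P.pt c k x) :
    ∃ l ∈ P.Lam, ∀ᶠ x' in nhds x, x' ∈ Om c ∧ x' ∈ Om c' ∧ Glue_R P c' k' c k l x' := by
  by_cases hcc : c' = c
  · subst hcc
    obtain ⟨m, hm⟩ := P.pt_eq_iff.1 hpt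
    have hk : k' = k + m * P.D := by linear_combination hm
    refine ⟨0, P.Lam.zero_mem, ?_⟩
    filter_upwards [(Om_isOpen c').mem_nhds hx] with x' h
    have hp : P.pt c' k' x' = P.pt c' k x' := P.pt_eq_iff.2 ⟨m, hm⟩
    obtain ⟨e1, e2⟩ := Glue_same hp
    refine ⟨h, h, hp, by rw [e1, add_zero], fun t => ?_⟩
    rw [e2, Pi.zero_apply, map_zero, mul_zero, add_zero]
  · cases c' with
    | false =>
      cases c with
      | false => exact absurd rfl hcc
      | true =>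
        obtain ⟨h0, h1⟩ := Glue_re hx hx'
        obtain ⟨k0, l, hl, g⟩ := Glue_trans (P := P) k h0 h1
        have gx := g.self_of_nhds
        obtain ⟨m, hm⟩ := P.pt_eq_iff.1 (hpt.trans gx.1)
        refine ⟨-l, P.Lam.neg_mem hl, ?_⟩
        filter_upwards [g, Glue_near_re h0 h1] with x' g h
        have hp : P.pt false k' x' = P.pt false k0 x' := P.pt_eq_iff.2 ⟨m, hm⟩
        obtain ⟨e1, e2⟩ := Glue_same hp
        obtain ⟨g1, g2, g3⟩ := g
        refine ⟨h _, h _, hp.trans g1.symm, ?_, fun t => ?_⟩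
        · rw [e1, g2, add_neg_cancel_right]
        · rw [e2, Pi.neg_apply, map_neg]
          linear_combination -(g3 t)
    | true =>
      cases c with
      | true => exact absurd rfl hcc
      | false =>
        obtain ⟨h0, h1⟩ := Glue_re hx' hx
        obtain ⟨k0, l, hl, g⟩ := Glue_trans (P := P) k' h0 h1
        have gx := g.self_of_nhds
        obtain ⟨m, hm⟩ := P.pt_eq_iff.1 (gx.1.symm.trans hpt)
        refine ⟨l, hl, ?_⟩
        filter_upwards [g, Glue_near_re h0 h1] with x' g h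
        have hp : P.pt false k0 x' = P.pt false k x' := P.pt_eq_iff.2 ⟨m, hm⟩
        obtain ⟨e1, e2⟩ := Glue_same hp
        obtain ⟨g1, g2, g3⟩ := g
        refine ⟨h _, h _, g1.trans hp, ?_, fun t => ?_⟩
        · rw [g2, e1]
        · rw [g3, e2]

theorem glue {c : Bool} (k : ℤ) {x : ℂ} (hx : x ∈ Om c) :
    ∃ l ∈ P.Lam, P.Cz (P.pt c k x) = P.Cv c k x + l ∧ ∀ t : P.Ix,
      (P.ka t : ℂ) * P.Jv (cs (P.pt c k x)) (P.ks (P.pt c k x)) x t =
        P.ka t * P.Jv c k x t + Real.pi * P.cf t * conj (l t) := by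
  obtain ⟨hO, -, hpt⟩ := ks_spec (P.pt_mem k hx)
  obtain ⟨l, hl, h⟩ := Glue_two hx hO hpt
  obtain ⟨-, -, -, h2, h3⟩ := h.self_of_nhds
  exact ⟨l, hl, h2, h3⟩

/-- locally the lattice vector of `glue` is constant -/
theorem glue_near {c : Bool} (k : ℤ) {x : ℂ} (hx : x ∈ Om c) {z : ℂ × ℂ} (hz : z = P.pt c k x) :
    ∃ l ∈ P.Lam, ∀ᶠ x' in nhds x, x' ∈ Om c ∧ x' ∈ Om (cs z) ∧
      P.pt (cs z) (P.ks z) x' = P.pt c k x' ∧ P.Cv (cs z) (P.ks z) x' = P.Cv c k x' + l ∧
      ∀ t : P.Ix, (P.ka t : ℂ) * P.Jv (cs z) (P.ks z) x' t =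
        P.ka t * P.Jv c k x' t + Real.pi * P.cf t * conj (l t) := by
  subst hz
  obtain ⟨hO, -, hpt⟩ := ks_spec (P.pt_mem k hx)
  exact Glue_two hx hO hpt

end

end Pool.Agent.RHT.Par
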