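import Pool.Agent.RHT.Liou
import Pool.Agent.RHT.Glue

/-!
RHT-TrRes. Residue theorem on the curve. Plan: `r x = ∑_{y ∈ fib x} g (x,y)` is differentiable off
`{0,1} ∪ S`, `S = Z.image Prod.fst` (`tr_diff`); near `x0 ∈ S` use the chart `c = cs (x0, _)`
(`= if 0 ≤ x0.im ...`) and `sum_fib`: `(x - x0) r x → ∑_{z ∈ Z, z.1 = x0} ρ z` (the points over `x0`
are `pt c k x0`, `k < D`, pairwise different, and `ks z ≡ k mod D` for `z = pt c k x0`, so that
`pt c (ks z) x = pt c k x`); at `0`, `1`, `∞` the two half planes `Hc` cover a neighbourhood.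
Then `residue_sum` for `insert 0 (insert 1 S)`.
-/

set_option autoImplicit false

namespace Pool.Agent.RHT.Par

open Complex ComplexConjugate Finset Filter Topology

noncomputable section

variable {P : Par}

private theorem TrRes_Hc_union (x : ℂ) : x ∈ Hc false ∨ x ∈ Hc true := by
  rcases le_total x.im 0 with h | h
  · right
    show sg true * x.im ≤ 0
    simp only [sg, if_true]
    linarith
  · left
    show sg false * x.im ≤ 0
    simp only [sg]
    norm_num
    exact h

private theorem TrRes_cs_Hc (z : ℂ × ℂ) : z.1 ∈ Hc (cs z) := by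
  unfold cs
  split_ifs with h
  · show sg false * z.1.im ≤ 0
    simp only [sg]
    norm_num
    exact h
  · show sg true * z.1.im ≤ 0
    simp only [sg, if_true]
    linarith [not_le.1 h]

/-- a limit on both closed half planes is a limit -/
private theorem TrRes_two {f : ℂ → ℂ} {l : Filter ℂ} {y : Filter ℂ}
    (h : ∀ c, Tendsto f (l ⊓ 𝓟 (Hc c)) y) : Tendsto f l y := by
  have h1 : l ≤ (l ⊓ 𝓟 (Hc false)) ⊔ (l ⊓ 𝓟 (Hc true)) := by
    rw [← inf_sup_left, sup_principal]
    refine le_inf le_rfl ?_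
    rw [le_principal_iff]
    filter_upwards with x
    exact TrRes_Hc_union x
  exact (tendsto_sup.2 ⟨h false, h true⟩).mono_left h1

private theorem TrRes_end (g : ℂ × ℂ → ℂ) (a y : ℂ) (ha : a = 0 ∨ a = 1)
    (h : ∀ c, Tendsto (fun x => (x - a) * ∑ k ∈ range P.D, g (P.pt c k x)) (𝓝[Hc c \ {a}] a) (𝓝 y)) :
    Tendsto (fun x => (x - a) * ∑ y ∈ P.fib x, g (x, y)) (𝓝[≠] a) (𝓝 y) := by
  refine TrRes_two fun c => ?_
  have e : 𝓝[≠] a ⊓ 𝓟 (Hc c) = 𝓝[Hc c \ {a}] a := by
    rw [nhdsWithin, nhdsWithin, inf_assoc, inf_principal]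
    congr 2
    ext x
    constructor
    · rintro ⟨h1, h2⟩
      exact ⟨h2, h1⟩
    · rintro ⟨h1, h2⟩
      exact ⟨h2, h1⟩
  rw [e]
  refine (h c).congr' ?_
  have h2 : ∀ᶠ x in 𝓝[Hc c \ {a}] a, x ∈ Om c := by
    have h3 : ∀ b : ℂ, b ≠ a → ∀ᶠ x in 𝓝[Hc c \ {a}] a, x ≠ b := fun b hb =>
      (isOpen_ne.mem_nhds hb.symm : {x : ℂ | x ≠ b} ∈ 𝓝 a) |> fun h => nhdsWithin_le_nhds h
    have h4 : ∀ᶠ x in 𝓝[Hc c \ {a}] a, x ≠ 0 ∧ x ≠ 1 := by
      rcases ha with rfl | rfl
      · filter_upwards [self_mem_nhdsWithin, h3 1 one_ne_zero] with x hx hx1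
        exact ⟨hx.2, hx1⟩
      · filter_upwards [self_mem_nhdsWithin, h3 0 zero_ne_one] with x hx hx1
        exact ⟨hx1, hx.2⟩
    filter_upwards [self_mem_nhdsWithin, h4] with x hx h5
    exact Om_of_Hc hx.1 h5.1 h5.2
  filter_upwards [h2] with x hx
  rw [P.sum_fib g hx]

private theorem TrRes_sheet {c : Bool} {k l : ℤ} {x : ℂ} (h : P.pt c k x = P.pt c l x) (y : ℂ) :
    P.pt c k y = P.pt c l y :=
  P.pt_eq_iff.2 (P.pt_eq_iff.1 h)

theorem trace_residue (g : ℂ × ℂ → ℂ) (Z : Finset (ℂ × ℂ)) (hZ : ∀ z ∈ Z, z ∈ P.Cs)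
    (hol : P.HolC g (Prod.fst '' (Z : Set (ℂ × ℂ)))) (ρ : ℂ × ℂ → ℂ)
    (hρ : ∀ z ∈ P.Cs, z.1 ∈ Prod.fst '' (Z : Set (ℂ × ℂ)) →
      Tendsto (fun x => (x - z.1) * g (P.pt (cs z) (P.ks z) x)) (𝓝[≠] z.1) (𝓝 (ρ z)))
    (hρ0 : ∀ z, z ∉ Z → ρ z = 0) (c0 : ℂ)
    (h0 : ∀ c, Tendsto (fun x => x * ∑ k ∈ range P.D, g (P.pt c k x)) (𝓝[Hc c \ {0}] 0) (𝓝 c0))
    (h1 : ∀ c, Tendsto (fun x => (x - 1) * ∑ k ∈ range P.D, g (P.pt c k x))
      (𝓝[Hc c \ {1}] 1) (𝓝 0))
    (hinf : ∀ c, Tendsto (fun x => x * ∑ k ∈ range P.D, g (P.pt c k x))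
      (Bornology.cobounded ℂ ⊓ 𝓟 (Hc c)) (𝓝 0)) :
    c0 + ∑ z ∈ Z, ρ z = 0 := by
  classical
  set S0 : Finset ℂ := Z.image Prod.fst with hS0
  have hS0c : (S0 : Set ℂ) = Prod.fst '' (Z : Set (ℂ × ℂ)) := Finset.coe_image
  have hn0 : (0 : ℂ) ∉ S0 := by
    intro h
    obtain ⟨z, hz, e⟩ := Finset.mem_image.1 h
    exact (hZ z hz).1 e
  have hn1 : (1 : ℂ) ∉ S0 := by
    intro h
    obtain ⟨z, hz, e⟩ := Finset.mem_image.1 h
    exact (hZ z hz).2.1 e
  set r : ℂ → ℂ := fun x => ∑ y ∈ P.fib x, g (x, y) with hrdef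
  set S : Finset ℂ := insert 0 (insert 1 S0) with hS
  have hr : DifferentiableOn ℂ r (S : Set ℂ)ᶜ := by
    have h := P.tr_diff g (Prod.fst '' (Z : Set (ℂ × ℂ))) hol
    refine h.mono ?_
    intro x hx hx2
    apply hx
    rw [hS]
    push_cast
    rcases hx2 with (h2 | h2) | h2
    · exact Set.mem_insert_iff.2 (Or.inl h2)
    · exact Set.mem_insert_iff.2 (Or.inr (Set.mem_insert_iff.2 (Or.inl h2)))
    · refine Set.mem_insert_iff.2 (Or.inr (Set.mem_insert_iff.2 (Or.inr ?_)))
      rw [hS0c]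
      exact h2
  set ρ' : ℂ → ℂ := fun x => if x = 0 then c0 else if x = 1 then 0 else
    ∑ z ∈ Z.filter (fun z => z.1 = x), ρ z with hρ'
  have hinf' : Tendsto (fun z => z * r z) (Bornology.cobounded ℂ) (𝓝 0) := by
    refine TrRes_two fun c => ?_
    refine (hinf c).congr' ?_
    have h3 : ∀ b : ℂ, ∀ᶠ x in Bornology.cobounded ℂ, x ≠ b := fun b => by
      have hb : Bornology.IsBounded ({b} : Set ℂ) := (Set.finite_singleton b).isBounded
      have h2 : ({b} : Set ℂ)ᶜ ∈ Bornology.cobounded ℂ := hb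
      filter_upwards [h2] with x hx
      exact hx
    have h4 : ∀ᶠ x in Bornology.cobounded ℂ ⊓ 𝓟 (Hc c), x ∈ Om c := by
      have h5 : ∀ᶠ x in Bornology.cobounded ℂ ⊓ 𝓟 (Hc c), x ≠ 0 ∧ x ≠ 1 :=
        ((h3 0).and (h3 1)).filter_mono inf_le_left
      have h6 : ∀ᶠ x in Bornology.cobounded ℂ ⊓ 𝓟 (Hc c), x ∈ Hc c :=
        mem_inf_of_right (mem_principal_self _)
      filter_upwards [h5, h6] with x hx hx2
      exact Om_of_Hc hx2 hx.1 hx.2
    filter_upwards [h4] with x hx
    rw [hrdef]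
    simp only
    rw [P.sum_fib g hx]
  have hlim : ∀ x ∈ S, Tendsto (fun z => (z - x) * r z) (𝓝[≠] x) (𝓝 (ρ' x)) := by
    intro x hx
    rw [hS, Finset.mem_insert, Finset.mem_insert] at hx
    rcases hx with rfl | rfl | hx
    · have h := TrRes_end (P := P) g 0 c0 (Or.inl rfl) (fun c => by
        simpa only [sub_zero] using h0 c)
      have e : ρ' 0 = c0 := by simp [hρ']
      rw [e]
      exact h
    · have h := TrRes_end (P := P) g 1 0 (Or.inr rfl) h1
      have e : ρ' 1 = 0 := by simp [hρ']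
      rw [e]
      exact h
    · have hx0 : x ≠ 0 := fun h => hn0 (h ▸ hx)
      have hx1 : x ≠ 1 := fun h => hn1 (h ▸ hx)
      have hxZ : x ∈ Prod.fst '' (Z : Set (ℂ × ℂ)) := by
        rw [← hS0c]
        exact hx
      set c : Bool := cs (x, 0) with hc
      have hxH : x ∈ Hc c := TrRes_cs_Hc (x, 0)
      have hxO : x ∈ Om c := Om_of_Hc hxH hx0 hx1
      have hcs : ∀ k : ℤ, cs (P.pt c k x) = c := fun k => rfl
      have hk : ∀ k ∈ range P.D, Tendsto (fun y => (y - x) * g (P.pt c k y)) (𝓝[≠] x)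
          (𝓝 (ρ (P.pt c k x))) := by
        intro k _
        have hm : P.pt c k x ∈ P.Cs := P.pt_mem k hxO
        have h2 := hρ (P.pt c k x) hm hxZ
        have h3 := (ks_spec hm).2.2
        have h4 : ∀ y, P.pt c (P.ks (P.pt c k x)) y = P.pt c k y := fun y =>
          TrRes_sheet h3 y
        refine h2.congr fun y => ?_
        rw [hcs, h4]
        rfl
      have h5 := tendsto_finsetSum (range P.D) hk
      have e : ρ' x = ∑ k ∈ range P.D, ρ (P.pt c k x) := by
        have e1 : ρ' x = ∑ z ∈ Z.filter (fun z => z.1 = x), ρ z := by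
          rw [hρ']
          simp only
          rw [if_neg hx0, if_neg hx1]
        rw [e1]
        have hinj : Set.InjOn (fun k : ℕ => P.pt c k x) (range P.D : Finset ℕ) := by
          intro k hk l hl e
          have h6 : (P.D : ℤ) ∣ (k : ℤ) - l := P.pt_eq_iff.1 e
          have hk' : k < P.D := by simpa using hk
          have hl' : l < P.D := by simpa using hl
          obtain ⟨m, hm⟩ := h6
          have hD : (0 : ℤ) < P.D := by
            have := P.hD
            exact_mod_cast (by omega : 0 < P.D)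
          have h7 : m = 0 := by
            by_contra hne
            rcases lt_or_gt_of_ne hne with h8 | h8
            · have : (P.D : ℤ) * m ≤ P.D * (-1) := by
                apply mul_le_mul_of_nonneg_left _ hD.le
                omega
              omega
            · have : (P.D : ℤ) * 1 ≤ P.D * m := by
                apply mul_le_mul_of_nonneg_left _ hD.le
                omega
              omega
          rw [h7, mul_zero] at hm
          omega
        rw [← Finset.sum_image (f := ρ) (s := range P.D) (g := fun k : ℕ => P.pt c k x) hinj]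
        refine Finset.sum_subset ?_ ?_
        · intro z hz
          rw [Finset.mem_filter] at hz
          obtain ⟨hz1, hz2⟩ := hz
          have hzO : z.1 ∈ Om c := by
            rw [hz2]
            exact hxO
          obtain ⟨k, hk, e⟩ := P.pt_surj (hZ z hz1) hzO
          rw [Finset.mem_image]
          refine ⟨k, Finset.mem_range.2 hk, ?_⟩
          rw [hz2] at e
          exact e.symm
        · intro z hz hz2
          apply hρ0
          intro hz3
          apply hz2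
          rw [Finset.mem_filter]
          refine ⟨hz3, ?_⟩
          obtain ⟨k, _, e⟩ := Finset.mem_image.1 hz
          rw [← e]
          rfl
      rw [e]
      refine h5.congr' ?_
      have h6 : ∀ᶠ y in 𝓝[≠] x, y ∈ Om c := nhdsWithin_le_nhds ((Om_isOpen c).mem_nhds hxO)
      filter_upwards [h6] with y hy
      rw [hrdef]
      simp only
      rw [P.sum_fib g hy, Finset.mul_sum]
  have hsum := residue_sum r S hr ρ' hlim hinf'
  rw [hS, Finset.sum_insert (by
    rw [Finset.mem_insert, not_or]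
    exact ⟨zero_ne_one, hn0⟩), Finset.sum_insert hn1] at hsum
  have e0 : ρ' 0 = c0 := by simp [hρ']
  have e1 : ρ' 1 = 0 := by simp [hρ']
  have e2 : ∑ x ∈ S0, ρ' x = ∑ z ∈ Z, ρ z := by
    rw [← Finset.sum_fiberwise_of_maps_to (s := Z) (t := S0) (g := Prod.fst) (f := ρ)
      (fun z hz => Finset.mem_image_of_mem _ hz)]
    refine Finset.sum_congr rfl fun x hx => ?_
    have hx0 : x ≠ 0 := fun h => hn0 (h ▸ hx)
    have hx1 : x ≠ 1 := fun h => hn1 (h ▸ hx)
    rw [hρ']
    simp only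
    rw [if_neg hx0, if_neg hx1]
  rw [e0, e1, e2, zero_add] at hsum
  exact hsum

end

end Pool.Agent.RHT.Par
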