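import Pool.Agent.RHT.Ends
import Pool.Agent.RHT.TrRes

/-!
RHT-Cnt. The number of zeros and the residues. Plan.
`count`: `trace_residue` for `g z = ∑_t F t z * ell u t z`, `Z = (Z_finite h).toFinset`,
`ρ z = mult u z`: along a sheet `g = T'/T - ∑_t κ_t F_t J_t` (`logder`, `ell_pt`), so
`(x - z.1) g → analyticOrderNatAt` (write `T = (x - x0)^n h`, `T_order`), also for non-zeros over
the same `x` (order `0`); `c0 = ∑_t (-1) = -card Ix` by `ends0`.
`residues`: `trace_residue` for `g z = F s z * ell u t z`.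
`HolC`: off the values `x` of zeros `ell_pt` holds on all sheets (`Z_pt`).
-/

set_option autoImplicit false

namespace Pool.Agent.RHT.Par

open Complex ComplexConjugate Finset Filter Topology

noncomputable section

variable {P : Par} (θ : P.Th)

private theorem cnt_pow (m : ℕ) (y : ℂ) : y * ((m : ℂ) * y ^ (m - 1)) = m * y ^ m := by
  rcases m with _ | m
  · simp
  · rw [Nat.add_sub_cancel, pow_succ]
    ring

private theorem cnt_logder {f : ℂ → ℂ} {x : ℂ} (hf : AnalyticAt ℂ f x)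
    (h : analyticOrderAt f x ≠ ⊤) :
    Tendsto (fun w => (w - x) * (deriv f w / f w)) (𝓝[≠] x) (𝓝 (analyticOrderNatAt f x : ℂ)) ∧
      ∀ᶠ w in 𝓝[≠] x, f w ≠ 0 := by
  obtain ⟨g, hg, hg0, he⟩ := hf.analyticOrderAt_ne_top.1 h
  generalize analyticOrderNatAt f x = n at he ⊢
  have h1 : ∀ᶠ w in 𝓝 x, AnalyticAt ℂ g w := hg.eventually_analyticAt
  have h2 : ∀ᶠ w in 𝓝 x, g w ≠ 0 := hg.continuousAt.eventually_ne hg0
  have h3 : ∀ᶠ w in 𝓝 x, f =ᶠ[𝓝 w] fun z => (z - x) ^ n • g z := he.eventuallyEq_nhds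
  have h4 : Tendsto (fun w => (n : ℂ) + (w - x) * (deriv g w / g w)) (𝓝[≠] x) (𝓝 n) := by
    have h5 : ContinuousAt (fun w => (n : ℂ) + (w - x) * (deriv g w / g w)) x :=
      continuousAt_const.add ((continuousAt_id.sub continuousAt_const).mul
        (hg.deriv.continuousAt.div hg.continuousAt hg0))
    have h6 := h5.tendsto
    simp only [sub_self, zero_mul, add_zero] at h6
    exact h6.mono_left nhdsWithin_le_nhds
  constructor
  · refine h4.congr' ?_
    filter_upwards [mem_nhdsWithin_of_mem_nhds h1, mem_nhdsWithin_of_mem_nhds h2,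
      mem_nhdsWithin_of_mem_nhds h3, self_mem_nhdsWithin] with w hw1 hw2 hw3 hw4
    have hwx : w - x ≠ 0 := sub_ne_zero.2 hw4
    have h7 : deriv f w = ((n : ℂ) * (w - x) ^ (n - 1)) * g w + (w - x) ^ n * deriv g w := by
      rw [hw3.deriv_eq]
      have h8 : HasDerivAt (fun z => (z - x) ^ n • g z)
          (((n : ℂ) * (w - x) ^ (n - 1)) * g w + (w - x) ^ n * deriv g w) w := by
        have h9 := (((hasDerivAt_id w).sub_const x).fun_pow n).fun_mul
          hw1.differentiableAt.hasDerivAt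
        simpa using h9
      exact h8.deriv
    have h8 : f w = (w - x) ^ n * g w := hw3.eq_of_nhds
    have h9 := cnt_pow n (w - x)
    have h10 : deriv g w / g w * g w = deriv g w := div_mul_cancel₀ _ hw2
    rw [h7, h8, eq_comm, mul_div_assoc', div_eq_iff (mul_ne_zero (pow_ne_zero _ hwx) hw2)]
    linear_combination g w * h9 - (w - x) * (w - x) ^ n * h10
  · filter_upwards [mem_nhdsWithin_of_mem_nhds h2, mem_nhdsWithin_of_mem_nhds h3,
      self_mem_nhdsWithin] with w hw2 hw3 hw4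
    have h8 : f w = (w - x) ^ n * g w := hw3.eq_of_nhds
    rw [h8]
    exact mul_ne_zero (pow_ne_zero _ (sub_ne_zero.2 hw4)) hw2

private theorem cnt_diff {u : P.V} {c : Bool} (k : ℤ) {x : ℂ} (hx : x ∈ Om c)
    (h : θ.T (P.Cv c k x + u) ≠ 0) (t : P.Ix) :
    DifferentiableAt ℂ (fun x => θ.ell u t (P.pt c k x)) x := by
  have hC : DifferentiableAt ℂ (fun x => P.Cv c k x + u) x :=
    (Cv_deriv k hx).differentiableAt.add_const u
  have h1 : ∀ᶠ w in 𝓝 x, θ.T (P.Cv c k w + u) ≠ 0 :=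
    (ContinuousAt.comp (f := fun x => P.Cv c k x + u) (g := θ.T)
      (θ.dT _).continuousAt hC.continuousAt).eventually_ne h
  have h2 : ∀ᶠ w in 𝓝 x, w ∈ Om c := (Om_isOpen c).mem_nhds hx
  have h3 : DifferentiableAt ℂ (fun x => θ.L t (P.Cv c k x + u) - P.ka t * P.Jv c k x t) x := by
    refine DifferentiableAt.sub ?_ ((Jv_deriv k hx t).differentiableAt.const_mul _)
    exact DifferentiableAt.comp (f := fun x => P.Cv c k x + u) (g := θ.L t) x (θ.L_diff t h) hC
  refine h3.congr_of_eventuallyEq ?_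
  filter_upwards [h1, h2] with w hw1 hw2
  exact ell_pt θ u t k hw2 hw1

private theorem cnt_mem {u : P.V} {c : Bool} {k : ℤ} {x : ℂ} (hx : x ∈ Om c)
    (h : x ∉ Prod.fst '' (θ.Z u)) : θ.T (P.Cv c k x + u) ≠ 0 := by
  intro h0
  exact h ⟨P.pt c k x, (Z_pt θ u k hx).2 h0, rfl⟩

private theorem cnt_order {u : P.V} (h : θ.Adm u) {z : ℂ × ℂ} (hz : z ∈ P.Cs) :
    AnalyticAt ℂ (fun x => θ.T (P.Cv (cs z) (P.ks z) x + u)) z.1 ∧
      analyticOrderAt (fun x => θ.T (P.Cv (cs z) (P.ks z) x + u)) z.1 ≠ ⊤ :=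
  T_order θ u h.1 _ (ks_spec hz).1

theorem count {u : P.V} (h : θ.Adm u) :
    ∑ z ∈ (Z_finite θ h).toFinset, θ.mult u z = Fintype.card P.Ix := by
  classical
  obtain ⟨Z, hZ⟩ : ∃ Z, Z = (Z_finite θ h).toFinset := ⟨_, rfl⟩
  have hZm : ∀ z, z ∈ Z ↔ z ∈ θ.Z u := by
    intro z
    rw [hZ, Set.Finite.mem_toFinset]
  have hZs : (Z : Set (ℂ × ℂ)) = θ.Z u := Set.ext hZm
  rw [← hZ]
  have key := trace_residue (P := P) (fun z => ∑ t : P.Ix, P.F t z * θ.ell u t z) Z
    (fun z hz => ((hZm z).1 hz).1) ?_ (fun z => if z ∈ Z then (θ.mult u z : ℂ) else 0) ?_ ?_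
    (-(Fintype.card P.Ix : ℂ)) ?_ ?_ ?_
  · rw [Finset.sum_congr rfl (fun z hz => if_pos hz)] at key
    have h1 : ((∑ z ∈ Z, θ.mult u z : ℕ) : ℂ) = (Fintype.card P.Ix : ℂ) := by
      rw [Nat.cast_sum]
      linear_combination key
    exact_mod_cast h1
  · intro c k x hx
    rw [hZs] at hx
    have h1 := cnt_mem θ (k := k) hx.1 hx.2
    refine DifferentiableAt.differentiableWithinAt ?_
    refine DifferentiableAt.fun_sum fun t _ => ?_
    exact (P.F_hasDerivAt t k hx.1).differentiableAt.mul (cnt_diff θ k hx.1 h1 t)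
  · intro z hz _
    obtain ⟨hO, -, hpt⟩ := ks_spec hz
    obtain ⟨ha, ho⟩ := cnt_order θ h hz
    obtain ⟨h1, h2⟩ := cnt_logder ha ho
    have h3 : (if z ∈ Z then (θ.mult u z : ℂ) else 0) =
        (analyticOrderNatAt (fun x => θ.T (P.Cv (cs z) (P.ks z) x + u)) z.1 : ℂ) := by
      split_ifs with hzZ
      · rfl
      · have h4 : θ.T (P.Cv (cs z) (P.ks z) z.1 + u) ≠ 0 := fun h0 =>
          hzZ ((hZm z).2 ⟨hz, h0⟩)
        have h5 : analyticOrderAt (fun x => θ.T (P.Cv (cs z) (P.ks z) x + u)) z.1 = 0 :=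
          ha.analyticOrderAt_eq_zero.2 h4
        rw [analyticOrderNatAt, h5]
        simp
    rw [h3]
    have h4 : Tendsto (fun w => (w - z.1) * ∑ t : P.Ix, P.F t (P.pt (cs z) (P.ks z) w) *
        (P.ka t * P.Jv (cs z) (P.ks z) w t)) (𝓝[≠] z.1) (𝓝 0) := by
      have h5 : ContinuousAt (fun w => (w - z.1) * ∑ t : P.Ix, P.F t (P.pt (cs z) (P.ks z) w) *
          (P.ka t * P.Jv (cs z) (P.ks z) w t)) z.1 := by
        refine (continuousAt_id.sub continuousAt_const).mul ?_
        refine tendsto_finsetSum _ fun t _ => ?_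
        exact (P.F_hasDerivAt t _ hO).continuousAt.mul
          (continuousAt_const.mul (Jv_deriv _ hO t).continuousAt)
      have h6 := h5.tendsto
      simp only [sub_self, zero_mul] at h6
      exact h6.mono_left nhdsWithin_le_nhds
    have h5 := h1.sub h4
    rw [sub_zero] at h5
    refine h5.congr' ?_
    have h6 : ∀ᶠ w in 𝓝 z.1, w ∈ Om (cs z) := (Om_isOpen _).mem_nhds hO
    filter_upwards [h2, mem_nhdsWithin_of_mem_nhds h6] with w hw1 hw2
    have h7 := logder θ u (P.ks z : ℤ) hw2 hw1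
    rw [h7, ← mul_sub, ← Finset.sum_sub_distrib]
    congr 1
    refine Finset.sum_congr rfl fun t _ => ?_
    rw [ell_pt θ u t _ hw2 hw1]
    ring
  · intro z hz
    exact if_neg hz
  · intro c
    have h1 : ∀ t : P.Ix, Tendsto (fun x => x * ∑ k ∈ range P.D,
        P.F t (P.pt c k x) * θ.ell u t (P.pt c k x)) (𝓝[Hc c \ {0}] 0) (𝓝 (-1)) := fun t => by
      have := ends0 θ h t t c
      rwa [if_pos rfl] at this
    have h2 := tendsto_finsetSum (univ : Finset P.Ix) fun t _ => h1 t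
    have h3 : ∑ _t : P.Ix, (-1 : ℂ) = -(Fintype.card P.Ix : ℂ) := by
      rw [Finset.sum_const, Finset.card_univ, nsmul_eq_mul, mul_neg_one]
    rw [h3] at h2
    refine h2.congr fun x => ?_
    rw [← Finset.mul_sum, Finset.sum_comm]
  · intro c
    have h2 := tendsto_finsetSum (univ : Finset P.Ix) fun t _ => ends1 θ h t t c
    rw [Finset.sum_const_zero] at h2
    refine h2.congr fun x => ?_
    rw [← Finset.mul_sum, Finset.sum_comm]
  · intro c
    have h2 := tendsto_finsetSum (univ : Finset P.Ix) fun t _ => endsInf θ h t t c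
    rw [Finset.sum_const_zero] at h2
    refine h2.congr fun x => ?_
    rw [← Finset.mul_sum, Finset.sum_comm]

theorem one_le_mult {u : P.V} (h : θ.Adm u) {z : ℂ × ℂ} (hz : z ∈ θ.Z u) : 1 ≤ θ.mult u z := by
  obtain ⟨ha, ho⟩ := cnt_order θ h hz.1
  have h1 := ha.analyticOrderAt_ne_zero.2 hz.2
  have h2 := Nat.cast_analyticOrderNatAt ho
  by_contra h3
  have h4 : θ.mult u z = 0 := by omega
  unfold Th.mult at h4
  rw [h4] at h2
  exact h1 h2.symm

theorem residues {u : P.V} (h : θ.Adm u) (t : P.Ix) (ρ : ℂ × ℂ → ℂ)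
    (hρ : ∀ z ∈ θ.Z u, Tendsto (fun x => (x - z.1) * θ.L t (P.Cv (cs z) (P.ks z) x + u))
      (𝓝[≠] z.1) (𝓝 (ρ z))) (s : P.Ix) :
    ∑ z ∈ (Z_finite θ h).toFinset, ρ z * P.F s z = if s = t then 1 else 0 := by
  classical
  obtain ⟨Z, hZ⟩ : ∃ Z, Z = (Z_finite θ h).toFinset := ⟨_, rfl⟩
  have hZm : ∀ z, z ∈ Z ↔ z ∈ θ.Z u := by
    intro z
    rw [hZ, Set.Finite.mem_toFinset]
  have hZs : (Z : Set (ℂ × ℂ)) = θ.Z u := Set.ext hZm
  rw [← hZ]
  have key := trace_residue (P := P) (fun z => P.F s z * θ.ell u t z) Z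
    (fun z hz => ((hZm z).1 hz).1) ?_ (fun z => if z ∈ Z then ρ z * P.F s z else 0) ?_ ?_
    (if s = t then -1 else 0) (ends0 θ h s t) (ends1 θ h s t) (endsInf θ h s t)
  · rw [Finset.sum_congr rfl (fun z hz => if_pos hz)] at key
    split_ifs at key ⊢
    · linear_combination key
    · linear_combination key
  · intro c k x hx
    rw [hZs] at hx
    have h1 := cnt_mem θ (k := k) hx.1 hx.2
    refine DifferentiableAt.differentiableWithinAt ?_
    exact (P.F_hasDerivAt s k hx.1).differentiableAt.mul (cnt_diff θ k hx.1 h1 t)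
  · intro z hz _
    obtain ⟨hO, -, hpt⟩ := ks_spec hz
    have hF : ContinuousAt (fun w => P.F s (P.pt (cs z) (P.ks z) w)) z.1 :=
      (P.F_hasDerivAt s _ hO).continuousAt
    by_cases hzZ : z ∈ Z
    · simp only [if_pos hzZ]
      obtain ⟨ha, ho⟩ := cnt_order θ h hz
      obtain ⟨-, h2⟩ := cnt_logder ha ho
      have h4 : Tendsto (fun w => (w - z.1) * (P.F s (P.pt (cs z) (P.ks z) w) *
          (P.ka t * P.Jv (cs z) (P.ks z) w t))) (𝓝[≠] z.1) (𝓝 0) := by
        have h5 : ContinuousAt (fun w => (w - z.1) * (P.F s (P.pt (cs z) (P.ks z) w) *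
            (P.ka t * P.Jv (cs z) (P.ks z) w t))) z.1 :=
          (continuousAt_id.sub continuousAt_const).mul
            (hF.mul (continuousAt_const.mul (Jv_deriv _ hO t).continuousAt))
        have h6 := h5.tendsto
        simp only [sub_self, zero_mul] at h6
        exact h6.mono_left nhdsWithin_le_nhds
      have h5 := ((hρ z ((hZm z).1 hzZ)).mul (hF.tendsto.mono_left nhdsWithin_le_nhds)).sub h4
      rw [hpt, sub_zero] at h5
      refine h5.congr' ?_
      have h6 : ∀ᶠ w in 𝓝 z.1, w ∈ Om (cs z) := (Om_isOpen _).mem_nhds hO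
      filter_upwards [h2, mem_nhdsWithin_of_mem_nhds h6] with w hw1 hw2
      rw [ell_pt θ u t _ hw2 hw1]
      ring
    · simp only [if_neg hzZ]
      have h4 : θ.T (P.Cv (cs z) (P.ks z) z.1 + u) ≠ 0 := fun h0 => hzZ ((hZm z).2 ⟨hz, h0⟩)
      have h5 : ContinuousAt (fun w => (w - z.1) * (P.F s (P.pt (cs z) (P.ks z) w) *
          θ.ell u t (P.pt (cs z) (P.ks z) w))) z.1 :=
        (continuousAt_id.sub continuousAt_const).mul
          (hF.mul (cnt_diff θ _ hO h4 t).continuousAt)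
      have h6 := h5.tendsto
      simp only [sub_self, zero_mul] at h6
      exact h6.mono_left nhdsWithin_le_nhds
  · intro z hz
    exact if_neg hz

end

end Pool.Agent.RHT.Par
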