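import Pool.Agent.RHT.Log
import Pool.Agent.RHT.Ari

/-!
RHT-Cur. Points of the curve `Cs` in the charts. Plan: `Yv ^ D = x^a (1-x)^b` by `l0_exp`, `l1_exp`;
the `D`-th roots of `x^a (1-x)^b` are `ζ^k Yv`, `k < D` (`ζ = ze` is a primitive root:
`Complex.isPrimitiveRoot_exp`); transitions from `l0_left` etc. (`exp (-(a/D) 2πi) = ζ^(-a)`).
`F_pt`: `Yv^t = exp (t (a/D) l0 + ...)`, `al_floor`.
-/

set_option autoImplicit false

namespace Pool.Agent.RHT.Par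

open Complex ComplexConjugate Finset

noncomputable section

variable (P : Par)

private theorem Cur_D0 : P.D ≠ 0 := by
  have := P.hD
  omega

private theorem Cur_DC : (P.D : ℂ) ≠ 0 := Nat.cast_ne_zero.2 P.Cur_D0

theorem ze_ne : P.ze ≠ 0 := Complex.exp_ne_zero _

theorem ze_prim : IsPrimitiveRoot P.ze P.D := Complex.isPrimitiveRoot_exp P.D P.Cur_D0

theorem ze_conj : conj P.ze = P.ze⁻¹ := by
  unfold ze
  rw [← Complex.exp_conj, ← Complex.exp_neg]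
  congr 1
  rw [map_div₀, map_mul, map_mul, Complex.conj_I, Complex.conj_ofReal, map_natCast]
  have h2 : conj (2 : ℂ) = 2 := Complex.conj_ofNat 2
  rw [h2]
  ring

theorem norm_ze_zpow (k : ℤ) : ‖P.ze ^ k‖ = 1 := by
  rw [norm_zpow, P.ze_prim.norm'_eq_one P.Cur_D0, one_zpow]

theorem ze_ee (k : ℤ) : P.ze ^ k = ee (k / P.D) := by
  unfold ze ee
  rw [← Complex.exp_int_mul]
  congr 1
  push_cast
  ring

private theorem Cur_ee_add (n : ℕ) (x : ℝ) : ee (n + x) = ee x := by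
  unfold ee
  have h1 : 2 * Real.pi * I * (((n : ℝ) + x : ℝ) : ℂ) = 2 * Real.pi * I * x + n * (2 * Real.pi * I) := by
    push_cast
    ring
  rw [h1, Complex.exp_add, Complex.exp_nat_mul_two_pi_mul_I, mul_one]

/-- `e(α_t) = ζ^(a t)` -/
theorem ee_al (t : ℕ) : ee (P.al t) = P.ze ^ ((P.a : ℤ) * t) := by
  rw [ze_ee, ← Cur_ee_add (P.a * t / P.D) (P.al t), ← P.al_floor t]
  push_cast
  rfl

theorem ee_be (t : ℕ) : ee (P.be t) = P.ze ^ ((P.b : ℤ) * t) := by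
  rw [ze_ee, ← Cur_ee_add (P.b * t / P.D) (P.be t), ← P.be_floor t]
  push_cast
  rfl

private theorem Cur_Yv_ne (c : Bool) (x : ℂ) : P.Yv c x ≠ 0 := Complex.exp_ne_zero _

private theorem Cur_Yv_pow (c : Bool) {x : ℂ} (h0 : x ≠ 0) (h1 : x ≠ 1) :
    P.Yv c x ^ P.D = x ^ P.a * (1 - x) ^ P.b := by
  have hD := P.Cur_DC
  unfold Yv
  rw [← Complex.exp_nat_mul]
  have e : (P.D : ℂ) * (((P.a / P.D : ℝ) : ℂ) * l0 c x + ((P.b / P.D : ℝ) : ℂ) * l1 c x) =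
      P.a * l0 c x + P.b * l1 c x := by
    push_cast
    field_simp
  rw [e, Complex.exp_add, Complex.exp_nat_mul, Complex.exp_nat_mul, l0_exp c h0, l1_exp c h1]

private theorem Cur_ze_pow (k : ℤ) : (P.ze ^ k) ^ P.D = 1 := by
  rw [← zpow_natCast, ← zpow_mul, mul_comm, zpow_mul, zpow_natCast, P.ze_prim.pow_eq_one, one_zpow]

theorem pt_mem {c : Bool} (k : ℤ) {x : ℂ} (hx : x ∈ Om c) : P.pt c k x ∈ P.Cs := by
  obtain ⟨h0, h1⟩ := Om_ne hx
  refine ⟨h0, h1, ?_⟩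
  show (P.ze ^ k * P.Yv c x) ^ P.D = _
  rw [mul_pow, P.Cur_ze_pow, one_mul, P.Cur_Yv_pow c h0 h1]
  rfl

theorem pt_surj {z : ℂ × ℂ} (hz : z ∈ P.Cs) {c : Bool} (hc : z.1 ∈ Om c) :
    ∃ k : ℕ, k < P.D ∧ z = P.pt c k z.1 := by
  obtain ⟨h0, h1, h2⟩ := hz
  have hY := P.Cur_Yv_ne c z.1
  haveI : NeZero P.D := ⟨P.Cur_D0⟩
  obtain ⟨k, hk, e⟩ := P.ze_prim.eq_pow_of_pow_eq_one (ξ := z.2 / P.Yv c z.1) (by
    rw [div_pow, h2, P.Cur_Yv_pow c h0 h1, div_self]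
    exact mul_ne_zero (pow_ne_zero _ h0) (pow_ne_zero _ (sub_ne_zero.2 (Ne.symm h1))))
  refine ⟨k, hk, Prod.ext rfl ?_⟩
  show z.2 = P.ze ^ (k : ℤ) * P.Yv c z.1
  rw [zpow_natCast, e, div_mul_cancel₀ _ hY]

theorem pt_eq_iff {c : Bool} {k l : ℤ} {x : ℂ} :
    P.pt c k x = P.pt c l x ↔ (P.D : ℤ) ∣ k - l := by
  have hY := P.Cur_Yv_ne c x
  rw [← P.ze_prim.zpow_eq_one_iff_dvd, zpow_sub₀ P.ze_ne, div_eq_one_iff_eq (zpow_ne_zero _ P.ze_ne)]
  constructor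
  · intro h
    exact mul_right_cancel₀ hY (congrArg Prod.snd h)
  · intro h
    show (x, P.ze ^ k * P.Yv c x) = (x, P.ze ^ l * P.Yv c x)
    rw [h]

private theorem Cur_ze_exp (k : ℤ) : P.ze ^ k = cexp (k / P.D * (2 * Real.pi * I)) := by
  unfold ze
  rw [← Complex.exp_int_mul]
  congr 1
  ring

theorem pt_left (k : ℤ) {x : ℂ} (hx : x.re < 0) : P.pt true k x = P.pt false (k - P.a) x := by
  refine Prod.ext rfl ?_
  show P.ze ^ k * P.Yv true x = P.ze ^ (k - P.a) * P.Yv false x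
  rw [zpow_sub₀ P.ze_ne, div_eq_mul_inv, ← zpow_neg, mul_assoc]
  congr 1
  rw [Cur_ze_exp]
  unfold Yv
  rw [← Complex.exp_add, l0_left hx, l1_left (by linarith)]
  congr 1
  push_cast
  ring

theorem pt_mid (k : ℤ) {x : ℂ} (hx : 0 < x.re) (hx1 : x.re < 1) :
    P.pt true k x = P.pt false k x := by
  refine Prod.ext rfl ?_
  show P.ze ^ k * P.Yv true x = P.ze ^ k * P.Yv false x
  unfold Yv
  rw [l0_right hx, l1_left hx1]

theorem pt_right (k : ℤ) {x : ℂ} (hx : 1 < x.re) : P.pt true k x = P.pt false (k + P.b) x := by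
  refine Prod.ext rfl ?_
  show P.ze ^ k * P.Yv true x = P.ze ^ (k + P.b) * P.Yv false x
  rw [zpow_add₀ P.ze_ne, mul_assoc]
  congr 1
  rw [Cur_ze_exp]
  unfold Yv
  rw [← Complex.exp_add, l0_right (by linarith), l1_right hx]
  congr 1
  push_cast
  ring

theorem F_pt {c : Bool} (t : ℕ) (k : ℤ) {x : ℂ} (hx : x ∈ Om c) :
    P.F t (P.pt c k x) = P.ze ^ (-(k * (t : ℤ))) * pw c (P.al t) (P.be t) x := by
  obtain ⟨h0, h1⟩ := Om_ne hx
  show x ^ (P.a * t / P.D) * (1 - x) ^ (P.b * t / P.D) / (P.ze ^ k * P.Yv c x) ^ t = _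
  have e1 : (P.ze ^ k) ^ t = (P.ze ^ (-(k * (t : ℤ))))⁻¹ := by
    rw [zpow_neg, inv_inv, zpow_mul, zpow_natCast]
  have hz : P.ze ^ (-(k * (t : ℤ))) ≠ 0 := zpow_ne_zero _ P.ze_ne
  have e2 : x ^ (P.a * t / P.D) * (1 - x) ^ (P.b * t / P.D) =
      pw c (P.al t) (P.be t) x * P.Yv c x ^ t := by
    have f1 : x ^ (P.a * t / P.D) = cexp ((P.a * t / P.D : ℕ) * l0 c x) := by
      rw [Complex.exp_nat_mul, l0_exp c h0]
    have f2 : (1 - x) ^ (P.b * t / P.D) = cexp ((P.b * t / P.D : ℕ) * l1 c x) := by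
      rw [Complex.exp_nat_mul, l1_exp c h1]
    rw [f1, f2]
    unfold pw Yv
    rw [← Complex.exp_nat_mul, ← Complex.exp_add, ← Complex.exp_add]
    congr 1
    have g1 : ((P.a * t / P.D : ℕ) : ℂ) = (P.a : ℂ) * t / P.D - P.al t := by
      have := P.al_floor t
      have h : ((P.a * t / P.D : ℕ) : ℝ) = (P.a : ℝ) * t / P.D - P.al t := by linarith
      have h' := congrArg (fun r : ℝ => (r : ℂ)) h
      push_cast at h' ⊢
      exact h'
    have g2 : ((P.b * t / P.D : ℕ) : ℂ) = (P.b : ℂ) * t / P.D - P.be t := by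
      have := P.be_floor t
      have h : ((P.b * t / P.D : ℕ) : ℝ) = (P.b : ℝ) * t / P.D - P.be t := by linarith
      have h' := congrArg (fun r : ℝ => (r : ℂ)) h
      push_cast at h' ⊢
      exact h'
    rw [g1, g2]
    push_cast
    ring
  rw [mul_pow, e1, e2]
  have hY : P.Yv c x ^ t ≠ 0 := pow_ne_zero _ (P.Cur_Yv_ne c x)
  field_simp

theorem F_ne (t : ℕ) {z : ℂ × ℂ} (hz : z ∈ P.Cs) : P.F t z ≠ 0 := by
  obtain ⟨h0, h1, h2⟩ := hz
  have h3 : (1 : ℂ) - z.1 ≠ 0 := sub_ne_zero.2 (Ne.symm h1)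
  have h4 : z.2 ≠ 0 := by
    intro h
    rw [h, zero_pow P.Cur_D0] at h2
    exact mul_ne_zero (pow_ne_zero _ h0) (pow_ne_zero _ h3) h2.symm
  exact div_ne_zero (mul_ne_zero (pow_ne_zero _ h0) (pow_ne_zero _ h3)) (pow_ne_zero _ h4)

/-- the sum over the fibre is the sum over the sheets -/
theorem sum_fib (g : ℂ × ℂ → ℂ) {c : Bool} {x : ℂ} (hx : x ∈ Om c) :
    ∑ y ∈ P.fib x, g (x, y) = ∑ k ∈ range P.D, g (P.pt c k x) := by
  have hmem : ∀ y, y ∈ P.fib x ↔ y ^ P.D = x ^ P.a * (1 - x) ^ P.b := by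
    intro y
    unfold fib
    rw [Multiset.mem_toFinset, Polynomial.mem_nthRoots (Nat.pos_of_ne_zero P.Cur_D0)]
  obtain ⟨h0, h1⟩ := Om_ne hx
  symm
  refine Finset.sum_nbij (fun k => P.ze ^ (k : ℤ) * P.Yv c x) ?_ ?_ ?_ ?_
  · intro k _
    rw [hmem]
    exact (P.pt_mem k hx).2.2
  · intro k hk l hl e
    have h2 : P.pt c k x = P.pt c l x := Prod.ext rfl e
    rw [pt_eq_iff] at h2
    have hk' : k < P.D := Finset.mem_range.1 (Finset.mem_coe.1 hk)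
    have hl' : l < P.D := Finset.mem_range.1 (Finset.mem_coe.1 hl)
    have h3 := Int.eq_zero_of_abs_lt_dvd h2 (by rw [abs_lt]; omega)
    omega
  · intro y hy
    rw [Finset.mem_coe, hmem] at hy
    obtain ⟨k, hk, e⟩ := P.pt_surj (z := (x, y)) ⟨h0, h1, hy⟩ (c := c) hx
    exact ⟨k, Finset.mem_coe.2 (Finset.mem_range.2 hk), (congrArg Prod.snd e).symm⟩
  · intro k _
    rfl

/-- orthogonality of the characters of the sheets -/
theorem sum_ze (m : ℤ) : ∑ k ∈ range P.D, P.ze ^ ((k : ℤ) * m) =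
    if (P.D : ℤ) ∣ m then (P.D : ℂ) else 0 := by
  have e : ∀ k ∈ range P.D, P.ze ^ ((k : ℤ) * m) = (P.ze ^ m) ^ k := by
    intro k _
    rw [mul_comm, zpow_mul, zpow_natCast]
  rw [Finset.sum_congr rfl e]
  split_ifs with h
  · rw [(P.ze_prim.zpow_eq_one_iff_dvd m).2 h]
    simp
  · have h1 : P.ze ^ m ≠ 1 := fun h2 => h ((P.ze_prim.zpow_eq_one_iff_dvd m).1 h2)
    have h2 := geom_sum_mul (P.ze ^ m) P.D
    rw [P.Cur_ze_pow, sub_self] at h2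
    rcases mul_eq_zero.1 h2 with h3 | h3
    · exact h3
    · exact absurd (sub_eq_zero.1 h3) h1

theorem Yv_hasDerivAt {c : Bool} {x : ℂ} (hx : x ∈ Om c) :
    HasDerivAt (P.Yv c) (((P.a / P.D : ℝ) / x - (P.b / P.D : ℝ) / (1 - x)) * P.Yv c x) x := by
  have h := (((l0_hasDerivAt hx).const_mul ((P.a / P.D : ℝ) : ℂ)).add
    ((l1_hasDerivAt hx).const_mul ((P.b / P.D : ℝ) : ℂ))).cexp
  refine h.congr_deriv ?_
  show cexp (((P.a / P.D : ℝ) : ℂ) * l0 c x + ((P.b / P.D : ℝ) : ℂ) * l1 c x) * _ = _ * P.Yv c x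
  unfold Yv
  ring

/-- `F_t` along a sheet -/
theorem F_hasDerivAt {c : Bool} (t : ℕ) (k : ℤ) {x : ℂ} (hx : x ∈ Om c) :
    HasDerivAt (fun x => P.F t (P.pt c k x))
      ((-(P.al t : ℂ) / x + P.be t / (1 - x)) * P.F t (P.pt c k x)) x := by
  have h := (pw_hasDerivAt (c := c) (P.al t) (P.be t) hx).const_mul (P.ze ^ (-(k * (t : ℤ))))
  rw [F_pt P t k hx]
  refine (h.congr_deriv (by ring)).congr_of_eventuallyEq ?_
  filter_upwards [(Om_isOpen c).mem_nhds hx] with y hy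
  exact P.F_pt t k hy

/-- `F_{-s} = 1 / (x (1-x) F_s)` if both exponents are nonzero -/
theorem F_neg {s : ℕ} (h0 : 0 < s) (h : s < P.D) (ha : P.al s ≠ 0) (hb : P.be s ≠ 0)
    {z : ℂ × ℂ} (hz : z ∈ P.Cs) : P.F (P.D - s) z = (z.1 * (1 - z.1) * P.F s z)⁻¹ := by
  have hDR : (P.D : ℝ) ≠ 0 := Nat.cast_ne_zero.2 P.Cur_D0
  have hf : P.a * (P.D - s) / P.D + P.a * s / P.D + 1 = P.a := by
    have h1 := P.al_floor s
    have h2 := P.al_floor (P.D - s)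
    rw [P.al_neg h.le ha, Nat.cast_sub h.le] at h2
    have h3 : (P.a : ℝ) * ((P.D : ℝ) - s) / P.D + (P.a : ℝ) * s / P.D = P.a := by
      field_simp
      ring
    have h4 : ((P.a * (P.D - s) / P.D + P.a * s / P.D + 1 : ℕ) : ℝ) = (P.a : ℝ) := by
      rw [Nat.cast_add, Nat.cast_add, Nat.cast_one]
      linarith
    exact_mod_cast h4
  have hg : P.b * (P.D - s) / P.D + P.b * s / P.D + 1 = P.b := by
    have h1 := P.be_floor s
    have h2 := P.be_floor (P.D - s)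
    rw [P.be_neg h.le hb, Nat.cast_sub h.le] at h2
    have h3 : (P.b : ℝ) * ((P.D : ℝ) - s) / P.D + (P.b : ℝ) * s / P.D = P.b := by
      field_simp
      ring
    have h4 : ((P.b * (P.D - s) / P.D + P.b * s / P.D + 1 : ℕ) : ℝ) = (P.b : ℝ) := by
      rw [Nat.cast_add, Nat.cast_add, Nat.cast_one]
      linarith
    exact_mod_cast h4
  obtain ⟨z0, z1, z2⟩ := hz
  have z3 : (1 : ℂ) - z.1 ≠ 0 := sub_ne_zero.2 (Ne.symm z1)
  have z4 : z.2 ≠ 0 := by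
    intro h5
    rw [h5, zero_pow P.Cur_D0] at z2
    exact mul_ne_zero (pow_ne_zero _ z0) (pow_ne_zero _ z3) z2.symm
  refine eq_inv_of_mul_eq_one_left ?_
  unfold F
  have e1 : z.2 ^ (P.D - s) * z.2 ^ s = z.1 ^ P.a * (1 - z.1) ^ P.b := by
    rw [← pow_add, Nat.sub_add_cancel h.le, z2]
  have e2 : z.1 ^ P.a = z.1 ^ (P.a * (P.D - s) / P.D) * z.1 ^ (P.a * s / P.D) * z.1 := by
    conv_lhs => rw [← hf]
    rw [pow_add, pow_add, pow_one]
  have e3 : (1 - z.1) ^ P.b =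
      (1 - z.1) ^ (P.b * (P.D - s) / P.D) * (1 - z.1) ^ (P.b * s / P.D) * (1 - z.1) := by
    conv_lhs => rw [← hg]
    rw [pow_add, pow_add, pow_one]
  have z5 : z.2 ^ (P.D - s) ≠ 0 := pow_ne_zero _ z4
  have z6 : z.2 ^ s ≠ 0 := pow_ne_zero _ z4
  rw [div_mul_eq_mul_div, div_eq_one_iff_eq z5, mul_div_assoc', mul_div_assoc', div_eq_iff z6, e1, e2,
    e3]
  ring

end

end Pool.Agent.RHT.Par
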