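import Mathlib

/-!
# Project RHT (MP_c2409d_nt, block III of ROHK): definitions

Paper proof: /team-store/roh3_h6.md (helper6). Theta functions of the Jacobian of
`y^D = x^a (1-x)^b`, `a + b = D + 1`, with algebraic Taylor coefficients.

Charts of the `x`-plane: `c = false` (down): cuts `-is`, `1-is`, `s ≥ 0`; `c = true` (up): cuts
`is`, `1+is`. `Hc c` is the closed half plane without cuts (`im ≥ 0` for `c = false`).
-/

set_option autoImplicit false

namespace Pool.Agent.RHT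

open Complex ComplexConjugate Finset

noncomputable section

/-- sign of the chart -/
def sg (c : Bool) : ℝ := if c then 1 else -1

/-- the plane with two vertical cuts ending at `0` and `1` -/
def Om (c : Bool) : Set ℂ :=
  {x | ¬ (x.re = 0 ∧ 0 ≤ sg c * x.im) ∧ ¬ (x.re = 1 ∧ 0 ≤ sg c * x.im)}

/-- the closed half plane opposite to the cuts -/
def Hc (c : Bool) : Set ℂ := {x | sg c * x.im ≤ 0}

/-- logarithm of `x` in the chart `c` -/
def l0 (c : Bool) (x : ℂ) : ℂ := Complex.log (sg c * I * x) - sg c * I * (Real.pi / 2)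

/-- logarithm of `1 - x` in the chart `c` -/
def l1 (c : Bool) (x : ℂ) : ℂ := Complex.log (-(sg c) * I * (1 - x)) + sg c * I * (Real.pi / 2)

/-- `x^(-p) (1-x)^(-q)` in the chart `c` -/
def pw (c : Bool) (p q : ℝ) (x : ℂ) : ℂ := cexp (-(p * l0 c x) - q * l1 c x)

/-- the integral of `pw` from infinity to `x` along the vertical ray in the chart -/
def Iv (c : Bool) (p q : ℝ) (x : ℂ) : ℂ :=
  sg c * I * ∫ s in Set.Ioi (0 : ℝ), pw c p q (x - sg c * I * s)

/-- the integral of `x^(-p) (1-x)^(-q)` along a vertical line through `(0,1)` -/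
def per (p q : ℝ) : ℂ :=
  2 * Real.pi * I * ((Real.Gamma (p + q - 1) / (Real.Gamma p * Real.Gamma q) : ℝ) : ℂ)

/-- `e(x) = exp (2 π i x)` -/
def ee (x : ℝ) : ℂ := cexp (2 * Real.pi * I * x)

/-- the value of `Iv c p q` at `0` (`p < 1`) -/
def v0 (c : Bool) (p q : ℝ) : ℂ := (if c then ee p else 1) * per p q / (ee p - 1)

/-- the value of `Iv c p q` at `1` (`q < 1`) -/
def v1 (c : Bool) (p q : ℝ) : ℂ := (if c then ee (-q) else 1) * per p q / (ee (-q) - 1)

/-- level and exponents, `a + b = D + 1` -/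
structure Par where
  D : ℕ
  a : ℕ
  b : ℕ
  hD : 3 ≤ D
  ha : a < D
  hb : b < D
  hab : a + b = D + 1

namespace Par

variable (P : Par)

/-- `{as/D}` -/
def al (s : ℕ) : ℝ := ((P.a * s % P.D : ℕ) : ℝ) / P.D

/-- `{bs/D}` -/
def be (s : ℕ) : ℝ := ((P.b * s % P.D : ℕ) : ℝ) / P.D

/-- the characters of the differentials of the first kind -/
def Phi : Finset ℕ := (range P.D).filter fun t => P.D < P.a * t % P.D + P.b * t % P.D

/-- index type of the coordinates -/
abbrev Ix : Type := {t : ℕ // t ∈ P.Phi}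

/-- Lie algebra of the Jacobian -/
abbrev V : Type := P.Ix → ℂ

/-- `exp (2 π i / D)` -/
def ze : ℂ := cexp (2 * Real.pi * I / P.D)

/-- `x^(a/D) (1-x)^(b/D)` in the chart `c` -/
def Yv (c : Bool) (x : ℂ) : ℂ := cexp ((P.a / P.D : ℝ) * l0 c x + (P.b / P.D : ℝ) * l1 c x)

/-- the point over `x` on the sheet `k` of the chart `c` -/
def pt (c : Bool) (k : ℤ) (x : ℂ) : ℂ × ℂ := (x, P.ze ^ k * P.Yv c x)

/-- the affine curve without the points over `0`, `1` -/
def Cs : Set (ℂ × ℂ) := {z | z.1 ≠ 0 ∧ z.1 ≠ 1 ∧ z.2 ^ P.D = z.1 ^ P.a * (1 - z.1) ^ P.b}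

/-- the points over `x` -/
def fib (x : ℂ) : Finset ℂ := (Polynomial.nthRoots P.D (x ^ P.a * (1 - x) ^ P.b)).toFinset

/-- the function `y^(-t) x^[ta/D] (1-x)^[tb/D]`, on the sheet `k`: `ζ^(-kt) pw (al t) (be t)` -/
def F (t : ℕ) (z : ℂ × ℂ) : ℂ :=
  z.1 ^ (P.a * t / P.D) * (1 - z.1) ^ (P.b * t / P.D) / z.2 ^ t

/-- a function on the curve is holomorphic outside `S` (a set of values of `x`) -/
def HolC (g : ℂ × ℂ → ℂ) (S : Set ℂ) : Prop :=
  ∀ (c : Bool) (k : ℤ), DifferentiableOn ℂ (fun x => g (P.pt c k x)) (Om c \ S)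

/-- the Abel map on the sheet `k` of the chart `c` -/
def Cv (c : Bool) (k : ℤ) (x : ℂ) : P.V :=
  fun t => P.ze ^ (-(k * (t : ℕ))) * Iv c (P.al t) (P.be t) x

/-- integrals of the second kind on the sheet `k` of the chart `c` -/
def Jv (c : Bool) (k : ℤ) (x : ℂ) (t : ℕ) : ℂ :=
  P.ze ^ (k * (t : ℕ)) * Iv c (2 - P.al t) (1 - P.be t) x

/-- values of the Abel map at the points over `0` -/
def C0 (c : Bool) (k : ℤ) : P.V := fun t => P.ze ^ (-(k * (t : ℕ))) * v0 c (P.al t) (P.be t)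

/-- values of the Abel map at the points over `1` -/
def C1 (c : Bool) (k : ℤ) : P.V := fun t => P.ze ^ (-(k * (t : ℕ))) * v1 c (P.al t) (P.be t)

/-- periods of the first kind -/
def Pe (t : ℕ) : ℂ := per (P.al t) (P.be t)

/-- periods of the second kind -/
def Pih (t : ℕ) : ℂ := per (2 - P.al t) (1 - P.be t)

/-- the generators of the period lattice -/
def mu (k : ℤ) : P.V := fun t => P.ze ^ (-(k * (t : ℕ))) * P.Pe t

/-- the period lattice -/
def Lam : AddSubgroup P.V := AddSubgroup.closure (Set.range P.mu)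

/-- `γ_t = (4/D) sin(π α_t) sin(π β_t) / sin(π t/D)` -/
def ga (t : ℕ) : ℝ := 4 / P.D * (Real.sin (Real.pi * P.al t) * Real.sin (Real.pi * P.be t) /
  Real.sin (Real.pi * t / P.D))

/-- the coefficients of the hermitian form -/
def cf (t : ℕ) : ℝ := P.ga t / ‖P.Pe t‖ ^ 2

/-- the constants `κ_t` -/
def ka (t : ℕ) : ℝ := -(1 - P.al t) / P.D

/-- the hermitian form -/
def H (u v : P.V) : ℂ := ∑ t : P.Ix, (P.cf t : ℂ) * u t * conj (v t)

/-- a theta function for `H` -/
structure Th where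
  T : P.V → ℂ
  dT : Differentiable ℂ T
  nT : ∃ u, T u ≠ 0
  e : P.V → ℂ
  he : ∀ l ∈ P.Lam, ‖e l‖ = 1
  qp : ∀ l ∈ P.Lam, ∀ u, T (u + l) = e l * cexp (Real.pi * P.H u l + Real.pi / 2 * P.H l l) * T u

end Par

end

end Pool.Agent.RHT
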