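import Pool.Agent.RHT.Ari

/-!
RHT-Leg. The periods. Plan: for `t ∈ Phi` all Gamma arguments are positive: `al + be - 1 = t/D`,
`(2 - al) + (1 - be) - 1 = 1 - t/D` (`al_add_be_Phi`). `Pe`, `Pih` are `2 π I` times positive reals.
Legendre relation: `Real.Gamma_mul_Gamma_one_sub`, `Γ(2-α) = (1-α) Γ(1-α)`.
`norm_Pe`: the same reflection formulas, `Γ(2-α-β) Γ(α+β-1) = π / sin (π (α+β-1))`.
`ga_alg`: `sin (π r)`, `r` rational, is algebraic (`exp (π i r)` is a root of unity).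
-/

set_option autoImplicit false

namespace Pool.Agent.RHT.Par

open Complex ComplexConjugate Finset

noncomputable section

variable (P : Par)

private theorem leg_per {p q : ℝ} : per p q =
    I * ((2 * Real.pi * (Real.Gamma (p + q - 1) / (Real.Gamma p * Real.Gamma q)) : ℝ) : ℂ) := by
  unfold per
  push_cast
  ring

private theorem leg_arg {t : ℕ} (h : t ∈ P.Phi) :
    (0 < P.al t ∧ P.al t < 1) ∧ (0 < P.be t ∧ P.be t < 1) ∧
      (0 < (t : ℝ) / P.D ∧ (t : ℝ) / P.D < 1) ∧ P.al t + P.be t = 1 + (t : ℝ) / P.D := by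
  have hD : (0 : ℝ) < P.D := by
    have := P.hD
    exact_mod_cast (by omega : 0 < P.D)
  obtain ⟨h0, h1⟩ := P.Phi_pos h
  refine ⟨⟨P.al_pos h, P.al_lt_one t⟩, ⟨P.be_pos h, P.be_lt_one t⟩, ⟨?_, ?_⟩, P.al_add_be_Phi h⟩
  · exact div_pos (by exact_mod_cast h0) hD
  · rw [div_lt_one hD]
    exact_mod_cast h1

private theorem leg_r {t : ℕ} (h : t ∈ P.Phi) :
    0 < 2 * Real.pi * (Real.Gamma (P.al t + P.be t - 1) /
      (Real.Gamma (P.al t) * Real.Gamma (P.be t))) := by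
  obtain ⟨⟨a0, a1⟩, ⟨b0, b1⟩, ⟨t0, t1⟩, e⟩ := P.leg_arg h
  have g1 : 0 < Real.Gamma (P.al t + P.be t - 1) := Real.Gamma_pos_of_pos (by rw [e]; linarith)
  have g2 := Real.Gamma_pos_of_pos a0
  have g3 := Real.Gamma_pos_of_pos b0
  have := Real.pi_pos
  positivity

private theorem leg_norm {t : ℕ} (h : t ∈ P.Phi) :
    ‖P.Pe t‖ = 2 * Real.pi * (Real.Gamma (P.al t + P.be t - 1) /
      (Real.Gamma (P.al t) * Real.Gamma (P.be t))) := by
  rw [Pe, leg_per, norm_mul, Complex.norm_I, one_mul, Complex.norm_real, Real.norm_of_nonneg]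
  exact (P.leg_r h).le

private theorem leg_sin {x : ℝ} (h0 : 0 < x) (h1 : x < 1) : 0 < Real.sin (Real.pi * x) := by
  apply Real.sin_pos_of_pos_of_lt_pi
  · exact mul_pos Real.pi_pos h0
  · nlinarith [Real.pi_pos]

private theorem leg_sin_alg (m n : ℕ) : IsAlgebraic ℚ (Real.sin (Real.pi * ((m : ℝ) / n))) := by
  have h := Real.isAlgebraic_sin_rat_mul_pi ((m : ℚ) / n)
  have h2 : IsAlgebraic ℚ (Real.sin ((((m : ℚ) / n : ℚ) : ℝ) * Real.pi)) :=
    h.extendScalars (by intro a b hab; exact_mod_cast hab)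
  have e : Real.pi * ((m : ℝ) / n) = (((m : ℚ) / n : ℚ) : ℝ) * Real.pi := by
    push_cast
    ring
  rw [e]
  exact h2

private theorem leg_nat_alg (m : ℕ) : IsAlgebraic ℚ (m : ℝ) := by
  have := isAlgebraic_algebraMap (R := ℚ) (A := ℝ) (m : ℚ)
  simpa using this

/-- the reflection formulas -/
private theorem leg_refl {t : ℕ} (h : t ∈ P.Phi) :
    Real.Gamma (P.al t) * Real.Gamma (1 - P.al t) * Real.sin (Real.pi * P.al t) = Real.pi ∧
    Real.Gamma (P.be t) * Real.Gamma (1 - P.be t) * Real.sin (Real.pi * P.be t) = Real.pi ∧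
    Real.Gamma (P.al t + P.be t - 1) * Real.Gamma (2 - P.al t - P.be t) *
      Real.sin (Real.pi * t / P.D) = Real.pi := by
  obtain ⟨⟨a0, a1⟩, ⟨b0, b1⟩, ⟨t0, t1⟩, e⟩ := P.leg_arg h
  refine ⟨?_, ?_, ?_⟩
  · rw [Real.Gamma_mul_Gamma_one_sub, div_mul_cancel₀ _ (leg_sin a0 a1).ne']
  · rw [Real.Gamma_mul_Gamma_one_sub, div_mul_cancel₀ _ (leg_sin b0 b1).ne']
  · have e1 : P.al t + P.be t - 1 = (t : ℝ) / P.D := by rw [e]; ring
    have e2 : 2 - P.al t - P.be t = 1 - (t : ℝ) / P.D := by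
      have : 2 - P.al t - P.be t = 2 - (P.al t + P.be t) := by ring
      rw [this, e]
      ring
    rw [e1, e2, Real.Gamma_mul_Gamma_one_sub, mul_div_assoc Real.pi (t : ℝ) (P.D : ℝ),
      div_mul_cancel₀ _ (leg_sin t0 t1).ne']

theorem Pe_eq {t : ℕ} (h : t ∈ P.Phi) : P.Pe t = I * (‖P.Pe t‖ : ℝ) ∧ 0 < ‖P.Pe t‖ := by
  have hn : ‖P.Pe t‖ = _ := P.leg_norm h
  have hr := P.leg_r h
  refine ⟨?_, by rw [hn]; exact hr⟩
  rw [hn, Pe, leg_per]

theorem Pih_ne {t : ℕ} (h : t ∈ P.Phi) : P.Pih t ≠ 0 := by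
  obtain ⟨⟨a0, a1⟩, ⟨b0, b1⟩, ⟨t0, t1⟩, e⟩ := P.leg_arg h
  rw [Pih, leg_per]
  refine mul_ne_zero Complex.I_ne_zero ?_
  have g1 : 0 < Real.Gamma (2 - P.al t + (1 - P.be t) - 1) :=
    Real.Gamma_pos_of_pos (by linarith)
  have g2 : 0 < Real.Gamma (2 - P.al t) := Real.Gamma_pos_of_pos (by linarith)
  have g3 : 0 < Real.Gamma (1 - P.be t) := Real.Gamma_pos_of_pos (by linarith)
  have := Real.pi_pos
  exact_mod_cast (by positivity : (2 * Real.pi * (Real.Gamma (2 - P.al t + (1 - P.be t) - 1) /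
    (Real.Gamma (2 - P.al t) * Real.Gamma (1 - P.be t)))) ≠ 0)

theorem ga_pos {t : ℕ} (h : t ∈ P.Phi) : 0 < P.ga t := by
  obtain ⟨⟨a0, a1⟩, ⟨b0, b1⟩, ⟨t0, t1⟩, e⟩ := P.leg_arg h
  have hD : (0 : ℝ) < P.D := by
    have := P.hD
    exact_mod_cast (by omega : 0 < P.D)
  have s1 := leg_sin a0 a1
  have s2 := leg_sin b0 b1
  have s3 := leg_sin t0 t1
  rw [← mul_div_assoc] at s3
  unfold ga
  positivity

theorem cf_pos {t : ℕ} (h : t ∈ P.Phi) : 0 < P.cf t := by
  have h1 := P.ga_pos h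
  have h2 := (P.Pe_eq h).2
  unfold cf
  positivity

theorem cf_mul {t : ℕ} (h : t ∈ P.Phi) : P.cf t * ‖P.Pe t‖ ^ 2 = P.ga t := by
  have h2 := (P.Pe_eq h).2
  unfold cf
  exact div_mul_cancel₀ _ (by positivity)

/-- Legendre relation -/
theorem legendre {t : ℕ} (h : t ∈ P.Phi) :
    Real.pi * (P.cf t : ℂ) * conj (P.Pe t) = P.ka t * P.Pih t := by
  obtain ⟨⟨a0, a1⟩, ⟨b0, b1⟩, ⟨t0, t1⟩, e⟩ := P.leg_arg h
  obtain ⟨r1, r2, r3⟩ := P.leg_refl h
  have hD : (0 : ℝ) < P.D := by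
    have := P.hD
    exact_mod_cast (by omega : 0 < P.D)
  have s1 := leg_sin a0 a1
  have s2 := leg_sin b0 b1
  have s3 := leg_sin t0 t1
  rw [← mul_div_assoc] at s3
  have g1 := Real.Gamma_pos_of_pos a0
  have g2 := Real.Gamma_pos_of_pos b0
  have g3 : 0 < Real.Gamma (1 - P.al t) := Real.Gamma_pos_of_pos (by linarith)
  have g4 : 0 < Real.Gamma (1 - P.be t) := Real.Gamma_pos_of_pos (by linarith)
  have g5 : 0 < Real.Gamma (P.al t + P.be t - 1) := Real.Gamma_pos_of_pos (by rw [e]; linarith)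
  have g6 : 0 < Real.Gamma (2 - P.al t - P.be t) := Real.Gamma_pos_of_pos (by linarith)
  have e1 : Real.Gamma (2 - P.al t) = (1 - P.al t) * Real.Gamma (1 - P.al t) := by
    rw [← Real.Gamma_add_one (by linarith : (1 - P.al t) ≠ 0)]
    congr 1
    ring
  have hpi := Real.pi_pos
  have hN := P.leg_norm h
  have hc : conj (P.Pe t) = -(I * (‖P.Pe t‖ : ℝ)) := by
    conv_lhs => rw [(P.Pe_eq h).1]
    rw [map_mul, Complex.conj_I, Complex.conj_ofReal]
    ring
  have hP : P.Pih t = I * ((2 * Real.pi * (Real.Gamma (2 - P.al t - P.be t) /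
      ((1 - P.al t) * Real.Gamma (1 - P.al t) * Real.Gamma (1 - P.be t))) : ℝ) : ℂ) := by
    rw [Pih, leg_per, e1]
    have : 2 - P.al t + (1 - P.be t) - 1 = 2 - P.al t - P.be t := by ring
    rw [this]
  rw [hc, hP]
  have key : Real.pi * P.cf t * ‖P.Pe t‖ = -P.ka t * (2 * Real.pi *
      (Real.Gamma (2 - P.al t - P.be t) /
      ((1 - P.al t) * Real.Gamma (1 - P.al t) * Real.Gamma (1 - P.be t)))) := by
    unfold cf
    rw [hN]
    unfold ga ka
    have n1 : (1 - P.al t) ≠ 0 := by linarith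
    generalize Real.Gamma (1 - P.al t) = G3 at *
    generalize Real.Gamma (1 - P.be t) = G4 at *
    generalize Real.Gamma (P.al t + P.be t - 1) = G5 at *
    generalize Real.Gamma (2 - P.al t - P.be t) = G6 at *
    generalize Real.Gamma (P.al t) = G1 at *
    generalize Real.Gamma (P.be t) = G2 at *
    generalize Real.sin (Real.pi * P.al t) = S1 at *
    generalize Real.sin (Real.pi * P.be t) = S2 at *
    generalize Real.sin (Real.pi * t / P.D) = S3 at *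
    generalize Real.pi = p at *
    have hG : S1 * S2 * (G1 * G2 * G3 * G4) = p ^ 2 := by
      calc S1 * S2 * (G1 * G2 * G3 * G4) = (G1 * G3 * S1) * (G2 * G4 * S2) := by ring
        _ = p ^ 2 := by rw [r1, r2]; ring
    field_simp
    have : S1 * S2 * (G1 * G2 * G3 * G4) = p * (G5 * G6 * S3) := by rw [hG, r3]; ring
    nlinarith [this]
  have key' : ((Real.pi * P.cf t * ‖P.Pe t‖ : ℝ) : ℂ) = ((-P.ka t * (2 * Real.pi *
      (Real.Gamma (2 - P.al t - P.be t) /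
      ((1 - P.al t) * Real.Gamma (1 - P.al t) * Real.Gamma (1 - P.be t)))) : ℝ) : ℂ) := by
    rw [key]
  rw [Complex.ofReal_mul, Complex.ofReal_mul, Complex.ofReal_mul (-P.ka t), Complex.ofReal_neg] at key'
  linear_combination (-I) * key'

theorem ga_alg (t : ℕ) : IsAlgebraic ℚ (P.ga t) := by
  unfold ga al be
  have h1 := leg_sin_alg (P.a * t % P.D) P.D
  have h2 := leg_sin_alg (P.b * t % P.D) P.D
  have h3 := leg_sin_alg t P.D
  rw [← mul_div_assoc] at h3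
  have h4 : IsAlgebraic ℚ (4 : ℝ) := by simpa using leg_nat_alg 4
  have h5 := leg_nat_alg P.D
  have h6 := (h4.mul h5.inv).mul ((h1.mul h2).mul h3.inv)
  simpa only [div_eq_mul_inv] using h6

/-- the period is an algebraic multiple of a Beta value -/
theorem norm_Pe {t : ℕ} (h : t ∈ P.Phi) : ‖P.Pe t‖ =
    2 * Real.sin (Real.pi * P.al t) * Real.sin (Real.pi * P.be t) / Real.sin (Real.pi * t / P.D) *
      (Real.Gamma (1 - P.al t) * Real.Gamma (1 - P.be t) / Real.Gamma (2 - P.al t - P.be t)) := by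
  obtain ⟨⟨a0, a1⟩, ⟨b0, b1⟩, ⟨t0, t1⟩, e⟩ := P.leg_arg h
  obtain ⟨r1, r2, r3⟩ := P.leg_refl h
  have s1 := leg_sin a0 a1
  have s2 := leg_sin b0 b1
  have s3 := leg_sin t0 t1
  rw [← mul_div_assoc] at s3
  have g1 := Real.Gamma_pos_of_pos a0
  have g2 := Real.Gamma_pos_of_pos b0
  have g3 : 0 < Real.Gamma (1 - P.al t) := Real.Gamma_pos_of_pos (by linarith)
  have g4 : 0 < Real.Gamma (1 - P.be t) := Real.Gamma_pos_of_pos (by linarith)
  have g5 : 0 < Real.Gamma (P.al t + P.be t - 1) := Real.Gamma_pos_of_pos (by rw [e]; linarith)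
  have g6 : 0 < Real.Gamma (2 - P.al t - P.be t) := Real.Gamma_pos_of_pos (by linarith)
  have hpi := Real.pi_pos
  rw [P.leg_norm h]
  generalize Real.Gamma (1 - P.al t) = G3 at *
  generalize Real.Gamma (1 - P.be t) = G4 at *
  generalize Real.Gamma (P.al t + P.be t - 1) = G5 at *
  generalize Real.Gamma (2 - P.al t - P.be t) = G6 at *
  generalize Real.Gamma (P.al t) = G1 at *
  generalize Real.Gamma (P.be t) = G2 at *
  generalize Real.sin (Real.pi * P.al t) = S1 at *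
  generalize Real.sin (Real.pi * P.be t) = S2 at *
  generalize Real.sin (Real.pi * t / P.D) = S3 at *
  generalize Real.pi = p at *
  have hG : S1 * S2 * (G1 * G2 * G3 * G4) = p ^ 2 := by
    calc S1 * S2 * (G1 * G2 * G3 * G4) = (G1 * G3 * S1) * (G2 * G4 * S2) := by ring
      _ = p ^ 2 := by rw [r1, r2]; ring
  have : S1 * S2 * (G1 * G2 * G3 * G4) = p * (G5 * G6 * S3) := by rw [hG, r3]; ring
  field_simp
  nlinarith [this]

theorem alg_factor {t : ℕ} (h : t ∈ P.Phi) :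
    IsAlgebraic ℚ (2 * Real.sin (Real.pi * P.al t) * Real.sin (Real.pi * P.be t) /
      Real.sin (Real.pi * t / P.D)) ∧
    0 < 2 * Real.sin (Real.pi * P.al t) * Real.sin (Real.pi * P.be t) /
      Real.sin (Real.pi * t / P.D) := by
  obtain ⟨⟨a0, a1⟩, ⟨b0, b1⟩, ⟨t0, t1⟩, e⟩ := P.leg_arg h
  have s1 := leg_sin a0 a1
  have s2 := leg_sin b0 b1
  have s3 := leg_sin t0 t1
  rw [← mul_div_assoc] at s3
  refine ⟨?_, by positivity⟩
  unfold al be
  have h1 := leg_sin_alg (P.a * t % P.D) P.D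
  have h2 := leg_sin_alg (P.b * t % P.D) P.D
  have h3 := leg_sin_alg t P.D
  rw [← mul_div_assoc] at h3
  have h4 : IsAlgebraic ℚ (2 : ℝ) := by simpa using leg_nat_alg 2
  have h6 := ((h4.mul h1).mul h2).mul h3.inv
  simpa only [div_eq_mul_inv] using h6

end

end Pool.Agent.RHT.Par
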