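import Pool.Agent.RHT.Cur
import Pool.Agent.RHT.Leg

/-!
# Project RHT: definitions for sections 3 - 6 (zeros, explicit formula, Hessian)
-/

set_option autoImplicit false

namespace Pool.Agent.RHT

open Complex ComplexConjugate Finset

noncomputable section

/-- the canonical chart of a point of the curve -/
def cs (z : ℂ × ℂ) : Bool := if 0 ≤ z.1.im then false else true

namespace Par

variable (P : Par)

/-- the canonical sheet of a point of the curve -/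
def ks (z : ℂ × ℂ) : ℕ := sInf {k : ℕ | z = P.pt (cs z) k z.1}

/-- a representative of the Abel map -/
def Cz (z : ℂ × ℂ) : P.V := P.Cv (cs z) (P.ks z) z.1

/-- the numerators of the kernel -/
def Nn (s : ℕ) (x x' : ℂ) : ℂ :=
  if s = 0 then 1 else if s ∈ P.Phi then x * (1 - x) / (x' * (1 - x'))
    else if P.be s ≠ 0 then (1 - x) / (1 - x') else x / x'

/-- the kernel -/
def KK (z z' : ℂ × ℂ) : ℂ :=
  1 / P.D * ∑ s ∈ range P.D, P.F s z * P.Nn s z.1 z'.1 / (P.F s z' * (z.1 - z'.1))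

variable {P}

namespace Th

variable (θ : P.Th)

/-- logarithmic derivatives -/
def L (t : P.Ix) (v : P.V) : ℂ := fderiv ℂ θ.T v (Pi.single t 1) / θ.T v

/-- second logarithmic derivatives, with sign -/
def PP (s t : P.Ix) (v : P.V) : ℂ := -(fderiv ℂ (θ.L t) v (Pi.single s 1))

/-- admissible translations -/
def Adm (u : P.V) : Prop :=
  θ.T u ≠ 0 ∧ ∀ (c : Bool) (k : ℤ), θ.T (P.C0 c k + u) ≠ 0 ∧ θ.T (P.C1 c k + u) ≠ 0

/-- the zeros of `T(C(z) + u)` on the curve -/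
def Z (u : P.V) : Set (ℂ × ℂ) := {z | z ∈ P.Cs ∧ θ.T (P.Cz z + u) = 0}

/-- multiplicity of a zero -/
def mult (u : P.V) (z : ℂ × ℂ) : ℕ :=
  analyticOrderNatAt (fun x => θ.T (P.Cv (cs z) (P.ks z) x + u)) z.1

/-- the single valued functions `L_t(C(z)+u) - κ_t J_t(z)` -/
def ell (u : P.V) (t : P.Ix) (z : ℂ × ℂ) : ℂ :=
  θ.L t (P.Cz z + u) - P.ka t * P.Jv (cs z) (P.ks z) z.1 t

end Th

/-- Theorem Z: an open set of tuples of points which are the zeros of `T(C(z)+u)` -/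
structure ZD (θ : P.Th) where
  c : P.Ix → Bool
  k : P.Ix → ℤ
  U : Set (P.Ix → ℂ)
  hU : IsOpen U
  hne : U.Nonempty
  kap : P.V
  om : ∀ x ∈ U, ∀ i, x i ∈ Om (c i)
  adm : ∀ x ∈ U, θ.Adm (kap - ∑ i, P.Cv (c i) (k i) (x i))
  inj : ∀ x ∈ U, Function.Injective fun i => P.pt (c i) (k i) (x i)
  zer : ∀ x ∈ U, θ.Z (kap - ∑ i, P.Cv (c i) (k i) (x i)) =
    Set.range fun i => P.pt (c i) (k i) (x i)

namespace ZD

variable {θ : P.Th} (z : P.ZD θ)

/-- the point `q_i` -/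
def q (x : P.Ix → ℂ) (i : P.Ix) : ℂ × ℂ := P.pt (z.c i) (z.k i) (x i)

/-- the translation `u = κ - ∑ C(q_i)` -/
def u (x : P.Ix → ℂ) : P.V := z.kap - ∑ i, P.Cv (z.c i) (z.k i) (x i)

/-- the matrix `F_s(q_i)` -/
def W (x : P.Ix → ℂ) : Matrix P.Ix P.Ix ℂ := Matrix.of fun s i => P.F s (z.q x i)

/-- the residues, the inverse matrix -/
def rho (x : P.Ix → ℂ) (i t : P.Ix) : ℂ := (z.W x)⁻¹ i t

/-- the explicit function `M_t(z, q)`, for a point `y` on the sheet `k'` of the chart `c'` -/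
def M (c' : Bool) (k' : ℤ) (t : P.Ix) (y : ℂ) (x : P.Ix → ℂ) : ℂ :=
  P.ka t * P.Jv c' k' y t + ∑ i, z.rho x i t * P.KK (P.pt c' k' y) (z.q x i)

/-- the point `v = C(z) + κ - ∑ C(q_i)` -/
def v (c' : Bool) (k' : ℤ) (y : ℂ) (x : P.Ix → ℂ) : P.V := P.Cv c' k' y + z.u x

end ZD

end Par

end

end Pool.Agent.RHT
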