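import Pool.Agent.RHT.NFDefs

/-!
RHT-NFb. The germs `NF x0` are holomorphic and closed under partial derivatives.
-/

set_option autoImplicit false

namespace Pool.Agent.RHT

open Complex Finset Filter Topology MvPolynomial

noncomputable section

variable {ι : Type} [Fintype ι] [DecidableEq ι] {x0 : ι → ℂ}

private theorem nfb_fderiv {κ : Type} [Fintype κ] (R : MvPolynomial κ (algebraicClosure ℚ ℂ))
    (g : κ → (ι → ℂ) → ℂ) (x : ι → ℂ) (hg : ∀ k, DifferentiableAt ℂ (g k) x) :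
    ∃ L : (ι → ℂ) →L[ℂ] ℂ, HasFDerivAt (fun y => (aeval (fun k => g k y) R : ℂ)) L x ∧
      ∀ v, L v = ∑ k, (aeval (fun k => g k x) (pderiv k R) : ℂ) * fderiv ℂ (g k) x v := by
  classical
  induction R using MvPolynomial.induction_on with
  | C a =>
    have h1 : (fun y => (aeval (fun k => g k y) (C a : MvPolynomial κ (algebraicClosure ℚ ℂ)) : ℂ)) =
        fun _ => (algebraMap (algebraicClosure ℚ ℂ) ℂ a) := by
      funext y
      exact aeval_C _ _
    rw [h1]
    refine ⟨0, hasFDerivAt_const _ _, fun v => ?_⟩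
    symm
    refine Finset.sum_eq_zero fun k _ => ?_
    rw [pderiv_C, map_zero, zero_mul]
  | add p q hp hq =>
    obtain ⟨L1, hp1, hp2⟩ := hp
    obtain ⟨L2, hq1, hq2⟩ := hq
    have h1 : (fun y => (aeval (fun k => g k y) (p + q) : ℂ)) =
        fun y => aeval (fun k => g k y) p + aeval (fun k => g k y) q := by
      funext y
      exact map_add _ _ _
    rw [h1]
    refine ⟨L1 + L2, hp1.fun_add hq1, fun v => ?_⟩
    show L1 v + L2 v = _
    rw [hp2, hq2, ← Finset.sum_add_distrib]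
    refine Finset.sum_congr rfl fun k _ => ?_
    rw [map_add, map_add, add_mul]
  | mul_X p n hp =>
    obtain ⟨L1, hp1, hp2⟩ := hp
    have h1 : (fun y => (aeval (fun k => g k y) (p * X n) : ℂ)) =
        fun y => aeval (fun k => g k y) p * g n y := by
      funext y
      rw [map_mul, aeval_X]
    rw [h1]
    refine ⟨_, hp1.fun_mul (hg n).hasFDerivAt, fun v => ?_⟩
    show (aeval (fun k => g k x) p : ℂ) * fderiv ℂ (g n) x v + g n x * L1 v = _
    have h2 : ∀ k, (aeval (fun k => g k x) (pderiv k (p * X n)) : ℂ) * fderiv ℂ (g k) x v =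
        (if k = n then (aeval (fun k => g k x) p : ℂ) * fderiv ℂ (g k) x v else 0) +
          g n x * ((aeval (fun k => g k x) (pderiv k p) : ℂ) * fderiv ℂ (g k) x v) := by
      intro k
      rw [Derivation.leibniz, pderiv_X, map_add, add_mul, smul_eq_mul, smul_eq_mul, map_mul, map_mul,
        aeval_X, mul_assoc, mul_assoc]
      congr 1
      by_cases hk : k = n
      · subst hk
        rw [Pi.single_eq_same, map_one, one_mul, if_pos rfl]
      · rw [Pi.single_eq_of_ne (Ne.symm hk), map_zero, zero_mul, mul_zero, if_neg hk]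
    rw [Finset.sum_congr rfl fun k _ => h2 k, Finset.sum_add_distrib, Finset.sum_ite_eq',
      if_pos (Finset.mem_univ _), hp2, Finset.mul_sum]

private theorem nfb_loc {G : GS ι x0} {f : (ι → ℂ) → ℂ} (h : G.Mem f) :
    ∃ R : MvPolynomial G.κ (algebraicClosure ℚ ℂ), ∀ᶠ x in 𝓝 x0,
      (∀ k, DifferentiableAt ℂ (G.g k) x) ∧ f =ᶠ[𝓝 x] fun y => aeval (fun k => G.g k y) R := by
  have := G.fκ
  obtain ⟨R, hR⟩ := h
  exact ⟨R, (Filter.eventually_all.2 G.hol).and hR.eventually_nhds⟩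

theorem aeval_pd {κ : Type} [Fintype κ] (R : MvPolynomial κ (algebraicClosure ℚ ℂ))
    (g : κ → (ι → ℂ) → ℂ) (x : ι → ℂ) (hg : ∀ k, DifferentiableAt ℂ (g k) x) (j : ι) :
    DifferentiableAt ℂ (fun x => aeval (fun k => g k x) R) x ∧
    pd j (fun x => (aeval (fun k => g k x) R : ℂ)) x =
      ∑ k, aeval (fun k => g k x) (pderiv k R) * pd j (g k) x := by
  obtain ⟨L, h1, h2⟩ := nfb_fderiv R g x hg
  refine ⟨h1.differentiableAt, ?_⟩
  rw [pd, h1.fderiv, h2]
  rfl

theorem GS.Mem.hol {G : GS ι x0} {f : (ι → ℂ) → ℂ} (h : G.Mem f) :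
    ∀ᶠ x in 𝓝 x0, DifferentiableAt ℂ f x := by
  have := G.fκ
  obtain ⟨R, hR⟩ := nfb_loc h
  filter_upwards [hR] with x hx
  obtain ⟨L, h1, -⟩ := nfb_fderiv R G.g x hx.1
  exact h1.differentiableAt.congr_of_eventuallyEq hx.2

theorem GS.Mem.der {G : GS ι x0} {f : (ι → ℂ) → ℂ} (h : G.Mem f) (j : ι) : G.Mem (pd j f) := by
  let := G.fκ
  obtain ⟨R, hR⟩ := nfb_loc h
  refine ⟨∑ k, pderiv k R * G.Q k j, ?_⟩
  filter_upwards [hR, Filter.eventually_all.2 fun k => G.der k j] with x hx hd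
  have h1 : pd j f x = pd j (fun y => (aeval (fun k => G.g k y) R : ℂ)) x := by
    rw [pd, pd, hx.2.fderiv_eq]
  rw [h1, (aeval_pd R G.g x hx.1 j).2, map_sum]
  refine Finset.sum_congr rfl fun k _ => ?_
  rw [hd k, map_mul]

theorem NF.hol {f : (ι → ℂ) → ℂ} (h : NF x0 f) : ∀ᶠ x in 𝓝 x0, DifferentiableAt ℂ f x := by
  obtain ⟨G, hG⟩ := h
  exact hG.hol

theorem NF.der {f : (ι → ℂ) → ℂ} (h : NF x0 f) (j : ι) : NF x0 (pd j f) := by
  obtain ⟨G, hG⟩ := h
  exact ⟨G, hG.der j⟩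

end

end Pool.Agent.RHT
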