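import Pool.Agent.RHT.NFa
import Pool.Agent.RHT.NFb

/-!
RHT-NFc. Solutions of differential equations, inverses, compositions. Plan.
`NF_ode`: `NF_family` for the finitely many germs `A j, B j, C j` gives `G`; new system: index
`Option G.κ`, `g none = h`, `g (some k) = G.g k`, `Q (some k) j = rename some (G.Q k j)`,
`Q none j = rename some RA * X none + rename some RB * X none ^ 2 + rename some RC`.
`NF_inv`: `h = 1/f`, `pd j h = - (pd j f) h ^ 2` near `x0` (`f ≠ 0` near `x0`, `NF.hol`),
`B = - pd j f` (`NF.der`), value at `x0`: `IsAlgebraic.inv`.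
`NF_comp`: `NF_family` at `φ x0` for `f` and all `R i j` (index `Option (ι' × ι)`) gives `G`; new system:
`κ = G.κ`, `g k = G.g k ∘ φ`, `Q k j = ∑ i, G.Q k i * Rij`
(chain rule: `pd j (h ∘ φ) x = ∑ i, pd i h (φ x) * pd j (φ · i) x`; `φ` is continuous at `x0`, so
everything eventual at `φ x0` is eventual at `x0`).
-/

set_option autoImplicit false

namespace Pool.Agent.RHT

open Complex Finset Filter Topology MvPolynomial

noncomputable section

variable {ι : Type} [Fintype ι] [DecidableEq ι] {x0 : ι → ℂ}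

theorem NF_ode (h : (ι → ℂ) → ℂ) (hol : ∀ᶠ x in 𝓝 x0, DifferentiableAt ℂ h x)
    (alg : IsAlgebraic ℚ (h x0)) (A B C : ι → (ι → ℂ) → ℂ) (hA : ∀ j, NF x0 (A j))
    (hB : ∀ j, NF x0 (B j)) (hC : ∀ j, NF x0 (C j))
    (der : ∀ j, ∀ᶠ x in 𝓝 x0, pd j h x = A j x * h x + B j x * h x ^ 2 + C j x) : NF x0 h := by
  obtain ⟨G, hG⟩ := NF_family (ε := ι ⊕ ι ⊕ ι) (Sum.elim A (Sum.elim B C)) (by
    rintro (j | j | j)
    · exact hA j
    · exact hB j
    · exact hC j)
  haveI := G.fκ
  choose RA hRA using fun j => hG (Sum.inl j)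
  choose RB hRB using fun j => hG (Sum.inr (Sum.inl j))
  choose RC hRC using fun j => hG (Sum.inr (Sum.inr j))
  simp only [Sum.elim_inl, Sum.elim_inr] at hRA hRB hRC
  let G' : GS ι x0 :=
    { κ := Option G.κ
      fκ := inferInstance
      g := fun o => Option.elim o h G.g
      hol := by
        rintro (_ | k)
        · exact hol
        · exact G.hol k
      alg := by
        rintro (_ | k)
        · exact alg
        · exact G.alg k
      Q := fun o j => Option.elim o (rename some (RA j) * X none + rename some (RB j) * X none ^ 2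
        + rename some (RC j)) (fun k => rename some (G.Q k j))
      der := by
        rintro (_ | k) j
        · filter_upwards [der j, hRA j, hRB j, hRC j] with x h1 h2 h3 h4
          simp only [Option.elim_none, map_add, map_mul, map_pow, aeval_rename, aeval_X]
          rw [h1, h2, h3, h4]
          rfl
        · filter_upwards [G.der k j] with x hx
          simp only [Option.elim_some, aeval_rename]
          rw [hx]
          rfl }
  exact ⟨G', X none, Filter.Eventually.of_forall fun x => by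
    rw [aeval_X]
    rfl⟩

theorem NF_inv {f : (ι → ℂ) → ℂ} (hf : NF x0 f) (h0 : f x0 ≠ 0) : NF x0 (fun x => (f x)⁻¹) := by
  have hd := hf.hol
  have hne : ∀ᶠ x in 𝓝 x0, f x ≠ 0 :=
    (hd.self_of_nhds.continuousAt).eventually_ne h0
  have key : ∀ x, DifferentiableAt ℂ f x → f x ≠ 0 →
      HasFDerivAt (fun x => (f x)⁻¹) ((-(f x ^ 2)⁻¹) • fderiv ℂ f x) x := fun x h1 h2 =>
    (hasDerivAt_inv h2).comp_hasFDerivAt x h1.hasFDerivAt
  refine NF_ode _ ?_ ?_ (fun _ _ => 0) (fun j x => - pd j f x) (fun _ _ => 0)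
    (fun _ => NF_const isAlgebraic_zero) (fun j => (hf.der j).neg)
    (fun _ => NF_const isAlgebraic_zero) ?_
  · filter_upwards [hd, hne] with x h1 h2
    exact (key x h1 h2).differentiableAt
  · exact hf.alg.inv
  · intro j
    filter_upwards [hd, hne] with x h1 h2
    unfold pd
    rw [(key x h1 h2).fderiv]
    simp only [ContinuousLinearMap.smul_apply, smul_eq_mul]
    field_simp
    ring

theorem NF_div {f g : (ι → ℂ) → ℂ} (hf : NF x0 f) (hg : NF x0 g) (h0 : g x0 ≠ 0) :
    NF x0 (fun x => f x / g x) := by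
  have := hf.mul (NF_inv hg h0)
  refine this.congr (Filter.Eventually.of_forall fun x => ?_)
  rw [div_eq_mul_inv]

/-- chain rule -/
theorem pd_comp {ι' : Type} [Fintype ι'] [DecidableEq ι'] (φ : (ι → ℂ) → (ι' → ℂ)) (x : ι → ℂ)
    (hφ : DifferentiableAt ℂ φ x) (f : (ι' → ℂ) → ℂ) (hf : DifferentiableAt ℂ f (φ x)) (j : ι) :
    pd j (fun x => f (φ x)) x = ∑ i, pd i f (φ x) * pd j (fun x => φ x i) x := by
  have h1 : HasFDerivAt (fun x => f (φ x)) ((fderiv ℂ f (φ x)).comp (fderiv ℂ φ x)) x :=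
    hf.hasFDerivAt.comp x hφ.hasFDerivAt
  have h2 : ∀ i, HasFDerivAt (fun x => φ x i)
      ((ContinuousLinearMap.proj i).comp (fderiv ℂ φ x)) x := fun i =>
    ((ContinuousLinearMap.proj (R := ℂ) (φ := fun _ : ι' => ℂ) i).hasFDerivAt).comp x hφ.hasFDerivAt
  unfold pd
  rw [h1.fderiv, ContinuousLinearMap.comp_apply]
  have h3 : ∀ v : ι' → ℂ, fderiv ℂ f (φ x) v = ∑ i, fderiv ℂ f (φ x) (Pi.single i 1) * v i := by
    intro v
    conv_lhs => rw [pi_eq_sum_univ' v]
    rw [map_sum]
    refine Finset.sum_congr rfl fun i _ => ?_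
    rw [map_smul, smul_eq_mul, mul_comm]
  rw [h3]
  refine Finset.sum_congr rfl fun i _ => ?_
  rw [(h2 i).fderiv]
  rfl

theorem NF_comp {ι' : Type} [Fintype ι'] [DecidableEq ι'] (φ : (ι → ℂ) → (ι' → ℂ))
    (hφ : ∀ᶠ x in 𝓝 x0, DifferentiableAt ℂ φ x) (R : ι' → ι → (ι' → ℂ) → ℂ)
    (hR : ∀ i j, NF (φ x0) (R i j))
    (der : ∀ i j, ∀ᶠ x in 𝓝 x0, pd j (fun x => φ x i) x = R i j (φ x))
    {f : (ι' → ℂ) → ℂ} (hf : NF (φ x0) f) : NF x0 (fun x => f (φ x)) := by
  obtain ⟨G, hG⟩ := NF_family (ε := Option (ι' × ι))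
    (fun o => Option.elim o f (fun p => R p.1 p.2)) (by
      rintro (_ | p)
      · exact hf
      · exact hR p.1 p.2)
  haveI := G.fκ
  obtain ⟨Rf, hRf⟩ := hG none
  choose RR hRR using fun (i : ι') (j : ι) => hG (some (i, j))
  simp only [Option.elim_none] at hRf
  simp only [Option.elim_some] at hRR
  have hcont : Tendsto φ (𝓝 x0) (𝓝 (φ x0)) := hφ.self_of_nhds.continuousAt
  let G' : GS ι x0 :=
    { κ := G.κ
      fκ := G.fκ
      g := fun k x => G.g k (φ x)
      hol := by
        intro k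
        filter_upwards [hφ, hcont.eventually (G.hol k)] with x h1 h2
        exact h2.comp x h1
      alg := G.alg
      Q := fun k j => ∑ i, G.Q k i * RR i j
      der := by
        intro k j
        have e1 : ∀ᶠ x in 𝓝 x0, ∀ i, pd i (G.g k) (φ x) = aeval (fun k => G.g k (φ x)) (G.Q k i) :=
          Filter.eventually_all.2 fun i => hcont.eventually (G.der k i)
        have e2 : ∀ᶠ x in 𝓝 x0, ∀ i, R i j (φ x) = aeval (fun k => G.g k (φ x)) (RR i j) :=
          Filter.eventually_all.2 fun i => hcont.eventually (hRR i j)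
        have e3 : ∀ᶠ x in 𝓝 x0, ∀ i, pd j (fun x => φ x i) x = R i j (φ x) :=
          Filter.eventually_all.2 fun i => der i j
        filter_upwards [hφ, hcont.eventually (G.hol k), e1, e2, e3] with x h1 h2 h3 h4 h5
        rw [pd_comp φ x h1 (G.g k) h2 j, map_sum]
        refine Finset.sum_congr rfl fun i _ => ?_
        rw [map_mul, h3 i, h5 i, h4 i] }
  refine ⟨G', Rf, ?_⟩
  exact hcont.eventually hRf

end

end Pool.Agent.RHT
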