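import Pool.Agent.RHT.SDefs
import Pool.Agent.RHT.NFc

/-!
RHT-EEm. The coordinate embedding `EE` with algebraic scaling. The map is linear;
`NF_EE` is `NF_comp`.
-/

set_option autoImplicit false

namespace Pool.Agent.RHT

open Complex ComplexConjugate Finset MvPolynomial

noncomputable section

variable {ι ι' : Type} [Fintype ι] [DecidableEq ι] [Fintype ι'] [DecidableEq ι']

theorem EE_apply (τ : ι' → ι) (hτ : Function.Injective τ) (a : ι' → ℂ) (X : ι' → ℂ) (i : ι') :
    EE τ a X (τ i) = a i * X i := by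
  unfold EE
  rw [Finset.sum_eq_single i]
  · rw [if_pos rfl]
  · intro j _ hj
    rw [if_neg fun h => hj (hτ h)]
  · intro h
    exact absurd (Finset.mem_univ i) h

theorem EE_ne (τ : ι' → ι) (a : ι' → ℂ) (X : ι' → ℂ) {t : ι} (ht : ∀ i, τ i ≠ t) :
    EE τ a X t = 0 := by
  exact Finset.sum_eq_zero fun i _ => if_neg (ht i)

theorem EE_diff (τ : ι' → ι) (a : ι' → ℂ) : Differentiable ℂ (EE τ a) := by
  refine differentiable_pi.2 fun t => ?_
  have h1 : ∀ i : ι', Differentiable ℂ (fun X : ι' → ℂ => if τ i = t then a i * X i else 0) := by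
    intro i
    by_cases h : τ i = t
    · simp only [if_pos h]
      fun_prop
    · simp only [if_neg h]
      fun_prop
  exact Differentiable.fun_sum fun i _ => h1 i

private theorem EEm_pd (τ : ι' → ι) (a : ι' → ℂ) (x : ι' → ℂ) (t : ι) (j : ι') :
    pd j (fun X => EE τ a X t) x = if τ j = t then a j else 0 := by
  obtain ⟨b, hb⟩ : ∃ b : ι' → ℂ, b = fun i => if τ i = t then a i else 0 := ⟨_, rfl⟩
  have h1 : ∀ i : ι', HasFDerivAt (fun X : ι' → ℂ => if τ i = t then a i * X i else 0)
      (b i • (ContinuousLinearMap.proj (R := ℂ) (φ := fun _ : ι' => ℂ) i)) x := by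
    intro i
    have h2 : HasFDerivAt (fun X : ι' → ℂ => X i)
        (ContinuousLinearMap.proj (R := ℂ) (φ := fun _ : ι' => ℂ) i) x :=
      (ContinuousLinearMap.proj (R := ℂ) (φ := fun _ : ι' => ℂ) i).hasFDerivAt
    have h4 : (fun X : ι' → ℂ => if τ i = t then a i * X i else 0) = fun X => b i * X i := by
      funext X
      rw [hb]
      by_cases h : τ i = t
      · rw [if_pos h]
        simp [h]
      · rw [if_neg h]
        simp [h]
    rw [h4]
    exact h2.const_mul (b i)
  have h3 : HasFDerivAt (fun X : ι' → ℂ => EE τ a X t)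
      (∑ i, b i • (ContinuousLinearMap.proj (R := ℂ) (φ := fun _ : ι' => ℂ) i)) x :=
    HasFDerivAt.fun_sum (u := Finset.univ) fun i _ => h1 i
  have h5 : (if τ j = t then a j else 0) = b j := by rw [hb]
  unfold pd
  rw [h3.fderiv, _root_.sum_apply, Finset.sum_eq_single j, h5]
  · simp
  · intro i _ hij
    simp [Pi.single_eq_of_ne hij]
  · intro h
    exact absurd (Finset.mem_univ j) h

theorem NF_EE {S : (ι → ℂ) → ℂ} (hS : NF 0 S) (τ : ι' → ι) (a : ι' → ℂ)
    (ha : ∀ i, IsAlgebraic ℚ (a i)) : NF 0 (fun X => S (EE τ a X)) := by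
  have h0 : EE τ a 0 = (0 : ι → ℂ) := by
    funext t
    exact Finset.sum_eq_zero fun i _ => by simp
  refine NF_comp (EE τ a) (Filter.Eventually.of_forall fun x => EE_diff τ a x)
    (fun t i _ => if τ i = t then a i else 0) (fun t i => NF_const ?_)
    (fun t i => Filter.Eventually.of_forall fun x => EEm_pd τ a x t i) (by rw [h0]; exact hS)
  by_cases h : τ i = t
  · rw [if_pos h]
    exact ha i
  · rw [if_neg h]
    exact isAlgebraic_zero

end

end Pool.Agent.RHT
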