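import Pool.Agent.RHT.AdmD

/-!
RHT-Ends. Behaviour of `∑_k F_s ell_t` at `0`, `1`, `∞`.
-/

set_option autoImplicit false

namespace Pool.Agent.RHT.Par

open Complex ComplexConjugate Finset Filter Topology

noncomputable section

variable {P : Par} (θ : P.Th)

omit θ in
private theorem ends_sum (s t : P.Ix) {c : Bool} {x : ℂ} (hx : x ∈ Om c) :
    ∑ k ∈ range P.D, P.F s (P.pt c k x) * P.Jv c k x t =
      (if s = t then (P.D : ℂ) else 0) *
        (pw c (P.al s) (P.be s) x * Iv c (2 - P.al t) (1 - P.be t) x) := by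
  have e : ∀ k ∈ range P.D, P.F s (P.pt c k x) * P.Jv c k x t =
      P.ze ^ ((k : ℤ) * (((t : ℕ) : ℤ) - ((s : ℕ) : ℤ))) *
        (pw c (P.al s) (P.be s) x * Iv c (2 - P.al t) (1 - P.be t) x) := by
    intro k _
    rw [P.F_pt s k hx]
    unfold Jv
    have e1 : (k : ℤ) * (((t : ℕ) : ℤ) - ((s : ℕ) : ℤ)) =
        -((k : ℤ) * ((s : ℕ) : ℤ)) + (k : ℤ) * ((t : ℕ) : ℤ) := by ring
    rw [e1, zpow_add₀ P.ze_ne]
    ring
  rw [sum_congr rfl e, ← sum_mul, P.sum_ze]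
  congr 1
  have hs := P.Phi_pos s.2
  have ht := P.Phi_pos t.2
  by_cases h : s = t
  · rw [if_pos h, if_pos]
    rw [h, sub_self]
    exact dvd_zero _
  · rw [if_neg h, if_neg]
    intro hd
    apply h
    have h1 : ((t : ℕ) : ℤ) - ((s : ℕ) : ℤ) = 0 := by
      apply Int.eq_zero_of_abs_lt_dvd hd
      rw [abs_lt]
      constructor <;> omega
    apply Subtype.ext
    omega

private theorem ends_main {u : P.V} (h : θ.Adm u) (s t : P.Ix) (c : Bool) {l : Filter ℂ}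
    {m : ℂ → ℂ} {w : ℂ}
    (h1 : ∀ r : ℝ, 0 < r → ∀ᶠ x in l, x ∈ Hc c ∧ x ≠ 0 ∧ x ≠ 1 ∧
      (‖x‖ < r ∨ ‖x - 1‖ < r ∨ r⁻¹ < ‖x‖))
    (h2 : Tendsto (fun x => m x * pw c (P.al s) (P.be s) x) l (𝓝 0))
    (h3 : s = t → Tendsto (fun x => m x * (pw c (P.al t) (P.be t) x *
      Iv c (2 - P.al t) (1 - P.be t) x)) l (𝓝 w)) :
    Tendsto (fun x => m x * ∑ k ∈ range P.D, P.F s (P.pt c k x) * θ.ell u t (P.pt c k x)) l
      (𝓝 (if s = t then -(P.ka t * (P.D * w)) else 0)) := by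
  obtain ⟨M, r, N, hN, hr, hb⟩ := end_bound θ h
  have huN : u ∈ N := mem_of_mem_nhds hN
  have hA : ∀ k : ℕ, Tendsto (fun x => m x * pw c (P.al s) (P.be s) x *
      (P.ze ^ (-((k : ℤ) * ((s : ℕ) : ℤ))) * θ.L t (P.Cv c k x + u))) l (𝓝 0) := by
    intro k
    have h4 : Tendsto (fun x => ‖m x * pw c (P.al s) (P.be s) x‖ * M) l (𝓝 0) := by
      have := (tendsto_zero_iff_norm_tendsto_zero.1 h2).mul_const M
      rwa [zero_mul] at this
    refine squeeze_zero_norm' ?_ h4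
    filter_upwards [h1 r hr] with x hx
    obtain ⟨hx1, hx2, hx3, hx4⟩ := hx
    rw [norm_mul, norm_mul (P.ze ^ _), P.norm_ze_zpow, one_mul]
    exact mul_le_mul_of_nonneg_left ((hb u huN c k x hx1 hx2 hx3 hx4).2 t) (norm_nonneg _)
  have hB : Tendsto (fun x => P.ka t * ((if s = t then (P.D : ℂ) else 0) *
      (m x * (pw c (P.al s) (P.be s) x * Iv c (2 - P.al t) (1 - P.be t) x)))) l
      (𝓝 (if s = t then P.ka t * (P.D * w) else 0)) := by
    by_cases hst : s = t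
    · simp only [if_pos hst]
      refine Tendsto.const_mul _ (Tendsto.const_mul _ ?_)
      rw [hst]
      exact h3 hst
    · simp only [if_neg hst, zero_mul, mul_zero]
      exact tendsto_const_nhds
  have hC := (tendsto_finsetSum (range P.D) (fun k _ => hA k)).sub hB
  rw [sum_const_zero, zero_sub] at hC
  have hD : -(if s = t then (P.ka t : ℂ) * (P.D * w) else 0) =
      if s = t then -(P.ka t * (P.D * w)) else 0 := by
    split_ifs
    · rfl
    · exact neg_zero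
  rw [hD] at hC
  refine hC.congr' ?_
  filter_upwards [h1 r hr] with x hx
  obtain ⟨hx1, hx2, hx3, hx4⟩ := hx
  have hO := Om_of_Hc hx1 hx2 hx3
  have e : ∀ k ∈ range P.D, P.F s (P.pt c k x) * θ.ell u t (P.pt c k x) =
      pw c (P.al s) (P.be s) x * (P.ze ^ (-((k : ℤ) * ((s : ℕ) : ℤ))) *
        θ.L t (P.Cv c k x + u)) - P.ka t * (P.F s (P.pt c k x) * P.Jv c k x t) := by
    intro k _
    rw [ell_pt θ u t k hO (hb u huN c k x hx1 hx2 hx3 hx4).1, P.F_pt s k hO]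
    ring
  rw [sum_congr rfl e, sum_sub_distrib, ← mul_sum, ← mul_sum, ← mul_sum, ends_sum s t hO]
  ring

private theorem ends_ne0 {c : Bool} (r : ℝ) (hr : 0 < r) : ∀ᶠ x in 𝓝[Hc c \ {0}] (0 : ℂ),
    x ∈ Hc c ∧ x ≠ 0 ∧ x ≠ 1 ∧ (‖x‖ < r ∨ ‖x - 1‖ < r ∨ r⁻¹ < ‖x‖) := by
  have h1 : ∀ᶠ x in 𝓝[Hc c \ {0}] (0 : ℂ), ‖x‖ < min r 1 := by
    refine mem_nhdsWithin_of_mem_nhds ?_
    filter_upwards [Metric.ball_mem_nhds (0 : ℂ) (show 0 < min r 1 by positivity)] with x hx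
    rwa [mem_ball_zero_iff] at hx
  filter_upwards [self_mem_nhdsWithin, h1] with x hx hx1
  refine ⟨hx.1, hx.2, ?_, Or.inl (hx1.trans_le (min_le_left _ _))⟩
  intro h
  rw [h, norm_one] at hx1
  exact absurd (hx1.trans_le (min_le_right _ _)) (lt_irrefl 1)

private theorem ends_ne1 {c : Bool} (r : ℝ) (hr : 0 < r) : ∀ᶠ x in 𝓝[Hc c \ {1}] (1 : ℂ),
    x ∈ Hc c ∧ x ≠ 0 ∧ x ≠ 1 ∧ (‖x‖ < r ∨ ‖x - 1‖ < r ∨ r⁻¹ < ‖x‖) := by
  have h1 : ∀ᶠ x in 𝓝[Hc c \ {1}] (1 : ℂ), ‖x - 1‖ < min r 1 := by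
    refine mem_nhdsWithin_of_mem_nhds ?_
    filter_upwards [Metric.ball_mem_nhds (1 : ℂ) (show 0 < min r 1 by positivity)] with x hx
    rwa [Metric.mem_ball, dist_eq_norm] at hx
  filter_upwards [self_mem_nhdsWithin, h1] with x hx hx1
  refine ⟨hx.1, ?_, hx.2, Or.inr (Or.inl (hx1.trans_le (min_le_left _ _)))⟩
  intro h
  rw [h, zero_sub, norm_neg, norm_one] at hx1
  exact absurd (hx1.trans_le (min_le_right _ _)) (lt_irrefl 1)

private theorem ends_neI {c : Bool} (r : ℝ) (_ : 0 < r) :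
    ∀ᶠ x in Bornology.cobounded ℂ ⊓ 𝓟 (Hc c),
      x ∈ Hc c ∧ x ≠ 0 ∧ x ≠ 1 ∧ (‖x‖ < r ∨ ‖x - 1‖ < r ∨ r⁻¹ < ‖x‖) := by
  have h1 : ∀ᶠ x in Bornology.cobounded ℂ ⊓ 𝓟 (Hc c), max r⁻¹ 1 < ‖x‖ :=
    ((tendsto_norm_cobounded_atTop (E := ℂ)).mono_left inf_le_left).eventually_gt_atTop _
  have h2 : ∀ᶠ x in Bornology.cobounded ℂ ⊓ 𝓟 (Hc c), x ∈ Hc c :=
    mem_inf_of_right (mem_principal_self _)
  filter_upwards [h1, h2] with x hx hx2
  have h3 : 1 < ‖x‖ := (le_max_right _ _).trans_lt hx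
  refine ⟨hx2, ?_, ?_, Or.inr (Or.inr ((le_max_left _ _).trans_lt hx))⟩
  · intro h
    rw [h, norm_zero] at h3
    linarith
  · intro h
    rw [h, norm_one] at h3
    linarith

private theorem ends_pw0 {c : Bool} {α β : ℝ} (hα : α < 1) :
    Tendsto (fun x => x * pw c α β x) (𝓝[Hc c \ {0}] 0) (𝓝 0) := by
  rw [tendsto_zero_iff_norm_tendsto_zero]
  have h1 : Tendsto (fun x : ℂ => ‖x‖ ^ (1 - α) * ‖1 - x‖ ^ (-β)) (𝓝[Hc c \ {0}] 0)
      (𝓝 (0 * 1)) := by
    refine Tendsto.mono_left ?_ nhdsWithin_le_nhds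
    refine Tendsto.mul ?_ ?_
    · have h2 : ContinuousAt (fun x : ℂ => ‖x‖ ^ (1 - α)) 0 :=
        ContinuousAt.rpow_const (by fun_prop) (Or.inr (by linarith))
      have h3 := h2.tendsto
      rwa [norm_zero, Real.zero_rpow (by linarith)] at h3
    · have h2 : ContinuousAt (fun x : ℂ => ‖1 - x‖ ^ (-β)) 0 :=
        ContinuousAt.rpow_const (by fun_prop) (Or.inl (by simp))
      have h3 := h2.tendsto
      rwa [sub_zero, norm_one, Real.one_rpow] at h3
  rw [zero_mul] at h1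
  refine h1.congr' ?_
  filter_upwards [ends_ne0 (c := c) 1 one_pos] with x hx
  obtain ⟨hx1, hx2, hx3, _⟩ := hx
  have hx4 : 0 < ‖x‖ := norm_pos_iff.2 hx2
  rw [norm_mul, norm_pw c α β hx2 hx3, ← mul_assoc, sub_eq_add_neg, Real.rpow_add hx4, Real.rpow_one]

private theorem ends_pw1 {c : Bool} {α β : ℝ} (hβ : β < 1) :
    Tendsto (fun x => (x - 1) * pw c α β x) (𝓝[Hc c \ {1}] 1) (𝓝 0) := by
  rw [tendsto_zero_iff_norm_tendsto_zero]
  have h1 : Tendsto (fun x : ℂ => ‖x‖ ^ (-α) * ‖1 - x‖ ^ (1 - β)) (𝓝[Hc c \ {1}] 1)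
      (𝓝 (1 * 0)) := by
    refine Tendsto.mono_left ?_ nhdsWithin_le_nhds
    refine Tendsto.mul ?_ ?_
    · have h2 : ContinuousAt (fun x : ℂ => ‖x‖ ^ (-α)) 1 :=
        ContinuousAt.rpow_const (by fun_prop) (Or.inl (by simp))
      have h3 := h2.tendsto
      rwa [norm_one, Real.one_rpow] at h3
    · have h2 : ContinuousAt (fun x : ℂ => ‖1 - x‖ ^ (1 - β)) 1 :=
        ContinuousAt.rpow_const (by fun_prop) (Or.inr (by linarith))
      have h3 := h2.tendsto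
      rwa [sub_self, norm_zero, Real.zero_rpow (by linarith)] at h3
  rw [mul_zero] at h1
  refine h1.congr' ?_
  filter_upwards [ends_ne1 (c := c) 1 one_pos] with x hx
  obtain ⟨hx1, hx2, hx3, _⟩ := hx
  have hx4 : 0 < ‖1 - x‖ := norm_pos_iff.2 (sub_ne_zero.2 (Ne.symm hx3))
  rw [norm_mul, norm_pw c α β hx2 hx3, sub_eq_add_neg 1 β, Real.rpow_add hx4, Real.rpow_one,
    norm_sub_rev x 1]
  ring

private theorem ends_pwI {c : Bool} {α β : ℝ} (hβ : 0 ≤ β) (hαβ : 1 < α + β) :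
    Tendsto (fun x => x * pw c α β x) (Bornology.cobounded ℂ ⊓ 𝓟 (Hc c)) (𝓝 0) := by
  have h1 : Tendsto (fun x : ℂ => (2 : ℝ) ^ β * ‖x‖ ^ (-(α + β - 1)))
      (Bornology.cobounded ℂ ⊓ 𝓟 (Hc c)) (𝓝 0) := by
    have h2 := ((tendsto_rpow_neg_atTop (y := α + β - 1) (by linarith)).comp
      (tendsto_norm_cobounded_atTop (E := ℂ))).const_mul ((2 : ℝ) ^ β)
    rw [mul_zero] at h2
    exact h2.mono_left inf_le_left
  refine squeeze_zero_norm' ?_ h1
  have h3 : ∀ᶠ x in Bornology.cobounded ℂ ⊓ 𝓟 (Hc c), 2 < ‖x‖ :=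
    ((tendsto_norm_cobounded_atTop (E := ℂ)).mono_left inf_le_left).eventually_gt_atTop _
  filter_upwards [ends_neI (c := c) 1 one_pos, h3] with x hx h4
  obtain ⟨hx1, hx2, hx3, _⟩ := hx
  have hx4 : 0 < ‖x‖ := by linarith
  have h5 : ‖x‖ / 2 ≤ ‖1 - x‖ := by
    have h6 := norm_sub_norm_le x 1
    rw [norm_one, norm_sub_rev] at h6
    linarith
  have h7 : ‖1 - x‖ ^ (-β) ≤ (‖x‖ / 2) ^ (-β) :=
    Real.rpow_le_rpow_of_nonpos (by positivity) h5 (by linarith)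
  rw [norm_mul, norm_pw c α β hx2 hx3]
  calc ‖x‖ * (‖x‖ ^ (-α) * ‖1 - x‖ ^ (-β)) ≤ ‖x‖ * (‖x‖ ^ (-α) * (‖x‖ / 2) ^ (-β)) := by
        gcongr
    _ = (2 : ℝ) ^ β * ‖x‖ ^ (-(α + β - 1)) := by
        rw [Real.div_rpow hx4.le (by norm_num), Real.rpow_neg (by norm_num : (0 : ℝ) ≤ 2), div_inv_eq_mul,
          show -(α + β - 1) = 1 + -α + -β by ring, Real.rpow_add hx4, Real.rpow_add hx4,
          Real.rpow_one]
        ring

private theorem ends_l1 (c : Bool) {β : ℝ} :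
    Tendsto (fun x => pw c 0 β x) (𝓝[Hc c \ {0}] 0) (𝓝 1) := by
  refine Tendsto.mono_left ?_ nhdsWithin_le_nhds
  have h0 : l1 c 0 = 0 := by
    unfold l1
    cases c
    · simp only [sg, Bool.false_eq_true, if_false, Complex.ofReal_neg, Complex.ofReal_one, neg_neg,
        one_mul, sub_zero, mul_one, Complex.log_I]
      ring
    · simp only [sg, if_true, Complex.ofReal_one, neg_mul, one_mul, sub_zero, mul_one,
        Complex.log_neg_I]
      ring
  have h1 : ContinuousAt (l1 c) 0 := by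
    unfold l1
    refine ContinuousAt.add (ContinuousAt.clog (by fun_prop) ?_) continuousAt_const
    rw [Complex.mem_slitPlane_iff]
    right
    cases c <;> simp [sg]
  have h2 : ContinuousAt (fun x => pw c 0 β x) 0 := by
    have h3 : (fun x => pw c 0 β x) = fun x => cexp (-(β * l1 c x)) := by
      funext x
      unfold pw
      congr 1
      push_cast
      ring
    rw [h3]
    exact (ContinuousAt.neg (continuousAt_const.mul h1)).cexp
  have h4 := h2.tendsto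
  have h5 : pw c 0 β 0 = 1 := by
    unfold pw
    rw [h0, mul_zero, sub_zero, Complex.ofReal_zero, zero_mul, neg_zero, Complex.exp_zero]
  rwa [h5] at h4

private theorem ends_res {c : Bool} {α β : ℝ} (hα : 0 < α) (hα1 : α < 1) (hβ : 0 < β) (hβ1 : β < 1) :
    Tendsto (fun x => x * (pw c α β x * Iv c (2 - α) (1 - β) x)) (𝓝[Hc c \ {0}] 0)
      (𝓝 (1 / ((α : ℂ) - 1))) := by
  obtain ⟨C, r, hr, hC⟩ := Iv_pole (p := 2 - α) (q := 1 - β) (by linarith) (by linarith)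
    (by linarith) (by linarith) (by linarith)
  have h1 : Tendsto (fun x => (x * pw c α β x) *
      (Iv c (2 - α) (1 - β) x - pw c (2 - α - 1) 0 x / (1 - (2 - α : ℝ)))) (𝓝[Hc c \ {0}] 0)
      (𝓝 0) := by
    have h2 : Tendsto (fun x => ‖x * pw c α β x‖ * C) (𝓝[Hc c \ {0}] 0) (𝓝 0) := by
      have := (tendsto_zero_iff_norm_tendsto_zero.1 (ends_pw0 (c := c) (β := β) hα1)).mul_const C
      rwa [zero_mul] at this
    refine squeeze_zero_norm' ?_ h2
    have h3 : ∀ᶠ x in 𝓝[Hc c \ {0}] (0 : ℂ), ‖x‖ < r := by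
      refine mem_nhdsWithin_of_mem_nhds ?_
      filter_upwards [Metric.ball_mem_nhds (0 : ℂ) hr] with x hx
      rwa [mem_ball_zero_iff] at hx
    filter_upwards [self_mem_nhdsWithin, h3] with x hx hx1
    rw [norm_mul]
    refine mul_le_mul_of_nonneg_left ?_ (norm_nonneg _)
    have := hC c x hx.1 hx.2 hx1
    push_cast at this ⊢
    exact this
  have h4 := h1.add ((ends_l1 c (β := β)).div_const ((α : ℂ) - 1))
  rw [zero_add] at h4
  refine h4.congr' ?_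
  filter_upwards [ends_ne0 (c := c) 1 one_pos] with x hx
  obtain ⟨hx1, hx2, hx3, _⟩ := hx
  have e1 : pw c α β x * pw c (2 - α - 1) 0 x = x⁻¹ * pw c 0 β x := by
    rw [← pw_add, show α + (2 - α - 1) = 1 + 0 by ring, show β + 0 = 0 + β by ring, pw_add]
    have := pw_int c 1 0 hx2 hx3
    push_cast at this
    rw [this]
    simp
  have e2 : x * (pw c α β x * pw c (2 - α - 1) 0 x) = pw c 0 β x := by
    rw [e1, ← mul_assoc, mul_inv_cancel₀ hx2, one_mul]
  have e3 : (1 : ℂ) - ((2 - α : ℝ) : ℂ) = (α : ℂ) - 1 := by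
    push_cast
    ring
  rw [e3, ← e2]
  ring

theorem ends0 {u : P.V} (h : θ.Adm u) (s t : P.Ix) (c : Bool) :
    Tendsto (fun x => x * ∑ k ∈ range P.D, P.F s (P.pt c k x) * θ.ell u t (P.pt c k x))
      (𝓝[Hc c \ {0}] 0) (𝓝 (if s = t then -1 else 0)) := by
  have hD : (P.D : ℂ) ≠ 0 := by
    have := P.hD
    have h0 : P.D ≠ 0 := by omega
    exact_mod_cast h0
  have h1 := ends_main θ h s t c (l := 𝓝[Hc c \ {0}] 0) (m := fun x => x)
    (w := 1 / ((P.al t : ℂ) - 1)) (fun r hr => ends_ne0 r hr) (ends_pw0 (P.al_lt_one s))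
    (fun _ => ends_res (P.al_pos t.2) (P.al_lt_one t) (P.be_pos t.2) (P.be_lt_one t))
  have e : -((P.ka t : ℂ) * (P.D * (1 / ((P.al t : ℂ) - 1)))) = -1 := by
    have h2 : ((P.al t : ℂ) - 1) ≠ 0 := by
      have h3 : P.al t - 1 ≠ 0 := by
        have := P.al_lt_one t
        linarith
      intro h4
      exact h3 (by exact_mod_cast h4)
    unfold ka
    push_cast
    field_simp
    ring
  rw [e] at h1
  exact h1

theorem ends1 {u : P.V} (h : θ.Adm u) (s t : P.Ix) (c : Bool) :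
    Tendsto (fun x => (x - 1) * ∑ k ∈ range P.D, P.F s (P.pt c k x) * θ.ell u t (P.pt c k x))
      (𝓝[Hc c \ {1}] 1) (𝓝 0) := by
  have h1 := ends_main θ h s t c (l := 𝓝[Hc c \ {1}] 1) (m := fun x => x - 1)
    (w := 0) (fun r hr => ends_ne1 r hr) (ends_pw1 (P.be_lt_one s))
    (fun _ => by
      have h2 := (ends_pw1 (c := c) (α := P.al t) (P.be_lt_one t)).mul
        (Iv_at1 (c := c) (p := 2 - P.al t) (q := 1 - P.be t)
          (by linarith [P.al_lt_one t, P.be_lt_one t]) (by linarith [P.be_lt_one t])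
          (by linarith [P.be_pos t.2]))
      rw [zero_mul] at h2
      refine h2.congr fun x => ?_
      ring)
  have e : (if s = t then -((P.ka t : ℂ) * (P.D * 0)) else 0) = 0 := by
    split_ifs
    · ring
    · rfl
  rw [e] at h1
  exact h1

theorem endsInf {u : P.V} (h : θ.Adm u) (s t : P.Ix) (c : Bool) :
    Tendsto (fun x => x * ∑ k ∈ range P.D, P.F s (P.pt c k x) * θ.ell u t (P.pt c k x))
      (Bornology.cobounded ℂ ⊓ 𝓟 (Hc c)) (𝓝 0) := by
  have hD : (0 : ℝ) < P.D := by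
    have := P.hD
    exact_mod_cast (by omega : 0 < P.D)
  have hgt : ∀ t : P.Ix, 1 < P.al t + P.be t := by
    intro t
    rw [P.al_add_be_Phi t.2]
    have h2 : (0 : ℝ) < ((t : ℕ) : ℝ) := by exact_mod_cast (P.Phi_pos t.2).1
    have : (0 : ℝ) < ((t : ℕ) : ℝ) / P.D := by positivity
    linarith
  have h1 := ends_main θ h s t c (l := Bornology.cobounded ℂ ⊓ 𝓟 (Hc c)) (m := fun x => x)
    (w := 0) (fun r hr => ends_neI r hr) (ends_pwI (P.be_nonneg s) (hgt s))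
    (fun _ => by
      have h2 := (ends_pwI (c := c) (P.be_nonneg t) (hgt t)).mul
        (Iv_tendsto (c := c) (p := 2 - P.al t) (q := 1 - P.be t)
          (by linarith [P.al_lt_one t, P.be_lt_one t]))
      rw [zero_mul] at h2
      refine h2.congr fun x => ?_
      ring)
  have e : (if s = t then -((P.ka t : ℂ) * (P.D * 0)) else 0) = 0 := by
    split_ifs
    · ring
    · rfl
  rw [e] at h1
  exact h1

end

end Pool.Agent.RHT.Par
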