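import Pool.Agent.RHT.KKb

/-!
RHT-Expl. The explicit formula (5a). Plan: fix `x ∈ U`, `t`. The function
`g w = ell u t w - ∑_i rho i t KK w (q i)` (`u = z.u x`) is holomorphic on the curve off
`S = {x i}` (`ell_pt`, `T_ne'`), equals `L_t(v) - M_t` there, and is bounded on
`Om c ∩ Hc c` minus `S`: near `0`, `1`, `∞` by `end_bound` and `Dl_bound`; near `x i` on the sheet of
`q_i` the pole of `L_t` is simple with residue `rho i t` (`rho_res`: removable after subtraction),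
cancelled by `KK_bdd`; on the other sheets `L_t` is regular (`T_eq_zero_iff`) and `KK_bdd`; elsewhere
by compactness (finitely many sheets). `liouville` gives the constant `b t x`.
-/

set_option autoImplicit false

namespace Pool.Agent.RHT.Par.ZD

open Complex ComplexConjugate Finset Filter Topology

noncomputable section

variable {P : Par} {θ : P.Th} (z : P.ZD θ)

private theorem Expl_pt_ft {k l : ℤ} {y0 : ℂ} (hf : y0 ∈ Om false) (ht : y0 ∈ Om true)
    (h : P.pt true k y0 = P.pt false l y0) : ∀ᶠ y in 𝓝 y0, P.pt true k y = P.pt false l y := by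
  have h0 : y0.re ≠ 0 := by
    intro h0
    have h1 : ¬ 0 ≤ sg false * y0.im := fun h1 => hf.1 ⟨h0, h1⟩
    have h2 : ¬ 0 ≤ sg true * y0.im := fun h2 => ht.1 ⟨h0, h2⟩
    simp only [sg] at h1 h2
    norm_num at h1 h2
    linarith
  have h1 : y0.re ≠ 1 := by
    intro h0
    have h1 : ¬ 0 ≤ sg false * y0.im := fun h1 => hf.2 ⟨h0, h1⟩
    have h2 : ¬ 0 ≤ sg true * y0.im := fun h2 => ht.2 ⟨h0, h2⟩
    simp only [sg] at h1 h2
    norm_num at h1 h2
    linarith
  rcases lt_or_gt_of_ne h0 with h2 | h2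
  · have h3 : ∀ᶠ y : ℂ in 𝓝 y0, y.re < 0 :=
      (isOpen_lt Complex.continuous_re continuous_const).mem_nhds h2
    rw [P.pt_left k h2, P.pt_eq_iff] at h
    filter_upwards [h3] with y hy
    rw [P.pt_left k hy, P.pt_eq_iff]
    exact h
  · rcases lt_or_gt_of_ne h1 with h4 | h4
    · have h3 : ∀ᶠ y : ℂ in 𝓝 y0, 0 < y.re :=
        (isOpen_lt continuous_const Complex.continuous_re).mem_nhds h2
      have h3' : ∀ᶠ y : ℂ in 𝓝 y0, y.re < 1 :=
        (isOpen_lt Complex.continuous_re continuous_const).mem_nhds h4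
      rw [P.pt_mid k h2 h4, P.pt_eq_iff] at h
      filter_upwards [h3, h3'] with y hy hy'
      rw [P.pt_mid k hy hy', P.pt_eq_iff]
      exact h
    · have h3 : ∀ᶠ y : ℂ in 𝓝 y0, 1 < y.re :=
        (isOpen_lt continuous_const Complex.continuous_re).mem_nhds h4
      rw [P.pt_right k h4, P.pt_eq_iff] at h
      filter_upwards [h3] with y hy
      rw [P.pt_right k hy, P.pt_eq_iff]
      exact h

private theorem Expl_pt_nhds {c c' : Bool} {k k' : ℤ} {y0 : ℂ} (hy : y0 ∈ Om c)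
    (hy' : y0 ∈ Om c') (h : P.pt c k y0 = P.pt c' k' y0) :
    ∀ᶠ y in 𝓝 y0, P.pt c k y = P.pt c' k' y := by
  cases c <;> cases c'
  · rw [P.pt_eq_iff] at h
    exact Eventually.of_forall fun y => P.pt_eq_iff.2 h
  · filter_upwards [Expl_pt_ft hy hy' h.symm] with y h1 using h1.symm
  · exact Expl_pt_ft hy' hy h
  · rw [P.pt_eq_iff] at h
    exact Eventually.of_forall fun y => P.pt_eq_iff.2 h

private theorem Expl_ev (x : P.Ix → ℂ) (y0 : ℂ) : ∀ᶠ y in 𝓝[≠] y0, ∀ i, y ≠ x i := by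
  rw [Filter.eventually_all]
  intro i
  by_cases h : y0 = x i
  · rw [← h]
    exact self_mem_nhdsWithin
  · exact mem_nhdsWithin_of_mem_nhds (isOpen_ne.mem_nhds h)

private theorem Expl_Ldiff {x : P.Ix → ℂ} {c : Bool} (k : ℤ) {y : ℂ} (hy : y ∈ Om c)
    (h : θ.T (z.v c k y x) ≠ 0) (t : P.Ix) :
    DifferentiableAt ℂ (fun y => θ.L t (z.v c k y x)) y := by
  have h1 : DifferentiableAt ℂ (fun y => z.v c k y x) y := by
    have h2 := (P.Cv_deriv k hy).differentiableAt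
    exact h2.add_const (z.u x)
  exact (θ.L_diff t h).comp y h1

private theorem Expl_Tcont {x : P.Ix → ℂ} {c : Bool} (k : ℤ) {y : ℂ} (hy : y ∈ Om c) :
    ContinuousAt (fun y => θ.T (z.v c k y x)) y := by
  have h1 : ContinuousAt (fun y => z.v c k y x) y := by
    have h2 := (P.Cv_deriv k hy).continuousAt
    exact h2.add continuousAt_const
  exact (θ.dT _).continuousAt.comp (f := fun y => z.v c k y x) h1

/-- the function to which Liouville's theorem is applied -/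
private def Expl_g (x : P.Ix → ℂ) (t : P.Ix) (w : ℂ × ℂ) : ℂ :=
  θ.ell (z.u x) t w - ∑ i, z.rho x i t * P.KK w (z.q x i)

private theorem Expl_q {x : P.Ix → ℂ} (hx : x ∈ z.U) (i : P.Ix) : z.q x i ∈ P.Cs :=
  P.pt_mem (z.k i) (z.om x hx i)

private theorem Expl_g_eq {x : P.Ix → ℂ} (t : P.Ix) {c : Bool} (k : ℤ)
    {y : ℂ} (hy : y ∈ Om c) (h : θ.T (z.v c k y x) ≠ 0) :
    Expl_g z x t (P.pt c k y) = θ.L t (z.v c k y x) - z.M c k t y x := by
  unfold Expl_g
  rw [ell_pt θ (z.u x) t k hy h]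
  show θ.L t (z.v c k y x) - P.ka t * P.Jv c k y t - _ = _
  unfold M
  ring

private theorem Expl_g_diff {x : P.Ix → ℂ} (hx : x ∈ z.U) (t : P.Ix) {c : Bool} (k : ℤ)
    {y : ℂ} (hy : y ∈ Om c) (h : ∀ i, y ≠ x i) :
    DifferentiableAt ℂ (fun y => Expl_g z x t (P.pt c k y)) y := by
  have h1 : DifferentiableAt ℂ (fun y => θ.L t (z.v c k y x) - z.M c k t y x) y := by
    refine (Expl_Ldiff z k hy (z.T_ne' hx k hy h) t).sub ?_
    unfold M
    refine ((P.Jv_deriv k hy t).differentiableAt.const_mul _).add ?_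
    refine DifferentiableAt.fun_sum fun i _ => ?_
    exact (P.KK_diff (Expl_q z hx i) k hy (h i)).const_mul _
  refine h1.congr_of_eventuallyEq ?_
  have h2 : ∀ᶠ y' in 𝓝 y, θ.T (z.v c k y' x) ≠ 0 :=
    (Expl_Tcont z k hy).eventually_ne (z.T_ne' hx k hy h)
  filter_upwards [h2, (Om_isOpen c).mem_nhds hy] with y' h3 h4
  exact Expl_g_eq z t k h4 h3

open Asymptotics in
private theorem Expl_KK {x : P.Ix → ℂ} (hx : x ∈ z.U) {c : Bool} (k : ℤ)
    {y0 : ℂ} (hy : y0 ∈ Om c) (i : P.Ix) :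
    (fun y => P.KK (P.pt c k y) (z.q x i) - (if P.pt c k y0 = z.q x i then 1 else 0) / (y - y0))
      =O[𝓝[≠] y0] (fun _ => (1 : ℂ)) := by
  by_cases h : y0 = x i
  · have h1 : y0 ∈ Om (z.c i) := h ▸ z.om x hx i
    obtain ⟨M, r, hr, hM⟩ := P.KK_bdd k (z.k i) hy h1
    have hq : z.q x i = P.pt (z.c i) (z.k i) y0 := by rw [h]; rfl
    rw [hq]
    refine IsBigO.of_bound M ?_
    have h2 : Metric.ball y0 r ∈ 𝓝[≠] y0 := mem_nhdsWithin_of_mem_nhds (Metric.ball_mem_nhds y0 hr)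
    filter_upwards [h2, self_mem_nhdsWithin] with y h3 h4
    rw [norm_one, mul_one]
    exact hM y h4 (by rwa [← dist_eq_norm, ← Metric.mem_ball])
  · have h1 : P.pt c k y0 ≠ z.q x i := fun h2 => h (congrArg Prod.fst h2)
    rw [if_neg h1]
    simp only [zero_div, sub_zero]
    exact ((P.KK_diff (Expl_q z hx i) k hy h).continuousAt.tendsto.mono_left
      nhdsWithin_le_nhds).isBigO_one ℂ

open Asymptotics in
private theorem Expl_ell {x : P.Ix → ℂ} (hx : x ∈ z.U) (t : P.Ix) {c : Bool} (k : ℤ)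
    {y0 : ℂ} (hy : y0 ∈ Om c) :
    (fun y => θ.ell (z.u x) t (P.pt c k y) -
      ∑ i, z.rho x i t * ((if P.pt c k y0 = z.q x i then 1 else 0) / (y - y0)))
      =O[𝓝[≠] y0] (fun _ => (1 : ℂ)) := by
  by_cases h : ∃ i, P.pt c k y0 = z.q x i
  · obtain ⟨i, hi⟩ := h
    have h0 : y0 = x i := congrArg Prod.fst hi
    have h1 : y0 ∈ Om (z.c i) := h0 ▸ z.om x hx i
    have hq : z.q x i = P.pt (z.c i) (z.k i) y0 := by rw [h0]; rfl
    have h2 := Expl_pt_nhds hy h1 (hi.trans hq)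
    have hsum : ∀ y, ∑ j, z.rho x j t * ((if P.pt c k y0 = z.q x j then 1 else 0) / (y - y0)) =
        z.rho x i t / (y - y0) := by
      intro y
      rw [Finset.sum_eq_single i]
      · rw [if_pos hi, mul_one_div]
      · intro j _ hj
        rw [if_neg, zero_div, mul_zero]
        intro h3
        exact hj (z.inj x hx (h3.symm.trans hi))
      · intro h3
        exact absurd (Finset.mem_univ i) h3
    have hev : ∀ᶠ y in 𝓝[≠] y0, y ∈ Om (z.c i) ∧ θ.T (z.v (z.c i) (z.k i) y x) ≠ 0 := by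
      filter_upwards [Expl_ev x y0,
        mem_nhdsWithin_of_mem_nhds ((Om_isOpen (z.c i)).mem_nhds h1)] with y h3 h4
      exact ⟨h4, z.T_ne' hx (z.k i) h4 h3⟩
    -- the pole
    have hpole : (fun y => θ.L t (z.v (z.c i) (z.k i) y x) - z.rho x i t / (y - y0))
        =O[𝓝[≠] y0] (fun _ => (1 : ℂ)) := by
      set f : ℂ → ℂ := fun y => (y - y0) * θ.L t (z.v (z.c i) (z.k i) y x) with hf
      have hlim : Tendsto f (𝓝[≠] y0) (𝓝 (z.rho x i t)) := by
        have h3 := z.rho_res hx i t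
        rw [← h0] at h3
        exact h3
      have hd : ∀ᶠ y in 𝓝[≠] y0, DifferentiableAt ℂ f y := by
        filter_upwards [hev] with y h3
        exact (differentiableAt_id.sub_const y0).mul (Expl_Ldiff z (z.k i) h3.1 h3.2 t)
      set f' : ℂ → ℂ := Function.update f y0 (z.rho x i t) with hf'
      have hff : f' =ᶠ[𝓝[≠] y0] f := by
        filter_upwards [self_mem_nhdsWithin] with y h3
        exact Function.update_of_ne h3 _ _
      have hd' : ∀ᶠ y in 𝓝[≠] y0, DifferentiableAt ℂ f' y := by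
        filter_upwards [hd, self_mem_nhdsWithin] with y h3 h4
        refine h3.congr_of_eventuallyEq ?_
        filter_upwards [isOpen_ne.mem_nhds h4] with w hw
        exact Function.update_of_ne hw _ _
      have hc' : ContinuousAt f' y0 := by
        rw [continuousAt_update_same]
        exact hlim
      have ha := Complex.analyticAt_of_differentiable_on_punctured_nhds_of_continuousAt hd' hc'
      have hO : (fun y => f' y - f' y0) =O[𝓝 y0] (fun y => y - y0) :=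
        ha.differentiableAt.hasDerivAt.hasFDerivAt.isBigO_sub
      have hO' : (fun y => (f' y - f' y0) / (y - y0)) =O[𝓝[≠] y0] (fun _ => (1 : ℂ)) := by
        obtain ⟨C, hC⟩ := (hO.mono (nhdsWithin_le_nhds (s := {y0}ᶜ))).bound
        refine IsBigO.of_bound C ?_
        filter_upwards [hC, self_mem_nhdsWithin] with y h3 h4
        have h5 : 0 < ‖y - y0‖ := norm_pos_iff.2 (sub_ne_zero.2 h4)
        rw [norm_one, mul_one, norm_div, div_le_iff₀ h5]
        exact h3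
      refine hO'.congr' ?_ EventuallyEq.rfl
      filter_upwards [hff, self_mem_nhdsWithin] with y h3 h4
      have h5 : y - y0 ≠ 0 := sub_ne_zero.2 h4
      have h6 : f' y0 = z.rho x i t := Function.update_self _ _ _
      rw [h3, h6, sub_div, hf]
      simp only
      rw [mul_div_cancel_left₀ _ h5]
    have hJ : (fun y => P.ka t * P.Jv (z.c i) (z.k i) y t) =O[𝓝[≠] y0] (fun _ => (1 : ℂ)) :=
      (((P.Jv_deriv (z.k i) h1 t).continuousAt.const_mul _).tendsto.mono_left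
        nhdsWithin_le_nhds).isBigO_one ℂ
    refine (hpole.sub hJ).congr' ?_ EventuallyEq.rfl
    filter_upwards [hev, mem_nhdsWithin_of_mem_nhds h2] with y h3 h4
    have h4' : P.pt c k y = P.pt (z.c i) (z.k i) y := h4
    rw [hsum, h4', ell_pt θ (z.u x) t (z.k i) h3.1 h3.2]
    show θ.L t (z.v (z.c i) (z.k i) y x) - _ - _ =
      θ.L t (z.v (z.c i) (z.k i) y x) - P.ka t * P.Jv (z.c i) (z.k i) y t - _
    ring
  · have hT : θ.T (z.v c k y0 x) ≠ 0 := fun h1 => h ((z.T_eq_zero_iff hx k hy).1 h1)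
    have hsum : ∀ y, ∑ j, z.rho x j t * ((if P.pt c k y0 = z.q x j then 1 else 0) / (y - y0)) =
        0 := by
      intro y
      refine Finset.sum_eq_zero fun j _ => ?_
      rw [if_neg (fun h1 => h ⟨j, h1⟩), zero_div, mul_zero]
    simp only [hsum, sub_zero]
    have h1 : ContinuousAt (fun y => θ.L t (z.v c k y x) - P.ka t * P.Jv c k y t) y0 :=
      (Expl_Ldiff z k hy hT t).continuousAt.sub ((P.Jv_deriv k hy t).continuousAt.const_mul _)
    refine ((h1.tendsto.mono_left nhdsWithin_le_nhds).isBigO_one ℂ).congr' ?_ EventuallyEq.rfl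
    have h2 : ∀ᶠ y' in 𝓝 y0, θ.T (z.v c k y' x) ≠ 0 := (Expl_Tcont z k hy).eventually_ne hT
    filter_upwards [mem_nhdsWithin_of_mem_nhds h2,
      mem_nhdsWithin_of_mem_nhds ((Om_isOpen c).mem_nhds hy)] with y' h3 h4
    exact (ell_pt θ (z.u x) t k h4 h3).symm

open Asymptotics in
private theorem Expl_g_loc {x : P.Ix → ℂ} (hx : x ∈ z.U) (t : P.Ix) {c : Bool} (k : ℤ)
    {y0 : ℂ} (hy : y0 ∈ Om c) :
    (fun y => Expl_g z x t (P.pt c k y)) =O[𝓝[≠] y0] (fun _ => (1 : ℂ)) := by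
  have h1 := Expl_ell z hx t k hy
  have h2 : (fun y => ∑ i, z.rho x i t * (P.KK (P.pt c k y) (z.q x i) -
      (if P.pt c k y0 = z.q x i then 1 else 0) / (y - y0))) =O[𝓝[≠] y0] (fun _ => (1 : ℂ)) :=
    IsBigO.fun_sum fun i _ => (Expl_KK z hx k hy i).const_mul_left _
  refine (h1.sub h2).congr_left fun y => ?_
  unfold Expl_g
  simp only [mul_sub, Finset.sum_sub_distrib]
  ring

/-- boundedness on a compact set -/
private theorem Expl_g_comp {x : P.Ix → ℂ} (hx : x ∈ z.U) (t : P.Ix) {c : Bool} (k : ℤ)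
    {K : Set ℂ} (hK : IsCompact K) (hKO : K ⊆ Om c) :
    ∃ M : ℝ, ∀ y ∈ K, (∀ i, y ≠ x i) → ‖Expl_g z x t (P.pt c k y)‖ ≤ M := by
  refine hK.induction_on (p := fun s => ∃ M : ℝ, ∀ y ∈ s, (∀ i, y ≠ x i) →
    ‖Expl_g z x t (P.pt c k y)‖ ≤ M) ⟨0, fun y hy => absurd hy (Set.notMem_empty y)⟩ ?_ ?_ ?_
  · rintro s s' hs ⟨M, hM⟩
    exact ⟨M, fun y hy => hM y (hs hy)⟩
  · rintro s s' ⟨M, hM⟩ ⟨M', hM'⟩
    refine ⟨max M M', fun y hy h => ?_⟩
    rcases hy with hy | hy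
    · exact (hM y hy h).trans (le_max_left _ _)
    · exact (hM' y hy h).trans (le_max_right _ _)
  · intro y0 hy0
    obtain ⟨C, hC⟩ := (Expl_g_loc z hx t k (hKO hy0)).bound
    have h1 : ∀ᶠ y in 𝓝 y0, y ≠ y0 → ‖Expl_g z x t (P.pt c k y)‖ ≤ C := by
      have h2 := eventually_nhdsWithin_iff.1 hC
      filter_upwards [h2] with y h3 h4
      have h5 := h3 h4
      rwa [norm_one, mul_one] at h5
    refine ⟨{y | y ≠ y0 → ‖Expl_g z x t (P.pt c k y)‖ ≤ C}, mem_nhdsWithin_of_mem_nhds h1,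
      max C ‖Expl_g z x t (P.pt c k y0)‖, ?_⟩
    intro y hy _
    by_cases h2 : y = y0
    · rw [h2]
      exact le_max_right _ _
    · exact (hy h2).trans (le_max_left _ _)

private theorem Expl_g_end {x : P.Ix → ℂ} (hx : x ∈ z.U) (t : P.Ix) :
    ∃ M r : ℝ, 0 < r ∧ ∀ (c : Bool) (k : ℤ) (y : ℂ), y ∈ Hc c → y ≠ 0 → y ≠ 1 →
      (‖y‖ < r ∨ ‖y - 1‖ < r ∨ r⁻¹ < ‖y‖) → ‖Expl_g z x t (P.pt c k y)‖ ≤ M := by
  obtain ⟨M1, r1, N, hN, hr1, h1⟩ := end_bound θ (z.adm x hx)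
  obtain ⟨M2, r2, hr2, h2⟩ := P.Dl_bound (z.q x) (Expl_q z hx) t (fun i => z.rho x i t)
    (fun s => z.W_rho hx s t)
  refine ⟨M1 + M2, min r1 r2, lt_min hr1 hr2, ?_⟩
  intro c k y hy h0 h1' hr
  have hy' := Om_of_Hc hy h0 h1'
  have ha : ‖y‖ < r1 ∨ ‖y - 1‖ < r1 ∨ r1⁻¹ < ‖y‖ := by
    rcases hr with h | h | h
    · exact Or.inl (h.trans_le (min_le_left _ _))
    · exact Or.inr (Or.inl (h.trans_le (min_le_left _ _)))
    · exact Or.inr (Or.inr ((inv_anti₀ (lt_min hr1 hr2) (min_le_left _ _)).trans_lt h))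
  have hb : ‖y‖ < r2 ∨ ‖y - 1‖ < r2 ∨ r2⁻¹ < ‖y‖ := by
    rcases hr with h | h | h
    · exact Or.inl (h.trans_le (min_le_right _ _))
    · exact Or.inr (Or.inl (h.trans_le (min_le_right _ _)))
    · exact Or.inr (Or.inr ((inv_anti₀ (lt_min hr1 hr2) (min_le_right _ _)).trans_lt h))
  obtain ⟨h3, h4⟩ := h1 (z.u x) (mem_of_mem_nhds hN) c k y hy h0 h1' ha
  have h5 := h2 c k y hy h0 h1' hb
  rw [Expl_g_eq z t k hy' h3]
  exact (norm_sub_le _ _).trans (add_le_add (h4 t) h5)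

private theorem Expl_g_bdd {x : P.Ix → ℂ} (hx : x ∈ z.U) (t : P.Ix) :
    ∃ M : ℝ, ∀ (c : Bool) (k : ℤ) (y : ℂ), y ∈ Om c → y ∈ Hc c → (∀ i, y ≠ x i) →
      ‖Expl_g z x t (P.pt c k y)‖ ≤ M := by
  obtain ⟨M0, r, hr, h0⟩ := Expl_g_end z hx t
  have hcomp : ∀ (c : Bool), IsCompact (Hc c ∩ {y : ℂ | r ≤ ‖y‖ ∧ r ≤ ‖y - 1‖ ∧ ‖y‖ ≤ r⁻¹}) := by
    intro c
    have h1 : IsClosed (Hc c) :=
      isClosed_le (continuous_const.mul Complex.continuous_im) continuous_const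
    have h2 : IsClosed {y : ℂ | r ≤ ‖y‖ ∧ r ≤ ‖y - 1‖ ∧ ‖y‖ ≤ r⁻¹} :=
      (isClosed_le continuous_const continuous_norm).inter
        ((isClosed_le continuous_const (continuous_id.sub continuous_const).norm).inter
          (isClosed_le continuous_norm continuous_const))
    refine (isCompact_closedBall (0 : ℂ) r⁻¹).of_isClosed_subset (h1.inter h2) ?_
    intro y hy
    rw [mem_closedBall_zero_iff]
    exact hy.2.2.2
  have hsub : ∀ (c : Bool), Hc c ∩ {y : ℂ | r ≤ ‖y‖ ∧ r ≤ ‖y - 1‖ ∧ ‖y‖ ≤ r⁻¹} ⊆ Om c := by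
    rintro c y ⟨h1, h2, h3, -⟩
    refine Om_of_Hc h1 ?_ ?_
    · rintro rfl
      rw [norm_zero] at h2
      linarith
    · rintro rfl
      rw [sub_self, norm_zero] at h3
      linarith
  have hex : ∀ (c : Bool) (k : ℤ), ∃ M : ℝ, ∀ y ∈ Hc c ∩ {y : ℂ | r ≤ ‖y‖ ∧ r ≤ ‖y - 1‖ ∧ ‖y‖ ≤ r⁻¹},
      (∀ i, y ≠ x i) → ‖Expl_g z x t (P.pt c k y)‖ ≤ M :=
    fun c k => Expl_g_comp z hx t k (hcomp c) (hsub c)
  choose M hM using hex
  refine ⟨|M0| + ∑ c : Bool, ∑ k ∈ range P.D, |M c k|, ?_⟩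
  intro c k y hy hyH hyx
  have hpos : 0 ≤ ∑ c : Bool, ∑ k ∈ range P.D, |M c k| :=
    Finset.sum_nonneg fun c _ => Finset.sum_nonneg fun k _ => abs_nonneg _
  obtain ⟨hy0, hy1⟩ := Om_ne hy
  by_cases hend : ‖y‖ < r ∨ ‖y - 1‖ < r ∨ r⁻¹ < ‖y‖
  · have h1 := h0 c k y hyH hy0 hy1 hend
    have h2 := le_abs_self M0
    linarith
  · push Not at hend
    have hD0 : (P.D : ℤ) ≠ 0 := by
      have := P.hD
      omega
    have hk0 : 0 ≤ k % (P.D : ℤ) := Int.emod_nonneg k hD0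
    have hkD : k % (P.D : ℤ) < P.D := Int.emod_lt_of_pos k (by have := P.hD; omega)
    have hpt : P.pt c k y = P.pt c ((k % (P.D : ℤ)).toNat : ℤ) y := by
      rw [P.pt_eq_iff, Int.toNat_of_nonneg hk0]
      exact Int.dvd_self_sub_emod
    have h1 := hM c ((k % (P.D : ℤ)).toNat : ℤ) y ⟨hyH, hend.1, hend.2.1, hend.2.2⟩ hyx
    rw [← hpt] at h1
    have hmem : (k % (P.D : ℤ)).toNat ∈ range P.D := by
      rw [Finset.mem_range]
      omega
    have h2 : |M c ((k % (P.D : ℤ)).toNat : ℤ)| ≤ ∑ k ∈ range P.D, |M c k| :=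
      Finset.single_le_sum (f := fun k : ℕ => |M c k|) (fun k _ => abs_nonneg _) hmem
    have h3 : ∑ k ∈ range P.D, |M c k| ≤ ∑ c : Bool, ∑ k ∈ range P.D, |M c k| :=
      Finset.single_le_sum (f := fun c : Bool => ∑ k ∈ range P.D, |M c k|)
        (fun c _ => Finset.sum_nonneg fun k _ => abs_nonneg _) (Finset.mem_univ c)
    have h4 := le_abs_self (M c ((k % (P.D : ℤ)).toNat : ℤ))
    have h5 := abs_nonneg M0
    linarith

theorem explicit : ∃ b : P.Ix → (P.Ix → ℂ) → ℂ, ∀ x ∈ z.U, ∀ (c' : Bool) (k' : ℤ) (y : ℂ),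
    y ∈ Om c' → (∀ i, y ≠ x i) →
      ∀ t, θ.L t (z.v c' k' y x) = z.M c' k' t y x + b t x := by
  have key : ∀ (t : P.Ix) (x : P.Ix → ℂ), ∃ b : ℂ, x ∈ z.U → ∀ (c' : Bool) (k' : ℤ) (y : ℂ),
      y ∈ Om c' → (∀ i, y ≠ x i) → θ.L t (z.v c' k' y x) = z.M c' k' t y x + b := by
    intro t x
    by_cases hx : x ∈ z.U
    · obtain ⟨M, hM⟩ := Expl_g_bdd z hx t
      have hS : ∀ y, y ∉ Finset.univ.image x ↔ ∀ i, y ≠ x i := by
        intro y
        simp only [Finset.mem_image, Finset.mem_univ, true_and, not_exists]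
        exact ⟨fun h i hi => h i hi.symm, fun h i hi => h i hi.symm⟩
      have hol : P.HolC (Expl_g z x t) (Finset.univ.image x : Finset ℂ) := by
        intro c k y hy
        have h1 : ∀ i, y ≠ x i := (hS y).1 fun h => hy.2 (Finset.mem_coe.2 h)
        exact (Expl_g_diff z hx t k hy.1 h1).differentiableWithinAt
      obtain ⟨b, hb⟩ := P.liouville (Expl_g z x t) (Finset.univ.image x) hol M
        (fun c k y hy hyH hyS => hM c k y hy hyH ((hS y).1 hyS))
      refine ⟨b, fun _ c' k' y hy hyx => ?_⟩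
      have h1 := hb c' k' y hy ((hS y).2 hyx)
      rw [Expl_g_eq z t k' hy (z.T_ne' hx k' hy hyx)] at h1
      rw [← h1]
      ring
    · exact ⟨0, fun h => absurd h hx⟩
  choose b hb using key
  exact ⟨b, fun x hx c' k' y hy hyx t => hb t x hx c' k' y hy hyx⟩

end

end Pool.Agent.RHT.Par.ZD
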