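import Pool.Agent.RHT.Log

/-!
RHT-IvD. The vertical line integrals: `‖x - sg c I s‖` and `‖1 - x + sg c I s‖` lie between
`δ (1 + s)` and `C (1 + s)`, locally uniformly in `x ∈ Om c`, so the integrals converge for
`p + q > 1`; differentiation under the integral sign and the fundamental theorem of calculus.
-/

set_option autoImplicit false

namespace Pool.Agent.RHT

open Complex ComplexConjugate Finset

noncomputable section

private theorem ivd_sg (c : Bool) : |sg c| = 1 := by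
  cases c <;> simp [sg]

private theorem ivd_norm (c : Bool) (s : ℝ) : ‖(sg c * I * s : ℂ)‖ = |s| := by
  rw [norm_mul, norm_mul, Complex.norm_real, Complex.norm_real, Complex.norm_I, Real.norm_eq_abs,
    Real.norm_eq_abs, ivd_sg, one_mul, one_mul]

/-- locally uniform bounds along the rays -/
private theorem ivd_bound {c : Bool} {x0 : ℂ} (hx0 : x0 ∈ Om c) :
    ∃ r > 0, ∃ δ > 0, ∃ C > 0, Metric.ball x0 r ⊆ Om c ∧
      ∀ x ∈ Metric.ball x0 r, ∀ s : ℝ, 0 ≤ s →
        (δ * (1 + s) ≤ ‖x - sg c * I * s‖ ∧ ‖x - sg c * I * s‖ ≤ C * (1 + s)) ∧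
        (δ * (1 + s) ≤ ‖1 - (x - sg c * I * s)‖ ∧ ‖1 - (x - sg c * I * s)‖ ≤ C * (1 + s)) := by
  obtain ⟨r, hr, hsub⟩ := Metric.nhds_basis_closedBall.mem_iff.1 ((Om_isOpen c).mem_nhds hx0)
  set R : ℝ := ‖x0‖ + r + 1 with hR
  have hR0 : 0 < R := by positivity
  set S : ℝ := 2 * R + 3 with hS
  have hS0 : 0 < S := by positivity
  have hK : IsCompact (Metric.closedBall x0 r ×ˢ Set.Icc (0 : ℝ) S) :=
    (isCompact_closedBall x0 r).prod isCompact_Icc
  have hne : (Metric.closedBall x0 r ×ˢ Set.Icc (0 : ℝ) S).Nonempty :=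
    ⟨(x0, 0), ⟨Metric.mem_closedBall_self hr.le, ⟨le_rfl, hS0.le⟩⟩⟩
  have hcont : Continuous fun z : ℂ × ℝ =>
      min ‖z.1 - sg c * I * z.2‖ ‖1 - (z.1 - sg c * I * z.2)‖ := by
    fun_prop
  obtain ⟨z0, hz0, hmin⟩ := hK.exists_isMinOn hne hcont.continuousOn
  set m : ℝ := min ‖z0.1 - sg c * I * z0.2‖ ‖1 - (z0.1 - sg c * I * z0.2)‖ with hm
  have hm0 : 0 < m := by
    have h1 := Om_ne (Om_ray (hsub hz0.1) hz0.2.1)
    rw [hm]
    refine lt_min (norm_pos_iff.2 h1.1) (norm_pos_iff.2 ?_)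
    exact sub_ne_zero.2 h1.2.symm
  refine ⟨r, hr, min (1 / 4) (m / (1 + S)), by positivity, R + 2, by positivity,
    Metric.ball_subset_closedBall.trans hsub, ?_⟩
  intro x hx s hs
  have hxR : ‖x‖ ≤ R - 1 := by
    have h1 : ‖x - x0‖ < r := by
      rw [← dist_eq_norm]; exact hx
    have h2 : ‖x‖ ≤ ‖x - x0‖ + ‖x0‖ := by
      have := norm_add_le (x - x0) x0
      simpa using this
    rw [hR]
    linarith
  have hds : ‖(sg c * I * s : ℂ)‖ = s := by rw [ivd_norm, abs_of_nonneg hs]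
  have hup1 : ‖x - sg c * I * s‖ ≤ R - 1 + s := by
    have := norm_sub_le x (sg c * I * s)
    rw [hds] at this
    linarith
  have hlo1 : s - (R - 1) ≤ ‖x - sg c * I * s‖ := by
    have := norm_sub_norm_le (sg c * I * s : ℂ) x
    rw [hds, norm_sub_rev] at this
    linarith
  have hup2 : ‖1 - (x - sg c * I * s)‖ ≤ R + s := by
    have := norm_sub_le 1 (x - sg c * I * s)
    rw [norm_one] at this
    linarith
  have hlo2 : s - R ≤ ‖1 - (x - sg c * I * s)‖ := by
    have h1 := norm_sub_norm_le (x - sg c * I * s) 1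
    have h2 : ‖x - sg c * I * s - 1‖ = ‖1 - (x - sg c * I * s)‖ := norm_sub_rev _ _
    rw [norm_one, h2] at h1
    linarith
  have hC : R + s ≤ (R + 2) * (1 + s) := by nlinarith
  have hδ : min (1 / 4) (m / (1 + S)) * (1 + s) ≤
      min ‖x - sg c * I * s‖ ‖1 - (x - sg c * I * s)‖ := by
    by_cases hsS : s ≤ S
    · have h1 := hmin (show (x, s) ∈ Metric.closedBall x0 r ×ˢ Set.Icc (0 : ℝ) S from
        ⟨Metric.ball_subset_closedBall hx, ⟨hs, hsS⟩⟩)
      have h2 : m ≤ min ‖x - sg c * I * s‖ ‖1 - (x - sg c * I * s)‖ := h1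
      refine le_trans ?_ h2
      have h3 : min (1 / 4) (m / (1 + S)) * (1 + s) ≤ m / (1 + S) * (1 + S) := by
        refine mul_le_mul (min_le_right _ _) (by linarith) (by linarith) (by positivity)
      refine h3.trans (le_of_eq ?_)
      field_simp
    · push Not at hsS
      have h3 : min (1 / 4) (m / (1 + S)) * (1 + s) ≤ 1 / 4 * (1 + s) :=
        mul_le_mul_of_nonneg_right (min_le_left _ _) (by linarith)
      refine le_min (h3.trans ?_) (h3.trans ?_) <;> linarith
  refine ⟨⟨hδ.trans (min_le_left _ _), by linarith⟩, ⟨hδ.trans (min_le_right _ _), by linarith⟩⟩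

private theorem ivd_rpow {t u δ C p : ℝ} (hδ : 0 < δ) (hu : 0 < u) (hC : 0 < C) (h1 : δ * u ≤ t)
    (h2 : t ≤ C * u) : t ^ (-p) ≤ (δ ^ (-p) + C ^ (-p)) * u ^ (-p) := by
  have ht : 0 < t := lt_of_lt_of_le (by positivity) h1
  have e1 : 0 ≤ δ ^ (-p) * u ^ (-p) := by positivity
  have e2 : 0 ≤ C ^ (-p) * u ^ (-p) := by positivity
  rw [add_mul]
  rcases le_total 0 p with hp | hp
  · have h3 : t ^ (-p) ≤ (δ * u) ^ (-p) :=
      Real.rpow_le_rpow_of_nonpos (by positivity) h1 (by linarith)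
    rw [Real.mul_rpow hδ.le hu.le] at h3
    linarith
  · have h3 : t ^ (-p) ≤ (C * u) ^ (-p) := Real.rpow_le_rpow ht.le h2 (by linarith)
    rw [Real.mul_rpow hC.le hu.le] at h3
    linarith

/-- all estimates in one statement -/
private theorem ivd_main {c : Bool} (p q : ℝ) {x0 : ℂ} (hx0 : x0 ∈ Om c) :
    ∃ r > 0, ∃ M > 0, Metric.ball x0 r ⊆ Om c ∧ ∀ x ∈ Metric.ball x0 r, ∀ s : ℝ, 0 ≤ s →
      ‖pw c p q (x - sg c * I * s)‖ ≤ M * (s + 1) ^ (-(p + q)) ∧
      ‖(-(p : ℂ) / (x - sg c * I * s) + q / (1 - (x - sg c * I * s))) *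
        pw c p q (x - sg c * I * s)‖ ≤ M * (s + 1) ^ (-(p + q)) := by
  obtain ⟨r, hr, δ, hδ, C, hC, hsub, hb⟩ := ivd_bound hx0
  set M : ℝ := (δ ^ (-p) + C ^ (-p)) * (δ ^ (-q) + C ^ (-q)) with hM
  have hM0 : 0 < M := by positivity
  refine ⟨r, hr, (1 + (|p| / δ + |q| / δ)) * M, by positivity, hsub, ?_⟩
  intro x hx s hs
  obtain ⟨⟨h1, h2⟩, h3, h4⟩ := hb x hx s hs
  have hu : 0 < 1 + s := by linarith
  have hne := Om_ne (Om_ray (hsub hx) hs)
  have e1 : ‖pw c p q (x - sg c * I * s)‖ ≤ M * (s + 1) ^ (-(p + q)) := by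
    rw [norm_pw c p q hne.1 hne.2]
    have f1 := ivd_rpow (p := p) hδ hu hC h1 h2
    have f2 := ivd_rpow (p := q) hδ hu hC h3 h4
    refine (mul_le_mul f1 f2 (by positivity) (by positivity)).trans (le_of_eq ?_)
    rw [show -(p + q) = -p + -q by ring, Real.rpow_add (by linarith), hM, add_comm s 1]
    ring
  have hpos : 0 ≤ M * (s + 1) ^ (-(p + q)) := by positivity
  refine ⟨?_, ?_⟩
  · have : 0 ≤ |p| / δ + |q| / δ := by positivity
    nlinarith
  · rw [norm_mul]
    have hδ1 : δ ≤ δ * (1 + s) := by nlinarith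
    have g1 : ‖(-(p : ℂ) / (x - sg c * I * s))‖ ≤ |p| / δ := by
      rw [norm_div, norm_neg, Complex.norm_real, Real.norm_eq_abs]
      exact div_le_div_of_nonneg_left (abs_nonneg _) hδ (hδ1.trans h1)
    have g2 : ‖((q : ℂ) / (1 - (x - sg c * I * s)))‖ ≤ |q| / δ := by
      rw [norm_div, Complex.norm_real, Real.norm_eq_abs]
      exact div_le_div_of_nonneg_left (abs_nonneg _) hδ (hδ1.trans h3)
    have g3 := norm_add_le (-(p : ℂ) / (x - sg c * I * s)) ((q : ℂ) / (1 - (x - sg c * I * s)))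
    have g4 : ‖(-(p : ℂ) / (x - sg c * I * s) + q / (1 - (x - sg c * I * s)))‖ ≤
        1 + (|p| / δ + |q| / δ) := by linarith
    calc _ ≤ (1 + (|p| / δ + |q| / δ)) * (M * (s + 1) ^ (-(p + q))) :=
          mul_le_mul g4 e1 (norm_nonneg _) (by positivity)
      _ = _ := by ring

private theorem ivd_deriv_x {c : Bool} (p q : ℝ) {x : ℂ} (hx : x ∈ Om c) {s : ℝ} (hs : 0 ≤ s) :
    HasDerivAt (fun x : ℂ => pw c p q (x - sg c * I * s))
      ((-(p : ℂ) / (x - sg c * I * s) + q / (1 - (x - sg c * I * s))) *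
        pw c p q (x - sg c * I * s)) x := by
  have h1 := pw_hasDerivAt p q (Om_ray hx hs)
  have h2 : HasDerivAt (fun x : ℂ => x - sg c * I * s) 1 x := (hasDerivAt_id x).sub_const _
  have h3 := h1.comp x h2
  rw [mul_one] at h3
  exact h3

private theorem ivd_deriv_s {c : Bool} (p q : ℝ) {x : ℂ} (hx : x ∈ Om c) {s : ℝ} (hs : 0 ≤ s) :
    HasDerivAt (fun s : ℝ => pw c p q (x - sg c * I * s))
      (-(sg c * I) * ((-(p : ℂ) / (x - sg c * I * s) + q / (1 - (x - sg c * I * s))) *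
        pw c p q (x - sg c * I * s))) s := by
  have h1 := pw_hasDerivAt p q (Om_ray hx hs)
  have h2 : HasDerivAt (fun s : ℝ => x - sg c * I * (s : ℂ)) (-(sg c * I)) s := by
    have h3 : HasDerivAt (fun s : ℝ => (s : ℂ)) 1 s := Complex.ofRealCLM.hasDerivAt
    have h4 := (h3.const_mul (sg c * I : ℂ)).const_sub x
    rw [mul_one] at h4
    exact h4
  have h5 := h1.comp_of_eq s h2 rfl
  have h6 : (-(p : ℂ) / (x - sg c * I * s) + q / (1 - (x - sg c * I * s))) *
      pw c p q (x - sg c * I * s) * -(sg c * I) = -(sg c * I) * ((-(p : ℂ) / (x - sg c * I * s) +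
      q / (1 - (x - sg c * I * s))) * pw c p q (x - sg c * I * s)) := mul_comm _ _
  rw [h6] at h5
  exact h5

private theorem ivd_contOn {c : Bool} (p q : ℝ) {x : ℂ} (hx : x ∈ Om c) :
    ContinuousOn (fun s : ℝ => pw c p q (x - sg c * I * s)) (Set.Ioi 0) :=
  fun _ hs => (ivd_deriv_s p q hx (le_of_lt hs)).continuousAt.continuousWithinAt

private theorem ivd_contOn' {c : Bool} (p q : ℝ) {x : ℂ} (hx : x ∈ Om c) :
    ContinuousOn (fun s : ℝ => (-(p : ℂ) / (x - sg c * I * s) + q / (1 - (x - sg c * I * s))) *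
        pw c p q (x - sg c * I * s)) (Set.Ioi 0) := by
  refine ContinuousOn.mul ?_ (ivd_contOn p q hx)
  have h1 : ∀ s ∈ Set.Ioi (0 : ℝ), x - sg c * I * (s : ℂ) ≠ 0 ∧
      1 - (x - sg c * I * (s : ℂ)) ≠ 0 := by
    intro s hs
    have h := Om_ne (Om_ray hx (le_of_lt hs))
    exact ⟨h.1, sub_ne_zero.2 h.2.symm⟩
  refine ContinuousOn.add ?_ ?_
  · exact ContinuousOn.div (by fun_prop) (by fun_prop) fun s hs => (h1 s hs).1
  · exact ContinuousOn.div (by fun_prop) (by fun_prop) fun s hs => (h1 s hs).2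

private theorem ivd_bint {p q : ℝ} (h : 1 < p + q) (M : ℝ) :
    MeasureTheory.IntegrableOn (fun s : ℝ => M * (s + 1) ^ (-(p + q))) (Set.Ioi 0) :=
  (integrableOn_add_rpow_Ioi_of_lt (by linarith) (by norm_num)).const_mul M

theorem Iv_integrable {c : Bool} {p q : ℝ} (h : 1 < p + q) {x : ℂ} (hx : x ∈ Om c) :
    MeasureTheory.IntegrableOn (fun s : ℝ => pw c p q (x - sg c * I * s)) (Set.Ioi 0) := by
  obtain ⟨r, hr, M, hM, hsub, hb⟩ := ivd_main p q hx
  refine MeasureTheory.Integrable.mono' (ivd_bint h M)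
    ((ivd_contOn p q hx).aestronglyMeasurable measurableSet_Ioi) ?_
  refine (MeasureTheory.ae_restrict_iff' measurableSet_Ioi).2 (Filter.Eventually.of_forall ?_)
  intro s hs
  exact (hb x (Metric.mem_ball_self hr) s (le_of_lt hs)).1

theorem Iv_hasDerivAt {c : Bool} {p q : ℝ} (h : 1 < p + q) {x : ℂ} (hx : x ∈ Om c) :
    HasDerivAt (Iv c p q) (pw c p q x) x := by
  obtain ⟨r, hr, M, hM, hsub, hb⟩ := ivd_main p q hx
  have hball : Metric.ball x r ∈ nhds x := Metric.ball_mem_nhds x hr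
  obtain ⟨hint, hder⟩ := hasDerivAt_integral_of_dominated_loc_of_deriv_le
    (μ := MeasureTheory.volume.restrict (Set.Ioi (0 : ℝ)))
    (F := fun (x : ℂ) (s : ℝ) => pw c p q (x - sg c * I * s))
    (F' := fun (x : ℂ) (s : ℝ) => (-(p : ℂ) / (x - sg c * I * s) +
      q / (1 - (x - sg c * I * s))) * pw c p q (x - sg c * I * s))
    (bound := fun s : ℝ => M * (s + 1) ^ (-(p + q))) (x₀ := x) hball
    (Filter.eventually_of_mem hball fun y hy =>
      (ivd_contOn p q (hsub hy)).aestronglyMeasurable measurableSet_Ioi)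
    (Iv_integrable h hx)
    ((ivd_contOn' p q hx).aestronglyMeasurable measurableSet_Ioi)
    ((MeasureTheory.ae_restrict_iff' measurableSet_Ioi).2 (Filter.Eventually.of_forall
      fun s hs y hy => (hb y hy s (le_of_lt hs)).2))
    (ivd_bint h M)
    ((MeasureTheory.ae_restrict_iff' measurableSet_Ioi).2 (Filter.Eventually.of_forall
      fun s hs y hy => ivd_deriv_x p q (hsub hy) (le_of_lt hs)))
  have htend : Filter.Tendsto (fun s : ℝ => pw c p q (x - sg c * I * s)) Filter.atTop (nhds 0) := by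
    rw [tendsto_zero_iff_norm_tendsto_zero]
    have h1 : Filter.Tendsto (fun s : ℝ => M * (s + 1) ^ (-(p + q))) Filter.atTop (nhds 0) := by
      have h2 := (tendsto_rpow_neg_atTop (y := p + q) (by linarith)).comp
        (Filter.tendsto_atTop_add_const_right Filter.atTop (1 : ℝ) Filter.tendsto_id)
      have h3 := h2.const_mul M
      rw [mul_zero] at h3
      exact h3
    refine squeeze_zero' (Filter.Eventually.of_forall fun s => norm_nonneg _) ?_ h1
    filter_upwards [Filter.eventually_ge_atTop (0 : ℝ)] with s hs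
    exact (hb x (Metric.mem_ball_self hr) s hs).1
  have hftc := MeasureTheory.integral_Ioi_of_hasDerivAt_of_tendsto'
    (f := fun s : ℝ => pw c p q (x - sg c * I * s)) (a := 0)
    (fun s hs => ivd_deriv_s p q hx hs) (hint.const_mul (-(sg c * I : ℂ))) htend
  rw [MeasureTheory.integral_const_mul] at hftc
  have hres : (sg c * I : ℂ) * ∫ s in Set.Ioi (0 : ℝ), (-(p : ℂ) / (x - sg c * I * s) +
      q / (1 - (x - sg c * I * s))) * pw c p q (x - sg c * I * s) = pw c p q x := by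
    have h0 : (x - sg c * I * ((0 : ℝ) : ℂ)) = x := by
      rw [Complex.ofReal_zero, mul_zero, sub_zero]
    rw [h0] at hftc
    linear_combination -hftc
  have h5 := hder.const_mul (sg c * I : ℂ)
  rw [hres] at h5
  exact h5

theorem Iv_conj {p q : ℝ} {x : ℂ} (hx : x ∈ Om false) :
    Iv true p q (conj x) = conj (Iv false p q x) := by
  unfold Iv
  rw [map_mul, ← integral_conj]
  have h1 : ((sg true : ℂ) * I) = conj ((sg false : ℂ) * I) := by
    simp [sg]
  rw [h1]
  congr 1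
  refine MeasureTheory.setIntegral_congr_fun measurableSet_Ioi fun s hs => ?_
  have h2 : (starRingEnd ℂ) x - (starRingEnd ℂ) ((sg false : ℂ) * I) * (s : ℂ) =
      conj (x - sg false * I * s) := by
    rw [map_sub, map_mul _ ((sg false : ℂ) * I), conj_ofReal]
  show pw true p q (conj x - conj ((sg false : ℂ) * I) * s) = _
  rw [h2, pw_conj p q (Om_ray hx (le_of_lt hs))]

end

end Pool.Agent.RHT
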