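import Pool.Agent.RHT.NFDefs

/-!
RHT-NFd. Holomorphic functions of several variables near a point. Plan: let `Ψ` be differentiable on
the ball of radius `2r` around `x0`. For `w = Pi.single j 1` (or any `w` with `‖w‖ ≤ 1`)
and `x` in the ball of radius `r`: `fderiv ℂ Ψ x w = (2 π I)⁻¹ ∮_{|z|=r/2} Ψ (x + z w) / z^2` (one
variable Cauchy formula for `z ↦ Ψ (x + z w)`), and the right side is differentiable in `x`
(differentiation under the integral, `hasFDerivAt_integral_of_dominated_of_fderiv_le`; the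
derivative of `Ψ` is bounded on compact subsets by Cauchy estimates in all directions). This is the
local form of `Pool/Agent/RHK/Ent.lean` (`ent_fderiv`; copy and adapt that proof, radius `r/2`
instead of `1`). So all `fun x => fderiv ℂ Ψ x w` are differentiable near `x0`, hence `fderiv ℂ Ψ` is
continuous near `x0` (finite dimension: a continuous linear map on `ι → ℂ` is determined by its
values at `Pi.single j 1`), and `hasStrictFDerivAt_of_hasFDerivAt_of_continuousAt`; symmetry:
`second_derivative_symmetric_of_eventually` or `ContDiffAt.isSymmSndFDerivAt` for `ContDiffAt ℂ 2`.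
-/

set_option autoImplicit false

namespace Pool.Agent.RHT

open Complex Finset Filter Topology

noncomputable section

variable {ι : Type} [Fintype ι] [DecidableEq ι] {x0 : ι → ℂ}

omit [Fintype ι] [DecidableEq ι] in
private lemma nfd_line [Fintype ι] {f : (ι → ℂ) → ℂ} (v w : ι → ℂ) (s : ℂ)
    (h : DifferentiableAt ℂ f (v + s • w)) :
    HasDerivAt (fun t : ℂ => f (v + t • w)) (fderiv ℂ f (v + s • w) w) s := by
  have h1 : HasDerivAt (fun t : ℂ => v + t • w) w s := by
    simpa using ((hasDerivAt_id s).smul_const w).const_add v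
  exact h.hasFDerivAt.comp_hasDerivAt s h1

omit [DecidableEq ι] in
private lemma nfd_bound {f : (ι → ℂ) → ℂ} (x : ι → ℂ) {s M : ℝ} (hs : 0 < s)
    (h : ∀ y, ‖y - x‖ ≤ s → DifferentiableAt ℂ f y)
    (hM : ∀ y, ‖y - x‖ ≤ s → ‖f y‖ ≤ M) : ‖fderiv ℂ f x‖ ≤ M / s := by
  have hM0 : 0 ≤ M := (norm_nonneg _).trans (hM x (by simpa using hs.le))
  refine ContinuousLinearMap.opNorm_le_bound _ (by positivity) (fun u => ?_)
  by_cases hu : u = 0
  · simp [hu]
  have hu' : 0 < ‖u‖ := norm_pos_iff.2 hu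
  have hin : ∀ t ∈ Metric.closedBall (0 : ℂ) (s / ‖u‖), ‖(x + t • u) - x‖ ≤ s := by
    intro t ht
    rw [mem_closedBall_iff_norm, sub_zero] at ht
    rw [add_sub_cancel_left, norm_smul]
    calc ‖t‖ * ‖u‖ ≤ s / ‖u‖ * ‖u‖ := mul_le_mul_of_nonneg_right ht hu'.le
      _ = s := by field_simp
  have h1 := nfd_line (f := f) x u 0 (h _ (by simpa using hs.le))
  rw [zero_smul, add_zero] at h1
  have h2 : DifferentiableOn ℂ (fun t : ℂ => f (x + t • u)) (Metric.closedBall 0 (s / ‖u‖)) :=
    fun t ht => (nfd_line x u t (h _ (hin t ht))).differentiableAt.differentiableWithinAt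
  have h3 := Complex.norm_deriv_le_of_forall_mem_sphere_norm_le (c := 0) (R := s / ‖u‖) (C := M)
    (by positivity) (h2.diffContOnCl_ball subset_rfl) (fun z hz =>
      hM _ (hin z (Metric.sphere_subset_closedBall hz)))
  rw [h1.deriv] at h3
  calc ‖(fderiv ℂ f x) u‖ ≤ M / (s / ‖u‖) := h3
    _ = M / s * ‖u‖ := by field_simp

/-- directional derivatives of a function differentiable near `x0` are differentiable near `x0` -/
theorem dir_diff {f : (ι → ℂ) → ℂ} (h : ∀ᶠ x in 𝓝 x0, DifferentiableAt ℂ f x) (w : ι → ℂ) :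
    ∀ᶠ x in 𝓝 x0, DifferentiableAt ℂ (fun x => fderiv ℂ f x w) x := by
  obtain ⟨R, hR, hd⟩ := Metric.eventually_nhds_iff_ball.1 h
  letI : MeasurableSpace (ι → ℂ) := borel (ι → ℂ)
  haveI : BorelSpace (ι → ℂ) := ⟨rfl⟩
  set ρ : ℝ := R / 4 / (‖w‖ + 1) with hρdef
  have hw1 : 0 < ‖w‖ + 1 := by positivity
  have hρ : 0 < ρ := by rw [hρdef]; positivity
  have hρw : ρ * ‖w‖ ≤ R / 4 := by
    rw [hρdef, div_mul_eq_mul_div, div_le_iff₀ hw1]
    nlinarith [norm_nonneg w]
  have hmem : ∀ x, ‖x - x0‖ < R / 4 → ∀ t : ℂ, ‖t‖ ≤ ρ → ‖(x + t • w) - x0‖ < R / 2 := by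
    intro x hx t ht
    have h1 : (x + t • w) - x0 = (x - x0) + t • w := by abel
    rw [h1]
    have h2 : ‖t • w‖ ≤ R / 4 := by
      rw [norm_smul]
      exact (mul_le_mul_of_nonneg_right ht (norm_nonneg w)).trans hρw
    calc ‖(x - x0) + t • w‖ ≤ ‖x - x0‖ + ‖t • w‖ := norm_add_le _ _
      _ < R / 4 + R / 4 := by linarith
      _ = R / 2 := by ring
  have hdn : ∀ y, ‖y - x0‖ < R → DifferentiableAt ℂ f y := fun y hy => hd y (by
    rw [Metric.mem_ball, dist_eq_norm]
    exact hy)
  set c : ℝ → ℂ := fun θ => deriv (circleMap 0 ρ) θ * (1 / (circleMap 0 ρ θ - 0) ^ 2) with hc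
  have hcm : ∀ θ, ‖circleMap 0 ρ θ‖ = ρ := fun θ => by simp [abs_of_pos hρ]
  have hcn : ∀ θ, ‖c θ‖ = ρ⁻¹ := fun θ => by
    rw [hc]
    simp only [norm_mul, norm_div, norm_pow, sub_zero, norm_one, hcm, deriv_circleMap, norm_I,
      mul_one]
    field_simp
  have hne : ∀ θ, circleMap 0 ρ θ ≠ 0 := fun θ h0 => by
    have := hcm θ
    rw [h0, norm_zero] at this
    exact hρ.ne this
  have hcc : Continuous c := by
    rw [hc]
    have e : (fun θ => deriv (circleMap 0 ρ) θ * (1 / (circleMap 0 ρ θ - 0) ^ 2)) =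
        fun θ : ℝ => (circleMap 0 ρ θ * I) * (1 / (circleMap 0 ρ θ - 0) ^ 2) := by
      funext θ; rw [deriv_circleMap]
    rw [e]
    have h1 : Continuous (circleMap 0 ρ) := continuous_circleMap 0 ρ
    refine (h1.mul continuous_const).mul (continuous_const.div ((h1.sub continuous_const).pow 2) ?_)
    intro θ
    rw [sub_zero]
    exact pow_ne_zero _ (hne θ)
  have hint : ∀ v, ‖v - x0‖ < R / 4 → fderiv ℂ f v w = (2 * Real.pi * I)⁻¹ *
      ∫ θ in (0 : ℝ)..2 * Real.pi, c θ * f (v + circleMap 0 ρ θ • w) := by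
    intro v hv
    have h2 : DifferentiableOn ℂ (fun t : ℂ => f (v + t • w)) (Metric.closedBall 0 ρ) := by
      intro t ht
      rw [mem_closedBall_iff_norm, sub_zero] at ht
      refine (nfd_line v w t (hdn _ ?_)).differentiableAt.differentiableWithinAt
      exact (hmem v hv t ht).trans (by linarith)
    have h3 := h2.deriv_eq_smul_circleIntegral hρ
    have h4 := (nfd_line (f := f) v w 0 (hdn _ (by
      rw [zero_smul, add_zero]
      exact hv.trans (by linarith)))).deriv
    rw [zero_smul, add_zero] at h4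
    rw [h4, smul_eq_mul] at h3
    have h5 : (∮ z in C(0, ρ), (1 / (z - 0) ^ 2) • f (v + z • w)) =
        ∫ θ in (0 : ℝ)..2 * Real.pi, c θ * f (v + circleMap 0 ρ θ • w) := by
      rw [circleIntegral]
      refine intervalIntegral.integral_congr (fun θ _ => ?_)
      simp only [smul_eq_mul, hc]
      ring
    rw [h5] at h3
    rw [h3, inv_mul_cancel_left₀]
    exact Complex.two_pi_I_ne_zero
  have hcomp : ContinuousOn f (Metric.closedBall x0 (3 * R / 4)) := by
    intro y hy
    rw [Metric.mem_closedBall, dist_eq_norm] at hy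
    exact (hdn y (by linarith)).continuousAt.continuousWithinAt
  obtain ⟨M, hM⟩ := (isCompact_closedBall x0 (3 * R / 4)).exists_bound_of_continuousOn hcomp
  have hfd : ∀ y, ‖y - x0‖ < R / 2 → ‖fderiv ℂ f y‖ ≤ M / (R / 4) := by
    intro y hy
    have hyy : ∀ y', ‖y' - y‖ ≤ R / 4 → ‖y' - x0‖ ≤ 3 * R / 4 := by
      intro y' hy'
      have h1 : y' - x0 = (y' - y) + (y - x0) := by abel
      rw [h1]
      exact (norm_add_le _ _).trans (by linarith)
    refine nfd_bound y (by positivity) (fun y' hy' => hdn y' ?_) (fun y' hy' => hM y' ?_)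
    · have := hyy y' hy'
      linarith
    · rw [Metric.mem_closedBall, dist_eq_norm]
      exact hyy y' hy'
  have hcont : ∀ v, ‖v - x0‖ < R / 4 → Continuous (fun θ : ℝ => f (v + circleMap 0 ρ θ • w)) := by
    intro v hv
    have hcs : Continuous (fun θ : ℝ => v + circleMap 0 ρ θ • w) :=
      continuous_const.add ((continuous_circleMap 0 ρ).smul continuous_const)
    rw [continuous_iff_continuousAt]
    intro θ
    exact ContinuousAt.comp (f := fun θ : ℝ => v + circleMap 0 ρ θ • w) (g := f)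
      (hdn _ ((hmem v hv _ (hcm θ).le).trans (by linarith))).continuousAt hcs.continuousAt
  refine Metric.eventually_nhds_iff_ball.2 ⟨R / 8, by positivity, fun x₁ hx₁ => ?_⟩
  rw [Metric.mem_ball, dist_eq_norm] at hx₁
  have hball : ∀ y ∈ Metric.ball x₁ (R / 8), ‖y - x0‖ < R / 4 := by
    intro y hy
    rw [Metric.mem_ball, dist_eq_norm] at hy
    have h1 : y - x0 = (y - x₁) + (x₁ - x0) := by abel
    rw [h1]
    exact (norm_add_le _ _).trans_lt (by linarith)
  have hx₁' : ‖x₁ - x0‖ < R / 4 := by linarith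
  have key := intervalIntegral.hasFDerivAt_integral_of_dominated_of_fderiv_le (𝕜 := ℂ)
    (μ := MeasureTheory.volume) (a := 0) (b := 2 * Real.pi)
    (F := fun (x : ι → ℂ) (θ : ℝ) => c θ * f (x + circleMap 0 ρ θ • w))
    (F' := fun (x : ι → ℂ) (θ : ℝ) => c θ • fderiv ℂ f (x + circleMap 0 ρ θ • w))
    (x₀ := x₁) (s := Metric.ball x₁ (R / 8)) (bound := fun _ => ρ⁻¹ * (M / (R / 4)))
    (Metric.ball_mem_nhds x₁ (by positivity)) ?_ ?_ ?_ ?_ ?_ ?_
  · have h1 : DifferentiableAt ℂ (fun v => (2 * Real.pi * I : ℂ)⁻¹ *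
        ∫ θ in (0 : ℝ)..2 * Real.pi, c θ * f (v + circleMap 0 ρ θ • w)) x₁ :=
      key.differentiableAt.const_mul _
    refine h1.congr_of_eventuallyEq ?_
    filter_upwards [Metric.ball_mem_nhds x₁ (show 0 < R / 8 by positivity)] with y hy
    exact hint y (hball y hy)
  · filter_upwards [Metric.ball_mem_nhds x₁ (show 0 < R / 8 by positivity)] with y hy
    exact (hcc.mul (hcont y (hball y hy))).aestronglyMeasurable
  · exact (hcc.mul (hcont x₁ hx₁')).intervalIntegrable _ _
  · refine Measurable.aestronglyMeasurable ?_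
    refine hcc.measurable.smul ?_
    exact (measurable_fderiv ℂ f).comp
      (continuous_const.add ((continuous_circleMap 0 ρ).smul continuous_const)).measurable
  · refine Filter.Eventually.of_forall (fun θ _ x hx => ?_)
    rw [norm_smul, hcn]
    exact mul_le_mul_of_nonneg_left (hfd _ (hmem x (hball x hx) _ (hcm θ).le)) (by positivity)
  · exact intervalIntegrable_const
  · refine Filter.Eventually.of_forall (fun θ _ x hx => ?_)
    have h1 : HasFDerivAt (fun x : ι → ℂ => x + circleMap 0 ρ θ • w)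
        (ContinuousLinearMap.id ℂ (ι → ℂ)) x := (hasFDerivAt_id x).add_const _
    have h2 := (hdn (x + circleMap 0 ρ θ • w)
      ((hmem x (hball x hx) _ (hcm θ).le).trans (by linarith))).hasFDerivAt.comp x h1
    rw [ContinuousLinearMap.comp_id] at h2
    exact h2.const_mul (c θ)

theorem pd_diff {f : (ι → ℂ) → ℂ} (h : ∀ᶠ x in 𝓝 x0, DifferentiableAt ℂ f x) (j : ι) :
    ∀ᶠ x in 𝓝 x0, DifferentiableAt ℂ (pd j f) x :=
  dir_diff h (Pi.single j 1)

omit [DecidableEq ι] in
private lemma nfd_cont {f : (ι → ℂ) → ℂ}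
    (h : ∀ w : ι → ℂ, ContinuousAt (fun x => fderiv ℂ f x w) x0) :
    ContinuousAt (fderiv ℂ f) x0 := by
  classical
  have h2 : fderiv ℂ f = fun x => ∑ j : ι, (fderiv ℂ f x (Pi.single j 1)) •
      (ContinuousLinearMap.proj j : (ι → ℂ) →L[ℂ] ℂ) := by
    funext x
    refine ContinuousLinearMap.ext fun w => ?_
    conv_lhs => rw [← Finset.univ_sum_single w]
    rw [map_sum, ContinuousLinearMap.sum_apply]
    refine Finset.sum_congr rfl fun j _ => ?_
    rw [ContinuousLinearMap.smul_apply, ContinuousLinearMap.proj_apply, smul_eq_mul, mul_comm]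
    have h3 : (Pi.single j (w j) : ι → ℂ) = w j • (Pi.single j 1 : ι → ℂ) := by
      rw [← Pi.single_smul, smul_eq_mul, mul_one]
    rw [h3, map_smul, smul_eq_mul]
  rw [h2]
  refine tendsto_finset_sum _ fun j _ => ?_
  exact (h (Pi.single j 1)).smul continuousAt_const

/-- a function differentiable near `x0` is strictly differentiable at `x0` -/
theorem strict_of_diff {f : (ι → ℂ) → ℂ} (h : ∀ᶠ x in 𝓝 x0, DifferentiableAt ℂ f x) :
    HasStrictFDerivAt f (fderiv ℂ f x0) x0 := by
  refine hasStrictFDerivAt_of_hasFDerivAt_of_continuousAt (h.mono fun x hx => hx.hasFDerivAt) ?_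
  exact nfd_cont fun w => (dir_diff h w).self_of_nhds.continuousAt

/-- the derivative map is differentiable near `x0` -/
private lemma nfd_fderiv {f : (ι → ℂ) → ℂ} (h : ∀ᶠ x in 𝓝 x0, DifferentiableAt ℂ f x) :
    DifferentiableAt ℂ (fderiv ℂ f) x0 := by
  have h2 : fderiv ℂ f = fun x => ∑ j : ι, (fderiv ℂ f x (Pi.single j 1)) •
      (ContinuousLinearMap.proj j : (ι → ℂ) →L[ℂ] ℂ) := by
    funext x
    refine ContinuousLinearMap.ext fun w => ?_
    conv_lhs => rw [← Finset.univ_sum_single w]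
    rw [map_sum, ContinuousLinearMap.sum_apply]
    refine Finset.sum_congr rfl fun j _ => ?_
    rw [ContinuousLinearMap.smul_apply, ContinuousLinearMap.proj_apply, smul_eq_mul, mul_comm]
    have h3 : (Pi.single j (w j) : ι → ℂ) = w j • (Pi.single j 1 : ι → ℂ) := by
      rw [← Pi.single_smul, smul_eq_mul, mul_one]
    rw [h3, map_smul, smul_eq_mul]
  rw [h2]
  refine DifferentiableAt.fun_sum fun j _ => ?_
  exact ((dir_diff h (Pi.single j 1)).self_of_nhds).smul_const _

/-- partial derivatives commute -/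
theorem pd_symm {f : (ι → ℂ) → ℂ} (h : ∀ᶠ x in 𝓝 x0, DifferentiableAt ℂ f x) (i j : ι) :
    pd i (pd j f) x0 = pd j (pd i f) x0 := by
  have hd := nfd_fderiv h
  have e : ∀ a b : ι → ℂ, fderiv ℂ (fun v => fderiv ℂ f v a) x0 b =
      fderiv ℂ (fderiv ℂ f) x0 b a := by
    intro a b
    have h3 : HasFDerivAt (fun v => fderiv ℂ f v a) ((fderiv ℂ (fderiv ℂ f) x0).flip a) x0 := by
      have h4 := hd.hasFDerivAt.clm_apply (hasFDerivAt_const a x0)
      simpa using h4
    rw [h3.fderiv]
    rfl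
  change fderiv ℂ (fun v => fderiv ℂ f v (Pi.single j 1)) x0 (Pi.single i 1) =
    fderiv ℂ (fun v => fderiv ℂ f v (Pi.single i 1)) x0 (Pi.single j 1)
  rw [e, e]
  exact second_derivative_symmetric_of_eventually (h.mono fun x hx => hx.hasFDerivAt)
    hd.hasFDerivAt _ _

end

end Pool.Agent.RHT
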