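import Pool.Agent.RHT.Defs2
import Pool.Agent.RHT.IvD
import Pool.Agent.RHT.NFd

/-!
RHT-H6a. Derivatives of the point `v = C(y) + κ - ∑ C(q_i)`. From `Iv_hasDerivAt`, `F_pt`
and the chain rule.
-/

set_option autoImplicit false

namespace Pool.Agent.RHT.Par

open Complex ComplexConjugate Finset Filter Topology

noncomputable section

variable {P : Par}

theorem Cv_hasDerivAt {c : Bool} (k : ℤ) {x : ℂ} (hx : x ∈ Om c) (t : P.Ix) :
    HasDerivAt (fun x => P.Cv c k x t) (P.F t (P.pt c k x)) x := by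
  have ht := P.al_add_be_Phi t.2
  have h0 := (P.Phi_pos t.2).1
  have hD : (0 : ℝ) < P.D := by
    have h3 := P.hD
    exact_mod_cast (by omega : 0 < P.D)
  have h1 : 1 < P.al t + P.be t := by
    rw [ht]
    have h2 : (0 : ℝ) < ((t : ℕ) : ℝ) / P.D := div_pos (by exact_mod_cast h0) hD
    linarith
  have h := (Iv_hasDerivAt h1 hx).const_mul (P.ze ^ (-(k * ((t : ℕ) : ℤ))))
  rw [← F_pt P t k hx] at h
  exact h

/-- the derivative of the integral of the second kind -/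
def Jd (P : Par) (c : Bool) (k : ℤ) (x : ℂ) (t : ℕ) : ℂ :=
  P.ze ^ (k * (t : ℕ)) * pw c (2 - P.al t) (1 - P.be t) x

theorem Jv_hasDerivAt {c : Bool} (k : ℤ) {x : ℂ} (hx : x ∈ Om c) (t : P.Ix) :
    HasDerivAt (fun x => P.Jv c k x t) (P.Jd c k x t) x := by
  have h1 : 1 < (2 - P.al t) + (1 - P.be t) := by
    have h2 := P.al_lt_one t
    have h3 := P.be_lt_one t
    linarith
  exact (Iv_hasDerivAt h1 hx).const_mul (P.ze ^ (k * ((t : ℕ) : ℤ)))

/-- `Jd = 1 / (x^2 (1-x) F_t)` -/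
theorem Jd_eq {c : Bool} (k : ℤ) {x : ℂ} (hx : x ∈ Om c) (t : ℕ) :
    P.Jd c k x t = (x ^ 2 * (1 - x) * P.F t (P.pt c k x))⁻¹ := by
  obtain ⟨h0, h1⟩ := Om_ne hx
  have h2 : (1 : ℂ) - x ≠ 0 := sub_ne_zero.2 h1.symm
  have e1 : pw c (2 - P.al t) (1 - P.be t) x = x ^ (-2 : ℤ) * (1 - x) ^ (-1 : ℤ) *
      pw c (-P.al t) (-P.be t) x := by
    have e2 := pw_add c ((2 : ℤ) : ℝ) ((1 : ℤ) : ℝ) (-P.al t) (-P.be t) x
    rw [pw_int c 2 1 h0 h1] at e2
    have e7 : ((2 : ℤ) : ℝ) + -P.al t = 2 - P.al t := by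
      norm_num
      ring
    have e8 : ((1 : ℤ) : ℝ) + -P.be t = 1 - P.be t := by
      norm_num
      ring
    rw [← e2, e7, e8]
  have e3 : pw c (-P.al t) (-P.be t) x * pw c (P.al t) (P.be t) x = 1 := by
    rw [← pw_add, neg_add_cancel, neg_add_cancel]
    simp [pw]
  have e4 : P.ze ^ (k * (t : ℤ)) * P.ze ^ (-(k * (t : ℤ))) = 1 := by
    rw [← zpow_add₀ P.ze_ne, add_neg_cancel, zpow_zero]
  rw [F_pt P t k hx]
  refine eq_inv_of_mul_eq_one_left ?_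
  unfold Jd
  rw [e1]
  have e5 : x ^ (-2 : ℤ) * x ^ 2 = 1 := by
    rw [zpow_neg]
    exact inv_mul_cancel₀ (pow_ne_zero 2 h0)
  have e6 : (1 - x) ^ (-1 : ℤ) * (1 - x) = 1 := by
    rw [zpow_neg, zpow_one]
    exact inv_mul_cancel₀ h2
  calc P.ze ^ (k * (t : ℤ)) * (x ^ (-2 : ℤ) * (1 - x) ^ (-1 : ℤ) * pw c (-P.al t) (-P.be t) x) *
        (x ^ 2 * (1 - x) * (P.ze ^ (-(k * (t : ℤ))) * pw c (P.al t) (P.be t) x))
      = (P.ze ^ (k * (t : ℤ)) * P.ze ^ (-(k * (t : ℤ)))) * (x ^ (-2 : ℤ) * x ^ 2) *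
        ((1 - x) ^ (-1 : ℤ) * (1 - x)) *
        (pw c (-P.al t) (-P.be t) x * pw c (P.al t) (P.be t) x) := by ring
    _ = 1 := by rw [e3, e4, e5, e6]; ring

variable {θ : P.Th} (z : P.ZD θ)

theorem ZD.v_diff_x {x : P.Ix → ℂ} (hx : x ∈ z.U) (c' : Bool) (k' : ℤ) (y : ℂ) :
    DifferentiableAt ℂ (fun x => z.v c' k' y x) x := by
  have h1 : ∀ i : P.Ix, DifferentiableAt ℂ (fun x : P.Ix → ℂ => P.Cv (z.c i) (z.k i) (x i)) x := by
    intro i
    have h2 : DifferentiableAt ℂ (P.Cv (z.c i) (z.k i)) (x i) :=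
      differentiableAt_pi.2 fun t => (Cv_hasDerivAt (z.k i) (z.om x hx i) t).differentiableAt
    exact DifferentiableAt.comp (g := P.Cv (z.c i) (z.k i)) (f := fun x : P.Ix → ℂ => x i) x h2
      (differentiableAt_apply i x)
  have h3 : DifferentiableAt ℂ (fun x : P.Ix → ℂ => ∑ i, P.Cv (z.c i) (z.k i) (x i)) x :=
    DifferentiableAt.fun_sum fun i _ => h1 i
  exact (h3.const_sub z.kap).const_add (P.Cv c' k' y)

theorem ZD.v_pd {x : P.Ix → ℂ} (hx : x ∈ z.U) (c' : Bool) (k' : ℤ) (y : ℂ) (j s : P.Ix) :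
    pd j (fun x => z.v c' k' y x s) x = -P.F s (z.q x j) := by
  have h1 : ∀ i : P.Ix, HasFDerivAt (fun x : P.Ix → ℂ => P.Cv (z.c i) (z.k i) (x i) s)
      (P.F s (z.q x i) • (ContinuousLinearMap.proj (R := ℂ) (φ := fun _ : P.Ix => ℂ) i)) x := by
    intro i
    have h2 := Cv_hasDerivAt (z.k i) (z.om x hx i) s
    have h3 : HasFDerivAt (fun x : P.Ix → ℂ => x i)
        (ContinuousLinearMap.proj (R := ℂ) (φ := fun _ : P.Ix => ℂ) i) x :=
      (ContinuousLinearMap.proj (R := ℂ) (φ := fun _ : P.Ix => ℂ) i).hasFDerivAt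
    exact HasDerivAt.comp_hasFDerivAt (h₂ := fun x => P.Cv (z.c i) (z.k i) x s)
      (f := fun x : P.Ix → ℂ => x i) x h2 h3
  have h3 := (HasFDerivAt.fun_sum (u := Finset.univ) fun i _ => h1 i).const_sub (z.kap s)
  have h4 := h3.const_add (P.Cv c' k' y s)
  have h5 : (fun x : P.Ix → ℂ => P.Cv c' k' y s + (z.kap s - ∑ i, P.Cv (z.c i) (z.k i) (x i) s)) =
      fun x => z.v c' k' y x s := by
    funext x
    show _ = P.Cv c' k' y s + (z.kap s - (∑ i, P.Cv (z.c i) (z.k i) (x i)) s)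
    rw [Finset.sum_apply]
  rw [h5] at h4
  unfold pd
  rw [h4.fderiv]
  show -((∑ i, P.F s (z.q x i) • (ContinuousLinearMap.proj (R := ℂ) (φ := fun _ : P.Ix => ℂ) i))
    (Pi.single j 1)) = _
  rw [_root_.sum_apply, Finset.sum_eq_single j]
  · simp
  · intro i _ hij
    simp [Pi.single_eq_of_ne hij]
  · intro h
    exact absurd (Finset.mem_univ j) h

theorem ZD.v_hasDerivAt (x : P.Ix → ℂ) {c' : Bool} (k' : ℤ) {y : ℂ} (hy : y ∈ Om c') :
    HasDerivAt (fun y => z.v c' k' y x) (fun t : P.Ix => P.F t (P.pt c' k' y)) y := by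
  refine hasDerivAt_pi.2 fun t => ?_
  exact (Cv_hasDerivAt k' hy t).add_const (z.u x t)

end

end Pool.Agent.RHT.Par
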