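import Pool.Agent.RHT.H6a

/-!
RHT-H6b. The logarithmic derivatives `L t = pd t T / T` of an entire function `T` and the second
logarithmic derivatives `PP s t = - pd s (L t)`: differentiability and symmetry.
-/

set_option autoImplicit false

namespace Pool.Agent.RHT.Par.Th

open Complex ComplexConjugate Finset Filter Topology

noncomputable section

variable {P : Par} (θ : P.Th)

private theorem H6b_pd_diff (t : P.Ix) (v : P.V) : DifferentiableAt ℂ (pd t θ.T) v :=
  (pd_diff (x0 := v) (Eventually.of_forall fun x => θ.dT x) t).self_of_nhds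

theorem L_diff (t : P.Ix) {v : P.V} (hv : θ.T v ≠ 0) : DifferentiableAt ℂ (θ.L t) v := by
  have h1 := (H6b_pd_diff θ t v).mul ((θ.dT v).inv hv)
  refine h1.congr_of_eventuallyEq (Eventually.of_forall fun w => ?_)
  show fderiv ℂ θ.T w (Pi.single t 1) / θ.T w = _
  rw [div_eq_mul_inv]
  rfl

theorem PP_eq (s t : P.Ix) (v : P.V) : θ.PP s t v = -pd s (θ.L t) v := rfl

private theorem H6b_pd_L (s t : P.Ix) {v : P.V} (hv : θ.T v ≠ 0) :
    pd s (pd t θ.T) v = θ.T v * pd s (θ.L t) v + θ.L t v * pd s θ.T v := by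
  have h1 : (fun v => θ.T v * θ.L t v) =ᶠ[𝓝 v] pd t θ.T := by
    have h2 : ∀ᶠ w in 𝓝 v, θ.T w ≠ 0 :=
      (θ.dT v).continuousAt.eventually_ne hv
    filter_upwards [h2] with w hw
    show θ.T w * (fderiv ℂ θ.T w (Pi.single t 1) / θ.T w) = _
    rw [mul_div_cancel₀ _ hw]
    rfl
  unfold pd
  have h3 := h1.fderiv_eq (𝕜 := ℂ)
  rw [show (fun x => fderiv ℂ θ.T x (Pi.single t 1)) = pd t θ.T from rfl, ← h3,
    fderiv_fun_mul (θ.dT v) (L_diff θ t hv)]
  simp [smul_eq_mul]

theorem PP_symm (s t : P.Ix) {v : P.V} (hv : θ.T v ≠ 0) : θ.PP s t v = θ.PP t s v := by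
  have h1 := pd_symm (x0 := v) (Eventually.of_forall fun x => θ.dT x) s t
  rw [H6b_pd_L θ s t hv, H6b_pd_L θ t s hv] at h1
  have h2 : θ.L t v * pd s θ.T v = θ.L s v * pd t θ.T v := by
    show pd t θ.T v / θ.T v * pd s θ.T v = pd s θ.T v / θ.T v * pd t θ.T v
    ring
  rw [h2] at h1
  have h3 := mul_left_cancel₀ hv (add_right_cancel h1)
  rw [PP_eq, PP_eq, h3]

end

end Pool.Agent.RHT.Par.Th
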