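import Pool.Agent.RHT.Smp

/-!
RHT-Rho. In the situation of Theorem Z the residues are the inverse of the matrix `F_s(q_i)`. Plan:
`(Z u).ncard = card Ix` (`z.inj`, `z.zer`), so all zeros are simple (`mult_one`, `mult_pt`), the
residue of `L_t` at `q_i` exists: `r i t = ∂_t T / (T(C(x)+u))'`; in the canonical chart of `q_i` the
same number (`L_add` with the lattice vector of `glue`, constant near `x i` up to a bounded term:
on a small disc around `x i` inside both charts, the two sheets differ by a constant lattice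
vector, `glue` + `pt_left/mid/right`). `residues` gives `∑_i r i t F s (q i) = [s = t]`:
`W * r = 1`, so `W` is invertible and `r = W⁻¹`.
-/

set_option autoImplicit false

namespace Pool.Agent.RHT.Par.ZD

open Complex ComplexConjugate Finset Filter Topology

noncomputable section

variable {P : Par} {θ : P.Th} (z : P.ZD θ)

theorem T_eq_zero_iff {x : P.Ix → ℂ} (hx : x ∈ z.U) {c' : Bool} (k' : ℤ) {y : ℂ}
    (hy : y ∈ Om c') : θ.T (z.v c' k' y x) = 0 ↔ ∃ i, P.pt c' k' y = z.q x i := by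
  have h1 := Z_pt θ (z.u x) k' hy
  have h2 : θ.Z (z.u x) = Set.range fun i => z.q x i := z.zer x hx
  rw [h2] at h1
  constructor
  · intro h
    obtain ⟨i, hi⟩ := h1.2 h
    exact ⟨i, hi.symm⟩
  · rintro ⟨i, hi⟩
    exact h1.1 ⟨i, hi.symm⟩

theorem T_ne' {x : P.Ix → ℂ} (hx : x ∈ z.U) {c' : Bool} (k' : ℤ) {y : ℂ}
    (hy : y ∈ Om c') (h : ∀ i, y ≠ x i) : θ.T (z.v c' k' y x) ≠ 0 := by
  intro h0
  obtain ⟨i, hi⟩ := (z.T_eq_zero_iff hx k' hy).1 h0
  exact h i (congrArg Prod.fst hi)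

private theorem Rho_ncard {x : P.Ix → ℂ} (hx : x ∈ z.U) :
    (θ.Z (z.u x)).ncard = Fintype.card P.Ix := by
  have h2 : θ.Z (z.u x) = Set.range fun i => z.q x i := z.zer x hx
  have h3 : Function.Injective fun i => z.q x i := z.inj x hx
  rw [h2, ← Set.image_univ, Set.ncard_image_of_injective _ h3, Set.ncard_univ,
    Nat.card_eq_fintype_card]

private theorem Rho_mem {x : P.Ix → ℂ} (hx : x ∈ z.U) (i : P.Ix) : z.q x i ∈ θ.Z (z.u x) := by
  have h2 : θ.Z (z.u x) = Set.range fun i => z.q x i := z.zer x hx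
  rw [h2]
  exact ⟨i, rfl⟩

/-- a simple zero: the limit exists and there are no other zeros nearby -/
private theorem Rho_lim (θ : P.Th) {u : P.V} (hu : θ.T u ≠ 0) {c : Bool} (k : ℤ) {x : ℂ}
    (hx : x ∈ Om c) (h1 : θ.mult u (P.pt c k x) = 1) (t : P.Ix) :
    (∀ᶠ y in 𝓝[≠] x, θ.T (P.Cv c k y + u) ≠ 0) ∧
      ∃ r, Tendsto (fun y => (y - x) * θ.L t (P.Cv c k y + u)) (𝓝[≠] x) (𝓝 r) := by
  obtain ⟨ha, ht⟩ := T_order θ u hu k hx
  rw [mult_pt θ u k hx] at h1
  have h2 : analyticOrderAt (fun y => θ.T (P.Cv c k y + u)) x = ((1 : ℕ) : ℕ∞) := by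
    rw [← h1]
    exact (Nat.cast_analyticOrderNatAt ht).symm
  obtain ⟨g, hg, hg0, hgeq⟩ := (ha.analyticOrderAt_eq_natCast).1 h2
  have hgne : ∀ᶠ y in 𝓝 x, g y ≠ 0 := hg.continuousAt.eventually_ne hg0
  have hC : ContinuousAt (P.Cv c k) x := (Cv_deriv k hx).continuousAt
  have hpd : DifferentiableAt ℂ (pd t θ.T) (P.Cv c k x + u) :=
    (pd_diff (x0 := P.Cv c k x + u) (Eventually.of_forall fun x => θ.dT x) t).self_of_nhds
  have hnum : Tendsto (fun y => pd t θ.T (P.Cv c k y + u)) (𝓝 x) (𝓝 (pd t θ.T (P.Cv c k x + u))) :=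
    hpd.continuousAt.tendsto.comp (hC.add continuousAt_const).tendsto
  refine ⟨?_, pd t θ.T (P.Cv c k x + u) / g x, ?_⟩
  · rw [eventually_nhdsWithin_iff]
    filter_upwards [hgeq, hgne] with y hy hy2 hyx
    rw [hy, pow_one]
    exact smul_ne_zero (sub_ne_zero.2 hyx) hy2
  · have h3 : Tendsto (fun y => pd t θ.T (P.Cv c k y + u) / g y) (𝓝[≠] x)
        (𝓝 (pd t θ.T (P.Cv c k x + u) / g x)) :=
      (hnum.div hg.continuousAt.tendsto hg0).mono_left nhdsWithin_le_nhds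
    refine h3.congr' ?_
    rw [EventuallyEq, eventually_nhdsWithin_iff]
    filter_upwards [hgeq, hgne] with y hy hy2 hyx
    have hyx' : y - x ≠ 0 := sub_ne_zero.2 hyx
    show _ = (y - x) * (fderiv ℂ θ.T (P.Cv c k y + u) (Pi.single t 1) / θ.T (P.Cv c k y + u))
    rw [hy, pow_one, smul_eq_mul]
    show fderiv ℂ θ.T (P.Cv c k y + u) (Pi.single t 1) / g y = _
    field_simp

/-- the limit is the same in the canonical chart -/
private theorem Rho_can (θ : P.Th) {u : P.V} (hu : θ.T u ≠ 0) {c : Bool} (k : ℤ) {x : ℂ}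
    (hx : x ∈ Om c) (h1 : θ.mult u (P.pt c k x) = 1) (t : P.Ix) {r : ℂ}
    (hr : Tendsto (fun y => (y - x) * θ.L t (P.Cv c k y + u)) (𝓝[≠] x) (𝓝 r)) :
    Tendsto (fun y => (y - x) * θ.L t (P.Cv (cs (P.pt c k x)) (P.ks (P.pt c k x)) y + u))
      (𝓝[≠] x) (𝓝 r) := by
  obtain ⟨l, hl, hev⟩ := glue_near (P := P) k hx (z := P.pt c k x) rfl
  have hne := (Rho_lim θ hu k hx h1 t).1
  have h2 : Tendsto (fun y => (y - x) * θ.L t (P.Cv c k y + u) +
      (y - x) * (Real.pi * P.cf t * conj (l t))) (𝓝[≠] x) (𝓝 (r + (x - x) * (Real.pi * P.cf t * conj (l t)))) := by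
    refine hr.add (Tendsto.mul_const _ ?_)
    exact ((continuous_id.sub continuous_const).tendsto x).mono_left nhdsWithin_le_nhds
  rw [sub_self, zero_mul, add_zero] at h2
  refine h2.congr' ?_
  have hev' : ∀ᶠ y in 𝓝[≠] x, P.Cv (cs (P.pt c k x)) (P.ks (P.pt c k x)) y = P.Cv c k y + l :=
    (hev.mono fun y hy => hy.2.2.2.1).filter_mono nhdsWithin_le_nhds
  filter_upwards [hne, hev'] with y hy1 hy2
  rw [hy2, show P.Cv c k y + l + u = (P.Cv c k y + u) + l by abel, L_add θ hl hy1 t]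
  ring

private theorem Rho_main {x : P.Ix → ℂ} (hx : x ∈ z.U) :
    ∃ R : Matrix P.Ix P.Ix ℂ, z.W x * R = 1 ∧ ∀ i t,
      Tendsto (fun y => (y - x i) * θ.L t (z.v (z.c i) (z.k i) y x)) (𝓝[≠] (x i))
        (𝓝 (R i t)) := by
  classical
  have hadm : θ.Adm (z.u x) := z.adm x hx
  have hm : ∀ i, θ.mult (z.u x) (P.pt (z.c i) (z.k i) (x i)) = 1 := fun i =>
    mult_one θ hadm (z.Rho_ncard hx) (z.Rho_mem hx i)
  choose R hR using fun i t => (Rho_lim θ hadm.1 (z.k i) (z.om x hx i) (hm i) t).2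
  have hcan := fun i t => Rho_can θ hadm.1 (z.k i) (z.om x hx i) (hm i) t (hR i t)
  refine ⟨Matrix.of R, ?_, ?_⟩
  · ext s t
    have hinj : Function.Injective (z.q x) := z.inj x hx
    let ρ : ℂ × ℂ → ℂ := fun w => if hw : ∃ i, z.q x i = w then R hw.choose t else 0
    have hρq : ∀ i, ρ (z.q x i) = R i t := by
      intro i
      have hw : ∃ j, z.q x j = z.q x i := ⟨i, rfl⟩
      simp only [ρ, dif_pos hw]
      rw [hinj hw.choose_spec]
    have hres := residues θ hadm t ρ (by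
      intro w hw
      have h2 : θ.Z (z.u x) = Set.range fun i => z.q x i := z.zer x hx
      rw [h2] at hw
      obtain ⟨i, rfl⟩ := hw
      simp only [hρq]
      exact hcan i t) s
    have hfin : (Z_finite θ hadm).toFinset = Finset.univ.image (z.q x) := by
      ext w
      rw [Set.Finite.mem_toFinset, Finset.mem_image]
      have h2 : θ.Z (z.u x) = Set.range fun i => z.q x i := z.zer x hx
      rw [h2]
      constructor
      · rintro ⟨i, rfl⟩
        exact ⟨i, Finset.mem_univ _, rfl⟩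
      · rintro ⟨i, _, rfl⟩
        exact ⟨i, rfl⟩
    rw [hfin, Finset.sum_image (fun a _ b _ hab => hinj hab)] at hres
    rw [Matrix.mul_apply, Matrix.one_apply, ← hres]
    refine Finset.sum_congr rfl fun i _ => ?_
    rw [hρq, mul_comm]
    rfl
  · intro i t
    exact hR i t

theorem det_ne {x : P.Ix → ℂ} (hx : x ∈ z.U) : (z.W x).det ≠ 0 := by
  obtain ⟨R, hR, _⟩ := z.Rho_main hx
  exact (Matrix.isUnit_det_of_right_inverse hR).ne_zero

theorem rho_res {x : P.Ix → ℂ} (hx : x ∈ z.U) (i t : P.Ix) :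
    Tendsto (fun y => (y - x i) * θ.L t (z.v (z.c i) (z.k i) y x)) (𝓝[≠] (x i))
      (𝓝 (z.rho x i t)) := by
  obtain ⟨R, hR, h2⟩ := z.Rho_main hx
  have h3 : (z.W x)⁻¹ = R := Matrix.inv_eq_right_inv hR
  unfold rho
  rw [h3]
  exact h2 i t

/-- `∑_i rho i t F s (q i) = [s = t]` -/
theorem W_rho {x : P.Ix → ℂ} (hx : x ∈ z.U) (s t : P.Ix) :
    ∑ i, P.F s (z.q x i) * z.rho x i t = if s = t then 1 else 0 := by
  have h1 : z.W x * (z.W x)⁻¹ = 1 := Matrix.mul_nonsing_inv _ (isUnit_iff_ne_zero.2 (z.det_ne hx))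
  have h2 := congrFun (congrFun h1 s) t
  rw [Matrix.mul_apply, Matrix.one_apply] at h2
  exact h2

/-- `∑_t rho j t F t (q i) = [i = j]` -/
theorem rho_W {x : P.Ix → ℂ} (hx : x ∈ z.U) (i j : P.Ix) :
    ∑ t : P.Ix, z.rho x j t * P.F t (z.q x i) = if i = j then 1 else 0 := by
  have h1 : (z.W x)⁻¹ * z.W x = 1 := Matrix.nonsing_inv_mul _ (isUnit_iff_ne_zero.2 (z.det_ne hx))
  have h2 := congrFun (congrFun h1 j) i
  rw [Matrix.mul_apply, Matrix.one_apply] at h2
  simp only [eq_comm (a := i) (b := j)]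
  exact h2

end

end Pool.Agent.RHT.Par.ZD
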