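import Pool.Agent.RHT.H6a
import Pool.Agent.RHT.H6b
import Pool.Agent.RHT.Rho

/-!
RHT-H6c. Second derivatives (section 6 of the paper), first part: near a point `x ∈ U` the function
`x ↦ b t x = L_t (v y x) - M_t y x` does not depend on `y` (`y ≠ x i`); the chain rule in `x` and in
`y` gives `hess_x` and `hess_y`, and the symmetry of `PP` gives `pd_b`.
-/

set_option autoImplicit false

namespace Pool.Agent.RHT.Par.ZD

open Complex ComplexConjugate Finset Filter Topology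

noncomputable section

variable {P : Par} {θ : P.Th} (z : P.ZD θ)

/-- the property of `b` in `ZD.explicit` -/
def IsB (b : P.Ix → (P.Ix → ℂ) → ℂ) : Prop :=
  ∀ x ∈ z.U, ∀ (t : P.Ix) (c' : Bool) (k' : ℤ) (y : ℂ), y ∈ Om c' → (∀ i, y ≠ x i) →
    θ.L t (z.v c' k' y x) = z.M c' k' t y x + b t x

private theorem H6c_det_diff {ι κ : Type} [Fintype ι] [Fintype κ] [DecidableEq κ]
    {A : (ι → ℂ) → Matrix κ κ ℂ} {x : ι → ℂ}
    (h : ∀ i j, DifferentiableAt ℂ (fun x => A x i j) x) :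
    DifferentiableAt ℂ (fun x => (A x).det) x := by
  simp only [Matrix.det_apply]
  refine DifferentiableAt.fun_sum fun σ _ => ?_
  refine DifferentiableAt.const_smul ?_ _
  exact (HasFDerivAt.finsetProd fun i _ => (h (σ i) i).hasFDerivAt).differentiableAt

private theorem H6c_inv_diff {ι κ : Type} [Fintype ι] [Fintype κ] [DecidableEq κ]
    {A : (ι → ℂ) → Matrix κ κ ℂ} {x : ι → ℂ}
    (h : ∀ i j, DifferentiableAt ℂ (fun x => A x i j) x) (hdet : (A x).det ≠ 0) (i j : κ) :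
    DifferentiableAt ℂ (fun x => (A x)⁻¹ i j) x := by
  have h1 : ∀ w, (A w)⁻¹ i j = (A w).det⁻¹ * ((A w).updateRow j (Pi.single i 1)).det := by
    intro w
    rw [Matrix.inv_def, Matrix.smul_apply, Ring.inverse_eq_inv', smul_eq_mul,
      Matrix.adjugate_apply]
  simp only [h1]
  refine ((H6c_det_diff h).inv hdet).mul (H6c_det_diff fun i' j' => ?_)
  by_cases hj : i' = j
  · subst hj
    simp only [Matrix.updateRow_self]
    exact differentiableAt_const _
  · simp only [Matrix.updateRow_ne hj]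
    exact h _ _

private theorem H6c_coord (i : P.Ix) (x : P.Ix → ℂ) :
    DifferentiableAt ℂ (fun x : P.Ix → ℂ => x i) x := differentiableAt_apply i x

private theorem H6c_F_diff {x : P.Ix → ℂ} (hx : x ∈ z.U) (s : ℕ) (i : P.Ix) :
    DifferentiableAt ℂ (fun x => P.F s (z.q x i)) x := by
  have h1 := (P.F_hasDerivAt s (z.k i) (z.om x hx i)).differentiableAt
  exact DifferentiableAt.comp x h1 (H6c_coord i x)

private theorem H6c_Nn_diff (s : ℕ) (y : ℂ) (i : P.Ix) {x : P.Ix → ℂ} (h0 : x i ≠ 0)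
    (h1 : x i ≠ 1) : DifferentiableAt ℂ (fun x : P.Ix → ℂ => P.Nn s y (x i)) x := by
  have hd : DifferentiableAt ℂ (fun x : P.Ix → ℂ => x i) x := differentiableAt_apply i x
  have h1' : (1 : ℂ) - x i ≠ 0 := sub_ne_zero.2 (Ne.symm h1)
  have hd1 : DifferentiableAt ℂ (fun x : P.Ix → ℂ => 1 - x i) x := hd.const_sub 1
  unfold Nn
  simp only [div_eq_mul_inv]
  split_ifs
  · exact differentiableAt_const _
  · exact ((hd.mul hd1).inv (mul_ne_zero h0 h1')).const_mul _
  · exact (hd1.inv h1').const_mul _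
  · exact (hd.inv h0).const_mul _

private theorem H6c_rho_diff {x : P.Ix → ℂ} (hx : x ∈ z.U) (i t : P.Ix) :
    DifferentiableAt ℂ (fun x => z.rho x i t) x :=
  H6c_inv_diff (A := fun x => z.W x) (fun (s i : P.Ix) => H6c_F_diff z hx (s : ℕ) i)
    (z.det_ne hx) i t

private theorem H6c_KK_diff {x : P.Ix → ℂ} (hx : x ∈ z.U) (w : ℂ × ℂ) (i : P.Ix)
    (hne : w.1 ≠ x i) : DifferentiableAt ℂ (fun x => P.KK w (z.q x i)) x := by
  have h1 : ∀ s ∈ range P.D, DifferentiableAt ℂ (fun x : P.Ix → ℂ =>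
      P.F s w * P.Nn s w.1 (x i) * (P.F s (z.q x i) * (w.1 - x i))⁻¹) x := by
    intro s _
    have h2 := H6c_Nn_diff (P := P) s w.1 i (Om_ne (z.om x hx i)).1 (Om_ne (z.om x hx i)).2
    have h3 : DifferentiableAt ℂ (fun x : P.Ix → ℂ => P.F s (z.q x i) * (w.1 - x i)) x :=
      (H6c_F_diff z hx s i).mul ((H6c_coord i x).const_sub _)
    have h4 : P.F s (z.q x i) * (w.1 - x i) ≠ 0 :=
      mul_ne_zero (P.F_ne s (P.pt_mem _ (z.om x hx i))) (sub_ne_zero.2 hne)
    exact (h2.const_mul _).mul (h3.inv h4)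
  have h5 := (DifferentiableAt.fun_sum h1).const_mul ((1 : ℂ) / P.D)
  exact h5

/-- `M_t` is differentiable in `x` away from the poles -/
theorem M_diff_x {x : P.Ix → ℂ} (hx : x ∈ z.U) {c' : Bool} (k' : ℤ) {y : ℂ} (hy : y ∈ Om c')
    (hne : ∀ i, y ≠ x i) (t : P.Ix) : DifferentiableAt ℂ (fun x => z.M c' k' t y x) x := by
  have h1 : ∀ i ∈ (Finset.univ : Finset P.Ix), DifferentiableAt ℂ (fun x =>
      z.rho x i t * P.KK (P.pt c' k' y) (z.q x i)) x := fun i _ =>
    (H6c_rho_diff z hx i t).mul (H6c_KK_diff z hx (P.pt c' k' y) i (hne i))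
  exact DifferentiableAt.const_add _ (DifferentiableAt.fun_sum h1)

/-- a linear form applied to a vector of the coordinate space -/
private theorem H6c_lin (t : P.Ix) (v w : P.V) (θ : P.Th) :
    fderiv ℂ (θ.L t) v w = -∑ s, θ.PP s t v * w s := by
  have h1 : w = ∑ s, w s • (Pi.single s (1 : ℂ) : P.V) := by
    funext i
    simp [Finset.sum_apply, Pi.single_apply]
  conv_lhs => rw [h1]
  rw [map_sum, ← Finset.sum_neg_distrib]
  refine Finset.sum_congr rfl fun s _ => ?_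
  rw [map_smul, smul_eq_mul, Th.PP_eq]
  unfold pd
  ring

theorem hess_x {b : P.Ix → (P.Ix → ℂ) → ℂ} (hb : z.IsB b) {x : P.Ix → ℂ} (hx : x ∈ z.U)
    {c' : Bool} (k' : ℤ) {y : ℂ} (hy : y ∈ Om c') (hne : ∀ i, y ≠ x i) (j t : P.Ix) :
    ∑ s, θ.PP s t (z.v c' k' y x) * P.F s (z.q x j) =
      pd j (fun x => z.M c' k' t y x) x + pd j (b t) x := by
  have hT := z.T_ne' hx k' hy hne
  have hv := v_diff_x z hx c' k' y
  have hL := θ.L_diff t hT
  have hLv : DifferentiableAt ℂ (fun x => θ.L t (z.v c' k' y x)) x :=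
    DifferentiableAt.comp x hL hv
  have hev : ∀ᶠ w in 𝓝 x, θ.L t (z.v c' k' y w) = z.M c' k' t y w + b t w := by
    have h1 : ∀ᶠ w in 𝓝 x, w ∈ z.U := z.hU.mem_nhds hx
    have h2 : ∀ᶠ w in 𝓝 x, ∀ i, y ≠ w i := eventually_all.2 fun i =>
      ((continuous_apply i).continuousAt.eventually_ne (hne i).symm).mono fun _ h => h.symm
    filter_upwards [h1, h2] with w hw1 hw2
    exact hb w hw1 t c' k' y hy hw2
  have hM := z.M_diff_x hx k' hy hne t
  have hbd : DifferentiableAt ℂ (b t) x := by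
    refine (hLv.sub hM).congr_of_eventuallyEq ?_
    filter_upwards [hev] with w hw
    show b t w = θ.L t (z.v c' k' y w) - z.M c' k' t y w
    rw [hw]
    ring
  have e1 : pd j (fun x => θ.L t (z.v c' k' y x)) x =
      pd j (fun x => z.M c' k' t y x) x + pd j (b t) x := by
    have e := Filter.EventuallyEq.fderiv_eq (𝕜 := ℂ)
      (f₁ := fun x => θ.L t (z.v c' k' y x)) (f := fun x => z.M c' k' t y x + b t x) hev
    unfold pd
    rw [e, fderiv_fun_add hM hbd]
    rfl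
  have e2 : pd j (fun x => θ.L t (z.v c' k' y x)) x =
      -∑ s, θ.PP s t (z.v c' k' y x) * (fderiv ℂ (fun x => z.v c' k' y x) x (Pi.single j 1)) s := by
    unfold pd
    have e := (hL.hasFDerivAt.comp x hv.hasFDerivAt).fderiv
    have e' : (fun x => θ.L t (z.v c' k' y x)) = θ.L t ∘ fun x => z.v c' k' y x := rfl
    rw [e', e]
    exact H6c_lin t _ _ θ
  rw [← e1, e2, ← Finset.sum_neg_distrib]
  refine Finset.sum_congr rfl fun s _ => ?_
  have e3 : (fderiv ℂ (fun x => z.v c' k' y x) x (Pi.single j 1)) s = -P.F s (z.q x j) := by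
    have e4 := ((hasFDerivAt_apply s (z.v c' k' y x)).comp x hv.hasFDerivAt).fderiv
    have e5 := v_pd z hx c' k' y j s
    rw [← e5]
    unfold pd
    have e6 : (fun x => z.v c' k' y x s) = (fun f : P.V => f s) ∘ fun x => z.v c' k' y x := rfl
    rw [e6, e4]
    rfl
  rw [e3]
  ring

theorem hess_y {b : P.Ix → (P.Ix → ℂ) → ℂ} (hb : z.IsB b) {x : P.Ix → ℂ} (hx : x ∈ z.U)
    {c' : Bool} (k' : ℤ) {y : ℂ} (hy : y ∈ Om c') (hne : ∀ i, y ≠ x i) (t : P.Ix) :
    ∑ s, θ.PP s t (z.v c' k' y x) * P.F s (P.pt c' k' y) =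
      -deriv (fun y => z.M c' k' t y x) y := by
  have hT := z.T_ne' hx k' hy hne
  have hv := v_hasDerivAt z x k' hy
  have hL := θ.L_diff t hT
  have hLv := hL.hasFDerivAt.comp_hasDerivAt y hv
  have hev : ∀ᶠ w in 𝓝 y, z.M c' k' t w x = θ.L t (z.v c' k' w x) - b t x := by
    have h1 : ∀ᶠ w in 𝓝 y, w ∈ Om c' := (Om_isOpen c').mem_nhds hy
    have h2 : ∀ᶠ w in 𝓝 y, ∀ i, w ≠ x i := eventually_all.2 fun i =>
      continuousAt_id.eventually_ne (hne i)
    filter_upwards [h1, h2] with w hw1 hw2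
    rw [hb x hx t c' k' w hw1 hw2]
    ring
  have h4 := (hLv.sub_const (b t x)).congr_of_eventuallyEq (f₁ := fun y => z.M c' k' t y x) hev
  rw [h4.deriv, H6c_lin t _ _ θ, neg_neg]

theorem pd_b {b : P.Ix → (P.Ix → ℂ) → ℂ} (hb : z.IsB b) {x : P.Ix → ℂ} (hx : x ∈ z.U)
    {c' : Bool} (k' : ℤ) {y : ℂ} (hy : y ∈ Om c') (hne : ∀ i, y ≠ x i) (j : P.Ix) :
    ∑ t : P.Ix, P.F t (P.pt c' k' y) * pd j (b t) x =
      -(∑ t : P.Ix, P.F t (z.q x j) * deriv (fun y => z.M c' k' t y x) y) -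
        ∑ t : P.Ix, P.F t (P.pt c' k' y) * pd j (fun x => z.M c' k' t y x) x := by
  have hT := z.T_ne' hx k' hy hne
  have h1 : ∑ t : P.Ix, P.F t (P.pt c' k' y) * (pd j (fun x => z.M c' k' t y x) x +
      pd j (b t) x) = -(∑ t : P.Ix, P.F t (z.q x j) * deriv (fun y => z.M c' k' t y x) y) := by
    rw [← Finset.sum_neg_distrib]
    have h2 : ∀ t : P.Ix, P.F t (P.pt c' k' y) * (pd j (fun x => z.M c' k' t y x) x +
        pd j (b t) x) = ∑ s : P.Ix, P.F t (P.pt c' k' y) *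
          (θ.PP s t (z.v c' k' y x) * P.F s (z.q x j)) := by
      intro t
      rw [← z.hess_x hb hx k' hy hne j t, Finset.mul_sum]
    have h3 : ∀ t : P.Ix, -(P.F t (z.q x j) * deriv (fun y => z.M c' k' t y x) y) =
        ∑ s : P.Ix, P.F t (z.q x j) * (θ.PP s t (z.v c' k' y x) * P.F s (P.pt c' k' y)) := by
      intro t
      rw [← Finset.mul_sum, z.hess_y hb hx k' hy hne t]
      ring
    rw [Finset.sum_congr rfl fun t _ => h2 t, Finset.sum_congr rfl fun t _ => h3 t,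
      Finset.sum_comm]
    refine Finset.sum_congr rfl fun s _ => Finset.sum_congr rfl fun t _ => ?_
    rw [θ.PP_symm s t hT]
    ring
  rw [← h1]
  simp only [mul_add, Finset.sum_add_distrib]
  ring

end

end Pool.Agent.RHT.Par.ZD
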