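import Pool.Agent.RHT.NFm
import Pool.Agent.RHT.H6a

/-!
RHT-H6d. The differentials and the kernel are germs `NF` at algebraic points.
-/

set_option autoImplicit false

namespace Pool.Agent.RHT.Par

open Complex ComplexConjugate Finset Filter Topology

noncomputable section

variable {P : Par}

theorem F_alg (t : ℕ) {z : ℂ × ℂ} (hz : z ∈ P.Cs) (h : IsAlgebraic ℚ z.1) :
    IsAlgebraic ℚ (P.F t z) := by
  obtain ⟨-, -, h2⟩ := hz
  have hD : 0 < P.D := by
    have := P.hD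
    omega
  have h1 : IsAlgebraic ℚ (1 - z.1) := isAlgebraic_one.sub h
  have h3 : IsAlgebraic ℚ (z.2 ^ P.D) := by
    rw [h2]
    exact (h.pow _).mul (h1.pow _)
  have h4 : IsAlgebraic ℚ z.2 := IsAlgebraic.of_pow hD h3
  unfold F
  rw [div_eq_mul_inv]
  exact ((h.pow _).mul (h1.pow _)).mul (h4.pow _).inv

variable {μ : Type} [Fintype μ] [DecidableEq μ] {w0 : μ → ℂ}

private theorem H6d_real (n : ℕ) : IsAlgebraic ℚ (((((n : ℕ) : ℝ) / P.D : ℝ)) : ℂ) := by
  have h : (((((n : ℕ) : ℝ) / P.D : ℝ)) : ℂ) = (n : ℂ) * (P.D : ℂ)⁻¹ := by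
    push_cast
    rw [div_eq_mul_inv]
  rw [h]
  exact (isAlgebraic_natCast n).mul (isAlgebraic_natCast P.D).inv

private theorem H6d_pd {g : ℂ → ℂ} {g' : ℂ} {w : μ → ℂ} (m j : μ) (h : HasDerivAt g g' (w m)) :
    DifferentiableAt ℂ (fun w : μ → ℂ => g (w m)) w ∧
      pd j (fun w : μ → ℂ => g (w m)) w = if j = m then g' else 0 := by
  have h3 : HasFDerivAt (fun x : μ → ℂ => x m)
      (ContinuousLinearMap.proj (R := ℂ) (φ := fun _ : μ => ℂ) m) w :=
    (ContinuousLinearMap.proj (R := ℂ) (φ := fun _ : μ => ℂ) m).hasFDerivAt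
  have h4 := HasDerivAt.comp_hasFDerivAt (h₂ := g) (f := fun x : μ → ℂ => x m) w h h3
  refine ⟨h4.differentiableAt, ?_⟩
  unfold pd
  have h5 : fderiv ℂ (fun w : μ → ℂ => g (w m)) w =
      g' • (ContinuousLinearMap.proj (R := ℂ) (φ := fun _ : μ => ℂ) m) := h4.fderiv
  rw [h5]
  show g' * (Pi.single j (1 : ℂ) : μ → ℂ) m = _
  by_cases hj : j = m
  · subst hj
    rw [Pi.single_eq_same, mul_one, if_pos rfl]
  · rw [Pi.single_eq_of_ne (Ne.symm hj), mul_zero, if_neg hj]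

theorem NF_F (s : ℕ) {c : Bool} (k : ℤ) (m : μ) (hm : w0 m ∈ Om c)
    (ha : IsAlgebraic ℚ (w0 m)) : NF w0 (fun w => P.F s (P.pt c k (w m))) := by
  obtain ⟨h0, h1⟩ := Om_ne hm
  have hev : ∀ᶠ w : μ → ℂ in 𝓝 w0, w m ∈ Om c :=
    (continuous_apply m).continuousAt.eventually ((Om_isOpen c).mem_nhds hm)
  have hx : NF w0 (fun w => w m) := NF_coord m ha
  have h1x : NF w0 (fun w => 1 - w m) := (NF_const isAlgebraic_one).sub hx
  have hal : IsAlgebraic ℚ (-(P.al s : ℂ)) := (H6d_real (P := P) (P.a * s % P.D)).neg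
  have hbe : IsAlgebraic ℚ ((P.be s : ℂ)) := H6d_real (P := P) (P.b * s % P.D)
  refine NF_ode _ ?_ (F_alg s (P.pt_mem k hm) ha)
    (fun j w => if j = m then -(P.al s : ℂ) / w m + P.be s / (1 - w m) else 0)
    (fun _ _ => 0) (fun _ _ => 0) (fun j => ?_) (fun _ => NF_const isAlgebraic_zero)
    (fun _ => NF_const isAlgebraic_zero) (fun j => ?_)
  · filter_upwards [hev] with w hw
    exact (H6d_pd m m (P.F_hasDerivAt s k hw)).1
  · by_cases hj : j = m
    · simp only [hj, if_true]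
      exact (NF_div (NF_const hal) hx h0).add
        (NF_div (NF_const hbe) h1x (sub_ne_zero.2 h1.symm))
    · simp only [hj, if_false]
      exact NF_const isAlgebraic_zero
  · filter_upwards [hev] with w hw
    rw [(H6d_pd m j (P.F_hasDerivAt s k hw)).2]
    split_ifs
    · ring
    · ring

private theorem H6d_N {x x' : (μ → ℂ) → ℂ} (h1 : NF w0 x) (h2 : NF w0 x') (h0 : x' w0 ≠ 0)
    (h3 : x' w0 ≠ 1) (s : ℕ) : NF w0 (fun w => P.Nn s (x w) (x' w)) := by
  have h4 : NF w0 (fun w => 1 - x w) := (NF_const isAlgebraic_one).sub h1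
  have h5 : NF w0 (fun w => 1 - x' w) := (NF_const isAlgebraic_one).sub h2
  have h6 : 1 - x' w0 ≠ 0 := sub_ne_zero.2 h3.symm
  unfold Nn
  by_cases c1 : s = 0
  · simp only [if_pos c1]
    exact NF_const isAlgebraic_one
  · simp only [if_neg c1]
    by_cases c2 : s ∈ P.Phi
    · simp only [if_pos c2]
      exact NF_div (h1.mul h4) (h2.mul h5) (mul_ne_zero h0 h6)
    · simp only [if_neg c2]
      by_cases c3 : P.be s ≠ 0
      · simp only [if_pos c3]
        exact NF_div h4 h5 h6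
      · simp only [if_neg c3]
        exact NF_div h1 h2 h0

private theorem H6d_K {z z' : (μ → ℂ) → ℂ × ℂ} (h1 : NF w0 (fun w => (z w).1))
    (h2 : NF w0 (fun w => (z' w).1)) (hF : ∀ s, NF w0 (fun w => P.F s (z w)))
    (hF' : ∀ s, NF w0 (fun w => P.F s (z' w))) (hz : z' w0 ∈ P.Cs)
    (hne : (z w0).1 ≠ (z' w0).1) : NF w0 (fun w => P.KK (z w) (z' w)) := by
  unfold KK
  have hD : IsAlgebraic ℚ (1 / (P.D : ℂ)) := by
    rw [one_div]
    exact (isAlgebraic_natCast P.D).inv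
  refine (NF_const hD).mul (NF_sum _ _ fun s _ => ?_)
  exact NF_div ((hF s).mul (H6d_N h1 h2 hz.1 hz.2.1 s)) ((hF' s).mul (h1.sub h2))
    (mul_ne_zero (P.F_ne s hz) (sub_ne_zero.2 hne))

theorem NF_KK {c c' : Bool} (k k' : ℤ) (m n : μ) (hm : w0 m ∈ Om c') (hn : w0 n ∈ Om c)
    (ha : IsAlgebraic ℚ (w0 m)) (hb : IsAlgebraic ℚ (w0 n)) (hne : w0 m ≠ w0 n) :
    NF w0 (fun w => P.KK (P.pt c' k' (w m)) (P.pt c k (w n))) :=
  H6d_K (NF_coord m ha) (NF_coord n hb) (fun s => NF_F s k' m hm ha) (fun s => NF_F s k n hn hb)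
    (P.pt_mem k hn) hne

/-- the kernel at a fixed algebraic point -/
theorem NF_KK1 {c c' : Bool} (k k' : ℤ) (n : μ) {y : ℂ} (hy : y ∈ Om c') (hn : w0 n ∈ Om c)
    (ha : IsAlgebraic ℚ y) (hb : IsAlgebraic ℚ (w0 n)) (hne : y ≠ w0 n) :
    NF w0 (fun w => P.KK (P.pt c' k' y) (P.pt c k (w n))) :=
  H6d_K (NF_const ha) (NF_coord n hb) (fun s => NF_const (F_alg s (P.pt_mem k' hy) ha))
    (fun s => NF_F s k n hn hb) (P.pt_mem k hn) hne

/-- its derivative with respect to the first point -/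
theorem NF_KKy {c c' : Bool} (k k' : ℤ) (n : μ) {y : ℂ} (hy : y ∈ Om c') (hn : w0 n ∈ Om c)
    (ha : IsAlgebraic ℚ y) (hb : IsAlgebraic ℚ (w0 n)) (hne : y ≠ w0 n) :
    NF w0 (fun w => deriv (fun y => P.KK (P.pt c' k' y) (P.pt c k (w n))) y) ∧
    ∀ᶠ w in 𝓝 w0, DifferentiableAt ℂ (fun y => P.KK (P.pt c' k' y) (P.pt c k (w n))) y := by
  set φ : (μ → ℂ) → (Fin 2 → ℂ) := fun w => ![y, w n] with hφdef
  set f : (Fin 2 → ℂ) → ℂ := fun u => P.KK (P.pt c' k' (u 0)) (P.pt c k (u 1)) with hfdef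
  have e0 : φ w0 0 = y := rfl
  have e1 : φ w0 1 = w0 n := rfl
  have hf : NF (φ w0) f := by
    refine NF_KK (c := c) (c' := c') (μ := Fin 2) (w0 := φ w0) k k' 0 1 ?_ ?_ ?_ ?_ ?_
    · rw [e0]; exact hy
    · rw [e1]; exact hn
    · rw [e0]; exact ha
    · rw [e1]; exact hb
    · rw [e0, e1]; exact hne
  have hφc : ∀ w, HasFDerivAt φ (ContinuousLinearMap.pi
      ![(0 : (μ → ℂ) →L[ℂ] ℂ), ContinuousLinearMap.proj (R := ℂ) (φ := fun _ : μ => ℂ) n]) w := by
    intro w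
    rw [hasFDerivAt_pi']
    intro i
    fin_cases i
    · exact hasFDerivAt_const y w
    · exact (ContinuousLinearMap.proj (R := ℂ) (φ := fun _ : μ => ℂ) n).hasFDerivAt
  have hφd : ∀ w, DifferentiableAt ℂ φ w := fun w => (hφc w).differentiableAt
  have hcomp : NF w0 (fun w => pd 0 f (φ w)) := by
    refine NF_comp φ (Eventually.of_forall hφd)
      (fun i j _ => if i = 1 ∧ j = n then 1 else 0) (fun i j => ?_) (fun i j => ?_) (hf.der 0)
    · refine NF_const ?_
      split_ifs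
      · exact isAlgebraic_one
      · exact isAlgebraic_zero
    · refine Eventually.of_forall fun w => ?_
      fin_cases i
      · show pd j (fun _ : μ → ℂ => y) w = _
        unfold pd
        simp
      · show pd j (fun w : μ → ℂ => w n) w = _
        rw [(H6d_pd (g := fun x => x) n j (hasDerivAt_id (w n))).2]
        simp
  have hev : ∀ᶠ w in 𝓝 w0, DifferentiableAt ℂ f (φ w) :=
    (hφd w0).continuousAt.eventually hf.hol
  have hline : ∀ w : μ → ℂ, HasDerivAt (fun y' : ℂ => (![y', w n] : Fin 2 → ℂ))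
      (Pi.single 0 1) y := by
    intro w
    rw [hasDerivAt_pi]
    intro i
    fin_cases i
    · exact (hasDerivAt_id' y).congr_deriv (by simp)
    · exact (hasDerivAt_const y (w n)).congr_deriv (by simp)
  have hd : ∀ w : μ → ℂ, DifferentiableAt ℂ f (φ w) →
      HasDerivAt (fun y => P.KK (P.pt c' k' y) (P.pt c k (w n))) (pd 0 f (φ w)) y := by
    intro w hw
    exact HasFDerivAt.comp_hasDerivAt (l := f) (f := fun y' : ℂ => (![y', w n] : Fin 2 → ℂ)) y
      hw.hasFDerivAt (hline w)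
  refine ⟨hcomp.congr ?_, ?_⟩
  · filter_upwards [hev] with w hw
    exact (hd w hw).deriv
  · filter_upwards [hev] with w hw
    exact (hd w hw).differentiableAt

end

end Pool.Agent.RHT.Par
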