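import Pool.Agent.RHT.H6d
import Pool.Agent.RHT.Rho

/-!
RHT-H6e. The residues and the functions `M_t` are germs `NF`. Plan.
`NF_rho`: `NF_inv_matrix` with the entries `F s (pt (z.c i) (z.k i) (x i))` (`NF_F`), `det_ne`.
`NF_Mx`: `M_t = (constant) + ∑ i, ρ_i^t KK(pt y, q_i)`, the sum is `NF` (`NF_KK1`), the
partial derivatives of both functions agree near `x0` (`fderiv` of a constant plus a function,
`NF.hol`), `NF.der`.
`NF_My`: near `x0`, the derivative in `y` is `ka t * Jd y + ∑ i, ρ_i^t (x) * deriv KK`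
(`Jv_hasDerivAt`, `NF_KKy`), `Jd y` is algebraic (`Jd_eq`, `F_alg`), `ka t` rational.
-/

set_option autoImplicit false

namespace Pool.Agent.RHT.Par.ZD

open Complex ComplexConjugate Finset Filter Topology

noncomputable section

variable {P : Par} {θ : P.Th} (z : P.ZD θ) {x0 : P.Ix → ℂ}

theorem NF_rho (hx : x0 ∈ z.U) (ha : ∀ i, IsAlgebraic ℚ (x0 i)) (i t : P.Ix) :
    NF x0 (fun x => z.rho x i t) := by
  refine NF_inv_matrix (fun x => z.W x) (fun s i => ?_) (z.det_ne hx) i t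
  exact NF_F (P := P) (s : ℕ) (z.k i) i (z.om x0 hx i) (ha i)

theorem NF_MS (hx : x0 ∈ z.U) (ha : ∀ i, IsAlgebraic ℚ (x0 i)) {c' : Bool} (k' : ℤ) {y : ℂ}
    (hy : y ∈ Om c') (hya : IsAlgebraic ℚ y) (hne : ∀ i, y ≠ x0 i) (t : P.Ix) :
    NF x0 (fun x => ∑ i, z.rho x i t * P.KK (P.pt c' k' y) (z.q x i)) := by
  refine NF_sum _ _ fun i _ => ?_
  exact (z.NF_rho hx ha i t).mul
    (NF_KK1 (P := P) (z.k i) k' i hy (z.om x0 hx i) hya (ha i) (hne i))

theorem NF_Mx (hx : x0 ∈ z.U) (ha : ∀ i, IsAlgebraic ℚ (x0 i)) {c' : Bool} (k' : ℤ) {y : ℂ}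
    (hy : y ∈ Om c') (hya : IsAlgebraic ℚ y) (hne : ∀ i, y ≠ x0 i) (j t : P.Ix) :
    NF x0 (fun x => pd j (fun x => z.M c' k' t y x) x) := by
  have h := (z.NF_MS hx ha k' hy hya hne t).der j
  refine h.congr (Filter.Eventually.of_forall fun x => ?_)
  unfold pd M
  rw [fderiv_const_add]

theorem ka_alg (t : ℕ) : IsAlgebraic ℚ ((P.ka t : ℝ) : ℂ) := by
  have h1 : ((P.ka t : ℝ) : ℂ) =
      (((-(1 - ((P.a * t % P.D : ℕ) : ℚ) / P.D) / P.D : ℚ)) : ℂ) := by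
    unfold ka al
    push_cast
    rfl
  rw [h1]
  exact isAlgebraic_algebraMap (R := ℚ) (A := ℂ) _

theorem Jd_alg {c' : Bool} (k' : ℤ) {y : ℂ} (hy : y ∈ Om c') (hya : IsAlgebraic ℚ y) (t : ℕ) :
    IsAlgebraic ℚ (P.Jd c' k' y t) := by
  rw [Jd_eq k' hy t]
  have h1 : IsAlgebraic ℚ (P.F t (P.pt c' k' y)) := F_alg t (P.pt_mem k' hy) hya
  exact (((hya.pow 2).mul (isAlgebraic_one.sub hya)).mul h1).inv

theorem NF_My (hx : x0 ∈ z.U) (ha : ∀ i, IsAlgebraic ℚ (x0 i)) {c' : Bool} (k' : ℤ) {y : ℂ}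
    (hy : y ∈ Om c') (hya : IsAlgebraic ℚ y) (hne : ∀ i, y ≠ x0 i) (t : P.Ix) :
    NF x0 (fun x => deriv (fun y => z.M c' k' t y x) y) := by
  have hk := fun i : P.Ix => NF_KKy (P := P) (z.k i) k' i hy (z.om x0 hx i) hya (ha i) (hne i)
  have h1 : NF x0 (fun x => (P.ka t : ℂ) * P.Jd c' k' y t + ∑ i, z.rho x i t *
      deriv (fun y => P.KK (P.pt c' k' y) (P.pt (z.c i) (z.k i) (x i))) y) := by
    refine (NF_const ((ka_alg (P := P) t).mul (Jd_alg (P := P) k' hy hya t))).add ?_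
    refine NF_sum _ _ fun i _ => ?_
    exact (z.NF_rho hx ha i t).mul (hk i).1
  refine h1.congr ?_
  filter_upwards [Filter.eventually_all.2 fun i => (hk i).2] with x hd
  have h2 : HasDerivAt (fun y => z.M c' k' t y x) ((P.ka t : ℂ) * P.Jd c' k' y t +
      ∑ i, z.rho x i t * deriv (fun y => P.KK (P.pt c' k' y)
        (P.pt (z.c i) (z.k i) (x i))) y) y := by
    unfold M
    refine ((Jv_hasDerivAt k' hy t).const_mul _).add ?_
    refine HasDerivAt.fun_sum fun i _ => ?_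
    exact ((hd i).hasDerivAt).const_mul _
  exact h2.deriv

end

end Pool.Agent.RHT.Par.ZD
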