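import Pool.Agent.RHT.Smp
import Pool.Agent.RHK.EntC

/-!
RHT-Inv. Theorem Z (Jacobi inversion). Plan (end of section 4). `u1` from `exists_simple`, index the
zeros by `P.Ix`: `z i`, `c i = cs (z i)`, `k i = ks (z i)`, `x0 i = (z i).1`, derivative of
`x ↦ T (Cv (c i) (k i) x + u1)` at `x0 i` is `≠ 0` (`mult_one`). Implicit function theorem:
`φ i : V → ℂ` differentiable near `u1`, `T (Cv (c i) (k i) (φ i u) + u) = 0`, `φ i u1 = x0 i`; by
`persist` and `ncard_le_card` these are all zeros, `Z u = range (pt (c i) (k i) (φ i u))`.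
`∂_t φ i = - ∂_t T / (d/dx T) = -` (residue of `L_t` at the simple zero), so by `residues` (for every
`u` near `u1`) `∑_i F s (q i) ∂_t φ i = - [s = t]`, and `K u = u + ∑ Cv (c i) (k i) (φ i u)` has
derivative `0` on a ball: `K = kap`. The derivative of `φ : V → (Ix → ℂ)` at `u1` is invertible, so
`φ` maps neighbourhoods of `u1` onto neighbourhoods of `x0`
(`HasStrictFDerivAt.map_nhds_eq_of_equiv`); `U` = a small ball around `x0` inside the image of a
small neighbourhood; `x = φ u` gives `u = kap - ∑ Cv (c i) (k i) (x i)`.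
-/

set_option autoImplicit false

namespace Pool.Agent.RHT.Par

open Complex ComplexConjugate Finset Filter Topology

noncomputable section

variable {P : Par} (θ : P.Th)

/-! ### charts -/

private theorem inv_chart {c : Bool} {k : ℤ} {x1 : ℂ} (hx1 : x1 ∈ Om c) :
    ∃ l ∈ P.Lam, ∀ᶠ x in 𝓝 x1,
      P.Cv (cs (P.pt c k x1)) (P.ks (P.pt c k x1)) x = P.Cv c k x + l := by
  obtain ⟨l, hl, hCz, _⟩ := glue (P := P) k hx1
  refine ⟨l, hl, ?_⟩
  have hz := P.pt_mem k hx1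
  obtain ⟨ho, _, hpt⟩ := ks_spec hz
  obtain ⟨c', hc'⟩ : ∃ c', c' = cs (P.pt c k x1) := ⟨_, rfl⟩
  obtain ⟨k', hk'⟩ : ∃ k' : ℤ, k' = (P.ks (P.pt c k x1) : ℤ) := ⟨_, rfl⟩
  unfold Cz at hCz
  rw [← hc', ← hk'] at hpt hCz ⊢
  rw [← hc'] at ho
  have h1x : (P.pt c k x1).1 = x1 := rfl
  rw [h1x] at hpt hCz ho
  have hO : IsOpen (Om c ∩ Om c') := (Om_isOpen c).inter (Om_isOpen c')
  obtain ⟨r, hr, hball⟩ := Metric.isOpen_iff.1 hO x1 ⟨hx1, ho⟩
  have hc1 : ∀ x ∈ Metric.ball x1 r, x ∈ Om c := fun x hx => (hball hx).1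
  have hc2 : ∀ x ∈ Metric.ball x1 r, x ∈ Om c' := fun x hx => (hball hx).2
  have hYne : ∀ (b : Bool) (x : ℂ), P.Yv b x ≠ 0 := fun b x => Complex.exp_ne_zero _
  have hpre : IsPreconnected (Metric.ball x1 r) := (convex_ball x1 r).isPreconnected
  -- the quotient of the roots is constant
  have hR : ∀ x ∈ Metric.ball x1 r, HasDerivAt (fun x => P.Yv c x / P.Yv c' x) 0 x := by
    intro x hx
    have h := (P.Yv_hasDerivAt (hc1 x hx)).div (P.Yv_hasDerivAt (hc2 x hx)) (hYne c' x)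
    refine h.congr_deriv ?_
    rw [div_eq_zero_iff]
    left
    ring
  have hRc : ∀ x ∈ Metric.ball x1 r, P.Yv c x / P.Yv c' x = P.Yv c x1 / P.Yv c' x1 := by
    intro x hx
    exact Metric.isOpen_ball.is_const_of_deriv_eq_zero hpre
      (fun y hy => (hR y hy).differentiableAt.differentiableWithinAt)
      (fun y hy => (hR y hy).deriv) hx (Metric.mem_ball_self hr)
  have hpe : ∀ x ∈ Metric.ball x1 r, P.pt c' k' x = P.pt c k x := by
    intro x hx
    have h2 : P.ze ^ k' * P.Yv c' x1 = P.ze ^ k * P.Yv c x1 := congrArg Prod.snd hpt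
    have h3 := hRc x hx
    rw [div_eq_div_iff (hYne c' x) (hYne c' x1)] at h3
    refine Prod.ext rfl ?_
    show P.ze ^ k' * P.Yv c' x = P.ze ^ k * P.Yv c x
    have h4 : (P.ze ^ k' * P.Yv c' x) * P.Yv c' x1 = (P.ze ^ k * P.Yv c x) * P.Yv c' x1 := by
      calc (P.ze ^ k' * P.Yv c' x) * P.Yv c' x1 = (P.ze ^ k' * P.Yv c' x1) * P.Yv c' x := by ring
        _ = (P.ze ^ k * P.Yv c x1) * P.Yv c' x := by rw [h2]
        _ = P.ze ^ k * (P.Yv c x1 * P.Yv c' x) := by ring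
        _ = P.ze ^ k * (P.Yv c x * P.Yv c' x1) := by rw [h3]
        _ = _ := by ring
    exact mul_right_cancel₀ (hYne c' x1) h4
  have hD : ∀ x ∈ Metric.ball x1 r, HasDerivAt (fun x => P.Cv c' k' x - P.Cv c k x) 0 x := by
    intro x hx
    have h := (Cv_deriv (P := P) k' (hc2 x hx)).sub (Cv_deriv (P := P) k (hc1 x hx))
    refine h.congr_deriv ?_
    rw [hpe x hx, sub_self]
  filter_upwards [Metric.ball_mem_nhds x1 hr] with x hx
  have h5 := Metric.isOpen_ball.is_const_of_deriv_eq_zero hpre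
      (fun y hy => (hD y hy).differentiableAt.differentiableWithinAt)
      (fun y hy => (hD y hy).deriv) hx (Metric.mem_ball_self hr)
  rw [hCz, add_sub_cancel_left] at h5
  rw [← h5]
  abel

/-! ### the function on the product -/

private theorem inv_Cv_cd (P : Par) (c : Bool) (k : ℤ) {x : ℂ} (hx : x ∈ Om c) :
    ContDiffAt ℂ 1 (P.Cv c k) x := by
  have h : DifferentiableOn ℂ (P.Cv c k) (Om c) :=
    fun y hy => (Cv_deriv k hy).differentiableAt.differentiableWithinAt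
  exact (h.contDiffOn (Om_isOpen c)).contDiffAt ((Om_isOpen c).mem_nhds hx)

private theorem inv_T_cd : ContDiff ℂ 1 θ.T := by
  exact_mod_cast RHK.ent_contDiff θ.dT 1

private theorem inv_f_hfd (c : Bool) (k : ℤ) (u : P.V) {x : ℂ} (hx : x ∈ Om c) :
    HasFDerivAt (fun p : P.V × ℂ => θ.T (P.Cv c k p.2 + p.1))
      ((fderiv ℂ θ.T (P.Cv c k x + u)).comp
        ((ContinuousLinearMap.snd ℂ P.V ℂ).smulRight (fun t : P.Ix => P.F t (P.pt c k x)) +
          ContinuousLinearMap.fst ℂ P.V ℂ)) (u, x) := by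
  have h1 : HasFDerivAt (fun p : P.V × ℂ => P.Cv c k p.2 + p.1)
      ((ContinuousLinearMap.snd ℂ P.V ℂ).smulRight (fun t : P.Ix => P.F t (P.pt c k x)) +
          ContinuousLinearMap.fst ℂ P.V ℂ) (u, x) := by
    refine HasFDerivAt.add ?_ hasFDerivAt_fst
    have h2 : HasFDerivAt (P.Cv c k) (ContinuousLinearMap.toSpanSingleton ℂ
        (fun t : P.Ix => P.F t (P.pt c k x))) (Prod.snd (u, x)) := (Cv_deriv k hx).hasFDerivAt
    have h3 := h2.comp (u, x) (hasFDerivAt_snd (𝕜 := ℂ) (p := (u, x)))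
    refine h3.congr_fderiv ?_
    ext v <;> simp
  exact (θ.dT (P.Cv c k x + u)).hasFDerivAt.comp (u, x) h1

private theorem inv_f_cd (c : Bool) (k : ℤ) (u : P.V) {x : ℂ} (hx : x ∈ Om c) :
    ContDiffAt ℂ 1 (fun p : P.V × ℂ => θ.T (P.Cv c k p.2 + p.1)) (u, x) := by
  have h1 : ContDiffAt ℂ 1 (fun p : P.V × ℂ => P.Cv c k p.2) (u, x) :=
    ContDiffAt.comp (u, x) (inv_Cv_cd P c k hx) contDiffAt_snd
  have h2 : ContDiffAt ℂ 1 (fun p : P.V × ℂ => P.Cv c k p.2 + p.1) (u, x) :=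
    h1.add contDiffAt_fst
  exact (inv_T_cd θ).contDiffAt.comp (u, x) h2

private theorem inv_deriv (c : Bool) (k : ℤ) (u : P.V) {x : ℂ} (hx : x ∈ Om c) :
    HasDerivAt (fun x => θ.T (P.Cv c k x + u))
      (fderiv ℂ θ.T (P.Cv c k x + u) (fun t : P.Ix => P.F t (P.pt c k x))) x := by
  have h1 : HasDerivAt (fun x => P.Cv c k x + u) (fun t : P.Ix => P.F t (P.pt c k x)) x :=
    (Cv_deriv k hx).add_const u
  exact (θ.dT (P.Cv c k x + u)).hasFDerivAt.comp_hasDerivAt x h1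

private theorem inv_impl (c : Bool) (k : ℤ) (u1 : P.V) {x0 : ℂ} (hx0 : x0 ∈ Om c)
    (h0 : θ.T (P.Cv c k x0 + u1) = 0)
    (hd : fderiv ℂ θ.T (P.Cv c k x0 + u1) (fun t : P.Ix => P.F t (P.pt c k x0)) ≠ 0) :
    ∃ φ : P.V → ℂ, φ u1 = x0 ∧ (∀ᶠ u in 𝓝 u1, DifferentiableAt ℂ φ u) ∧
      (∀ᶠ u in 𝓝 u1, θ.T (P.Cv c k (φ u) + u) = 0) ∧
      (∀ᶠ v : P.V × ℂ in 𝓝 (u1, x0), θ.T (P.Cv c k v.2 + v.1) = 0 → v.2 = φ v.1) := by
  have cdf := inv_f_cd θ c k u1 hx0
  have hfd := inv_f_hfd θ c k u1 hx0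
  have hinv : (fderiv ℂ (fun p : P.V × ℂ => θ.T (P.Cv c k p.2 + p.1)) (u1, x0) ∘L
      ContinuousLinearMap.inr ℂ P.V ℂ).IsInvertible := by
    rw [hfd.fderiv]
    refine ⟨ContinuousLinearEquiv.unitsEquivAut ℂ (Units.mk0 _ hd), ?_⟩
    ext
    simp
  refine ⟨cdf.implicitFunction one_ne_zero hinv, cdf.implicitFunction_apply_self one_ne_zero hinv,
    ?_, ?_, ?_⟩
  · have h1 := cdf.contDiffAt_implicitFunction one_ne_zero hinv
    filter_upwards [h1.eventually (by simp)] with u hu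
    exact hu.differentiableAt one_ne_zero
  · have h1 := cdf.eventually_apply_implicitFunction one_ne_zero hinv
    filter_upwards [h1] with u hu
    rw [h0] at hu
    exact hu
  · have h1 := cdf.eventually_apply_eq_iff_implicitFunction one_ne_zero hinv
    filter_upwards [h1] with v hv hv0
    rw [h0] at hv
    exact (hv.1 hv0).symm

/-! ### simple zeros -/

private theorem inv_order {g : ℂ → ℂ} {x : ℂ} (ha : AnalyticAt ℂ g x) (ht : analyticOrderAt g x ≠ ⊤)
    (h1 : analyticOrderNatAt g x = 1) : deriv g x ≠ 0 := by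
  have h2 : analyticOrderAt g x = ((1 : ℕ) : ℕ∞) := by
    rw [← Nat.cast_analyticOrderNatAt ht, h1]
  obtain ⟨w, hw, hw0, he⟩ := ha.analyticOrderAt_eq_natCast.1 h2
  have h3 : HasDerivAt (fun z => (z - x) ^ 1 • w z) (w x) x := by
    have h4 : HasDerivAt (fun z : ℂ => (z - x) ^ 1) 1 x := by
      simpa using (hasDerivAt_id x).sub_const x
    have h5 := h4.smul hw.differentiableAt.hasDerivAt
    refine h5.congr_deriv ?_
    simp
  have h6 : HasDerivAt g (w x) x := h3.congr_of_eventuallyEq he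
  rw [h6.deriv]
  exact hw0

private theorem inv_simple {u : P.V} (h : θ.Adm u) (hn : (θ.Z u).ncard = Fintype.card P.Ix)
    {c : Bool} {k : ℤ} {x : ℂ} (hx : x ∈ Om c) (hz : θ.T (P.Cv c k x + u) = 0) :
    fderiv ℂ θ.T (P.Cv c k x + u) (fun t : P.Ix => P.F t (P.pt c k x)) ≠ 0 := by
  have h1 : P.pt c k x ∈ θ.Z u := (Z_pt θ u k hx).2 hz
  have h2 := mult_one θ h hn h1
  rw [mult_pt θ u k hx] at h2
  obtain ⟨ha, ht⟩ := T_order θ u h.1 k hx
  have h3 := inv_order ha ht h2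
  rwa [(inv_deriv θ c k u hx).deriv] at h3

/-- the residue of `L_t` at a simple zero, in the canonical chart -/
private theorem inv_res (u : P.V) {c : Bool} {k : ℤ} {x1 : ℂ} (hx : x1 ∈ Om c)
    (hz : θ.T (P.Cv c k x1 + u) = 0)
    (hd : fderiv ℂ θ.T (P.Cv c k x1 + u) (fun t : P.Ix => P.F t (P.pt c k x1)) ≠ 0) (t : P.Ix) :
    Tendsto (fun x => (x - (P.pt c k x1).1) *
      θ.L t (P.Cv (cs (P.pt c k x1)) (P.ks (P.pt c k x1)) x + u)) (𝓝[≠] (P.pt c k x1).1)
      (𝓝 (fderiv ℂ θ.T (P.Cv c k x1 + u) (Pi.single t 1) /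
        fderiv ℂ θ.T (P.Cv c k x1 + u) (fun t : P.Ix => P.F t (P.pt c k x1)))) := by
  have h1x : (P.pt c k x1).1 = x1 := rfl
  rw [h1x]
  obtain ⟨l, hl, hev⟩ := inv_chart (P := P) (k := k) hx
  obtain ⟨ψ, hψ⟩ : ∃ ψ : ℂ → ℂ, ψ = fun x => θ.T (P.Cv c k x + u) := ⟨_, rfl⟩
  obtain ⟨d, hdd⟩ : ∃ d : ℂ, d = fderiv ℂ θ.T (P.Cv c k x1 + u)
    (fun t : P.Ix => P.F t (P.pt c k x1)) := ⟨_, rfl⟩
  have hψ1 : HasDerivAt ψ d x1 := by
    rw [hψ, hdd]
    exact inv_deriv θ c k u hx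
  have hψ0 : ψ x1 = 0 := by rw [hψ]; exact hz
  rw [← hdd] at hd ⊢
  have hslope : Tendsto (fun x => (x - x1) / ψ x) (𝓝[≠] x1) (𝓝 d⁻¹) := by
    have h2 := (hasDerivAt_iff_tendsto_slope.1 hψ1).inv₀ hd
    refine h2.congr fun x => ?_
    rw [slope_def_field, hψ0, sub_zero, inv_div]
  have hcont : ContinuousAt (fun x => fderiv ℂ θ.T (P.Cv c k x + u) (Pi.single t 1)) x1 := by
    have h3 : Continuous (fun v => fderiv ℂ θ.T v (Pi.single t 1)) :=
      ((inv_T_cd θ).continuous_fderiv one_ne_zero).clm_apply continuous_const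
    have h4 : ContinuousAt (fun x => P.Cv c k x + u) x1 :=
      ((Cv_deriv k hx).add_const u).continuousAt
    exact h3.continuousAt.comp h4
  have hne : ∀ᶠ x in 𝓝[≠] x1, ψ x ≠ 0 := by
    have := hψ1.eventually_ne (c := 0) hd
    exact this
  have hlim0 : Tendsto (fun x => (x - x1)) (𝓝[≠] x1) (𝓝 0) := by
    have h5 : Tendsto (fun x => (x - x1)) (𝓝 x1) (𝓝 (x1 - x1)) :=
      (continuous_id.sub continuous_const).continuousAt
    rw [sub_self] at h5
    exact h5.mono_left nhdsWithin_le_nhds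
  have hmain : Tendsto (fun x => (x - x1) / ψ x *
      fderiv ℂ θ.T (P.Cv c k x + u) (Pi.single t 1) +
      (x - x1) * (Real.pi * P.cf t * conj (l t))) (𝓝[≠] x1)
      (𝓝 (d⁻¹ * fderiv ℂ θ.T (P.Cv c k x1 + u) (Pi.single t 1) +
        0 * (Real.pi * P.cf t * conj (l t)))) :=
    (hslope.mul (hcont.tendsto.mono_left nhdsWithin_le_nhds)).add (hlim0.mul_const _)
  have hval : d⁻¹ * fderiv ℂ θ.T (P.Cv c k x1 + u) (Pi.single t 1) +
        0 * (Real.pi * P.cf t * conj (l t)) =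
      fderiv ℂ θ.T (P.Cv c k x1 + u) (Pi.single t 1) / d := by
    rw [zero_mul, add_zero, div_eq_mul_inv, mul_comm]
  rw [hval] at hmain
  refine hmain.congr' ?_
  filter_upwards [hne, hev.filter_mono nhdsWithin_le_nhds] with x h6 h7
  have h8 : P.Cv c k x + l + u = (P.Cv c k x + u) + l := by abel
  have h9 : θ.T (P.Cv c k x + u) ≠ 0 := by
    rw [hψ] at h6
    exact h6
  rw [h7, h8, L_add θ hl h9 t]
  have h10 : ψ x = θ.T (P.Cv c k x + u) := by rw [hψ]
  rw [h10]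
  unfold Th.L
  ring

/-- the matrix of residues is inverse to the matrix `F_s(q_i)` -/
private theorem inv_mat {u : P.V} (h : θ.Adm u) (c : P.Ix → Bool) (k : P.Ix → ℤ) (x : P.Ix → ℂ)
    (ho : ∀ i, x i ∈ Om (c i)) (hin : Function.Injective fun i => P.pt (c i) (k i) (x i))
    (hZ : θ.Z u = Set.range fun i => P.pt (c i) (k i) (x i)) (s t : P.Ix) :
    ∑ i, (fderiv ℂ θ.T (P.Cv (c i) (k i) (x i) + u) (Pi.single t 1) /
        fderiv ℂ θ.T (P.Cv (c i) (k i) (x i) + u) (fun t : P.Ix => P.F t (P.pt (c i) (k i) (x i)))) *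
      P.F s (P.pt (c i) (k i) (x i)) = if s = t then 1 else 0 := by
  classical
  have hn : (θ.Z u).ncard = Fintype.card P.Ix := by
    rw [hZ, ← Set.image_univ, Set.ncard_image_of_injective _ hin, Set.ncard_univ,
      Nat.card_eq_fintype_card]
  have hT : ∀ i, θ.T (P.Cv (c i) (k i) (x i) + u) = 0 := by
    intro i
    rw [← Z_pt θ u (k i) (ho i), hZ]
    exact ⟨i, rfl⟩
  obtain ⟨q, hq⟩ : ∃ q : P.Ix → ℂ × ℂ, q = fun i => P.pt (c i) (k i) (x i) := ⟨_, rfl⟩
  obtain ⟨r, hr⟩ : ∃ r : P.Ix → ℂ, r = fun i =>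
    (fderiv ℂ θ.T (P.Cv (c i) (k i) (x i) + u) (Pi.single t 1) /
        fderiv ℂ θ.T (P.Cv (c i) (k i) (x i) + u)
          (fun t : P.Ix => P.F t (P.pt (c i) (k i) (x i)))) := ⟨_, rfl⟩
  rw [← hq] at hin hZ
  have hres := residues θ h t (Function.extend q r 0) (by
    intro z hz
    rw [hZ] at hz
    obtain ⟨i, rfl⟩ := hz
    rw [hin.extend_apply, hr, hq]
    exact inv_res θ u (ho i) (hT i) (inv_simple θ h hn (ho i) (hT i)) t) s
  have hset : (Z_finite θ h).toFinset = Finset.univ.image q := by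
    ext w
    simp [hZ]
  rw [hset, Finset.sum_image (fun a _ b _ hab => hin hab)] at hres
  rw [← hres]
  refine Finset.sum_congr rfl fun i _ => ?_
  rw [hin.extend_apply, hr, hq]

/-- derivative of an implicit function -/
private theorem inv_der (c : Bool) (k : ℤ) (φ : P.V → ℂ) {u : P.V} (hd : DifferentiableAt ℂ φ u)
    (ho : φ u ∈ Om c) (hT : ∀ᶠ v in 𝓝 u, θ.T (P.Cv c k (φ v) + v) = 0) (w : P.V) :
    fderiv ℂ φ u w * fderiv ℂ θ.T (P.Cv c k (φ u) + u) (fun t : P.Ix => P.F t (P.pt c k (φ u))) +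
      fderiv ℂ θ.T (P.Cv c k (φ u) + u) w = 0 := by
  have h1 := (inv_f_hfd θ c k u ho).comp u ((hasFDerivAt_id (𝕜 := ℂ) u).prodMk hd.hasFDerivAt)
  have h2 : HasFDerivAt ((fun p : P.V × ℂ => θ.T (P.Cv c k p.2 + p.1)) ∘
      fun v => (id v, φ v)) (0 : P.V →L[ℂ] ℂ) u := by
    refine (hasFDerivAt_const (0 : ℂ) u).congr_of_eventuallyEq ?_
    filter_upwards [hT] with v hv
    exact hv
  have h3 := congrArg (fun L : P.V →L[ℂ] ℂ => L w) (h1.unique h2)
  have h4 : fderiv ℂ θ.T (P.Cv c k (φ u) + u)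
      (fderiv ℂ φ u w • (fun t : P.Ix => P.F t (P.pt c k (φ u))) + w) = 0 := h3
  rw [map_add, map_smul, smul_eq_mul] at h4
  exact h4

theorem exists_ZD : Nonempty (P.ZD θ) := by
  classical
  obtain ⟨u1, hA1, hn1⟩ := exists_simple θ
  -- index the zeros
  have hfin : Fintype ↥(θ.Z u1) := (Z_finite θ hA1).fintype
  have hcard : Fintype.card ↥(θ.Z u1) = Fintype.card P.Ix := by
    rw [← hn1, ← Nat.card_coe_set_eq, Nat.card_eq_fintype_card]
  let e := Fintype.equivOfCardEq hcard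
  obtain ⟨z, hz⟩ : ∃ z : P.Ix → ℂ × ℂ, z = fun i => ((e.symm i : ↥(θ.Z u1)) : ℂ × ℂ) := ⟨_, rfl⟩
  have hzmem : ∀ i, z i ∈ θ.Z u1 := by
    intro i
    rw [hz]
    exact (e.symm i).2
  have hzinj : Function.Injective z := by
    intro i j hij
    rw [hz] at hij
    exact e.symm.injective (Subtype.ext hij)
  have hzsurj : ∀ w ∈ θ.Z u1, ∃ i, z i = w := by
    intro w hw
    refine ⟨e ⟨w, hw⟩, ?_⟩
    rw [hz]
    simp
  obtain ⟨c, hc⟩ : ∃ c : P.Ix → Bool, c = fun i => cs (z i) := ⟨_, rfl⟩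
  obtain ⟨k, hk⟩ : ∃ k : P.Ix → ℤ, k = fun i => (P.ks (z i) : ℤ) := ⟨_, rfl⟩
  obtain ⟨x0, hx0⟩ : ∃ x0 : P.Ix → ℂ, x0 = fun i => (z i).1 := ⟨_, rfl⟩
  have hom : ∀ i, x0 i ∈ Om (c i) := by
    intro i
    rw [hc, hx0]
    exact (ks_spec (hzmem i).1).1
  have hpt0 : ∀ i, P.pt (c i) (k i) (x0 i) = z i := by
    intro i
    rw [hc, hx0, hk]
    exact (ks_spec (hzmem i).1).2.2
  have hT0 : ∀ i, θ.T (P.Cv (c i) (k i) (x0 i) + u1) = 0 := by
    intro i
    rw [← Z_pt θ u1 (k i) (hom i), hpt0 i]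
    exact hzmem i
  have hd0 := fun i => inv_simple θ hA1 hn1 (hom i) (hT0 i)
  choose φ hφ1 hφd hφT hφu using fun i => inv_impl θ (c i) (k i) u1 (hom i) (hT0 i) (hd0 i)
  have hφc : ∀ i, Tendsto (φ i) (𝓝 u1) (𝓝 (x0 i)) := by
    intro i
    have := (hφd i).self_of_nhds.continuousAt.tendsto
    rwa [hφ1 i] at this
  have hφom : ∀ᶠ u in 𝓝 u1, ∀ i, φ i u ∈ Om (c i) := by
    rw [eventually_all]
    intro i
    exact (hφc i).eventually ((Om_isOpen (c i)).mem_nhds (hom i))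
  have hq : ∀ i, Tendsto (fun u => P.pt (c i) (k i) (φ i u)) (𝓝 u1) (𝓝 (z i)) := by
    intro i
    rw [← hpt0 i]
    have h1 : ContinuousAt (fun x => P.pt (c i) (k i) x) (x0 i) := by
      have h2 : ContinuousAt (P.Yv (c i)) (x0 i) := (P.Yv_hasDerivAt (hom i)).continuousAt
      exact continuousAt_id.prodMk (continuousAt_const.mul h2)
    exact h1.tendsto.comp (hφc i)
  have hinj : ∀ᶠ u in 𝓝 u1, Function.Injective (fun i => P.pt (c i) (k i) (φ i u)) := by
    have h1 : ∀ᶠ u in 𝓝 u1, ∀ i j, i ≠ j →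
        P.pt (c i) (k i) (φ i u) ≠ P.pt (c j) (k j) (φ j u) := by
      rw [eventually_all]
      intro i
      rw [eventually_all]
      intro j
      by_cases hij : i = j
      · exact Eventually.of_forall fun u h => absurd hij h
      · have h2 := ((hq i).sub (hq j)).eventually_ne (sub_ne_zero.2 (fun h => hij (hzinj h)))
        filter_upwards [h2] with u hu _
        exact sub_ne_zero.1 hu
    filter_upwards [h1] with u hu i j hij
    by_contra hne
    exact hu i j hne hij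
  -- all zeros
  have hZ : ∀ᶠ u in 𝓝 u1, θ.Adm u ∧
      θ.Z u = Set.range (fun i => P.pt (c i) (k i) (φ i u)) := by
    have h1 : ∀ i, ∃ pa : P.V → Prop, (∀ᶠ u in 𝓝 u1, pa u) ∧
        ∃ pb : ℂ → Prop, (∀ᶠ x in 𝓝 (x0 i), pb x) ∧
          ∀ {u : P.V}, pa u → ∀ {x : ℂ}, pb x →
            (θ.T (P.Cv (c i) (k i) x + u) = 0 → x = φ i u) := by
      intro i
      have h2 := hφu i
      rw [nhds_prod_eq, eventually_prod_iff] at h2
      exact h2
    choose pa hpa pb hpb hab using h1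
    have h2 : ∀ᶠ y in 𝓝 (0 : ℂ), ∀ i, pb i (x0 i + y) := by
      rw [eventually_all]
      intro i
      have h3 : Tendsto (fun y : ℂ => x0 i + y) (𝓝 0) (𝓝 (x0 i)) := by
        have h4 : ContinuousAt (fun y : ℂ => x0 i + y) 0 := by fun_prop
        simpa using h4.tendsto
      exact h3.eventually (hpb i)
    obtain ⟨ε, hε, hball⟩ := Metric.eventually_nhds_iff.1 h2
    filter_upwards [persist θ hA1 hε, eventually_all.2 hpa, eventually_all.2 hφT, hφom] with
      u hu h6 h7 h8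
    refine ⟨hu.1, ?_⟩
    ext w
    constructor
    · intro hw
      obtain ⟨z', hz', x, hx, hxo, hwx⟩ := hu.2.2 w hw
      obtain ⟨i, rfl⟩ := hzsurj z' hz'
      have hci : cs (z i) = c i := by rw [hc]
      have hki : (P.ks (z i) : ℤ) = k i := by rw [hk]
      have hxi : (z i).1 = x0 i := by rw [hx0]
      rw [hci] at hxo hwx
      rw [hki] at hwx
      rw [hxi] at hx
      have h9 : θ.T (P.Cv (c i) (k i) x + u) = 0 := by
        rw [← Z_pt θ u (k i) hxo, ← hwx]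
        exact hw
      have h10 : pb i x := by
        have h11 := hball (y := x - x0 i) (by rw [dist_zero_right]; exact hx) i
        rwa [add_sub_cancel] at h11
      have h12 := hab i (h6 i) h10 h9
      refine ⟨i, ?_⟩
      show P.pt (c i) (k i) (φ i u) = w
      rw [hwx, h12]
    · rintro ⟨i, rfl⟩
      exact (Z_pt θ u (k i) (h8 i)).2 (h7 i)
  -- the constant
  obtain ⟨K, hK⟩ : ∃ K : P.V → P.V, K = fun u => u + ∑ i, P.Cv (c i) (k i) (φ i u) := ⟨_, rfl⟩
  have hKd : ∀ᶠ u in 𝓝 u1, DifferentiableAt ℂ K u ∧ fderiv ℂ K u = 0 := by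
    have hTall : ∀ i, ∀ᶠ u in 𝓝 u1, ∀ᶠ u' in 𝓝 u,
        θ.T (P.Cv (c i) (k i) (φ i u') + u') = 0 := fun i => (hφT i).eventually_nhds
    filter_upwards [eventually_all.2 hφd, eventually_all.2 hTall, hφom, hinj, hZ] with
      u hd hTT ho hin hAZ
    obtain ⟨hA, hZu⟩ := hAZ
    have hn : (θ.Z u).ncard = Fintype.card P.Ix := by
      rw [hZu, ← Set.image_univ, Set.ncard_image_of_injective _ hin, Set.ncard_univ,
        Nat.card_eq_fintype_card]
    have hT : ∀ i, θ.T (P.Cv (c i) (k i) (φ i u) + u) = 0 := fun i => (hTT i).self_of_nhds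
    have hne := fun i => inv_simple θ hA hn (ho i) (hT i)
    have hmat := inv_mat θ hA c k (fun i => φ i u) ho hin hZu
    have hKf : HasFDerivAt K (ContinuousLinearMap.id ℂ P.V +
        ∑ i, (fderiv ℂ (φ i) u).smulRight
          (fun t : P.Ix => P.F t (P.pt (c i) (k i) (φ i u)))) u := by
      rw [hK]
      refine (hasFDerivAt_id u).add ?_
      refine HasFDerivAt.fun_sum fun i _ => ?_
      have h2 : HasFDerivAt (P.Cv (c i) (k i)) (ContinuousLinearMap.toSpanSingleton ℂ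
        (fun t : P.Ix => P.F t (P.pt (c i) (k i) (φ i u)))) (φ i u) :=
          (Cv_deriv (k i) (ho i)).hasFDerivAt
      have h3 := h2.comp u (hd i).hasFDerivAt
      refine h3.congr_fderiv ?_
      ext v <;> simp
    refine ⟨hKf.differentiableAt, ?_⟩
    rw [hKf.fderiv]
    have hbasis : ∀ t : P.Ix, (ContinuousLinearMap.id ℂ P.V +
        ∑ i, (fderiv ℂ (φ i) u).smulRight
          (fun t : P.Ix => P.F t (P.pt (c i) (k i) (φ i u)))) (Pi.single t 1) = 0 := by
      intro t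
      funext s
      have h5 := hmat s t
      have h6 : ∀ i, fderiv ℂ (φ i) u (Pi.single t 1) =
          -(fderiv ℂ θ.T (P.Cv (c i) (k i) (φ i u) + u) (Pi.single t 1) /
            fderiv ℂ θ.T (P.Cv (c i) (k i) (φ i u) + u)
              (fun t : P.Ix => P.F t (P.pt (c i) (k i) (φ i u)))) := by
        intro i
        have h7 := inv_der θ (c i) (k i) (φ i) (hd i) (ho i) (hTT i) (Pi.single t 1)
        have h8 := hne i
        rw [eq_neg_iff_add_eq_zero, ← eq_neg_iff_add_eq_zero, eq_comm, neg_eq_iff_eq_neg,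
          div_eq_iff h8]
        linear_combination h7
      simp only [add_apply, ContinuousLinearMap.id_apply, Pi.add_apply,
        ContinuousLinearMap.sum_apply, ContinuousLinearMap.smulRight_apply, Finset.sum_apply,
        Pi.smul_apply, smul_eq_mul, Pi.zero_apply]
      have h9 : (Pi.single t 1 : P.V) s = if s = t then 1 else 0 := by
        rw [Pi.single_apply]
      rw [h9, ← h5, ← Finset.sum_add_distrib]
      refine Finset.sum_eq_zero fun i _ => ?_
      rw [h6 i]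
      ring
    apply ContinuousLinearMap.ext
    intro w
    have hw : w = ∑ t, w t • (Pi.single t 1 : P.V) := by
      funext s
      simp [Finset.sum_apply, Pi.single_apply]
    rw [hw, map_sum]
    refine Finset.sum_eq_zero fun t _ => ?_
    rw [map_smul, hbasis t, smul_zero]
  obtain ⟨kap, hkap⟩ : ∃ kap : P.V, kap = u1 + ∑ i, P.Cv (c i) (k i) (x0 i) := ⟨_, rfl⟩
  have hK1 : K u1 = kap := by
    rw [hK, hkap]
    simp only [hφ1]
  have hKc : ∀ᶠ u in 𝓝 u1, K u = kap := by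
    obtain ⟨r, hr, hball⟩ := Metric.eventually_nhds_iff_ball.1 hKd
    filter_upwards [Metric.ball_mem_nhds u1 hr] with u hu
    rw [← hK1]
    exact Metric.isOpen_ball.is_const_of_fderiv_eq_zero (𝕜 := ℂ)
      (convex_ball u1 r).isPreconnected
      (fun y hy => (hball y hy).1.differentiableWithinAt)
      (fun y hy => (hball y hy).2) hu (Metric.mem_ball_self hr)
  -- the map `x ↦ u`
  obtain ⟨ux, hux⟩ : ∃ ux : (P.Ix → ℂ) → P.V,
    ux = fun x => kap - ∑ i, P.Cv (c i) (k i) (x i) := ⟨_, rfl⟩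
  have hux0 : ux x0 = u1 := by
    rw [hux, hkap]
    simp
  have hZ1 := hZ.self_of_nhds
  have hin1 := hinj.self_of_nhds
  simp only [hφ1] at hZ1 hin1
  have hmat1 := inv_mat θ hA1 c k x0 hom hin1 hZ1.2
  obtain ⟨r, hr⟩ : ∃ r : Matrix P.Ix P.Ix ℂ, r = Matrix.of fun i t =>
    (fderiv ℂ θ.T (P.Cv (c i) (k i) (x0 i) + u1) (Pi.single t 1) /
        fderiv ℂ θ.T (P.Cv (c i) (k i) (x0 i) + u1)
          (fun t : P.Ix => P.F t (P.pt (c i) (k i) (x0 i)))) := ⟨_, rfl⟩
  obtain ⟨Fm, hFm⟩ : ∃ Fm : Matrix P.Ix P.Ix ℂ, Fm = Matrix.of fun s i =>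
    P.F (s : P.Ix) (P.pt (c i) (k i) (x0 i)) := ⟨_, rfl⟩
  have hFr : Fm * r = 1 := by
    ext s t
    rw [Matrix.mul_apply, Matrix.one_apply, ← hmat1 s t, hFm, hr]
    refine Finset.sum_congr rfl fun i _ => ?_
    rw [mul_comm]
    rfl
  have hrF : r * Fm = 1 := mul_eq_one_comm.1 hFr
  obtain ⟨A, hAdef⟩ : ∃ A : (P.Ix → ℂ) →L[ℂ] P.V, A = -∑ i,
    (ContinuousLinearMap.proj (R := ℂ) (φ := fun _ : P.Ix => ℂ) i).smulRight
      (fun t : P.Ix => P.F t (P.pt (c i) (k i) (x0 i))) := ⟨_, rfl⟩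
  have hAv : ∀ y : P.Ix → ℂ, A y = -(Fm.mulVec y) := by
    intro y
    funext s
    rw [hAdef, hFm]
    simp [Matrix.mulVec, dotProduct, mul_comm]
  obtain ⟨B, hBdef⟩ : ∃ B : P.V →L[ℂ] (P.Ix → ℂ),
    B = LinearMap.toContinuousLinearMap (-(Matrix.toLin' r)) := ⟨_, rfl⟩
  have hBv : ∀ w : P.V, B w = -(r.mulVec w) := by
    intro w
    rw [hBdef]
    simp [Matrix.toLin'_apply]
  have hBA : Function.LeftInverse B A := by
    intro y
    rw [hBv, hAv, Matrix.mulVec_neg, neg_neg, Matrix.mulVec_mulVec, hrF, Matrix.one_mulVec]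
  have hAB : Function.RightInverse B A := by
    intro w
    rw [hBv, hAv, Matrix.mulVec_neg, neg_neg, Matrix.mulVec_mulVec, hFr, Matrix.one_mulVec]
  have huxd : HasStrictFDerivAt ux
      ((ContinuousLinearEquiv.equivOfInverse A B hBA hAB : (P.Ix → ℂ) ≃L[ℂ] P.V) :
        (P.Ix → ℂ) →L[ℂ] P.V) x0 := by
    have h1 : ((ContinuousLinearEquiv.equivOfInverse A B hBA hAB : (P.Ix → ℂ) ≃L[ℂ] P.V) :
        (P.Ix → ℂ) →L[ℂ] P.V) = A := by
      ext y
      rfl
    rw [h1, hux, hAdef]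
    refine HasStrictFDerivAt.const_sub ?_ kap
    refine HasStrictFDerivAt.fun_sum fun i _ => ?_
    have h2 : HasStrictDerivAt (P.Cv (c i) (k i))
        (fun t : P.Ix => P.F t (P.pt (c i) (k i) (x0 i))) (x0 i) := by
      have h3 := (inv_Cv_cd P (c i) (k i) (hom i)).hasStrictDerivAt one_ne_zero
      rwa [(Cv_deriv (k i) (hom i)).deriv] at h3
    have h4 : HasStrictFDerivAt (P.Cv (c i) (k i)) (ContinuousLinearMap.toSpanSingleton ℂ
        (fun t : P.Ix => P.F t (P.pt (c i) (k i) (x0 i))))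
        ((ContinuousLinearMap.proj (R := ℂ) (φ := fun _ : P.Ix => ℂ) i) x0) :=
      h2.hasStrictFDerivAt
    have h5 := h4.comp x0
      (ContinuousLinearMap.proj (R := ℂ) (φ := fun _ : P.Ix => ℂ) i).hasStrictFDerivAt
    refine h5.congr_fderiv ?_
    ext v <;> simp
  have hg1 := huxd.eventually_left_inverse
  have huxc : Tendsto ux (𝓝 x0) (𝓝 u1) := by
    have h1 := huxd.hasFDerivAt.continuousAt.tendsto
    rwa [hux0] at h1
  have hφx : Tendsto (fun u => fun i => φ i u) (𝓝 u1) (𝓝 x0) := tendsto_pi_nhds.2 hφc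
  have hg2 := hφx.eventually hg1
  have hg3 : ∀ᶠ u in 𝓝 u1, HasStrictFDerivAt.localInverse ux _ x0 huxd u = fun i => φ i u := by
    filter_upwards [hg2, hKc] with u h1 h2
    have h3 : ux (fun i => φ i u) = u := by
      rw [hux, ← h2, hK]
      simp
    rwa [h3] at h1
  have hfinal : ∀ᶠ x in 𝓝 x0, (fun i => φ i (ux x)) = x := by
    filter_upwards [hg1, huxc.eventually hg3] with x h1 h2
    rw [← h2, h1]
  have hgood : ∀ᶠ x in 𝓝 x0, (∀ i, x i ∈ Om (c i)) ∧ θ.Adm (ux x) ∧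
      Function.Injective (fun i => P.pt (c i) (k i) (x i)) ∧
      θ.Z (ux x) = Set.range (fun i => P.pt (c i) (k i) (x i)) := by
    filter_upwards [hfinal, huxc.eventually hφom, huxc.eventually hinj, huxc.eventually hZ] with
      x h1 h2 h3 h4
    have h5 : ∀ i, φ i (ux x) = x i := fun i => congrFun h1 i
    simp only [h5] at h2 h3 h4
    exact ⟨h2, h4.1, h3, h4.2⟩
  obtain ⟨U, hU, hUo, hU0⟩ := eventually_nhds_iff.1 hgood
  refine ⟨{
    c := c
    k := k
    U := U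
    hU := hUo
    hne := ⟨x0, hU0⟩
    kap := kap
    om := fun x hx => (hU x hx).1
    adm := fun x hx => ?_
    inj := fun x hx => (hU x hx).2.2.1
    zer := fun x hx => ?_ }⟩
  · have h1 := (hU x hx).2.1
    rw [hux] at h1
    exact h1
  · have h1 := (hU x hx).2.2.2
    rw [hux] at h1
    exact h1

end

end Pool.Agent.RHT.Par
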