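import Pool.Agent.RHT.Cur

/-!
RHT-LinF. Points where the matrix of the differentials is invertible. Plan: the functions
`x ↦ F t (pt c k x)`, `t ∈ Phi`, are linearly independent on every nonempty open subset `U` of
`Om c`: a relation on `U` holds on `Om c` (identity theorem, `Om_isPreconnected`); by `F_pt`,
`norm_pw` and `al_add_be_Phi` the function `t` has norm `~ |x|^(-1-t/D)` as `x → ∞` (vertically, away
from the cuts): multiply by `|x|^(1+t/D)` for the smallest `t` with nonzero coefficient and let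
`x → ∞`. Then (linear algebra, induction on the number of functions, or: the span of the vectors
`(F_t(pt c k y))_t`, `y ∈ U`, is everything, choose a basis among them) there are points `y m ∈ U`
with nonzero determinant; the determinant is continuous in the points, algebraic numbers are dense.
-/

set_option autoImplicit false

namespace Pool.Agent.RHT.Par

open Complex ComplexConjugate Finset Filter Topology

noncomputable section

variable (P : Par)

/-- algebraic numbers are dense in the plane -/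
private theorem linF_dense : Dense {z : ℂ | IsAlgebraic ℚ z} := by
  have h1 : DenseRange (fun p : ℚ × ℚ => ((p.1 : ℝ), (p.2 : ℝ))) :=
    (Rat.denseRange_cast (𝕜 := ℝ)).prodMap (Rat.denseRange_cast (𝕜 := ℝ))
  have h2 : DenseRange (fun p : ℝ × ℝ => (p.1 : ℂ) + (p.2 : ℂ) * I) := by
    refine Function.Surjective.denseRange fun z => ⟨(z.re, z.im), ?_⟩
    exact Complex.re_add_im z
  have h3 : DenseRange ((fun p : ℝ × ℝ => (p.1 : ℂ) + (p.2 : ℂ) * I) ∘
      (fun p : ℚ × ℚ => ((p.1 : ℝ), (p.2 : ℝ)))) :=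
    h2.comp h1 (by fun_prop)
  refine h3.mono ?_
  rintro z ⟨p, rfl⟩
  have e : ((fun p : ℝ × ℝ => (p.1 : ℂ) + (p.2 : ℂ) * I) ∘
      (fun p : ℚ × ℚ => ((p.1 : ℝ), (p.2 : ℝ)))) p = (p.1 : ℂ) + (p.2 : ℂ) * I := by
    simp
  rw [e]
  have hI : IsAlgebraic ℚ I := by
    refine ⟨Polynomial.X ^ 2 + 1, ?_, by simp⟩
    intro h
    have := congrArg (Polynomial.coeff · 0) h
    simp at this
  exact (isAlgebraic_algebraMap (R := ℚ) (A := ℂ) p.1).add
    ((isAlgebraic_algebraMap (R := ℚ) (A := ℂ) p.2).mul hI)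

/-- algebraic numbers are dense -/
theorem exists_alg {ι : Type} [Fintype ι] {U : Set (ι → ℂ)} (hU : IsOpen U) (hne : U.Nonempty) :
    ∃ x ∈ U, ∀ i, IsAlgebraic ℚ (x i) := by
  have hd : Dense (Set.pi Set.univ fun _ : ι => {z : ℂ | IsAlgebraic ℚ z}) :=
    dense_pi Set.univ fun _ _ => linF_dense
  obtain ⟨x, hxU, hx⟩ := hd.inter_open_nonempty U hU hne
  exact ⟨x, hxU, fun i => hx i (Set.mem_univ i)⟩

/-- linear algebra: linearly independent functions have a nonvanishing determinant -/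
private theorem linF_exists_det {ι X : Type} [Fintype ι] [DecidableEq ι] (f : ι → X → ℂ)
    (U : Set X) (h : ∀ a : ι → ℂ, (∀ x ∈ U, ∑ t, a t * f t x = 0) → a = 0) :
    ∃ y : ι → X, (∀ m, y m ∈ U) ∧ (Matrix.of fun (t m : ι) => f t (y m)).det ≠ 0 := by
  classical
  set s : Set (ι → ℂ) := (fun x t => f t x) '' U with hs
  have hspan : Submodule.span ℂ s = ⊤ := by
    by_contra hne
    obtain ⟨φ, hφ0, hφ⟩ := Submodule.exists_le_ker_of_lt_top _ (lt_top_iff_ne_top.2 hne)
    refine hφ0 ?_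
    have hφe : ∀ v : ι → ℂ, φ v = ∑ t, φ (Pi.single t 1) * v t := by
      intro v
      conv_lhs => rw [← LinearMap.sum_single_apply (fun _ : ι => ℂ) v, map_sum]
      refine Finset.sum_congr rfl fun t _ => ?_
      have : (Pi.single t (v t) : ι → ℂ) = v t • Pi.single t (1 : ℂ) := by
        rw [← Pi.single_smul, smul_eq_mul, mul_one]
      rw [this, map_smul, smul_eq_mul, mul_comm]
    have h0 := h (fun t => φ (Pi.single t 1)) fun x hx => by
      rw [← hφe fun t => f t x]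
      exact hφ (Submodule.subset_span ⟨x, hx, rfl⟩)
    ext t
    simpa using congrFun h0 t
  obtain ⟨b, hbs, hbspan, hbli⟩ := exists_linearIndependent ℂ s
  have hbtop : ⊤ ≤ Submodule.span ℂ (Set.range (Subtype.val : b → (ι → ℂ))) := by
    rw [Subtype.range_coe, hbspan, hspan]
  let B : Module.Basis b ℂ (ι → ℂ) := Module.Basis.mk hbli hbtop
  let e : b ≃ ι := B.indexEquiv (Pi.basisFun ℂ ι)
  have hy : ∀ m : ι, ∃ x ∈ U, (fun t => f t x) = ((e.symm m : b) : ι → ℂ) := fun m =>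
    hbs (e.symm m).2
  choose y hyU hyf using hy
  refine ⟨y, hyU, ?_⟩
  have hli : LinearIndependent ℂ (fun m : ι => fun t => f t (y m)) := by
    have : (fun m : ι => fun t => f t (y m)) = (Subtype.val : b → (ι → ℂ)) ∘ e.symm := by
      funext m; exact hyf m
    rw [this]
    exact hbli.comp _ e.symm.injective
  have hli' : LinearIndependent ℂ (Matrix.of fun (t m : ι) => f t (y m)).col := hli
  exact ((Matrix.isUnit_iff_isUnit_det _).1
    (Matrix.linearIndependent_cols_iff_isUnit.1 hli')).ne_zero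

/-- the differentials are linearly independent -/
private theorem linF_indep {c : Bool} (k : ℤ) {U : Set ℂ} (hU : IsOpen U) (hne : U.Nonempty)
    (hUO : U ⊆ Om c) (a : P.Ix → ℂ)
    (h : ∀ x ∈ U, ∑ t : P.Ix, a t * P.F t (P.pt c k x) = 0) : a = 0 := by
  classical
  by_contra ha
  have hD0 : (0 : ℝ) < P.D := by
    have := P.hD
    exact_mod_cast (by omega : 0 < P.D)
  -- identity theorem
  have hdiff : DifferentiableOn ℂ (fun x => ∑ t : P.Ix, a t * P.F t (P.pt c k x)) (Om c) := by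
    intro x hx
    refine DifferentiableAt.differentiableWithinAt ?_
    exact DifferentiableAt.fun_sum fun t _ =>
      (P.F_hasDerivAt (t : ℕ) k hx).differentiableAt.const_mul (a t)
  obtain ⟨x0, hx0⟩ := hne
  have hzero : Set.EqOn (fun x => ∑ t : P.Ix, a t * P.F t (P.pt c k x)) 0 (Om c) := by
    refine (hdiff.analyticOnNhd (Om_isOpen c)).eqOn_zero_of_preconnected_of_eventuallyEq_zero
      (Om_isPreconnected c) (hUO hx0) ?_
    filter_upwards [hU.mem_nhds hx0] with x hx
    exact h x hx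
  -- the smallest index with nonzero coefficient
  obtain ⟨t1, ht1⟩ := Function.ne_iff.1 ha
  obtain ⟨t0, ht0m, ht0⟩ := Finset.exists_min_image
    (Finset.univ.filter fun t : P.Ix => a t ≠ 0) (fun t => (t : ℕ)) ⟨t1, by simpa using ht1⟩
  have ht0a : a t0 ≠ 0 := (Finset.mem_filter.1 ht0m).2
  -- points at infinity
  have hkey : ∀ s : ℝ, 1 ≤ s → ‖a t0‖ * s ^ ((1 : ℝ) / P.D) ≤ ∑ t : P.Ix, ‖a t‖ := by
    intro s hs
    set x : ℂ := 1 / 2 - sg c * I * s with hx
    have hre : x.re = 1 / 2 := by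
      simp [hx]
    have him : x.im = -(sg c * s) := by
      simp [hx]
    have hxO : x ∈ Om c := Om_of_strip (by rw [hre]; norm_num) (by rw [hre]; norm_num) c
    have hx0 := Om_ne hxO
    have hn : ‖1 - x‖ = ‖x‖ := by
      rw [Complex.norm_def, Complex.norm_def, Complex.normSq_apply, Complex.normSq_apply]
      congr 1
      simp [hre, him]
      ring
    have hsx : s ≤ ‖x‖ := by
      have h1 := Complex.abs_im_le_norm x
      rw [him, abs_neg, abs_mul] at h1
      have h2 : |sg c| = 1 := by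
        cases c <;> simp [sg]
      rw [h2, one_mul, abs_of_nonneg (by linarith)] at h1
      exact h1
    have hr1 : 1 ≤ ‖x‖ := hs.trans hsx
    have hr0 : 0 < ‖x‖ := by linarith
    have hF : ∀ t : P.Ix, ‖P.F t (P.pt c k x)‖ = ‖x‖ ^ (-(1 + ((t : ℕ) : ℝ) / P.D)) := by
      intro t
      rw [P.F_pt (t : ℕ) k hxO, norm_mul, norm_ze_zpow, one_mul, norm_pw c _ _ hx0.1 hx0.2, hn,
        ← Real.rpow_add hr0]
      congr 1
      rw [← P.al_add_be_Phi t.2]
      ring
    have hz := hzero hxO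
    simp only [Pi.zero_apply] at hz
    rw [← Finset.add_sum_erase _ _ (Finset.mem_univ t0)] at hz
    have h1 : ‖a t0 * P.F t0 (P.pt c k x)‖ ≤
        ∑ t ∈ Finset.univ.erase t0, ‖a t‖ * ‖x‖ ^ (-(1 + (((t0 : ℕ) : ℝ) + 1) / P.D)) := by
      rw [eq_neg_of_add_eq_zero_left hz, norm_neg]
      refine (norm_sum_le _ _).trans (Finset.sum_le_sum fun t ht => ?_)
      rw [norm_mul, hF]
      by_cases hat : a t = 0
      · simp [hat]
      · refine mul_le_mul_of_nonneg_left ?_ (norm_nonneg _)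
        refine Real.rpow_le_rpow_of_exponent_le hr1 ?_
        have h2 : (t0 : ℕ) ≤ t := ht0 t (by simpa using hat)
        have h3 : (t0 : ℕ) ≠ t := fun e => (Finset.ne_of_mem_erase ht) (Subtype.ext e.symm)
        have h4 : (((t0 : ℕ) : ℝ) + 1) ≤ ((t : ℕ) : ℝ) := by
          exact_mod_cast (by omega : (t0 : ℕ) + 1 ≤ t)
        have h5 : (((t0 : ℕ) : ℝ) + 1) / P.D ≤ ((t : ℕ) : ℝ) / P.D :=
          div_le_div_of_nonneg_right h4 hD0.le
        linarith
    rw [norm_mul, hF, ← Finset.sum_mul] at h1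
    have h6 : ‖x‖ ^ (-(1 + (((t0 : ℕ) : ℝ) + 1) / P.D)) =
        ‖x‖ ^ (-(1 + ((t0 : ℕ) : ℝ) / P.D)) * (‖x‖ ^ ((1 : ℝ) / P.D))⁻¹ := by
      rw [← Real.rpow_neg hr0.le, ← Real.rpow_add hr0]
      congr 1
      ring
    have h7 : 0 < ‖x‖ ^ (-(1 + ((t0 : ℕ) : ℝ) / P.D)) := Real.rpow_pos_of_pos hr0 _
    have h8 : 0 < ‖x‖ ^ ((1 : ℝ) / P.D) := Real.rpow_pos_of_pos hr0 _
    rw [h6] at h1
    have h9 : ‖a t0‖ * ‖x‖ ^ ((1 : ℝ) / P.D) ≤ ∑ t ∈ Finset.univ.erase t0, ‖a t‖ := by
      have h10 : ‖a t0‖ ≤ (∑ t ∈ Finset.univ.erase t0, ‖a t‖) * (‖x‖ ^ ((1 : ℝ) / P.D))⁻¹ := by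
        refine le_of_mul_le_mul_right ?_ h7
        calc _ ≤ _ := h1
          _ = _ := by ring
      rwa [← div_eq_mul_inv, le_div_iff₀ h8] at h10
    calc ‖a t0‖ * s ^ ((1 : ℝ) / P.D) ≤ ‖a t0‖ * ‖x‖ ^ ((1 : ℝ) / P.D) := by
          refine mul_le_mul_of_nonneg_left ?_ (norm_nonneg _)
          exact Real.rpow_le_rpow (by linarith) hsx (by positivity)
      _ ≤ ∑ t ∈ Finset.univ.erase t0, ‖a t‖ := h9
      _ ≤ _ := Finset.sum_le_sum_of_subset_of_nonneg (Finset.erase_subset _ _)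
          fun _ _ _ => norm_nonneg _
  have htend : Tendsto (fun s : ℝ => ‖a t0‖ * s ^ ((1 : ℝ) / P.D)) atTop atTop :=
    Tendsto.const_mul_atTop (norm_pos_iff.2 ht0a) (tendsto_rpow_atTop (by positivity))
  obtain ⟨s, hs1, hs2⟩ := ((eventually_ge_atTop (1 : ℝ)).and
    (htend.eventually_gt_atTop (∑ t : P.Ix, ‖a t‖))).exists
  exact absurd (hkey s hs1) (not_le.2 hs2)

theorem exists_det_ne {c : Bool} (k : ℤ) {U : Set ℂ} (hU : IsOpen U) (hne : U.Nonempty)
    (hUO : U ⊆ Om c) : ∃ y : P.Ix → ℂ, (∀ m, y m ∈ U) ∧ (∀ m, IsAlgebraic ℚ (y m)) ∧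
      (Matrix.of fun (t m : P.Ix) => P.F t (P.pt c k (y m))).det ≠ 0 := by
  classical
  obtain ⟨y0, hy0U, hy0⟩ := linF_exists_det (fun (t : P.Ix) x => P.F t (P.pt c k x)) U
    (P.linF_indep k hU hne hUO)
  have hpi : IsOpen (Set.pi Set.univ fun _ : P.Ix => U) :=
    isOpen_set_pi Set.finite_univ fun _ _ => hU
  have hcont : ContinuousOn
      (fun y : P.Ix → ℂ => (Matrix.of fun (t m : P.Ix) => P.F t (P.pt c k (y m))).det)
      (Set.pi Set.univ fun _ : P.Ix => U) := by
    have hF : ∀ t : P.Ix, ContinuousOn (fun x => P.F t (P.pt c k x)) U := fun t x hx =>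
      (P.F_hasDerivAt (t : ℕ) k (hUO hx)).continuousAt.continuousWithinAt
    simp only [Matrix.det_apply]
    refine continuousOn_finsetSum _ fun σ _ => ContinuousOn.const_smul ?_ _
    refine continuousOn_finsetProd _ fun i _ => ?_
    exact (hF (σ i)).comp (continuous_apply i).continuousOn fun y hy => hy i (Set.mem_univ i)
  have hW : IsOpen ((Set.pi Set.univ fun _ : P.Ix => U) ∩
      (fun y : P.Ix → ℂ => (Matrix.of fun (t m : P.Ix) => P.F t (P.pt c k (y m))).det) ⁻¹'
        {z | z ≠ 0}) := hcont.isOpen_inter_preimage hpi isOpen_ne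
  obtain ⟨y, ⟨hyU, hyd⟩, hyalg⟩ := exists_alg hW ⟨y0, fun m _ => hy0U m, hy0⟩
  exact ⟨y, fun m => hyU m (Set.mem_univ m), hyalg, hyd⟩

end

end Pool.Agent.RHT.Par
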