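import Pool.Agent.RHT.NFd

/-!
RHT-NFi. Local inverse of a holomorphic map. Plan: `strict_of_diff` for the components gives
`HasStrictFDerivAt Ψ` at `x0` and at all nearby points (`hasStrictFDerivAt_pi`), the derivative is the
matrix `pd j Ψ_i`, invertible at `x0` and nearby (continuity of the determinant, `pd_diff`).
`HasStrictFDerivAt.localInverse` (or `toOpenPartialHomeomorph`) for the continuous linear
equivalence of the matrix at `x0`; `Θ := localInverse`, `Θ (Ψ x0) = x0`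
(`HasStrictFDerivAt.localInverse_apply_image`), `Ψ (Θ v) = v` near
(`eventually_right_inverse`), `Θ` continuous near `Ψ x0` and differentiable there
(`OpenPartialHomeomorph.hasFDerivAt_symm` at each nearby point), derivative by the chain rule
`∑ j, pd j Ψ_i (Θ v) * pd s Θ_j v = δ_is`, so it is the inverse matrix (`Matrix.inv_eq_right_inv`).
-/

set_option autoImplicit false

namespace Pool.Agent.RHT

open Complex Finset Filter Topology

noncomputable section

variable {ι : Type} [Fintype ι] [DecidableEq ι] {x0 : ι → ℂ}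

/-- the derivative is the matrix of the partial derivatives -/
private theorem fderiv_apply_eq {Ψ : (ι → ℂ) → (ι → ℂ)} {x : ι → ℂ} (h : DifferentiableAt ℂ Ψ x)
    (w : ι → ℂ) (i : ι) :
    fderiv ℂ Ψ x w i = (Matrix.of fun i j => pd j (fun x => Ψ x i) x).mulVec w i := by
  have h1 : fderiv ℂ Ψ x w i = fderiv ℂ (fun x => Ψ x i) x w := by
    have h2 := (hasFDerivAt_pi'.1 h.hasFDerivAt i).fderiv
    rw [h2]
    rfl
  have h3 : w = ∑ j, w j • (Pi.single j (1 : ℂ) : ι → ℂ) := by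
    ext k
    simp [Finset.sum_apply, Pi.single_apply]
  rw [h1]
  conv_lhs => rw [h3]
  rw [map_sum]
  simp only [Matrix.mulVec, dotProduct, Matrix.of_apply, pd, map_smul, smul_eq_mul]
  exact Finset.sum_congr rfl fun j _ => mul_comm _ _

private theorem det_ne {Ψ : (ι → ℂ) → (ι → ℂ)} {x : ι → ℂ} (h : DifferentiableAt ℂ Ψ x)
    (hdet : (Matrix.of fun i j => pd j (fun x => Ψ x i) x).det ≠ 0) :
    (fderiv ℂ Ψ x).det ≠ 0 := by
  have h1 : ((fderiv ℂ Ψ x : (ι → ℂ) →L[ℂ] (ι → ℂ)) : (ι → ℂ) →ₗ[ℂ] (ι → ℂ)) =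
      Matrix.toLin' (Matrix.of fun i j => pd j (fun x => Ψ x i) x) := by
    apply LinearMap.ext
    intro w
    funext i
    rw [Matrix.toLin'_apply]
    exact fderiv_apply_eq h w i
  change LinearMap.det ((fderiv ℂ Ψ x : (ι → ℂ) →L[ℂ] (ι → ℂ)) : (ι → ℂ) →ₗ[ℂ] (ι → ℂ)) ≠ 0
  rw [h1, LinearMap.det_toLin']
  exact hdet

theorem exists_locInv (Ψ : (ι → ℂ) → (ι → ℂ)) (h : ∀ᶠ x in 𝓝 x0, DifferentiableAt ℂ Ψ x)
    (hdet : (Matrix.of fun i j => pd j (fun x => Ψ x i) x0).det ≠ 0) :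
    ∃ Θ : (ι → ℂ) → (ι → ℂ), Θ (Ψ x0) = x0 ∧ ∀ᶠ v in 𝓝 (Ψ x0), Ψ (Θ v) = v ∧
      DifferentiableAt ℂ Θ v ∧ (Matrix.of fun i j => pd j (fun x => Ψ x i) (Θ v)).det ≠ 0 ∧
      ∀ j s, pd s (fun v => Θ v j) v =
        (Matrix.of fun i j => pd j (fun x => Ψ x i) (Θ v))⁻¹ j s := by
  have hcomp : ∀ i, ∀ᶠ x in 𝓝 x0, DifferentiableAt ℂ (fun x => Ψ x i) x := fun i =>
    h.mono fun x hx => (differentiableAt_pi.1 hx) i
  have h0 : DifferentiableAt ℂ Ψ x0 := h.self_of_nhds
  have hstrict : HasStrictFDerivAt Ψ (fderiv ℂ Ψ x0) x0 := by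
    rw [hasStrictFDerivAt_pi']
    intro i
    have h2 := (hasFDerivAt_pi'.1 h0.hasFDerivAt i).fderiv
    rw [← h2]
    exact strict_of_diff (hcomp i)
  have hdet0 : (fderiv ℂ Ψ x0).det ≠ 0 := det_ne h0 hdet
  have hs : HasStrictFDerivAt Ψ
      (((fderiv ℂ Ψ x0).toContinuousLinearEquivOfDetNeZero hdet0 : (ι → ℂ) ≃L[ℂ] (ι → ℂ)) :
        (ι → ℂ) →L[ℂ] (ι → ℂ)) x0 := by
    rw [ContinuousLinearMap.coe_toContinuousLinearEquivOfDetNeZero]
    exact hstrict
  have hcont : ContinuousAt (fun x => (Matrix.of fun i j => pd j (fun x => Ψ x i) x).det) x0 := by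
    have h1 : ContinuousAt (fun x => (Matrix.of fun i j => pd j (fun x => Ψ x i) x :
        Matrix ι ι ℂ)) x0 := by
      refine continuousAt_pi.2 fun i => continuousAt_pi.2 fun j => ?_
      exact (pd_diff (hcomp i) j).self_of_nhds.continuousAt
    exact (Continuous.matrix_det continuous_id).continuousAt.comp h1
  have hd : ∀ᶠ x in 𝓝 x0, (Matrix.of fun i j => pd j (fun x => Ψ x i) x).det ≠ 0 :=
    hcont.eventually_ne hdet
  refine ⟨hs.localInverse Ψ _ x0, hs.localInverse_apply_image, ?_⟩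
  have htend := hs.localInverse_tendsto
  have htar : ∀ᶠ v in 𝓝 (Ψ x0), v ∈ (hs.toOpenPartialHomeomorph Ψ).target :=
    (hs.toOpenPartialHomeomorph Ψ).open_target.mem_nhds hs.image_mem_toOpenPartialHomeomorph_target
  filter_upwards [hs.eventually_right_inverse, htend.eventually h, htend.eventually hd, htar]
    with v hv1 hv2 hv3 hv4
  have hdetv := det_ne hv2 hv3
  have hfd : HasFDerivAt (hs.localInverse Ψ _ x0)
      ((((fderiv ℂ Ψ (hs.localInverse Ψ _ x0 v)).toContinuousLinearEquivOfDetNeZero hdetv).symm :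
        (ι → ℂ) ≃L[ℂ] (ι → ℂ)) : (ι → ℂ) →L[ℂ] (ι → ℂ)) v := by
    refine OpenPartialHomeomorph.hasFDerivAt_symm (hs.toOpenPartialHomeomorph Ψ) hv4 ?_
    rw [ContinuousLinearMap.coe_toContinuousLinearEquivOfDetNeZero]
    exact hv2.hasFDerivAt
  refine ⟨hv1, hfd.differentiableAt, hv3, fun j s => ?_⟩
  have h5 : pd s (fun v => hs.localInverse Ψ _ x0 v j) v =
      ((fderiv ℂ Ψ (hs.localInverse Ψ _ x0 v)).toContinuousLinearEquivOfDetNeZero hdetv).symm
        (Pi.single s 1) j := by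
    have h6 := (hasFDerivAt_pi'.1 hfd j).fderiv
    rw [pd, h6]
    rfl
  rw [h5]
  set x := hs.localInverse Ψ _ x0 v with hx
  set M : Matrix ι ι ℂ := Matrix.of fun i j => pd j (fun x => Ψ x i) x with hM
  set w := ((fderiv ℂ Ψ x).toContinuousLinearEquivOfDetNeZero hdetv).symm (Pi.single s 1) with hw
  have h7 : M.mulVec w = Pi.single s 1 := by
    funext i
    rw [hM, ← fderiv_apply_eq hv2 w i]
    have h8 : ((fderiv ℂ Ψ x).toContinuousLinearEquivOfDetNeZero hdetv) w = Pi.single s 1 := by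
      rw [hw, ContinuousLinearEquiv.apply_symm_apply]
    rw [ContinuousLinearMap.toContinuousLinearEquivOfDetNeZero_apply] at h8
    rw [h8]
  have h9 : w = M⁻¹.mulVec (Pi.single s 1) := by
    rw [← h7, Matrix.mulVec_mulVec, Matrix.nonsing_inv_mul _ (isUnit_iff_ne_zero.2 hv3),
      Matrix.one_mulVec]
  rw [h9, Matrix.mulVec_single_one]
  rfl

end

end Pool.Agent.RHT
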