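import Pool.Agent.RHT.H6c
import Pool.Agent.RHT.H6e
import Pool.Agent.RHT.LinF
import Pool.Agent.RHT.NFi
import Pool.Agent.RHT.Inv
import Pool.Agent.RHT.Expl

/-!
RHT-H6f. Second logarithmic derivatives are germs `NF` at a suitable point. Plan.
`NF_pdb`: `exists_det_ne` on the open set `Om c' \ {x0 i}` (nonempty: `Om c'` is a nonempty open set, minus a finite
set) gives algebraic `y m` with invertible matrix `A = (F t (pt c' k' (y m)))`; for `x` near `x0`
(`x ∈ U`, `y m ≠ x i`) `pd_b` for every `m` is a linear system for `pd j (b t) x`, solved by the constant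
matrix `A⁻¹` (algebraic entries: `F_alg`, or `NF_inv_matrix` for a constant matrix), right sides
`NF` by `NF_Mx`, `NF_My`, `NF_F`.
`NF_PPv`: `hess_x` at `y`, multiplied by `ρ = W⁻¹` (`det_ne`):
`PP s t (v) = ∑ j, rho x j s * (pd j M_t + pd j (b t))`.
`exists_base`: `exists_alg` in `z.U`, `explicit`, `y = y m` for one `m` (index `1`, `one_mem_Phi`);
`exists_locInv` for `Ψ = z.v false 0 y` (matrix `-W`, `v_pd`, `det_ne`); near `v0`
`PP s t v = (PP s t ∘ Ψ) (Θ v)`; `NF_comp` with `φ = Θ`, `R j s x = (matrix)⁻¹ j s` (`NF_inv_matrix`,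
`NF_F`; the matrix equals `-W` near `x0`).
-/

set_option autoImplicit false

namespace Pool.Agent.RHT.Par

open Complex ComplexConjugate Finset Filter Topology

noncomputable section

variable {P : Par} {θ : P.Th}

private theorem h6f_mem (n : ℕ) : ((n : ℂ) + 2) ∈ Om false := by
  have h1 : ((n : ℂ) + 2).re = n + 2 := by simp
  have h2 : (0 : ℝ) ≤ n := Nat.cast_nonneg n
  refine ⟨?_, ?_⟩
  · rintro ⟨h, -⟩
    rw [h1] at h
    linarith
  · rintro ⟨h, -⟩
    rw [h1] at h
    linarith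

private theorem h6f_alg (n : ℕ) : IsAlgebraic ℚ ((n : ℂ) + 2) := by
  have h := isAlgebraic_algebraMap (R := ℚ) (A := ℂ) ((n : ℚ) + 2)
  rw [map_add, map_natCast] at h
  have h2 : (algebraMap ℚ ℂ) 2 = 2 := map_ofNat _ 2
  rw [h2] at h
  exact h

/-- a rational point of the chart away from finitely many points -/
private theorem h6f_exists (x0 : P.Ix → ℂ) : ∃ y : ℂ, y ∈ Om false ∧ IsAlgebraic ℚ y ∧
    ∀ i, y ≠ x0 i := by
  have h1 : (Set.range fun n : ℕ => ((n : ℂ) + 2)).Infinite := by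
    refine Set.infinite_range_of_injective fun m n h => ?_
    have h2 : (m : ℂ) = n := add_right_cancel h
    exact_mod_cast h2
  obtain ⟨y, ⟨n, rfl⟩, hy⟩ := h1.exists_notMem_finite (Set.finite_range x0)
  exact ⟨_, h6f_mem n, h6f_alg n, fun i h => hy ⟨i, h.symm⟩⟩

private theorem h6f_ev {x0 : P.Ix → ℂ} {y : ℂ} (hne : ∀ i, y ≠ x0 i) :
    ∀ᶠ x in 𝓝 x0, ∀ i, y ≠ x i := by
  refine Filter.eventually_all.2 fun i => ?_
  have h1 : Tendsto (fun x : P.Ix → ℂ => x i) (𝓝 x0) (𝓝 (x0 i)) :=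
    (continuous_apply i).continuousAt
  filter_upwards [h1.eventually_ne (hne i).symm] with x hx
  exact fun h => hx h.symm

theorem ZD.NF_pdb (z : P.ZD θ) {x0 : P.Ix → ℂ} {b : P.Ix → (P.Ix → ℂ) → ℂ} (hb : z.IsB b)
    (hx : x0 ∈ z.U) (ha : ∀ i, IsAlgebraic ℚ (x0 i)) (j t : P.Ix) :
    NF x0 (fun x => pd j (b t) x) := by
  classical
  have hUo : IsOpen (Om false \ Set.range x0) :=
    (Om_isOpen false).sdiff (Set.finite_range x0).isClosed
  have hUn : (Om false \ Set.range x0).Nonempty := by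
    obtain ⟨y, hy, -, hy2⟩ := h6f_exists x0
    exact ⟨y, hy, fun ⟨i, hi⟩ => hy2 i hi.symm⟩
  obtain ⟨y, hyU, hya, hdet⟩ := P.exists_det_ne (c := false) 0 hUo hUn Set.sdiff_subset
  have hy : ∀ m, y m ∈ Om false := fun m => (hyU m).1
  have hne : ∀ m i, y m ≠ x0 i := fun m i h => (hyU m).2 ⟨i, h.symm⟩
  obtain ⟨A, hA⟩ : ∃ A : Matrix P.Ix P.Ix ℂ,
      A = Matrix.of fun (t m : P.Ix) => P.F t (P.pt false 0 (y m)) := ⟨_, rfl⟩
  rw [← hA] at hdet
  have hAe : ∀ s m, A s m = P.F s (P.pt false 0 (y m)) := by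
    intro s m
    rw [hA]
    rfl
  have hAalg : ∀ s m, IsAlgebraic ℚ (A s m) := by
    intro s m
    rw [hAe]
    exact F_alg s (P.pt_mem 0 (hy m)) (hya m)
  have hunit : IsUnit A.det := isUnit_iff_ne_zero.2 hdet
  obtain ⟨r, hr⟩ : ∃ r : P.Ix → (P.Ix → ℂ) → ℂ, r = fun m x =>
      -(∑ t : P.Ix, P.F t (z.q x j) * deriv (fun y => z.M false 0 t y x) (y m)) -
        ∑ t : P.Ix, P.F t (P.pt false 0 (y m)) * pd j (fun x => z.M false 0 t (y m) x) x :=
    ⟨_, rfl⟩
  have hrNF : ∀ m, NF x0 (r m) := by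
    intro m
    rw [hr]
    refine NF.sub (NF.neg (NF_sum _ _ fun s _ => ?_)) (NF_sum _ _ fun s _ => ?_)
    · exact (NF_F (s : ℕ) (z.k j) j (z.om x0 hx j) (ha j)).mul
        (z.NF_My hx ha 0 (hy m) (hya m) (hne m) s)
    · exact (NF_const (F_alg s (P.pt_mem 0 (hy m)) (hya m))).mul
        (z.NF_Mx hx ha 0 (hy m) (hya m) (hne m) j s)
  have hev : ∀ᶠ x in 𝓝 x0, pd j (b t) x = ∑ m, A⁻¹ m t * r m x := by
    filter_upwards [z.hU.mem_nhds hx, Filter.eventually_all.2 fun m => h6f_ev (hne m)] with x h1 h2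
    have h3 : ∀ m, ∑ s : P.Ix, A s m * pd j (b s) x = r m x := by
      intro m
      have h4 := z.pd_b hb h1 0 (hy m) (h2 m) j
      have h5 : r m x = -(∑ t : P.Ix, P.F t (z.q x j) *
          deriv (fun y => z.M false 0 t y x) (y m)) -
          ∑ t : P.Ix, P.F t (P.pt false 0 (y m)) *
            pd j (fun x => z.M false 0 t (y m) x) x := by
        rw [hr]
      rw [h5, ← h4]
      exact Finset.sum_congr rfl fun s _ => by rw [hAe]
    have h5 : ∀ s, ∑ m, A s m * A⁻¹ m t = if s = t then 1 else 0 := by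
      intro s
      have h6 := congrFun (congrFun (Matrix.mul_nonsing_inv A hunit) s) t
      rw [Matrix.mul_apply, Matrix.one_apply] at h6
      exact h6
    calc pd j (b t) x = ∑ s : P.Ix, (if s = t then 1 else 0) * pd j (b s) x := by
          rw [Finset.sum_eq_single t]
          · rw [if_pos rfl, one_mul]
          · intro s _ hs
            rw [if_neg hs, zero_mul]
          · intro h
            exact absurd (Finset.mem_univ t) h
      _ = ∑ s : P.Ix, (∑ m, A s m * A⁻¹ m t) * pd j (b s) x :=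
          Finset.sum_congr rfl fun s _ => by rw [h5]
      _ = ∑ s : P.Ix, ∑ m, A⁻¹ m t * (A s m * pd j (b s) x) := by
          refine Finset.sum_congr rfl fun s _ => ?_
          rw [Finset.sum_mul]
          exact Finset.sum_congr rfl fun m _ => by ring
      _ = ∑ m, ∑ s : P.Ix, A⁻¹ m t * (A s m * pd j (b s) x) := Finset.sum_comm
      _ = ∑ m, A⁻¹ m t * r m x := by
          refine Finset.sum_congr rfl fun m _ => ?_
          rw [← h3 m, Finset.mul_sum]
  refine NF.congr (NF_sum Finset.univ (fun m x => A⁻¹ m t * r m x) fun m _ => ?_) hev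
  refine NF.mul ?_ (hrNF m)
  exact NF_inv_matrix (fun _ => A) (fun i l => NF_const (hAalg i l)) hdet m t

theorem ZD.NF_PPv (z : P.ZD θ) {x0 : P.Ix → ℂ} (hx : x0 ∈ z.U) (ha : ∀ i, IsAlgebraic ℚ (x0 i))
    {c' : Bool} (k' : ℤ) {y : ℂ} (hy : y ∈ Om c') (hya : IsAlgebraic ℚ y)
    (hne : ∀ i, y ≠ x0 i) (s t : P.Ix) :
    NF x0 (fun x => θ.PP s t (z.v c' k' y x)) := by
  obtain ⟨b, hb0⟩ := z.explicit
  have hb : z.IsB b := fun x hx t c' k' y hy hne => hb0 x hx c' k' y hy hne t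
  have hev : ∀ᶠ x in 𝓝 x0, θ.PP s t (z.v c' k' y x) =
      ∑ j, z.rho x j s * (pd j (fun x => z.M c' k' t y x) x + pd j (b t) x) := by
    filter_upwards [z.hU.mem_nhds hx, h6f_ev hne] with x h1 h2
    calc θ.PP s t (z.v c' k' y x)
        = ∑ s' : P.Ix, θ.PP s' t (z.v c' k' y x) * (if s' = s then 1 else 0) := by
          rw [Finset.sum_eq_single s]
          · rw [if_pos rfl, mul_one]
          · intro s' _ hs
            rw [if_neg hs, mul_zero]
          · intro h
            exact absurd (Finset.mem_univ s) h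
      _ = ∑ s' : P.Ix, ∑ j, z.rho x j s * (θ.PP s' t (z.v c' k' y x) * P.F s' (z.q x j)) := by
          refine Finset.sum_congr rfl fun s' _ => ?_
          rw [← z.W_rho h1 s' s, Finset.mul_sum]
          exact Finset.sum_congr rfl fun j _ => by ring
      _ = ∑ j, ∑ s' : P.Ix, z.rho x j s * (θ.PP s' t (z.v c' k' y x) * P.F s' (z.q x j)) :=
          Finset.sum_comm
      _ = _ := by
          refine Finset.sum_congr rfl fun j _ => ?_
          rw [← z.hess_x hb h1 k' hy h2 j t, Finset.mul_sum]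
  refine NF.congr (NF_sum Finset.univ (fun j x => z.rho x j s *
    (pd j (fun x => z.M c' k' t y x) x + pd j (b t) x)) fun j _ => ?_) hev
  exact (z.NF_rho hx ha j s).mul ((z.NF_Mx hx ha k' hy hya hne j t).add (z.NF_pdb hb hx ha j t))

theorem ZD.exists_base (z : P.ZD θ) : ∃ v0 : P.V, θ.T v0 ≠ 0 ∧ ∀ s t, NF v0 (θ.PP s t) := by
  classical
  obtain ⟨x0, hx, ha⟩ := exists_alg z.hU z.hne
  obtain ⟨y, hy, hya, hne⟩ := h6f_exists x0
  have hpd : ∀ x ∈ z.U, ∀ i j : P.Ix, pd j (fun x => z.v false 0 y x i) x = -P.F i (z.q x j) :=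
    fun x hx i j => z.v_pd hx false 0 y j i
  have hdet : (Matrix.of fun i j => pd j (fun x => z.v false 0 y x i) x0).det ≠ 0 := by
    have h1 : (Matrix.of fun i j => pd j (fun x => z.v false 0 y x i) x0) = -(z.W x0) := by
      ext i j
      rw [Matrix.of_apply, hpd x0 hx, Matrix.neg_apply]
      rfl
    rw [h1, Matrix.det_neg]
    exact mul_ne_zero (pow_ne_zero _ (neg_ne_zero.2 one_ne_zero)) (z.det_ne hx)
  have hdiff : ∀ᶠ x in 𝓝 x0, DifferentiableAt ℂ (fun x => z.v false 0 y x) x := by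
    filter_upwards [z.hU.mem_nhds hx] with x h1
    exact z.v_diff_x h1 false 0 y
  obtain ⟨Θ, hΘ, hev⟩ := exists_locInv (fun x => z.v false 0 y x) hdiff hdet
  refine ⟨z.v false 0 y x0, z.T_ne' hx 0 hy hne, fun s t => ?_⟩
  have hev' : ∀ᶠ v in 𝓝 (z.v false 0 y x0), z.v false 0 y (Θ v) = v ∧
      DifferentiableAt ℂ Θ v ∧ ∀ j s, pd s (fun v => Θ v j) v =
        (Matrix.of fun i j => pd j (fun x => z.v false 0 y x i) (Θ v))⁻¹ j s := by
    filter_upwards [hev] with v hv
    exact ⟨hv.1, hv.2.1, hv.2.2.2⟩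
  have hΘ' : Θ (z.v false 0 y x0) = x0 := hΘ
  have hNF : NF (z.v false 0 y x0) (fun v => (fun x => θ.PP s t (z.v false 0 y x)) (Θ v)) := by
    refine NF_comp (f := fun x => θ.PP s t (z.v false 0 y x)) Θ (hev'.mono fun v hv => hv.2.1)
      (fun j s x => (Matrix.of fun i j => pd j (fun x => z.v false 0 y x i) x)⁻¹ j s) ?_ ?_ ?_
    · intro i j
      rw [hΘ']
      refine NF_inv_matrix (fun x => Matrix.of fun i j => pd j (fun x => z.v false 0 y x i) x)
        (fun k l => ?_) hdet i j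
      refine NF.congr (NF.neg (NF_F (P := P) (k : ℕ) (z.k l) l (z.om x0 hx l) (ha l))) ?_
      filter_upwards [z.hU.mem_nhds hx] with x h1
      exact hpd x h1 k l
    · intro i j
      filter_upwards [hev'] with v hv
      exact hv.2.2 i j
    · rw [hΘ']
      exact z.NF_PPv hx ha 0 hy hya hne s t
  refine NF.congr hNF ?_
  filter_upwards [hev'] with v hv
  show θ.PP s t v = θ.PP s t (z.v false 0 y (Θ v))
  rw [hv.1]

end

end Pool.Agent.RHT.Par
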