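import Pool.Agent.RHT.Leg

/-!
RHT-IntH. `Im H` is integral on the period lattice. Plan (section 2, (2a) of the paper):
`Im H (mu k) (mu l) = - ∑_{t ∈ Phi} ga t * sin (2 π (k-l) t / D)` (`cf_mul`).
Put `g t = sin (a θ) sin ((a-1) θ) / sin θ`, `θ = π t / D`. For `t ∈ Phi`: `ga t = (4/D) g t`
(`sin (π α) = (-1)^[at/D] sin (π a t/D)`, the same for `β`, `[at/D] + [bt/D] = t - 1`,
`b = D + 1 - a`). `g (D - t) = - g t`; `g t = 0` if neither `t` nor `D - t` is in `Phi` (then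
`D ∣ a t` or `D ∣ b t`). Hence `∑_{Phi} ga t sin (2 π m t/D) = (2/D) ∑_{0<t<D} g t sin (2 π m t/D)`;
`g t = ∑_{j=1}^{a-1} sin (2 j θ)` (telescoping), and
`(2/D) ∑_{0<t<D} sin (2 π j t/D) sin (2 π m t/D) = [D ∣ j - m] - [D ∣ j + m]`
(geometric sums of roots of unity).
-/

set_option autoImplicit false

namespace Pool.Agent.RHT.Par

open Complex ComplexConjugate Finset

noncomputable section

variable (P : Par)

private theorem ih_tel (θ : ℝ) (n : ℕ) :
    (∑ j ∈ Finset.Ico 1 (n + 1), Real.sin (2 * (j * θ))) * Real.sin θ =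
      Real.sin ((n + 1) * θ) * Real.sin (n * θ) := by
  induction n with
  | zero => simp
  | succ n ih =>
    rw [Finset.sum_Ico_succ_top (by omega), add_mul, ih, Real.sin_two_mul]
    push_cast
    have e1 : ((n : ℝ) + 1 + 1) * θ = (n + 1) * θ + θ := by ring
    have e2 : (n : ℝ) * θ = (n + 1) * θ - θ := by ring
    rw [e1, e2, Real.sin_add, Real.sin_sub]
    ring

/-- `∑_{0 < j < a} sin (2 j π t / D)` -/
private def gg (t : ℕ) : ℝ := ∑ j ∈ Finset.Ico 1 P.a, Real.sin (2 * (j * (Real.pi * t / P.D)))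

private theorem ih_D : (0 : ℝ) < P.D := by
  have := P.hD
  have h : 0 < P.D := by omega
  exact_mod_cast h

private theorem ih_sin {t : ℕ} (h0 : 0 < t) (h : t < P.D) : 0 < Real.sin (Real.pi * t / P.D) := by
  have hD := ih_D P
  have h1 : (0 : ℝ) < t := by exact_mod_cast h0
  have h2 : (t : ℝ) < P.D := by exact_mod_cast h
  apply Real.sin_pos_of_pos_of_lt_pi
  · positivity
  · rw [div_lt_iff₀ hD]
    exact mul_lt_mul_of_pos_left h2 Real.pi_pos

private theorem ih_gg (t : ℕ) : P.gg t * Real.sin (Real.pi * t / P.D) =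
    Real.sin (P.a * (Real.pi * t / P.D)) * Real.sin ((P.a - 1) * (Real.pi * t / P.D)) := by
  have ha := P.two_le_a
  obtain ⟨n, hn⟩ : ∃ n, P.a = n + 1 := ⟨P.a - 1, by omega⟩
  unfold gg
  rw [hn, ih_tel]
  push_cast
  congr 2
  ring

private theorem ih_sin_floor (x y : ℝ) (k : ℕ) (h : x = k + y) :
    Real.sin (Real.pi * x) = (-1) ^ k * Real.sin (Real.pi * y) := by
  rw [h, mul_add, add_comm, mul_comm Real.pi (k : ℝ), Real.sin_add_nat_mul_pi]

private theorem ih_sa (t : ℕ) : Real.sin (P.a * (Real.pi * t / P.D)) =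
    (-1) ^ (P.a * t / P.D) * Real.sin (Real.pi * P.al t) := by
  rw [← ih_sin_floor _ _ _ (P.al_floor t)]
  congr 1
  ring

private theorem ih_sb (t : ℕ) : Real.sin ((P.a - 1) * (Real.pi * t / P.D)) =
    (-1) ^ (t + 1) * ((-1) ^ (P.b * t / P.D) * Real.sin (Real.pi * P.be t)) := by
  rw [← ih_sin_floor _ _ _ (P.be_floor t)]
  have hD := ih_D P
  have hb : (P.b : ℝ) = P.D + 1 - P.a := by
    have := P.hab
    have h2 : ((P.a + P.b : ℕ) : ℝ) = ((P.D + 1 : ℕ) : ℝ) := by rw [this]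
    push_cast at h2
    linarith
  have e1 : Real.pi * ((P.b : ℝ) * t / P.D) = t * Real.pi - (P.a - 1) * (Real.pi * t / P.D) := by
    rw [hb]
    field_simp
    ring
  have h3 : Real.sin (t * Real.pi - (P.a - 1) * (Real.pi * t / P.D)) =
      -((-1) ^ t * Real.sin ((P.a - 1) * (Real.pi * t / P.D))) := by
    rw [Real.sin_sub, Real.sin_nat_mul_pi, Real.cos_nat_mul_pi]
    ring
  rw [e1, h3]
  have h4 : ((-1 : ℝ)) ^ t * (-1) ^ t = 1 := by
    rw [← mul_pow]
    norm_num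
  rw [pow_succ]
  linear_combination (-Real.sin ((P.a - 1) * (Real.pi * t / P.D))) * h4

private theorem ih_ga {t : ℕ} (h : t ∈ P.Phi) : P.ga t = 4 / P.D * P.gg t := by
  obtain ⟨h0, h1⟩ := P.Phi_pos h
  have hs := ih_sin P h0 h1
  have hD := ih_D P
  have hg := ih_gg P t
  rw [ih_sa, ih_sb] at hg
  have hAB : P.a * t / P.D + P.b * t / P.D + 1 = t := by
    have e1 := P.al_floor t
    have e2 := P.be_floor t
    have e3 := P.al_add_be_Phi h
    have e4 : (P.a : ℝ) + P.b = P.D + 1 := by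
      have := P.hab
      exact_mod_cast this
    have e5 : (P.a : ℝ) * t / P.D + (P.b : ℝ) * t / P.D = t + t / P.D := by
      rw [← add_div, ← add_mul, e4]
      field_simp
    have e6 : ((P.a * t / P.D : ℕ) : ℝ) + ((P.b * t / P.D : ℕ) : ℝ) + 1 = t := by
      linarith
    exact_mod_cast e6
  have hsign : ((-1 : ℝ)) ^ (P.a * t / P.D) * ((-1) ^ (t + 1) * (-1) ^ (P.b * t / P.D)) = 1 := by
    rw [← pow_add, ← pow_add]
    have : P.a * t / P.D + (t + 1 + P.b * t / P.D) = 2 * t := by omega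
    rw [this, pow_mul]
    norm_num
  have hg2 : P.gg t * Real.sin (Real.pi * t / P.D) =
      Real.sin (Real.pi * P.al t) * Real.sin (Real.pi * P.be t) := by
    rw [hg]
    linear_combination (Real.sin (Real.pi * P.al t) * Real.sin (Real.pi * P.be t)) * hsign
  unfold ga
  rw [← hg2, mul_div_assoc, div_self hs.ne', mul_one]

private theorem ih_neg {t : ℕ} (h : t ≤ P.D) : P.gg (P.D - t) = -P.gg t := by
  have hD := ih_D P
  unfold gg
  rw [← Finset.sum_neg_distrib]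
  refine Finset.sum_congr rfl fun j _ => ?_
  have e1 : 2 * ((j : ℝ) * (Real.pi * ((P.D - t : ℕ) : ℝ) / P.D)) =
      j * (2 * Real.pi) - 2 * (j * (Real.pi * t / P.D)) := by
    rw [Nat.cast_sub h]
    field_simp
  rw [e1, Real.sin_nat_mul_two_pi_sub]

private theorem ih_zero {t : ℕ} (h0 : 0 < t) (h1 : t < P.D) (h : P.al t = 0 ∨ P.be t = 0) :
    P.gg t = 0 := by
  have hs := ih_sin P h0 h1
  have hg := ih_gg P t
  rw [ih_sa, ih_sb] at hg
  have h2 : P.gg t * Real.sin (Real.pi * t / P.D) = 0 := by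
    rw [hg]
    rcases h with h | h <;> rw [h] <;> simp
  rcases mul_eq_zero.1 h2 with h3 | h3
  · exact h3
  · exact absurd h3 hs.ne'

private theorem ih_hneg (m : ℤ) {t : ℕ} (h : t ≤ P.D) :
    Real.sin (2 * Real.pi * m * ((P.D - t : ℕ) : ℝ) / P.D) =
      -Real.sin (2 * Real.pi * m * t / P.D) := by
  have hD := ih_D P
  have e1 : 2 * Real.pi * m * ((P.D - t : ℕ) : ℝ) / P.D =
      m * (2 * Real.pi) - 2 * Real.pi * m * t / P.D := by
    rw [Nat.cast_sub h]
    field_simp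
  rw [e1, Real.sin_int_mul_two_pi_sub]

private theorem ih_half (m : ℤ) :
    ∑ t ∈ Finset.Ico 1 P.D, P.gg t * Real.sin (2 * Real.pi * m * t / P.D) =
      2 * ∑ t ∈ P.Phi, P.gg t * Real.sin (2 * Real.pi * m * t / P.D) := by
  classical
  have hsub : P.Phi ⊆ Finset.Ico 1 P.D := by
    intro t ht
    obtain ⟨h0, h1⟩ := P.Phi_pos ht
    exact Finset.mem_Ico.2 ⟨h0, h1⟩
  rw [← Finset.sum_sdiff hsub, two_mul (∑ t ∈ P.Phi, _)]
  congr 1
  have hinj : Set.InjOn (fun s => P.D - s) (P.Phi : Set ℕ) := by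
    intro s hs s' hs' he
    have h1 := (P.Phi_pos hs).2
    have h2 := (P.Phi_pos hs').2
    simp only at he
    omega
  have himg : P.Phi.image (fun s => P.D - s) ⊆ Finset.Ico 1 P.D \ P.Phi := by
    intro t ht
    obtain ⟨s, hs, rfl⟩ := Finset.mem_image.1 ht
    obtain ⟨h0, h1⟩ := P.Phi_pos hs
    rw [Finset.mem_sdiff, Finset.mem_Ico]
    exact ⟨⟨by omega, by omega⟩, P.not_both h0 h1 hs⟩
  have hz : ∀ t ∈ Finset.Ico 1 P.D \ P.Phi, t ∉ P.Phi.image (fun s => P.D - s) →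
      P.gg t * Real.sin (2 * Real.pi * m * t / P.D) = 0 := by
    intro t ht ht'
    rw [Finset.mem_sdiff, Finset.mem_Ico] at ht
    obtain ⟨⟨h0, h1⟩, h2⟩ := ht
    have h3 : P.al t = 0 ∨ P.be t = 0 := by
      by_contra hcon
      push Not at hcon
      have h4 := (P.mem_Phi_neg h0 h1 hcon.1 hcon.2).1 h2
      apply ht'
      rw [Finset.mem_image]
      exact ⟨P.D - t, h4, by omega⟩
    rw [ih_zero P h0 h1 h3, zero_mul]
  rw [← Finset.sum_subset himg hz, Finset.sum_image hinj]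
  refine Finset.sum_congr rfl fun s hs => ?_
  have h1 := (P.Phi_pos hs).2
  rw [ih_neg P h1.le, ih_hneg P m h1.le]
  ring

private theorem ih_cos (n : ℤ) :
    ∑ t ∈ Finset.range P.D, Real.cos (2 * Real.pi * n * t / P.D) =
      if (P.D : ℤ) ∣ n then (P.D : ℝ) else 0 := by
  have hD := ih_D P
  have hDC : (P.D : ℂ) ≠ 0 := by exact_mod_cast hD.ne'
  have h1 : ((∑ t ∈ Finset.range P.D, Real.cos (2 * Real.pi * n * t / P.D) : ℝ)) =
      (∑ t ∈ Finset.range P.D, (cexp (2 * Real.pi * I * n / P.D)) ^ t).re := by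
    rw [Complex.re_sum]
    refine Finset.sum_congr rfl fun t _ => ?_
    rw [← Complex.exp_nat_mul]
    have e1 : (t : ℂ) * (2 * Real.pi * I * n / P.D) =
        ((2 * Real.pi * n * t / P.D : ℝ) : ℂ) * I := by
      push_cast
      ring
    rw [e1, Complex.exp_ofReal_mul_I_re]
  rw [h1]
  split_ifs with h
  · obtain ⟨c, hc⟩ := h
    have e2 : cexp (2 * Real.pi * I * n / P.D) = 1 := by
      rw [Complex.exp_eq_one_iff]
      refine ⟨c, ?_⟩
      rw [hc]
      push_cast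
      field_simp
    rw [e2]
    simp
  · have e2 : cexp (2 * Real.pi * I * n / P.D) ≠ 1 := by
      intro he
      apply h
      rw [Complex.exp_eq_one_iff] at he
      obtain ⟨c, hc⟩ := he
      have hpi : (2 * Real.pi * I : ℂ) ≠ 0 := Complex.two_pi_I_ne_zero
      have h3 : (n : ℂ) = P.D * c := by
        have h4 : (2 * Real.pi * I : ℂ) * n = (2 * Real.pi * I) * (P.D * c) := by
          field_simp at hc
          linear_combination (2 * Real.pi * I : ℂ) * hc
        exact mul_left_cancel₀ hpi h4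
      exact ⟨c, by exact_mod_cast h3⟩
    have e3 : cexp (2 * Real.pi * I * n / P.D) ^ P.D = 1 := by
      rw [← Complex.exp_nat_mul, Complex.exp_eq_one_iff]
      refine ⟨n, ?_⟩
      field_simp
    rw [geom_sum_eq e2, e3]
    simp

private theorem ih_ss (j : ℕ) (m : ℤ) :
    ∑ t ∈ Finset.Ico 1 P.D, Real.sin (2 * (j * (Real.pi * t / P.D))) *
      Real.sin (2 * Real.pi * m * t / P.D) =
      P.D / 2 * ((if (P.D : ℤ) ∣ j - m then (1 : ℝ) else 0) -
        (if (P.D : ℤ) ∣ j + m then (1 : ℝ) else 0)) := by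
  have hD := ih_D P
  have h0 : ∑ t ∈ Finset.Ico 1 P.D, Real.sin (2 * (j * (Real.pi * t / P.D))) *
      Real.sin (2 * Real.pi * m * t / P.D) =
      ∑ t ∈ Finset.range P.D, Real.sin (2 * (j * (Real.pi * t / P.D))) *
      Real.sin (2 * Real.pi * m * t / P.D) := by
    have h1 : 0 < P.D := by
      have := P.hD
      omega
    rw [Finset.range_eq_Ico, Finset.sum_eq_sum_Ico_succ_bot h1]
    simp
  rw [h0]
  have h2 : ∀ t ∈ Finset.range P.D, Real.sin (2 * (j * (Real.pi * t / P.D))) *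
      Real.sin (2 * Real.pi * m * t / P.D) =
      1 / 2 * Real.cos (2 * Real.pi * ((j - m : ℤ) : ℝ) * t / P.D) -
        1 / 2 * Real.cos (2 * Real.pi * ((j + m : ℤ) : ℝ) * t / P.D) := by
    intro t _
    have e1 : 2 * Real.pi * ((j - m : ℤ) : ℝ) * t / P.D =
        2 * (j * (Real.pi * t / P.D)) - 2 * Real.pi * m * t / P.D := by
      push_cast
      ring
    have e2 : 2 * Real.pi * ((j + m : ℤ) : ℝ) * t / P.D =
        2 * (j * (Real.pi * t / P.D)) + 2 * Real.pi * m * t / P.D := by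
      push_cast
      ring
    rw [e1, e2, Real.cos_sub, Real.cos_add]
    ring
  rw [Finset.sum_congr rfl h2, Finset.sum_sub_distrib, ← Finset.mul_sum, ← Finset.mul_sum,
    ih_cos, ih_cos]
  split_ifs <;> ring

theorem sum_ga (m : ℤ) : ∑ t ∈ P.Phi, P.ga t * Real.sin (2 * Real.pi * m * t / P.D) =
    ∑ j ∈ Finset.Ico 1 P.a, ((if (P.D : ℤ) ∣ j - m then (1 : ℝ) else 0) -
      (if (P.D : ℤ) ∣ j + m then (1 : ℝ) else 0)) := by
  have hD := ih_D P
  have h1 : ∑ t ∈ P.Phi, P.ga t * Real.sin (2 * Real.pi * m * t / P.D) =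
      4 / P.D * ∑ t ∈ P.Phi, P.gg t * Real.sin (2 * Real.pi * m * t / P.D) := by
    rw [Finset.mul_sum]
    refine Finset.sum_congr rfl fun t ht => ?_
    rw [ih_ga P ht]
    ring
  have h2 : ∑ t ∈ Finset.Ico 1 P.D, P.gg t * Real.sin (2 * Real.pi * m * t / P.D) =
      P.D / 2 * ∑ j ∈ Finset.Ico 1 P.a, ((if (P.D : ℤ) ∣ j - m then (1 : ℝ) else 0) -
      (if (P.D : ℤ) ∣ j + m then (1 : ℝ) else 0)) := by
    unfold gg
    simp only [Finset.sum_mul]
    rw [Finset.sum_comm, Finset.mul_sum]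
    refine Finset.sum_congr rfl fun j _ => ?_
    exact ih_ss P j m
  rw [ih_half] at h2
  rw [h1]
  have h3 : ∑ t ∈ P.Phi, P.gg t * Real.sin (2 * Real.pi * m * t / P.D) =
      P.D / 4 * ∑ j ∈ Finset.Ico 1 P.a, ((if (P.D : ℤ) ∣ j - m then (1 : ℝ) else 0) -
      (if (P.D : ℤ) ∣ j + m then (1 : ℝ) else 0)) := by
    linarith
  rw [h3, ← mul_assoc]
  have h4 : (4 : ℝ) / P.D * (P.D / 4) = 1 := by
    field_simp
  rw [h4, one_mul]

private theorem ih_ze (n : ℤ) : P.ze ^ n = cexp (((2 * Real.pi * n / P.D : ℝ) : ℂ) * I) := by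
  unfold ze
  rw [← Complex.exp_int_mul]
  congr 1
  push_cast
  ring

private theorem ih_conj (x : ℝ) : conj (cexp ((x : ℂ) * I)) = cexp (((-x : ℝ) : ℂ) * I) := by
  rw [← Complex.exp_conj]
  congr 1
  rw [map_mul, Complex.conj_I, Complex.conj_ofReal]
  push_cast
  ring

theorem H_mu_int (k l : ℤ) : ∃ n : ℤ, (P.H (P.mu k) (P.mu l)).im = n := by
  have h1 : (P.H (P.mu k) (P.mu l)).im =
      ∑ t ∈ P.Phi, P.ga t * Real.sin (2 * Real.pi * ((l - k : ℤ) : ℝ) * t / P.D) := by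
    unfold H mu
    rw [Complex.im_sum, ← Finset.sum_coe_sort P.Phi]
    refine Finset.sum_congr rfl fun t _ => ?_
    have ht : (t : ℕ) ∈ P.Phi := t.2
    have e1 : (P.cf t : ℂ) * (P.ze ^ (-(k * ((t : ℕ) : ℤ))) * P.Pe t) *
        conj (P.ze ^ (-(l * ((t : ℕ) : ℤ))) * P.Pe t) =
        (P.ga t : ℂ) * cexp (((2 * Real.pi * ((l - k : ℤ) : ℝ) * (t : ℕ) / P.D : ℝ) : ℂ) * I) := by
      rw [map_mul, ih_ze, ih_ze, ih_conj, ← P.cf_mul ht]
      have e2 : P.Pe t * conj (P.Pe t) = ((‖P.Pe t‖ ^ 2 : ℝ) : ℂ) := by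
        rw [Complex.mul_conj, Complex.normSq_eq_norm_sq]
      have e3 : cexp (((2 * Real.pi * ((l - k : ℤ) : ℝ) * (t : ℕ) / P.D : ℝ) : ℂ) * I) =
          cexp (((2 * Real.pi * ((-(k * ((t : ℕ) : ℤ)) : ℤ) : ℝ) / P.D : ℝ) : ℂ) * I) *
          cexp (((-(2 * Real.pi * ((-(l * ((t : ℕ) : ℤ)) : ℤ) : ℝ) / P.D) : ℝ) : ℂ) * I) := by
        rw [← Complex.exp_add]
        congr 1
        push_cast
        ring
      rw [e3, Complex.ofReal_mul, ← e2]
      ring
    rw [e1, Complex.im_ofReal_mul, Complex.exp_ofReal_mul_I_im]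
  rw [h1, sum_ga]
  refine ⟨∑ j ∈ Finset.Ico 1 P.a, ((if (P.D : ℤ) ∣ j - (l - k) then (1 : ℤ) else 0) -
      (if (P.D : ℤ) ∣ j + (l - k) then (1 : ℤ) else 0)), ?_⟩
  push_cast
  rfl

theorem H_int {u v : P.V} (hu : u ∈ P.Lam) (hv : v ∈ P.Lam) : ∃ n : ℤ, (P.H u v).im = n := by
  have hadd1 : ∀ x y z : P.V, P.H (x + y) z = P.H x z + P.H y z := by
    intro x y z
    unfold H
    rw [← Finset.sum_add_distrib]
    refine Finset.sum_congr rfl fun t _ => ?_
    rw [Pi.add_apply]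
    ring
  have hadd2 : ∀ x y z : P.V, P.H x (y + z) = P.H x y + P.H x z := by
    intro x y z
    unfold H
    rw [← Finset.sum_add_distrib]
    refine Finset.sum_congr rfl fun t _ => ?_
    rw [Pi.add_apply, map_add]
    ring
  have hneg1 : ∀ x z : P.V, P.H (-x) z = -P.H x z := by
    intro x z
    unfold H
    rw [← Finset.sum_neg_distrib]
    refine Finset.sum_congr rfl fun t _ => ?_
    rw [Pi.neg_apply]
    ring
  have hneg2 : ∀ x z : P.V, P.H x (-z) = -P.H x z := by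
    intro x z
    unfold H
    rw [← Finset.sum_neg_distrib]
    refine Finset.sum_congr rfl fun t _ => ?_
    rw [Pi.neg_apply, map_neg]
    ring
  have hz1 : ∀ z : P.V, P.H 0 z = 0 := by
    intro z
    unfold H
    exact Finset.sum_eq_zero fun t _ => by rw [Pi.zero_apply]; ring
  have hz2 : ∀ z : P.V, P.H z 0 = 0 := by
    intro z
    unfold H
    exact Finset.sum_eq_zero fun t _ => by rw [Pi.zero_apply, map_zero]; ring
  have hmu : ∀ k : ℤ, ∃ n : ℤ, (P.H (P.mu k) v).im = n := by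
    intro k
    unfold Lam at hv
    induction hv using AddSubgroup.closure_induction with
    | mem x hx =>
      obtain ⟨l, rfl⟩ := hx
      exact P.H_mu_int k l
    | zero => exact ⟨0, by rw [hz2]; simp⟩
    | add x y _ _ hx hy =>
      obtain ⟨n1, h1⟩ := hx
      obtain ⟨n2, h2⟩ := hy
      exact ⟨n1 + n2, by rw [hadd2, Complex.add_im, h1, h2]; push_cast; ring⟩
    | neg x _ hx =>
      obtain ⟨n1, h1⟩ := hx
      exact ⟨-n1, by rw [hneg2, Complex.neg_im, h1]; push_cast; ring⟩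
  unfold Lam at hu
  induction hu using AddSubgroup.closure_induction with
  | mem x hx =>
    obtain ⟨l, rfl⟩ := hx
    exact hmu l
  | zero => exact ⟨0, by rw [hz1]; simp⟩
  | add x y _ _ hx hy =>
    obtain ⟨n1, h1⟩ := hx
    obtain ⟨n2, h2⟩ := hy
    exact ⟨n1 + n2, by rw [hadd1, Complex.add_im, h1, h2]; push_cast; ring⟩
  | neg x _ hx =>
    obtain ⟨n1, h1⟩ := hx
    exact ⟨-n1, by rw [hneg1, Complex.neg_im, h1]; push_cast; ring⟩

end

end Pool.Agent.RHT.Par
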