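import Pool.Agent.RHT.IvD

/-!
RHT-IvB. Bound at infinity in the closed half plane: on the vertical ray from `x` the functions `‖y‖`
and `‖1 - y‖` are comparable to `‖x‖ + s`.
-/

set_option autoImplicit false

namespace Pool.Agent.RHT

open Complex ComplexConjugate Finset Filter Topology

noncomputable section

private lemma ivb_rpow {m t : ℝ} (hm : 0 < m) (h1 : m / 5 ≤ t) (h2 : t ≤ 5 * m) (e : ℝ) :
    t ^ e ≤ 5 ^ |e| * m ^ e := by
  have h3 : 1 / 5 ≤ t / m := by rw [le_div_iff₀ hm]; linarith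
  have h4 : t / m ≤ 5 := by rw [div_le_iff₀ hm]; exact h2
  have h5 : (t / m) ^ e ≤ 5 ^ |e| := by
    rcases le_total 0 e with he | he
    · rw [abs_of_nonneg he]
      exact Real.rpow_le_rpow (by linarith) h4 he
    · rw [abs_of_nonpos he]
      have h6 : (t / m) ^ e ≤ (1 / 5 : ℝ) ^ e :=
        Real.rpow_le_rpow_of_nonpos (by norm_num) h3 he
      have h7 : (1 / 5 : ℝ) ^ e = 5 ^ (-e) := by
        rw [one_div, Real.inv_rpow (by norm_num), Real.rpow_neg (by norm_num)]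
      rwa [h7] at h6
  have h8 : t ^ e = (t / m) ^ e * m ^ e := by
    rw [← Real.mul_rpow (by linarith) hm.le, div_mul_cancel₀ _ hm.ne']
  rw [h8]
  exact mul_le_mul_of_nonneg_right h5 (Real.rpow_nonneg hm.le _)

private lemma ivb_sg (c : Bool) : sg c ^ 2 = 1 := by
  cases c <;> simp [sg]

private lemma ivb_norm_sg (c : Bool) : ‖(sg c : ℂ) * I‖ = 1 := by
  cases c <;> simp [sg]

private lemma ivb_est {c : Bool} {x : ℂ} (hx : x ∈ Hc c) (h2 : 2 ≤ ‖x‖) {s : ℝ} (hs : 0 ≤ s) :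
    7 / 10 * (‖x‖ + s) ≤ ‖x - sg c * I * s‖ ∧ ‖x - sg c * I * s‖ ≤ ‖x‖ + s := by
  constructor
  · rw [← pow_le_pow_iff_left₀ (by positivity) (norm_nonneg _) two_ne_zero, Complex.sq_norm,
      Complex.normSq_apply]
    have e1 : (x - sg c * I * s).re = x.re := by simp
    have e2 : (x - sg c * I * s).im = x.im - sg c * s := by simp
    rw [e1, e2]
    have h3 : ‖x‖ ^ 2 = x.re * x.re + x.im * x.im := by
      rw [Complex.sq_norm, Complex.normSq_apply]
    have h4 := ivb_sg c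
    have h5 : sg c * x.im ≤ 0 := hx
    have h6 : 0 ≤ -(sg c * x.im) * s := mul_nonneg (by linarith) hs
    have h7 : (sg c * s) ^ 2 = s ^ 2 := by rw [mul_pow, h4, one_mul]
    nlinarith [sq_nonneg (‖x‖ - s), sq_nonneg (‖x‖ + s)]
  · refine (norm_sub_le _ _).trans ?_
    rw [norm_mul, ivb_norm_sg, one_mul, Complex.norm_real, Real.norm_of_nonneg hs]

private lemma ivb_pw (p q : ℝ) {c : Bool} {x : ℂ} (hx : x ∈ Hc c) (h2 : 2 ≤ ‖x‖) {s : ℝ}
    (hs : 0 ≤ s) : ‖pw c p q (x - sg c * I * s)‖ ≤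
      5 ^ |(-p)| * 5 ^ |(-q)| * (‖x‖ + s) ^ (-(p + q)) := by
  obtain ⟨h3, h4⟩ := ivb_est hx h2 hs
  set y := x - sg c * I * s with hy
  have hm : 0 < ‖x‖ + s := by linarith
  have h5 : ‖1 - y‖ ≤ 1 + ‖y‖ := by
    refine (norm_sub_le _ _).trans ?_
    rw [norm_one]
  have h6 : ‖y‖ - 1 ≤ ‖1 - y‖ := by
    have h0 := norm_sub_norm_le y 1
    rw [norm_one, norm_sub_rev y 1] at h0
    exact h0
  have h7 : 0 < ‖y‖ := by linarith
  have h8 : 0 < ‖1 - y‖ := by linarith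
  have h9 : y ≠ 0 := norm_pos_iff.1 h7
  have h10 : y ≠ 1 := by
    intro h0
    rw [h0, sub_self, norm_zero] at h8
    exact lt_irrefl _ h8
  rw [norm_pw c p q h9 h10]
  have k1 := ivb_rpow hm (by linarith) (by linarith) (t := ‖y‖) (-p)
  have k2 := ivb_rpow hm (by linarith) (by linarith) (t := ‖1 - y‖) (-q)
  have k3 : (‖x‖ + s) ^ (-(p + q)) = (‖x‖ + s) ^ (-p) * (‖x‖ + s) ^ (-q) := by
    rw [← Real.rpow_add hm]
    congr 1
    ring
  rw [k3]
  refine (mul_le_mul k1 k2 (by positivity) (by positivity)).trans (le_of_eq ?_)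
  ring

private lemma ivb_int {m e : ℝ} (hm : 0 < m) (he : 1 < e) :
    MeasureTheory.IntegrableOn (fun s : ℝ => (m + s) ^ (-e)) (Set.Ioi 0) ∧
      ∫ s in Set.Ioi (0 : ℝ), (m + s) ^ (-e) = m ^ (1 - e) / (e - 1) := by
  have hd : ∀ s ∈ Set.Ici (0 : ℝ), HasDerivAt (fun s : ℝ => -((m + s) ^ (1 - e) / (e - 1)))
      ((m + s) ^ (-e)) s := by
    intro s hs
    have hs' : 0 ≤ s := hs
    have h1 : HasDerivAt (fun s : ℝ => m + s) 1 s := (hasDerivAt_id s).const_add m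
    have h2 := (h1.rpow_const (p := 1 - e) (Or.inl (by positivity))).div_const (e - 1)
    refine h2.neg.congr_deriv ?_
    have h3 : e - 1 ≠ 0 := by linarith
    have h4 : 1 - e - 1 = -e := by ring
    rw [h4]
    field_simp
    ring
  have hp : ∀ s ∈ Set.Ioi (0 : ℝ), 0 ≤ (m + s) ^ (-e) := by
    intro s hs
    have hs' : 0 < s := hs
    positivity
  have ht : Tendsto (fun s : ℝ => -((m + s) ^ (1 - e) / (e - 1))) atTop (𝓝 0) := by
    have h1 : Tendsto (fun s : ℝ => m + s) atTop atTop := tendsto_atTop_add_const_left _ _ tendsto_id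
    have h2 := (tendsto_rpow_neg_atTop (y := e - 1) (by linarith)).comp h1
    have h3 := (h2.div_const (e - 1)).neg
    rw [zero_div, neg_zero] at h3
    refine h3.congr fun s => ?_
    simp only [Function.comp_apply]
    rw [show -(e - 1) = 1 - e by ring]
  refine ⟨MeasureTheory.integrableOn_Ioi_deriv_of_nonneg' hd hp ht, ?_⟩
  rw [MeasureTheory.integral_Ioi_of_hasDerivAt_of_nonneg' hd hp ht]
  simp

theorem Iv_bound {p q : ℝ} (h : 1 < p + q) : ∃ C : ℝ, ∀ (c : Bool) (x : ℂ), x ∈ Hc c →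
    2 ≤ ‖x‖ → ‖Iv c p q x‖ ≤ C * ‖x‖ ^ (1 - p - q) := by
  refine ⟨5 ^ |(-p)| * 5 ^ |(-q)| / (p + q - 1), fun c x hx h2 => ?_⟩
  have hm : 0 < ‖x‖ := by linarith
  obtain ⟨h3, h4⟩ := ivb_int hm h
  unfold Iv
  rw [norm_mul, ivb_norm_sg, one_mul]
  have h5 := MeasureTheory.norm_integral_le_of_norm_le
    (f := fun s : ℝ => pw c p q (x - sg c * I * s))
    (g := fun s : ℝ => 5 ^ |(-p)| * 5 ^ |(-q)| * (‖x‖ + s) ^ (-(p + q)))
    (μ := MeasureTheory.volume.restrict (Set.Ioi (0 : ℝ))) (h3.const_mul _)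
    ((MeasureTheory.ae_restrict_iff' measurableSet_Ioi).2 (Eventually.of_forall fun s hs =>
      ivb_pw p q hx h2 (le_of_lt hs)))
  refine h5.trans (le_of_eq ?_)
  rw [MeasureTheory.integral_const_mul, h4]
  rw [show 1 - p - q = 1 - (p + q) by ring]
  ring

/-- the integral tends to `0` at infinity in the closed half plane -/
theorem Iv_tendsto {c : Bool} {p q : ℝ} (h : 1 < p + q) :
    Tendsto (Iv c p q) (Bornology.cobounded ℂ ⊓ 𝓟 (Hc c)) (𝓝 0) := by
  obtain ⟨C, hC⟩ := Iv_bound (p := p) (q := q) h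
  have h1 : Tendsto (fun x : ℂ => C * ‖x‖ ^ (1 - p - q)) (Bornology.cobounded ℂ ⊓ 𝓟 (Hc c))
      (𝓝 0) := by
    have h2 := ((tendsto_rpow_neg_atTop (y := p + q - 1) (by linarith)).comp
      (tendsto_norm_cobounded_atTop (E := ℂ))).const_mul C
    rw [mul_zero] at h2
    refine (h2.mono_left inf_le_left).congr fun x => ?_
    simp only [Function.comp_apply]
    rw [show -(p + q - 1) = 1 - p - q by ring]
  refine squeeze_zero_norm' ?_ h1
  have h3 : ∀ᶠ x : ℂ in Bornology.cobounded ℂ, 2 ≤ ‖x‖ :=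
    (tendsto_norm_cobounded_atTop (E := ℂ)).eventually_ge_atTop 2
  filter_upwards [h3.filter_mono inf_le_left, mem_inf_of_right (mem_principal_self (Hc c))]
    with x hx2 hx
  exact hC c x hx hx2

end

end Pool.Agent.RHT
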