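import Pool.Agent.RHT.Rho

/-!
RHT-KKb. The kernel: local behaviour and behaviour at `0`, `1`, `∞`. Plan (section 5 of the paper).
`KK_pole`: near `x'` the sum over `s` of `ζ^((k'-k)s)·(...)`: all `F s` ratios tend to
`ζ^(-(k-k')s)`, `Nn s x' x' = 1`, `sum_ze`: the residue at `x'` is `1` on the sheet of `z'`, `0` on the
other sheets. `Dl_bound`: with `ρ` satisfying `W ρ = 1` the function
`κ_t J_t + ∑_i ρ_i^t KK(., q_i)` is bounded on `Hc c` near `0`, `1`, `∞`: term by term in `s`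
(`norm_pw`, `al_add_be`); at `0` the terms `s ∉ Phi`, `al s, be s ≠ 0` have coefficient
`-(1/D) ∑_i ρ_i^t F_{-s}(q_i) + O(x) = -(1/D) [D - s = t] + O(x)` (`F_neg`, `mem_Phi_neg`), and for
`s = D - t` it cancels `κ_t J_t` up to a bounded term (`Iv_pole`, `al_neg`).
-/

set_option autoImplicit false

namespace Pool.Agent.RHT.Par

open Complex ComplexConjugate Finset Filter Topology

noncomputable section

variable {P : Par}

private lemma KKb_DC : (P.D : ℂ) ≠ 0 := by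
  have := P.hD
  exact_mod_cast (by omega : P.D ≠ 0)

private lemma KKb_Nn_self (s : ℕ) {x' : ℂ} (h0 : x' ≠ 0) (h1 : x' ≠ 1) : P.Nn s x' x' = 1 := by
  have h2 : 1 - x' ≠ 0 := sub_ne_zero.2 h1.symm
  unfold Nn
  split_ifs
  · rfl
  · exact div_self (mul_ne_zero h0 h2)
  · exact div_self h2
  · exact div_self h0

private lemma KKb_Nn_diff (s : ℕ) (x' : ℂ) : Differentiable ℂ (fun x => P.Nn s x x') := by
  unfold Nn
  split_ifs
  · exact differentiable_const _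
  · exact ((differentiable_id.mul ((differentiable_const _).sub differentiable_id)).div_const _)
  · exact (((differentiable_const _).sub differentiable_id).div_const _)
  · exact (differentiable_id.div_const _)

/-- the numerator of the kernel -/
private def KKbg (P : Par) (c : Bool) (k : ℤ) (x' : ℂ) (z' : ℂ × ℂ) (x : ℂ) : ℂ :=
  1 / P.D * ∑ s ∈ range P.D, P.F s (P.pt c k x) * P.Nn s x x' / P.F s z'

private lemma KKb_g_eq (c : Bool) (k : ℤ) (z' : ℂ × ℂ) (x : ℂ) :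
    P.KK (P.pt c k x) z' = KKbg P c k z'.1 z' x / (x - z'.1) := by
  unfold KK KKbg
  rw [mul_div_assoc, Finset.sum_div]
  congr 1
  refine Finset.sum_congr rfl (fun s _ => ?_)
  rw [div_div]
  rfl

private lemma KKb_g_diff (c : Bool) (k : ℤ) (x' : ℂ) (z' : ℂ × ℂ) {x : ℂ} (hx : x ∈ Om c) :
    DifferentiableAt ℂ (KKbg P c k x' z') x := by
  unfold KKbg
  apply DifferentiableAt.const_mul
  apply DifferentiableAt.fun_sum
  intro s _
  apply DifferentiableAt.div_const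
  exact (P.F_hasDerivAt s k hx).differentiableAt.mul (KKb_Nn_diff s x' x)

private lemma KKb_g_val {c c' : Bool} (k k' : ℤ) {x' : ℂ} (hx : x' ∈ Om c) (hx' : x' ∈ Om c') :
    KKbg P c k x' (P.pt c' k' x') x' = if P.pt c k x' = P.pt c' k' x' then 1 else 0 := by
  obtain ⟨l, _, hl⟩ := P.pt_surj (P.pt_mem k' hx') (c := c) hx
  have hl' : P.pt c' k' x' = P.pt c l x' := hl
  rw [hl']
  unfold KKbg
  have h1 : ∀ s ∈ range P.D, P.F s (P.pt c k x') * P.Nn s x' x' / P.F s (P.pt c l x') =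
      P.ze ^ ((s : ℤ) * ((l : ℤ) - k)) := by
    intro s _
    rw [KKb_Nn_self s (Om_ne hx).1 (Om_ne hx).2, mul_one, P.F_pt s k hx, P.F_pt s l hx,
      mul_div_mul_right _ _ (pw_ne c _ _ _), ← zpow_sub₀ P.ze_ne]
    congr 1
    ring
  rw [Finset.sum_congr rfl h1, P.sum_ze]
  have h2 : ((P.D : ℤ) ∣ (l : ℤ) - k) ↔ P.pt c k x' = P.pt c l x' := by
    rw [pt_eq_iff, ← dvd_neg, neg_sub]
  by_cases h : P.pt c k x' = P.pt c l x'
  · rw [if_pos h, if_pos (h2.2 h)]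
    exact one_div_mul_cancel KKb_DC
  · rw [if_neg h, if_neg (fun h3 => h (h2.1 h3)), mul_zero]

theorem KK_pole {c c' : Bool} (k k' : ℤ) {x' : ℂ} (hx : x' ∈ Om c) (hx' : x' ∈ Om c') :
    Tendsto (fun x => (x - x') * P.KK (P.pt c k x) (P.pt c' k' x')) (𝓝[≠] x')
      (𝓝 (if P.pt c k x' = P.pt c' k' x' then 1 else 0)) := by
  rw [← KKb_g_val k k' hx hx']
  have h1 : Tendsto (KKbg P c k x' (P.pt c' k' x')) (𝓝[≠] x')
      (𝓝 (KKbg P c k x' (P.pt c' k' x') x')) :=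
    (KKb_g_diff c k x' (P.pt c' k' x') hx).continuousAt.tendsto.mono_left nhdsWithin_le_nhds
  refine h1.congr' ?_
  filter_upwards [self_mem_nhdsWithin] with x hxx
  rw [KKb_g_eq c k _ x]
  have h3 : x - x' ≠ 0 := sub_ne_zero.2 hxx
  change _ = (x - x') * (KKbg P c k x' (P.pt c' k' x') x / (x - x'))
  field_simp

/-- after subtraction of the pole the kernel is bounded near `x'` -/
theorem KK_bdd {c c' : Bool} (k k' : ℤ) {x' : ℂ} (hx : x' ∈ Om c) (hx' : x' ∈ Om c') :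
    ∃ M r : ℝ, 0 < r ∧ ∀ x, x ≠ x' → ‖x - x'‖ < r →
      ‖P.KK (P.pt c k x) (P.pt c' k' x') -
        (if P.pt c k x' = P.pt c' k' x' then 1 else 0) / (x - x')‖ ≤ M := by
  have h1 := (KKb_g_diff (P := P) c k x' (P.pt c' k' x') hx).hasDerivAt
  have h2 := (hasDerivAt_iff_tendsto_slope.1 h1).norm
  obtain ⟨M, hM⟩ : ∃ M : ℝ, ‖deriv (KKbg P c k x' (P.pt c' k' x')) x'‖ < M := exists_gt _
  have h3 := h2.eventually (gt_mem_nhds hM)
  rw [eventually_nhdsWithin_iff, Metric.eventually_nhds_iff] at h3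
  obtain ⟨r, hr, h4⟩ := h3
  refine ⟨M, r, hr, fun x hne hxr => ?_⟩
  have h5 := h4 (by rwa [dist_eq_norm]) (show x ∈ ({x'}ᶜ : Set ℂ) from hne)
  rw [KKb_g_eq c k _ x, ← KKb_g_val k k' hx hx']
  change ‖KKbg P c k x' (P.pt c' k' x') x / (x - x') - KKbg P c k x' (P.pt c' k' x') x' / (x - x')‖ ≤ M
  rw [← sub_div]
  rw [slope_def_field] at h5
  exact h5.le

theorem KK_diff {z' : ℂ × ℂ} (hz' : z' ∈ P.Cs) {c : Bool} (k : ℤ) {x : ℂ} (hx : x ∈ Om c)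
    (h : x ≠ z'.1) : DifferentiableAt ℂ (fun x => P.KK (P.pt c k x) z') x := by
  have _ := hz'
  have h1 : DifferentiableAt ℂ (fun x => KKbg P c k z'.1 z' x / (x - z'.1)) x :=
    (KKb_g_diff c k z'.1 z' hx).div (differentiableAt_id.sub_const _) (sub_ne_zero.2 h)
  refine h1.congr_of_eventuallyEq ?_
  exact Eventually.of_forall (fun y => KKb_g_eq c k z' y)

/-- boundedness along a filter, uniformly in the sheet -/
private def KKbBd (l : Filter ℂ) (f : ℤ → ℂ → ℂ) : Prop :=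
  ∃ M : ℝ, ∀ᶠ x in l, ∀ k : ℤ, ‖f k x‖ ≤ M

private lemma KKb_add {l : Filter ℂ} {f g : ℤ → ℂ → ℂ} (hf : KKbBd l f) (hg : KKbBd l g) :
    KKbBd l (fun k x => f k x + g k x) := by
  obtain ⟨M, hM⟩ := hf
  obtain ⟨N, hN⟩ := hg
  refine ⟨M + N, ?_⟩
  filter_upwards [hM, hN] with x h1 h2 k
  exact (norm_add_le _ _).trans (add_le_add (h1 k) (h2 k))

private lemma KKb_mul {l : Filter ℂ} {f g : ℤ → ℂ → ℂ} (hf : KKbBd l f) (hg : KKbBd l g) :
    KKbBd l (fun k x => f k x * g k x) := by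
  obtain ⟨M, hM⟩ := hf
  obtain ⟨N, hN⟩ := hg
  refine ⟨M * N, ?_⟩
  filter_upwards [hM, hN] with x h1 h2 k
  rw [norm_mul]
  exact mul_le_mul (h1 k) (h2 k) (norm_nonneg _) ((norm_nonneg _).trans (h1 k))

private lemma KKb_const (l : Filter ℂ) (a : ℂ) : KKbBd l (fun _ _ => a) :=
  ⟨‖a‖, Eventually.of_forall (fun _ _ => le_rfl)⟩

private lemma KKb_sum {κ : Type} {l : Filter ℂ} (s : Finset κ) (f : κ → ℤ → ℂ → ℂ)
    (h : ∀ i ∈ s, KKbBd l (f i)) : KKbBd l (fun k x => ∑ i ∈ s, f i k x) := by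
  classical
  induction s using Finset.induction_on with
  | empty =>
    simp only [Finset.sum_empty]
    exact KKb_const l 0
  | insert a s ha ih =>
    simp only [Finset.sum_insert ha]
    exact KKb_add (h a (mem_insert_self _ _)) (ih (fun i hi => h i (mem_insert_of_mem hi)))

private lemma KKb_congr {l : Filter ℂ} {f g : ℤ → ℂ → ℂ} (hf : KKbBd l f)
    (h : ∀ᶠ x in l, ∀ k, f k x = g k x) : KKbBd l g := by
  obtain ⟨M, hM⟩ := hf
  refine ⟨M, ?_⟩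
  filter_upwards [hM, h] with x h1 h2 k
  rw [← h2 k]
  exact h1 k

private lemma KKb_tend {l : Filter ℂ} {g : ℂ → ℂ} {a : ℂ} (h : Tendsto g l (𝓝 a)) :
    KKbBd l (fun _ x => g x) := by
  obtain ⟨M, hM⟩ : ∃ M : ℝ, ‖a‖ < M := exists_gt _
  refine ⟨M, ?_⟩
  filter_upwards [h.norm.eventually (gt_mem_nhds hM)] with x hx _
  exact hx.le

/-- multiplication by a root of unity depending on the sheet -/
private lemma KKb_ze {l : Filter ℂ} (m : ℤ) {f : ℤ → ℂ → ℂ} (hf : KKbBd l f) :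
    KKbBd l (fun k x => P.ze ^ (k * m) * f k x) := by
  obtain ⟨M, hM⟩ := hf
  refine ⟨M, ?_⟩
  filter_upwards [hM] with x h1 k
  rw [norm_mul, norm_ze_zpow, one_mul]
  exact h1 k

private lemma KKb_num {y e : ℝ} (hy : 1 / 2 ≤ y) (he : 0 ≤ e) (he1 : e ≤ 1) : y ^ (-e) ≤ 2 := by
  calc y ^ (-e) ≤ (1 / 2 : ℝ) ^ (-e) :=
        Real.rpow_le_rpow_of_nonpos (by norm_num) hy (by linarith)
    _ = (2 : ℝ) ^ e := by
        rw [Real.rpow_neg (by norm_num), one_div, Real.inv_rpow (by norm_num), inv_inv]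
    _ ≤ (2 : ℝ) ^ (1 : ℝ) := Real.rpow_le_rpow_of_exponent_le (by norm_num) he1
    _ = 2 := Real.rpow_one 2

private lemma KKb_normF (s : ℕ) (c : Bool) (k : ℤ) {x : ℂ} (hx : x ∈ Om c) :
    ‖P.F s (P.pt c k x)‖ = ‖x‖ ^ (-(P.al s)) * ‖1 - x‖ ^ (-(P.be s)) := by
  rw [P.F_pt s k hx, norm_mul, norm_ze_zpow, one_mul, norm_pw c _ _ (Om_ne hx).1 (Om_ne hx).2]

/-! ### the filters -/

private lemma KKb_ev0 (c : Bool) : ∀ᶠ x in 𝓝[Hc c \ {0}] (0 : ℂ),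
    x ∈ Om c ∧ x ≠ 0 ∧ ‖x‖ ≤ 1 / 2 ∧ 1 / 2 ≤ ‖1 - x‖ := by
  rw [eventually_nhdsWithin_iff]
  filter_upwards [Metric.ball_mem_nhds (0 : ℂ) (show (0 : ℝ) < 1 / 2 by norm_num)] with x hx hxc
  rw [mem_ball_zero_iff] at hx
  have h1 : x ≠ 1 := by
    rintro rfl
    rw [norm_one] at hx
    norm_num at hx
  refine ⟨Om_of_Hc hxc.1 hxc.2 h1, hxc.2, hx.le, ?_⟩
  have h2 : ‖(1 : ℂ)‖ - ‖x‖ ≤ ‖1 - x‖ := norm_sub_norm_le _ _
  rw [norm_one] at h2
  linarith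

private lemma KKb_ev1 (c : Bool) : ∀ᶠ x in 𝓝[Hc c \ {1}] (1 : ℂ),
    x ∈ Om c ∧ x ≠ 1 ∧ ‖1 - x‖ ≤ 1 / 2 ∧ 1 / 2 ≤ ‖x‖ := by
  rw [eventually_nhdsWithin_iff]
  filter_upwards [Metric.ball_mem_nhds (1 : ℂ) (show (0 : ℝ) < 1 / 2 by norm_num)] with x hx hxc
  rw [Metric.mem_ball, dist_eq_norm, norm_sub_rev] at hx
  have h2 : ‖(1 : ℂ)‖ - ‖1 - x‖ ≤ ‖1 - (1 - x)‖ := norm_sub_norm_le _ _
  rw [norm_one, sub_sub_cancel] at h2
  have h1 : x ≠ 0 := by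
    rintro rfl
    rw [sub_zero, norm_one] at hx
    norm_num at hx
  exact ⟨Om_of_Hc hxc.1 h1 hxc.2, hxc.2, hx.le, by linarith⟩

private lemma KKb_evi (c : Bool) : ∀ᶠ x in Bornology.cobounded ℂ ⊓ 𝓟 (Hc c),
    x ∈ Om c ∧ 2 ≤ ‖x‖ ∧ ‖x‖ / 2 ≤ ‖1 - x‖ ∧ x ∈ Hc c := by
  rw [eventually_inf_principal]
  have h0 : ∀ᶠ x : ℂ in Bornology.cobounded ℂ, 2 ≤ ‖x‖ :=
    tendsto_norm_cobounded_atTop.eventually (eventually_ge_atTop 2)
  filter_upwards [h0] with x hx hxc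
  have h1 : x ≠ 0 := by
    rintro rfl
    rw [norm_zero] at hx
    norm_num at hx
  have h2 : x ≠ 1 := by
    rintro rfl
    rw [norm_one] at hx
    norm_num at hx
  refine ⟨Om_of_Hc hxc h1 h2, hx, ?_, hxc⟩
  have h3 : ‖x‖ - ‖(1 : ℂ)‖ ≤ ‖x - 1‖ := norm_sub_norm_le _ _
  rw [norm_one, norm_sub_rev] at h3
  linarith

private lemma KKb_le0 (c : Bool) : 𝓝[Hc c \ {0}] (0 : ℂ) ≤ 𝓝 0 := nhdsWithin_le_nhds

private lemma KKb_le1 (c : Bool) : 𝓝[Hc c \ {1}] (1 : ℂ) ≤ 𝓝 1 := nhdsWithin_le_nhds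

/-- a power times `x` near `0` -/
private lemma KKb_pow {y e : ℝ} (hy : 0 < y) (hy1 : y ≤ 1) (he1 : e ≤ 1) : y * y ^ (-e) ≤ 1 := by
  have h1 : y * y ^ (-e) = y ^ (1 - e) := by
    rw [sub_eq_add_neg, Real.rpow_add hy, Real.rpow_one]
  rw [h1]
  exact Real.rpow_le_one hy.le hy1 (by linarith)

private lemma KKb_xF0 (s : ℕ) (c : Bool) :
    KKbBd (𝓝[Hc c \ {0}] (0 : ℂ)) (fun k x => x * P.F s (P.pt c k x)) := by
  refine ⟨2, ?_⟩
  filter_upwards [KKb_ev0 c] with x hx k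
  obtain ⟨h1, h2, h3, h4⟩ := hx
  rw [norm_mul, KKb_normF s c k h1]
  have h5 := KKb_num h4 (P.be_nonneg s) (P.be_lt_one s).le
  have h6 := KKb_pow (norm_pos_iff.2 h2) (by linarith) (P.al_lt_one s).le
  calc ‖x‖ * (‖x‖ ^ (-(P.al s)) * ‖1 - x‖ ^ (-(P.be s)))
      = (‖x‖ * ‖x‖ ^ (-(P.al s))) * ‖1 - x‖ ^ (-(P.be s)) := by ring
    _ ≤ 1 * 2 := mul_le_mul h6 h5 (by positivity) (by norm_num)
    _ = 2 := by norm_num

private lemma KKb_F0 {s : ℕ} (hs : P.al s = 0) (c : Bool) :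
    KKbBd (𝓝[Hc c \ {0}] (0 : ℂ)) (fun k x => P.F s (P.pt c k x)) := by
  refine ⟨2, ?_⟩
  filter_upwards [KKb_ev0 c] with x hx k
  obtain ⟨h1, h2, h3, h4⟩ := hx
  rw [KKb_normF s c k h1, hs, neg_zero, Real.rpow_zero, one_mul]
  exact KKb_num h4 (P.be_nonneg s) (P.be_lt_one s).le

private lemma KKb_xF1 (s : ℕ) (c : Bool) :
    KKbBd (𝓝[Hc c \ {1}] (1 : ℂ)) (fun k x => (1 - x) * P.F s (P.pt c k x)) := by
  refine ⟨2, ?_⟩
  filter_upwards [KKb_ev1 c] with x hx k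
  obtain ⟨h1, h2, h3, h4⟩ := hx
  rw [norm_mul, KKb_normF s c k h1]
  have h5 := KKb_num h4 (P.al_nonneg s) (P.al_lt_one s).le
  have h6 := KKb_pow (norm_pos_iff.2 (sub_ne_zero.2 h2.symm)) (by linarith) (P.be_lt_one s).le
  calc ‖1 - x‖ * (‖x‖ ^ (-(P.al s)) * ‖1 - x‖ ^ (-(P.be s)))
      = (‖1 - x‖ * ‖1 - x‖ ^ (-(P.be s))) * ‖x‖ ^ (-(P.al s)) := by ring
    _ ≤ 1 * 2 := mul_le_mul h6 h5 (by positivity) (by norm_num)
    _ = 2 := by norm_num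

private lemma KKb_F1 {s : ℕ} (hs : P.be s = 0) (c : Bool) :
    KKbBd (𝓝[Hc c \ {1}] (1 : ℂ)) (fun k x => P.F s (P.pt c k x)) := by
  refine ⟨2, ?_⟩
  filter_upwards [KKb_ev1 c] with x hx k
  obtain ⟨h1, h2, h3, h4⟩ := hx
  rw [KKb_normF s c k h1, hs, neg_zero, Real.rpow_zero, mul_one]
  exact KKb_num h4 (P.al_nonneg s) (P.al_lt_one s).le

/-- the common estimate at infinity -/
private lemma KKb_inf (s : ℕ) {c : Bool} (k : ℤ) {x : ℂ} (h1 : x ∈ Om c) (h2 : 2 ≤ ‖x‖)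
    (h3 : ‖x‖ / 2 ≤ ‖1 - x‖) : ‖P.F s (P.pt c k x)‖ ≤ 2 * ‖x‖ ^ (-(P.al s + P.be s)) := by
  have hx : 0 < ‖x‖ := by linarith
  rw [KKb_normF s c k h1]
  have h5 : ‖1 - x‖ ^ (-(P.be s)) ≤ 2 * ‖x‖ ^ (-(P.be s)) := by
    calc ‖1 - x‖ ^ (-(P.be s)) ≤ (‖x‖ / 2) ^ (-(P.be s)) :=
          Real.rpow_le_rpow_of_nonpos (by positivity) h3 (by linarith [P.be_nonneg s])
      _ = (1 / 2 : ℝ) ^ (-(P.be s)) * ‖x‖ ^ (-(P.be s)) := by
          rw [← Real.mul_rpow (by norm_num) hx.le]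
          congr 1
          ring
      _ ≤ 2 * ‖x‖ ^ (-(P.be s)) := mul_le_mul_of_nonneg_right
          (KKb_num le_rfl (P.be_nonneg s) (P.be_lt_one s).le) (by positivity)
  calc ‖x‖ ^ (-(P.al s)) * ‖1 - x‖ ^ (-(P.be s))
      ≤ ‖x‖ ^ (-(P.al s)) * (2 * ‖x‖ ^ (-(P.be s))) := mul_le_mul_of_nonneg_left h5 (by positivity)
    _ = 2 * ‖x‖ ^ (-(P.al s + P.be s)) := by
      rw [neg_add, Real.rpow_add hx]
      ring

private lemma KKb_Fi (s : ℕ) (c : Bool) :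
    KKbBd (Bornology.cobounded ℂ ⊓ 𝓟 (Hc c)) (fun k x => P.F s (P.pt c k x)) := by
  refine ⟨2, ?_⟩
  filter_upwards [KKb_evi c] with x hx k
  obtain ⟨h1, h2, h3, h4⟩ := hx
  refine (KKb_inf s k h1 h2 h3).trans ?_
  have h5 : ‖x‖ ^ (-(P.al s + P.be s)) ≤ 1 :=
    Real.rpow_le_one_of_one_le_of_nonpos (by linarith)
      (by linarith [P.al_nonneg s, P.be_nonneg s])
  linarith

private lemma KKb_xFi {s : ℕ} (hs : s ∈ P.Phi) (c : Bool) :
    KKbBd (Bornology.cobounded ℂ ⊓ 𝓟 (Hc c)) (fun k x => x * P.F s (P.pt c k x)) := by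
  refine ⟨2, ?_⟩
  filter_upwards [KKb_evi c] with x hx k
  obtain ⟨h1, h2, h3, h4⟩ := hx
  have hx0 : 0 < ‖x‖ := by linarith
  rw [norm_mul]
  have h5 : ‖x‖ * ‖x‖ ^ (-(P.al s + P.be s)) ≤ 1 := by
    have h6 : ‖x‖ * ‖x‖ ^ (-(P.al s + P.be s)) = ‖x‖ ^ (1 - (P.al s + P.be s)) := by
      rw [sub_eq_add_neg, Real.rpow_add hx0, Real.rpow_one]
    rw [h6]
    apply Real.rpow_le_one_of_one_le_of_nonpos (by linarith)
    rw [P.al_add_be_Phi hs]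
    have : (0 : ℝ) ≤ (s : ℝ) / P.D := by positivity
    linarith
  calc ‖x‖ * ‖P.F s (P.pt c k x)‖ ≤ ‖x‖ * (2 * ‖x‖ ^ (-(P.al s + P.be s))) :=
        mul_le_mul_of_nonneg_left (KKb_inf s k h1 h2 h3) hx0.le
    _ = 2 * (‖x‖ * ‖x‖ ^ (-(P.al s + P.be s))) := by ring
    _ ≤ 2 := by linarith

/-! ### the terms of the kernel -/

/-- the term `s` of the kernel -/
private def KKbT (P : Par) (c : Bool) (s : ℕ) (z' : ℂ × ℂ) (k : ℤ) (x : ℂ) : ℂ :=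
  P.F s (P.pt c k x) * P.Nn s x z'.1 / (P.F s z' * (x - z'.1))

private lemma KKb_al0 : P.al 0 = 0 := by
  unfold al
  simp

private lemma KKb_be0 : P.be 0 = 0 := by
  unfold be
  simp

private lemma KKb_inv {l : Filter ℂ} {x0 x' : ℂ} (hl : l ≤ 𝓝 x0) (h : x0 ≠ x') :
    KKbBd l (fun _ x => (x - x')⁻¹) := by
  have h1 : Tendsto (fun x : ℂ => (x - x')⁻¹) (𝓝 x0) (𝓝 (x0 - x')⁻¹) :=
    ((continuous_id.sub continuous_const).tendsto x0).inv₀ (sub_ne_zero.2 h)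
  exact KKb_tend (h1.mono_left hl)

private lemma KKb_poly {l : Filter ℂ} {x0 : ℂ} (hl : l ≤ 𝓝 x0) {g : ℂ → ℂ} (hg : Continuous g) :
    KKbBd l (fun _ x => g x) := KKb_tend ((hg.tendsto x0).mono_left hl)

private lemma KKb_T0 {s : ℕ} (hs : s = 0 ∨ s ∈ P.Phi ∨ P.be s = 0 ∨ P.al s = 0) {z' : ℂ × ℂ}
    (hz' : z' ∈ P.Cs) (c : Bool) :
    KKbBd (𝓝[Hc c \ {0}] (0 : ℂ)) (fun k x => KKbT P c s z' k x) := by
  have hi := KKb_inv (KKb_le0 c) (x' := z'.1) hz'.1.symm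
  have h1x := KKb_poly (KKb_le0 c) (g := fun x => 1 - x) (by fun_prop)
  have hc := KKb_const (𝓝[Hc c \ {0}] (0 : ℂ))
  by_cases e1 : s = 0
  · refine KKb_congr (KKb_mul (KKb_mul (KKb_F0 (P := P) (s := s) (by rw [e1]; exact KKb_al0) c) hi)
      (hc (P.F s z')⁻¹)) (Eventually.of_forall fun x k => ?_)
    unfold KKbT Nn
    rw [if_pos e1, mul_one]
    simp only [div_eq_mul_inv, mul_inv]
    ring
  by_cases e2 : s ∈ P.Phi
  · refine KKb_congr (KKb_mul (KKb_mul (KKb_mul (KKb_xF0 (P := P) s c) h1x) hi)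
      (hc ((P.F s z')⁻¹ * (z'.1 * (1 - z'.1))⁻¹))) (Eventually.of_forall fun x k => ?_)
    unfold KKbT Nn
    rw [if_neg e1, if_pos e2]
    simp only [div_eq_mul_inv, mul_inv]
    ring
  by_cases e3 : P.be s = 0
  · refine KKb_congr (KKb_mul (KKb_mul (KKb_xF0 (P := P) s c) hi)
      (hc ((P.F s z')⁻¹ * (z'.1)⁻¹))) (Eventually.of_forall fun x k => ?_)
    unfold KKbT Nn
    rw [if_neg e1, if_neg e2, if_neg (not_not.2 e3)]
    simp only [div_eq_mul_inv, mul_inv]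
    ring
  have e4 : P.al s = 0 := by
    rcases hs with h | h | h | h
    · exact absurd h e1
    · exact absurd h e2
    · exact absurd h e3
    · exact h
  refine KKb_congr (KKb_mul (KKb_mul (KKb_mul (KKb_F0 e4 c) h1x) hi)
    (hc ((P.F s z')⁻¹ * (1 - z'.1)⁻¹))) (Eventually.of_forall fun x k => ?_)
  unfold KKbT Nn
  rw [if_neg e1, if_neg e2, if_pos e3]
  simp only [div_eq_mul_inv, mul_inv]
  ring

private lemma KKb_T1 (s : ℕ) {z' : ℂ × ℂ} (hz' : z' ∈ P.Cs) (c : Bool) :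
    KKbBd (𝓝[Hc c \ {1}] (1 : ℂ)) (fun k x => KKbT P c s z' k x) := by
  have hi := KKb_inv (KKb_le1 c) (x' := z'.1) hz'.2.1.symm
  have hx := KKb_poly (KKb_le1 c) (g := fun x => x) (by fun_prop)
  have hc := KKb_const (𝓝[Hc c \ {1}] (1 : ℂ))
  by_cases e1 : s = 0
  · refine KKb_congr (KKb_mul (KKb_mul (KKb_F1 (P := P) (s := s) (by rw [e1]; exact KKb_be0) c) hi)
      (hc (P.F s z')⁻¹)) (Eventually.of_forall fun x k => ?_)
    unfold KKbT Nn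
    rw [if_pos e1, mul_one]
    simp only [div_eq_mul_inv, mul_inv]
    ring
  by_cases e2 : s ∈ P.Phi
  · refine KKb_congr (KKb_mul (KKb_mul (KKb_mul (KKb_xF1 (P := P) s c) hx) hi)
      (hc ((P.F s z')⁻¹ * (z'.1 * (1 - z'.1))⁻¹))) (Eventually.of_forall fun x k => ?_)
    unfold KKbT Nn
    rw [if_neg e1, if_pos e2]
    simp only [div_eq_mul_inv, mul_inv]
    ring
  by_cases e3 : P.be s = 0
  · refine KKb_congr (KKb_mul (KKb_mul (KKb_mul (KKb_F1 e3 c) hx) hi)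
      (hc ((P.F s z')⁻¹ * (z'.1)⁻¹))) (Eventually.of_forall fun x k => ?_)
    unfold KKbT Nn
    rw [if_neg e1, if_neg e2, if_neg (not_not.2 e3)]
    simp only [div_eq_mul_inv, mul_inv]
    ring
  refine KKb_congr (KKb_mul (KKb_mul (KKb_xF1 (P := P) s c) hi)
    (hc ((P.F s z')⁻¹ * (1 - z'.1)⁻¹))) (Eventually.of_forall fun x k => ?_)
  unfold KKbT Nn
  rw [if_neg e1, if_neg e2, if_pos e3]
  simp only [div_eq_mul_inv, mul_inv]
  ring

private lemma KKb_inv_i (x' : ℂ) :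
    Tendsto (fun x : ℂ => (x - x')⁻¹) (Bornology.cobounded ℂ) (𝓝 0) := by
  have h1 : Tendsto (fun x : ℂ => x - x') (Bornology.cobounded ℂ) (Bornology.cobounded ℂ) := by
    rw [← tendsto_norm_atTop_iff_cobounded]
    refine tendsto_atTop_mono (f := fun x : ℂ => ‖x‖ - ‖x'‖) (fun x => norm_sub_norm_le _ _) ?_
    exact tendsto_atTop_add_const_right _ _ tendsto_norm_cobounded_atTop
  exact (tendsto_inv₀_cobounded (α := ℂ)).comp h1

private lemma KKb_xinv_i (x' : ℂ) (c : Bool) :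
    KKbBd (Bornology.cobounded ℂ ⊓ 𝓟 (Hc c)) (fun _ x => x * (x - x')⁻¹) := by
  have h1 : KKbBd (Bornology.cobounded ℂ ⊓ 𝓟 (Hc c)) (fun _ x => 1 + x' * (x - x')⁻¹) :=
    KKb_add (KKb_const _ 1) (KKb_mul (KKb_const _ x')
      (KKb_tend ((KKb_inv_i x').mono_left inf_le_left)))
  refine KKb_congr h1 ?_
  have h2 : ∀ᶠ x : ℂ in Bornology.cobounded ℂ, ‖x'‖ < ‖x‖ :=
    tendsto_norm_cobounded_atTop.eventually (eventually_gt_atTop _)
  filter_upwards [h2.filter_mono inf_le_left] with x hx k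
  have h3 : x - x' ≠ 0 := by
    intro h
    rw [sub_eq_zero.1 h] at hx
    exact lt_irrefl _ hx
  field_simp
  ring

private lemma KKb_Ti (s : ℕ) (z' : ℂ × ℂ) (c : Bool) :
    KKbBd (Bornology.cobounded ℂ ⊓ 𝓟 (Hc c)) (fun k x => KKbT P c s z' k x) := by
  have hi : KKbBd (Bornology.cobounded ℂ ⊓ 𝓟 (Hc c)) (fun _ x => (x - z'.1)⁻¹) :=
    KKb_tend ((KKb_inv_i z'.1).mono_left inf_le_left)
  have hx := KKb_xinv_i z'.1 c
  have h1x : KKbBd (Bornology.cobounded ℂ ⊓ 𝓟 (Hc c)) (fun _ x => (1 - x) * (x - z'.1)⁻¹) := by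
    refine KKb_congr (KKb_add hi (KKb_mul (KKb_const _ (-1)) hx))
      (Eventually.of_forall fun x k => ?_)
    ring
  have hc := KKb_const (Bornology.cobounded ℂ ⊓ 𝓟 (Hc c))
  by_cases e1 : s = 0
  · refine KKb_congr (KKb_mul (KKb_mul (KKb_Fi (P := P) s c) hi)
      (hc (P.F s z')⁻¹)) (Eventually.of_forall fun x k => ?_)
    unfold KKbT Nn
    rw [if_pos e1, mul_one]
    simp only [div_eq_mul_inv, mul_inv]
    ring
  by_cases e2 : s ∈ P.Phi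
  · refine KKb_congr (KKb_mul (KKb_mul (KKb_xFi e2 c) h1x)
      (hc ((P.F s z')⁻¹ * (z'.1 * (1 - z'.1))⁻¹))) (Eventually.of_forall fun x k => ?_)
    unfold KKbT Nn
    rw [if_neg e1, if_pos e2]
    simp only [div_eq_mul_inv, mul_inv]
    ring
  by_cases e3 : P.be s = 0
  · refine KKb_congr (KKb_mul (KKb_mul (KKb_Fi (P := P) s c) hx)
      (hc ((P.F s z')⁻¹ * (z'.1)⁻¹))) (Eventually.of_forall fun x k => ?_)
    unfold KKbT Nn
    rw [if_neg e1, if_neg e2, if_neg (not_not.2 e3)]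
    simp only [div_eq_mul_inv, mul_inv]
    ring
  refine KKb_congr (KKb_mul (KKb_mul (KKb_Fi (P := P) s c) h1x)
    (hc ((P.F s z')⁻¹ * (1 - z'.1)⁻¹))) (Eventually.of_forall fun x k => ?_)
  unfold KKbT Nn
  rw [if_neg e1, if_neg e2, if_pos e3]
  simp only [div_eq_mul_inv, mul_inv]
  ring

/-! ### the integral of the second kind -/

private lemma KKb_J (t : P.Ix) {l : Filter ℂ} {c : Bool}
    (h : KKbBd l (fun _ x => Iv c (2 - P.al t) (1 - P.be t) x)) :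
    KKbBd l (fun k x => P.ka t * P.Jv c k x t) := by
  refine KKb_congr (KKb_mul (KKb_const l (P.ka t)) (KKb_ze (P := P) ((t : ℕ) : ℤ) h))
    (Eventually.of_forall fun x k => ?_)
  rfl

private lemma KKb_par (t : P.Ix) : 1 < (2 - P.al t) + (1 - P.be t) ∧ 1 < 2 - P.al t ∧
    2 - P.al t < 2 ∧ 0 < 1 - P.be t ∧ 1 - P.be t < 1 := by
  have h1 := P.al_add_be_Phi t.2
  have h2 := P.Phi_pos t.2
  have hD : (0 : ℝ) < P.D := by
    have := P.hD
    exact_mod_cast (by omega : 0 < P.D)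
  have h3 : ((t : ℕ) : ℝ) / P.D < 1 := by
    rw [div_lt_one hD]
    exact_mod_cast h2.2
  have h4 := P.al_lt_one t
  have h5 := P.al_pos t.2
  have h6 := P.be_lt_one t
  have h7 := P.be_pos t.2
  refine ⟨?_, ?_, ?_, ?_, ?_⟩ <;> linarith

private lemma KKb_J1 (t : P.Ix) (c : Bool) :
    KKbBd (𝓝[Hc c \ {1}] (1 : ℂ)) (fun k x => P.ka t * P.Jv c k x t) := by
  obtain ⟨h1, h2, h3, h4, h5⟩ := KKb_par t
  exact KKb_J t (KKb_tend (Iv_at1 h1 h4 h5))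

private lemma KKb_Ji (t : P.Ix) (c : Bool) :
    KKbBd (Bornology.cobounded ℂ ⊓ 𝓟 (Hc c)) (fun k x => P.ka t * P.Jv c k x t) := by
  obtain ⟨h1, h2, h3, h4, h5⟩ := KKb_par t
  exact KKb_J t (KKb_tend (Iv_tendsto h1))

/-- the kernel sum as a sum over `s` -/
private lemma KKb_sumT {ι : Type} [Fintype ι] (q : ι → ℂ × ℂ) (ρ : ι → ℂ) (c : Bool) (k : ℤ) (x : ℂ) :
    ∑ i, ρ i * P.KK (P.pt c k x) (q i) =
      ∑ s ∈ range P.D, ∑ i, ρ i * (1 / P.D * KKbT P c s (q i) k x) := by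
  rw [Finset.sum_comm]
  refine Finset.sum_congr rfl (fun i _ => ?_)
  unfold KK
  rw [← Finset.mul_sum, ← Finset.mul_sum]
  rfl

private lemma KKb_reg1 {ι : Type} [Fintype ι] (q : ι → ℂ × ℂ) (hq : ∀ i, q i ∈ P.Cs) (t : P.Ix)
    (ρ : ι → ℂ) (c : Bool) : KKbBd (𝓝[Hc c \ {1}] (1 : ℂ))
      (fun k x => P.ka t * P.Jv c k x t + ∑ i, ρ i * P.KK (P.pt c k x) (q i)) := by
  refine KKb_congr (KKb_add (KKb_J1 t c) (KKb_sum (range P.D)
    (fun s k x => ∑ i, ρ i * (1 / P.D * KKbT P c s (q i) k x)) (fun s _ =>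
      KKb_sum univ (fun i k x => ρ i * (1 / P.D * KKbT P c s (q i) k x)) (fun i _ =>
        KKb_mul (KKb_const _ _) (KKb_mul (KKb_const _ _) (KKb_T1 s (hq i) c))))))
    (Eventually.of_forall fun x k => ?_)
  rw [KKb_sumT]

private lemma KKb_regi {ι : Type} [Fintype ι] (q : ι → ℂ × ℂ) (t : P.Ix)
    (ρ : ι → ℂ) (c : Bool) : KKbBd (Bornology.cobounded ℂ ⊓ 𝓟 (Hc c))
      (fun k x => P.ka t * P.Jv c k x t + ∑ i, ρ i * P.KK (P.pt c k x) (q i)) := by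
  refine KKb_congr (KKb_add (KKb_Ji t c) (KKb_sum (range P.D)
    (fun s k x => ∑ i, ρ i * (1 / P.D * KKbT P c s (q i) k x)) (fun s _ =>
      KKb_sum univ (fun i k x => ρ i * (1 / P.D * KKbT P c s (q i) k x)) (fun i _ =>
        KKb_mul (KKb_const _ _) (KKb_mul (KKb_const _ _) (KKb_Ti s (q i) c))))))
    (Eventually.of_forall fun x k => ?_)
  rw [KKb_sumT]

/-! ### the behaviour at `0` -/

private lemma KKb_phi_sum {ι : Type} [Fintype ι] {q : ι → ℂ × ℂ} {t : P.Ix}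
    {ρ : ι → ℂ} (hρ : ∀ s : P.Ix, ∑ i, P.F s (q i) * ρ i = if s = t then 1 else 0) {s : ℕ}
    (hs : s ∈ P.Phi) : ∑ i, ρ i * P.F s (q i) = if s = (t : ℕ) then 1 else 0 := by
  have h1 := hρ ⟨s, hs⟩
  have h2 : ∑ i, ρ i * P.F s (q i) = ∑ i, P.F s (q i) * ρ i :=
    Finset.sum_congr rfl (fun i _ => mul_comm _ _)
  rw [h2]
  refine h1.trans ?_
  by_cases h : s = (t : ℕ)
  · rw [if_pos h, if_pos (Subtype.ext h)]
  · rw [if_neg h, if_neg (fun h3 => h (congrArg Subtype.val h3))]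

/-- the identity for the critical terms -/
private lemma KKb_crit {ι : Type} [Fintype ι] {q : ι → ℂ × ℂ} (hq : ∀ i, q i ∈ P.Cs) (t : P.Ix)
    {ρ : ι → ℂ} (hρ : ∀ s : P.Ix, ∑ i, P.F s (q i) * ρ i = if s = t then 1 else 0) {s : ℕ}
    (h0 : 0 < s) (hD : s < P.D) (ha : P.al s ≠ 0) (hb : P.be s ≠ 0) (hs : s ∉ P.Phi)
    (c : Bool) (k : ℤ) {x : ℂ} (hx : ∀ i, x ≠ (q i).1) :
    ∑ i, ρ i * (1 / P.D * KKbT P c s (q i) k x) =
      (x * P.F s (P.pt c k x)) * ((1 / P.D) * ((1 - x) *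
        ∑ i, ρ i * P.F (P.D - s) (q i) * (x - (q i).1)⁻¹)) -
      (if P.D - s = (t : ℕ) then 1 else 0) * (1 / P.D * (P.F s (P.pt c k x) * (1 - x))) := by
  have hs' : P.D - s ∈ P.Phi := (P.mem_Phi_neg h0 hD ha hb).1 hs
  rw [← KKb_phi_sum hρ hs', Finset.mul_sum, Finset.mul_sum, Finset.mul_sum, Finset.sum_mul,
    ← Finset.sum_sub_distrib]
  refine Finset.sum_congr rfl (fun i _ => ?_)
  have h1 : (q i).1 ≠ 0 := (hq i).1
  have h2 : 1 - (q i).1 ≠ 0 := sub_ne_zero.2 (hq i).2.1.symm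
  have h3 : P.F s (q i) ≠ 0 := P.F_ne s (hq i)
  have h4 : x - (q i).1 ≠ 0 := sub_ne_zero.2 (hx i)
  have h5 : (P.D : ℂ) ≠ 0 := KKb_DC
  rw [P.F_neg h0 hD ha hb (hq i)]
  unfold KKbT Nn
  rw [if_neg h0.ne', if_neg hs, if_pos hb]
  field_simp
  ring

private lemma KKb_crit_bd {ι : Type} [Fintype ι] {q : ι → ℂ × ℂ} (hq : ∀ i, q i ∈ P.Cs)
    (ρ : ι → ℂ) (s : ℕ) (c : Bool) : KKbBd (𝓝[Hc c \ {0}] (0 : ℂ)) (fun k x =>
      (x * P.F s (P.pt c k x)) * ((1 / P.D) * ((1 - x) *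
        ∑ i, ρ i * P.F (P.D - s) (q i) * (x - (q i).1)⁻¹))) :=
  KKb_mul (KKb_xF0 s c) (KKb_mul (KKb_const _ _) (KKb_mul
    (KKb_poly (KKb_le0 c) (g := fun x => 1 - x) (by fun_prop))
    (KKb_sum univ (fun i (_ : ℤ) x => ρ i * P.F (P.D - s) (q i) * (x - (q i).1)⁻¹) (fun i _ =>
      KKb_mul (KKb_const _ _) (KKb_inv (KKb_le0 c) (hq i).1.symm)))))

private lemma KKb_ne0 {ι : Type} [Fintype ι] {q : ι → ℂ × ℂ} (hq : ∀ i, q i ∈ P.Cs) (c : Bool) :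
    ∀ᶠ x in 𝓝[Hc c \ {0}] (0 : ℂ), ∀ i, x ≠ (q i).1 := by
  rw [eventually_all]
  intro i
  exact (isOpen_ne.mem_nhds (hq i).1.symm : {x : ℂ | x ≠ (q i).1} ∈ 𝓝 (0 : ℂ)) |>
    fun h => nhdsWithin_le_nhds h

private lemma KKb_diff1 (c : Bool) (b : ℝ) : DifferentiableAt ℂ (pw c 0 b) 0 := by
  unfold pw l1
  have h1 : -(sg c : ℂ) * I * (1 - 0) ∈ slitPlane := by
    rw [Complex.mem_slitPlane_iff]
    right
    cases c <;> simp [sg]
  have h2 : DifferentiableAt ℂ (fun x : ℂ => Complex.log (-(sg c : ℂ) * I * (1 - x))) 0 :=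
    DifferentiableAt.clog (by fun_prop) h1
  have h3 : (fun x : ℂ => cexp (-(((0 : ℝ) : ℂ) * l0 c x) - b *
      (Complex.log (-(sg c : ℂ) * I * (1 - x)) + sg c * I * (Real.pi / 2)))) =
      (fun x : ℂ => cexp (- (b : ℂ) *
      (Complex.log (-(sg c : ℂ) * I * (1 - x)) + sg c * I * (Real.pi / 2)))) := by
    funext x
    congr 1
    push_cast
    ring
  rw [h3]
  exact ((h2.add_const _).const_mul _).cexp

private lemma KKb_val1 (c : Bool) (b : ℝ) : pw c 0 b 0 = 1 := by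
  have h1 : l1 c 0 = 0 := by
    unfold l1
    cases c
    · simp [sg, Complex.log_I]
      ring
    · simp [sg, Complex.log_neg_I]
      ring
  unfold pw
  rw [h1]
  simp

private lemma KKb_slope (c : Bool) (b : ℝ) :
    KKbBd (𝓝[Hc c \ {0}] (0 : ℂ)) (fun _ x => (pw c 0 b x - 1) * x⁻¹) := by
  have h1 := hasDerivAt_iff_tendsto_slope.1 (KKb_diff1 c b).hasDerivAt
  have h2 : 𝓝[Hc c \ {0}] (0 : ℂ) ≤ 𝓝[≠] 0 := nhdsWithin_mono _ (fun x hx => hx.2)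
  refine KKb_congr (KKb_tend (h1.mono_left h2)) (Eventually.of_forall fun x _ => ?_)
  rw [slope_def_field, KKb_val1, sub_zero, div_eq_mul_inv]

private lemma KKb_xpw (t : P.Ix) (c : Bool) : KKbBd (𝓝[Hc c \ {0}] (0 : ℂ))
    (fun _ x => x * pw c (1 - P.al t) 0 x) := by
  refine ⟨1, ?_⟩
  filter_upwards [KKb_ev0 c] with x hx _
  obtain ⟨h1, h2, h3, h4⟩ := hx
  rw [norm_mul, norm_pw c _ _ h2 (Om_ne h1).2, neg_zero, Real.rpow_zero, mul_one]
  exact KKb_pow (norm_pos_iff.2 h2) (by linarith) (by linarith [P.al_pos t.2])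

private lemma KKb_ka (t : ℕ) : (P.ka t : ℂ) = (P.al t - 1) / P.D := by
  unfold ka
  push_cast
  ring

/-- the singular parts of the second kind integral and of the critical term cancel -/
private lemma KKb_cancel (t : P.Ix) (c : Bool) : KKbBd (𝓝[Hc c \ {0}] (0 : ℂ)) (fun k x =>
    P.ka t * P.Jv c k x t - 1 / P.D * (P.F (P.D - t) (P.pt c k x) * (1 - x))) := by
  obtain ⟨h1, h2, h3, h4, h5⟩ := KKb_par t
  obtain ⟨C, r, hr, hC⟩ := Iv_pole h1 h2 h3 h4 h5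
  have hpole : KKbBd (𝓝[Hc c \ {0}] (0 : ℂ)) (fun _ x => Iv c (2 - P.al t) (1 - P.be t) x -
      pw c ((2 - P.al t) - 1) 0 x / (1 - ((2 - P.al t : ℝ) : ℂ))) := by
    refine ⟨C, ?_⟩
    rw [eventually_nhdsWithin_iff]
    filter_upwards [Metric.ball_mem_nhds (0 : ℂ) hr] with x hx hxc _
    rw [mem_ball_zero_iff] at hx
    exact hC c x hxc.1 hxc.2 hx
  have hbd := KKb_add (KKb_mul (KKb_const (𝓝[Hc c \ {0}] (0 : ℂ)) (P.ka t))
    (KKb_ze (P := P) ((t : ℕ) : ℤ) hpole))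
    (KKb_mul (KKb_const (𝓝[Hc c \ {0}] (0 : ℂ)) (-(1 / (P.D : ℂ))))
    (KKb_ze (P := P) ((t : ℕ) : ℤ) (KKb_mul (KKb_xpw t c) (KKb_slope c (-(P.be t))))))
  refine KKb_congr hbd ?_
  filter_upwards [KKb_ev0 c] with x hx k
  obtain ⟨g1, g2, g3, g4⟩ := hx
  have ht := P.Phi_pos t.2
  have hal : P.al t ≠ 0 := (P.al_pos t.2).ne'
  have hbe : P.be t ≠ 0 := (P.be_pos t.2).ne'
  have e1 : P.F (P.D - t) (P.pt c k x) * (1 - x) =
      P.ze ^ (k * ((t : ℕ) : ℤ)) * (pw c (1 - P.al t) 0 x * pw c 0 (-(P.be t)) x) := by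
    rw [P.F_pt _ k g1, P.al_neg ht.2.le hal, P.be_neg ht.2.le hbe]
    have e2 : P.ze ^ (-(k * ((P.D - (t : ℕ) : ℕ) : ℤ))) = P.ze ^ (k * ((t : ℕ) : ℤ)) := by
      have e3 : -(k * ((P.D - (t : ℕ) : ℕ) : ℤ)) = k * ((t : ℕ) : ℤ) + (P.D : ℤ) * (-k) := by
        rw [Nat.cast_sub ht.2.le]
        ring
      rw [e3, zpow_add₀ P.ze_ne, zpow_mul P.ze (P.D : ℤ), zpow_natCast, P.ze_prim.pow_eq_one,
        one_zpow, mul_one]
    have e4 : (1 : ℂ) - x = pw c 0 (-1) x := by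
      have := pw_int c 0 (-1) g2 (Om_ne g1).2
      simp only [Int.cast_zero, Int.cast_neg, Int.cast_one, neg_zero, zpow_zero, one_mul, neg_neg,
        zpow_one] at this
      exact this.symm
    rw [e2, e4, mul_assoc, ← pw_add, ← pw_add]
    congr 2
    ring
  rw [e1]
  have e5 : P.Jv c k x t = P.ze ^ (k * ((t : ℕ) : ℤ)) * Iv c (2 - P.al t) (1 - P.be t) x := rfl
  rw [e5, KKb_ka]
  have e6 : (1 : ℂ) - ((2 - P.al t : ℝ) : ℂ) = (P.al t : ℂ) - 1 := by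
    push_cast
    ring
  have e7 : (P.al t : ℂ) - 1 ≠ 0 := by
    intro h
    have h8 : (P.al t : ℂ) = ((1 : ℝ) : ℂ) := by
      rw [sub_eq_zero.1 h]
      simp
    have h9 := Complex.ofReal_injective h8
    linarith [P.al_lt_one t]
  have e8 : (2 - P.al t) - 1 = 1 - P.al t := by ring
  have e9 : (P.D : ℂ) ≠ 0 := KKb_DC
  rw [e6, e8]
  field_simp
  ring

private lemma KKb_reg0 {ι : Type} [Fintype ι] (q : ι → ℂ × ℂ) (hq : ∀ i, q i ∈ P.Cs) (t : P.Ix)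
    (ρ : ι → ℂ) (hρ : ∀ s : P.Ix, ∑ i, P.F s (q i) * ρ i = if s = t then 1 else 0)
    (c : Bool) : KKbBd (𝓝[Hc c \ {0}] (0 : ℂ))
      (fun k x => P.ka t * P.Jv c k x t + ∑ i, ρ i * P.KK (P.pt c k x) (q i)) := by
  have ht := P.Phi_pos t.2
  have hmem : P.D - (t : ℕ) ∈ range P.D := mem_range.2 (by omega)
  have hal : P.al t ≠ 0 := (P.al_pos t.2).ne'
  have hbe : P.be t ≠ 0 := (P.be_pos t.2).ne'
  -- the terms different from `D - t`
  have hrest : KKbBd (𝓝[Hc c \ {0}] (0 : ℂ)) (fun k x => ∑ s ∈ (range P.D).erase (P.D - (t : ℕ)),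
      ∑ i, ρ i * (1 / P.D * KKbT P c s (q i) k x)) := by
    refine KKb_sum _ (fun s k x => ∑ i, ρ i * (1 / P.D * KKbT P c s (q i) k x)) (fun s hs => ?_)
    rw [mem_erase, mem_range] at hs
    by_cases hgood : s = 0 ∨ s ∈ P.Phi ∨ P.be s = 0 ∨ P.al s = 0
    · exact KKb_sum univ (fun i k x => ρ i * (1 / P.D * KKbT P c s (q i) k x)) (fun i _ =>
        KKb_mul (KKb_const _ _) (KKb_mul (KKb_const _ _) (KKb_T0 hgood (hq i) c)))
    · have g1 : s ≠ 0 := fun h => hgood (Or.inl h)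
      have g2 : s ∉ P.Phi := fun h => hgood (Or.inr (Or.inl h))
      have g3 : P.be s ≠ 0 := fun h => hgood (Or.inr (Or.inr (Or.inl h)))
      have g4 : P.al s ≠ 0 := fun h => hgood (Or.inr (Or.inr (Or.inr h)))
      refine KKb_congr (KKb_crit_bd hq ρ s c) ?_
      filter_upwards [KKb_ne0 hq c] with x hx k
      rw [KKb_crit hq t hρ (Nat.pos_of_ne_zero g1) hs.2 g4 g3 g2 c k hx]
      rw [if_neg (by omega), zero_mul, sub_zero]
  -- the term `D - t`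
  have hcrit : KKbBd (𝓝[Hc c \ {0}] (0 : ℂ)) (fun k x => P.ka t * P.Jv c k x t +
      ∑ i, ρ i * (1 / P.D * KKbT P c (P.D - (t : ℕ)) (q i) k x)) := by
    refine KKb_congr (KKb_add (KKb_cancel t c) (KKb_crit_bd hq ρ (P.D - (t : ℕ)) c)) ?_
    filter_upwards [KKb_ne0 hq c] with x hx k
    have g1 : 0 < P.D - (t : ℕ) := by omega
    have g2 : P.D - (t : ℕ) < P.D := by omega
    have g3 : P.al (P.D - (t : ℕ)) ≠ 0 := by
      rw [P.al_neg ht.2.le hal]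
      linarith [P.al_lt_one t]
    have g4 : P.be (P.D - (t : ℕ)) ≠ 0 := by
      rw [P.be_neg ht.2.le hbe]
      linarith [P.be_lt_one t]
    rw [KKb_crit hq t hρ g1 g2 g3 g4 (P.not_both ht.1 ht.2 t.2) c k hx]
    rw [if_pos (by omega)]
    ring
  refine KKb_congr (KKb_add hcrit hrest) (Eventually.of_forall fun x k => ?_)
  rw [KKb_sumT, ← Finset.add_sum_erase _ _ hmem]
  ring

private lemma KKb_out {l : Filter ℂ} {f : ℤ → ℂ → ℂ} (h : KKbBd l f) :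
    ∃ M : ℝ, {x | ∀ k : ℤ, ‖f k x‖ ≤ M} ∈ l := h

theorem Dl_bound {ι : Type} [Fintype ι] (q : ι → ℂ × ℂ) (hq : ∀ i, q i ∈ P.Cs) (t : P.Ix)
    (ρ : ι → ℂ) (hρ : ∀ s : P.Ix, ∑ i, P.F s (q i) * ρ i = if s = t then 1 else 0) :
    ∃ M r : ℝ, 0 < r ∧ ∀ (c : Bool) (k : ℤ) (x : ℂ), x ∈ Hc c → x ≠ 0 → x ≠ 1 →
      (‖x‖ < r ∨ ‖x - 1‖ < r ∨ r⁻¹ < ‖x‖) →
      ‖P.ka t * P.Jv c k x t + ∑ i, ρ i * P.KK (P.pt c k x) (q i)‖ ≤ M := by
  have key : ∀ c : Bool, ∃ M r : ℝ, 0 < r ∧ ∀ (k : ℤ) (x : ℂ), x ∈ Hc c → x ≠ 0 → x ≠ 1 →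
      (‖x‖ < r ∨ ‖x - 1‖ < r ∨ r⁻¹ < ‖x‖) →
      ‖P.ka t * P.Jv c k x t + ∑ i, ρ i * P.KK (P.pt c k x) (q i)‖ ≤ M := by
    intro c
    obtain ⟨M0, h0⟩ := KKb_reg0 q hq t ρ hρ c
    obtain ⟨M1, h1⟩ := KKb_reg1 q hq t ρ c
    obtain ⟨M2, h2⟩ := KKb_regi q t ρ c
    rw [eventually_nhdsWithin_iff, Metric.eventually_nhds_iff] at h0 h1
    rw [eventually_inf_principal] at h2
    obtain ⟨r0, hr0, h0⟩ := h0
    obtain ⟨r1, hr1, h1⟩ := h1
    obtain ⟨R, -, h2⟩ := (Metric.hasBasis_cobounded_compl_closedBall (0 : ℂ)).eventually_iff.1 h2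
    refine ⟨max M0 (max M1 M2), min r0 (min r1 (max R 1)⁻¹),
      lt_min hr0 (lt_min hr1 (by positivity)), fun k x hx hx0 hx1 h => ?_⟩
    rcases h with h | h | h
    · refine (h0 ?_ ⟨hx, hx0⟩ k).trans (le_max_left _ _)
      rw [dist_zero_right]
      exact h.trans_le (min_le_left _ _)
    · refine (h1 ?_ ⟨hx, hx1⟩ k).trans ((le_max_left _ _).trans (le_max_right _ _))
      rw [dist_eq_norm]
      exact h.trans_le ((min_le_right _ _).trans (min_le_left _ _))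
    · refine (h2 ?_ hx k).trans ((le_max_right _ _).trans (le_max_right _ _))
      have e1 : min r0 (min r1 (max R 1)⁻¹) ≤ (max R 1)⁻¹ :=
        (min_le_right _ _).trans (min_le_right _ _)
      have e2 : max R 1 ≤ (min r0 (min r1 (max R 1)⁻¹))⁻¹ := by
        have e3 := inv_anti₀ (lt_min hr0 (lt_min hr1 (by positivity))) e1
        rwa [inv_inv] at e3
      rw [Set.mem_compl_iff, Metric.mem_closedBall, dist_zero_right, not_le]
      exact (le_max_left R 1).trans_lt (e2.trans_lt h)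
  obtain ⟨M, r, hr, hM⟩ := key true
  obtain ⟨N, s, hs, hN⟩ := key false
  refine ⟨max M N, min r s, lt_min hr hs, fun c k x hx hx0 hx1 h => ?_⟩
  cases c
  · refine (hN k x hx hx0 hx1 ?_).trans (le_max_right _ _)
    rcases h with h | h | h
    · exact Or.inl (h.trans_le (min_le_right _ _))
    · exact Or.inr (Or.inl (h.trans_le (min_le_right _ _)))
    · exact Or.inr (Or.inr ((inv_anti₀ (lt_min hr hs) (min_le_right r s)).trans_lt h))
  · refine (hM k x hx hx0 hx1 ?_).trans (le_max_left _ _)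
    rcases h with h | h | h
    · exact Or.inl (h.trans_le (min_le_left _ _))
    · exact Or.inr (Or.inl (h.trans_le (min_le_left _ _)))
    · exact Or.inr (Or.inr ((inv_anti₀ (lt_min hr hs) (min_le_left r s)).trans_lt h))

end

end Pool.Agent.RHT.Par
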