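import Pool.Agent.RHT.Defs

/-!
RHT-Res. Residue theorem and removable singularities in the plane. Plan:
`g z = r z - ∑_{x ∈ S} ρ x / (z - x)` satisfies `(z - x) g z → 0` at every `x ∈ S`: removable
(`Complex.differentiableOn_update_limUnder_of_isLittleO`), so it is entire; `g → 0` at infinity:
`g = 0` (Liouville); `z r z → ∑ ρ x` at infinity.
-/

set_option autoImplicit false

namespace Pool.Agent.RHT

open Complex Finset Filter Topology

noncomputable section

/-- isolated singularities with `(z - x) g z → 0` are removable -/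
theorem exists_entire (g : ℂ → ℂ) (S : Finset ℂ) (hg : DifferentiableOn ℂ g (S : Set ℂ)ᶜ)
    (hS : ∀ x ∈ S, Tendsto (fun z => (z - x) * g z) (𝓝[≠] x) (𝓝 0)) :
    ∃ G : ℂ → ℂ, Differentiable ℂ G ∧ ∀ z, z ∉ S → G z = g z := by
  classical
  induction S using Finset.induction_on generalizing g with
  | empty =>
    refine ⟨g, ?_, fun z _ => rfl⟩
    intro z
    have h := hg z (by simp)
    rw [Finset.coe_empty, Set.compl_empty] at h
    exact differentiableWithinAt_univ.1 h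
  | insert a S ha ih =>
    have hopen : IsOpen ((S : Set ℂ)ᶜ) := S.finite_toSet.isClosed.isOpen_compl
    have hmem : (S : Set ℂ)ᶜ ∈ 𝓝 a := hopen.mem_nhds (by simpa using ha)
    have hdiff : (S : Set ℂ)ᶜ \ {a} = ((insert a S : Finset ℂ) : Set ℂ)ᶜ := by
      ext z
      simp only [Set.mem_sdiff, Set.mem_compl_iff, Set.mem_singleton_iff, Finset.mem_coe,
        Finset.mem_insert, not_or]
      tauto
    have h1 := hS a (Finset.mem_insert_self a S)
    have hlim : Tendsto (fun z => z - a) (𝓝[≠] a) (𝓝 0) := by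
      have h2 : Tendsto (fun z : ℂ => z - a) (𝓝 a) (𝓝 (a - a)) :=
        (continuous_id.sub continuous_const).tendsto a
      rw [sub_self] at h2
      exact h2.mono_left nhdsWithin_le_nhds
    have ho : (fun z => g z - g a) =o[𝓝[≠] a] fun z => (z - a)⁻¹ := by
      rw [Asymptotics.isLittleO_iff_tendsto']
      · have h3 : Tendsto (fun z => (z - a) * g z - (z - a) * g a) (𝓝[≠] a) (𝓝 (0 - 0 * g a)) :=
          h1.sub (hlim.mul_const _)
        rw [zero_mul, sub_zero] at h3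
        refine h3.congr fun z => ?_
        rw [div_inv_eq_mul]
        ring
      · filter_upwards [self_mem_nhdsWithin] with z hz hz0
        have : z - a ≠ 0 := sub_ne_zero.2 hz
        exact absurd hz0 (inv_ne_zero this)
    have h4 := Complex.differentiableOn_update_limUnder_of_isLittleO hmem
      (by rw [hdiff]; exact hg) ho
    have h5 : ∀ x ∈ S, Tendsto (fun z => (z - x) *
        Function.update g a (limUnder (𝓝[≠] a) g) z) (𝓝[≠] x) (𝓝 0) := by
      intro x hx
      have hxa : x ≠ a := fun h => ha (h ▸ hx)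
      refine (hS x (Finset.mem_insert_of_mem hx)).congr' ?_
      have h6 : ∀ᶠ z in 𝓝[≠] x, z ≠ a := by
        have : ∀ᶠ z in 𝓝 x, z ≠ a := isOpen_ne.mem_nhds hxa
        exact this.filter_mono nhdsWithin_le_nhds
      filter_upwards [h6] with z hz
      rw [Function.update_of_ne hz]
    obtain ⟨G, hG, hG2⟩ := ih _ h4 h5
    refine ⟨G, hG, fun z hz => ?_⟩
    rw [Finset.mem_insert, not_or] at hz
    rw [hG2 z hz.2, Function.update_of_ne hz.1]

private theorem ne_of_cobounded (S : Finset ℂ) : ∀ᶠ z in Bornology.cobounded ℂ, z ∉ S := by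
  have h : Bornology.IsBounded (S : Set ℂ) := S.finite_toSet.isBounded
  have h2 : (S : Set ℂ)ᶜ ∈ Bornology.cobounded ℂ := h
  filter_upwards [h2] with z hz
  simpa using hz

private theorem tendsto_inv_sub (x : ℂ) :
    Tendsto (fun z => (z - x)⁻¹) (Bornology.cobounded ℂ) (𝓝 0) := by
  have h : Tendsto (fun z : ℂ => z - x) (Bornology.cobounded ℂ) (Bornology.cobounded ℂ) := by
    rw [← tendsto_norm_atTop_iff_cobounded]
    have h1 : Tendsto (fun z : ℂ => ‖z‖ - ‖x‖) (Bornology.cobounded ℂ) atTop :=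
      tendsto_atTop_add_const_right _ _ tendsto_norm_cobounded_atTop
    exact tendsto_atTop_mono (fun z => norm_sub_norm_le z x) h1
  exact tendsto_inv₀_cobounded.comp h

/-- the sum of the residues -/
theorem residue_sum (r : ℂ → ℂ) (S : Finset ℂ) (hr : DifferentiableOn ℂ r (S : Set ℂ)ᶜ)
    (ρ : ℂ → ℂ) (hρ : ∀ x ∈ S, Tendsto (fun z => (z - x) * r z) (𝓝[≠] x) (𝓝 (ρ x)))
    (hinf : Tendsto (fun z => z * r z) (Bornology.cobounded ℂ) (𝓝 0)) : ∑ x ∈ S, ρ x = 0 := by
  classical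
  set g : ℂ → ℂ := fun z => r z - ∑ x ∈ S, ρ x * (z - x)⁻¹ with hgdef
  have hg : DifferentiableOn ℂ g (S : Set ℂ)ᶜ := by
    refine hr.sub ?_
    intro z hz
    have hz' : z ∉ S := by simpa using hz
    refine DifferentiableWithinAt.fun_sum fun x hx => ?_
    have h0 : z - x ≠ 0 := fun h => hz' ((sub_eq_zero.1 h) ▸ hx)
    exact (differentiableWithinAt_const _).mul
      ((differentiableWithinAt_id.sub (differentiableWithinAt_const _)).inv h0)
  have hS : ∀ x ∈ S, Tendsto (fun z => (z - x) * g z) (𝓝[≠] x) (𝓝 0) := by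
    intro x hx
    have hlim : Tendsto (fun z => z - x) (𝓝[≠] x) (𝓝 0) := by
      have h2 : Tendsto (fun z : ℂ => z - x) (𝓝 x) (𝓝 (x - x)) :=
        (continuous_id.sub continuous_const).tendsto x
      rw [sub_self] at h2
      exact h2.mono_left nhdsWithin_le_nhds
    have h1 : Tendsto (fun z => (z - x) * r z - (ρ x + (z - x) *
        ∑ y ∈ S.erase x, ρ y * (z - y)⁻¹)) (𝓝[≠] x)
        (𝓝 (ρ x - (ρ x + 0 * ∑ y ∈ S.erase x, ρ y * (x - y)⁻¹))) := by
      refine (hρ x hx).sub (tendsto_const_nhds.add (hlim.mul ?_))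
      refine tendsto_finsetSum _ fun y hy => ?_
      have hxy : x - y ≠ 0 := sub_ne_zero.2 (Finset.ne_of_mem_erase hy).symm
      have h3 : Tendsto (fun z : ℂ => ρ y * (z - y)⁻¹) (𝓝 x) (𝓝 (ρ y * (x - y)⁻¹)) := by
        refine tendsto_const_nhds.mul (Tendsto.inv₀ ?_ hxy)
        exact (continuous_id.sub continuous_const).tendsto x
      exact h3.mono_left nhdsWithin_le_nhds
    rw [zero_mul, add_zero, sub_self] at h1
    refine h1.congr' ?_
    filter_upwards [self_mem_nhdsWithin] with z hz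
    have h0 : z - x ≠ 0 := sub_ne_zero.2 hz
    rw [hgdef]
    simp only
    rw [← Finset.add_sum_erase S _ hx, mul_sub, mul_add]
    congr 1
    rw [mul_comm (ρ x), ← mul_assoc, mul_inv_cancel₀ h0, one_mul]
  obtain ⟨G, hG, hG2⟩ := exists_entire g S hg hS
  have hr0 : Tendsto r (Bornology.cobounded ℂ) (𝓝 0) := by
    have h1 : Tendsto (fun z => z * r z * z⁻¹) (Bornology.cobounded ℂ) (𝓝 (0 * 0)) :=
      hinf.mul tendsto_inv₀_cobounded
    rw [zero_mul] at h1
    refine h1.congr' ?_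
    filter_upwards [ne_of_cobounded {0}] with z hz
    have hz0 : z ≠ 0 := by simpa using hz
    field_simp
  have hg0 : Tendsto g (Bornology.cobounded ℂ) (𝓝 0) := by
    have h1 : Tendsto g (Bornology.cobounded ℂ) (𝓝 (0 - ∑ x ∈ S, ρ x * 0)) := by
      refine hr0.sub (tendsto_finsetSum _ fun x _ => ?_)
      exact tendsto_const_nhds.mul (tendsto_inv_sub x)
    simpa using h1
  have hG0 : Tendsto G (cocompact ℂ) (𝓝 0) := by
    rw [← Metric.cobounded_eq_cocompact]
    refine hg0.congr' ?_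
    filter_upwards [ne_of_cobounded S] with z hz
    exact (hG2 z hz).symm
  have hGz : ∀ z, G z = 0 := fun z => hG.apply_eq_of_tendsto_cocompact z hG0
  have h2 : Tendsto (fun z => z * r z) (Bornology.cobounded ℂ) (𝓝 (∑ x ∈ S, ρ x * (1 + x * 0))) := by
    have h3 : Tendsto (fun z => ∑ x ∈ S, ρ x * (1 + x * (z - x)⁻¹)) (Bornology.cobounded ℂ)
        (𝓝 (∑ x ∈ S, ρ x * (1 + x * 0))) := by
      refine tendsto_finsetSum _ fun x _ => ?_
      exact tendsto_const_nhds.mul (tendsto_const_nhds.add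
        (tendsto_const_nhds.mul (tendsto_inv_sub x)))
    refine h3.congr' ?_
    filter_upwards [ne_of_cobounded S] with z hz
    have h4 : g z = 0 := by rw [← hG2 z hz, hGz]
    have h5 : r z = ∑ x ∈ S, ρ x * (z - x)⁻¹ := sub_eq_zero.1 h4
    rw [h5, Finset.mul_sum]
    refine Finset.sum_congr rfl fun x hx => ?_
    have h0 : z - x ≠ 0 := fun h => hz ((sub_eq_zero.1 h) ▸ hx)
    field_simp
    ring
  have h6 := tendsto_nhds_unique h2 hinf
  simpa using h6

private theorem dslope_diff (G : ℂ → ℂ) (hG : Differentiable ℂ G) :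
    Differentiable ℂ (dslope G 0) := by
  have h := (Complex.differentiableOn_dslope (f := G) (c := 0) (s := Set.univ)
    (by simp)).2 hG.differentiableOn
  exact differentiableOn_univ.1 h

private theorem dslope_tendsto (G : ℂ → ℂ)
    (h : Tendsto (fun z => G z * z⁻¹) (cocompact ℂ) (𝓝 0)) :
    Tendsto (dslope G 0) (cocompact ℂ) (𝓝 0) := by
  rw [← Metric.cobounded_eq_cocompact] at h ⊢
  have h1 : Tendsto (fun z => G z * z⁻¹ - G 0 * z⁻¹) (Bornology.cobounded ℂ) (𝓝 (0 - G 0 * 0)) :=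
    h.sub (tendsto_const_nhds.mul tendsto_inv₀_cobounded)
  rw [mul_zero, sub_zero] at h1
  refine h1.congr' ?_
  filter_upwards [ne_of_cobounded {0}] with z hz
  have hz0 : z ≠ 0 := by simpa using hz
  rw [dslope_of_ne _ hz0, slope_def_field, sub_zero]
  ring

/-- growth of exponent `< 1`: constant -/
private theorem const_of_growth (G : ℂ → ℂ) (hG : Differentiable ℂ G)
    (h : Tendsto (fun z => G z * z⁻¹) (cocompact ℂ) (𝓝 0)) : ∀ z, G z = G 0 := by
  intro z
  by_cases hz : z = 0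
  · rw [hz]
  have h1 := (dslope_diff G hG).apply_eq_of_tendsto_cocompact z (dslope_tendsto G h)
  rw [dslope_of_ne _ hz, slope_def_field, sub_zero, div_eq_zero_iff] at h1
  exact sub_eq_zero.1 (h1.resolve_right hz)

/-- growth of exponent `< 2`: affine -/
private theorem affine_of_growth (G : ℂ → ℂ) (hG : Differentiable ℂ G)
    (h : Tendsto (fun z => G z * z⁻¹ * z⁻¹) (cocompact ℂ) (𝓝 0)) :
    ∃ c : ℂ, ∀ z, G z = G 0 + c * z := by
  have h1 : Tendsto (fun z => dslope G 0 z * z⁻¹) (cocompact ℂ) (𝓝 0) := by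
    rw [← Metric.cobounded_eq_cocompact] at h ⊢
    have h1 : Tendsto (fun z => G z * z⁻¹ * z⁻¹ - G 0 * z⁻¹ * z⁻¹) (Bornology.cobounded ℂ)
        (𝓝 (0 - G 0 * 0 * 0)) :=
      h.sub ((tendsto_const_nhds.mul tendsto_inv₀_cobounded).mul tendsto_inv₀_cobounded)
    rw [mul_zero, sub_zero] at h1
    refine h1.congr' ?_
    filter_upwards [ne_of_cobounded {0}] with z hz
    have hz0 : z ≠ 0 := by simpa using hz
    rw [dslope_of_ne _ hz0, slope_def_field, sub_zero]
    ring
  have h2 := const_of_growth _ (dslope_diff G hG) h1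
  refine ⟨dslope G 0 0, fun z => ?_⟩
  by_cases hz : z = 0
  · rw [hz, mul_zero, add_zero]
  have h3 := h2 z
  rw [dslope_of_ne _ hz, slope_def_field, sub_zero, div_eq_iff hz] at h3
  rw [← h3]
  ring

private theorem growth_bound (G : ℂ → ℂ) (α β M : ℝ) (hβ : 0 ≤ β)
    (h : ∀ z, ‖G z‖ ≤ M * (‖z‖ ^ α * ‖1 - z‖ ^ β)) (z : ℂ) (hz : 1 ≤ ‖z‖) :
    ‖G z‖ ≤ (M * 2 ^ β) * ‖z‖ ^ (α + β) := by
  have hM : 0 ≤ M := by
    have h2 := (norm_nonneg _).trans (h 2)
    have h3 : (0 : ℝ) < ‖(2 : ℂ)‖ ^ α * ‖(1 : ℂ) - 2‖ ^ β := by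
      have h4 : ‖(1 : ℂ) - 2‖ = 1 := by norm_num
      rw [h4, Real.one_rpow, mul_one]
      exact Real.rpow_pos_of_pos (by norm_num) _
    exact nonneg_of_mul_nonneg_left h2 h3
  have h0 : 0 < ‖z‖ := by linarith
  have h1 : ‖1 - z‖ ≤ 2 * ‖z‖ := by
    calc ‖1 - z‖ ≤ ‖(1 : ℂ)‖ + ‖z‖ := norm_sub_le _ _
      _ ≤ 2 * ‖z‖ := by rw [norm_one]; linarith
  calc ‖G z‖ ≤ M * (‖z‖ ^ α * ‖1 - z‖ ^ β) := h z
    _ ≤ M * (‖z‖ ^ α * (2 * ‖z‖) ^ β) := by
        refine mul_le_mul_of_nonneg_left (mul_le_mul_of_nonneg_left ?_ ?_) hM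
        · exact Real.rpow_le_rpow (norm_nonneg _) h1 hβ
        · exact Real.rpow_nonneg (norm_nonneg _) _
    _ = (M * 2 ^ β) * ‖z‖ ^ (α + β) := by
        rw [Real.mul_rpow (by norm_num) (norm_nonneg _), Real.rpow_add h0]
        ring

private theorem growth_tendsto (G : ℂ → ℂ) (γ C : ℝ) (n : ℕ)
    (h : ∀ z, 1 ≤ ‖z‖ → ‖G z‖ ≤ C * ‖z‖ ^ γ) (hγ : γ < n) :
    Tendsto (fun z => G z * z⁻¹ ^ n) (cocompact ℂ) (𝓝 0) := by
  rw [← Metric.cobounded_eq_cocompact]
  rw [tendsto_zero_iff_norm_tendsto_zero]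
  have h1 : Tendsto (fun z : ℂ => C * ‖z‖ ^ (-((n : ℝ) - γ))) (Bornology.cobounded ℂ)
      (𝓝 (C * 0)) := by
    refine tendsto_const_nhds.mul ?_
    exact (tendsto_rpow_neg_atTop (by linarith : 0 < (n : ℝ) - γ)).comp
      tendsto_norm_cobounded_atTop
  rw [mul_zero] at h1
  refine squeeze_zero' (Eventually.of_forall fun z => norm_nonneg _) ?_ h1
  filter_upwards [tendsto_norm_cobounded_atTop.eventually_ge_atTop 1] with z hz
  have h0 : 0 < ‖z‖ := by linarith
  rw [norm_mul, norm_pow, norm_inv]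
  calc ‖G z‖ * ‖z‖⁻¹ ^ n ≤ (C * ‖z‖ ^ γ) * ‖z‖⁻¹ ^ n :=
        mul_le_mul_of_nonneg_right (h z hz) (by positivity)
    _ = C * ‖z‖ ^ (-((n : ℝ) - γ)) := by
        rw [neg_sub, Real.rpow_sub h0, Real.rpow_natCast, inv_pow]
        ring

/-- an entire function bounded by `M |z|^α |1-z|^β`, `α, β ∈ [0,1)`, is zero if `α + β > 0`
and constant if `α = β = 0` -/
theorem entire_small (G : ℂ → ℂ) (hG : Differentiable ℂ G) (α β M : ℝ) (hα : 0 ≤ α) (hα1 : α < 1)
    (hβ : 0 ≤ β) (hβ1 : β < 1) (h : ∀ z, ‖G z‖ ≤ M * (‖z‖ ^ α * ‖1 - z‖ ^ β)) :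
    (α = 0 ∧ β = 0 ∧ ∀ z, G z = G 0) ∨ ((α ≠ 0 ∨ β ≠ 0) ∧ ∀ z, G z = 0) := by
  have hb := growth_bound G α β M hβ h
  have hz0 : α ≠ 0 → G 0 = 0 := by
    intro ha
    have h1 := h 0
    rw [norm_zero, Real.zero_rpow ha, zero_mul, mul_zero] at h1
    exact norm_le_zero_iff.1 h1
  have hz1 : β ≠ 0 → G 1 = 0 := by
    intro ha
    have h1 := h 1
    rw [sub_self, norm_zero, Real.zero_rpow ha, mul_zero, mul_zero] at h1
    exact norm_le_zero_iff.1 h1
  by_cases h1 : α + β < 1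
  · have h2 : ∀ z, G z = G 0 := by
      refine const_of_growth G hG ?_
      have h3 := growth_tendsto G (α + β) _ 1 hb (by exact_mod_cast h1)
      refine h3.congr fun z => ?_
      rw [pow_one]
    by_cases ha : α = 0
    · by_cases hb0 : β = 0
      · exact Or.inl ⟨ha, hb0, h2⟩
      · refine Or.inr ⟨Or.inr hb0, fun z => ?_⟩
        rw [h2 z, ← h2 1, hz1 hb0]
    · refine Or.inr ⟨Or.inl ha, fun z => ?_⟩
      rw [h2 z, hz0 ha]
  · have ha : α ≠ 0 := by
      intro h2
      rw [h2] at h1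
      linarith
    have hb0 : β ≠ 0 := by
      intro h2
      rw [h2] at h1
      linarith
    refine Or.inr ⟨Or.inl ha, ?_⟩
    obtain ⟨c, hc⟩ := affine_of_growth G hG (by
      have h3 := growth_tendsto G (α + β) _ 2 hb (by push_cast; linarith)
      refine h3.congr fun z => ?_
      ring)
    have h4 := hc 1
    rw [hz1 hb0, hz0 ha, zero_add, mul_one] at h4
    intro z
    rw [hc z, hz0 ha, ← h4]
    ring

end

end Pool.Agent.RHT
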