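import Pool.Agent.RHT.Cur
import Pool.Agent.RHT.Res

/-!
RHT-Liou. Liouville's theorem on the curve. Plan: for `s < D` put
`h_s x = (1/D) ∑_{y ∈ fib x} g (x,y) / F s (x,y)`. By `sum_fib` it is
`(1/D) ∑_{k<D} g (pt c k x) ζ^(ks) / pw c (al s) (be s) x` on each chart, so it is differentiable on
`Om false ∪ Om true` minus `S` = complement of `insert 0 (insert 1 S)`, and
`‖h_s x‖ ≤ M ‖x‖^(al s) ‖1-x‖^(be s)` (`norm_pw`; every `x ≠ 0,1` is in some `Om c ∩ Hc c`).
`exists_entire` and `entire_small`: `h_s = 0` for `0 < s < D`, `h_0` is constant (the bound passes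
to the entire extension by continuity). Fourier inversion over the sheets (`sum_ze`):
`g (pt c k x) = ∑_{s<D} h_s x * F s (pt c k x) = h_0`.
-/

set_option autoImplicit false

namespace Pool.Agent.RHT.Par

open Complex ComplexConjugate Finset Filter Topology

noncomputable section

variable (P : Par)

private theorem Liou_chart {x : ℂ} (h0 : x ≠ 0) (h1 : x ≠ 1) : ∃ c : Bool, x ∈ Om c ∧ x ∈ Hc c := by
  rcases le_total x.im 0 with h | h
  · have h2 : x ∈ Hc true := by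
      show sg true * x.im ≤ 0
      simp only [sg, if_true]
      linarith
    exact ⟨true, Om_of_Hc h2 h0 h1, h2⟩
  · have h2 : x ∈ Hc false := by
      show sg false * x.im ≤ 0
      simp only [sg]
      norm_num
      exact h
    exact ⟨false, Om_of_Hc h2 h0 h1, h2⟩

/-- the trace of a function holomorphic on the curve is holomorphic -/
theorem tr_diff (g : ℂ × ℂ → ℂ) (S : Set ℂ) (hg : P.HolC g S) :
    DifferentiableOn ℂ (fun x => ∑ y ∈ P.fib x, g (x, y)) ({0, 1} ∪ S)ᶜ := by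
  intro x hx
  have hx0 : x ≠ 0 := fun h => hx (Or.inl (Or.inl h))
  have hx1 : x ≠ 1 := fun h => hx (Or.inl (Or.inr h))
  have hxS : x ∉ S := fun h => hx (Or.inr h)
  obtain ⟨c, hc, -⟩ := Liou_chart hx0 hx1
  have hnb : Om c ∈ 𝓝 x := (Om_isOpen c).mem_nhds hc
  rw [← differentiableWithinAt_inter hnb]
  have h1 : DifferentiableWithinAt ℂ (fun x => ∑ k ∈ range P.D, g (P.pt c k x))
      (({0, 1} ∪ S)ᶜ ∩ Om c) x := by
    refine DifferentiableWithinAt.fun_sum fun k _ => ?_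
    refine (hg c k x ⟨hc, hxS⟩).mono ?_
    rintro y ⟨hy1, hy2⟩
    exact ⟨hy2, fun h => hy1 (Or.inr h)⟩
  refine h1.congr ?_ ?_
  · rintro y ⟨-, hy⟩
    exact P.sum_fib g hy
  · exact P.sum_fib g hc

private theorem Liou_F0 (z : ℂ × ℂ) : P.F 0 z = 1 := by
  simp [Par.F]

private theorem Liou_al0 : P.al 0 = 0 := by
  simp [Par.al]

private theorem Liou_be0 : P.be 0 = 0 := by
  simp [Par.be]

private theorem Liou_Dpos : 0 < P.D := by
  have := P.hD
  omega

/-- the trace of `g / F s` -/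
private theorem Liou_h (g : ℂ × ℂ → ℂ) (S : Finset ℂ) (hg : P.HolC g S) (M : ℝ)
    (hM : ∀ (c : Bool) (k : ℤ) (x : ℂ), x ∈ Om c → x ∈ Hc c → x ∉ S → ‖g (P.pt c k x)‖ ≤ M) (s : ℕ) :
    ∃ G : ℂ → ℂ, Differentiable ℂ G ∧ (∀ z, z ≠ 0 → z ≠ 1 → z ∉ S →
      G z = ∑ y ∈ P.fib z, g (z, y) / P.F s (z, y)) ∧
      ∀ z, ‖G z‖ ≤ (P.D * M) * (‖z‖ ^ (P.al s) * ‖1 - z‖ ^ (P.be s)) := by
  classical
  set h : ℂ → ℂ := fun x => ∑ y ∈ P.fib x, g (x, y) / P.F s (x, y) with hh
  set S' : Finset ℂ := insert 0 (insert 1 S) with hS'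
  have hS'c : ∀ z, z ∉ S' ↔ z ≠ 0 ∧ z ≠ 1 ∧ z ∉ S := by
    intro z
    rw [hS', Finset.mem_insert, Finset.mem_insert]
    tauto
  have hd : DifferentiableOn ℂ h (S' : Set ℂ)ᶜ := by
    have h1 := P.tr_diff (fun z => g z / P.F s z) (S : Set ℂ) (by
      intro c k x hx
      have h2 := hg c k x hx
      have h3 : DifferentiableWithinAt ℂ (fun x => P.F s (P.pt c k x)) (Om c \ (S : Set ℂ)) x :=
        (P.F_hasDerivAt s k hx.1).differentiableAt.differentiableWithinAt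
      exact h2.div h3 (P.F_ne s (P.pt_mem k hx.1)))
    refine h1.mono ?_
    intro z hz
    have hz' := (hS'c z).1 hz
    rintro ((h2 | h2) | h2)
    · exact hz'.1 h2
    · exact hz'.2.1 h2
    · exact hz'.2.2 h2
  have hb : ∀ z, z ∉ S' → ‖h z‖ ≤ (P.D * M) * (‖z‖ ^ (P.al s) * ‖1 - z‖ ^ (P.be s)) := by
    intro z hz
    obtain ⟨h0, h1, hzS⟩ := (hS'c z).1 hz
    obtain ⟨c, hc, hcH⟩ := Liou_chart h0 h1
    have h2 : h z = ∑ k ∈ range P.D, g (P.pt c k z) / P.F s (P.pt c k z) :=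
      P.sum_fib (fun w => g w / P.F s w) hc
    rw [h2]
    have hn0 : 0 < ‖z‖ := norm_pos_iff.2 h0
    have hn1 : 0 < ‖1 - z‖ := norm_pos_iff.2 (sub_ne_zero.2 (Ne.symm h1))
    calc ‖∑ k ∈ range P.D, g (P.pt c k z) / P.F s (P.pt c k z)‖
        ≤ ∑ k ∈ range P.D, ‖g (P.pt c k z) / P.F s (P.pt c k z)‖ := norm_sum_le _ _
      _ ≤ ∑ _k ∈ range P.D, M * (‖z‖ ^ (P.al s) * ‖1 - z‖ ^ (P.be s)) := by
        refine Finset.sum_le_sum fun k _ => ?_
        rw [norm_div, P.F_pt s k hc, norm_mul, P.norm_ze_zpow, one_mul, norm_pw c _ _ h0 h1,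
          Real.rpow_neg hn0.le, Real.rpow_neg hn1.le, ← mul_inv, div_inv_eq_mul]
        exact mul_le_mul_of_nonneg_right (hM c k z hc hcH hzS) (by positivity)
      _ = (P.D * M) * (‖z‖ ^ (P.al s) * ‖1 - z‖ ^ (P.be s)) := by
        rw [Finset.sum_const, Finset.card_range, nsmul_eq_mul, mul_assoc]
  have hcont : Continuous fun z : ℂ => (P.D * M) * (‖z‖ ^ (P.al s) * ‖1 - z‖ ^ (P.be s)) := by
    refine continuous_const.mul (Continuous.mul ?_ ?_)
    · exact continuous_norm.rpow_const fun z => Or.inr (P.al_nonneg s)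
    · exact ((continuous_const.sub continuous_id).norm).rpow_const fun z => Or.inr (P.be_nonneg s)
  obtain ⟨G, hG, hGh⟩ := exists_entire h S' hd (by
    intro x _
    have h1 : Tendsto (fun z => ‖z - x‖ * ((P.D * M) * (‖z‖ ^ (P.al s) * ‖1 - z‖ ^ (P.be s))))
        (𝓝[≠] x) (𝓝 0) := by
      have h2 : Continuous fun z => ‖z - x‖ * ((P.D * M) * (‖z‖ ^ (P.al s) * ‖1 - z‖ ^ (P.be s))) :=
        ((continuous_id.sub continuous_const).norm).mul hcont
      have h3 := h2.tendsto x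
      simp only [sub_self, norm_zero, zero_mul] at h3
      exact h3.mono_left nhdsWithin_le_nhds
    refine squeeze_zero_norm' ?_ h1
    have h4 : ∀ᶠ z in 𝓝[≠] x, z ∉ S' := by
      have h5 : ((S' : Set ℂ) \ {x}).Finite := S'.finite_toSet.subset Set.sdiff_subset
      have h6 : ((S' : Set ℂ) \ {x})ᶜ ∈ 𝓝 x :=
        h5.isClosed.isOpen_compl.mem_nhds (fun h => h.2 rfl)
      filter_upwards [mem_nhdsWithin_of_mem_nhds h6, self_mem_nhdsWithin] with z hz1 hz2 hz3
      exact hz1 ⟨hz3, hz2⟩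
    filter_upwards [h4] with z hz
    rw [norm_mul]
    exact mul_le_mul_of_nonneg_left (hb z hz) (norm_nonneg _))
  refine ⟨G, hG, ?_, ?_⟩
  · intro z h0 h1 h2
    exact hGh z ((hS'c z).2 ⟨h0, h1, h2⟩)
  · have hcl : IsClosed {z : ℂ | ‖G z‖ ≤ (P.D * M) * (‖z‖ ^ (P.al s) * ‖1 - z‖ ^ (P.be s))} :=
      isClosed_le hG.continuous.norm hcont
    have hsub : (S' : Set ℂ)ᶜ ⊆ {z : ℂ | ‖G z‖ ≤ (P.D * M) * (‖z‖ ^ (P.al s) * ‖1 - z‖ ^ (P.be s))} := by
      intro z hz
      show ‖G z‖ ≤ _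
      rw [hGh z hz]
      exact hb z hz
    have hdense : Dense (S' : Set ℂ)ᶜ := S'.countable_toSet.dense_compl ℝ
    intro z
    exact hcl.closure_subset_iff.2 hsub (hdense z)

theorem liouville (g : ℂ × ℂ → ℂ) (S : Finset ℂ) (hg : P.HolC g S) (M : ℝ)
    (hM : ∀ (c : Bool) (k : ℤ) (x : ℂ), x ∈ Om c → x ∈ Hc c → x ∉ S → ‖g (P.pt c k x)‖ ≤ M) :
    ∃ b : ℂ, ∀ (c : Bool) (k : ℤ) (x : ℂ), x ∈ Om c → x ∉ S → g (P.pt c k x) = b := by
  classical
  have hD0 := P.Liou_Dpos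
  have hDC : (P.D : ℂ) ≠ 0 := Nat.cast_ne_zero.2 hD0.ne'
  choose G hG hGh hGb using fun s : ℕ => P.Liou_h g S hg M hM s
  have hz : ∀ s, 0 < s → s < P.D → ∀ z, G s z = 0 := by
    intro s h0 h1
    rcases entire_small (G s) (hG s) _ _ _ (P.al_nonneg s) (P.al_lt_one s) (P.be_nonneg s)
      (P.be_lt_one s) (hGb s) with h2 | h2
    · rcases P.al_or_be h0 h1 with h3 | h3
      · exact absurd h2.1 h3
      · exact absurd h2.2.1 h3
    · exact h2.2
  have hc0 : ∀ z, G 0 z = G 0 0 := by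
    rcases entire_small (G 0) (hG 0) _ _ _ (P.al_nonneg 0) (P.al_lt_one 0) (P.be_nonneg 0)
      (P.be_lt_one 0) (hGb 0) with h2 | h2
    · exact h2.2.2
    · rcases h2.1 with h3 | h3
      · exact absurd P.Liou_al0 h3
      · exact absurd P.Liou_be0 h3
  refine ⟨G 0 0 / P.D, ?_⟩
  have key : ∀ (c : Bool) (k : ℕ) (x : ℂ), k < P.D → x ∈ Om c → x ∉ S →
      g (P.pt c k x) = G 0 0 / P.D := by
    intro c k x hk hx hxS
    have hx01 := Om_ne hx
    have h1 : ∑ s ∈ range P.D, G s x * P.F s (P.pt c k x) = P.D * g (P.pt c k x) := by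
      have h2 : ∀ s ∈ range P.D, G s x * P.F s (P.pt c k x) =
          ∑ j ∈ range P.D, g (P.pt c j x) * P.ze ^ ((s : ℤ) * ((j : ℤ) - k)) := by
        intro s _
        rw [hGh s x hx01.1 hx01.2 hxS]
        have h3 := P.sum_fib (fun w => g w / P.F s w) hx
        rw [h3, Finset.sum_mul]
        refine Finset.sum_congr rfl fun j _ => ?_
        have h4 := P.F_ne s (P.pt_mem (j : ℤ) hx)
        rw [div_mul_eq_mul_div, mul_div_assoc]
        have h5 : P.F s (P.pt c k x) / P.F s (P.pt c j x) = P.ze ^ ((s : ℤ) * ((j : ℤ) - k)) := by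
          rw [div_eq_iff h4, P.F_pt s _ hx, P.F_pt s _ hx, ← mul_assoc, ← zpow_add₀ P.ze_ne]
          congr 2
          ring
        rw [h5]
      rw [Finset.sum_congr rfl h2, Finset.sum_comm]
      have h6 : ∀ j ∈ range P.D, ∑ s ∈ range P.D, g (P.pt c j x) * P.ze ^ ((s : ℤ) * ((j : ℤ) - k)) =
          if j = k then P.D * g (P.pt c k x) else 0 := by
        intro j hj
        rw [← Finset.mul_sum, P.sum_ze]
        by_cases hjk : j = k
        · rw [if_pos hjk, hjk, sub_self, if_pos (dvd_zero _)]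
          ring
        · rw [if_neg hjk, if_neg, mul_zero]
          intro hdv
          have hj' := Finset.mem_range.1 hj
          apply hjk
          obtain ⟨q, hq⟩ := hdv
          have hq0 : q = 0 := by
            by_contra hq0
            rcases lt_or_gt_of_ne hq0 with h7 | h7
            · have h8 : (P.D : ℤ) * q ≤ -(P.D : ℤ) := by nlinarith
              omega
            · have h8 : (P.D : ℤ) ≤ (P.D : ℤ) * q := by nlinarith
              omega
          rw [hq0, mul_zero] at hq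
          omega
      rw [Finset.sum_congr rfl h6, Finset.sum_ite_eq' (range P.D) k, if_pos (Finset.mem_range.2 hk)]
    have h2 : ∑ s ∈ range P.D, G s x * P.F s (P.pt c k x) = G 0 0 := by
      rw [Finset.sum_eq_single_of_mem 0 (Finset.mem_range.2 hD0)]
      · rw [P.Liou_F0, mul_one, hc0]
      · intro s hs hs0
        rw [hz s (Nat.pos_of_ne_zero hs0) (Finset.mem_range.1 hs), zero_mul]
    rw [eq_div_iff hDC, mul_comm, ← h1, h2]
  intro c k x hx hxS
  have hDZ : (0 : ℤ) < P.D := by exact_mod_cast hD0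
  have hk0 : 0 ≤ k % P.D := Int.emod_nonneg _ hDZ.ne'
  have hk1 : k % P.D < P.D := Int.emod_lt_of_pos _ hDZ
  have h1 : P.pt c k x = P.pt c ((k % P.D).toNat : ℤ) x := by
    rw [P.pt_eq_iff, Int.toNat_of_nonneg hk0]
    exact Int.dvd_self_sub_emod
  rw [h1]
  exact key c _ x (by omega) hx hxS

end

end Pool.Agent.RHT.Par
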