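import Pool.Agent.RHK.Ifc

/-!
# Project RHT: germs in finitely generated differential rings

`GS ι x0`: finitely many holomorphic germs at `x0` with algebraic values at `x0`, whose partial
derivatives are polynomials in these germs with algebraic coefficients. `NF x0 f`: `f` is a
polynomial with algebraic coefficients in such germs.
-/

set_option autoImplicit false

namespace Pool.Agent.RHT

open Complex Finset Filter Topology MvPolynomial

noncomputable section

/-- partial derivative -/
def pd {ι : Type} [Fintype ι] [DecidableEq ι] (j : ι) (f : (ι → ℂ) → ℂ) (x : ι → ℂ) : ℂ :=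
  fderiv ℂ f x (Pi.single j 1)

/-- a finitely generated differential ring of germs at `x0` -/
structure GS (ι : Type) [Fintype ι] [DecidableEq ι] (x0 : ι → ℂ) where
  κ : Type
  fκ : Fintype κ
  g : κ → (ι → ℂ) → ℂ
  hol : ∀ k, ∀ᶠ x in 𝓝 x0, DifferentiableAt ℂ (g k) x
  alg : ∀ k, IsAlgebraic ℚ (g k x0)
  Q : κ → ι → MvPolynomial κ (algebraicClosure ℚ ℂ)
  der : ∀ k j, ∀ᶠ x in 𝓝 x0, pd j (g k) x = aeval (fun k => g k x) (Q k j)

variable {ι : Type} [Fintype ι] [DecidableEq ι] {x0 : ι → ℂ}

/-- `f` is a polynomial in the germs of `G` -/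
def GS.Mem (G : GS ι x0) (f : (ι → ℂ) → ℂ) : Prop :=
  ∃ R : MvPolynomial G.κ (algebraicClosure ℚ ℂ), ∀ᶠ x in 𝓝 x0, f x = aeval (fun k => G.g k x) R

/-- `f` is in some finitely generated differential ring of germs at `x0` -/
def NF (x0 : ι → ℂ) (f : (ι → ℂ) → ℂ) : Prop := ∃ G : GS ι x0, G.Mem f

end

end Pool.Agent.RHT
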