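import Pool.Agent.RHT.Defs2
import Pool.Agent.RHT.NFDefs

/-!
# Project RHT: definitions for section 7 (the function `S`)
-/

set_option autoImplicit false

namespace Pool.Agent.RHT

open Complex ComplexConjugate Finset MvPolynomial

noncomputable section

/-- embedding of coordinates with scaling -/
def EE {ι ι' : Type} [Fintype ι'] [DecidableEq ι] (τ : ι' → ι) (a : ι' → ℂ) (X : ι' → ℂ) : ι → ℂ :=
  fun t => ∑ i, if τ i = t then a i * X i else 0

namespace Par.Th

variable {P : Par} (θ : P.Th)

/-- the even function `T(v0+w) T(v0-w) / T(v0)²` -/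
def Sf (v0 : P.V) (w : P.V) : ℂ := θ.T (v0 + w) * θ.T (v0 - w) / θ.T v0 ^ 2

end Par.Th

end

end Pool.Agent.RHT
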