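import Pool.Agent.RHT.H6f
import Pool.Agent.RHT.SDefs

/-!
RHT-LocN. The function `S` is a germ `NF` at `0`. Plan: `v0` from `ZD.exists_base`.
`NF_PPa`: `NF_comp` for `φ w = v0 + w` and `φ w = v0 - w` (`R i j` constant `± if i = j then 1 else 0`).
`MM t w = L_t (v0 + w) - L_t (v0 - w)`: value `0` at `0`,
`pd j (MM t) w = - PP j t (v0 + w) - PP j t (v0 - w)` near `0` (`PP_eq`, `L_diff`, chain rule,
`T (v0 ± w) ≠ 0` near `0`): `NF_ode` with `A = B = 0`. `pd t S = MM t * S` near `0`, `S 0 = 1`: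
`NF_ode` with `A t = MM t`.
-/

set_option autoImplicit false

namespace Pool.Agent.RHT.Par

open Complex ComplexConjugate Finset Filter Topology

noncomputable section

variable {P : Par} (θ : P.Th)

private theorem locn_add (v0 : P.V) {f : P.V → ℂ} {w : P.V} (h : DifferentiableAt ℂ f (v0 + w)) :
    HasFDerivAt (fun w => f (v0 + w)) (fderiv ℂ f (v0 + w)) w := by
  have h1 : HasFDerivAt (fun w : P.V => v0 + w) (ContinuousLinearMap.id ℂ P.V) w :=
    (hasFDerivAt_id w).const_add v0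
  have h2 := h.hasFDerivAt.comp w h1
  rw [ContinuousLinearMap.comp_id] at h2
  exact h2

private theorem locn_sub (v0 : P.V) {f : P.V → ℂ} {w : P.V} (h : DifferentiableAt ℂ f (v0 - w)) :
    HasFDerivAt (fun w => f (v0 - w)) (-(fderiv ℂ f (v0 - w))) w := by
  have h1 : HasFDerivAt (fun w : P.V => v0 - w) (-(ContinuousLinearMap.id ℂ P.V)) w :=
    (hasFDerivAt_id w).const_sub v0
  have h2 := h.hasFDerivAt.comp w h1
  rw [ContinuousLinearMap.comp_neg, ContinuousLinearMap.comp_id] at h2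
  exact h2

private theorem locn_aff {v0 : P.V} {f : P.V → ℂ} (h : NF v0 f) {σ : ℂ} (hσ : IsAlgebraic ℚ σ) :
    NF 0 (fun w => f (v0 + σ • w)) := by
  have h0 : v0 + σ • (0 : P.V) = v0 := by rw [smul_zero, add_zero]
  have hd : ∀ x : P.V, HasFDerivAt (fun w : P.V => v0 + σ • w) (σ • ContinuousLinearMap.id ℂ P.V) x :=
    fun x => ((hasFDerivAt_id x).const_smul σ).const_add v0
  refine NF_comp (x0 := (0 : P.V)) (fun w : P.V => v0 + σ • w)
    (Filter.Eventually.of_forall fun x => (hd x).differentiableAt)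
    (fun i j _ => if i = j then σ else 0) ?_ ?_ ?_
  · intro i j
    refine NF_const ?_
    split_ifs
    · exact hσ
    · exact isAlgebraic_zero
  · intro i j
    refine Filter.Eventually.of_forall fun x => ?_
    have h2 : HasFDerivAt (fun x : P.V => (v0 + σ • x) i)
        ((ContinuousLinearMap.proj i).comp (σ • ContinuousLinearMap.id ℂ P.V)) x :=
      ((ContinuousLinearMap.proj (R := ℂ) (φ := fun _ : P.Ix => ℂ) i).hasFDerivAt).comp x (hd x)
    unfold pd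
    rw [h2.fderiv]
    show σ • (Pi.single j (1 : ℂ) : P.V) i = _
    by_cases hij : i = j
    · subst hij
      rw [Pi.single_eq_same, if_pos rfl, smul_eq_mul, mul_one]
    · rw [Pi.single_eq_of_ne hij, if_neg hij, smul_zero]
  · show NF (v0 + σ • (0 : P.V)) f
    rw [h0]
    exact h

theorem NF_PPa {v0 : P.V} {s t : P.Ix} (h : NF v0 (θ.PP s t)) :
    NF 0 (fun w => θ.PP s t (v0 + w)) ∧ NF 0 (fun w => θ.PP s t (v0 - w)) := by
  constructor
  · refine (locn_aff h (σ := 1) isAlgebraic_one).congr (Filter.Eventually.of_forall fun w => ?_)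
    show θ.PP s t (v0 + w) = θ.PP s t (v0 + (1 : ℂ) • w)
    rw [one_smul]
  · refine (locn_aff h (σ := -1) isAlgebraic_one.neg).congr
      (Filter.Eventually.of_forall fun w => ?_)
    show θ.PP s t (v0 - w) = θ.PP s t (v0 + (-1 : ℂ) • w)
    rw [neg_one_smul, sub_eq_add_neg]

private theorem locn_ne {v0 : P.V} (h0 : θ.T v0 ≠ 0) :
    ∀ᶠ w in 𝓝 (0 : P.V), θ.T (v0 + w) ≠ 0 ∧ θ.T (v0 - w) ≠ 0 := by
  have hc := θ.dT.continuous
  have h1 : ContinuousAt (fun w : P.V => θ.T (v0 + w)) 0 :=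
    (hc.comp (continuous_const.add continuous_id)).continuousAt
  have h2 : ContinuousAt (fun w : P.V => θ.T (v0 - w)) 0 :=
    (hc.comp (continuous_const.sub continuous_id)).continuousAt
  refine (h1.eventually_ne ?_).and (h2.eventually_ne ?_)
  · show θ.T (v0 + 0) ≠ 0
    rw [add_zero]
    exact h0
  · show θ.T (v0 - 0) ≠ 0
    rw [sub_zero]
    exact h0

theorem NF_MM {v0 : P.V} (h0 : θ.T v0 ≠ 0) (h : ∀ s t, NF v0 (θ.PP s t)) (t : P.Ix) :
    NF 0 (fun w => θ.L t (v0 + w) - θ.L t (v0 - w)) := by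
  have key : ∀ w : P.V, θ.T (v0 + w) ≠ 0 → θ.T (v0 - w) ≠ 0 →
      HasFDerivAt (fun w => θ.L t (v0 + w) - θ.L t (v0 - w))
        (fderiv ℂ (θ.L t) (v0 + w) - -(fderiv ℂ (θ.L t) (v0 - w))) w := fun w h1 h2 =>
    (locn_add v0 (θ.L_diff t h1)).sub (locn_sub v0 (θ.L_diff t h2))
  refine NF_ode _ ?_ ?_ (fun _ _ => 0) (fun _ _ => 0)
    (fun j w => -θ.PP j t (v0 + w) - θ.PP j t (v0 - w)) (fun _ => NF_const isAlgebraic_zero)
    (fun _ => NF_const isAlgebraic_zero) (fun j => ((NF_PPa θ (h j t)).1.neg).sub (NF_PPa θ (h j t)).2)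
    ?_
  · filter_upwards [locn_ne θ h0] with w hw
    exact (key w hw.1 hw.2).differentiableAt
  · show IsAlgebraic ℚ (θ.L t (v0 + 0) - θ.L t (v0 - 0))
    rw [add_zero, sub_zero, sub_self]
    exact isAlgebraic_zero
  · intro j
    filter_upwards [locn_ne θ h0] with w hw
    unfold pd
    rw [(key w hw.1 hw.2).fderiv]
    show fderiv ℂ (θ.L t) (v0 + w) (Pi.single j 1) - -(fderiv ℂ (θ.L t) (v0 - w) (Pi.single j 1)) =
      0 * (θ.L t (v0 + w) - θ.L t (v0 - w)) + 0 * (θ.L t (v0 + w) - θ.L t (v0 - w)) ^ 2 +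
      (- -(fderiv ℂ (θ.L t) (v0 + w) (Pi.single j 1)) - -(fderiv ℂ (θ.L t) (v0 - w) (Pi.single j 1)))
    ring

theorem NF_Sf {v0 : P.V} (h0 : θ.T v0 ≠ 0) (h : ∀ s t, NF v0 (θ.PP s t)) :
    NF 0 (θ.Sf v0) := by
  have key : ∀ w : P.V, HasFDerivAt (fun w => θ.T (v0 + w) * θ.T (v0 - w) * (θ.T v0 ^ 2)⁻¹)
      ((θ.T v0 ^ 2)⁻¹ • (θ.T (v0 + w) • (-(fderiv ℂ θ.T (v0 - w))) +
        θ.T (v0 - w) • fderiv ℂ θ.T (v0 + w))) w := fun w =>
    ((locn_add v0 (θ.dT _)).fun_mul (locn_sub v0 (θ.dT _))).mul_const _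
  have hS : θ.Sf v0 = fun w => θ.T (v0 + w) * θ.T (v0 - w) * (θ.T v0 ^ 2)⁻¹ := by
    funext w
    show _ / _ = _
    rw [div_eq_mul_inv]
  rw [hS]
  refine NF_ode _ ?_ ?_ (fun j w => θ.L j (v0 + w) - θ.L j (v0 - w)) (fun _ _ => 0)
    (fun _ _ => 0) (fun j => NF_MM θ h0 h j)
    (fun _ => NF_const isAlgebraic_zero) (fun _ => NF_const isAlgebraic_zero) ?_
  · exact Filter.Eventually.of_forall fun w => (key w).differentiableAt
  · show IsAlgebraic ℚ (θ.T (v0 + 0) * θ.T (v0 - 0) * (θ.T v0 ^ 2)⁻¹)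
    rw [add_zero, sub_zero, ← pow_two, mul_inv_cancel₀ (pow_ne_zero 2 h0)]
    exact isAlgebraic_one
  · intro j
    filter_upwards [locn_ne θ h0] with w hw
    unfold pd
    rw [(key w).fderiv]
    show (θ.T v0 ^ 2)⁻¹ * (θ.T (v0 + w) * (-(fderiv ℂ θ.T (v0 - w) (Pi.single j 1))) +
        θ.T (v0 - w) * fderiv ℂ θ.T (v0 + w) (Pi.single j 1)) =
      (fderiv ℂ θ.T (v0 + w) (Pi.single j 1) / θ.T (v0 + w) -
        fderiv ℂ θ.T (v0 - w) (Pi.single j 1) / θ.T (v0 - w)) *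
        (θ.T (v0 + w) * θ.T (v0 - w) * (θ.T v0 ^ 2)⁻¹) +
      0 * (θ.T (v0 + w) * θ.T (v0 - w) * (θ.T v0 ^ 2)⁻¹) ^ 2 + 0
    have e1 := hw.1
    have e2 := hw.2
    field_simp
    ring

theorem exists_NF (z : P.ZD θ) : ∃ v0 : P.V, θ.T v0 ≠ 0 ∧ NF 0 (θ.Sf v0) := by
  obtain ⟨v0, h0, h⟩ := z.exists_base
  exact ⟨v0, h0, NF_Sf θ h0 h⟩

end

end Pool.Agent.RHT.Par
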