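import Pool.Agent.RHT.Defs

/-!
RHT-Log. Elementary facts on the charts. Plan: everything is `Complex.log` of `± I x`, `∓ I (1-x)`;
`x ∈ Om c` says that `sg c * I * x` and `-(sg c) * I * (1-x)` are in the slit plane.
Case split on `c`, then `Complex.log_mul`-type facts via `arg`: on `re x < 0` (dn) `arg (-I x)`,
`arg (I x)` differ by `π`, etc. (`Complex.log (-z) = log z ± π I`.)
-/

set_option autoImplicit false

namespace Pool.Agent.RHT

open Complex ComplexConjugate Finset

noncomputable section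

private theorem log_sg_sq (c : Bool) : sg c * sg c = 1 := by
  cases c <;> simp [sg]

private theorem log_sg_sq_c (c : Bool) : (sg c : ℂ) * (sg c : ℂ) = 1 := by
  cases c <;> simp [sg]

private theorem log_sg_abs (c : Bool) : |sg c| = 1 := by
  cases c <;> simp [sg]

private theorem log_cont_sgim (c : Bool) : Continuous fun x : ℂ => sg c * x.im :=
  continuous_const.mul Complex.continuous_im

theorem Om_isOpen (c : Bool) : IsOpen (Om c) := by
  have h0 : IsClosed {x : ℂ | x.re = 0 ∧ 0 ≤ sg c * x.im} :=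
    (isClosed_eq Complex.continuous_re continuous_const).inter
      (isClosed_le continuous_const (log_cont_sgim c))
  have h1 : IsClosed {x : ℂ | x.re = 1 ∧ 0 ≤ sg c * x.im} :=
    (isClosed_eq Complex.continuous_re continuous_const).inter
      (isClosed_le continuous_const (log_cont_sgim c))
  exact h0.isOpen_compl.inter h1.isOpen_compl

theorem Om_ne {c : Bool} {x : ℂ} (hx : x ∈ Om c) : x ≠ 0 ∧ x ≠ 1 := by
  constructor
  · rintro rfl
    exact hx.1 ⟨by simp, by simp⟩
  · rintro rfl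
    exact hx.2 ⟨by simp, by simp⟩

theorem Om_of_Hc {c : Bool} {x : ℂ} (h : x ∈ Hc c) (h0 : x ≠ 0) (h1 : x ≠ 1) : x ∈ Om c := by
  have h' : sg c * x.im ≤ 0 := h
  have key : 0 ≤ sg c * x.im → x.im = 0 := by
    intro h2
    have h3 : sg c * x.im = 0 := le_antisymm h' h2
    have h4 := log_sg_sq c
    calc x.im = sg c * (sg c * x.im) := by rw [← mul_assoc, h4, one_mul]
      _ = 0 := by rw [h3, mul_zero]
  constructor
  · rintro ⟨ha, hb⟩
    exact h0 (Complex.ext ha (key hb))
  · rintro ⟨ha, hb⟩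
    exact h1 (Complex.ext ha (key hb))

theorem Om_of_strip {x : ℂ} (h0 : x.re ≠ 0) (h1 : x.re ≠ 1) (c : Bool) : x ∈ Om c :=
  ⟨fun h => h0 h.1, fun h => h1 h.1⟩

private theorem log_ray_re (c : Bool) (x : ℂ) (s : ℝ) : (x - sg c * I * s).re = x.re := by
  simp

private theorem log_ray_im (c : Bool) (x : ℂ) (s : ℝ) :
    sg c * (x - sg c * I * s).im = sg c * x.im - s := by
  have h4 := log_sg_sq c
  have h : (x - sg c * I * s).im = x.im - sg c * s := by simp
  rw [h, mul_sub, ← mul_assoc, h4, one_mul]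

/-- the chart contains the vertical ray from each of its points -/
theorem Om_ray {c : Bool} {x : ℂ} (hx : x ∈ Om c) {s : ℝ} (hs : 0 ≤ s) :
    x - sg c * I * s ∈ Om c := by
  constructor
  · rintro ⟨ha, hb⟩
    rw [log_ray_re] at ha
    rw [log_ray_im] at hb
    exact hx.1 ⟨ha, by linarith⟩
  · rintro ⟨ha, hb⟩
    rw [log_ray_re] at ha
    rw [log_ray_im] at hb
    exact hx.2 ⟨ha, by linarith⟩

theorem Om_isPreconnected (c : Bool) : IsPreconnected (Om c) := by
  have hUconv : Convex ℝ {x : ℂ | sg c * x.im < 0} := by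
    have h : {x : ℂ | sg c * x.im < 0} = {x : ℂ | (sg c • Complex.imLm) x < 0} := by
      ext x; simp
    rw [h]
    exact convex_halfSpace_lt (LinearMap.isLinear _) 0
  have hUsub : {x : ℂ | sg c * x.im < 0} ⊆ Om c := by
    intro x hx
    have hx' : sg c * x.im < 0 := hx
    exact ⟨fun h => absurd h.2 (not_le.2 hx'), fun h => absurd h.2 (not_le.2 hx')⟩
  have hbase : ((0 : ℂ) - sg c * I * (1 : ℝ)) ∈ {x : ℂ | sg c * x.im < 0} := by
    change sg c * ((0 : ℂ) - sg c * I * (1 : ℝ)).im < 0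
    rw [log_ray_im]
    simp
  refine isPreconnected_of_forall ((0 : ℂ) - sg c * I * (1 : ℝ)) ?_
  intro y hy
  set R : Set ℂ := (fun s : ℝ => y - sg c * I * s) '' Set.Ici 0 with hR
  have hRpre : IsPreconnected R :=
    isPreconnected_Ici.image _ (by fun_prop)
  have hRsub : R ⊆ Om c := by
    rintro _ ⟨s, hs, rfl⟩
    exact Om_ray hy hs
  have hyR : y ∈ R := ⟨0, Set.mem_Ici.2 le_rfl, by simp⟩
  set s0 : ℝ := |sg c * y.im| + 1 with hs0
  have hs0' : 0 ≤ s0 := by positivity
  have hmeetR : y - sg c * I * s0 ∈ R := ⟨s0, hs0', rfl⟩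
  have hmeetU : y - sg c * I * s0 ∈ {x : ℂ | sg c * x.im < 0} := by
    change sg c * (y - sg c * I * s0).im < 0
    rw [log_ray_im]
    have := le_abs_self (sg c * y.im)
    linarith
  refine ⟨{x : ℂ | sg c * x.im < 0} ∪ R, Set.union_subset hUsub hRsub, Or.inl hbase, Or.inr hyR, ?_⟩
  exact IsPreconnected.union (y - sg c * I * s0) hmeetU hmeetR hUconv.isPreconnected hRpre

theorem Om_conj {x : ℂ} : conj x ∈ Om true ↔ x ∈ Om false := by
  unfold Om sg
  simp

private theorem log_exp_pos (c : Bool) : cexp ((sg c : ℂ) * I * (Real.pi / 2)) = sg c * I := by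
  cases c
  · have h : ((sg false : ℝ) : ℂ) * I * (Real.pi / 2) = -(Real.pi / 2 * I) := by
      simp [sg]; ring
    rw [h, Complex.exp_neg, Complex.exp_pi_div_two_mul_I]
    simp [sg]
  · have h : ((sg true : ℝ) : ℂ) * I * (Real.pi / 2) = (Real.pi / 2 * I) := by
      simp [sg]; ring
    rw [h, Complex.exp_pi_div_two_mul_I]
    simp [sg]

private theorem log_exp_neg (c : Bool) : cexp (-((sg c : ℂ) * I * (Real.pi / 2))) = -(sg c * I) := by
  rw [Complex.exp_neg, log_exp_pos]
  cases c <;> simp [sg]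

private theorem log_sgI_ne (c : Bool) : (sg c : ℂ) * I ≠ 0 := by
  cases c <;> simp [sg]

theorem l0_exp (c : Bool) {x : ℂ} (hx : x ≠ 0) : cexp (l0 c x) = x := by
  unfold l0
  rw [sub_eq_add_neg, Complex.exp_add, log_exp_neg, Complex.exp_log (mul_ne_zero (log_sgI_ne c) hx)]
  have h := log_sg_sq_c c
  have hI := Complex.I_mul_I
  calc (sg c : ℂ) * I * x * -(sg c * I) = -((sg c : ℂ) * sg c) * (I * I) * x := by ring
    _ = x := by rw [h, hI]; ring

theorem l1_exp (c : Bool) {x : ℂ} (hx : x ≠ 1) : cexp (l1 c x) = 1 - x := by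
  unfold l1
  have hne : -(sg c : ℂ) * I * (1 - x) ≠ 0 := by
    refine mul_ne_zero ?_ (sub_ne_zero.2 (Ne.symm hx))
    rw [neg_mul]
    exact neg_ne_zero.2 (log_sgI_ne c)
  rw [Complex.exp_add, log_exp_pos, Complex.exp_log hne]
  have h := log_sg_sq_c c
  have hI := Complex.I_mul_I
  calc -(sg c : ℂ) * I * (1 - x) * (sg c * I) = -((sg c : ℂ) * sg c) * (I * I) * (1 - x) := by ring
    _ = 1 - x := by rw [h, hI]; ring

theorem l0_re (c : Bool) {x : ℂ} : (l0 c x).re = Real.log ‖x‖ := by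
  unfold l0
  rw [Complex.sub_re, Complex.log_re, norm_mul, norm_mul, Complex.norm_I, Complex.norm_real,
    Real.norm_eq_abs, log_sg_abs]
  have h : ((sg c : ℂ) * I * (Real.pi / 2)).re = 0 := by
    have : ((sg c : ℂ) * I * (Real.pi / 2)) = ((sg c * (Real.pi / 2) : ℝ) : ℂ) * I := by
      push_cast; ring
    rw [this, Complex.re_ofReal_mul]; simp
  rw [h]; simp

theorem l1_re (c : Bool) {x : ℂ} : (l1 c x).re = Real.log ‖1 - x‖ := by
  unfold l1
  rw [Complex.add_re, Complex.log_re, norm_mul, norm_mul, Complex.norm_I, norm_neg,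
    Complex.norm_real, Real.norm_eq_abs, log_sg_abs]
  have h : ((sg c : ℂ) * I * (Real.pi / 2)).re = 0 := by
    have : ((sg c : ℂ) * I * (Real.pi / 2)) = ((sg c * (Real.pi / 2) : ℝ) : ℂ) * I := by
      push_cast; ring
    rw [this, Complex.re_ofReal_mul]; simp
  rw [h]; simp

private theorem log_slit0 {c : Bool} {x : ℂ} (hx : x ∈ Om c) :
    (sg c : ℂ) * I * x ∈ slitPlane := by
  rw [Complex.mem_slitPlane_iff]
  have h1 : ((sg c : ℂ) * I * x).re = -(sg c * x.im) := by simp
  have h2 : ((sg c : ℂ) * I * x).im = sg c * x.re := by simp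
  rw [h1, h2]
  by_cases hre : x.re = 0
  · left
    have : ¬ (0 ≤ sg c * x.im) := fun h => hx.1 ⟨hre, h⟩
    linarith [not_le.1 this]
  · right
    refine mul_ne_zero ?_ hre
    cases c <;> simp [sg]

private theorem log_slit1 {c : Bool} {x : ℂ} (hx : x ∈ Om c) :
    -(sg c : ℂ) * I * (1 - x) ∈ slitPlane := by
  rw [Complex.mem_slitPlane_iff]
  have h1 : (-(sg c : ℂ) * I * (1 - x)).re = -(sg c * x.im) := by simp
  have h2 : (-(sg c : ℂ) * I * (1 - x)).im = -(sg c * (1 - x.re)) := by simp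
  rw [h1, h2]
  by_cases hre : x.re = 1
  · left
    have : ¬ (0 ≤ sg c * x.im) := fun h => hx.2 ⟨hre, h⟩
    linarith [not_le.1 this]
  · right
    refine neg_ne_zero.2 (mul_ne_zero ?_ (sub_ne_zero.2 (Ne.symm hre)))
    cases c <;> simp [sg]

theorem l0_hasDerivAt {c : Bool} {x : ℂ} (hx : x ∈ Om c) : HasDerivAt (l0 c) (1 / x) x := by
  have h1 : HasDerivAt (fun y : ℂ => (sg c : ℂ) * I * y) ((sg c : ℂ) * I) x := by
    simpa using (hasDerivAt_id x).const_mul ((sg c : ℂ) * I)
  have h2 := (h1.clog (log_slit0 hx)).sub_const ((sg c : ℂ) * I * (Real.pi / 2))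
  have h3 : (sg c : ℂ) * I / ((sg c : ℂ) * I * x) = 1 / x := by
    have hx0 := (Om_ne hx).1
    have := log_sgI_ne c
    rw [← div_div, div_self this]
  rw [h3] at h2
  exact h2

theorem l1_hasDerivAt {c : Bool} {x : ℂ} (hx : x ∈ Om c) :
    HasDerivAt (l1 c) (-(1 / (1 - x))) x := by
  have h1 : HasDerivAt (fun y : ℂ => -(sg c : ℂ) * I * (1 - y)) (-(sg c : ℂ) * I * (-1)) x := by
    exact ((hasDerivAt_id x).const_sub 1).const_mul (-(sg c : ℂ) * I)
  have h2 := (h1.clog (log_slit1 hx)).add_const ((sg c : ℂ) * I * (Real.pi / 2))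
  have h3 : -(sg c : ℂ) * I * (-1) / (-(sg c : ℂ) * I * (1 - x)) = -(1 / (1 - x)) := by
    have hne : -(sg c : ℂ) * I ≠ 0 := by
      rw [neg_mul]
      exact neg_ne_zero.2 (log_sgI_ne c)
    rw [mul_div_mul_left _ _ hne, neg_div]
  rw [h3] at h2
  exact h2

theorem pw_hasDerivAt {c : Bool} (p q : ℝ) {x : ℂ} (hx : x ∈ Om c) :
    HasDerivAt (pw c p q) ((-(p : ℂ) / x + q / (1 - x)) * pw c p q x) x := by
  have h0 := (l0_hasDerivAt hx).const_mul (p : ℂ)
  have h1 := (l1_hasDerivAt hx).const_mul (q : ℂ)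
  have h2 := (h0.neg.sub h1).cexp
  have h3 : cexp (-((p : ℂ) * l0 c x) - (q : ℂ) * l1 c x) *
      (-((p : ℂ) * (1 / x)) - (q : ℂ) * -(1 / (1 - x))) =
      (-(p : ℂ) / x + q / (1 - x)) * pw c p q x := by
    unfold pw; ring
  rw [← h3]
  exact h2

theorem pw_ne (c : Bool) (p q : ℝ) (x : ℂ) : pw c p q x ≠ 0 := Complex.exp_ne_zero _

theorem norm_pw (c : Bool) (p q : ℝ) {x : ℂ} (h0 : x ≠ 0) (h1 : x ≠ 1) :
    ‖pw c p q x‖ = ‖x‖ ^ (-p) * ‖1 - x‖ ^ (-q) := by
  have hx0 : 0 < ‖x‖ := norm_pos_iff.2 h0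
  have hx1 : 0 < ‖1 - x‖ := norm_pos_iff.2 (sub_ne_zero.2 (Ne.symm h1))
  unfold pw
  rw [Complex.norm_exp, Real.rpow_def_of_pos hx0, Real.rpow_def_of_pos hx1, ← Real.exp_add]
  congr 1
  rw [Complex.sub_re, Complex.neg_re, Complex.re_ofReal_mul, Complex.re_ofReal_mul, l0_re, l1_re]
  ring

theorem pw_add (c : Bool) (p q p' q' : ℝ) (x : ℂ) :
    pw c (p + p') (q + q') x = pw c p q x * pw c p' q' x := by
  unfold pw
  rw [← Complex.exp_add]
  congr 1
  push_cast
  ring

theorem pw_int (c : Bool) (m n : ℤ) {x : ℂ} (h0 : x ≠ 0) (h1 : x ≠ 1) :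
    pw c m n x = x ^ (-m) * (1 - x) ^ (-n) := by
  have e0 : x ^ (-m) = cexp (((-m : ℤ) : ℂ) * l0 c x) := by
    rw [Complex.exp_int_mul, l0_exp c h0]
  have e1 : (1 - x) ^ (-n) = cexp (((-n : ℤ) : ℂ) * l1 c x) := by
    rw [Complex.exp_int_mul, l1_exp c h1]
  unfold pw
  rw [e0, e1, ← Complex.exp_add]
  congr 1
  push_cast
  ring

private theorem log_I_mul {z : ℂ} (hz : 0 < z.re) :
    Complex.log (I * z) = Complex.log z + I * (Real.pi / 2) := by
  have hz0 : z ≠ 0 := by rintro rfl; simp at hz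
  have ha : |z.arg| < Real.pi / 2 := Complex.abs_arg_lt_pi_div_two_iff.2 (Or.inl hz)
  have hp := Real.pi_pos
  rw [abs_lt] at ha
  rw [Complex.log_mul Complex.I_ne_zero hz0
    (by rw [Complex.arg_I]; exact ⟨by linarith [ha.1], by linarith [ha.2]⟩), Complex.log_I]
  ring

private theorem log_negI_mul {z : ℂ} (hz : 0 < z.re) :
    Complex.log (-I * z) = Complex.log z - I * (Real.pi / 2) := by
  have hz0 : z ≠ 0 := by rintro rfl; simp at hz
  have ha : |z.arg| < Real.pi / 2 := Complex.abs_arg_lt_pi_div_two_iff.2 (Or.inl hz)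
  have hp := Real.pi_pos
  rw [abs_lt] at ha
  rw [Complex.log_mul (neg_ne_zero.2 Complex.I_ne_zero) hz0
    (by rw [Complex.arg_neg_I]; exact ⟨by linarith [ha.1], by linarith [ha.2]⟩),
    Complex.log_neg_I]
  ring

private theorem log_l0t {x : ℂ} (hx : 0 < x.re) : l0 true x = Complex.log x := by
  unfold l0 sg
  simp only [if_true, Complex.ofReal_one, one_mul]
  rw [log_I_mul hx]; ring

private theorem log_l0f {x : ℂ} (hx : 0 < x.re) : l0 false x = Complex.log x := by
  unfold l0 sg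
  simp only [Bool.false_eq_true, if_false, Complex.ofReal_neg, Complex.ofReal_one, neg_mul, one_mul]
  rw [← neg_mul, log_negI_mul hx]; ring

private theorem log_l0t' {x : ℂ} (hx : x.re < 0) :
    l0 true x = Complex.log (-x) - Real.pi * I := by
  have hz : 0 < (-x).re := by simpa using hx
  unfold l0 sg
  simp only [if_true, Complex.ofReal_one, one_mul]
  rw [show I * x = -I * (-x) by ring, log_negI_mul hz]; ring

private theorem log_l0f' {x : ℂ} (hx : x.re < 0) :
    l0 false x = Complex.log (-x) + Real.pi * I := by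
  have hz : 0 < (-x).re := by simpa using hx
  unfold l0 sg
  simp only [Bool.false_eq_true, if_false, Complex.ofReal_neg, Complex.ofReal_one, neg_mul, one_mul]
  rw [show -(I * x) = I * (-x) by ring, log_I_mul hz]; ring

private theorem log_l1t {x : ℂ} (hx : x.re < 1) : l1 true x = Complex.log (1 - x) := by
  have hz : 0 < (1 - x).re := by simpa using hx
  unfold l1 sg
  simp only [if_true, Complex.ofReal_one, one_mul]
  rw [show -1 * I * (1 - x) = -I * (1 - x) by ring, log_negI_mul hz]; ring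

private theorem log_l1f {x : ℂ} (hx : x.re < 1) : l1 false x = Complex.log (1 - x) := by
  have hz : 0 < (1 - x).re := by simpa using hx
  unfold l1 sg
  simp only [Bool.false_eq_true, if_false, Complex.ofReal_neg, Complex.ofReal_one, neg_neg, one_mul]
  rw [log_I_mul hz]; ring

private theorem log_l1t' {x : ℂ} (hx : 1 < x.re) :
    l1 true x = Complex.log (x - 1) + Real.pi * I := by
  have hz : 0 < (x - 1).re := by simpa using hx
  unfold l1 sg
  simp only [if_true, Complex.ofReal_one, one_mul]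
  rw [show -1 * I * (1 - x) = I * (x - 1) by ring, log_I_mul hz]; ring

private theorem log_l1f' {x : ℂ} (hx : 1 < x.re) :
    l1 false x = Complex.log (x - 1) - Real.pi * I := by
  have hz : 0 < (x - 1).re := by simpa using hx
  unfold l1 sg
  simp only [Bool.false_eq_true, if_false, Complex.ofReal_neg, Complex.ofReal_one, neg_neg, one_mul]
  rw [show I * (1 - x) = -I * (x - 1) by ring, log_negI_mul hz]; ring

theorem l0_left {x : ℂ} (hx : x.re < 0) : l0 true x = l0 false x - 2 * Real.pi * I := by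
  rw [log_l0t' hx, log_l0f' hx]; ring

theorem l0_right {x : ℂ} (hx : 0 < x.re) : l0 true x = l0 false x := by
  rw [log_l0t hx, log_l0f hx]

theorem l1_left {x : ℂ} (hx : x.re < 1) : l1 true x = l1 false x := by
  rw [log_l1t hx, log_l1f hx]

theorem l1_right {x : ℂ} (hx : 1 < x.re) : l1 true x = l1 false x + 2 * Real.pi * I := by
  rw [log_l1t' hx, log_l1f' hx]; ring

theorem pw_left (p q : ℝ) {x : ℂ} (hx : x.re < 0) : pw true p q x = ee p * pw false p q x := by
  unfold pw ee
  rw [← Complex.exp_add, l0_left hx, l1_left (by linarith : x.re < 1)]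
  congr 1
  ring

theorem pw_mid (p q : ℝ) {x : ℂ} (hx : 0 < x.re) (hx1 : x.re < 1) :
    pw true p q x = pw false p q x := by
  unfold pw
  rw [l0_right hx, l1_left hx1]

theorem pw_right (p q : ℝ) {x : ℂ} (hx : 1 < x.re) :
    pw true p q x = ee (-q) * pw false p q x := by
  unfold pw ee
  rw [← Complex.exp_add, l0_right (by linarith : (0 : ℝ) < x.re), l1_right hx]
  congr 1
  push_cast
  ring

private theorem log_conj' {z : ℂ} (hz : z ∈ slitPlane) :
    Complex.log (conj z) = conj (Complex.log z) :=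
  Complex.log_conj z (Complex.mem_slitPlane_iff_arg.1 hz).1

theorem pw_conj (p q : ℝ) {x : ℂ} (hx : x ∈ Om false) :
    pw true p q (conj x) = conj (pw false p q x) := by
  have h0 : l0 true (conj x) = conj (l0 false x) := by
    have e := log_conj' (log_slit0 hx)
    have e2 : conj ((sg false : ℂ) * I * x) = (sg true : ℂ) * I * conj x := by
      simp [sg]
    rw [e2] at e
    unfold l0
    rw [e, map_sub]
    congr 1
    simp [sg]
    rw [map_ofNat (starRingEnd ℂ) 2]
  have h1 : l1 true (conj x) = conj (l1 false x) := by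
    have e := log_conj' (log_slit1 hx)
    have e2 : conj (-(sg false : ℂ) * I * (1 - x)) = -(sg true : ℂ) * I * (1 - conj x) := by
      simp [sg]
    rw [e2] at e
    unfold l1
    rw [e, map_add]
    congr 1
    simp [sg]
    rw [map_ofNat (starRingEnd ℂ) 2]
  unfold pw
  rw [h0, h1, ← Complex.exp_conj]
  congr 1
  simp

theorem pw_real (c : Bool) (p q : ℝ) {x : ℝ} (h0 : 0 < x) (h1 : x < 1) :
    pw c p q x = ((x ^ (-p) * (1 - x) ^ (-q) : ℝ) : ℂ) := by
  have h1' : 0 < 1 - x := by linarith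
  have e0 : l0 c x = (Real.log x : ℂ) := by
    have hh : 0 < (x : ℂ).re := by simpa using h0
    rw [Complex.ofReal_log h0.le]
    cases c
    · exact log_l0f hh
    · exact log_l0t hh
  have e1 : l1 c x = (Real.log (1 - x) : ℂ) := by
    have hh : (x : ℂ).re < 1 := by simpa using h1
    rw [Complex.ofReal_log h1'.le]
    push_cast
    cases c
    · exact log_l1f hh
    · exact log_l1t hh
  unfold pw
  rw [e0, e1, Real.rpow_def_of_pos h0, Real.rpow_def_of_pos h1', ← Real.exp_add, Complex.ofReal_exp]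
  congr 1
  push_cast
  ring

/-- above the ray `(1, ∞)` -/
theorem pw_real' (p q : ℝ) {x : ℝ} (h1 : 1 < x) :
    pw false p q x = cexp (Real.pi * I * q) * ((x ^ (-p) * (x - 1) ^ (-q) : ℝ) : ℂ) := by
  have h0 : 0 < x := by linarith
  have h1' : 0 < x - 1 := by linarith
  have e0 : l0 false x = (Real.log x : ℂ) := by
    have hh : 0 < (x : ℂ).re := by simpa using h0
    rw [Complex.ofReal_log h0.le]
    exact log_l0f hh
  have e1 : l1 false x = (Real.log (x - 1) : ℂ) - Real.pi * I := by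
    have hh : 1 < (x : ℂ).re := by simpa using h1
    rw [Complex.ofReal_log h1'.le]
    push_cast
    exact log_l1f' hh
  unfold pw
  rw [e0, e1, Real.rpow_def_of_pos h0, Real.rpow_def_of_pos h1', ← Real.exp_add, Complex.ofReal_exp,
    ← Complex.exp_add]
  congr 1
  push_cast
  ring

end

end Pool.Agent.RHT
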