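import Pool.Agent.RHT.NFDefs

/-!
RHT-NFa. Ring operations on the germs `NF x0`. Plan.
`GS.union`: index `G1.κ ⊕ G2.κ`, `g = Sum.elim G1.g G2.g`, `Q (inl k) j = rename Sum.inl (G1.Q k j)`,
`Q (inr k) j = rename Sum.inr (G2.Q k j)` (`aeval_rename`); `Mem` passes by `rename`.
`NF_family`: induction on the finite family (`Finset.induction_on` for the set of indices `e` with
`G.Mem (f e)`), `GS.union`. Operations: polynomials are added, multiplied; constants:
`aeval (C ⟨a, mem_algebraicClosure_iff.2 ha⟩) = a`; coordinates: the system with `κ = ι`,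
`g i x = x i`, `Q i j = if i = j then 1 else 0` (needs all `x0 i` algebraic; for a single `i` with `x0 i`
algebraic take `κ = Unit`, `Q j = if j = i then 1 else 0`). Values: `aeval` of algebraic numbers
is algebraic (`isAlgebraic_algebraMap`, `Subalgebra`: the algebraic numbers form the field
`algebraicClosure ℚ ℂ`; induction on the polynomial); the value at `x0` from the eventual equality
(`Filter.Eventually.self_of_nhds`).
-/

set_option autoImplicit false

namespace Pool.Agent.RHT

open Complex Finset Filter Topology MvPolynomial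

noncomputable section

variable {ι : Type} [Fintype ι] [DecidableEq ι] {x0 : ι → ℂ}

theorem GS.union (G1 G2 : GS ι x0) : ∃ G : GS ι x0, (∀ f, G1.Mem f → G.Mem f) ∧
    (∀ f, G2.Mem f → G.Mem f) := by
  have hf1 := G1.fκ
  have hf2 := G2.fκ
  have key1 : ∀ (R : MvPolynomial G1.κ (algebraicClosure ℚ ℂ)) (x : ι → ℂ),
      aeval (fun k => Sum.elim G1.g G2.g k x) (rename Sum.inl R) = aeval (fun k => G1.g k x) R := by
    intro R x
    rw [aeval_rename]
    rfl
  have key2 : ∀ (R : MvPolynomial G2.κ (algebraicClosure ℚ ℂ)) (x : ι → ℂ),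
      aeval (fun k => Sum.elim G1.g G2.g k x) (rename Sum.inr R) = aeval (fun k => G2.g k x) R := by
    intro R x
    rw [aeval_rename]
    rfl
  refine ⟨⟨G1.κ ⊕ G2.κ, inferInstance, Sum.elim G1.g G2.g, ?_, ?_,
    fun k j => Sum.elim (fun k1 => rename Sum.inl (G1.Q k1 j)) (fun k2 => rename Sum.inr (G2.Q k2 j)) k,
    ?_⟩, ?_, ?_⟩
  · rintro (k | k)
    · exact G1.hol k
    · exact G2.hol k
  · rintro (k | k)
    · exact G1.alg k
    · exact G2.alg k
  · rintro (k | k) j
    · filter_upwards [G1.der k j] with x hx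
      simp only [Sum.elim_inl]
      rw [key1]
      exact hx
    · filter_upwards [G2.der k j] with x hx
      simp only [Sum.elim_inr]
      rw [key2]
      exact hx
  · rintro f ⟨R, hR⟩
    refine ⟨rename Sum.inl R, ?_⟩
    filter_upwards [hR] with x hx
    rw [hx]
    exact (key1 R x).symm
  · rintro f ⟨R, hR⟩
    refine ⟨rename Sum.inr R, ?_⟩
    filter_upwards [hR] with x hx
    rw [hx]
    exact (key2 R x).symm

theorem NF_family {ε : Type} [Fintype ε] (f : ε → (ι → ℂ) → ℂ) (h : ∀ e, NF x0 (f e)) :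
    ∃ G : GS ι x0, ∀ e, G.Mem (f e) := by
  classical
  have key : ∀ s : Finset ε, ∃ G : GS ι x0, ∀ e ∈ s, G.Mem (f e) := by
    intro s
    induction s using Finset.induction_on with
    | empty =>
      refine ⟨⟨Empty, inferInstance, fun k => k.elim, fun k => k.elim, fun k => k.elim,
        fun k => k.elim, fun k => k.elim⟩, ?_⟩
      intro e he
      simp at he
    | insert a s ha ih =>
      obtain ⟨G1, h1⟩ := ih
      obtain ⟨G2, h2⟩ := h a
      obtain ⟨G, hG1, hG2⟩ := GS.union G1 G2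
      refine ⟨G, ?_⟩
      intro e he
      rcases Finset.mem_insert.1 he with rfl | he
      · exact hG2 _ h2
      · exact hG1 _ (h1 e he)
  obtain ⟨G, hG⟩ := key Finset.univ
  exact ⟨G, fun e => hG e (Finset.mem_univ e)⟩

theorem NF.congr {f g : (ι → ℂ) → ℂ} (hf : NF x0 f) (h : ∀ᶠ x in 𝓝 x0, g x = f x) : NF x0 g := by
  obtain ⟨G, R, hR⟩ := hf
  refine ⟨G, R, ?_⟩
  filter_upwards [hR, h] with x h1 h2
  rw [h2, h1]

theorem NF_const {a : ℂ} (ha : IsAlgebraic ℚ a) : NF x0 (fun _ => a) := by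
  refine ⟨⟨Empty, inferInstance, fun k => k.elim, fun k => k.elim, fun k => k.elim,
    fun k => k.elim, fun k => k.elim⟩, C ⟨a, mem_algebraicClosure_iff.2 ha⟩, ?_⟩
  refine Filter.Eventually.of_forall fun x => ?_
  rw [aeval_C]
  rfl

theorem NF_coord (i : ι) (h : IsAlgebraic ℚ (x0 i)) : NF x0 (fun x => x i) := by
  refine ⟨⟨Unit, inferInstance, fun _ x => x i, ?_, ?_, fun _ j => if j = i then 1 else 0, ?_⟩,
    X (), ?_⟩
  · intro _
    refine Filter.Eventually.of_forall fun x => ?_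
    exact (ContinuousLinearMap.proj (R := ℂ) (φ := fun _ : ι => ℂ) i).differentiableAt
  · intro _
    exact h
  · intro _ j
    refine Filter.Eventually.of_forall fun x => ?_
    have h1 : fderiv ℂ (fun x : ι → ℂ => x i) x
        = ContinuousLinearMap.proj (R := ℂ) (φ := fun _ : ι => ℂ) i :=
      (ContinuousLinearMap.proj (R := ℂ) (φ := fun _ : ι => ℂ) i).fderiv
    simp only [pd, h1, ContinuousLinearMap.proj_apply]
    by_cases hj : j = i
    · subst hj
      simp
    · rw [Pi.single_eq_of_ne (Ne.symm hj), if_neg hj, map_zero]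
  · refine Filter.Eventually.of_forall fun x => ?_
    rw [aeval_X]

theorem NF_two {f g : (ι → ℂ) → ℂ} (hf : NF x0 f) (hg : NF x0 g) :
    ∃ G : GS ι x0, G.Mem f ∧ G.Mem g := by
  obtain ⟨G1, h1⟩ := hf
  obtain ⟨G2, h2⟩ := hg
  obtain ⟨G, hG1, hG2⟩ := GS.union G1 G2
  exact ⟨G, hG1 _ h1, hG2 _ h2⟩

theorem NF.add {f g : (ι → ℂ) → ℂ} (hf : NF x0 f) (hg : NF x0 g) : NF x0 (fun x => f x + g x) := by
  obtain ⟨G, ⟨R1, h1⟩, R2, h2⟩ := NF_two hf hg
  refine ⟨G, R1 + R2, ?_⟩
  filter_upwards [h1, h2] with x a b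
  rw [map_add, a, b]

theorem NF.mul {f g : (ι → ℂ) → ℂ} (hf : NF x0 f) (hg : NF x0 g) : NF x0 (fun x => f x * g x) := by
  obtain ⟨G, ⟨R1, h1⟩, R2, h2⟩ := NF_two hf hg
  refine ⟨G, R1 * R2, ?_⟩
  filter_upwards [h1, h2] with x a b
  rw [map_mul, a, b]

theorem NF.neg {f : (ι → ℂ) → ℂ} (hf : NF x0 f) : NF x0 (fun x => -f x) := by
  obtain ⟨G, R1, h1⟩ := hf
  refine ⟨G, -R1, ?_⟩
  filter_upwards [h1] with x a
  rw [map_neg, a]

theorem NF.sub {f g : (ι → ℂ) → ℂ} (hf : NF x0 f) (hg : NF x0 g) : NF x0 (fun x => f x - g x) := by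
  obtain ⟨G, ⟨R1, h1⟩, R2, h2⟩ := NF_two hf hg
  refine ⟨G, R1 - R2, ?_⟩
  filter_upwards [h1, h2] with x a b
  rw [map_sub, a, b]

theorem NF.pow {f : (ι → ℂ) → ℂ} (hf : NF x0 f) (n : ℕ) : NF x0 (fun x => f x ^ n) := by
  obtain ⟨G, R1, h1⟩ := hf
  refine ⟨G, R1 ^ n, ?_⟩
  filter_upwards [h1] with x a
  rw [map_pow, a]

theorem NF_sum {ε : Type} (s : Finset ε) (f : ε → (ι → ℂ) → ℂ) (h : ∀ e ∈ s, NF x0 (f e)) :
    NF x0 (fun x => ∑ e ∈ s, f e x) := by
  classical
  induction s using Finset.induction_on with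
  | empty =>
    simp only [Finset.sum_empty]
    exact NF_const isAlgebraic_zero
  | insert a s ha ih =>
    simp only [Finset.sum_insert ha]
    exact NF.add (h a (Finset.mem_insert_self a s))
      (ih fun e he => h e (Finset.mem_insert_of_mem he))

theorem NF_prod {ε : Type} (s : Finset ε) (f : ε → (ι → ℂ) → ℂ) (h : ∀ e ∈ s, NF x0 (f e)) :
    NF x0 (fun x => ∏ e ∈ s, f e x) := by
  classical
  induction s using Finset.induction_on with
  | empty =>
    simp only [Finset.prod_empty]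
    exact NF_const isAlgebraic_one
  | insert a s ha ih =>
    simp only [Finset.prod_insert ha]
    exact NF.mul (h a (Finset.mem_insert_self a s))
      (ih fun e he => h e (Finset.mem_insert_of_mem he))

theorem NF.alg {f : (ι → ℂ) → ℂ} (hf : NF x0 f) : IsAlgebraic ℚ (f x0) := by
  obtain ⟨G, R, hR⟩ := hf
  have h1 : f x0 = aeval (fun k => G.g k x0) R := hR.self_of_nhds
  have h2 : ∀ R : MvPolynomial G.κ (algebraicClosure ℚ ℂ),
      IsAlgebraic ℚ (aeval (fun k => G.g k x0) R) := by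
    intro R
    induction R using MvPolynomial.induction_on with
    | C a =>
      rw [aeval_C]
      exact mem_algebraicClosure_iff.1 a.2
    | add p q hp hq =>
      rw [map_add]
      exact hp.add hq
    | mul_X p n hp =>
      rw [map_mul, aeval_X]
      exact hp.mul (G.alg n)
  rw [h1]
  exact h2 R

end

end Pool.Agent.RHT
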