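import Pool.Agent.RHT.NFb

/-!
RHT-NFe. Integer coefficients. Plan: the polynomials `G.Q k j` and `R` have finitely many coefficients
`c` (`support`); new index type `κ' = G.κ ⊕ Fin N` where `Fin N` enumerates these coefficients, as
constant functions. `Q' (inl k) j = ∑ m ∈ support, X (inr c_m) * ∏ ... X (inl k') ^ m k'`
(integer polynomial), `Q' (inr _) j = 0`. (Lemma first: for a finite set of polynomials over
`algebraicClosure ℚ ℂ` there are finitely many algebraic numbers `w : Fin N → ℂ` such that each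
polynomial `Q` has an integer polynomial `Q' : MvPolynomial (κ ⊕ Fin N) ℤ` with
`aeval y Q = aeval (Sum.elim y w) Q'` for all `y`; induction on the finite family, `Sum`-reindexing,
or all coefficients at once through `Fintype` sigma types.)
-/

set_option autoImplicit false

namespace Pool.Agent.RHT

open Complex Finset Filter Topology MvPolynomial

noncomputable section

variable {ι : Type} [Fintype ι] [DecidableEq ι] {x0 : ι → ℂ}

/-- a differential ring of germs with integer coefficients -/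
structure GSZ (ι : Type) [Fintype ι] [DecidableEq ι] (x0 : ι → ℂ) where
  n : ℕ
  g : Fin n → (ι → ℂ) → ℂ
  hol : ∀ k, ∀ᶠ x in 𝓝 x0, DifferentiableAt ℂ (g k) x
  alg : ∀ k, IsAlgebraic ℚ (g k x0)
  Q : Fin n → ι → MvPolynomial (Fin n) ℤ
  der : ∀ k j, ∀ᶠ x in 𝓝 x0, pd j (g k) x = aeval (fun k => g k x) (Q k j)

private theorem nfe_conv {κ : Type} (S : Finset (algebraicClosure ℚ ℂ))
    (P : MvPolynomial κ (algebraicClosure ℚ ℂ)) (hS : ∀ m ∈ P.support, P.coeff m ∈ S) :
    ∃ P' : MvPolynomial (κ ⊕ S) ℤ, ∀ y : κ → ℂ,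
      (aeval (Sum.elim y (fun s : S => ((s : algebraicClosure ℚ ℂ) : ℂ))) P' : ℂ) = aeval y P := by
  classical
  refine ⟨∑ m ∈ P.support.attach, X (Sum.inr ⟨P.coeff m.1, hS m.1 m.2⟩) *
    rename Sum.inl (monomial m.1 (1 : ℤ)), fun y => ?_⟩
  rw [map_sum]
  have h2 : (aeval y P : ℂ) = ∑ m ∈ P.support.attach,
      ((P.coeff m.1 : algebraicClosure ℚ ℂ) : ℂ) * ∏ i ∈ m.1.support, y i ^ m.1 i := by
    rw [aeval_def, eval₂_eq]
    exact (Finset.sum_attach P.support (fun m => (algebraMap (algebraicClosure ℚ ℂ) ℂ) (P.coeff m) *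
      ∏ i ∈ m.support, y i ^ m i)).symm
  rw [h2]
  refine Finset.sum_congr rfl fun m _ => ?_
  rw [map_mul, aeval_X, aeval_rename, aeval_monomial]
  simp only [Sum.elim_inr, map_one, one_mul]
  congr 1

theorem exists_GSZ {f : (ι → ℂ) → ℂ} (h : NF x0 f) : ∃ (G : GSZ ι x0)
    (R : MvPolynomial (Fin G.n) ℤ), ∀ᶠ x in 𝓝 x0, f x = aeval (fun k => G.g k x) R := by
  classical
  obtain ⟨G, R, hR⟩ := h
  let := G.fκ
  set S : Finset (algebraicClosure ℚ ℂ) :=
    R.support.image (fun m => R.coeff m) ∪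
      (Finset.univ : Finset (G.κ × ι)).biUnion (fun p => (G.Q p.1 p.2).support.image
        (fun m => (G.Q p.1 p.2).coeff m)) with hSdef
  have hSR : ∀ m ∈ R.support, R.coeff m ∈ S := by
    intro m hm
    exact Finset.mem_union_left _ (Finset.mem_image_of_mem _ hm)
  have hSQ : ∀ k j, ∀ m ∈ (G.Q k j).support, (G.Q k j).coeff m ∈ S := by
    intro k j m hm
    refine Finset.mem_union_right _ (Finset.mem_biUnion.2 ⟨(k, j), Finset.mem_univ _, ?_⟩)
    exact Finset.mem_image_of_mem _ hm
  obtain ⟨R', hR'⟩ := nfe_conv S R hSR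
  choose Q' hQ' using fun k j => nfe_conv S (G.Q k j) (hSQ k j)
  set e : (G.κ ⊕ S) ≃ Fin (Fintype.card (G.κ ⊕ S)) := Fintype.equivFin _ with he
  set W : (G.κ ⊕ S) → (ι → ℂ) → ℂ :=
    Sum.elim G.g (fun (s : S) _ => ((s : algebraicClosure ℚ ℂ) : ℂ)) with hW
  have hWx : ∀ x : ι → ℂ, (fun k => W k x) =
      Sum.elim (fun k => G.g k x) (fun s : S => ((s : algebraicClosure ℚ ℂ) : ℂ)) := by
    intro x
    funext k
    rcases k with k | k
    · rfl
    · rfl
  have hren : ∀ (P : MvPolynomial (G.κ ⊕ S) ℤ) (x : ι → ℂ),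
      (aeval (fun k => W (e.symm k) x) (rename e P) : ℂ) = aeval (fun k => W k x) P := by
    intro P x
    rw [aeval_rename]
    congr 2
    funext k
    simp only [Function.comp, Equiv.symm_apply_apply]
  refine ⟨⟨Fintype.card (G.κ ⊕ S), fun k => W (e.symm k), ?_, ?_,
    fun k j => Sum.elim (fun k1 => rename e (Q' k1 j)) (fun _ => 0) (e.symm k), ?_⟩,
    rename e R', ?_⟩
  · intro k
    show ∀ᶠ x in 𝓝 x0, DifferentiableAt ℂ (W (e.symm k)) x
    rcases e.symm k with k1 | s
    · exact G.hol k1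
    · exact Filter.Eventually.of_forall fun x => differentiableAt_const _
  · intro k
    show IsAlgebraic ℚ (W (e.symm k) x0)
    rcases e.symm k with k1 | s
    · exact G.alg k1
    · exact mem_algebraicClosure_iff.1 s.1.2
  · intro k j
    show ∀ᶠ x in 𝓝 x0, pd j (W (e.symm k)) x = aeval (fun k => W (e.symm k) x)
      (Sum.elim (fun k1 => rename e (Q' k1 j)) (fun _ => 0) (e.symm k) : MvPolynomial _ ℤ)
    rcases e.symm k with k1 | s
    · filter_upwards [G.der k1 j] with x hx
      show pd j (G.g k1) x = aeval (fun k => W (e.symm k) x) (rename e (Q' k1 j))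
      rw [hren, hWx, hQ', ← hx]
    · refine Filter.Eventually.of_forall fun x => ?_
      show fderiv ℂ (fun _ : ι → ℂ => ((s : algebraicClosure ℚ ℂ) : ℂ)) x (Pi.single j 1) =
        aeval (fun k => W (e.symm k) x) (0 : MvPolynomial _ ℤ)
      rw [map_zero, fderiv_fun_const]
      rfl
  · filter_upwards [hR] with x hx
    rw [hx]
    show _ = aeval (fun k => W (e.symm k) x) (rename e R')
    rw [hren, hWx, hR']

end

end Pool.Agent.RHT
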