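import Pool.Agent.RHT.NFc

/-!
RHT-NFm. Matrices of germs. Plan: `Matrix.det_apply` is a sum over permutations of products of
entries; `W⁻¹ = (det W)⁻¹ • adjugate W`, the entries of the adjugate are determinants
(`Matrix.adjugate_apply`: `det (updateRow W j (Pi.single i 1))`, entries `W` or `0`, `1`), `NF_inv`.
(`Matrix.inv_def`, `Ring.inverse_eq_inv'`.)
-/

set_option autoImplicit false

namespace Pool.Agent.RHT

open Complex Finset Filter Topology MvPolynomial

noncomputable section

variable {ι : Type} [Fintype ι] [DecidableEq ι] {x0 : ι → ℂ}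

theorem NF_det {μ : Type} [Fintype μ] [DecidableEq μ] (W : (ι → ℂ) → Matrix μ μ ℂ)
    (h : ∀ i j, NF x0 (fun x => W x i j)) : NF x0 (fun x => (W x).det) := by
  have h1 : (fun x => (W x).det) = fun x => ∑ σ : Equiv.Perm μ, ((Equiv.Perm.sign σ : ℤ) : ℂ) *
      ∏ i, W x (σ i) i := by
    funext x
    exact Matrix.det_apply' _
  rw [h1]
  refine NF_sum _ _ fun σ _ => ?_
  refine (NF_const (isAlgebraic_intCast _)).mul ?_
  exact NF_prod _ _ fun i _ => h _ _

theorem NF_inv_matrix {μ : Type} [Fintype μ] [DecidableEq μ] (W : (ι → ℂ) → Matrix μ μ ℂ)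
    (h : ∀ i j, NF x0 (fun x => W x i j)) (h0 : (W x0).det ≠ 0) (i j : μ) :
    NF x0 (fun x => (W x)⁻¹ i j) := by
  have h1 : ∀ x, (W x)⁻¹ i j = ((W x).det)⁻¹ * ((W x).updateRow j (Pi.single i 1)).det := by
    intro x
    rw [Matrix.inv_def, Ring.inverse_eq_inv', Matrix.smul_apply, smul_eq_mul,
      Matrix.adjugate_apply]
  have h2 : (fun x => (W x)⁻¹ i j) =
      fun x => ((W x).det)⁻¹ * ((W x).updateRow j (Pi.single i 1)).det := funext h1
  rw [h2]
  refine (NF_inv (NF_det W h) h0).mul (NF_det _ fun k l => ?_)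
  by_cases hk : k = j
  · subst hk
    have h3 : (fun x => (W x).updateRow k (Pi.single i 1) k l) =
        fun _ => (Pi.single i (1 : ℂ) : μ → ℂ) l := by
      funext x
      rw [Matrix.updateRow_self]
    rw [h3]
    refine NF_const ?_
    rw [Pi.single_apply]
    split_ifs
    · exact isAlgebraic_one
    · exact isAlgebraic_zero
  · have h3 : (fun x => (W x).updateRow j (Pi.single i 1) k l) = fun x => W x k l := by
      funext x
      rw [Matrix.updateRow_ne hk]
    rw [h3]
    exact h k l

end

end Pool.Agent.RHT
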