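import Pool.Agent.RHT.NFz
import Pool.Agent.RHK.Jet

/-!
RHT-NFt. Entire functions in `NF 0` have algebraic Taylor coefficients of the right size. Plan:
`exists_GSZ`, `Del_size` give `d`, `B`, `R`; put `d0 = totalDegree R`. By induction on `A`
(multi-indices, adding `Pi.single j 1`, as in `Pool.Agent.RHK.Iter`/`Jet`: `iter_add_single`):
there are an entire `t : (ι → ℂ) → ℂ` and `P` with `iter dz A (fun v => s v.1) = fun v => t v.1`,
`t = aeval (g ·) P` near `0`, `totalDegree P ≤ d0 + |A| d`, `L1 P ≤ L1 R * (B (d0 + |A| d)) ^ |A|`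
(`dz j (fun v => t v.1) = fun v => pd j t v.1`, `GSZ.Del_germ`). `jet1 s A = t 0 = aeval (g · 0) P`.
So `AlgTay` with `q = G.n`, `w k = g k 0`, `D = 1`; `C` large:
`d0 + N d ≤ C (N+1) log (N+2)^2` and `log L1 ≤ log (L1 R + 1) + N log (B (d0 + N d) + 1)`
`≤ C (N+1) log (N+2)^2` (`log 2 > 1/2`).
-/

set_option autoImplicit false

namespace Pool.Agent.RHT

open Complex Finset Filter Topology MvPolynomial Pool.Agent.RHK

noncomputable section

variable {ι : Type} [Fintype ι] [DecidableEq ι]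

private theorem nft_dz (j : ι) {t : (ι → ℂ) → ℂ} (ht : Differentiable ℂ t) :
    dz j (fun v : VV ι => t v.1) = fun v => pd j t v.1 := by
  funext v
  have h1 : HasFDerivAt (fun v : VV ι => t v.1)
      ((fderiv ℂ t v.1).comp (ContinuousLinearMap.fst ℂ (ι → ℂ) (ι → ℂ))) v :=
    (ht v.1).hasFDerivAt.comp v hasFDerivAt_fst
  unfold dz pd
  rw [h1.fderiv]
  rfl

private theorem nft_pd (j : ι) {t : (ι → ℂ) → ℂ} (ht : Differentiable ℂ t) :
    Differentiable ℂ (pd j t) := by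
  have h1 : Differentiable ℂ (dz j (fun v : VV ι => t v.1)) :=
    ent_dz j (ht.comp differentiable_fst)
  have h2 : pd j t = fun z => dz j (fun v : VV ι => t v.1) (z, 0) := by
    rw [nft_dz j ht]
  rw [h2]
  exact h1.comp (differentiable_id.prodMk (differentiable_const 0))

private theorem nft_ind {s : (ι → ℂ) → ℂ} (hs : Differentiable ℂ s) (G : GSZ ι 0)
    (R : MvPolynomial (Fin G.n) ℤ) (hR : ∀ᶠ x in 𝓝 0, s x = aeval (fun k => G.g k x) R) {d B : ℕ}
    (hdB : ∀ (j : ι) (P : MvPolynomial (Fin G.n) ℤ),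
      (G.Del j P).totalDegree ≤ P.totalDegree + d ∧
      L1 (G.Del j P) ≤ P.totalDegree * B * L1 P) (N : ℕ) (A : ι → ℕ) :
    ∑ i, A i ≤ N → ∃ (t : (ι → ℂ) → ℂ) (P : MvPolynomial (Fin G.n) ℤ), Differentiable ℂ t ∧
      iter dz A (fun v : VV ι => s v.1) = (fun v => t v.1) ∧
      (∀ᶠ x in 𝓝 0, t x = aeval (fun k => G.g k x) P) ∧
      P.totalDegree ≤ R.totalDegree + (∑ i, A i) * d ∧
      L1 P ≤ L1 R * (((B * (R.totalDegree + N * d) : ℕ) : ℝ)) ^ (∑ i, A i) := by
  refine exp_induction (Q := fun A => ∑ i, A i ≤ N → ∃ (t : (ι → ℂ) → ℂ)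
      (P : MvPolynomial (Fin G.n) ℤ), Differentiable ℂ t ∧
      iter dz A (fun v : VV ι => s v.1) = (fun v => t v.1) ∧
      (∀ᶠ x in 𝓝 0, t x = aeval (fun k => G.g k x) P) ∧
      P.totalDegree ≤ R.totalDegree + (∑ i, A i) * d ∧
      L1 P ≤ L1 R * (((B * (R.totalDegree + N * d) : ℕ) : ℝ)) ^ (∑ i, A i)) ?_ ?_ A
  · intro _
    refine ⟨s, R, hs, iter_zero _ _, hR, by simp, by simp⟩
  · intro m j ih hN
    have es : ∑ k, (m + (Pi.single j 1 : ι → ℕ)) k = ∑ k, m k + 1 := by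
      simp only [Pi.add_apply]
      rw [Finset.sum_add_distrib, Finset.sum_pi_single']
      simp
    rw [es] at hN ⊢
    obtain ⟨t, P, ht, h1, h2, h3, h4⟩ := ih (by omega)
    refine ⟨pd j t, G.Del j P, nft_pd j ht, ?_, G.Del_germ j P h2, ?_, ?_⟩
    · have hd : Differentiable ℂ (fun v : VV ι => s v.1) := hs.comp differentiable_fst
      rw [iter_add_single comm_dz m j hd, h1, nft_dz j ht]
    · have h5 := (hdB j P).1
      have h6 : (∑ k, m k + 1) * d = (∑ k, m k) * d + d := by ring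
      omega
    · refine (hdB j P).2.trans ?_
      have h5 : (P.totalDegree : ℝ) * B ≤ ((B * (R.totalDegree + N * d) : ℕ) : ℝ) := by
        have h6 : P.totalDegree * B ≤ B * (R.totalDegree + N * d) := by
          rw [mul_comm]
          refine Nat.mul_le_mul_left _ (h3.trans ?_)
          exact Nat.add_le_add_left (Nat.mul_le_mul_right _ (by omega)) _
        exact_mod_cast h6
      calc (P.totalDegree : ℝ) * B * L1 P
          ≤ ((B * (R.totalDegree + N * d) : ℕ) : ℝ) *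
            (L1 R * (((B * (R.totalDegree + N * d) : ℕ) : ℝ)) ^ (∑ i, m i)) :=
            mul_le_mul h5 h4 (L1_nonneg _) (Nat.cast_nonneg _)
        _ = L1 R * (((B * (R.totalDegree + N * d) : ℕ) : ℝ)) ^ (∑ i, m i + 1) := by
            rw [pow_succ]
            ring

private theorem nft_log (N : ℕ) : 1 / 2 ≤ Real.log (N + 2) := by
  have h1 : Real.log 2 ≤ Real.log (N + 2) := by
    apply Real.log_le_log (by norm_num)
    have : (0 : ℝ) ≤ N := Nat.cast_nonneg N
    linarith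
  have h2 := Real.log_two_gt_d9
  linarith

theorem NF_algTay {s : (ι → ℂ) → ℂ} (hs : Differentiable ℂ s) (h : NF 0 s) : AlgTay s := by
  obtain ⟨G, R, hR⟩ := exists_GSZ h
  obtain ⟨d, B, hdB⟩ := G.Del_size
  obtain ⟨M, hM⟩ : ∃ M : ℝ, M = ((B + 1) * (R.totalDegree + d + 1) : ℕ) := ⟨_, rfl⟩
  have hM1 : 1 ≤ M := by
    rw [hM]
    have h1 : 1 ≤ (B + 1) * (R.totalDegree + d + 1) := Nat.mul_pos (by omega) (by omega)
    exact_mod_cast h1
  have hR0 : 0 ≤ L1 R := L1_nonneg R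
  refine ⟨G.n, fun k => G.g k 0, 4 * ((R.totalDegree : ℝ) + d) + 4 * (L1 R + 1) + 4 * M + 2,
    G.alg, by positivity, ?_⟩
  intro N
  have hN0 : (0 : ℝ) ≤ N := Nat.cast_nonneg N
  obtain ⟨l, hl⟩ : ∃ l : ℝ, l = Real.log (N + 2) := ⟨_, rfl⟩
  have hl2 : 1 / 2 ≤ l := hl ▸ nft_log N
  have hlsq : 1 / 4 ≤ l ^ 2 := by nlinarith
  obtain ⟨X, hX⟩ : ∃ X : ℝ, X = ((N : ℝ) + 1) * l ^ 2 := ⟨_, rfl⟩
  have hX1 : ((N : ℝ) + 1) / 4 ≤ X := by
    rw [hX]
    nlinarith
  have hX2 : (N : ℝ) * l ≤ 2 * X := by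
    rw [hX]
    nlinarith [mul_nonneg hN0 (by linarith : (0:ℝ) ≤ l), mul_nonneg hN0
      (by nlinarith : (0:ℝ) ≤ 2 * l ^ 2 - l), sq_nonneg l]
  have hS : (4 * ((R.totalDegree : ℝ) + d) + 4 * (L1 R + 1) + 4 * M + 2) * ((N : ℝ) + 1) *
      Real.log (N + 2) ^ 2 =
      (4 * ((R.totalDegree : ℝ) + d) + 4 * (L1 R + 1) + 4 * M + 2) * X := by
    rw [hX, ← hl]
    ring
  rw [hS]
  have hX0 : 0 ≤ X := by linarith
  have hd0 : (0 : ℝ) ≤ (R.totalDegree : ℝ) + d := by positivity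
  refine ⟨1, one_pos, ?_, ?_⟩
  · rw [Nat.cast_one]
    exact Real.one_le_exp (mul_nonneg (by positivity) hX0)
  intro A hA
  obtain ⟨t, P, ht, h1, h2, h3, h4⟩ := nft_ind hs G R hR hdB N A hA
  refine ⟨P, ⟨?_, ?_⟩, ?_⟩
  · have h5 : P.totalDegree ≤ (R.totalDegree + d) * (N + 1) := by
      refine h3.trans ?_
      have h6 : (∑ i, A i) * d ≤ N * d := Nat.mul_le_mul_right _ hA
      nlinarith
    have h6 : (P.totalDegree : ℝ) ≤ ((R.totalDegree : ℝ) + d) * ((N : ℝ) + 1) := by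
      exact_mod_cast h5
    have h7 : ((R.totalDegree : ℝ) + d) * ((N : ℝ) + 1) ≤ ((R.totalDegree : ℝ) + d) * (4 * X) :=
      mul_le_mul_of_nonneg_left (by linarith) hd0
    have h8 : 0 ≤ (4 * (L1 R + 1) + 4 * M + 2) * X := mul_nonneg (by positivity) hX0
    nlinarith
  · refine h4.trans ?_
    have h5 : L1 R ≤ Real.exp (L1 R) := by
      have := Real.add_one_le_exp (L1 R)
      linarith
    have h6 : (((B * (R.totalDegree + N * d) : ℕ) : ℝ)) ≤ Real.exp (M + l) := by
      have h7 : B * (R.totalDegree + N * d) ≤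
          ((B + 1) * (R.totalDegree + d + 1)) * (N + 2) := by
        have h8 : R.totalDegree + N * d ≤ (R.totalDegree + d + 1) * (N + 2) := by nlinarith
        calc B * (R.totalDegree + N * d) ≤ (B + 1) * ((R.totalDegree + d + 1) * (N + 2)) :=
              Nat.mul_le_mul (Nat.le_succ _) h8
          _ = _ := by ring
      have h9 : (((B * (R.totalDegree + N * d) : ℕ) : ℝ)) ≤ M * ((N : ℝ) + 2) := by
        rw [hM]
        exact_mod_cast h7
      have h10 : M ≤ Real.exp M := by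
        have := Real.add_one_le_exp M
        linarith
      have h11 : (N : ℝ) + 2 = Real.exp l := by
        rw [hl, Real.exp_log (by linarith)]
      rw [Real.exp_add, ← h11]
      exact h9.trans (mul_le_mul_of_nonneg_right h10 (by linarith))
    have h7 : 1 ≤ Real.exp (M + l) := Real.one_le_exp (by linarith)
    calc L1 R * (((B * (R.totalDegree + N * d) : ℕ) : ℝ)) ^ (∑ i, A i)
        ≤ Real.exp (L1 R) * Real.exp (M + l) ^ N := by
          refine mul_le_mul h5 ?_ (by positivity) (Real.exp_pos _).le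
          exact (pow_le_pow_left₀ (Nat.cast_nonneg _) h6 _).trans (pow_le_pow_right₀ h7 hA)
      _ = Real.exp (L1 R + N * (M + l)) := by
          rw [← Real.exp_nat_mul, ← Real.exp_add]
      _ ≤ _ := by
          refine Real.exp_le_exp.2 ?_
          have h8 : L1 R ≤ 4 * (L1 R + 1) * X := by nlinarith
          have h9 : (N : ℝ) * M ≤ 4 * M * X := by nlinarith
          have h10 : 0 ≤ 4 * ((R.totalDegree : ℝ) + d) * X := by positivity
          nlinarith
  · rw [Nat.cast_one, one_mul]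
    have h5 : jet1 s A = t 0 := by
      unfold jet1 jet
      rw [iter_zero, h1]
      rfl
    rw [h5]
    exact h2.self_of_nhds

end

end Pool.Agent.RHT
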