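import Pool.Agent.RHT.NFe

/-!
RHT-NFz. Size of the iterated derivatives.
-/

set_option autoImplicit false

namespace Pool.Agent.RHT

open Complex Finset Filter Topology MvPolynomial Pool.Agent.RHK

noncomputable section

variable {ι : Type} [Fintype ι] [DecidableEq ι] {x0 : ι → ℂ}

/-- the derivation of polynomials -/
def GSZ.Del (G : GSZ ι x0) (j : ι) (P : MvPolynomial (Fin G.n) ℤ) : MvPolynomial (Fin G.n) ℤ :=
  ∑ k, pderiv k P * G.Q k j

omit [DecidableEq ι] in
private theorem nfz_fderiv {κ : Type} [Fintype κ] (R : MvPolynomial κ ℤ)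
    (g : κ → (ι → ℂ) → ℂ) (x : ι → ℂ) (hg : ∀ k, DifferentiableAt ℂ (g k) x) :
    ∃ L : (ι → ℂ) →L[ℂ] ℂ, HasFDerivAt (fun y => (aeval (fun k => g k y) R : ℂ)) L x ∧
      ∀ v, L v = ∑ k, (aeval (fun k => g k x) (pderiv k R) : ℂ) * fderiv ℂ (g k) x v := by
  classical
  induction R using MvPolynomial.induction_on with
  | C a =>
    have h1 : (fun y => (aeval (fun k => g k y) (C a : MvPolynomial κ ℤ) : ℂ)) =
        fun _ => (algebraMap ℤ ℂ a) := by
      funext y
      exact aeval_C _ _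
    rw [h1]
    refine ⟨0, hasFDerivAt_const _ _, fun v => ?_⟩
    symm
    refine Finset.sum_eq_zero fun k _ => ?_
    rw [pderiv_C, map_zero, zero_mul]
  | add p q hp hq =>
    obtain ⟨L1, hp1, hp2⟩ := hp
    obtain ⟨L2, hq1, hq2⟩ := hq
    have h1 : (fun y => (aeval (fun k => g k y) (p + q) : ℂ)) =
        fun y => aeval (fun k => g k y) p + aeval (fun k => g k y) q := by
      funext y
      exact map_add _ _ _
    rw [h1]
    refine ⟨L1 + L2, hp1.fun_add hq1, fun v => ?_⟩
    change L1 v + L2 v = _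
    rw [hp2, hq2, ← Finset.sum_add_distrib]
    refine Finset.sum_congr rfl fun k _ => ?_
    rw [map_add, map_add, add_mul]
  | mul_X p n hp =>
    obtain ⟨L1, hp1, hp2⟩ := hp
    have h1 : (fun y => (aeval (fun k => g k y) (p * X n) : ℂ)) =
        fun y => aeval (fun k => g k y) p * g n y := by
      funext y
      rw [map_mul, aeval_X]
    rw [h1]
    refine ⟨_, hp1.fun_mul (hg n).hasFDerivAt, fun v => ?_⟩
    change (aeval (fun k => g k x) p : ℂ) * fderiv ℂ (g n) x v + g n x * L1 v = _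
    have h2 : ∀ k, (aeval (fun k => g k x) (pderiv k (p * X n)) : ℂ) * fderiv ℂ (g k) x v =
        (if k = n then (aeval (fun k => g k x) p : ℂ) * fderiv ℂ (g k) x v else 0) +
          g n x * ((aeval (fun k => g k x) (pderiv k p) : ℂ) * fderiv ℂ (g k) x v) := by
      intro k
      rw [Derivation.leibniz, pderiv_X, map_add, add_mul, smul_eq_mul, smul_eq_mul, map_mul, map_mul,
        aeval_X, mul_assoc, mul_assoc]
      congr 1
      by_cases hk : k = n
      · subst hk
        rw [Pi.single_eq_same, map_one, one_mul, if_pos rfl]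
      · rw [Pi.single_eq_of_ne (Ne.symm hk), map_zero, zero_mul, mul_zero, if_neg hk]
    rw [Finset.sum_congr rfl fun k _ => h2 k, Finset.sum_add_distrib, Finset.sum_ite_eq',
      if_pos (Finset.mem_univ _), hp2, Finset.mul_sum]

theorem GSZ.Del_germ (G : GSZ ι x0) (j : ι) (P : MvPolynomial (Fin G.n) ℤ) {f : (ι → ℂ) → ℂ}
    (h : ∀ᶠ x in 𝓝 x0, f x = aeval (fun k => G.g k x) P) :
    ∀ᶠ x in 𝓝 x0, pd j f x = aeval (fun k => G.g k x) (G.Del j P) := by
  filter_upwards [h.eventually_nhds, Filter.eventually_all.2 G.hol,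
    Filter.eventually_all.2 fun k => G.der k j] with x hx hol hd
  obtain ⟨L, h1, h2⟩ := nfz_fderiv P G.g x hol
  have hx' : f =ᶠ[𝓝 x] fun y => (aeval (fun k => G.g k y) P : ℂ) := hx
  rw [pd, hx'.fderiv_eq, h1.fderiv, h2, GSZ.Del, map_sum]
  refine Finset.sum_congr rfl fun k _ => ?_
  rw [map_mul, ← hd k]
  rfl

private theorem nfz_pderiv {σ : Type} (P : MvPolynomial σ ℤ) (k : σ) :
    pderiv k P = ∑ e ∈ P.support, monomial (e - Finsupp.single k 1) (P.coeff e * (e k : ℤ)) := by
  conv_lhs => rw [P.as_sum]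
  rw [map_sum]
  refine Finset.sum_congr rfl fun e _ => ?_
  rw [pderiv_monomial]

private theorem nfz_deg {σ : Type} (P : MvPolynomial σ ℤ) (k : σ) :
    (pderiv k P).totalDegree ≤ P.totalDegree := by
  rw [nfz_pderiv]
  refine totalDegree_finsetSum_le fun e he => ?_
  refine (totalDegree_monomial_le _ _).trans ?_
  have h1 : (e - Finsupp.single k 1) ≤ e := tsub_le_self
  have h2 : (e - Finsupp.single k 1).degree ≤ e.degree := Finsupp.degree_mono h1
  have h3 := le_totalDegree he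
  have h4 : ∀ v : σ →₀ ℕ, (v.sum fun _ n => n) = v.degree := fun v => rfl
  rw [h4] at h3
  exact h2.trans h3

private theorem nfz_L1 {n : ℕ} (P : MvPolynomial (Fin n) ℤ) :
    ∑ k, RHK.L1 (pderiv k P) ≤ P.totalDegree * RHK.L1 P := by
  have h1 : ∀ k : Fin n, RHK.L1 (pderiv k P) ≤
      ∑ e ∈ P.support, (e k : ℝ) * |((P.coeff e : ℤ) : ℝ)| := by
    intro k
    rw [nfz_pderiv]
    refine (L1_sum_le _ _).trans ?_
    refine Finset.sum_le_sum fun e _ => ?_
    rw [L1_monomial]
    push_cast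
    rw [abs_mul, Nat.abs_cast, mul_comm]
  refine (Finset.sum_le_sum fun k _ => h1 k).trans ?_
  rw [Finset.sum_comm]
  unfold RHK.L1
  rw [Finset.mul_sum]
  refine Finset.sum_le_sum fun e he => ?_
  rw [← Finset.sum_mul]
  refine mul_le_mul_of_nonneg_right ?_ (abs_nonneg _)
  have h3 := le_totalDegree he
  have h4 : (e.sum fun _ n => n) = ∑ k, e k := Finsupp.sum_fintype _ _ fun _ => rfl
  rw [h4] at h3
  exact_mod_cast h3

theorem GSZ.Del_size (G : GSZ ι x0) : ∃ d B : ℕ, ∀ (j : ι) (P : MvPolynomial (Fin G.n) ℤ),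
    (G.Del j P).totalDegree ≤ P.totalDegree + d ∧
    L1 (G.Del j P) ≤ P.totalDegree * B * L1 P := by
  have hB0 : ∀ k j, RHK.L1 (G.Q k j) ≤ ∑ k, ∑ j, RHK.L1 (G.Q k j) := by
    intro k j
    refine (Finset.single_le_sum (f := fun j => RHK.L1 (G.Q k j))
      (fun j _ => L1_nonneg _) (Finset.mem_univ j)).trans ?_
    exact Finset.single_le_sum (f := fun k => ∑ j, RHK.L1 (G.Q k j))
      (fun k _ => Finset.sum_nonneg fun j _ => L1_nonneg _) (Finset.mem_univ k)
  obtain ⟨B, hB⟩ := exists_nat_ge (∑ k, ∑ j, RHK.L1 (G.Q k j))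
  refine ⟨∑ k, ∑ j, (G.Q k j).totalDegree, B, fun j P => ⟨?_, ?_⟩⟩
  · unfold GSZ.Del
    refine totalDegree_finsetSum_le fun k _ => ?_
    refine (totalDegree_mul _ _).trans (add_le_add (nfz_deg P k) ?_)
    refine (Finset.single_le_sum (f := fun j => (G.Q k j).totalDegree)
      (fun j _ => Nat.zero_le _) (Finset.mem_univ j)).trans ?_
    exact Finset.single_le_sum (f := fun k => ∑ j, (G.Q k j).totalDegree)
      (fun k _ => Nat.zero_le _) (Finset.mem_univ k)
  · unfold GSZ.Del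
    refine (L1_sum_le _ _).trans ?_
    have h1 : ∀ k, RHK.L1 (pderiv k P * G.Q k j) ≤ RHK.L1 (pderiv k P) * B := by
      intro k
      refine (L1_mul_le _ _).trans ?_
      exact mul_le_mul_of_nonneg_left ((hB0 k j).trans hB) (L1_nonneg _)
    refine (Finset.sum_le_sum fun k _ => h1 k).trans ?_
    rw [← Finset.sum_mul]
    have h2 := mul_le_mul_of_nonneg_right (nfz_L1 P) (Nat.cast_nonneg (α := ℝ) B)
    refine h2.trans (le_of_eq ?_)
    ring

end

end Pool.Agent.RHT
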