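import Pool.Agent.RHT.Span
import Pool.Agent.RHT.SDefs

/-!
RHT-NewL. The new part of the lattice. Plan: `Φ_D = cyclotomic D ℤ`, `X^D - 1 = Ψ Φ_D`; `Ψ`, `Φ_D` are
coprime over `ℚ` (`X^D - 1` is separable), so `u Ψ + v Φ_D = N` with `u, v ∈ ℤ[X]`, `N > 0` an
integer. For `c : ℕ → ℤ` put `p = ∑_{j<D} c_j X^j`: `poly_mem` for `u Ψ p`: at `ζ^t`, `t` prime to
`D`, the value is `N p(ζ^t)`; for `0 < t < D` not prime to `D` it is `0`
(`Φ_D(ζ^t) ≠ 0`, `ζ^t` is a primitive root of smaller order).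
-/

set_option autoImplicit false

namespace Pool.Agent.RHT.Par

open Complex ComplexConjugate Finset

noncomputable section

variable (P : Par)

private theorem newL_poly (D : ℕ) (hD : 0 < D) :
    ∃ (N : ℕ) (q : Polynomial ℤ), 0 < N ∧ ∀ z : ℂ, z ^ D = 1 →
      (IsPrimitiveRoot z D → Polynomial.aeval z q = (N : ℂ)) ∧
      (¬ IsPrimitiveRoot z D → Polynomial.aeval z q = 0) := by
  obtain ⟨Psi, hPsi⟩ := Polynomial.cyclotomic.dvd_X_pow_sub_one D ℤ
  have hsep : ((Polynomial.X : Polynomial ℚ) ^ D - 1).Separable := by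
    rw [Polynomial.X_pow_sub_one_separable_iff]
    exact_mod_cast hD.ne'
  have hfac : ((Polynomial.X : Polynomial ℚ) ^ D - 1) =
      (Polynomial.cyclotomic D ℤ).map (algebraMap ℤ ℚ) * Psi.map (algebraMap ℤ ℚ) := by
    rw [← Polynomial.map_mul, ← hPsi]
    simp
  rw [hfac] at hsep
  obtain ⟨v, u, huv⟩ := hsep.isCoprime
  obtain ⟨b, hbm, hb⟩ := IsLocalization.integerNormalization_spec (nonZeroDivisors ℤ) u
  set U := IsLocalization.integerNormalization (nonZeroDivisors ℤ) u with hU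
  have hb0 : (b : ℤ) ≠ 0 := nonZeroDivisors.ne_zero hbm
  refine ⟨(b : ℤ).natAbs, Polynomial.C (Int.sign (b : ℤ)) * (U * Psi), Int.natAbs_pos.2 hb0, ?_⟩
  intro z hz
  have hDC : NeZero (D : ℂ) := ⟨by exact_mod_cast hD.ne'⟩
  have hcyc : Polynomial.aeval z (Polynomial.cyclotomic D ℤ) =
      (Polynomial.cyclotomic D ℂ).eval z := by
    rw [← Polynomial.map_cyclotomic D (Int.castRingHom ℂ), Polynomial.eval_map]
    rfl
  have hroot : (Polynomial.cyclotomic D ℂ).eval z = 0 ↔ IsPrimitiveRoot z D := by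
    rw [← Polynomial.isRoot_cyclotomic_iff]
    rfl
  constructor
  · intro hp
    have h0 : Polynomial.aeval z (Polynomial.cyclotomic D ℤ) = 0 := by
      rw [hcyc, hroot]
      exact hp
    have h1 := congrArg (Polynomial.aeval z) huv
    rw [map_add, map_mul, map_mul, map_one, Polynomial.aeval_map_algebraMap,
      Polynomial.aeval_map_algebraMap, h0, mul_zero, zero_add] at h1
    have h2 : Polynomial.aeval z U = (b : ℤ) * Polynomial.aeval z u := by
      have h3 := congrArg (Polynomial.aeval z) hb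
      rw [Polynomial.aeval_map_algebraMap] at h3
      rw [h3]
      rw [zsmul_eq_mul, map_mul, map_intCast]
    rw [map_mul, map_mul, h2, mul_assoc, h1, mul_one, Polynomial.aeval_C]
    have h5 : (algebraMap ℤ ℂ) (Int.sign (b : ℤ)) * ((b : ℤ) : ℂ) =
        ((Int.sign (b : ℤ) * (b : ℤ) : ℤ) : ℂ) := by
      push_cast
      rfl
    rw [h5, Int.sign_mul_self_eq_natAbs]
    exact Int.cast_natCast _
  · intro hp
    have h0 : Polynomial.aeval z (Polynomial.cyclotomic D ℤ) ≠ 0 := by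
      rw [hcyc]
      intro h
      exact hp (hroot.1 h)
    have h1 := congrArg (Polynomial.aeval z) hPsi
    rw [map_mul, map_sub, map_pow, Polynomial.aeval_X, map_one, hz, sub_self] at h1
    have h2 := (mul_eq_zero.1 h1.symm).resolve_left h0
    rw [map_mul, map_mul, h2, mul_zero, mul_zero]

theorem new_lattice : ∃ N : ℕ, 0 < N ∧ ∀ c : ℕ → ℤ,
    (fun t : P.Ix => if Nat.Coprime (t : ℕ) P.D then (N : ℂ) * RHK.emb P.D c t * P.Pe t else 0) ∈
      P.Lam := by
  have hD : 0 < P.D := by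
    have := P.hD
    omega
  obtain ⟨N, q, hN, hq⟩ := newL_poly P.D hD
  refine ⟨N, hN, fun c => ?_⟩
  have hprim : IsPrimitiveRoot P.ze P.D := Complex.isPrimitiveRoot_exp P.D hD.ne'
  have hmem := P.poly_mem (q * ∑ j ∈ range P.D, Polynomial.C (c j) * Polynomial.X ^ j)
  convert hmem using 1
  funext t
  have hz : (P.ze ^ (t : ℕ)) ^ P.D = 1 := by
    rw [← pow_mul, mul_comm, pow_mul, hprim.pow_eq_one, one_pow]
  have hiff : IsPrimitiveRoot (P.ze ^ (t : ℕ)) P.D ↔ Nat.Coprime (t : ℕ) P.D :=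
    hprim.pow_iff_coprime hD (t : ℕ)
  have hemb : RHK.emb P.D c t = Polynomial.aeval (P.ze ^ (t : ℕ))
      (∑ j ∈ range P.D, Polynomial.C (c j) * Polynomial.X ^ j) := by
    rw [map_sum]
    unfold RHK.emb
    apply Finset.sum_congr rfl
    intro j _
    rw [map_mul, map_pow, Polynomial.aeval_X, Polynomial.aeval_C]
    have h1 : (P.ze ^ (t : ℕ)) ^ j = cexp (2 * Real.pi * I * ((t : ℕ) * j : ℕ) / P.D) := by
      rw [← pow_mul]
      unfold ze
      rw [← Complex.exp_nat_mul]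
      congr 1
      push_cast
      ring
    rw [h1]
    rfl
  by_cases hc : Nat.Coprime (t : ℕ) P.D
  · rw [if_pos hc, map_mul, (hq _ hz).1 (hiff.2 hc), hemb]
  · rw [if_neg hc, map_mul, (hq _ hz).2 (fun h => hc (hiff.1 h)), zero_mul, zero_mul]

end

end Pool.Agent.RHT.Par
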