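import Pool.Agent.RHT.Cnt

/-!
RHT-Per. The zeros move continuously. Plan. First part: `z ∈ Z u1`, `x0 = z.1`: choose a closed disc
of radius `ε' < ε` around `x0` in `Om (cs z)` with `T(C(x)+u1) ≠ 0` on its boundary (isolated zeros,
`T_order`); for `u` near `u1` (uniform continuity) `|T|` at the centre is smaller than on the
boundary, so there is a zero inside (otherwise `1/T` contradicts the maximum principle).
Second part: `end_bound` keeps the zeros in the compact sets `{x ∈ Hc c, r ≤ ‖x‖ ≤ r⁻¹,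
r ≤ ‖x - 1‖}`, sheets `k < D`; on the compact part where `‖x - z.1‖ ≥ ε''` for all zeros
`z = pt c k _` of the sheet, `|T|` is bounded below for `u` near `u1`; if `w = pt c k x` with `x` near
`x1`, `pt c k x1 = z ∈ Z u1` and `c ≠ cs z`, then `x1` is real, `x` and `x1` are in the same strip and
`pt c k = pt (cs z) (ks z)` on that strip (`pt_left`, `pt_mid`, `pt_right`, `pt_eq_iff`).
-/

set_option autoImplicit false

namespace Pool.Agent.RHT.Par

open Complex ComplexConjugate Finset Filter Topology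

noncomputable section

variable {P : Par} (θ : P.Th)

/-- joint continuity -/
private theorem per_cont {c : Bool} (k : ℤ) {x : ℂ} (hx : x ∈ Om c) (u : P.V) :
    ContinuousAt (fun p : P.V × ℂ => θ.T (P.Cv c k p.2 + p.1)) (u, x) := by
  have h1 : ContinuousAt (P.Cv c k) x := (Cv_deriv k hx).continuousAt
  have h2 : ContinuousAt (fun p : P.V × ℂ => P.Cv c k p.2) (u, x) :=
    ContinuousAt.comp (f := fun p : P.V × ℂ => p.2) (x := (u, x)) h1 continuousAt_snd
  exact θ.dT.continuous.continuousAt.comp (h2.add continuousAt_fst)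

/-- two charts and sheets which agree at a point agree near the point -/
private theorem per_tf {k k' : ℤ} {y : ℂ} (h0 : y.re ≠ 0) (h1 : y.re ≠ 1)
    (h : P.pt true k y = P.pt false k' y) : ∀ᶠ x in 𝓝 y, P.pt true k x = P.pt false k' x := by
  rcases lt_or_gt_of_ne h0 with h2 | h2
  · have h3 : (P.D : ℤ) ∣ (k - P.a) - k' := by
      rw [P.pt_left k h2] at h
      exact P.pt_eq_iff.1 h
    have h4 : ∀ᶠ x in 𝓝 y, x.re < 0 := Complex.continuous_re.continuousAt.eventually_lt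
      continuousAt_const h2
    filter_upwards [h4] with x hx
    rw [P.pt_left k hx]
    exact P.pt_eq_iff.2 h3
  · rcases lt_or_gt_of_ne h1 with h5 | h5
    · have h3 : (P.D : ℤ) ∣ k - k' := by
        rw [P.pt_mid k h2 h5] at h
        exact P.pt_eq_iff.1 h
      have h4 : ∀ᶠ x in 𝓝 y, 0 < x.re := continuousAt_const.eventually_lt
        Complex.continuous_re.continuousAt h2
      have h6 : ∀ᶠ x in 𝓝 y, x.re < 1 := Complex.continuous_re.continuousAt.eventually_lt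
        continuousAt_const h5
      filter_upwards [h4, h6] with x hx hx'
      rw [P.pt_mid k hx hx']
      exact P.pt_eq_iff.2 h3
    · have h3 : (P.D : ℤ) ∣ (k + P.b) - k' := by
        rw [P.pt_right k h5] at h
        exact P.pt_eq_iff.1 h
      have h4 : ∀ᶠ x in 𝓝 y, 1 < x.re := continuousAt_const.eventually_lt
        Complex.continuous_re.continuousAt h5
      filter_upwards [h4] with x hx
      rw [P.pt_right k hx]
      exact P.pt_eq_iff.2 h3

private theorem per_re {x : ℂ} (hx : x ∈ Om true) (hx' : x ∈ Om false) : x.re ≠ 0 ∧ x.re ≠ 1 := by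
  obtain ⟨a1, a2⟩ := hx
  obtain ⟨b1, b2⟩ := hx'
  simp only [sg, if_true, one_mul, Bool.false_eq_true, if_false] at a1 a2 b1 b2
  constructor
  · intro h
    rcases le_total 0 x.im with h2 | h2
    · exact a1 ⟨h, h2⟩
    · exact b1 ⟨h, by linarith⟩
  · intro h
    rcases le_total 0 x.im with h2 | h2
    · exact a2 ⟨h, h2⟩
    · exact b2 ⟨h, by linarith⟩

private theorem per_pt {c c' : Bool} {k k' : ℤ} {y : ℂ} (hy : y ∈ Om c) (hy' : y ∈ Om c')
    (h : P.pt c k y = P.pt c' k' y) : ∀ᶠ x in 𝓝 y, P.pt c k x = P.pt c' k' x := by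
  by_cases hc : c = c'
  · subst hc
    have h3 := P.pt_eq_iff.1 h
    exact Eventually.of_forall fun x => P.pt_eq_iff.2 h3
  · cases c with
    | false =>
      cases c' with
      | false => exact absurd rfl hc
      | true =>
        obtain ⟨h0, h1⟩ := per_re hy' hy
        filter_upwards [per_tf h0 h1 h.symm] with x hx
        exact hx.symm
    | true =>
      cases c' with
      | true => exact absurd rfl hc
      | false =>
        obtain ⟨h0, h1⟩ := per_re hy hy'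
        exact per_tf h0 h1 h

/-- first part, for one zero -/
private theorem per_one {u1 : P.V} (hu1 : θ.T u1 ≠ 0) {c : Bool} {k : ℤ} {x0 : ℂ}
    (hx0 : x0 ∈ Om c) (h0 : θ.T (P.Cv c k x0 + u1) = 0) {ε : ℝ} (hε : 0 < ε) :
    ∀ᶠ u in 𝓝 u1, ∃ x, ‖x - x0‖ < ε ∧ x ∈ Om c ∧ θ.T (P.Cv c k x + u) = 0 := by
  obtain ⟨hA, ho⟩ := T_order θ u1 hu1 k hx0
  have hne : ∀ᶠ x in 𝓝[≠] x0, θ.T (P.Cv c k x + u1) ≠ 0 := by
    rcases hA.eventually_eq_zero_or_eventually_ne_zero with h1 | h1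
    · exact absurd (analyticOrderAt_eq_top.2 h1) ho
    · exact h1
  rw [eventually_nhdsWithin_iff] at hne
  obtain ⟨r1, hr1, hb1⟩ := Metric.eventually_nhds_iff.1 hne
  obtain ⟨r2, hr2, hb2⟩ := Metric.isOpen_iff.1 (Om_isOpen c) x0 hx0
  obtain ⟨δ, hδ, hδm⟩ : ∃ δ, 0 < δ ∧ δ < min (min r1 r2) ε :=
    ⟨min (min r1 r2) ε / 2, by positivity, by
      have : 0 < min (min r1 r2) ε := by positivity
      linarith⟩
  have hδ1 : δ < r1 := lt_of_lt_of_le hδm ((min_le_left _ _).trans (min_le_left _ _))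
  have hδ2 : δ < r2 := lt_of_lt_of_le hδm ((min_le_left _ _).trans (min_le_right _ _))
  have hδ3 : δ < ε := lt_of_lt_of_le hδm (min_le_right _ _)
  have hcb : ∀ x, dist x x0 ≤ δ → x ∈ Om c := fun x hx =>
    hb2 (Metric.mem_ball.2 (lt_of_le_of_lt hx hδ2))
  have hS : IsCompact (Metric.sphere x0 δ) := isCompact_sphere x0 δ
  have hSn : (Metric.sphere x0 δ).Nonempty := (NormedSpace.sphere_nonempty).2 hδ.le
  have hc1 : ContinuousOn (fun x => ‖θ.T (P.Cv c k x + u1)‖) (Metric.sphere x0 δ) := by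
    intro x hx
    have h2 := per_cont θ k (hcb x (le_of_eq hx)) u1
    have h3 : ContinuousAt (fun x : ℂ => ((u1, x) : P.V × ℂ)) x := by fun_prop
    exact (ContinuousAt.comp (f := fun x : ℂ => ((u1, x) : P.V × ℂ)) h2 h3).norm.continuousWithinAt
  obtain ⟨y, hyS, hymin⟩ := hS.exists_isMinOn hSn hc1
  set m : ℝ := ‖θ.T (P.Cv c k y + u1)‖ / 2 with hm
  have hy0 : 0 < ‖θ.T (P.Cv c k y + u1)‖ := by
    rw [norm_pos_iff]
    refine hb1 (by rw [Metric.mem_sphere.1 hyS]; exact hδ1) ?_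
    intro h4
    rw [Set.mem_singleton_iff.1 h4, mem_sphere_iff_norm, sub_self, norm_zero] at hyS
    linarith
  have hm0 : 0 < m := by positivity
  have e1 : ∀ᶠ u in 𝓝 u1, ∀ x ∈ Metric.sphere x0 δ, m < ‖θ.T (P.Cv c k x + u)‖ := by
    refine hS.eventually_forall_of_forall_eventually ?_
    intro x hx
    have h2 := (per_cont θ k (hcb x (le_of_eq hx)) u1).norm
    refine continuousAt_const.eventually_lt h2 ?_
    have h5 : ‖θ.T (P.Cv c k y + u1)‖ ≤ ‖θ.T (P.Cv c k x + u1)‖ := hymin hx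
    show m < ‖θ.T (P.Cv c k x + u1)‖
    linarith
  have e2 : ∀ᶠ u in 𝓝 u1, ‖θ.T (P.Cv c k x0 + u)‖ < m := by
    have h6 : ContinuousAt (fun u : P.V => ‖θ.T (P.Cv c k x0 + u)‖) u1 := by
      have : Continuous (fun u : P.V => ‖θ.T (P.Cv c k x0 + u)‖) :=
        (θ.dT.continuous.comp (continuous_const.add continuous_id)).norm
      exact this.continuousAt
    refine h6.eventually_lt continuousAt_const ?_
    show ‖θ.T (P.Cv c k x0 + u1)‖ < m
    rw [h0, norm_zero]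
    exact hm0
  filter_upwards [e1, e2] with u hu hu'
  by_contra hcon
  push Not at hcon
  have hnz : ∀ x, dist x x0 ≤ δ → θ.T (P.Cv c k x + u) ≠ 0 := by
    intro x hx
    refine hcon x ?_ (hcb x hx)
    rw [← dist_eq_norm]
    linarith
  have hd : DiffContOnCl ℂ (fun x => (θ.T (P.Cv c k x + u))⁻¹) (Metric.ball x0 δ) := by
    have h7 : DifferentiableOn ℂ (fun x => (θ.T (P.Cv c k x + u))⁻¹)
        (closure (Metric.ball x0 δ)) := by
      intro x hx
      have hx' : dist x x0 ≤ δ := Metric.closure_ball_subset_closedBall hx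
      exact ((T_hasDerivAt θ u k (hcb x hx')).differentiableAt.inv
        (hnz x hx')).differentiableWithinAt
    exact h7.diffContOnCl
  have h8 := Complex.norm_le_of_forall_mem_frontier_norm_le Metric.isBounded_ball hd (C := m⁻¹) (by
    intro x hx
    rw [frontier_ball x0 hδ.ne'] at hx
    rw [norm_inv]
    exact inv_anti₀ hm0 (hu x hx).le) (z := x0) (subset_closure (Metric.mem_ball_self hδ))
  rw [norm_inv] at h8
  have h9 : 0 < ‖θ.T (P.Cv c k x0 + u)‖ := norm_pos_iff.2 (hnz x0 (by simp [hδ.le]))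
  have h10 := (inv_le_inv₀ h9 hm0).1 h8
  linarith

/-- second part, for one sheet -/
private theorem per_sheet {u1 : P.V} {K : Set ℂ} (hK : IsCompact K) {c : Bool}
    (hKO : K ⊆ Om c) (k : ℤ) {ε : ℝ} (hε : 0 < ε) :
    ∀ᶠ u in 𝓝 u1, ∀ x ∈ K, θ.T (P.Cv c k x + u) = 0 →
      ∃ z ∈ θ.Z u1, ∃ x', ‖x' - z.1‖ < ε ∧ x' ∈ Om (cs z) ∧
        P.pt c k x = P.pt (cs z) (P.ks z) x' := by
  refine hK.eventually_forall_of_forall_eventually ?_
  intro y hy
  have hyO := hKO hy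
  by_cases h0 : θ.T (P.Cv c k y + u1) = 0
  · have hz : P.pt c k y ∈ θ.Z u1 := (Z_pt θ u1 k hyO).2 h0
    set z := P.pt c k y with hzd
    have hz1 : z.1 = y := rfl
    obtain ⟨a1, a2, a3⟩ := ks_spec hz.1
    rw [hz1] at a1 a3
    have e1 : ∀ᶠ x in 𝓝 y, P.pt c k x = P.pt (cs z) (P.ks z) x :=
      per_pt hyO a1 (hzd.symm.trans a3.symm)
    have e2 : ∀ᶠ x in 𝓝 y, x ∈ Om (cs z) := (Om_isOpen (cs z)).mem_nhds a1
    have e3 : ∀ᶠ x in 𝓝 y, ‖x - z.1‖ < ε := by
      rw [hz1]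
      filter_upwards [Metric.ball_mem_nhds y hε] with x hx
      rw [← dist_eq_norm]
      exact hx
    have e4 := (continuousAt_snd (p := ((u1, y) : P.V × ℂ))).eventually (e1.and (e2.and e3))
    filter_upwards [e4] with p hp _
    exact ⟨z, hz, p.2, hp.2.2, hp.2.1, hp.1⟩
  · have h1 := per_cont θ k hyO u1
    have h2 := h1.eventually_ne h0
    filter_upwards [h2] with p hp hp'
    exact absurd hp' hp

private theorem per_K (c : Bool) {r : ℝ} (hr : 0 < r) :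
    IsCompact {x : ℂ | x ∈ Hc c ∧ r ≤ ‖x‖ ∧ r ≤ ‖x - 1‖ ∧ ‖x‖ ≤ r⁻¹} ∧
      {x : ℂ | x ∈ Hc c ∧ r ≤ ‖x‖ ∧ r ≤ ‖x - 1‖ ∧ ‖x‖ ≤ r⁻¹} ⊆ Om c := by
  constructor
  · refine Metric.isCompact_of_isClosed_isBounded ?_ ?_
    · have c1 : IsClosed (Hc c) :=
        isClosed_le (continuous_const.mul Complex.continuous_im) continuous_const
      have c2 : IsClosed {x : ℂ | r ≤ ‖x‖} := isClosed_le continuous_const continuous_norm
      have c3 : IsClosed {x : ℂ | r ≤ ‖x - 1‖} :=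
        isClosed_le continuous_const (continuous_id.sub continuous_const).norm
      have c4 : IsClosed {x : ℂ | ‖x‖ ≤ r⁻¹} := isClosed_le continuous_norm continuous_const
      exact c1.inter (c2.inter (c3.inter c4))
    · refine (Metric.isBounded_closedBall (x := (0 : ℂ)) (r := r⁻¹)).subset ?_
      rintro x ⟨-, -, -, hx⟩
      rw [mem_closedBall_zero_iff]
      exact hx
  · rintro x ⟨hx, h1, h2, -⟩
    refine Om_of_Hc hx ?_ ?_
    · rintro rfl
      rw [norm_zero] at h1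
      linarith
    · rintro rfl
      rw [sub_self, norm_zero] at h2
      linarith

theorem persist {u1 : P.V} (h : θ.Adm u1) {ε : ℝ} (hε : 0 < ε) : ∀ᶠ u in 𝓝 u1, θ.Adm u ∧
    (∀ z ∈ θ.Z u1, ∃ x, ‖x - z.1‖ < ε ∧ x ∈ Om (cs z) ∧
      θ.T (P.Cv (cs z) (P.ks z) x + u) = 0) ∧
    (∀ w ∈ θ.Z u, ∃ z ∈ θ.Z u1, ∃ x, ‖x - z.1‖ < ε ∧ x ∈ Om (cs z) ∧
      w = P.pt (cs z) (P.ks z) x) := by
  have e1 : ∀ᶠ u in 𝓝 u1, θ.Adm u := (adm_open θ).mem_nhds h
  have e2 : ∀ᶠ u in 𝓝 u1, ∀ z ∈ θ.Z u1, ∃ x, ‖x - z.1‖ < ε ∧ x ∈ Om (cs z) ∧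
      θ.T (P.Cv (cs z) (P.ks z) x + u) = 0 := by
    rw [Filter.eventually_all_finite (Z_finite θ h)]
    intro z hz
    exact per_one θ h.1 (ks_spec hz.1).1 hz.2 hε
  obtain ⟨M, r, N, hN, hr, hend⟩ := end_bound θ h
  have e3 : ∀ᶠ u in 𝓝 u1, ∀ c ∈ (Set.univ : Set Bool), ∀ k ∈ ((range P.D : Finset ℕ) : Set ℕ),
      ∀ x ∈ {x : ℂ | x ∈ Hc c ∧ r ≤ ‖x‖ ∧ r ≤ ‖x - 1‖ ∧ ‖x‖ ≤ r⁻¹},
      θ.T (P.Cv c k x + u) = 0 → ∃ z ∈ θ.Z u1, ∃ x', ‖x' - z.1‖ < ε ∧ x' ∈ Om (cs z) ∧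
        P.pt c k x = P.pt (cs z) (P.ks z) x' := by
    rw [Filter.eventually_all_finite Set.finite_univ]
    intro c _
    rw [Filter.eventually_all_finite (Finset.finite_toSet _)]
    intro k _
    exact per_sheet θ (per_K c hr).1 (per_K c hr).2 k hε
  filter_upwards [e1, e2, e3, hN] with u h1 h2 h3 h4
  refine ⟨h1, h2, ?_⟩
  intro w hw
  obtain ⟨b1, b2, b3⟩ := ks_spec hw.1
  obtain ⟨k0, hk0, hk1⟩ := P.pt_surj hw.1 b1
  have h5 : θ.T (P.Cv (cs w) k0 w.1 + u) = 0 := by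
    rw [← Z_pt θ u k0 b1, ← hk1]
    exact hw
  obtain ⟨n0, n1⟩ := Om_ne b1
  have h6 : w.1 ∈ {x : ℂ | x ∈ Hc (cs w) ∧ r ≤ ‖x‖ ∧ r ≤ ‖x - 1‖ ∧ ‖x‖ ≤ r⁻¹} := by
    have key : ¬ (‖w.1‖ < r ∨ ‖w.1 - 1‖ < r ∨ r⁻¹ < ‖w.1‖) := fun hc =>
      (hend u h4 (cs w) k0 w.1 b2 n0 n1 hc).1 h5
    push Not at key
    exact ⟨b2, key.1, key.2.1, key.2.2⟩
  obtain ⟨z, hz, x', q1, q2, q3⟩ := h3 (cs w) (Set.mem_univ _) k0
    (by rw [Finset.mem_coe, Finset.mem_range]; exact hk0) w.1 h6 h5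
  exact ⟨z, hz, x', q1, q2, hk1.trans q3⟩

/-- consequence: the number of different zeros does not decrease -/
theorem ncard_le {u1 : P.V} (h : θ.Adm u1) :
    ∀ᶠ u in 𝓝 u1, (θ.Z u1).ncard ≤ (θ.Z u).ncard := by
  have hfin := Z_finite θ h
  -- a separating radius
  obtain ⟨ε, hε, hsep⟩ : ∃ ε : ℝ, 0 < ε ∧ ∀ z ∈ θ.Z u1, ∀ z' ∈ θ.Z u1, z.1 ≠ z'.1 →
      2 * ε ≤ ‖z.1 - z'.1‖ := by
    have e1 : ∀ᶠ ε in 𝓝[>] (0 : ℝ), ∀ z ∈ θ.Z u1, ∀ z' ∈ θ.Z u1, z.1 ≠ z'.1 →
        2 * ε ≤ ‖z.1 - z'.1‖ := by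
      rw [Filter.eventually_all_finite hfin]
      intro z _
      rw [Filter.eventually_all_finite hfin]
      intro z' _
      by_cases hzz : z.1 = z'.1
      · exact Eventually.of_forall fun _ hc => absurd hzz hc
      · have h1 : 0 < ‖z.1 - z'.1‖ := norm_pos_iff.2 (sub_ne_zero.2 hzz)
        have h2 : ∀ᶠ ε in 𝓝[>] (0 : ℝ), ε < ‖z.1 - z'.1‖ / 2 :=
          mem_nhdsWithin_of_mem_nhds (Iio_mem_nhds (by linarith))
        filter_upwards [h2] with ε h3 _
        linarith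
    have e2 : ∀ᶠ ε in 𝓝[>] (0 : ℝ), 0 < ε := eventually_mem_nhdsWithin
    obtain ⟨ε, h1, h2⟩ := (e1.and e2).exists
    exact ⟨ε, h2, h1⟩
  filter_upwards [persist θ h hε] with u hu
  obtain ⟨hadm, hz, -⟩ := hu
  choose! X hX1 hX2 hX3 using hz
  refine Set.ncard_le_ncard_of_injOn (fun z => P.pt (cs z) (P.ks z) (X z)) ?_ ?_ (Z_finite θ hadm)
  · intro z hz
    exact (Z_pt θ u (P.ks z) (hX2 z hz)).2 (hX3 z hz)
  · intro z hz z' hz' he
    have h1 : X z = X z' := congrArg Prod.fst he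
    have h2 : z.1 = z'.1 := by
      by_contra hne
      have h3 := hsep z hz z' hz' hne
      have h4 := hX1 z hz
      have h5 := hX1 z' hz'
      have h6 : ‖z.1 - z'.1‖ ≤ ‖X z' - z'.1‖ + ‖X z - z.1‖ := by
        have h7 : z.1 - z'.1 = (X z' - z'.1) - (X z - z.1) := by rw [h1]; ring
        rw [h7]
        exact norm_sub_le _ _
      linarith
    have h3 : cs z = cs z' := by
      unfold cs
      rw [h2]
    have he' : P.pt (cs z) (P.ks z) (X z) = P.pt (cs z) (P.ks z') (X z) := by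
      have h8 : P.pt (cs z) (P.ks z) (X z) = P.pt (cs z') (P.ks z') (X z') := he
      rw [h8, h3, h1]
    have h9 := P.pt_eq_iff.1 he'
    obtain ⟨-, -, b3⟩ := ks_spec hz.1
    obtain ⟨-, -, b3'⟩ := ks_spec hz'.1
    rw [← b3, ← b3', ← h3, ← h2]
    exact P.pt_eq_iff.2 h9

end

end Pool.Agent.RHT.Par
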