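import Pool.Agent.RHT.SDefs

/-!
RHT-SfQ. The function `Sf`.
-/

set_option autoImplicit false

namespace Pool.Agent.RHT.Par

open Complex ComplexConjugate Finset

noncomputable section

variable {P : Par} (θ : P.Th)

theorem Sf_diff (v0 : P.V) : Differentiable ℂ (θ.Sf v0) := by
  have h1 : Differentiable ℂ (fun w : P.V => v0 + w) := differentiable_id.const_add v0
  have h2 : Differentiable ℂ (fun w : P.V => v0 - w) := differentiable_id.const_sub v0
  have h3 : Differentiable ℂ (fun w : P.V => θ.T (v0 + w)) := θ.dT.comp h1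
  have h4 : Differentiable ℂ (fun w : P.V => θ.T (v0 - w)) := θ.dT.comp h2
  have h5 : Differentiable ℂ (fun w : P.V => θ.T (v0 + w) * θ.T (v0 - w)) := h3.fun_mul h4
  have h6 : θ.Sf v0 = fun w : P.V => θ.T (v0 + w) * θ.T (v0 - w) * (θ.T v0 ^ 2)⁻¹ := by
    funext w
    rw [Th.Sf, div_eq_mul_inv]
  rw [h6]
  exact h5.mul_const _

theorem Sf_zero {v0 : P.V} (h : θ.T v0 ≠ 0) : θ.Sf v0 0 = 1 := by
  unfold Th.Sf
  rw [add_zero, sub_zero, ← sq, div_self (pow_ne_zero 2 h)]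

private theorem sfq_exp (v0 w l : P.V) :
    (Real.pi * P.H (v0 + w) l + Real.pi / 2 * P.H l l) +
      (Real.pi * P.H (v0 - w) (-l) + Real.pi / 2 * P.H (-l) (-l)) =
    2 * Real.pi * P.H w l + Real.pi * P.H l l := by
  simp only [Par.H, Finset.mul_sum, ← Finset.sum_add_distrib]
  refine Finset.sum_congr rfl fun t _ => ?_
  simp only [Pi.add_apply, Pi.sub_apply, Pi.neg_apply, map_neg]
  ring

theorem Sf_qp (v0 : P.V) {l : P.V} (hl : l ∈ P.Lam) : ∃ e : ℂ, ‖e‖ = 1 ∧ ∀ w : P.V,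
    θ.Sf v0 (w + l) = e * cexp (2 * Real.pi * P.H w l + Real.pi * P.H l l) * θ.Sf v0 w := by
  have hl' : -l ∈ P.Lam := P.Lam.neg_mem hl
  refine ⟨θ.e l * θ.e (-l), ?_, fun w => ?_⟩
  · rw [norm_mul, θ.he l hl, θ.he (-l) hl', one_mul]
  · have h1 := θ.qp l hl (v0 + w)
    have h2 := θ.qp (-l) hl' (v0 - w)
    have h3 : v0 + (w + l) = v0 + w + l := (add_assoc _ _ _).symm
    have h4 : v0 - (w + l) = v0 - w + -l := by
      rw [sub_add_eq_sub_sub, sub_eq_add_neg (v0 - w) l]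
    unfold Th.Sf
    rw [h3, h4, h1, h2, ← sfq_exp v0 w l, Complex.exp_add
      (Real.pi * P.H (v0 + w) l + Real.pi / 2 * P.H l l)]
    generalize cexp (Real.pi * P.H (v0 + w) l + Real.pi / 2 * P.H l l) = A
    generalize cexp (Real.pi * P.H (v0 - w) (-l) + Real.pi / 2 * P.H (-l) (-l)) = B
    ring

end

end Pool.Agent.RHT.Par
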