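import Pool.Agent.RHT.Per

/-!
RHT-SimpP. If the number of different zeros is locally constant, `L_t` has at most simple poles.
The counting part gives, for `u` near `u1`, exactly one zero in every small disc, of the same
multiplicity `n`. The analytic part (`SimpP_main`) divides by `(x - q)^n` and uses the maximum
principle and Cauchy's theorem; no implicit function theorem is needed.
-/

set_option autoImplicit false

namespace Pool.Agent.RHT.Par

open Complex ComplexConjugate Finset Filter Topology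

noncomputable section

/-- division by `(x - q)^n` -/
private theorem SimpP_div {U : Set ℂ} (hU : IsOpen U) {f : ℂ → ℂ} (hf : DifferentiableOn ℂ f U)
    {q : ℂ} (hq : q ∈ U) {n : ℕ} (hn : analyticOrderAt f q = n) :
    ∃ h : ℂ → ℂ, DifferentiableOn ℂ h U ∧ h q ≠ 0 ∧ ∀ x, f x = (x - q) ^ n * h x := by
  classical
  have hfa : AnalyticAt ℂ f q := hf.analyticAt (hU.mem_nhds hq)
  obtain ⟨g, hg, hgq, hfg⟩ := hfa.analyticOrderAt_eq_natCast.1 hn
  refine ⟨Function.update (fun x => f x / (x - q) ^ n) q (g q), ?_, ?_, ?_⟩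
  · intro x hx
    refine DifferentiableAt.differentiableWithinAt ?_
    by_cases hxq : x = q
    · subst hxq
      have h1 : Function.update (fun y => f y / (y - x) ^ n) x (g x) =ᶠ[𝓝 x] g := by
        filter_upwards [hfg] with y hy
        by_cases hyx : y = x
        · subst hyx
          rw [Function.update_self]
        · rw [Function.update_of_ne hyx, hy, smul_eq_mul,
            mul_div_cancel_left₀ _ (pow_ne_zero _ (sub_ne_zero.2 hyx))]
      exact hg.differentiableAt.congr_of_eventuallyEq h1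
    · have h1 : Function.update (fun y => f y / (y - q) ^ n) q (g q) =ᶠ[𝓝 x]
          fun y => f y / (y - q) ^ n := by
        filter_upwards [isOpen_ne.mem_nhds hxq] with y hy
        rw [Function.update_of_ne hy]
      refine DifferentiableAt.congr_of_eventuallyEq ?_ h1
      exact (hf.differentiableAt (hU.mem_nhds hx)).div
        ((differentiableAt_id.sub_const q).pow n) (pow_ne_zero _ (sub_ne_zero.2 hxq))
  · rw [Function.update_self]
    exact hgq
  · intro x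
    by_cases hxq : x = q
    · subst hxq
      rw [Function.update_self]
      exact hfg.self_of_nhds
    · rw [Function.update_of_ne hxq, mul_div_cancel₀ _ (pow_ne_zero _ (sub_ne_zero.2 hxq))]

/-- the integral of `(1 - a / y) ^ n` -/
private theorem SimpP_int (x0 a : ℂ) {ε : ℝ} (hε : 0 < ε) (n : ℕ) :
    (∮ x in C(x0, ε), (1 - a / (x - x0)) ^ n) = -(2 * Real.pi * I * n * a) := by
  have hci : ∀ k : ℤ, CircleIntegrable (fun x => (x - x0) ^ k) x0 ε := by
    intro k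
    rw [circleIntegrable_sub_zpow_iff]
    right
    right
    simp [abs_of_pos hε, hε.ne]
  have h1 : ∀ x : ℂ, (1 - a / (x - x0)) ^ n =
      ∑ k ∈ range (n + 1), (n.choose k : ℂ) * (-a) ^ k * (x - x0) ^ (-(k : ℤ)) := by
    intro x
    have h2 : (1 - a / (x - x0)) = (-a) * (x - x0)⁻¹ + 1 := by
      rw [div_eq_mul_inv]
      ring
    rw [h2, add_pow]
    refine sum_congr rfl fun k _ => ?_
    rw [mul_pow, one_pow, mul_one, zpow_neg, zpow_natCast, inv_pow]
    ring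
  simp_rw [h1]
  have hci2 : ∀ (k : ℤ) (c : ℂ), CircleIntegrable (fun x => c * (x - x0) ^ k) x0 ε :=
    fun k c => IntervalIntegrable.const_mul (hci k) c
  rw [circleIntegral.integral_fun_sum (fun (k : ℕ) _ => hci2 (-(k : ℤ)) ((n.choose k : ℂ) * (-a) ^ k))]
  have h3 : ∀ k : ℕ, (∮ x in C(x0, ε), (n.choose k : ℂ) * (-a) ^ k * (x - x0) ^ (-(k : ℤ))) =
      if k = 1 then -(2 * Real.pi * I * n * a) else 0 := by
    intro k
    rw [circleIntegral.integral_const_mul]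
    by_cases hk : k = 1
    · subst hk
      rw [if_pos rfl]
      have h4 : (∮ x in C(x0, ε), (x - x0) ^ (-((1 : ℕ) : ℤ))) = 2 * Real.pi * I := by
        rw [← circleIntegral.integral_sub_center_inv x0 hε.ne']
        congr 1
        ext x
        simp
      rw [h4, Nat.choose_one_right, pow_one]
      ring
    · rw [if_neg hk, circleIntegral.integral_sub_zpow_of_ne (by omega), mul_zero]
  rw [sum_congr rfl fun k _ => h3 k, sum_ite_eq']
  by_cases hn : n = 0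
  · subst hn
    simp
  · rw [if_pos (mem_range.2 (by omega))]

private theorem SimpP_geom {b : ℂ} (hb : ‖b‖ ≤ 1 / 2) (n : ℕ) :
    ‖(1 - b) ^ n - 1‖ ≤ n * 2 ^ n * ‖b‖ ∧ (1 / 2 : ℝ) ^ n ≤ ‖(1 - b) ^ n‖ ∧
      ‖(1 - b) ^ n‖ ≤ 2 ^ n := by
  have h1 : ‖1 - b‖ ≤ 2 := by
    calc ‖1 - b‖ ≤ ‖(1 : ℂ)‖ + ‖b‖ := norm_sub_le _ _
      _ ≤ 2 := by rw [norm_one]; linarith
  have h2 : 1 / 2 ≤ ‖1 - b‖ := by
    have := norm_sub_norm_le (1 : ℂ) b
    rw [norm_one] at this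
    linarith
  refine ⟨?_, ?_, ?_⟩
  · have h3 : (1 - b) ^ n - 1 = (∑ k ∈ range n, (1 - b) ^ k) * (-b) := by
      have := geom_sum_mul (1 - b) n
      rw [← this]
      ring
    rw [h3, norm_mul, norm_neg]
    refine mul_le_mul_of_nonneg_right ?_ (norm_nonneg b)
    calc ‖∑ k ∈ range n, (1 - b) ^ k‖ ≤ ∑ k ∈ range n, ‖(1 - b) ^ k‖ := norm_sum_le _ _
      _ ≤ ∑ k ∈ range n, (2 : ℝ) ^ n := by
          refine sum_le_sum fun k hk => ?_
          rw [norm_pow]
          calc ‖1 - b‖ ^ k ≤ 2 ^ k := pow_le_pow_left₀ (norm_nonneg _) h1 k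
            _ ≤ 2 ^ n := pow_le_pow_right₀ (by norm_num) (mem_range.1 hk).le
      _ = n * 2 ^ n := by rw [sum_const, card_range, nsmul_eq_mul]
  · rw [norm_pow]
    exact pow_le_pow_left₀ (by norm_num) h2 n
  · rw [norm_pow]
    exact pow_le_pow_left₀ (norm_nonneg _) h1 n

/-- comparison of two functions with one zero of order `n` -/
private theorem SimpP_one {U : Set ℂ} (hU : IsOpen U) {f f0 : ℂ → ℂ} {x0 q : ℂ} {ε η : ℝ} {n : ℕ}
    (hε : 0 < ε) (hn : 0 < n) (hUε : Metric.closedBall x0 ε ⊆ U) (hf : DifferentiableOn ℂ f U)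
    (hf0 : DifferentiableOn ℂ f0 U) (ho : analyticOrderAt f q = n) (ho0 : analyticOrderAt f0 x0 = n)
    (hz : ∀ x ∈ Metric.closedBall x0 ε, f x = 0 → x = q)
    (hz0 : ∀ x ∈ Metric.closedBall x0 ε, f0 x = 0 → x = x0) (hq : ‖q - x0‖ ≤ ε / 2)
    (hη : η ≤ 1 / 2) (hE : ∀ x ∈ Metric.sphere x0 ε, ‖f x / f0 x - 1‖ ≤ η) :
    ‖q - x0‖ ≤ ε * 2 ^ (n + 1) * η ∧ ∀ x ∈ Metric.ball x0 ε, x ≠ x0 →
      ‖f x / f0 x - (1 - (q - x0) / (x - x0)) ^ n‖ ≤
        (2 ^ n * (1 + n * 2 ^ n * 2 ^ (n + 1))) * η * ‖(1 - (q - x0) / (x - x0)) ^ n‖ := by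
  have hqb : q ∈ Metric.closedBall x0 ε := by
    rw [Metric.mem_closedBall, dist_eq_norm]
    linarith
  obtain ⟨h, hh, hhq, hfh⟩ := SimpP_div hU hf (hUε hqb) ho
  obtain ⟨h0, hh0, hhq0, hfh0⟩ := SimpP_div hU hf0
    (hUε (Metric.mem_closedBall_self hε.le)) ho0
  have hne : ∀ x ∈ Metric.closedBall x0 ε, h x ≠ 0 := by
    intro x hx h1
    have h2 : x = q := hz x hx (by rw [hfh, h1, mul_zero])
    exact hhq (h2 ▸ h1)
  have hne0 : ∀ x ∈ Metric.closedBall x0 ε, h0 x ≠ 0 := by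
    intro x hx h1
    have h2 : x = x0 := hz0 x hx (by rw [hfh0, h1, mul_zero])
    exact hhq0 (h2 ▸ h1)
  set a : ℂ := q - x0 with ha
  set w : ℂ → ℂ := fun x => h x / h0 x with hw
  have hwne : ∀ x ∈ Metric.closedBall x0 ε, w x ≠ 0 := fun x hx =>
    div_ne_zero (hne x hx) (hne0 x hx)
  have hwd : DifferentiableOn ℂ w (Metric.closedBall x0 ε) :=
    (hh.mono hUε).div (hh0.mono hUε) hne0
  have hrel : ∀ x ∈ Metric.closedBall x0 ε, x ≠ x0 →
      f x / f0 x = (1 - a / (x - x0)) ^ n * w x := by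
    intro x hx hx0
    have h1 : x - x0 ≠ 0 := sub_ne_zero.2 hx0
    have h2 := hne0 x hx
    have h3 : 1 - a / (x - x0) = (x - q) / (x - x0) := by
      rw [ha]
      field_simp
      ring
    rw [hfh, hfh0, h3, div_pow, hw]
    simp only
    field_simp
  have hsph : ∀ x ∈ Metric.sphere x0 ε, ‖x - x0‖ = ε := by
    intro x hx
    rwa [Metric.mem_sphere, dist_eq_norm] at hx
  have hsne : ∀ x ∈ Metric.sphere x0 ε, x ≠ x0 := by
    intro x hx h1
    have h2 := hsph x hx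
    rw [h1, sub_self, norm_zero] at h2
    exact hε.ne h2
  have hb : ∀ x ∈ Metric.sphere x0 ε, ‖a / (x - x0)‖ = ‖a‖ / ε := by
    intro x hx
    rw [norm_div, hsph x hx]
  have hb2 : ‖a‖ / ε ≤ 1 / 2 := by
    rw [div_le_iff₀ hε]
    linarith
  have hη0 : 0 ≤ η := by
    have h1 : x0 + ε ∈ Metric.sphere x0 ε := by
      rw [Metric.mem_sphere, dist_eq_norm, add_sub_cancel_left, Complex.norm_real,
        Real.norm_eq_abs, abs_of_pos hε]
    exact (norm_nonneg _).trans (hE _ h1)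
  have hwinv : ∀ x ∈ Metric.sphere x0 ε, ‖(w x)⁻¹‖ ≤ 2 ^ (n + 1) := by
    intro x hx
    obtain ⟨h1, h2, h3⟩ := SimpP_geom (b := a / (x - x0)) (by rw [hb x hx]; exact hb2) n
    have h4 := hrel x (Metric.sphere_subset_closedBall hx) (hsne x hx)
    have h5 : 1 / 2 ≤ ‖f x / f0 x‖ := by
      have h6 := norm_sub_norm_le (1 : ℂ) (1 - f x / f0 x)
      rw [sub_sub_cancel, norm_one, norm_sub_rev] at h6
      have h7 := hE x hx
      linarith
    rw [h4, norm_mul] at h5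
    have h6 : 0 < ‖w x‖ := norm_pos_iff.2 (hwne x (Metric.sphere_subset_closedBall hx))
    rw [norm_inv, inv_le_comm₀ h6 (by positivity)]
    have h7 : 1 / 2 ≤ 2 ^ n * ‖w x‖ := h5.trans (mul_le_mul_of_nonneg_right h3 h6.le)
    rw [inv_le_iff_one_le_mul₀ (by positivity), pow_succ]
    linarith
  have hclo : closure (Metric.ball x0 ε) = Metric.closedBall x0 ε := closure_ball x0 hε.ne'
  have hab : ‖a‖ ≤ ε * 2 ^ (n + 1) * η := by
    have hwi : DifferentiableOn ℂ (fun x => (w x)⁻¹) (Metric.closedBall x0 ε) := hwd.inv hwne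
    have h1 : (∮ x in C(x0, ε), (w x)⁻¹) = 0 := by
      refine DiffContOnCl.circleIntegral_eq_zero hε.le ?_
      refine DifferentiableOn.diffContOnCl ?_
      rw [hclo]
      exact hwi
    have h2 : CircleIntegrable (fun x => (1 - a / (x - x0)) ^ n) x0 ε := by
      refine ContinuousOn.circleIntegrable hε.le ?_
      refine ContinuousOn.pow ?_ n
      refine continuousOn_const.sub (continuousOn_const.div
        (continuousOn_id.sub continuousOn_const) ?_)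
      intro x hx
      exact sub_ne_zero.2 (hsne x hx)
    have h3 : CircleIntegrable (fun x => (w x)⁻¹) x0 ε :=
      ContinuousOn.circleIntegrable hε.le
        (hwi.continuousOn.mono Metric.sphere_subset_closedBall)
    have h4 := circleIntegral.integral_sub h2 h3
    rw [h1, sub_zero, SimpP_int x0 a hε n] at h4
    have h5 : ‖∮ x in C(x0, ε), (1 - a / (x - x0)) ^ n - (w x)⁻¹‖ ≤
        2 * Real.pi * ε * (η * 2 ^ (n + 1)) := by
      refine circleIntegral.norm_integral_le_of_norm_le_const hε.le ?_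
      intro x hx
      have h6 := hwne x (Metric.sphere_subset_closedBall hx)
      have h7 : (1 - a / (x - x0)) ^ n - (w x)⁻¹ = (f x / f0 x - 1) * (w x)⁻¹ := by
        rw [hrel x (Metric.sphere_subset_closedBall hx) (hsne x hx)]
        field_simp
      rw [h7, norm_mul]
      exact mul_le_mul (hE x hx) (hwinv x hx) (norm_nonneg _) hη0
    rw [h4, norm_neg, norm_mul, norm_mul, norm_mul, norm_mul, Complex.norm_I,
      Complex.norm_real, Complex.norm_natCast, Complex.norm_ofNat, Real.norm_eq_abs,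
      abs_of_pos Real.pi_pos] at h5
    have hn1 : (1 : ℝ) ≤ n := by exact_mod_cast hn
    have h6 : 2 * Real.pi * ‖a‖ ≤ 2 * Real.pi * (ε * 2 ^ (n + 1) * η) := by
      calc 2 * Real.pi * ‖a‖ ≤ 2 * Real.pi * 1 * n * ‖a‖ := by
            have h8 : 0 ≤ 2 * Real.pi * ‖a‖ := by positivity
            nlinarith
        _ ≤ 2 * Real.pi * ε * (η * 2 ^ (n + 1)) := h5
        _ = _ := by ring
    exact le_of_mul_le_mul_left h6 (by positivity)
  refine ⟨hab, ?_⟩
  set K : ℝ := 2 ^ n * (1 + n * 2 ^ n * 2 ^ (n + 1)) with hK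
  have hbd : ∀ x ∈ Metric.sphere x0 ε, ‖w x - 1‖ ≤ K * η := by
    intro x hx
    obtain ⟨h1, h2, h3⟩ := SimpP_geom (b := a / (x - x0)) (by rw [hb x hx]; exact hb2) n
    rw [hb x hx] at h1
    set g : ℂ := (1 - a / (x - x0)) ^ n with hg
    have hg0 : 0 < ‖g‖ := lt_of_lt_of_le (by positivity) h2
    have h4 : w x - 1 = ((f x / f0 x - 1) - (g - 1)) / g := by
      rw [hrel x (Metric.sphere_subset_closedBall hx) (hsne x hx), ← hg]
      have : g ≠ 0 := norm_pos_iff.1 hg0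
      field_simp
      ring
    have h5 : ‖(f x / f0 x - 1) - (g - 1)‖ ≤ (1 + n * 2 ^ n * 2 ^ (n + 1)) * η := by
      calc ‖(f x / f0 x - 1) - (g - 1)‖ ≤ ‖f x / f0 x - 1‖ + ‖g - 1‖ := norm_sub_le _ _
        _ ≤ η + n * 2 ^ n * (2 ^ (n + 1) * η) := by
            refine add_le_add (hE x hx) (h1.trans ?_)
            refine mul_le_mul_of_nonneg_left ?_ (by positivity)
            rw [div_le_iff₀ hε]
            linarith
        _ = _ := by ring
    rw [h4, norm_div, div_le_iff₀ hg0]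
    have h6 : (1 : ℝ) ≤ 2 ^ n * ‖g‖ := by
      have h7 : (2 : ℝ) ^ n * (1 / 2) ^ n = 1 := by
        rw [← mul_pow]
        norm_num
      calc (1 : ℝ) = 2 ^ n * (1 / 2) ^ n := h7.symm
        _ ≤ _ := mul_le_mul_of_nonneg_left h2 (by positivity)
    calc ‖(f x / f0 x - 1) - (g - 1)‖ ≤ (1 + n * 2 ^ n * 2 ^ (n + 1)) * η * 1 := by
          rw [mul_one]; exact h5
      _ ≤ (1 + n * 2 ^ n * 2 ^ (n + 1)) * η * (2 ^ n * ‖g‖) :=
          mul_le_mul_of_nonneg_left h6 (by positivity)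
      _ = K * η * ‖g‖ := by rw [hK]; ring
  intro x hx hx0
  have hxc := Metric.ball_subset_closedBall hx
  have h1 : ‖w x - 1‖ ≤ K * η := by
    have h2 : DiffContOnCl ℂ (fun x => w x - 1) (Metric.ball x0 ε) := by
      refine DifferentiableOn.diffContOnCl ?_
      rw [hclo]
      exact hwd.sub_const 1
    refine Complex.norm_le_of_forall_mem_frontier_norm_le Metric.isBounded_ball h2 ?_
      (subset_closure hx)
    intro y hy
    rw [frontier_ball x0 hε.ne'] at hy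
    exact hbd y hy
  have h3 : f x / f0 x - (1 - a / (x - x0)) ^ n = (1 - a / (x - x0)) ^ n * (w x - 1) := by
    rw [hrel x hxc hx0]
    ring
  rw [h3, norm_mul, mul_comm]
  exact mul_le_mul_of_nonneg_right h1 (norm_nonneg _)

private theorem SimpP_main {U : Set ℂ} (hU : IsOpen U) {τ : ℂ → ℂ → ℂ} {x0 : ℂ} {ε C : ℝ} {n : ℕ}
    {d : ℂ → ℂ} (hε : 0 < ε) (hn : 0 < n) (hUε : Metric.closedBall x0 ε ⊆ U)
    (hd : ∀ s, DifferentiableOn ℂ (τ s) U)
    (hq : ∀ δ > 0, ∀ᶠ s in 𝓝 (0 : ℂ), ∃ q, ‖q - x0‖ < δ ∧ analyticOrderAt (τ s) q = n ∧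
      ∀ x ∈ Metric.closedBall x0 ε, τ s x = 0 → x = q)
    (hC : ∀ᶠ s in 𝓝 (0 : ℂ), ∀ x ∈ Metric.sphere x0 ε, ‖τ s x - τ 0 x‖ ≤ C * ‖s‖)
    (hder : ∀ x ∈ Metric.ball x0 ε, HasDerivAt (fun s => τ s x) (d x) 0) :
    ∃ ρ, Tendsto (fun x => (x - x0) * (d x / τ 0 x)) (𝓝[≠] x0) (𝓝 ρ) := by
  have hn0 : (n : ℕ∞) ≠ 0 := by exact_mod_cast hn.ne'
  have hP : ∀ s, ∃ q, (∃ q', ‖q' - x0‖ < ε / 2 ∧ analyticOrderAt (τ s) q' = n ∧
      ∀ x ∈ Metric.closedBall x0 ε, τ s x = 0 → x = q') → (‖q - x0‖ < ε / 2 ∧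
      analyticOrderAt (τ s) q = n ∧ ∀ x ∈ Metric.closedBall x0 ε, τ s x = 0 → x = q) := by
    intro s
    by_cases h : ∃ q', ‖q' - x0‖ < ε / 2 ∧ analyticOrderAt (τ s) q' = n ∧
      ∀ x ∈ Metric.closedBall x0 ε, τ s x = 0 → x = q'
    · obtain ⟨q, hq⟩ := h
      exact ⟨q, fun _ => hq⟩
    · exact ⟨x0, fun h' => absurd h' h⟩
  choose q hqP using hP
  have hqe : ∀ᶠ s in 𝓝 (0 : ℂ), ‖q s - x0‖ < ε / 2 ∧ analyticOrderAt (τ s) (q s) = n ∧
      ∀ x ∈ Metric.closedBall x0 ε, τ s x = 0 → x = q s := by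
    filter_upwards [hq (ε / 2) (by positivity)] with s hs
    exact hqP s hs
  have hqδ : ∀ δ > 0, ∀ᶠ s in 𝓝 (0 : ℂ), ‖q s - x0‖ < δ := by
    intro δ hδ
    filter_upwards [hqe, hq (min δ ε) (lt_min hδ hε)] with s hs1 hs2
    obtain ⟨q', h1, h2, h3⟩ := hs2
    have h4 : τ s q' = 0 := by
      refine apply_eq_zero_of_analyticOrderAt_ne_zero ?_
      rw [h2]
      exact hn0
    have h5 : q' = q s := by
      refine hs1.2.2 q' ?_ h4
      rw [Metric.mem_closedBall, dist_eq_norm]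
      exact (h1.trans_le (min_le_right _ _)).le
    rw [← h5]
    exact h1.trans_le (min_le_left _ _)
  have hq0 : q 0 = x0 := by
    by_contra hne
    have h1 : 0 < ‖q 0 - x0‖ := norm_pos_iff.2 (sub_ne_zero.2 hne)
    exact lt_irrefl _ (hqδ _ h1).self_of_nhds
  have hp0 := hqe.self_of_nhds
  rw [hq0] at hp0
  obtain ⟨-, ho0, hz0⟩ := hp0
  have hsne : ∀ x ∈ Metric.sphere x0 ε, x ≠ x0 := by
    intro x hx h1
    rw [Metric.mem_sphere, dist_eq_norm, h1, sub_self, norm_zero] at hx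
    exact hε.ne hx
  obtain ⟨m, hm, hm2⟩ : ∃ m : ℝ, 0 < m ∧ ∀ x ∈ Metric.sphere x0 ε, m ≤ ‖τ 0 x‖ := by
    obtain ⟨y, hy, hy2⟩ := (isCompact_sphere x0 ε).exists_isMinOn
      (NormedSpace.sphere_nonempty.2 hε.le)
      (((hd 0).continuousOn.mono (Metric.sphere_subset_closedBall.trans hUε)).norm)
    refine ⟨‖τ 0 y‖, norm_pos_iff.2 fun h => ?_, fun x hx => hy2 hx⟩
    exact hsne y hy (hz0 y (Metric.sphere_subset_closedBall hy) h)
  set c1 : ℝ := |C| / m with hc1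
  have hc10 : 0 ≤ c1 := by positivity
  have hsmall : ∀ᶠ s in 𝓝 (0 : ℂ), c1 * ‖s‖ ≤ 1 / 2 := by
    have h1 : Tendsto (fun s : ℂ => c1 * ‖s‖) (𝓝 0) (𝓝 0) := by
      have h2 : Continuous fun s : ℂ => c1 * ‖s‖ := by fun_prop
      have h3 := h2.tendsto 0
      rwa [norm_zero, mul_zero] at h3
    filter_upwards [h1.eventually (gt_mem_nhds (show (0 : ℝ) < 1 / 2 by norm_num))] with s hs
    exact hs.le
  have hE : ∀ᶠ s in 𝓝 (0 : ℂ), ∀ x ∈ Metric.sphere x0 ε, ‖τ s x / τ 0 x - 1‖ ≤ c1 * ‖s‖ := by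
    filter_upwards [hC] with s hs x hx
    have h1 := hs x hx
    have h2 := hm2 x hx
    have h3 : τ 0 x ≠ 0 := norm_pos_iff.1 (hm.trans_le h2)
    have h4 : τ s x / τ 0 x - 1 = (τ s x - τ 0 x) / τ 0 x := by
      field_simp
    rw [h4, norm_div, hc1, div_mul_eq_mul_div]
    have h5 : ‖τ s x - τ 0 x‖ ≤ |C| * ‖s‖ :=
      h1.trans (mul_le_mul_of_nonneg_right (le_abs_self C) (norm_nonneg s))
    exact div_le_div₀ (by positivity) h5 hm h2
  set K : ℝ := 2 ^ n * (1 + n * 2 ^ n * 2 ^ (n + 1)) with hK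
  have hK0 : 0 ≤ K := by positivity
  have hmain : ∀ᶠ s in 𝓝 (0 : ℂ), ‖q s - x0‖ ≤ ε * 2 ^ (n + 1) * (c1 * ‖s‖) ∧
      ∀ x ∈ Metric.ball x0 ε, x ≠ x0 → ‖τ s x / τ 0 x - (1 - (q s - x0) / (x - x0)) ^ n‖ ≤
        K * (c1 * ‖s‖) * ‖(1 - (q s - x0) / (x - x0)) ^ n‖ := by
    filter_upwards [hqe, hsmall, hE] with s h1 h2 h3
    exact SimpP_one hU hε hn hUε (hd s) (hd 0) h1.2.1 ho0 h1.2.2 hz0 h1.1.le h2 h3
  -- the ultrafilter
  set 𝒰 : Ultrafilter ℂ := Ultrafilter.of (𝓝[≠] (0 : ℂ)) with h𝒰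
  have hle : (𝒰 : Filter ℂ) ≤ 𝓝[≠] (0 : ℂ) := Ultrafilter.of_le _
  have hle0 : (𝒰 : Filter ℂ) ≤ 𝓝 (0 : ℂ) := hle.trans nhdsWithin_le_nhds
  have hnz : ∀ᶠ s in (𝒰 : Filter ℂ), s ≠ 0 := hle self_mem_nhdsWithin
  have hb : ∀ᶠ s in (𝒰 : Filter ℂ),
      (q s - x0) / s ∈ Metric.closedBall (0 : ℂ) (ε * 2 ^ (n + 1) * c1) := by
    filter_upwards [hmain.filter_mono hle0, hnz] with s hs hs0
    have h1 : 0 < ‖s‖ := norm_pos_iff.2 hs0
    rw [mem_closedBall_zero_iff, norm_div, div_le_iff₀ h1]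
    linarith [hs.1]
  obtain ⟨β, -, hβ⟩ := (isCompact_closedBall (0 : ℂ) (ε * 2 ^ (n + 1) * c1)).ultrafilter_le_nhds
    (𝒰.map fun s => (q s - x0) / s) (by
      rw [le_principal_iff]
      exact hb)
  have hβt : Tendsto (fun s => (q s - x0) / s) 𝒰 (𝓝 β) := hβ
  have hat : Tendsto (fun s => q s - x0) 𝒰 (𝓝 0) := by
    refine Tendsto.mono_left ?_ hle0
    rw [Metric.tendsto_nhds]
    intro δ hδ
    filter_upwards [hqδ δ hδ] with s hs
    rwa [dist_zero_right]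
  have hkey : ∀ x ∈ Metric.ball x0 ε, x ≠ x0 →
      ‖d x / τ 0 x + n * β / (x - x0)‖ ≤ K * c1 := by
    intro x hx hx0
    have hy : x - x0 ≠ 0 := sub_ne_zero.2 hx0
    have hτ : τ 0 x ≠ 0 := fun h => hx0 (hz0 x (Metric.ball_subset_closedBall hx) h)
    have hA : Tendsto (fun s => s⁻¹ * (τ s x / τ 0 x - 1)) 𝒰 (𝓝 (d x / τ 0 x)) := by
      have h1 := (hder x hx).div_const (τ 0 x)
      rw [hasDerivAt_iff_tendsto_slope_zero] at h1
      have h2 := h1.mono_left hle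
      refine h2.congr fun s => ?_
      rw [zero_add, div_self hτ, smul_eq_mul]
    have ht : Tendsto (fun s => 1 - (q s - x0) / (x - x0)) 𝒰 (𝓝 1) := by
      have h1 := (tendsto_const_nhds (x := (1 : ℂ)) (f := (𝒰 : Filter ℂ))).sub
        (hat.div_const (x - x0))
      rwa [zero_div, sub_zero] at h1
    have hB : Tendsto (fun s => s⁻¹ * ((1 - (q s - x0) / (x - x0)) ^ n - 1)) 𝒰
        (𝓝 (-(n * β / (x - x0)))) := by
      have h1 : Tendsto (fun s => (∑ k ∈ range n, (1 - (q s - x0) / (x - x0)) ^ k) *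
          (-(((q s - x0) / s) / (x - x0)))) 𝒰
          (𝓝 ((∑ k ∈ range n, (1 : ℂ) ^ k) * (-(β / (x - x0))))) := by
        refine Tendsto.mul ?_ (hβt.div_const _).neg
        exact tendsto_finsetSum _ fun k _ => ht.pow k
      have h2 : (∑ k ∈ range n, (1 : ℂ) ^ k) * (-(β / (x - x0))) = -(n * β / (x - x0)) := by
        simp only [one_pow, sum_const, card_range, nsmul_eq_mul, mul_one]
        ring
      rw [h2] at h1
      refine h1.congr' ?_
      filter_upwards [hnz] with s hs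
      have h3 := geom_sum_mul (1 - (q s - x0) / (x - x0)) n
      rw [← h3]
      have h4 : (1 - (q s - x0) / (x - x0)) - 1 = -((q s - x0) / (x - x0)) := by ring
      rw [h4]
      field_simp
    have hN : Tendsto (fun s => K * c1 * ‖(1 - (q s - x0) / (x - x0)) ^ n‖) 𝒰 (𝓝 (K * c1)) := by
      have h1 := ((ht.pow n).norm).const_mul (K * c1)
      rwa [one_pow, norm_one, mul_one] at h1
    have h5 := (hA.sub hB).norm
    rw [sub_neg_eq_add] at h5
    refine le_of_tendsto_of_tendsto h5 hN ?_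
    filter_upwards [hmain.filter_mono hle0, hnz] with s hs hs0
    have h6 := hs.2 x hx hx0
    have h7 : 0 < ‖s‖ := norm_pos_iff.2 hs0
    have h8 : s⁻¹ * (τ s x / τ 0 x - 1) - s⁻¹ * ((1 - (q s - x0) / (x - x0)) ^ n - 1) =
        (τ s x / τ 0 x - (1 - (q s - x0) / (x - x0)) ^ n) / s := by
      field_simp
      ring
    show ‖s⁻¹ * (τ s x / τ 0 x - 1) - s⁻¹ * ((1 - (q s - x0) / (x - x0)) ^ n - 1)‖ ≤ _
    rw [h8, norm_div, div_le_iff₀ h7]
    linarith
  refine ⟨-(n * β), ?_⟩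
  rw [tendsto_iff_norm_sub_tendsto_zero]
  have hlim : Tendsto (fun x => K * c1 * ‖x - x0‖) (𝓝[≠] x0) (𝓝 0) := by
    have h1 : Continuous fun x : ℂ => K * c1 * ‖x - x0‖ := by fun_prop
    have h2 := h1.tendsto x0
    rw [sub_self, norm_zero, mul_zero] at h2
    exact h2.mono_left nhdsWithin_le_nhds
  refine squeeze_zero' (Eventually.of_forall fun x => norm_nonneg _) ?_ hlim
  filter_upwards [self_mem_nhdsWithin, nhdsWithin_le_nhds (Metric.ball_mem_nhds x0 hε)] with x h1 h2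
  have hy : x - x0 ≠ 0 := sub_ne_zero.2 h1
  have h3 : (x - x0) * (d x / τ 0 x) - -(n * β) = (d x / τ 0 x + n * β / (x - x0)) * (x - x0) := by
    field_simp
    ring
  rw [h3, norm_mul]
  exact mul_le_mul_of_nonneg_right (hkey x h2 h1) (norm_nonneg _)

variable {P : Par} (θ : P.Th)

private theorem SimpP_joint {c : Bool} (k : ℤ) {x : ℂ} (hx : x ∈ Om c) (u : P.V) :
    ContinuousAt (fun p : P.V × ℂ => θ.T (P.Cv c k p.2 + p.1)) (u, x) := by
  have h1 : ContinuousAt (fun p : P.V × ℂ => P.Cv c k p.2) (u, x) :=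
    ContinuousAt.comp (g := P.Cv c k) (f := fun p : P.V × ℂ => p.2) (x := (u, x))
      (Cv_deriv k hx).continuousAt continuousAt_snd
  exact θ.dT.continuous.continuousAt.comp (h1.add continuousAt_fst)

private theorem SimpP_diff (u : P.V) (c : Bool) (k : ℤ) :
    DifferentiableOn ℂ (fun x => θ.T (P.Cv c k x + u)) (Om c) := fun _ hx =>
  (T_hasDerivAt θ u k hx).differentiableAt.differentiableWithinAt

private theorem SimpP_tlu (u1 : P.V) (c : Bool) (k : ℤ) (n : ℕ) :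
    TendstoLocallyUniformlyOn (fun u => iteratedDeriv n fun x => θ.T (P.Cv c k x + u))
      (iteratedDeriv n fun x => θ.T (P.Cv c k x + u1)) (𝓝 u1) (Om c) ∧
    ∀ u, DifferentiableOn ℂ (iteratedDeriv n fun x => θ.T (P.Cv c k x + u)) (Om c) := by
  induction n with
  | zero =>
    simp only [iteratedDeriv_zero]
    refine ⟨?_, fun u => SimpP_diff θ u c k⟩
    rw [Metric.tendstoLocallyUniformlyOn_iff]
    intro ε hε x hx
    have h1 := Metric.continuousAt_iff'.1 (SimpP_joint θ k hx u1) (ε / 2) (by positivity)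
    rw [nhds_prod_eq] at h1
    obtain ⟨p, hp, q, hq, hpq⟩ := eventually_prod_iff.1 h1
    refine ⟨{y | q y}, mem_nhdsWithin_of_mem_nhds hq, ?_⟩
    filter_upwards [hp] with u hu y hy
    have h2 := hpq hu hy
    have h3 := hpq hp.self_of_nhds hy
    calc dist (θ.T (P.Cv c k y + u1)) (θ.T (P.Cv c k y + u))
        ≤ dist (θ.T (P.Cv c k y + u1)) (θ.T (P.Cv c k x + u1)) +
          dist (θ.T (P.Cv c k x + u1)) (θ.T (P.Cv c k y + u)) := dist_triangle _ _ _
      _ < ε / 2 + ε / 2 := by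
          refine add_lt_add h3 ?_
          rw [dist_comm]
          exact h2
      _ = ε := by ring
  | succ n ih =>
    obtain ⟨h1, h2⟩ := ih
    simp only [iteratedDeriv_succ]
    exact ⟨h1.deriv (Eventually.of_forall h2) (Om_isOpen c), fun u => (h2 u).deriv (Om_isOpen c)⟩

/-- the order does not increase -/
private theorem SimpP_order {u1 : P.V} (h : θ.T u1 ≠ 0) {c : Bool} (k : ℤ) {x0 : ℂ}
    (hx : x0 ∈ Om c) : ∃ r > 0, Metric.ball x0 r ⊆ Om c ∧ ∀ᶠ u in 𝓝 u1, ∀ x ∈ Metric.ball x0 r,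
      analyticOrderAt (fun x => θ.T (P.Cv c k x + u)) x ≤
        analyticOrderNatAt (fun x => θ.T (P.Cv c k x + u1)) x0 := by
  obtain ⟨ha, ht⟩ := T_order θ u1 h k hx
  set n := analyticOrderNatAt (fun x => θ.T (P.Cv c k x + u1)) x0 with hn
  have hn2 : analyticOrderAt (fun x => θ.T (P.Cv c k x + u1)) x0 = n :=
    (Nat.cast_analyticOrderNatAt ht).symm
  have hne := ((analyticOrderAt_eq_nat_iff_iteratedDeriv_eq_zero ha).1 hn2).2
  obtain ⟨h1, h2⟩ := SimpP_tlu θ u1 c k n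
  set g := iteratedDeriv n fun x => θ.T (P.Cv c k x + u1) with hg
  have hg0 : 0 < ‖g x0‖ := norm_pos_iff.2 hne
  have hgc : ContinuousAt g x0 := ((h2 u1).differentiableAt ((Om_isOpen c).mem_nhds hx)).continuousAt
  obtain ⟨t, ht1, ht2⟩ := (Metric.tendstoLocallyUniformlyOn_iff.1 h1) (‖g x0‖ / 2)
    (by positivity) x0 hx
  rw [(Om_isOpen c).nhdsWithin_eq hx] at ht1
  have h3 : {y | dist (g y) (g x0) < ‖g x0‖ / 2} ∈ 𝓝 x0 :=
    Metric.continuousAt_iff'.1 hgc (‖g x0‖ / 2) (by positivity)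
  obtain ⟨r, hr, hr2⟩ := Metric.mem_nhds_iff.1
    (inter_mem (inter_mem ht1 h3) ((Om_isOpen c).mem_nhds hx))
  refine ⟨r, hr, fun y hy => (hr2 hy).2, ?_⟩
  filter_upwards [ht2] with u hu x hxr
  have hx1 := hr2 hxr
  by_contra hlt
  rw [not_le] at hlt
  have hle : ((n + 1 : ℕ) : ℕ∞) ≤ analyticOrderAt (fun x => θ.T (P.Cv c k x + u)) x := by
    rw [Nat.cast_add, Nat.cast_one]
    exact Order.add_one_le_of_lt hlt
  have ha2 : AnalyticAt ℂ (fun x => θ.T (P.Cv c k x + u)) x :=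
    (SimpP_diff θ u c k).analyticAt ((Om_isOpen c).mem_nhds hx1.2)
  have h5 := (natCast_le_analyticOrderAt_iff_iteratedDeriv_eq_zero ha2).1 hle n (Nat.lt_succ_self n)
  have h6 := hu x hx1.1.1
  rw [h5, dist_zero_right] at h6
  have h7 : dist (g x) (g x0) < ‖g x0‖ / 2 := hx1.1.2
  rw [dist_eq_norm, norm_sub_rev] at h7
  have h8 := norm_sub_norm_le (g x0) (g x)
  linarith

private theorem SimpP_count {u1 : P.V} (h : θ.Adm u1)
    (hmax : ∀ᶠ u in 𝓝 u1, (θ.Z u).ncard ≤ (θ.Z u1).ncard) :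
    ∃ ε > 0, (∀ z ∈ θ.Z u1, Metric.closedBall z.1 ε ⊆ Om (cs z)) ∧ ∀ δ > 0, ∀ᶠ u in 𝓝 u1,
      ∀ z ∈ θ.Z u1, ∃ q, ‖q - z.1‖ < δ ∧
        analyticOrderAt (fun x => θ.T (P.Cv (cs z) (P.ks z) x + u)) q = θ.mult u1 z ∧
        ∀ x ∈ Metric.closedBall z.1 ε, θ.T (P.Cv (cs z) (P.ks z) x + u) = 0 → x = q := by
  classical
  have hfin := Z_finite θ h
  have hspec : ∀ z ∈ θ.Z u1, z.1 ∈ Om (cs z) ∧ P.pt (cs z) (P.ks z) z.1 = z := fun z hz =>
    ⟨(ks_spec hz.1).1, (ks_spec hz.1).2.2⟩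
  have hex : ∀ᶠ ε in 𝓝[>] (0 : ℝ), 0 < ε ∧ ∀ z ∈ θ.Z u1,
      (Metric.closedBall z.1 ε ⊆ Om (cs z) ∧ (∀ᶠ u in 𝓝 u1, ∀ x ∈ Metric.closedBall z.1 ε,
        analyticOrderAt (fun x => θ.T (P.Cv (cs z) (P.ks z) x + u)) x ≤ θ.mult u1 z)) ∧
      ∀ z' ∈ θ.Z u1, z.1 ≠ z'.1 → 2 * ε < ‖z.1 - z'.1‖ := by
    refine Eventually.and self_mem_nhdsWithin ?_
    rw [eventually_all_finite hfin]
    intro z hz
    refine Eventually.and ?_ ?_
    · obtain ⟨r, hr, hr1, hr2⟩ := SimpP_order θ h.1 (P.ks z) (hspec z hz).1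
      filter_upwards [Ioo_mem_nhdsGT hr] with ε hε
      have h1 : Metric.closedBall z.1 ε ⊆ Metric.ball z.1 r :=
        Metric.closedBall_subset_ball hε.2
      refine ⟨h1.trans hr1, ?_⟩
      filter_upwards [hr2] with u hu x hx
      exact hu x (h1 hx)
    · rw [eventually_all_finite hfin]
      intro z' hz'
      by_cases hne : z.1 = z'.1
      · exact Eventually.of_forall fun ε h1 => absurd hne h1
      · have h1 : 0 < ‖z.1 - z'.1‖ / 2 := by
          have := norm_pos_iff.2 (sub_ne_zero.2 hne)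
          positivity
        filter_upwards [Ioo_mem_nhdsGT h1] with ε hε _
        linarith [hε.2]
  obtain ⟨ε, hε, hall⟩ := hex.exists
  refine ⟨ε, hε, fun z hz => (hall z hz).1.1, ?_⟩
  have hsep : ∀ z ∈ θ.Z u1, ∀ z' ∈ θ.Z u1, ∀ x ∈ Metric.closedBall z.1 ε,
      ∀ x' ∈ Metric.closedBall z'.1 ε, P.pt (cs z) (P.ks z) x = P.pt (cs z') (P.ks z') x' →
        z = z' ∧ x = x' := by
    intro z hz z' hz' x hx x' hx' he
    have h1 : x = x' := congrArg Prod.fst he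
    subst h1
    refine ⟨?_, rfl⟩
    have h2 : z.1 = z'.1 := by
      by_contra hne
      have h3 := (hall z hz).2 z' hz' hne
      rw [Metric.mem_closedBall, dist_eq_norm] at hx hx'
      have h4 : ‖z.1 - z'.1‖ ≤ ‖x - z.1‖ + ‖x - z'.1‖ := by
        have h5 : z.1 - z'.1 = (x - z'.1) - (x - z.1) := by ring
        rw [h5, add_comm]
        exact norm_sub_le _ _
      linarith
    have h3 : cs z = cs z' := by
      unfold cs
      rw [h2]
    rw [← h3, P.pt_eq_iff] at he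
    have h4 : P.pt (cs z) (P.ks z) z.1 = P.pt (cs z) (P.ks z') z.1 := P.pt_eq_iff.2 he
    rw [(hspec z hz).2, h2, h3, (hspec z' hz').2] at h4
    exact h4
  intro δ hδ
  have hord : ∀ᶠ u in 𝓝 u1, ∀ z ∈ θ.Z u1, ∀ x ∈ Metric.closedBall z.1 ε,
      analyticOrderAt (fun x => θ.T (P.Cv (cs z) (P.ks z) x + u)) x ≤ θ.mult u1 z := by
    rw [eventually_all_finite hfin]
    exact fun z hz => (hall z hz).1.2
  filter_upwards [persist θ h (lt_min hδ hε), hmax, hord] with u hper hcard hord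
  obtain ⟨hadm, hzero, -⟩ := hper
  have hx : ∀ z : ℂ × ℂ, ∃ x, z ∈ θ.Z u1 → ‖x - z.1‖ < min δ ε ∧ x ∈ Om (cs z) ∧
      θ.T (P.Cv (cs z) (P.ks z) x + u) = 0 := by
    intro z
    by_cases hz : z ∈ θ.Z u1
    · obtain ⟨x, hx⟩ := hzero z hz
      exact ⟨x, fun _ => hx⟩
    · exact ⟨0, fun h' => absurd h' hz⟩
  choose x hx using hx
  have hxb : ∀ z ∈ θ.Z u1, x z ∈ Metric.closedBall z.1 ε := by
    intro z hz
    rw [Metric.mem_closedBall, dist_eq_norm]
    exact ((hx z hz).1.trans_le (min_le_right _ _)).le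
  set G : ℂ × ℂ → ℂ × ℂ := fun z => P.pt (cs z) (P.ks z) (x z) with hG
  have hinj : Set.InjOn G (θ.Z u1) := fun z hz z' hz' he =>
    (hsep z hz z' hz' (x z) (hxb z hz) (x z') (hxb z' hz') he).1
  have hGZ : ∀ z ∈ θ.Z u1, G z ∈ θ.Z u := fun z hz =>
    (Z_pt θ u (P.ks z) (hx z hz).2.1).2 (hx z hz).2.2
  set A := hfin.toFinset with hA
  set B := (Z_finite θ hadm).toFinset with hB
  have hmemA : ∀ z, z ∈ A ↔ z ∈ θ.Z u1 := fun z => by rw [hA, Set.Finite.mem_toFinset]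
  have hmemB : ∀ z, z ∈ B ↔ z ∈ θ.Z u := fun z => by rw [hB, Set.Finite.mem_toFinset]
  have hinjA : Set.InjOn G A := fun z hz z' hz' he =>
    hinj ((hmemA z).1 hz) ((hmemA z').1 hz') he
  have himg : A.image G = B := by
    refine Finset.eq_of_subset_of_card_le ?_ ?_
    · intro w hw
      obtain ⟨z, hz, rfl⟩ := Finset.mem_image.1 hw
      exact (hmemB _).2 (hGZ z ((hmemA z).1 hz))
    · rw [Finset.card_image_of_injOn hinjA, hA, hB, ← Set.ncard_eq_toFinset_card _ hfin,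
        ← Set.ncard_eq_toFinset_card _ (Z_finite θ hadm)]
      exact hcard
  have hmult : ∀ z ∈ θ.Z u1, θ.mult u (G z) =
      analyticOrderNatAt (fun x => θ.T (P.Cv (cs z) (P.ks z) x + u)) (x z) := fun z hz =>
    mult_pt θ u (P.ks z) (hx z hz).2.1
  have htop : ∀ z ∈ θ.Z u1,
      analyticOrderAt (fun x => θ.T (P.Cv (cs z) (P.ks z) x + u)) (x z) ≠ ⊤ := fun z hz =>
    (T_order θ u hadm.1 (P.ks z) (hx z hz).2.1).2
  have hle : ∀ z ∈ A, θ.mult u (G z) ≤ θ.mult u1 z := by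
    intro z hz
    have hz' := (hmemA z).1 hz
    have h1 := hord z hz' (x z) (hxb z hz')
    rw [← Nat.cast_analyticOrderNatAt (htop z hz'), ← hmult z hz'] at h1
    exact_mod_cast h1
  have hsum : ∑ z ∈ A, θ.mult u (G z) = ∑ z ∈ A, θ.mult u1 z := by
    rw [← Finset.sum_image (f := fun w => θ.mult u w) hinjA, himg, hA, hB, count θ h,
      count θ hadm]
  have heq := (Finset.sum_eq_sum_iff_of_le hle).1 hsum
  intro z hz
  refine ⟨x z, (hx z hz).1.trans_le (min_le_left _ _), ?_, ?_⟩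
  · rw [← Nat.cast_analyticOrderNatAt (htop z hz), ← hmult z hz, heq z ((hmemA z).2 hz)]
  · intro y hy hy0
    have h1 : P.pt (cs z) (P.ks z) y ∈ B :=
      (hmemB _).2 ((Z_pt θ u (P.ks z) ((hall z hz).1.1 hy)).2 hy0)
    rw [← himg] at h1
    obtain ⟨z', hz', he⟩ := Finset.mem_image.1 h1
    have hz1 := (hmemA z').1 hz'
    obtain ⟨h2, h3⟩ := hsep z' hz1 z hz (x z') (hxb z' hz1) y hy he
    rw [← h3, h2]

theorem simple_pole {u1 : P.V} (h : θ.Adm u1)
    (hmax : ∀ᶠ u in 𝓝 u1, (θ.Z u).ncard ≤ (θ.Z u1).ncard) (t : P.Ix) {z : ℂ × ℂ}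
    (hz : z ∈ θ.Z u1) :
    ∃ ρ, Tendsto (fun x => (x - z.1) * θ.L t (P.Cv (cs z) (P.ks z) x + u1)) (𝓝[≠] z.1) (𝓝 ρ) := by
  obtain ⟨ε, hε, hball, hq⟩ := SimpP_count θ h hmax
  have hUε := hball z hz
  set e : P.V := Pi.single t 1 with he
  set τ : ℂ → ℂ → ℂ := fun s x => θ.T (P.Cv (cs z) (P.ks z) x + (u1 + s • e)) with hτ
  have hline : Tendsto (fun s : ℂ => u1 + s • e) (𝓝 0) (𝓝 u1) := by
    have h1 : Continuous fun s : ℂ => u1 + s • e := by fun_prop
    have h2 := h1.tendsto 0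
    rwa [zero_smul, add_zero] at h2
  have hsc : ContinuousOn (fun p : ℂ × ℂ => τ p.2 p.1)
      (Metric.sphere z.1 ε ×ˢ Metric.closedBall (0 : ℂ) 1) := by
    intro p hp
    have h1 : p.1 ∈ Om (cs z) := hUε (Metric.sphere_subset_closedBall hp.1)
    have h2 : ContinuousAt (fun p : ℂ × ℂ => P.Cv (cs z) (P.ks z) p.1) p :=
      ContinuousAt.comp (g := P.Cv (cs z) (P.ks z)) (f := fun p : ℂ × ℂ => p.1) (x := p)
        (Cv_deriv (P.ks z) h1).continuousAt continuousAt_fst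
    have h3 : Continuous fun p : ℂ × ℂ => u1 + p.2 • e := by fun_prop
    exact (θ.dT.continuous.continuousAt.comp (h2.add h3.continuousAt)).continuousWithinAt
  obtain ⟨M, hM⟩ := ((isCompact_sphere z.1 ε).prod
    (isCompact_closedBall (0 : ℂ) 1)).exists_bound_of_continuousOn hsc
  have hC : ∀ᶠ s in 𝓝 (0 : ℂ), ∀ x ∈ Metric.sphere z.1 ε, ‖τ s x - τ 0 x‖ ≤ (2 * M) * ‖s‖ := by
    filter_upwards [Metric.ball_mem_nhds (0 : ℂ) one_pos] with s hs x hx
    have hd : Differentiable ℂ fun s : ℂ => τ s x := by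
      have h1 : Differentiable ℂ fun s : ℂ => P.Cv (cs z) (P.ks z) x + (u1 + s • e) := by
        fun_prop
      exact θ.dT.comp h1
    have hmaps : Set.MapsTo (fun s : ℂ => τ s x) (Metric.ball 0 1)
        (Metric.closedBall (τ 0 x) (2 * M)) := by
      intro s' hs'
      have h1 := hM (x, s') ⟨hx, Metric.ball_subset_closedBall hs'⟩
      have h2 := hM (x, 0) ⟨hx, Metric.mem_closedBall_self zero_le_one⟩
      rw [Metric.mem_closedBall, dist_eq_norm]
      calc ‖τ s' x - τ 0 x‖ ≤ ‖τ s' x‖ + ‖τ 0 x‖ := norm_sub_le _ _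
        _ ≤ M + M := add_le_add h1 h2
        _ = 2 * M := by ring
    have h3 := Complex.dist_le_div_mul_dist_of_mapsTo_ball hd.differentiableOn hmaps hs
    rwa [dist_eq_norm, dist_zero_right, div_one] at h3
  have hder : ∀ x ∈ Metric.ball z.1 ε, HasDerivAt (fun s => τ s x)
      (fderiv ℂ θ.T (P.Cv (cs z) (P.ks z) x + u1) e) 0 := by
    intro x hx
    have h1 : HasDerivAt (fun s : ℂ => P.Cv (cs z) (P.ks z) x + (u1 + s • e)) e 0 := by
      have h2 := ((((hasDerivAt_id (0 : ℂ)).smul_const e).const_add u1).const_add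
        (P.Cv (cs z) (P.ks z) x))
      rwa [one_smul] at h2
    have h3 : HasFDerivAt θ.T (fderiv ℂ θ.T (P.Cv (cs z) (P.ks z) x + u1))
        (P.Cv (cs z) (P.ks z) x + (u1 + (0 : ℂ) • e)) := by
      rw [zero_smul, add_zero]
      exact (θ.dT _).hasFDerivAt
    exact h3.comp_hasDerivAt (0 : ℂ) h1
  obtain ⟨ρ, hρ⟩ := SimpP_main (τ := τ) (Om_isOpen (cs z)) hε (one_le_mult θ h hz) hUε
    (fun s => SimpP_diff θ (u1 + s • e) (cs z) (P.ks z))
    (fun δ hδ => (hline.eventually (hq δ hδ)).mono fun s hs => hs z hz) hC hder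
  refine ⟨ρ, hρ.congr fun x => ?_⟩
  show (x - z.1) * (fderiv ℂ θ.T (P.Cv (cs z) (P.ks z) x + u1) e /
    θ.T (P.Cv (cs z) (P.ks z) x + (u1 + (0 : ℂ) • e))) = _
  rw [zero_smul, add_zero]
  rfl

end

end Pool.Agent.RHT.Par
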