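import Pool.Agent.RHT.SimpP

/-!
RHT-Smp. There is a translation with `g` different zeros. Plan: `(Z u).ncard ≤ card Ix` by `count`
and `one_le_mult`; take `u1` admissible (`adm_ex`) with the largest `ncard`; `adm_open` gives
`hmax`; `simple_pole` for all `t`, `z`: residues `ρ t z`; `residues`: the product of the matrices
`(F s z)_{s,z}` and `(ρ t z)_{z,t}` is the identity of size `card Ix`, so `card Ix ≤ ncard` (rank).
-/

set_option autoImplicit false

namespace Pool.Agent.RHT.Par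

open Complex ComplexConjugate Finset Filter Topology

noncomputable section

variable {P : Par} (θ : P.Th)

theorem ncard_le_card {u : P.V} (h : θ.Adm u) : (θ.Z u).ncard ≤ Fintype.card P.Ix := by
  rw [Set.ncard_eq_toFinset_card _ (Z_finite θ h), ← count θ h, Finset.card_eq_sum_ones]
  exact Finset.sum_le_sum fun z hz => one_le_mult θ h ((Z_finite θ h).mem_toFinset.1 hz)

theorem exists_simple : ∃ u1, θ.Adm u1 ∧ (θ.Z u1).ncard = Fintype.card P.Ix := by
  classical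
  obtain ⟨u0, hu0⟩ := adm_ex θ
  obtain ⟨S, hS⟩ : ∃ S : Set ℕ, S = {m | ∃ u, θ.Adm u ∧ (θ.Z u).ncard = m} := ⟨_, rfl⟩
  have hne : S.Nonempty := ⟨(θ.Z u0).ncard, by rw [hS]; exact ⟨u0, hu0, rfl⟩⟩
  have hbd : BddAbove S := by
    refine ⟨Fintype.card P.Ix, ?_⟩
    intro m hm
    rw [hS] at hm
    obtain ⟨u, hu, rfl⟩ := hm
    exact ncard_le_card θ hu
  have hmem := Nat.sSup_mem hne hbd
  rw [hS] at hmem
  obtain ⟨u1, h, hu1⟩ := hmem
  rw [← hS] at hu1
  have hmax : ∀ᶠ u in 𝓝 u1, (θ.Z u).ncard ≤ (θ.Z u1).ncard := by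
    have h1 : ∀ᶠ u in 𝓝 u1, θ.Adm u := (adm_open θ).mem_nhds h
    filter_upwards [h1] with u hu
    rw [hu1]
    exact le_csSup hbd (by rw [hS]; exact ⟨u, hu, rfl⟩)
  refine ⟨u1, h, le_antisymm (ncard_le_card θ h) ?_⟩
  have hex : ∀ (t : P.Ix) (z : ℂ × ℂ), ∃ ρ, z ∈ θ.Z u1 →
      Tendsto (fun x => (x - z.1) * θ.L t (P.Cv (cs z) (P.ks z) x + u1)) (𝓝[≠] z.1) (𝓝 ρ) := by
    intro t z
    by_cases hz : z ∈ θ.Z u1
    · obtain ⟨ρ, hρ⟩ := simple_pole θ h hmax t hz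
      exact ⟨ρ, fun _ => hρ⟩
    · exact ⟨0, fun h1 => absurd h1 hz⟩
  choose ρ hρ using hex
  obtain ⟨A, hA⟩ : ∃ A : Matrix P.Ix (Z_finite θ h).toFinset ℂ,
      A = Matrix.of fun (s : P.Ix) (z : (Z_finite θ h).toFinset) =>
        P.F (s : ℕ) (z : ℂ × ℂ) := ⟨_, rfl⟩
  obtain ⟨B, hB⟩ : ∃ B : Matrix (Z_finite θ h).toFinset P.Ix ℂ,
      B = Matrix.of fun (z : (Z_finite θ h).toFinset) (t : P.Ix) =>
        ρ t (z : ℂ × ℂ) := ⟨_, rfl⟩
  have hAB : A * B = 1 := by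
    ext s t
    rw [Matrix.mul_apply, Matrix.one_apply, ← residues θ h t (ρ t) (fun z hz => hρ t z hz) s,
      ← Finset.sum_coe_sort (Z_finite θ h).toFinset fun z => ρ t z * P.F s z]
    refine Finset.sum_congr rfl fun z _ => ?_
    rw [hA, hB, Matrix.of_apply, Matrix.of_apply, mul_comm]
  have h2 : (A * B).rank = Fintype.card P.Ix := by
    rw [hAB, Matrix.rank_one]
  rw [← h2, Set.ncard_eq_toFinset_card _ (Z_finite θ h)]
  refine (Matrix.rank_mul_le_left A B).trans ((Matrix.rank_le_card_width A).trans ?_)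
  rw [Fintype.card_coe]

/-- `g` different zeros are simple -/
theorem mult_one {u : P.V} (h : θ.Adm u) (hn : (θ.Z u).ncard = Fintype.card P.Ix)
    {z : ℂ × ℂ} (hz : z ∈ θ.Z u) : θ.mult u z = 1 := by
  have h1 : ∀ w ∈ (Z_finite θ h).toFinset, 1 ≤ θ.mult u w := fun w hw =>
    one_le_mult θ h ((Z_finite θ h).mem_toFinset.1 hw)
  have h2 : ∑ w ∈ (Z_finite θ h).toFinset, 1 = ∑ w ∈ (Z_finite θ h).toFinset, θ.mult u w := by
    rw [← Finset.card_eq_sum_ones, ← Set.ncard_eq_toFinset_card _ (Z_finite θ h), hn, count θ h]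
  exact ((Finset.sum_eq_sum_iff_of_le h1).1 h2 z ((Z_finite θ h).mem_toFinset.2 hz)).symm

end

end Pool.Agent.RHT.Par
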