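import Pool.Agent.RHT.Leg

/-!
RHT-Span. The periods `mu k` span `V` over `ℝ`, they are periodic in `k`.
-/

set_option autoImplicit false

namespace Pool.Agent.RHT.Par

open Complex ComplexConjugate Finset

noncomputable section

variable (P : Par)

private theorem span_D_pos : 0 < P.D := by
  have := P.hD
  omega

private theorem span_prim : IsPrimitiveRoot P.ze P.D := by
  have h := Complex.isPrimitiveRoot_exp P.D (span_D_pos P).ne'
  exact h

private theorem span_ze_ne : P.ze ≠ 0 := by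
  unfold ze
  exact Complex.exp_ne_zero _

private theorem span_ze_mulD (n : ℤ) : P.ze ^ ((P.D : ℤ) * n) = 1 := by
  rw [zpow_mul, zpow_natCast, (span_prim P).pow_eq_one, one_zpow]

theorem mu_mem (k : ℤ) : P.mu k ∈ P.Lam := by
  exact AddSubgroup.subset_closure ⟨k, rfl⟩

private theorem span_mu_add (k n : ℤ) : P.mu (k + (P.D : ℤ) * n) = P.mu k := by
  funext t
  unfold mu
  have h : -((k + (P.D : ℤ) * n) * ((t : ℕ) : ℤ)) = -(k * ((t : ℕ) : ℤ)) +
      (P.D : ℤ) * (-(n * ((t : ℕ) : ℤ))) := by ring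
  rw [h, zpow_add₀ (span_ze_ne P), span_ze_mulD, mul_one]

theorem mu_add_D (k : ℤ) : P.mu (k + P.D) = P.mu k := by
  have h := span_mu_add P k 1
  rwa [mul_one] at h

theorem mu_finite : (Set.range P.mu).Finite := by
  apply (Set.finite_range (fun k : Fin P.D => P.mu ((k : ℕ) : ℤ))).subset
  rintro _ ⟨k, rfl⟩
  have hD : (0 : ℤ) < P.D := by exact_mod_cast span_D_pos P
  have h0 : 0 ≤ k % (P.D : ℤ) := Int.emod_nonneg _ hD.ne'
  have h1 : k % (P.D : ℤ) < P.D := Int.emod_lt_of_pos _ hD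
  refine ⟨⟨(k % (P.D : ℤ)).toNat, by omega⟩, ?_⟩
  have h2 : (((k % (P.D : ℤ)).toNat : ℕ) : ℤ) = k % (P.D : ℤ) := Int.toNat_of_nonneg h0
  show P.mu (((k % (P.D : ℤ)).toNat : ℕ) : ℤ) = P.mu k
  rw [h2]
  conv_rhs => rw [← Int.emod_add_mul_ediv k (P.D : ℤ)]
  rw [span_mu_add]

private theorem span_geom {m : ℤ} (hm : ¬ (P.D : ℤ) ∣ m) :
    ∑ k ∈ range P.D, P.ze ^ ((k : ℤ) * m) = 0 := by
  have h1 : P.ze ^ m ≠ 1 := fun h => hm ((span_prim P).zpow_eq_one_iff_dvd m |>.1 h)
  have h2 : (P.ze ^ m - 1) * ∑ k ∈ range P.D, (P.ze ^ m) ^ k = (P.ze ^ m) ^ P.D - 1 :=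
    mul_geom_sum _ _
  have h3 : (P.ze ^ m) ^ P.D = 1 := by
    rw [← zpow_natCast, ← zpow_mul, mul_comm, span_ze_mulD]
  rw [h3, sub_self] at h2
  have h4 := (mul_eq_zero.1 h2).resolve_left (sub_ne_zero.2 h1)
  rw [← h4]
  apply Finset.sum_congr rfl
  intro k _
  rw [← zpow_natCast, ← zpow_mul, mul_comm]

private theorem span_conj_ze (n : ℤ) : conj (P.ze ^ n) = P.ze ^ (-n) := by
  have h : conj P.ze = P.ze⁻¹ := by
    unfold ze
    rw [← Complex.exp_conj, ← Complex.exp_neg]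
    congr 1
    have h2 : conj (2 : ℂ) = 2 := Complex.conj_ofNat 2
    rw [map_div₀, map_mul, map_mul, h2, Complex.conj_ofReal, Complex.conj_I, Complex.conj_natCast]
    ring
  rw [map_zpow₀, h, inv_zpow, zpow_neg]

private theorem span_single (t0 : P.Ix) (z : ℂ) :
    Pi.single t0 z ∈ Submodule.span ℝ (Set.range P.mu) := by
  have hP : P.Pe (t0 : ℕ) ≠ 0 := norm_pos_iff.1 (P.Pe_eq t0.2).2
  have hD : (P.D : ℂ) ≠ 0 := by exact_mod_cast (span_D_pos P).ne'
  set w : ℂ := z / (P.D * P.Pe (t0 : ℕ)) with hw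
  have key : (Pi.single t0 z : P.V) =
      ∑ k ∈ range P.D, (2 * (w * P.ze ^ ((k : ℤ) * ((t0 : ℕ) : ℤ))).re : ℝ) • P.mu (k : ℤ) := by
    funext t
    rw [Finset.sum_apply]
    have hterm : ∀ k ∈ range P.D,
        ((2 * (w * P.ze ^ ((k : ℤ) * ((t0 : ℕ) : ℤ))).re : ℝ) • P.mu (k : ℤ)) t =
        w * P.Pe t * P.ze ^ ((k : ℤ) * (((t0 : ℕ) : ℤ) - ((t : ℕ) : ℤ))) +
        conj w * P.Pe t * P.ze ^ ((k : ℤ) * (-(((t0 : ℕ) : ℤ) + ((t : ℕ) : ℤ)))) := by
      intro k _
      rw [Pi.smul_apply, Complex.real_smul]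
      have h1 : ((2 * (w * P.ze ^ ((k : ℤ) * ((t0 : ℕ) : ℤ))).re : ℝ) : ℂ) =
          w * P.ze ^ ((k : ℤ) * ((t0 : ℕ) : ℤ)) + conj w * P.ze ^ (-((k : ℤ) * ((t0 : ℕ) : ℤ))) := by
        rw [← span_conj_ze, ← map_mul, Complex.add_conj]
      rw [h1]
      unfold mu
      have h2 : P.ze ^ ((k : ℤ) * (((t0 : ℕ) : ℤ) - ((t : ℕ) : ℤ))) =
          P.ze ^ ((k : ℤ) * ((t0 : ℕ) : ℤ)) * P.ze ^ (-((k : ℤ) * ((t : ℕ) : ℤ))) := by
        rw [← zpow_add₀ (span_ze_ne P)]
        congr 1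
        ring
      have h3 : P.ze ^ ((k : ℤ) * (-(((t0 : ℕ) : ℤ) + ((t : ℕ) : ℤ)))) =
          P.ze ^ (-((k : ℤ) * ((t0 : ℕ) : ℤ))) * P.ze ^ (-((k : ℤ) * ((t : ℕ) : ℤ))) := by
        rw [← zpow_add₀ (span_ze_ne P)]
        congr 1
        ring
      rw [h2, h3]
      ring
    rw [Finset.sum_congr rfl hterm, Finset.sum_add_distrib, ← Finset.mul_sum, ← Finset.mul_sum]
    have ht := P.Phi_pos t.2
    have ht0 := P.Phi_pos t0.2
    have hsum2 : ∑ k ∈ range P.D, P.ze ^ ((k : ℤ) * (-(((t0 : ℕ) : ℤ) + ((t : ℕ) : ℤ)))) = 0 := by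
      apply span_geom
      intro hd
      rw [dvd_neg] at hd
      obtain ⟨c, hc⟩ := hd
      have hc1 : c = 1 := by
        have h1 : 0 < c := by
          by_contra hcon
          have : (P.D : ℤ) * c ≤ 0 := mul_nonpos_of_nonneg_of_nonpos (by omega) (by omega)
          omega
        have h2 : c < 2 := by
          by_contra hcon
          have : (P.D : ℤ) * 2 ≤ (P.D : ℤ) * c := mul_le_mul_of_nonneg_left (by omega) (by omega)
          omega
        omega
      rw [hc1, mul_one] at hc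
      have hc2 : (t : ℕ) = P.D - (t0 : ℕ) := by omega
      exact P.not_both ht0.1 ht0.2 t0.2 (hc2 ▸ t.2)
    rw [hsum2, mul_zero, add_zero]
    by_cases htt : t = t0
    · subst htt
      rw [Pi.single_eq_same]
      simp only [sub_self, mul_zero, zpow_zero, Finset.sum_const, Finset.card_range, nsmul_eq_mul,
        mul_one]
      rw [hw]
      field_simp
    · rw [Pi.single_eq_of_ne htt]
      rw [span_geom P, mul_zero]
      intro hd
      have h1 : (t0 : ℕ) = (t : ℕ) := by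
        obtain ⟨c, hc⟩ := hd
        have hc0 : c = 0 := by
          have h1 : -1 < c := by
            by_contra hcon
            have : (P.D : ℤ) * c ≤ (P.D : ℤ) * (-1) :=
              mul_le_mul_of_nonneg_left (by omega) (by omega)
            omega
          have h2 : c < 1 := by
            by_contra hcon
            have : (P.D : ℤ) * 1 ≤ (P.D : ℤ) * c :=
              mul_le_mul_of_nonneg_left (by omega) (by omega)
            omega
          omega
        rw [hc0, mul_zero] at hc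
        omega
      exact htt (Subtype.ext h1.symm)
  rw [key]
  exact Submodule.sum_mem _ fun k _ =>
    Submodule.smul_mem _ _ (Submodule.subset_span ⟨(k : ℤ), rfl⟩)

theorem span_mu : Submodule.span ℝ (Set.range P.mu) = ⊤ := by
  rw [eq_top_iff]
  intro u _
  rw [← Finset.univ_sum_single u]
  exact Submodule.sum_mem _ fun t _ => span_single P t (u t)

/-- integer polynomials in `ζ^t` times the periods are in the lattice -/
theorem poly_mem (p : Polynomial ℤ) :
    (fun t : P.Ix => Polynomial.aeval (P.ze ^ (t : ℕ)) p * P.Pe t) ∈ P.Lam := by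
  induction p using Polynomial.induction_on' with
  | add p q hp hq =>
    have h : (fun t : P.Ix => Polynomial.aeval (P.ze ^ (t : ℕ)) (p + q) * P.Pe t) =
        (fun t : P.Ix => Polynomial.aeval (P.ze ^ (t : ℕ)) p * P.Pe t) +
        (fun t : P.Ix => Polynomial.aeval (P.ze ^ (t : ℕ)) q * P.Pe t) := by
      funext t
      rw [Pi.add_apply, map_add, add_mul]
    rw [h]
    exact P.Lam.add_mem hp hq
  | monomial n a =>
    have h : (fun t : P.Ix => Polynomial.aeval (P.ze ^ (t : ℕ)) (Polynomial.monomial n a) *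
        P.Pe t) = a • P.mu (-(n : ℤ)) := by
      funext t
      rw [Pi.smul_apply, Polynomial.aeval_monomial, zsmul_eq_mul]
      unfold mu
      have h1 : P.ze ^ (-(-(n : ℤ) * ((t : ℕ) : ℤ))) = (P.ze ^ (t : ℕ)) ^ n := by
        rw [← pow_mul, ← zpow_natCast]
        congr 1
        push_cast
        ring
      rw [h1]
      simp [mul_assoc]
    rw [h]
    exact P.Lam.zsmul_mem (P.mu_mem _) a

end

end Pool.Agent.RHT.Par
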