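import Mathlib

/-!
# Project RHT: theta functions for a hermitian form with integral imaginary part, definitions
-/

set_option autoImplicit false

namespace Pool.Agent.RHT

open Complex ComplexConjugate Finset

noncomputable section

variable {ι : Type} [Fintype ι]

/-- the hermitian form `∑ c_i u_i conj v_i` -/
def Hg (c : ι → ℝ) (u v : ι → ℂ) : ℂ := ∑ i, (c i : ℂ) * u i * conj (v i)

/-- `bs` is a `ℤ`-basis of `L` and linearly independent over `ℝ` -/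
def IsBas (L : AddSubgroup (ι → ℂ)) {n : ℕ} (bs : Fin n → (ι → ℂ)) : Prop :=
  (∀ i, bs i ∈ L) ∧ LinearIndependent ℝ bs ∧ ∀ l ∈ L, ∃ m : Fin n → ℤ, l = ∑ i, m i • bs i

/-- semicharacter for `Im Hg` -/
def IsSemi (c : ι → ℝ) (L : AddSubgroup (ι → ℂ)) (e : (ι → ℂ) → ℂ) : Prop :=
  (∀ l ∈ L, e l = 1 ∨ e l = -1) ∧
    ∀ l ∈ L, ∀ m ∈ L, e (l + m) = e l * e m * cexp (Real.pi * I * ((Hg c l m).im : ℝ))

/-- the Poincaré series -/
def thser (c : ι → ℝ) (L : AddSubgroup (ι → ℂ)) (e : (ι → ℂ) → ℂ) (v u : ι → ℂ) : ℂ :=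
  ∑' l : L, e l * cexp (-(Real.pi * Hg c u l) - Real.pi / 2 * Hg c l l +
    Real.pi * Hg c (u + l) v)

end

end Pool.Agent.RHT
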