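import Pool.Agent.RHT.TDefs

/-!
RHT-TLat. A finitely generated subgroup spanning over `ℝ` on which `Im Hg` is integral is a lattice.
Plan: `S` generates `L` and spans over `ℝ`. Discrete: for small `l ∈ L` the integers
`Im Hg c l s` (`s ∈ S`) are `0`, so `Im Hg c l v = 0` for all `v` (real linear in `v`), `v = I l`
gives `∑ c_i |l_i|² = 0`, `l = 0`. Then `L` is a `ZLattice` (`DiscreteTopology`,
`IsZLattice ℝ`), `ZLattice.module_free`, `Module.Free.chooseBasis`,
`ZLattice.rank` / `Basis.ofZLatticeBasis` give the basis. `IsSemi`: on a basis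
`e (∑ m_i b_i) = (-1)^(∑_{i<j} m_i m_j E_ij)`, `E_ij = Im Hg (b_i) (b_j) ∈ ℤ`,
`E_ji = - E_ij`, `E_ii = 0`; the parity of `∑_{i<j} (m_i m'_j + m'_i m_j) E_ij` is that of
`Im Hg l l' = ∑_{i<j} (m_i m'_j - m_j m'_i) E_ij`.
-/

set_option autoImplicit false

namespace Pool.Agent.RHT

open Complex ComplexConjugate Finset

noncomputable section

variable {ι : Type} [Fintype ι] [DecidableEq ι]

private theorem TLat_Hg_add (c : ι → ℝ) (u v w : ι → ℂ) : Hg c u (v + w) = Hg c u v + Hg c u w := by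
  unfold Hg
  rw [← Finset.sum_add_distrib]
  refine Finset.sum_congr rfl fun i _ => ?_
  rw [Pi.add_apply, map_add]
  ring

private theorem TLat_Hg_smul (c : ι → ℝ) (u v : ι → ℂ) (r : ℝ) :
    Hg c u (r • v) = r * Hg c u v := by
  unfold Hg
  rw [Finset.mul_sum]
  refine Finset.sum_congr rfl fun i _ => ?_
  rw [Pi.smul_apply, Complex.real_smul, map_mul, Complex.conj_ofReal]
  ring

private theorem TLat_im_zero (c : ι → ℝ) (S : Set (ι → ℂ)) (hspan : Submodule.span ℝ S = ⊤)
    (l : ι → ℂ) (h : ∀ s ∈ S, (Hg c l s).im = 0) (v : ι → ℂ) : (Hg c l v).im = 0 := by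
  have hv : v ∈ Submodule.span ℝ S := by rw [hspan]; trivial
  induction hv using Submodule.span_induction with
  | mem x hx => exact h x hx
  | zero => simp [Hg]
  | add x y _ _ hx hy => rw [TLat_Hg_add, Complex.add_im, hx, hy, add_zero]
  | smul r x _ hx =>
    rw [TLat_Hg_smul, Complex.mul_im, Complex.ofReal_re, Complex.ofReal_im, hx]
    ring

private theorem TLat_eq_zero (c : ι → ℝ) (hc : ∀ i, 0 < c i) (l : ι → ℂ)
    (h : ∀ v, (Hg c l v).im = 0) : l = 0 := by
  have h1 := h (fun i => Complex.I * l i)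
  have h2 : (Hg c l (fun i => Complex.I * l i)).im = -∑ i, c i * Complex.normSq (l i) := by
    unfold Hg
    rw [Complex.im_sum, ← Finset.sum_neg_distrib]
    refine Finset.sum_congr rfl fun i _ => ?_
    rw [Complex.normSq_apply]
    simp only [Complex.mul_im, Complex.mul_re, Complex.conj_re, Complex.conj_im,
      Complex.ofReal_re, Complex.ofReal_im, Complex.I_re, Complex.I_im, map_mul]
    ring
  rw [h2, neg_eq_zero, Finset.sum_eq_zero_iff_of_nonneg
    (fun i _ => mul_nonneg (hc i).le (Complex.normSq_nonneg _))] at h1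
  funext i
  have h3 := h1 i (Finset.mem_univ _)
  rcases mul_eq_zero.1 h3 with h4 | h4
  · exact absurd h4 (hc i).ne'
  · exact Complex.normSq_eq_zero.1 h4

private theorem TLat_bound (c : ι → ℝ) (hc : ∀ i, 0 < c i) (l s : ι → ℂ) :
    |(Hg c l s).im| ≤ ‖l‖ * ∑ i, c i * ‖s i‖ := by
  refine (Complex.abs_im_le_norm _).trans ?_
  unfold Hg
  refine (norm_sum_le _ _).trans ?_
  rw [Finset.mul_sum]
  refine Finset.sum_le_sum fun i _ => ?_
  rw [norm_mul, norm_mul, Complex.norm_conj, Complex.norm_real, Real.norm_of_nonneg (hc i).le]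
  have h1 := norm_le_pi_norm l i
  have h2 : 0 ≤ c i * ‖s i‖ := mul_nonneg (hc i).le (norm_nonneg _)
  calc c i * ‖l i‖ * ‖s i‖ = ‖l i‖ * (c i * ‖s i‖) := by ring
    _ ≤ ‖l‖ * (c i * ‖s i‖) := mul_le_mul_of_nonneg_right h1 h2

theorem exists_bas (c : ι → ℝ) (hc : ∀ i, 0 < c i) (L : AddSubgroup (ι → ℂ)) (S : Set (ι → ℂ))
    (hS : S.Finite) (hL : L = AddSubgroup.closure S) (hspan : Submodule.span ℝ S = ⊤)
    (hint : ∀ l ∈ L, ∀ m ∈ L, ∃ n : ℤ, (Hg c l m).im = n) :
    ∃ (n : ℕ) (bs : Fin n → (ι → ℂ)), IsBas L bs := by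
  have hSL : ∀ s ∈ S, s ∈ L := fun s hs => by rw [hL]; exact AddSubgroup.subset_closure hs
  set C : ℝ := ∑ s ∈ hS.toFinset, ∑ i, c i * ‖s i‖ with hC
  have hC0 : 0 ≤ C := Finset.sum_nonneg fun s _ => Finset.sum_nonneg fun i _ =>
    mul_nonneg (hc i).le (norm_nonneg _)
  have key : ∀ l ∈ L, ‖l‖ < 1 / (C + 1) → l = 0 := by
    intro l hl hn
    refine TLat_eq_zero c hc l (TLat_im_zero c S hspan l fun s hs => ?_)
    obtain ⟨n, hn2⟩ := hint l hl s (hSL s hs)
    have h1 := TLat_bound c hc l s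
    have h2 : ∑ i, c i * ‖s i‖ ≤ C :=
      Finset.single_le_sum (f := fun s : ι → ℂ => ∑ i, c i * ‖s i‖)
        (fun s _ => Finset.sum_nonneg fun i _ => mul_nonneg (hc i).le (norm_nonneg _))
        (hS.mem_toFinset.2 hs)
    have h3 : ‖l‖ * ∑ i, c i * ‖s i‖ ≤ ‖l‖ * C := mul_le_mul_of_nonneg_left h2 (norm_nonneg _)
    have h4 : ‖l‖ * (C + 1) < 1 := by
      rw [lt_div_iff₀ (by linarith)] at hn
      exact hn
    have h5 : |(Hg c l s).im| < 1 := by
      have := norm_nonneg l
      nlinarith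
    rw [hn2] at h5 ⊢
    have h6 : |n| < 1 := by exact_mod_cast h5
    rw [Int.abs_lt_one_iff] at h6
    rw [h6]
    norm_num
  let L' : Submodule ℤ (ι → ℂ) := AddSubgroup.toIntSubmodule L
  haveI hd : DiscreteTopology L' := by
    rw [discreteTopology_iff_isOpen_singleton_zero, Metric.isOpen_singleton_iff]
    refine ⟨1 / (C + 1), by positivity, fun y hy => ?_⟩
    rw [dist_zero_right] at hy
    have := key (y : ι → ℂ) y.2 hy
    exact Subtype.ext this
  haveI hz : IsZLattice ℝ L' := by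
    constructor
    rw [eq_top_iff, ← hspan]
    exact Submodule.span_mono fun s hs => hSL s hs
  haveI := ZLattice.module_free ℝ L'
  haveI := ZLattice.module_finite ℝ L'
  let b := Module.finBasis ℤ L'
  refine ⟨Module.finrank ℤ L', fun i => (b i : ι → ℂ), fun i => (b i).2, ?_, ?_⟩
  · have h1 := (b.ofZLatticeBasis ℝ L').linearIndependent
    have h2 : (⇑(b.ofZLatticeBasis ℝ L')) = fun i => (b i : ι → ℂ) := by
      funext i
      exact b.ofZLatticeBasis_apply ℝ L' i
    rwa [h2] at h1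
  · intro l hl
    refine ⟨fun i => b.repr ⟨l, hl⟩ i, ?_⟩
    have h1 := b.sum_repr ⟨l, hl⟩
    have h2 := congrArg (fun x : L' => (x : ι → ℂ)) h1
    simp only [Submodule.coe_sum, Submodule.coe_smul] at h2
    exact h2.symm

private theorem TLat_expand (c : ι → ℝ) {n : ℕ} (bs : Fin n → (ι → ℂ)) (m m' : Fin n → ℤ) :
    Hg c (∑ i, m i • bs i) (∑ j, m' j • bs j) =
      ∑ i, ∑ j, ((m i * m' j : ℤ) : ℂ) * Hg c (bs i) (bs j) := by
  unfold Hg
  have h1 : ∀ k, (∑ i, m i • bs i) k = ∑ i, (m i : ℂ) * bs i k := by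
    intro k
    rw [Finset.sum_apply]
    refine Finset.sum_congr rfl fun i _ => ?_
    rw [Pi.smul_apply, zsmul_eq_mul]
  have h2 : ∀ k, conj ((∑ i, m' i • bs i) k) = ∑ i, (m' i : ℂ) * conj (bs i k) := by
    intro k
    rw [Finset.sum_apply, map_sum]
    refine Finset.sum_congr rfl fun i _ => ?_
    rw [Pi.smul_apply, zsmul_eq_mul, map_mul, map_intCast]
  simp only [h1, h2]
  calc ∑ k, (c k : ℂ) * (∑ i, (m i : ℂ) * bs i k) * ∑ j, (m' j : ℂ) * conj (bs j k)
      = ∑ k, ∑ i, ∑ j, ((m i * m' j : ℤ) : ℂ) * ((c k : ℂ) * bs i k * conj (bs j k)) := by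
        refine Finset.sum_congr rfl fun k _ => ?_
        rw [mul_assoc, Finset.sum_mul_sum, Finset.mul_sum]
        refine Finset.sum_congr rfl fun i _ => ?_
        rw [Finset.mul_sum]
        refine Finset.sum_congr rfl fun j _ => ?_
        push_cast
        ring
    _ = ∑ i, ∑ j, ((m i * m' j : ℤ) : ℂ) * ∑ k, (c k : ℂ) * bs i k * conj (bs j k) := by
        rw [Finset.sum_comm]
        refine Finset.sum_congr rfl fun i _ => ?_
        rw [Finset.sum_comm]
        refine Finset.sum_congr rfl fun j _ => ?_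
        rw [Finset.mul_sum]

private def TLat_Q {n : ℕ} (E : Fin n → Fin n → ℤ) (x : Fin n → ℤ) : ℤ :=
  ∑ i, ∑ j, if i < j then x i * x j * E i j else 0

private theorem TLat_QB {n : ℕ} (E : Fin n → Fin n → ℤ) (hE : ∀ i j, E j i = -E i j)
    (x y : Fin n → ℤ) : TLat_Q E (x + y) = TLat_Q E x + TLat_Q E y +
      ∑ i, ∑ j, x i * y j * E i j + 2 * ∑ i, ∑ j, if i < j then y i * x j * E i j else 0 := by
  have hE0 : ∀ i, E i i = 0 := fun i => by have := hE i i; omega
  have h1 : ∑ i, ∑ j, x i * y j * E i j = (∑ i, ∑ j, if i < j then x i * y j * E i j else 0) +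
      ∑ i, ∑ j, if j < i then x i * y j * E i j else 0 := by
    rw [← Finset.sum_add_distrib]
    refine Finset.sum_congr rfl fun i _ => ?_
    rw [← Finset.sum_add_distrib]
    refine Finset.sum_congr rfl fun j _ => ?_
    rcases lt_trichotomy i j with h | h | h
    · rw [if_pos h, if_neg h.not_gt, add_zero]
    · rw [h, hE0]
      simp
    · rw [if_neg h.not_gt, if_pos h, zero_add]
  have h2 : (∑ i, ∑ j, if j < i then x i * y j * E i j else 0) =
      -∑ i, ∑ j, if i < j then y i * x j * E i j else 0 := by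
    rw [Finset.sum_comm, ← Finset.sum_neg_distrib]
    refine Finset.sum_congr rfl fun i _ => ?_
    rw [← Finset.sum_neg_distrib]
    refine Finset.sum_congr rfl fun j _ => ?_
    by_cases h : i < j
    · rw [if_pos h, if_pos h, hE i j]
      ring
    · rw [if_neg h, if_neg h, neg_zero]
  rw [h1, h2]
  unfold TLat_Q
  have h3 : (∑ i, ∑ j, if i < j then (x + y) i * (x + y) j * E i j else 0) =
      (∑ i, ∑ j, if i < j then x i * x j * E i j else 0) +
      (∑ i, ∑ j, if i < j then y i * y j * E i j else 0) +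
      (∑ i, ∑ j, if i < j then x i * y j * E i j else 0) +
      (∑ i, ∑ j, if i < j then y i * x j * E i j else 0) := by
    rw [← Finset.sum_add_distrib, ← Finset.sum_add_distrib, ← Finset.sum_add_distrib]
    refine Finset.sum_congr rfl fun i _ => ?_
    rw [← Finset.sum_add_distrib, ← Finset.sum_add_distrib, ← Finset.sum_add_distrib]
    refine Finset.sum_congr rfl fun j _ => ?_
    by_cases h : i < j
    · simp only [if_pos h, Pi.add_apply]
      ring
    · simp only [if_neg h, add_zero]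
  rw [h3]
  ring

private theorem TLat_conj (c : ι → ℝ) (u v : ι → ℂ) : Hg c v u = conj (Hg c u v) := by
  unfold Hg
  rw [map_sum]
  refine Finset.sum_congr rfl fun i _ => ?_
  rw [map_mul, map_mul, Complex.conj_conj, Complex.conj_ofReal]
  ring

private theorem TLat_exp (n : ℤ) : cexp (Real.pi * I * (n : ℤ)) = 1 ∨
    cexp (Real.pi * I * (n : ℤ)) = -1 := by
  rcases Int.even_or_odd' n with ⟨k, hk | hk⟩
  · left
    rw [hk]
    have := Complex.exp_int_mul_two_pi_mul_I k
    rw [← this]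
    congr 1
    push_cast
    ring
  · right
    rw [hk]
    have h1 : (Real.pi * I * ((2 * k + 1 : ℤ) : ℂ)) = (k : ℂ) * (2 * Real.pi * I) + Real.pi * I := by
      push_cast
      ring
    rw [h1, Complex.exp_add, Complex.exp_int_mul_two_pi_mul_I, Complex.exp_pi_mul_I, one_mul]

theorem exists_semi (c : ι → ℝ) (L : AddSubgroup (ι → ℂ)) {n : ℕ} (bs : Fin n → (ι → ℂ))
    (hb : IsBas L bs) (hint : ∀ l ∈ L, ∀ m ∈ L, ∃ n : ℤ, (Hg c l m).im = n) :
    ∃ e : (ι → ℂ) → ℂ, IsSemi c L e := by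
  classical
  obtain ⟨hbL, hli, hsp⟩ := hb
  have h1 : ∀ i j, ∃ k : ℤ, (Hg c (bs i) (bs j)).im = k := fun i j =>
    hint _ (hbL i) _ (hbL j)
  choose E hE using h1
  have hanti : ∀ i j, E j i = -E i j := by
    intro i j
    have h2 : (Hg c (bs j) (bs i)).im = -(Hg c (bs i) (bs j)).im := by
      rw [TLat_conj c (bs i) (bs j), Complex.conj_im]
    rw [hE, hE] at h2
    exact_mod_cast h2
  have h2 : ∀ l : ι → ℂ, ∃ m : Fin n → ℤ, l ∈ L → l = ∑ i, m i • bs i := by
    intro l
    by_cases hl : l ∈ L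
    · obtain ⟨m, hm⟩ := hsp l hl
      exact ⟨m, fun _ => hm⟩
    · exact ⟨0, fun h => absurd h hl⟩
  choose co hco using h2
  have hadd : ∀ l ∈ L, ∀ m ∈ L, co (l + m) = co l + co m := by
    intro l hl m hm
    have e1 := hco (l + m) (L.add_mem hl hm)
    have e2 := hco l hl
    have e3 := hco m hm
    funext i
    have h3 := Fintype.linearIndependent_iff.1 hli
      (fun i => ((co (l + m) i - co l i - co m i : ℤ) : ℝ)) (by
        have h4 : ∑ i, ((co (l + m) i - co l i - co m i : ℤ) : ℝ) • bs i =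
            (∑ i, co (l + m) i • bs i) - (∑ i, co l i • bs i) - ∑ i, co m i • bs i := by
          rw [← Finset.sum_sub_distrib, ← Finset.sum_sub_distrib]
          refine Finset.sum_congr rfl fun i _ => ?_
          rw [Int.cast_smul_eq_zsmul, sub_smul, sub_smul]
        rw [h4, ← e1, ← e2, ← e3]
        abel) i
    have h5 : co (l + m) i - co l i - co m i = 0 := by exact_mod_cast h3
    rw [Pi.add_apply]
    omega
  refine ⟨fun l => cexp (Real.pi * I * ((TLat_Q E (co l) : ℤ) : ℂ)), fun l _ => TLat_exp _, ?_⟩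
  intro l hl m hm
  have h3 : ((Hg c l m).im : ℂ) = ((∑ i, ∑ j, co l i * co m j * E i j : ℤ) : ℂ) := by
    have h4 : (Hg c l m).im = ((∑ i, ∑ j, co l i * co m j * E i j : ℤ) : ℝ) := by
      conv_lhs => rw [hco l hl, hco m hm]
      rw [TLat_expand, Complex.im_sum]
      push_cast
      refine Finset.sum_congr rfl fun i _ => ?_
      rw [Complex.im_sum]
      refine Finset.sum_congr rfl fun j _ => ?_
      rw [← hE i j]
      simp [Complex.mul_im]
    rw [h4]
    push_cast
    rfl
  simp only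
  rw [h3, hadd l hl m hm, TLat_QB E hanti, ← Complex.exp_add, ← Complex.exp_add]
  have h6 := Complex.exp_int_mul_two_pi_mul_I
    (∑ i, ∑ j, if i < j then co m i * co l j * E i j else 0)
  rw [← mul_one (cexp (_ + _)), ← h6, ← Complex.exp_add]
  congr 1
  push_cast
  ring

end

end Pool.Agent.RHT
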