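import Pool.Agent.RHT.TDefs

/-!
RHT-TSum. Convergence of the Poincaré series: it is entire and quasi-periodic.
-/

set_option autoImplicit false

namespace Pool.Agent.RHT

open Complex ComplexConjugate Finset

noncomputable section

variable {ι : Type} [Fintype ι] [DecidableEq ι]

private theorem TSum_pi (g : ℤ → ℝ) (hg : Summable g) (h0 : ∀ m, 0 ≤ g m) :
    ∀ n : ℕ, Summable fun m : Fin n → ℤ => ∏ i, g (m i) := by
  intro n
  induction n with
  | zero => exact (hasSum_fintype _).summable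
  | succ n ih =>
    rw [← (Fin.consEquiv (fun _ : Fin (n + 1) => ℤ)).summable_iff]
    have h1 : ((fun m : Fin (n + 1) → ℤ => ∏ i, g (m i)) ∘
        (Fin.consEquiv (fun _ : Fin (n + 1) => ℤ))) =
        fun x : ℤ × (Fin n → ℤ) => g x.1 * ∏ i, g (x.2 i) := by
      funext x
      simp only [Function.comp_apply, Fin.consEquiv, Equiv.coe_fn_mk]
      rw [Fin.prod_univ_succ]
      rfl
    rw [h1]
    have hf' : (0 : ℤ → ℝ) ≤ g := fun m => h0 m
    have hg' : (0 : (Fin n → ℤ) → ℝ) ≤ fun m : Fin n → ℤ => ∏ i, g (m i) :=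
      fun m => Finset.prod_nonneg fun i _ => h0 _
    exact Summable.mul_of_nonneg (f := g) (g := fun m : Fin n → ℤ => ∏ i, g (m i)) hg ih hf' hg'

private theorem TSum_exp (a : ℝ) (ha : 0 < a) : Summable fun m : ℤ => Real.exp (-(a * |(m : ℝ)|)) := by
  have h1 : Summable fun n : ℕ => Real.exp (-(a * n)) := by
    have h2 : (fun n : ℕ => Real.exp (-(a * n))) = fun n : ℕ => (Real.exp (-a)) ^ n := by
      funext n
      rw [← Real.exp_nat_mul]
      congr 1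
      ring
    rw [h2]
    exact summable_geometric_of_lt_one (Real.exp_pos _).le (by rw [Real.exp_lt_one_iff]; linarith)
  refine summable_int_iff_summable_nat_and_neg.2 ⟨?_, ?_⟩
  · refine h1.congr fun n => ?_
    rw [Int.cast_natCast, abs_of_nonneg (Nat.cast_nonneg n)]
  · refine h1.congr fun n => ?_
    rw [Int.cast_neg, Int.cast_natCast, abs_neg, abs_of_nonneg (Nat.cast_nonneg n)]

theorem gauss_summable (L : AddSubgroup (ι → ℂ)) {n : ℕ} (bs : Fin n → (ι → ℂ))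
    (hb : IsBas L bs) (A ε : ℝ) (hε : 0 < ε) :
    Summable fun l : L => Real.exp (A * ‖(l : ι → ℂ)‖ - ε * ‖(l : ι → ℂ)‖ ^ 2) := by
  obtain ⟨-, hli, hrep⟩ := hb
  have hinj := linearIndependent_iff_injective_fintypeLinearCombination.1 hli
  obtain ⟨K, hK0, hK⟩ := LinearMap.exists_antilipschitzWith (Fintype.linearCombination ℝ bs)
    (LinearMap.ker_eq_bot.2 hinj)
  have hlow : ∀ m : Fin n → ℝ, ‖m‖ ≤ K * ‖∑ i, m i • bs i‖ := by
    intro m
    have h := hK.le_mul_dist m 0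
    rw [dist_zero_right, map_zero, dist_zero_right, Fintype.linearCombination_apply] at h
    exact h
  have hex : ∀ l : L, ∃ m : Fin n → ℤ, (l : ι → ℂ) = ∑ i, m i • bs i := fun l => hrep l l.2
  choose m hm using hex
  have hminj : Function.Injective m := by
    intro l l' h
    apply Subtype.ext
    rw [hm l, hm l', h]
  have hKr : (0 : ℝ) < K := hK0
  obtain ⟨δ, hδ⟩ : ∃ δ : ℝ, δ = ((n : ℝ) + 1)⁻¹ * (K : ℝ)⁻¹ := ⟨_, rfl⟩
  have hδ0 : 0 < δ := by rw [hδ]; positivity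
  have hsum := (TSum_pi _ (TSum_exp δ hδ0) (fun _ => (Real.exp_pos _).le) n).comp_injective hminj
  refine Summable.of_nonneg_of_le (fun l => (Real.exp_pos _).le) (fun l => ?_)
    (hsum.mul_left (Real.exp ((A + 1) ^ 2 / (4 * ε))))
  have h1 : δ * ∑ i, |((m l i : ℤ) : ℝ)| ≤ ‖(l : ι → ℂ)‖ := by
    have h2 : ∀ i, |((m l i : ℤ) : ℝ)| ≤ K * ‖(l : ι → ℂ)‖ := by
      intro i
      have h3 := hlow (fun i => ((m l i : ℤ) : ℝ))
      have h4 : ∑ i, (fun i => ((m l i : ℤ) : ℝ)) i • bs i = (l : ι → ℂ) := by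
        rw [hm l]
        exact Finset.sum_congr rfl fun i _ => Int.cast_smul_eq_zsmul ℝ _ _
      rw [h4] at h3
      exact (norm_le_pi_norm (fun i => ((m l i : ℤ) : ℝ)) i).trans h3
    have h5 : ∑ i, |((m l i : ℤ) : ℝ)| ≤ n * (K * ‖(l : ι → ℂ)‖) := by
      have := Finset.sum_le_card_nsmul Finset.univ (fun i => |((m l i : ℤ) : ℝ)|) _
        (fun i _ => h2 i)
      simpa using this
    rw [hδ]
    have h6 : (0 : ℝ) ≤ K * ‖(l : ι → ℂ)‖ := by positivity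
    calc ((n : ℝ) + 1)⁻¹ * (K : ℝ)⁻¹ * ∑ i, |((m l i : ℤ) : ℝ)|
        ≤ ((n : ℝ) + 1)⁻¹ * (K : ℝ)⁻¹ * (((n : ℝ) + 1) * (K * ‖(l : ι → ℂ)‖)) := by
          apply mul_le_mul_of_nonneg_left _ (by positivity)
          refine h5.trans ?_
          nlinarith
      _ = ‖(l : ι → ℂ)‖ := by
          field_simp
  have h7 : (fun m : Fin n → ℤ => ∏ i, Real.exp (-(δ * |((m i : ℤ) : ℝ)|))) (m l) =
      Real.exp (-(δ * ∑ i, |((m l i : ℤ) : ℝ)|)) := by
    show ∏ i, Real.exp (-(δ * |((m l i : ℤ) : ℝ)|)) = _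
    rw [← Real.exp_sum, Finset.mul_sum, Finset.sum_neg_distrib]
  show _ ≤ Real.exp ((A + 1) ^ 2 / (4 * ε)) *
    ((fun m : Fin n → ℤ => ∏ i, Real.exp (-(δ * |((m i : ℤ) : ℝ)|))) (m l))
  rw [h7, ← Real.exp_add]
  apply Real.exp_le_exp.2
  have h8 : A * ‖(l : ι → ℂ)‖ - ε * ‖(l : ι → ℂ)‖ ^ 2 + ‖(l : ι → ℂ)‖ ≤ (A + 1) ^ 2 / (4 * ε) := by
    rw [le_div_iff₀ (by linarith)]
    nlinarith [sq_nonneg (2 * ε * ‖(l : ι → ℂ)‖ - (A + 1))]
  linarith

/-- the linear functional `Hg c · w` -/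
private def TSum_Lf (c : ι → ℝ) (w : ι → ℂ) : (ι → ℂ) →L[ℂ] ℂ :=
  ∑ i, ((c i : ℂ) * conj (w i)) • ContinuousLinearMap.proj (R := ℂ) (φ := fun _ : ι => ℂ) i

private theorem TSum_Lf_apply (c : ι → ℝ) (w u : ι → ℂ) : TSum_Lf c w u = Hg c u w := by
  rw [TSum_Lf, ContinuousLinearMap.sum_apply, Hg]
  refine Finset.sum_congr rfl fun i _ => ?_
  rw [ContinuousLinearMap.smul_apply, ContinuousLinearMap.proj_apply, smul_eq_mul]
  ring

private theorem TSum_Hg_le (c : ι → ℝ) (hc : ∀ i, 0 < c i) (u v : ι → ℂ) :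
    ‖Hg c u v‖ ≤ (∑ i, c i) * (‖u‖ * ‖v‖) := by
  rw [Hg, Finset.sum_mul]
  refine (norm_sum_le _ _).trans (Finset.sum_le_sum fun i _ => ?_)
  rw [norm_mul, norm_mul, Complex.norm_real, Real.norm_eq_abs, abs_of_pos (hc i), RCLike.norm_conj,
    mul_assoc]
  exact mul_le_mul_of_nonneg_left (mul_le_mul (norm_le_pi_norm u i) (norm_le_pi_norm v i)
    (norm_nonneg _) (norm_nonneg _)) (hc i).le

private theorem TSum_Lf_norm (c : ι → ℝ) (hc : ∀ i, 0 < c i) (w : ι → ℂ) :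
    ‖TSum_Lf c w‖ ≤ (∑ i, c i) * ‖w‖ := by
  refine ContinuousLinearMap.opNorm_le_bound _
    (mul_nonneg (Finset.sum_nonneg fun i _ => (hc i).le) (norm_nonneg _)) fun u => ?_
  rw [TSum_Lf_apply]
  refine (TSum_Hg_le c hc u w).trans (le_of_eq ?_)
  ring

private theorem TSum_low (c : ι → ℝ) (hc : ∀ i, 0 < c i) : ∃ ε : ℝ, 0 < ε ∧ ∀ l : ι → ℂ,
    ε * ‖l‖ ^ 2 ≤ (Hg c l l).re := by
  obtain ⟨ε, hε, hle⟩ : ∃ ε : ℝ, 0 < ε ∧ ∀ i, ε ≤ c i := by
    rcases isEmpty_or_nonempty ι with h | h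
    · exact ⟨1, one_pos, fun i => (h.false i).elim⟩
    · obtain ⟨j, -, hj⟩ := Finset.exists_min_image Finset.univ c Finset.univ_nonempty
      exact ⟨c j, hc j, fun i => hj i (Finset.mem_univ i)⟩
  refine ⟨ε, hε, fun l => ?_⟩
  have h1 : (Hg c l l).re = ∑ i, c i * ‖l i‖ ^ 2 := by
    rw [Hg, Complex.re_sum]
    refine Finset.sum_congr rfl fun i _ => ?_
    rw [mul_assoc, Complex.mul_conj, Complex.normSq_eq_norm_sq, ← Complex.ofReal_mul,
      Complex.ofReal_re]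
  have h2 : ‖l‖ ^ 2 ≤ ∑ i, ‖l i‖ ^ 2 := by
    have h3 : ‖l‖ ≤ Real.sqrt (∑ i, ‖l i‖ ^ 2) := by
      rw [pi_norm_le_iff_of_nonneg (Real.sqrt_nonneg _)]
      intro i
      apply Real.le_sqrt_of_sq_le
      exact Finset.single_le_sum (f := fun i => ‖l i‖ ^ 2) (fun j _ => by positivity)
        (Finset.mem_univ i)
    calc ‖l‖ ^ 2 ≤ Real.sqrt (∑ i, ‖l i‖ ^ 2) ^ 2 := pow_le_pow_left₀ (norm_nonneg _) h3 2
      _ = _ := Real.sq_sqrt (Finset.sum_nonneg fun i _ => by positivity)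
  rw [h1]
  calc ε * ‖l‖ ^ 2 ≤ ε * ∑ i, ‖l i‖ ^ 2 := mul_le_mul_of_nonneg_left h2 hε.le
    _ = ∑ i, ε * ‖l i‖ ^ 2 := Finset.mul_sum _ _ _
    _ ≤ ∑ i, c i * ‖l i‖ ^ 2 := Finset.sum_le_sum fun i _ =>
        mul_le_mul_of_nonneg_right (hle i) (by positivity)

private theorem TSum_term (c : ι → ℝ) (hc : ∀ i, 0 < c i) {ε : ℝ}
    (hε : ∀ l : ι → ℂ, ε * ‖l‖ ^ 2 ≤ (Hg c l l).re) (e : (ι → ℂ) → ℂ) (v : ι → ℂ) (R : ℝ)
    (hR : 0 ≤ R) (l : ι → ℂ) (hel : ‖e l‖ ≤ 1) (u : ι → ℂ) (hu : ‖u‖ ≤ R) :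
    ‖e l * cexp (-(Real.pi * Hg c u l) - Real.pi / 2 * Hg c l l + Real.pi * Hg c (u + l) v)‖ ≤
      Real.exp (Real.pi * (∑ i, c i) * R * ‖v‖) *
        Real.exp (Real.pi * (∑ i, c i) * (R + ‖v‖) * ‖l‖ - Real.pi / 2 * ε * ‖l‖ ^ 2) := by
  have hS : 0 ≤ ∑ i, c i := Finset.sum_nonneg fun i _ => (hc i).le
  have hpi := Real.pi_pos
  rw [norm_mul, Complex.norm_exp, ← Real.exp_add]
  have h1 : (-(Real.pi * Hg c u l) - Real.pi / 2 * Hg c l l + Real.pi * Hg c (u + l) v : ℂ).re =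
      -(Real.pi * (Hg c u l).re) - Real.pi / 2 * (Hg c l l).re +
        Real.pi * (Hg c (u + l) v).re := by
    have e2 : ((Real.pi : ℂ) / 2) = ((Real.pi / 2 : ℝ) : ℂ) := by push_cast; rfl
    rw [e2]
    simp only [Complex.add_re, Complex.sub_re, Complex.neg_re, Complex.re_ofReal_mul]
  have h2 : -(Hg c u l).re ≤ (∑ i, c i) * (R * ‖l‖) := by
    have h3 := (Complex.abs_re_le_norm (Hg c u l)).trans (TSum_Hg_le c hc u l)
    have h4 : (∑ i, c i) * (‖u‖ * ‖l‖) ≤ (∑ i, c i) * (R * ‖l‖) :=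
      mul_le_mul_of_nonneg_left (mul_le_mul_of_nonneg_right hu (norm_nonneg _)) hS
    have h5 := neg_abs_le (Hg c u l).re
    linarith
  have h6 : (Hg c (u + l) v).re ≤ (∑ i, c i) * ((R + ‖l‖) * ‖v‖) := by
    have h3 := (Complex.abs_re_le_norm (Hg c (u + l) v)).trans (TSum_Hg_le c hc (u + l) v)
    have h4 : (∑ i, c i) * (‖u + l‖ * ‖v‖) ≤ (∑ i, c i) * ((R + ‖l‖) * ‖v‖) :=
      mul_le_mul_of_nonneg_left (mul_le_mul_of_nonneg_right
        ((norm_add_le u l).trans (by linarith)) (norm_nonneg _)) hS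
    have h5 := le_abs_self (Hg c (u + l) v).re
    linarith
  have h7 := hε l
  rw [h1]
  have h8 : -(Real.pi * (Hg c u l).re) - Real.pi / 2 * (Hg c l l).re +
        Real.pi * (Hg c (u + l) v).re ≤ Real.pi * (∑ i, c i) * R * ‖v‖ +
        (Real.pi * (∑ i, c i) * (R + ‖v‖) * ‖l‖ - Real.pi / 2 * ε * ‖l‖ ^ 2) := by
    have a1 := mul_le_mul_of_nonneg_left h2 hpi.le
    have a2 := mul_le_mul_of_nonneg_left h6 hpi.le
    have a3 := mul_le_mul_of_nonneg_left h7 (by positivity : (0 : ℝ) ≤ Real.pi / 2)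
    nlinarith
  calc ‖e l‖ * Real.exp _ ≤ 1 * Real.exp _ :=
        mul_le_mul hel (Real.exp_le_exp.2 h8) (Real.exp_pos _).le zero_le_one
    _ = _ := one_mul _

theorem thser_diff (c : ι → ℝ) (hc : ∀ i, 0 < c i) (L : AddSubgroup (ι → ℂ)) {n : ℕ}
    (bs : Fin n → (ι → ℂ)) (hb : IsBas L bs) (e : (ι → ℂ) → ℂ) (he : ∀ l ∈ L, ‖e l‖ ≤ 1)
    (v : ι → ℂ) : Differentiable ℂ (thser c L e v) := by
  intro u₀
  obtain ⟨ε, hε0, hε⟩ := TSum_low c hc
  have hS : 0 ≤ ∑ i, c i := Finset.sum_nonneg fun i _ => (hc i).le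
  obtain ⟨R, hR⟩ : ∃ R : ℝ, R = ‖u₀‖ + 1 := ⟨_, rfl⟩
  have hR0 : 0 ≤ R := by rw [hR]; positivity
  obtain ⟨S, hSd⟩ : ∃ S : ℝ, S = ∑ i, c i := ⟨_, rfl⟩
  have hpi := Real.pi_pos
  have hsum : ∀ A : ℝ, Summable fun l : L => Real.exp (A * ‖(l : ι → ℂ)‖ -
      Real.pi / 2 * ε * ‖(l : ι → ℂ)‖ ^ 2) := fun A =>
    gauss_summable L bs hb A (Real.pi / 2 * ε) (by positivity)
  have hder : ∀ (l : L) (u : ι → ℂ), u ∈ Metric.ball (0 : ι → ℂ) R → HasFDerivAt
      (fun u : ι → ℂ => e l * cexp (-(Real.pi * Hg c u l) - Real.pi / 2 * Hg c l l +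
        Real.pi * Hg c (u + l) v))
      ((e l * cexp (-(Real.pi * Hg c u l) - Real.pi / 2 * Hg c l l +
        Real.pi * Hg c (u + l) v)) •
        ((-(Real.pi : ℂ)) • TSum_Lf c (l : ι → ℂ) + (Real.pi : ℂ) • TSum_Lf c v)) u := by
    intro l u _
    have h1 : HasFDerivAt (fun u : ι → ℂ => -(Real.pi * Hg c u l) - Real.pi / 2 * Hg c l l +
        Real.pi * Hg c (u + l) v)
        ((-(Real.pi : ℂ)) • TSum_Lf c (l : ι → ℂ) + (Real.pi : ℂ) • TSum_Lf c v) u := by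
      have h2 : (fun u : ι → ℂ => -(Real.pi * Hg c u l) - Real.pi / 2 * Hg c l l +
        Real.pi * Hg c (u + l) v) = fun u : ι → ℂ =>
          ((-(Real.pi : ℂ)) • TSum_Lf c (l : ι → ℂ) + (Real.pi : ℂ) • TSum_Lf c v) u +
            (- (Real.pi / 2 * Hg c l l) + Real.pi * Hg c l v) := by
        funext u
        rw [ContinuousLinearMap.add_apply, ContinuousLinearMap.smul_apply,
          ContinuousLinearMap.smul_apply, smul_eq_mul, smul_eq_mul, TSum_Lf_apply, TSum_Lf_apply]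
        have h3 : Hg c (u + l) v = Hg c u v + Hg c l v := by
          rw [← TSum_Lf_apply, map_add, TSum_Lf_apply, TSum_Lf_apply]
        rw [h3]
        ring
      rw [h2]
      exact (ContinuousLinearMap.hasFDerivAt _).add_const _
    have h4 := (h1.cexp).const_mul (e l)
    rw [smul_smul] at h4
    exact h4
  have hbound : ∀ (l : L) (u : ι → ℂ), u ∈ Metric.ball (0 : ι → ℂ) R →
      ‖(e l * cexp (-(Real.pi * Hg c u l) - Real.pi / 2 * Hg c l l +
        Real.pi * Hg c (u + l) v)) •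
        ((-(Real.pi : ℂ)) • TSum_Lf c (l : ι → ℂ) + (Real.pi : ℂ) • TSum_Lf c v)‖ ≤
      (Real.exp (Real.pi * S * R * ‖v‖) * (Real.pi * S * Real.exp ‖v‖)) *
        Real.exp ((Real.pi * S * (R + ‖v‖) + 1) * ‖(l : ι → ℂ)‖ -
          Real.pi / 2 * ε * ‖(l : ι → ℂ)‖ ^ 2) := by
    intro l u hu
    rw [mem_ball_zero_iff] at hu
    rw [norm_smul]
    have h1 := TSum_term c hc hε e v R hR0 l (he l l.2) u hu.le
    rw [← hSd] at h1
    have h2 : ‖(-(Real.pi : ℂ)) • TSum_Lf c (l : ι → ℂ) + (Real.pi : ℂ) • TSum_Lf c v‖ ≤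
        Real.pi * S * Real.exp (‖v‖ + ‖(l : ι → ℂ)‖) := by
      have h3 : ‖(Real.pi : ℂ)‖ = Real.pi := by
        rw [Complex.norm_real, Real.norm_eq_abs, abs_of_pos hpi]
      have h4 := TSum_Lf_norm c hc (l : ι → ℂ)
      have h5 := TSum_Lf_norm c hc v
      rw [← hSd] at h4 h5
      have hS' : 0 ≤ S := by rw [hSd]; exact hS
      calc ‖(-(Real.pi : ℂ)) • TSum_Lf c (l : ι → ℂ) + (Real.pi : ℂ) • TSum_Lf c v‖
          ≤ ‖(-(Real.pi : ℂ)) • TSum_Lf c (l : ι → ℂ)‖ + ‖(Real.pi : ℂ) • TSum_Lf c v‖ :=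
            norm_add_le _ _
        _ = Real.pi * ‖TSum_Lf c (l : ι → ℂ)‖ + Real.pi * ‖TSum_Lf c v‖ := by
            rw [norm_smul, norm_smul, norm_neg, h3]
        _ ≤ Real.pi * (S * ‖(l : ι → ℂ)‖) + Real.pi * (S * ‖v‖) :=
            add_le_add (mul_le_mul_of_nonneg_left h4 hpi.le) (mul_le_mul_of_nonneg_left h5 hpi.le)
        _ = Real.pi * S * (‖v‖ + ‖(l : ι → ℂ)‖) := by ring
        _ ≤ Real.pi * S * Real.exp (‖v‖ + ‖(l : ι → ℂ)‖) := by
            apply mul_le_mul_of_nonneg_left _ (by positivity)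
            have := Real.add_one_le_exp (‖v‖ + ‖(l : ι → ℂ)‖)
            linarith
    refine (mul_le_mul h1 h2 (norm_nonneg _) (by positivity)).trans (le_of_eq ?_)
    have e1 : Real.exp ((Real.pi * S * (R + ‖v‖) + 1) * ‖(l : ι → ℂ)‖ -
          Real.pi / 2 * ε * ‖(l : ι → ℂ)‖ ^ 2) =
        Real.exp (Real.pi * S * (R + ‖v‖) * ‖(l : ι → ℂ)‖ -
          Real.pi / 2 * ε * ‖(l : ι → ℂ)‖ ^ 2) * Real.exp ‖(l : ι → ℂ)‖ := by
      rw [← Real.exp_add]
      congr 1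
      ring
    rw [e1, Real.exp_add]
    ring
  have h0 : Summable fun l : L => (fun u : ι → ℂ => e l * cexp (-(Real.pi * Hg c u l) -
      Real.pi / 2 * Hg c l l + Real.pi * Hg c (u + l) v)) 0 := by
    refine Summable.of_norm_bounded ((hsum (Real.pi * (∑ i, c i) * (R + ‖v‖))).mul_left
      (Real.exp (Real.pi * (∑ i, c i) * R * ‖v‖))) fun l => ?_
    exact TSum_term c hc hε e v R hR0 l (he l l.2) 0 (by rw [norm_zero]; exact hR0)
  have hmain := hasFDerivAt_tsum_of_isPreconnected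
    ((hsum (Real.pi * S * (R + ‖v‖) + 1)).mul_left
      (Real.exp (Real.pi * S * R * ‖v‖) * (Real.pi * S * Real.exp ‖v‖)))
    Metric.isOpen_ball ((convex_ball (0 : ι → ℂ) R).isPreconnected) hder hbound
    (Metric.mem_ball_self (by rw [hR]; positivity)) h0
    (x := u₀) (by rw [mem_ball_zero_iff, hR]; linarith)
  exact hmain.differentiableAt

private theorem TSum_add (c : ι → ℝ) (a b w : ι → ℂ) : Hg c (a + b) w = Hg c a w + Hg c b w := by
  rw [← TSum_Lf_apply, map_add, TSum_Lf_apply, TSum_Lf_apply]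

private theorem TSum_conj (c : ι → ℝ) (a b : ι → ℂ) : Hg c b a = conj (Hg c a b) := by
  rw [Hg, Hg, map_sum]
  refine Finset.sum_congr rfl fun i _ => ?_
  rw [map_mul, map_mul, Complex.conj_conj, Complex.conj_ofReal]
  ring

private theorem TSum_sub_right (c : ι → ℝ) (w a b : ι → ℂ) :
    Hg c w (a - b) = Hg c w a - Hg c w b := by
  rw [Hg, Hg, Hg, ← Finset.sum_sub_distrib]
  refine Finset.sum_congr rfl fun i _ => ?_
  rw [Pi.sub_apply, map_sub]
  ring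

private theorem TSum_sub_left (c : ι → ℝ) (w a b : ι → ℂ) :
    Hg c (a - b) w = Hg c a w - Hg c b w := by
  rw [← TSum_Lf_apply, map_sub, TSum_Lf_apply, TSum_Lf_apply]

theorem thser_qp (c : ι → ℝ) (hc : ∀ i, 0 < c i) (L : AddSubgroup (ι → ℂ)) {n : ℕ}
    (bs : Fin n → (ι → ℂ)) (hb : IsBas L bs) (e : (ι → ℂ) → ℂ) (he : IsSemi c L e)
    (hint : ∀ l ∈ L, ∀ m ∈ L, ∃ n : ℤ, (Hg c l m).im = n)
    (v : ι → ℂ) (m : ι → ℂ) (hm : m ∈ L) (u : ι → ℂ) : thser c L e v (u + m) =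
      e m * cexp (Real.pi * Hg c u m + Real.pi / 2 * Hg c m m) * thser c L e v u := by
  have _ := hc
  have _ := hb
  have _ := hint
  obtain ⟨h1, h2⟩ := he
  have him : ∀ a : ι → ℂ, (Hg c a a).im = 0 := by
    intro a
    have h := congrArg Complex.im (TSum_conj c a a)
    rw [Complex.conj_im] at h
    linarith
  have he0 : e 0 = 1 := by
    have h3 := h2 0 L.zero_mem 0 L.zero_mem
    rw [him, add_zero, Complex.ofReal_zero, mul_zero, Complex.exp_zero, mul_one] at h3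
    rcases h1 0 L.zero_mem with h4 | h4
    · exact h4
    · rw [h4] at h3
      norm_num at h3
  have hneg : Hg c m (-m) = - Hg c m m := by
    have := TSum_sub_right c m 0 m
    rw [zero_sub] at this
    rw [this]
    have h0 : Hg c m 0 = 0 := by
      rw [Hg]
      exact Finset.sum_eq_zero fun i _ => by rw [Pi.zero_apply, map_zero, mul_zero]
    rw [h0, zero_sub]
  have hem : e m * e (-m) = 1 := by
    have h3 := h2 m hm (-m) (L.neg_mem hm)
    rw [add_neg_cancel, he0, hneg, Complex.neg_im, him, neg_zero, Complex.ofReal_zero, mul_zero,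
      Complex.exp_zero, mul_one] at h3
    exact h3.symm
  have hem2 : e m * e m = 1 := by
    rcases h1 m hm with h4 | h4 <;> rw [h4] <;> norm_num
  have hem' : e (-m) = e m := by
    calc e (-m) = (e m * e m) * e (-m) := by rw [hem2, one_mul]
      _ = e m * (e m * e (-m)) := by ring
      _ = e m := by rw [hem, mul_one]
  have hem3 : ∀ l ∈ L, e (l - m) = e l * e m * cexp (-(Real.pi * I * ((Hg c l m).im : ℝ))) := by
    intro l hl
    have h3 := h2 l hl (-m) (L.neg_mem hm)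
    have h4 : Hg c l (-m) = - Hg c l m := by
      have := TSum_sub_right c l 0 m
      rw [zero_sub] at this
      rw [this]
      have h0 : Hg c l 0 = 0 := by
        rw [Hg]
        exact Finset.sum_eq_zero fun i _ => by rw [Pi.zero_apply, map_zero, mul_zero]
      rw [h0, zero_sub]
    rw [h4, Complex.neg_im, hem', ← sub_eq_add_neg] at h3
    rw [h3]
    congr 2
    push_cast
    ring
  rw [thser, thser, ← (Equiv.subRight (⟨m, hm⟩ : L)).tsum_eq, ← tsum_mul_left]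
  refine tsum_congr fun l => ?_
  have hl : (((Equiv.subRight (⟨m, hm⟩ : L)) l : L) : ι → ℂ) = (l : ι → ℂ) - m := rfl
  rw [hl, hem3 l l.2]
  have h5 : u + m + ((l : ι → ℂ) - m) = u + l := by abel
  rw [h5]
  simp only [TSum_sub_right, TSum_sub_left]
  have h6 : Hg c (l : ι → ℂ) m - Hg c m l = 2 * I * ((Hg c (l : ι → ℂ) m).im : ℝ) := by
    rw [TSum_conj c (l : ι → ℂ) m]
    apply Complex.ext <;> simp
    ring
  have h7 : e (l : ι → ℂ) * e m * cexp (-(Real.pi * I * ((Hg c (l : ι → ℂ) m).im : ℝ))) *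
      cexp (-(Real.pi * (Hg c u l + Hg c m l - (Hg c u m + Hg c m m))) -
        Real.pi / 2 * (Hg c l l - Hg c m l - (Hg c l m - Hg c m m)) +
        Real.pi * Hg c (u + l) v) =
      e m * cexp (Real.pi * Hg c u m + Real.pi / 2 * Hg c m m) * (e (l : ι → ℂ) *
        cexp (-(Real.pi * Hg c u l) - Real.pi / 2 * Hg c l l + Real.pi * Hg c (u + l) v)) := by
    have h8 : cexp (-(Real.pi * I * ((Hg c (l : ι → ℂ) m).im : ℝ))) *
      cexp (-(Real.pi * (Hg c u l + Hg c m l - (Hg c u m + Hg c m m))) -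
        Real.pi / 2 * (Hg c l l - Hg c m l - (Hg c l m - Hg c m m)) +
        Real.pi * Hg c (u + l) v) = cexp (Real.pi * Hg c u m + Real.pi / 2 * Hg c m m) *
        cexp (-(Real.pi * Hg c u l) - Real.pi / 2 * Hg c l l + Real.pi * Hg c (u + l) v) := by
      rw [← Complex.exp_add, ← Complex.exp_add]
      congr 1
      linear_combination (Real.pi / 2 : ℂ) * h6
    linear_combination (e (l : ι → ℂ) * e m) * h8
  simp only [TSum_add] at h7 ⊢
  exact h7

end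

end Pool.Agent.RHT
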