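import Pool.Agent.RHT.IntH
import Pool.Agent.RHT.Span
import Pool.Agent.RHT.TLat
import Pool.Agent.RHT.TNon

/-!
RHT-ThE. Existence of the theta function: put `exists_bas`, `exists_semi`, `thser_diff`,
`thser_qp`, `thser_ne` together (`P.H u v = Hg (fun t => P.cf t) u v` by definition).
-/

set_option autoImplicit false

namespace Pool.Agent.RHT.Par

open Complex ComplexConjugate Finset

noncomputable section

variable (P : Par)

theorem exists_Th : Nonempty P.Th := by
  have hc : ∀ i : P.Ix, 0 < P.cf i := fun i => P.cf_pos i.2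
  have hint : ∀ l ∈ P.Lam, ∀ m ∈ P.Lam, ∃ n : ℤ,
      (Hg (fun t : P.Ix => P.cf t) l m).im = n := fun l hl m hm => P.H_int hl hm
  obtain ⟨n, bs, hb⟩ := exists_bas (fun t : P.Ix => P.cf t) hc P.Lam (Set.range P.mu)
    P.mu_finite rfl P.span_mu hint
  obtain ⟨e, he⟩ := exists_semi (fun t : P.Ix => P.cf t) P.Lam bs hb hint
  obtain ⟨u, v, huv⟩ := thser_ne (fun t : P.Ix => P.cf t) hc P.Lam bs hb e he
  have h1 : ∀ l ∈ P.Lam, ‖e l‖ = 1 := by
    intro l hl
    rcases he.1 l hl with h | h <;> rw [h] <;> simp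
  exact ⟨{ T := thser (fun t : P.Ix => P.cf t) P.Lam e v
           dT := thser_diff _ hc P.Lam bs hb e (fun l hl => (h1 l hl).le) v
           nT := ⟨u, huv⟩
           e := e
           he := h1
           qp := fun l hl w => thser_qp _ hc P.Lam bs hb e he hint v l hl w }⟩

end

end Pool.Agent.RHT.Par
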