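import Pool.Agent.RHT.Glue
import Pool.Agent.RHT.H6b

/-!
RHT-ThL. The logarithmic derivatives of the theta function. Plan: `T_add` from `θ.qp`;
`L_add`: differentiate `θ.qp` in `u` (the derivative of `P.H u l` in direction `e_t` is
`cf t * conj (l t)`). `Z_pt`, `ell_pt` from `glue` (`Th.L_diff`, `Th.PP_symm` are in H6b).
`T_ne_top`: the function is not locally zero: `Om c` is preconnected and at infinity along a
vertical ray `Cv → 0` (`Iv_tendsto`), `T u ≠ 0`.
-/

set_option autoImplicit false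

namespace Pool.Agent.RHT.Par

open Complex ComplexConjugate Finset Filter Topology

noncomputable section

variable {P : Par} (θ : P.Th)

private theorem ThL_e_ne {l : P.V} (hl : l ∈ P.Lam) : θ.e l ≠ 0 := by
  intro h
  have := θ.he l hl
  rw [h, norm_zero] at this
  exact zero_ne_one this

theorem T_add_zero {l : P.V} (hl : l ∈ P.Lam) (v : P.V) : θ.T (v + l) = 0 ↔ θ.T v = 0 := by
  rw [θ.qp l hl v]
  constructor
  · intro h
    rcases mul_eq_zero.1 h with h | h
    · rcases mul_eq_zero.1 h with h | h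
      · exact absurd h (ThL_e_ne θ hl)
      · exact absurd h (Complex.exp_ne_zero _)
    · exact h
  · intro h
    rw [h, mul_zero]

private theorem ThL_H_line (v l : P.V) (t : P.Ix) (s : ℂ) :
    P.H (v + s • Pi.single t 1) l = P.H v l + s * ((P.cf t : ℂ) * conj (l t)) := by
  unfold H
  have h1 : ∀ i : P.Ix, (P.cf i : ℂ) * (v + s • (Pi.single t 1 : P.V)) i * conj (l i) =
      (P.cf i : ℂ) * v i * conj (l i) +
        (if i = t then s * ((P.cf i : ℂ) * conj (l i)) else 0) := by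
    intro i
    by_cases h : i = t
    · subst h
      simp only [Pi.add_apply, Pi.smul_apply, Pi.single_eq_same, smul_eq_mul, mul_one, if_true]
      ring
    · simp only [Pi.add_apply, Pi.smul_apply, Pi.single_eq_of_ne h, smul_eq_mul, mul_zero,
        add_zero, if_neg h]
  rw [Finset.sum_congr rfl fun i _ => h1 i, Finset.sum_add_distrib]
  simp

private theorem ThL_line_deriv (v : P.V) (t : P.Ix) :
    HasDerivAt (fun s : ℂ => θ.T (v + s • Pi.single t 1)) (fderiv ℂ θ.T v (Pi.single t 1)) 0 := by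
  have h1 : HasDerivAt (fun s : ℂ => v + s • (Pi.single t 1 : P.V)) (Pi.single t 1) 0 := by
    simpa using ((hasDerivAt_id (0 : ℂ)).smul_const (Pi.single t 1 : P.V)).const_add v
  have h2 : HasFDerivAt θ.T (fderiv ℂ θ.T v) (v + (0 : ℂ) • (Pi.single t 1 : P.V)) := by
    rw [zero_smul, add_zero]
    exact (θ.dT v).hasFDerivAt
  exact h2.comp_hasDerivAt (0 : ℂ) h1

theorem L_add {l : P.V} (hl : l ∈ P.Lam) {v : P.V} (hv : θ.T v ≠ 0) (t : P.Ix) :
    θ.L t (v + l) = θ.L t v + Real.pi * P.cf t * conj (l t) := by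
  have h1 := ThL_line_deriv θ (v + l) t
  have h2 : (fun s : ℂ => θ.T (v + l + s • Pi.single t 1)) = fun s : ℂ =>
      θ.e l * cexp (Real.pi * (P.H v l + s * ((P.cf t : ℂ) * conj (l t))) +
        Real.pi / 2 * P.H l l) * θ.T (v + s • Pi.single t 1) := by
    funext s
    have h := θ.qp l hl (v + s • Pi.single t 1)
    rw [ThL_H_line] at h
    rw [← h]
    congr 1
    abel
  rw [h2] at h1
  have h3 := ThL_line_deriv θ v t
  have h4 : HasDerivAt (fun s : ℂ => θ.e l * cexp (Real.pi * (P.H v l +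
      s * ((P.cf t : ℂ) * conj (l t))) + Real.pi / 2 * P.H l l))
      (θ.e l * (cexp (Real.pi * (P.H v l + (0 : ℂ) * ((P.cf t : ℂ) * conj (l t))) +
        Real.pi / 2 * P.H l l) * (Real.pi * ((P.cf t : ℂ) * conj (l t))))) 0 := by
    have e1 : HasDerivAt (fun s : ℂ => (Real.pi : ℂ) * (P.H v l +
        s * ((P.cf t : ℂ) * conj (l t))) + Real.pi / 2 * P.H l l)
        (Real.pi * ((P.cf t : ℂ) * conj (l t))) 0 := by
      have e2 := (((hasDerivAt_id (0 : ℂ)).mul_const ((P.cf t : ℂ) * conj (l t))).const_add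
        (P.H v l)).const_mul (Real.pi : ℂ)
      simpa using e2.add_const (Real.pi / 2 * P.H l l)
    exact (e1.cexp).const_mul (θ.e l)
  have h5 := h4.mul h3
  have h6 := h1.unique h5
  have hE : θ.T (v + l) = θ.e l * cexp (Real.pi * P.H v l + Real.pi / 2 * P.H l l) * θ.T v :=
    θ.qp l hl v
  show fderiv ℂ θ.T (v + l) (Pi.single t 1) / θ.T (v + l) = fderiv ℂ θ.T v (Pi.single t 1) / θ.T v +
    Real.pi * P.cf t * conj (l t)
  rw [h6, hE]
  have he := ThL_e_ne θ hl
  have hexp := Complex.exp_ne_zero (Real.pi * P.H v l + Real.pi / 2 * P.H l l)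
  simp only [zero_mul, add_zero, zero_smul]
  field_simp
  ring

private theorem ThL_sum (v w : P.V) :
    fderiv ℂ θ.T v w = ∑ t : P.Ix, fderiv ℂ θ.T v (Pi.single t 1) * w t := by
  have h := LinearMap.pi_apply_eq_sum_univ ((fderiv ℂ θ.T v : P.V →L[ℂ] ℂ) : P.V →ₗ[ℂ] ℂ) w
  simp only [ContinuousLinearMap.coe_coe, smul_eq_mul] at h
  rw [h]
  refine Finset.sum_congr rfl fun t _ => ?_
  rw [mul_comm]
  congr 2
  funext j
  rw [Pi.single_apply]
  simp [eq_comm]

theorem T_hasDerivAt (u : P.V) {c : Bool} (k : ℤ) {x : ℂ} (hx : x ∈ Om c) :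
    HasDerivAt (fun x => θ.T (P.Cv c k x + u))
      (∑ t : P.Ix, fderiv ℂ θ.T (P.Cv c k x + u) (Pi.single t 1) * P.F t (P.pt c k x)) x := by
  have h1 := (Cv_deriv (P := P) k hx).add_const u
  have h2 := (θ.dT (P.Cv c k x + u)).hasFDerivAt.comp_hasDerivAt x h1
  rw [ThL_sum] at h2
  exact h2

/-- along the curve `T'/T = ∑ F_t L_t` -/
theorem logder (u : P.V) {c : Bool} (k : ℤ) {x : ℂ} (hx : x ∈ Om c)
    (h : θ.T (P.Cv c k x + u) ≠ 0) :
    deriv (fun x => θ.T (P.Cv c k x + u)) x / θ.T (P.Cv c k x + u) =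
      ∑ t : P.Ix, P.F t (P.pt c k x) * θ.L t (P.Cv c k x + u) := by
  rw [(T_hasDerivAt θ u k hx).deriv, Finset.sum_div]
  refine Finset.sum_congr rfl fun t _ => ?_
  unfold Th.L
  ring

theorem Z_pt (u : P.V) {c : Bool} (k : ℤ) {x : ℂ} (hx : x ∈ Om c) :
    P.pt c k x ∈ θ.Z u ↔ θ.T (P.Cv c k x + u) = 0 := by
  obtain ⟨l, hl, h1, -⟩ := glue (P := P) k hx
  have h2 : P.Cz (P.pt c k x) + u = (P.Cv c k x + u) + l := by
    rw [h1]; abel
  unfold Th.Z
  rw [Set.mem_ofPred_eq, h2, T_add_zero θ hl]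
  exact ⟨fun h => h.2, fun h => ⟨P.pt_mem k hx, h⟩⟩

theorem ell_pt (u : P.V) (t : P.Ix) {c : Bool} (k : ℤ) {x : ℂ} (hx : x ∈ Om c)
    (h : θ.T (P.Cv c k x + u) ≠ 0) :
    θ.ell u t (P.pt c k x) = θ.L t (P.Cv c k x + u) - P.ka t * P.Jv c k x t := by
  obtain ⟨l, hl, h1, h3⟩ := glue (P := P) k hx
  have h2 : P.Cz (P.pt c k x) + u = (P.Cv c k x + u) + l := by
    rw [h1]; abel
  have h4 := h3 t
  unfold Th.ell
  rw [h2, L_add θ hl h]
  have h5 : (P.pt c k x).1 = x := rfl
  rw [h5, h4]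
  ring

private theorem ThL_analytic (u : P.V) {c : Bool} (k : ℤ) :
    AnalyticOnNhd ℂ (fun x => θ.T (P.Cv c k x + u)) (Om c) := by
  refine DifferentiableOn.analyticOnNhd (fun x hx => ?_) (Om_isOpen c)
  exact (T_hasDerivAt θ u k hx).differentiableAt.differentiableWithinAt

private theorem ThL_ray (c : Bool) : Tendsto (fun n : ℕ => ((0 : ℂ) - sg c * I * ((n + 1 : ℕ) : ℝ)))
    atTop (Bornology.cobounded ℂ ⊓ 𝓟 (Hc c)) := by
  have hsg : ‖((sg c : ℝ) : ℂ)‖ = 1 := by
    cases c <;> simp [sg]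
  have hsg2 : sg c * sg c = 1 := by
    cases c <;> simp [sg]
  refine tendsto_inf.2 ⟨?_, ?_⟩
  · rw [← tendsto_norm_atTop_iff_cobounded]
    have h1 : (fun n : ℕ => ‖((0 : ℂ) - sg c * I * ((n + 1 : ℕ) : ℝ))‖) = fun n : ℕ => (((n + 1 : ℕ)) : ℝ) := by
      funext n
      rw [zero_sub, norm_neg, norm_mul, norm_mul, hsg, Complex.norm_I, Complex.norm_real]
      simp only [one_mul]
      exact abs_of_nonneg (Nat.cast_nonneg _)
    rw [h1]
    exact tendsto_natCast_atTop_atTop.comp (tendsto_add_atTop_nat 1)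
  · rw [tendsto_principal]
    refine Eventually.of_forall fun n => ?_
    show sg c * ((0 : ℂ) - sg c * I * ((n + 1 : ℕ) : ℝ)).im ≤ 0
    have h2 : ((0 : ℂ) - sg c * I * ((n + 1 : ℕ) : ℝ)).im = -(sg c * ((n + 1 : ℕ) : ℝ)) := by
      simp
    rw [h2]
    have h3 : sg c * -(sg c * ((n + 1 : ℕ) : ℝ)) = -((n + 1 : ℕ) : ℝ) := by
      rw [mul_neg, ← mul_assoc, hsg2, one_mul]
    rw [h3]
    exact neg_nonpos.2 (Nat.cast_nonneg _)

private theorem ThL_ray_Om (c : Bool) (n : ℕ) : ((0 : ℂ) - sg c * I * ((n + 1 : ℕ) : ℝ)) ∈ Om c := by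
  have hsg2 : sg c * sg c = 1 := by
    cases c <;> simp [sg]
  have h2 : ((0 : ℂ) - sg c * I * ((n + 1 : ℕ) : ℝ)).im = -(sg c * ((n + 1 : ℕ) : ℝ)) := by
    simp
  have h3 : sg c * ((0 : ℂ) - sg c * I * ((n + 1 : ℕ) : ℝ)).im = -((n + 1 : ℕ) : ℝ) := by
    rw [h2, mul_neg, ← mul_assoc, hsg2, one_mul]
  have h4 : (0 : ℝ) < ((n + 1 : ℕ) : ℝ) := by exact_mod_cast Nat.succ_pos n
  refine ⟨fun h => ?_, fun h => ?_⟩
  · have := h.2
    rw [h3] at this
    linarith
  · have := h.2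
    rw [h3] at this
    linarith

private theorem ThL_Cv_tendsto (c : Bool) (k : ℤ) :
    Tendsto (fun n : ℕ => P.Cv c k ((0 : ℂ) - sg c * I * ((n + 1 : ℕ) : ℝ))) atTop (𝓝 0) := by
  rw [tendsto_pi_nhds]
  intro t
  have ht := P.al_add_be_Phi t.2
  have h0 := (P.Phi_pos t.2).1
  have hD : (0 : ℝ) < P.D := by
    have := P.hD
    exact_mod_cast (by omega : 0 < P.D)
  have h1 : 1 < P.al t + P.be t := by
    rw [ht]
    have : (0 : ℝ) < ((t : ℕ) : ℝ) / P.D := div_pos (by exact_mod_cast h0) hD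
    linarith
  have h2 := (Iv_tendsto (c := c) h1).comp (ThL_ray c)
  have h3 := h2.const_mul (P.ze ^ (-(k * ((t : ℕ) : ℤ))))
  rw [mul_zero] at h3
  exact h3

theorem T_order (u : P.V) (hu : θ.T u ≠ 0) {c : Bool} (k : ℤ) {x : ℂ} (hx : x ∈ Om c) :
    AnalyticAt ℂ (fun x => θ.T (P.Cv c k x + u)) x ∧
      analyticOrderAt (fun x => θ.T (P.Cv c k x + u)) x ≠ ⊤ := by
  refine ⟨ThL_analytic θ u k x hx, fun h => ?_⟩
  rw [analyticOrderAt_eq_top] at h
  have h1 := (ThL_analytic θ u k).eqOn_zero_of_preconnected_of_eventuallyEq_zero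
    (Om_isPreconnected c) hx h
  have h2 : Tendsto (fun n : ℕ => θ.T (P.Cv c k ((0 : ℂ) - sg c * I * ((n + 1 : ℕ) : ℝ)) + u))
      atTop (𝓝 (θ.T u)) := by
    have h3 : Tendsto (fun n : ℕ => P.Cv c k ((0 : ℂ) - sg c * I * ((n + 1 : ℕ) : ℝ)) + u)
        atTop (𝓝 u) := by
      have := (ThL_Cv_tendsto (P := P) c k).add_const u
      rwa [zero_add] at this
    exact ((θ.dT u).continuousAt.tendsto).comp h3
  have h4 : (fun n : ℕ => θ.T (P.Cv c k ((0 : ℂ) - sg c * I * ((n + 1 : ℕ) : ℝ)) + u)) =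
      fun _ => 0 := by
    funext n
    exact h1 (ThL_ray_Om c n)
  rw [h4] at h2
  exact hu (tendsto_nhds_unique h2 tendsto_const_nhds)

private theorem ThL_both {x : ℂ} (h1 : x ∈ Om true) (h2 : x ∈ Om false) : x.re ≠ 0 ∧ x.re ≠ 1 := by
  constructor
  · intro h
    rcases le_total 0 x.im with h3 | h3
    · exact h1.1 ⟨h, by simpa [sg] using h3⟩
    · exact h2.1 ⟨h, by simpa [sg] using h3⟩
  · intro h
    rcases le_total 0 x.im with h3 | h3
    · exact h1.2 ⟨h, by simpa [sg] using h3⟩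
    · exact h2.2 ⟨h, by simpa [sg] using h3⟩

private theorem ThL_loc_aux {k k' : ℤ} {x : ℂ} (h1 : x ∈ Om true) (h2 : x ∈ Om false)
    (h : P.pt true k x = P.pt false k' x) :
    ∀ᶠ y in 𝓝 x, P.pt true k y = P.pt false k' y := by
  obtain ⟨h3, h4⟩ := ThL_both h1 h2
  rcases lt_or_gt_of_ne h3 with h5 | h5
  · rw [P.pt_left k h5, P.pt_eq_iff] at h
    filter_upwards [(isOpen_lt Complex.continuous_re continuous_const).mem_nhds h5] with y hy
    rw [P.pt_left k hy, P.pt_eq_iff]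
    exact h
  · rcases lt_or_gt_of_ne h4 with h6 | h6
    · rw [P.pt_mid k h5 h6, P.pt_eq_iff] at h
      filter_upwards [(isOpen_lt continuous_const Complex.continuous_re).mem_nhds h5,
        (isOpen_lt Complex.continuous_re continuous_const).mem_nhds h6] with y hy hy'
      rw [P.pt_mid k hy hy', P.pt_eq_iff]
      exact h
    · rw [P.pt_right k h6, P.pt_eq_iff] at h
      filter_upwards [(isOpen_lt continuous_const Complex.continuous_re).mem_nhds h6] with y hy
      rw [P.pt_right k hy, P.pt_eq_iff]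
      exact h

private theorem ThL_loc {c c' : Bool} {k k' : ℤ} {x : ℂ} (h1 : x ∈ Om c) (h2 : x ∈ Om c')
    (h : P.pt c k x = P.pt c' k' x) : ∀ᶠ y in 𝓝 x, P.pt c k y = P.pt c' k' y := by
  cases c <;> cases c'
  · rw [P.pt_eq_iff] at h
    refine Eventually.of_forall fun y => ?_
    rw [P.pt_eq_iff]
    exact h
  · filter_upwards [ThL_loc_aux h2 h1 h.symm] with y hy
    exact hy.symm
  · exact ThL_loc_aux h1 h2 h
  · rw [P.pt_eq_iff] at h
    refine Eventually.of_forall fun y => ?_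
    rw [P.pt_eq_iff]
    exact h

/-- the multiplicity does not depend on the chart -/
theorem mult_pt (u : P.V) {c : Bool} (k : ℤ) {x : ℂ} (hx : x ∈ Om c) :
    θ.mult u (P.pt c k x) = analyticOrderNatAt (fun x => θ.T (P.Cv c k x + u)) x := by
  obtain ⟨l, hl, h1, -⟩ := glue (P := P) k hx
  obtain ⟨h2, -, h3⟩ := ks_spec (P.pt_mem k hx)
  have hx1 : (P.pt c k x).1 = x := rfl
  rw [hx1] at h2 h3
  unfold Th.mult
  rw [hx1]
  set c' := cs (P.pt c k x) with hc'
  set k' : ℤ := ((P.ks (P.pt c k x) : ℕ) : ℤ) with hk'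
  have hCz : P.Cz (P.pt c k x) = P.Cv c' k' x := rfl
  rw [hCz] at h1
  have hloc := ThL_loc h2 hx h3
  have hopen : ∀ᶠ y in 𝓝 x, y ∈ Om c ∧ y ∈ Om c' ∧ P.pt c' k' y = P.pt c k y :=
    ((Om_isOpen c).eventually_mem hx).and (((Om_isOpen c').eventually_mem h2).and hloc)
  obtain ⟨r, hr, hball⟩ := Metric.eventually_nhds_iff_ball.1 hopen
  have hC : ∀ y ∈ Metric.ball x r, P.Cv c' k' y = P.Cv c k y + l := by
    have h5 : Set.EqOn (fun y => P.Cv c' k' y) (fun y => P.Cv c k y + l) (Metric.ball x r) := by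
      refine Metric.isOpen_ball.eqOn_of_deriv_eq (convex_ball x r).isPreconnected ?_ ?_ ?_
        (Metric.mem_ball_self hr) h1
      · intro y hy
        exact (Cv_deriv k' (hball y hy).2.1).differentiableAt.differentiableWithinAt
      · intro y hy
        exact ((Cv_deriv k (hball y hy).1).add_const l).differentiableAt.differentiableWithinAt
      · intro y hy
        show deriv (fun y => P.Cv c' k' y) y = deriv (fun y => P.Cv c k y + l) y
        rw [((Cv_deriv k (hball y hy).1).add_const l).deriv]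
        have h6 := (Cv_deriv (P := P) k' (hball y hy).2.1).deriv
        rw [(hball y hy).2.2] at h6
        exact h6
    exact fun y hy => h5 hy
  unfold analyticOrderNatAt
  have hev : (fun y => θ.T (P.Cv c' k' y + u)) =ᶠ[𝓝 x]
      ((fun y => θ.e l * cexp (Real.pi * P.H (P.Cv c k y + u) l + Real.pi / 2 * P.H l l)) *
        fun y => θ.T (P.Cv c k y + u)) := by
    filter_upwards [Metric.ball_mem_nhds x hr] with y hy
    rw [hC y hy]
    have h7 : P.Cv c k y + l + u = (P.Cv c k y + u) + l := by abel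
    rw [h7, θ.qp l hl]
    rfl
  rw [analyticOrderAt_congr hev]
  have hA : AnalyticAt ℂ (fun y => θ.e l * cexp (Real.pi * P.H (P.Cv c k y + u) l +
      Real.pi / 2 * P.H l l)) x := by
    have h8 : DifferentiableOn ℂ (fun y => θ.e l * cexp (Real.pi * P.H (P.Cv c k y + u) l +
        Real.pi / 2 * P.H l l)) (Om c) := by
      intro y hy
      have h9 : ∀ i : P.Ix, DifferentiableAt ℂ (fun y => P.Cv c k y i) y := by
        intro i
        exact (hasDerivAt_pi.1 (Cv_deriv (P := P) k hy) i).differentiableAt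
      have h10 : DifferentiableAt ℂ (fun y => P.H (P.Cv c k y + u) l) y := by
        unfold H
        refine DifferentiableAt.fun_sum fun i _ => ?_
        exact (((h9 i).add_const (u i)).const_mul _).mul_const _
      exact (((h10.const_mul _).add_const _).cexp.const_mul _).differentiableWithinAt
    exact (h8.analyticOnNhd (Om_isOpen c)) x hx
  have hB : AnalyticAt ℂ (fun y => θ.T (P.Cv c k y + u)) x := ThL_analytic θ u k x hx
  rw [analyticOrderAt_mul hA hB]
  have h0 : analyticOrderAt (fun y => θ.e l * cexp (Real.pi * P.H (P.Cv c k y + u) l +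
      Real.pi / 2 * P.H l l)) x = 0 := by
    rw [hA.analyticOrderAt_eq_zero]
    exact mul_ne_zero (ThL_e_ne θ hl) (Complex.exp_ne_zero _)
  rw [h0, zero_add]

end

end Pool.Agent.RHT.Par
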