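import Pool.Agent.RHT.ZExp
import Pool.Agent.RHT.ThE
import Pool.Agent.RHT.LocN
import Pool.Agent.RHT.NFt
import Pool.Agent.RHT.EEm
import Pool.Agent.RHT.SfQ
import Pool.Agent.RHT.NewL

/-!
RHT-ThP. The theta function for `a + b = D + 1`. Plan: `θ` (`exists_Th`), `z` (`exists_ZD`), `v0`
(`exists_NF`); `s X = θ.Sf v0 (EE τ (fun _ => I) X)`; `NF_EE`, `NF_algTay` give
`AlgTay s`; `v i = ‖Pe (τ i)‖`, `I * v i = Pe (τ i)` (`Pe_eq`), `κ i = 2 π ga (τ i)`, `α i` from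
`norm_Pe`, `alg_factor`; `N` from `new_lattice`. For `u i = N emb c (τ i)` put
`l = fun t => if coprime then N emb c t * Pe t else 0`: by `hall` `EE τ I (v (z + u)) =
EE τ I (v z) + l` and `Sf_qp` is the claim: `2 π H w l + π H l l = ∑_i κ_i (conj u_i z_i + ‖u_i‖²/2)`
(`cf_mul`; the coordinates `t` not of the form `τ i` vanish).
-/

set_option autoImplicit false

namespace Pool.Agent.RHT

open Complex ComplexConjugate Finset RHK

noncomputable section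

private theorem thp_sum {P : Par} {g : ℕ} (τ : Fin g → P.Ix) (hτ : Function.Injective τ)
    (hall : ∀ t : P.Ix, Nat.Coprime (t : ℕ) P.D → ∃ i, τ i = t) (f : P.Ix → ℂ)
    (hf : ∀ t : P.Ix, ¬ Nat.Coprime (t : ℕ) P.D → f t = 0) :
    ∑ t, f t = ∑ i, f (τ i) := by
  refine (Fintype.sum_of_injective τ hτ _ _ ?_ fun i => rfl).symm
  intro t ht
  refine hf t fun h => ht ?_
  obtain ⟨i, hi⟩ := hall t h
  exact ⟨i, hi⟩

private theorem thp_I : IsAlgebraic ℚ (I : ℂ) := by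
  refine ⟨Polynomial.X ^ 2 + 1, ?_, by simp⟩
  intro h
  have := congrArg (fun q : Polynomial ℚ => q.eval 0) h
  simp at this

private theorem thp_z {v : ℝ} {P u : ℂ} (c : ℂ) (z : ℂ) (h : P = I * v) :
    c * (I * (v * z)) * conj (u * P) = c * (v : ℂ) ^ 2 * (conj u * z) := by
  rw [h, map_mul, map_mul, Complex.conj_I, Complex.conj_ofReal]
  linear_combination (-(c * (v:ℂ) ^ 2 * z * conj u)) * Complex.I_sq

private theorem thp_l {v : ℝ} {P u : ℂ} (c : ℂ) (h : P = I * v) :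
    c * (u * P) * conj (u * P) = c * (v : ℂ) ^ 2 * ((‖u‖ ^ 2 : ℝ) : ℂ) := by
  have h1 : ((‖u‖ ^ 2 : ℝ) : ℂ) = u * conj u := by
    rw [Complex.mul_conj, Complex.normSq_eq_norm_sq]
  rw [h1, h, map_mul, map_mul, Complex.conj_I, Complex.conj_ofReal]
  linear_combination (-(c * (v:ℂ) ^ 2 * u * conj u)) * Complex.I_sq

theorem thetaPar (P : Par) (g : ℕ) (τ : Fin g → P.Ix) (hτ : Function.Injective τ)
    (hcop : ∀ i, Nat.Coprime (τ i : ℕ) P.D)
    (hall : ∀ t : P.Ix, Nat.Coprime (t : ℕ) P.D → ∃ i, τ i = t) :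
    ∃ (s : (Fin g → ℂ) → ℂ) (κ v α : Fin g → ℝ) (N : ℕ), 0 < N ∧ (∀ i, 0 < κ i) ∧
      (∀ i, 0 < v i) ∧ (∀ i, IsAlgebraic ℚ (κ i / Real.pi)) ∧ (∀ i, IsAlgebraic ℚ (α i)) ∧
      (∀ i, α i ≠ 0) ∧
      (∀ i, v i = α i * (Real.Gamma (1 - P.al (τ i)) * Real.Gamma (1 - P.be (τ i)) /
        Real.Gamma (2 - P.al (τ i) - P.be (τ i)))) ∧
      Differentiable ℂ s ∧ (∃ z, s z ≠ 0) ∧ AlgTay s ∧
      ∀ c : ℕ → ℤ, QPn (fun z => s (fun i => v i * z i)) κ
        (fun i => (N : ℂ) * emb P.D c (τ i : ℕ)) := by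
  classical
  obtain ⟨θ⟩ := P.exists_Th
  obtain ⟨z⟩ := Par.exists_ZD θ
  obtain ⟨v0, hv0, hNF⟩ := Par.exists_NF θ z
  obtain ⟨N, hN, hlat⟩ := P.new_lattice
  have hDE : Differentiable ℂ (fun X : Fin g → ℂ => θ.Sf v0 (EE τ (fun _ => I) X)) :=
    (Par.Sf_diff θ v0).comp (EE_diff τ _)
  have hpe : ∀ i, P.Pe (τ i) = I * ((‖P.Pe (τ i)‖ : ℝ) : ℂ) := fun i => (P.Pe_eq (τ i).2).1
  refine ⟨fun X => θ.Sf v0 (EE τ (fun _ => I) X), fun i => 2 * Real.pi * P.ga (τ i),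
    fun i => ‖P.Pe (τ i)‖, fun i => 2 * Real.sin (Real.pi * P.al (τ i)) *
      Real.sin (Real.pi * P.be (τ i)) / Real.sin (Real.pi * (τ i : ℕ) / P.D), N, hN, ?_, ?_, ?_,
    fun i => (P.alg_factor (τ i).2).1, fun i => (P.alg_factor (τ i).2).2.ne',
    fun i => P.norm_Pe (τ i).2, hDE, ⟨0, ?_⟩, NF_algTay hDE (NF_EE hNF τ _ fun _ => thp_I), ?_⟩
  · intro i
    have := P.ga_pos (τ i).2
    have := Real.pi_pos
    positivity
  · exact fun i => (P.Pe_eq (τ i).2).2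
  · intro i
    have h1 : 2 * Real.pi * P.ga (τ i) / Real.pi = 2 * P.ga (τ i) := by
      field_simp
    show IsAlgebraic ℚ (2 * Real.pi * P.ga (τ i) / Real.pi)
    rw [h1]
    have h2 : IsAlgebraic ℚ (2 : ℝ) := by
      simpa using isAlgebraic_algebraMap (R := ℚ) (A := ℝ) 2
    exact h2.mul (P.ga_alg _)
  · have h1 : EE τ (fun _ => I) (0 : Fin g → ℂ) = 0 := by
      funext t
      simp [EE]
    show θ.Sf v0 (EE τ (fun _ => I) 0) ≠ 0
    rw [h1, Par.Sf_zero θ hv0]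
    exact one_ne_zero
  · intro c
    obtain ⟨e, he, hq⟩ := Par.Sf_qp θ v0 (hlat c)
    refine ⟨e, he, fun x => ?_⟩
    set l : P.V := fun t : P.Ix =>
      if Nat.Coprime (t : ℕ) P.D then (N : ℂ) * emb P.D c t * P.Pe t else 0 with hl
    set w : P.V := EE τ (fun _ => I) (fun i => ((‖P.Pe (τ i)‖ : ℝ) : ℂ) * x i) with hw
    have hli : ∀ i, l (τ i) = ((N : ℂ) * emb P.D c (τ i : ℕ)) * P.Pe (τ i) := by
      intro i
      simp only [hl, if_pos (hcop i)]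
    have hwi : ∀ i, w (τ i) = I * (((‖P.Pe (τ i)‖ : ℝ) : ℂ) * x i) := fun i =>
      EE_apply τ hτ _ _ i
    have hl0 : ∀ t : P.Ix, ¬ Nat.Coprime (t : ℕ) P.D → l t = 0 := by
      intro t ht
      simp only [hl, if_neg ht]
    have hE : EE τ (fun _ => I) (fun i => ((‖P.Pe (τ i)‖ : ℝ) : ℂ) *
        (x + fun i => (N : ℂ) * emb P.D c (τ i : ℕ)) i) = w + l := by
      funext t
      by_cases ht : Nat.Coprime (t : ℕ) P.D
      · obtain ⟨i, rfl⟩ := hall t ht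
        show _ = w (τ i) + l (τ i)
        rw [EE_apply τ hτ, Pi.add_apply, hwi, hli]
        linear_combination (-((N : ℂ) * emb P.D c (τ i : ℕ))) * hpe i
      · have hne : ∀ i, τ i ≠ t := by
          rintro i rfl
          exact ht (hcop i)
        show _ = w t + l t
        rw [EE_ne τ _ _ hne, hl0 t ht, hw, EE_ne τ _ _ hne, add_zero]
    show θ.Sf v0 (EE τ (fun _ => I) (fun i => ((‖P.Pe (τ i)‖ : ℝ) : ℂ) *
        (x + fun i => (N : ℂ) * emb P.D c (τ i : ℕ)) i)) = _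
    rw [hE, hq w]
    congr 2
    congr 1
    have h1 : P.H w l = ∑ i, ((P.ga (τ i) : ℝ) : ℂ) *
        (conj ((N : ℂ) * emb P.D c (τ i : ℕ)) * x i) := by
      unfold Par.H
      rw [thp_sum τ hτ hall _ (fun t ht => by rw [hl0 t ht]; simp)]
      refine Finset.sum_congr rfl fun i _ => ?_
      rw [hwi, hli, thp_z _ _ (hpe i)]
      have h2 := P.cf_mul (τ i).2
      have h3 : ((P.cf (τ i) : ℝ) : ℂ) * ((‖P.Pe (τ i)‖ : ℝ) : ℂ) ^ 2 = ((P.ga (τ i) : ℝ) : ℂ) := by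
        rw [← h2]
        push_cast
        ring
      rw [h3]
    have h2 : P.H l l = ∑ i, ((P.ga (τ i) : ℝ) : ℂ) *
        ((‖(N : ℂ) * emb P.D c (τ i : ℕ)‖ ^ 2 : ℝ) : ℂ) := by
      unfold Par.H
      rw [thp_sum τ hτ hall _ (fun t ht => by rw [hl0 t ht]; simp)]
      refine Finset.sum_congr rfl fun i _ => ?_
      rw [hli, thp_l _ (hpe i)]
      have h2 := P.cf_mul (τ i).2
      have h3 : ((P.cf (τ i) : ℝ) : ℂ) * ((‖P.Pe (τ i)‖ : ℝ) : ℂ) ^ 2 = ((P.ga (τ i) : ℝ) : ℂ) := by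
        rw [← h2]
        push_cast
        ring
      rw [h3]
    rw [h1, h2, Finset.mul_sum, Finset.mul_sum, ← Finset.sum_add_distrib]
    refine Finset.sum_congr rfl fun i _ => ?_
    push_cast
    ring

end

end Pool.Agent.RHT
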