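import Pool.Agent.RHT.Inv
import Pool.Agent.RHT.Expl

/-!
# Project RHT: results of sections 3 - 5 (helper6)

`Par.exists_ZD` is in Inv, `Par.ZD.det_ne` (= `W_det`), `W_rho`, `rho_W` in Rho, `Par.ZD.explicit`
in Expl.
-/

set_option autoImplicit false

namespace Pool.Agent.RHT.Par.ZD

open Complex ComplexConjugate Finset

noncomputable section

variable {P : Par} {θ : P.Th} (z : P.ZD θ)

theorem W_det {x : P.Ix → ℂ} (hx : x ∈ z.U) : (z.W x).det ≠ 0 := z.det_ne hx

end

end Pool.Agent.RHT.Par.ZD
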